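import Mathlib

/-!
Dense symmetric relations contain cliques.
-/

set_option autoImplicit false

namespace Pool.Agent.Lib.MP_a8d5c3_co.Stab

open Classical in
theorem exists_clique {α : Type*} (adj : α → α → Prop) (hsymm : ∀ x y, adj x y → adj y x)
    (r : ℕ) : ∀ Q : Finset α,
    4 ^ r * ((Q ×ˢ Q).filter fun p => ¬ adj p.1 p.2).card < Q.card ^ 2 →
    ∃ f : Fin (r + 1) → α, (∀ i, f i ∈ Q) ∧ ∀ i j, i ≠ j → adj (f i) (f j) := by
  induction r with
  | zero =>
    intro Q h
    have hne : Q.Nonempty := by
      rw [← Finset.card_pos]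
      by_contra h0
      have : Q.card = 0 := by omega
      rw [this] at h; simp at h
    obtain ⟨x, hx⟩ := hne
    refine ⟨fun _ => x, fun _ => hx, fun i j hij => ?_⟩
    exact absurd (Fin.ext (by omega)) hij
  | succ r ih =>
    intro Q h
    -- a vertex with few non-neighbours
    have hsum : ((Q ×ˢ Q).filter fun p => ¬ adj p.1 p.2).card =
        ∑ x ∈ Q, (Q.filter fun y => ¬ adj x y).card := by
      rw [Finset.card_filter, Finset.sum_product]
      refine Finset.sum_congr rfl fun x _ => ?_
      rw [Finset.card_filter]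
    obtain ⟨x, hx, hxs⟩ : ∃ x ∈ Q, 4 ^ (r + 1) * (Q.filter fun y => ¬ adj x y).card < Q.card := by
      by_contra hcon
      push Not at hcon
      have h1 : ∑ _x ∈ Q, Q.card ≤ ∑ x ∈ Q, 4 ^ (r + 1) * (Q.filter fun y => ¬ adj x y).card :=
        Finset.sum_le_sum hcon
      rw [Finset.sum_const, smul_eq_mul, ← Finset.mul_sum, ← hsum, ← sq] at h1
      omega
    set Q' := Q.filter fun y => adj x y with hQ'
    have hcard : Q'.card + (Q.filter fun y => ¬ adj x y).card = Q.card :=
      Finset.card_filter_add_card_filter_not _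
    have h4 : 4 * (Q.filter fun y => ¬ adj x y).card < Q.card := by
      have : 4 * (Q.filter fun y => ¬ adj x y).card ≤
          4 ^ (r + 1) * (Q.filter fun y => ¬ adj x y).card := by
        apply Nat.mul_le_mul_right
        calc 4 = 4 ^ 1 := by norm_num
          _ ≤ 4 ^ (r + 1) := Nat.pow_le_pow_right (by norm_num) (by omega)
      omega
    have hQ2 : Q.card ≤ 2 * Q'.card := by omega
    have hsub : ((Q' ×ˢ Q').filter fun p => ¬ adj p.1 p.2).card ≤
        ((Q ×ˢ Q).filter fun p => ¬ adj p.1 p.2).card := by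
      apply Finset.card_le_card
      intro p hp
      rw [Finset.mem_filter, Finset.mem_product] at hp ⊢
      exact ⟨⟨(Finset.mem_filter.mp hp.1.1).1, (Finset.mem_filter.mp hp.1.2).1⟩, hp.2⟩
    obtain ⟨f, hf, hf2⟩ := ih Q' (by
      have h5 : 4 ^ r * ((Q' ×ˢ Q').filter fun p => ¬ adj p.1 p.2).card * 4 < Q'.card ^ 2 * 4 := by
        calc 4 ^ r * ((Q' ×ˢ Q').filter fun p => ¬ adj p.1 p.2).card * 4 ≤
            4 ^ r * ((Q ×ˢ Q).filter fun p => ¬ adj p.1 p.2).card * 4 := by
              apply Nat.mul_le_mul_right; apply Nat.mul_le_mul_left; exact hsub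
          _ = 4 ^ (r + 1) * ((Q ×ˢ Q).filter fun p => ¬ adj p.1 p.2).card := by ring
          _ < Q.card ^ 2 := h
          _ ≤ (2 * Q'.card) ^ 2 := Nat.pow_le_pow_left hQ2 2
          _ = Q'.card ^ 2 * 4 := by ring
      omega)
    refine ⟨Fin.cons x f, ?_, ?_⟩
    · intro i
      refine Fin.cases ?_ (fun j => ?_) i
      · simpa using hx
      · simpa using (Finset.mem_filter.mp (hf j)).1
    · intro i j
      refine Fin.cases ?_ (fun i' => ?_) i
      · refine Fin.cases ?_ (fun j' => ?_) j
        · intro h; exact absurd rfl h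
        · intro _
          simpa using (Finset.mem_filter.mp (hf j')).2
      · refine Fin.cases ?_ (fun j' => ?_) j
        · intro _
          simpa using hsymm _ _ (Finset.mem_filter.mp (hf i')).2
        · intro hne
          have : i' ≠ j' := fun h => hne (by rw [h])
          simpa using hf2 i' j' this

end Pool.Agent.Lib.MP_a8d5c3_co.Stab
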