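import Mathlib

/-!
Powers of ideals spanned by some of the variables: membership in terms of the support, and
multiplicativity of the order.
-/

set_option autoImplicit false

namespace Pool.Agent.Lib.MP_a8d5c3_co.Stab

open MvPolynomial

section general

variable {σ : Type*} {R : Type*}

/-- the ideal spanned by the variables in `A` -/
noncomputable def vI (R : Type*) [CommRing R] (A : Finset σ) : Ideal (MvPolynomial σ R) :=
  Ideal.span (X '' (A : Set σ))

/-- weight of an exponent -/
def wt (A : Finset σ) (s : σ →₀ ℕ) : ℕ := ∑ i ∈ A, s i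

theorem wt_add (A : Finset σ) (s t : σ →₀ ℕ) : wt A (s + t) = wt A s + wt A t := by
  simp [wt, Finset.sum_add_distrib]

theorem wt_single (A : Finset σ) [DecidableEq σ] (i : σ) (b : ℕ) :
    wt A (Finsupp.single i b) = if i ∈ A then b else 0 := by
  unfold wt
  split_ifs with h
  · rw [Finset.sum_eq_single_of_mem i h]
    · simp
    · intro b _ hb; rw [Finsupp.single_eq_of_ne hb]
  · apply Finset.sum_eq_zero
    intro b hb
    have : b ≠ i := by rintro rfl; exact h hb
    rw [Finsupp.single_eq_of_ne this]

variable [CommRing R]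

theorem mem_vI_pow_of {A : Finset σ} {k : ℕ} {f : MvPolynomial σ R}
    (h : ∀ s ∈ f.support, k ≤ wt A s) : f ∈ (vI R A) ^ k := by
  classical
  rw [f.as_sum]
  refine Ideal.sum_mem _ fun s hs => ?_
  have h1 := h s hs
  have h2 : monomial s (f.coeff s) = C (f.coeff s) * ∏ i ∈ s.support, (X i : MvPolynomial σ R) ^ s i := by
    rw [monomial_eq]; rfl
  rw [h2]
  refine Ideal.mul_mem_left _ _ ?_
  have h3 : (∏ i ∈ s.support ∩ A, (X i : MvPolynomial σ R) ^ s i) ∈ (vI R A) ^ (wt A s) := by
    have : wt A s = ∑ i ∈ s.support ∩ A, s i := by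
      unfold wt
      symm
      apply Finset.sum_subset Finset.inter_subset_right
      intro x hx hx'
      by_contra hne
      exact hx' (Finset.mem_inter.mpr ⟨Finsupp.mem_support_iff.mpr hne, hx⟩)
    rw [this, ← Finset.prod_pow_eq_pow_sum]
    refine Ideal.prod_mem_prod fun i hi => ?_
    refine Ideal.pow_mem_pow ?_ _
    exact Ideal.subset_span ⟨i, (Finset.mem_inter.mp hi).2, rfl⟩
  have h4 : (∏ i ∈ s.support, (X i : MvPolynomial σ R) ^ s i) =
      (∏ i ∈ s.support ∩ A, (X i : MvPolynomial σ R) ^ s i) *
      (∏ i ∈ s.support \ A, (X i : MvPolynomial σ R) ^ s i) := by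
    rw [← Finset.sdiff_inter_self_left, mul_comm, Finset.prod_sdiff Finset.inter_subset_left]
  rw [h4]
  exact Ideal.mul_mem_right _ _ (Ideal.pow_le_pow_right h1 h3)

theorem wt_of_mem_vI_pow {A : Finset σ} {k : ℕ} {f : MvPolynomial σ R}
    (h : f ∈ (vI R A) ^ k) : ∀ s ∈ f.support, k ≤ wt A s := by
  classical
  induction k generalizing f with
  | zero => intro s _; exact Nat.zero_le _
  | succ k ih =>
    rw [pow_succ'] at h
    refine Submodule.mul_induction_on h ?_ ?_
    · intro m hm n hn s hs
      have h1 := ih hn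
      have h2 := mem_ideal_span_X_image.mp hm
      obtain ⟨a, ha, b, hb, rfl⟩ := Finset.mem_add.mp (support_mul m n hs)
      obtain ⟨i, hi, hi0⟩ := h2 a ha
      have h3 : 1 ≤ wt A a := by
        unfold wt
        exact le_trans (Nat.one_le_iff_ne_zero.mpr hi0)
          (Finset.single_le_sum (f := fun i => a i) (fun _ _ => Nat.zero_le _) hi)
      rw [wt_add]
      have := h1 b hb
      omega
    · intro x y hx hy s hs
      rcases Finset.mem_union.mp (support_add hs) with h' | h'
      · exact hx s h'
      · exact hy s h'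

theorem mem_vI_pow {A : Finset σ} {k : ℕ} {f : MvPolynomial σ R} :
    f ∈ (vI R A) ^ k ↔ ∀ s ∈ f.support, k ≤ wt A s :=
  ⟨wt_of_mem_vI_pow, mem_vI_pow_of⟩

theorem mem_vI_pow' {A : Finset σ} {k : ℕ} {f : MvPolynomial σ R} :
    f ∈ (vI R A) ^ k ↔ ∀ s, wt A s < k → f.coeff s = 0 := by
  rw [mem_vI_pow]
  constructor
  · intro h s hs
    by_contra hne
    have := h s (mem_support_iff.mpr hne)
    omega
  · intro h s hs
    by_contra hlt
    exact mem_support_iff.mp hs (h s (by omega))

/-- the homomorphism multiplying the variables in `A` by the new variable -/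
noncomputable def phiA (A : Finset σ) [DecidableEq σ] :
    MvPolynomial σ R →ₐ[R] Polynomial (MvPolynomial σ R) :=
  aeval fun i => if i ∈ A then Polynomial.C (X i) * Polynomial.X else Polynomial.C (X i)

theorem phiA_monomial (A : Finset σ) [DecidableEq σ] (s : σ →₀ ℕ) (c : R) :
    phiA A (monomial s c) = Polynomial.monomial (wt A s) (monomial s c) := by
  induction s using Finsupp.induction₂ generalizing c with
  | zero =>
    have : monomial 0 c = C (σ := σ) c := rfl
    rw [this]
    simp only [phiA, algHom_C]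
    simp [wt]
  | add_single a b f ha hb ih =>
    rw [monomial_add_single, map_mul, map_pow, ih]
    have : wt A (f + Finsupp.single a b) = wt A f + (if a ∈ A then b else 0) := by
      rw [wt_add, wt_single]
    rw [this]
    simp only [phiA, aeval_X]
    split_ifs with h
    · rw [mul_pow, ← map_pow, ← Polynomial.C_mul_X_pow_eq_monomial,
        ← Polynomial.C_mul_X_pow_eq_monomial, map_mul, pow_add]
      ring
    · rw [← map_pow, ← Polynomial.C_mul_X_pow_eq_monomial,
        ← Polynomial.C_mul_X_pow_eq_monomial, map_mul, add_zero]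
      ring

theorem phiA_coeff (A : Finset σ) [DecidableEq σ] (f : MvPolynomial σ R) (k : ℕ) (s : σ →₀ ℕ) :
    ((phiA A f).coeff k).coeff s = if wt A s = k then f.coeff s else 0 := by
  induction f using MvPolynomial.induction_on' with
  | monomial u a =>
    rw [phiA_monomial, Polynomial.coeff_monomial, coeff_monomial]
    by_cases hus : u = s
    · subst hus
      rw [if_pos rfl]
      split_ifs with h1 <;> simp
    · rw [if_neg hus]
      split_ifs with h1 h2 <;> simp [coeff_monomial, hus]
  | add p q hp hq =>
    rw [map_add, Polynomial.coeff_add, coeff_add, hp, hq, coeff_add]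
    split_ifs <;> simp

theorem mem_vI_pow_iff_dvd {A : Finset σ} [DecidableEq σ] {k : ℕ} {f : MvPolynomial σ R} :
    f ∈ (vI R A) ^ k ↔ Polynomial.X ^ k ∣ phiA A f := by
  rw [mem_vI_pow', Polynomial.X_pow_dvd_iff]
  constructor
  · intro h d hd
    ext s
    rw [phiA_coeff]
    split_ifs with h1
    · rw [h s (by omega)]; simp
    · simp
  · intro h s hs
    have := congrArg (coeff s) (h (wt A s) hs)
    rw [phiA_coeff] at this
    simpa using this

theorem phiA_eq_zero {A : Finset σ} [DecidableEq σ] {f : MvPolynomial σ R} (h : phiA A f = 0) :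
    f = 0 := by
  ext s
  have := congrArg (fun p => coeff s (Polynomial.coeff p (wt A s))) h
  simp only [phiA_coeff] at this
  simpa using this

end general

section domain

variable {σ : Type*} {R : Type*} [CommRing R] [IsDomain R]

theorem not_mem_vI_pow_mul {A : Finset σ} {a b : ℕ} {f g : MvPolynomial σ R}
    (hf : f ∉ (vI R A) ^ (a + 1)) (hg : g ∉ (vI R A) ^ (b + 1)) :
    f * g ∉ (vI R A) ^ (a + b + 1) := by
  classical
  rw [mem_vI_pow_iff_dvd] at *
  intro h
  rw [map_mul] at h
  have hf0 : phiA A f ≠ 0 := by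
    intro h0; rw [h0] at hf; exact hf (dvd_zero _)
  have hg0 : phiA A g ≠ 0 := by
    intro h0; rw [h0] at hg; exact hg (dvd_zero _)
  have h1 : ¬ (a + 1 ≤ (phiA A f).natTrailingDegree) := by
    intro h1
    exact hf ((Polynomial.X_pow_dvd_iff).mpr fun d hd =>
      Polynomial.coeff_eq_zero_of_lt_natTrailingDegree (by omega))
  have h2 : ¬ (b + 1 ≤ (phiA A g).natTrailingDegree) := by
    intro h1
    exact hg ((Polynomial.X_pow_dvd_iff).mpr fun d hd =>
      Polynomial.coeff_eq_zero_of_lt_natTrailingDegree (by omega))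
  have h3 := Polynomial.natTrailingDegree_mul hf0 hg0
  have h4 := (Polynomial.X_pow_dvd_iff).mp h ((phiA A f * phiA A g).natTrailingDegree) (by omega)
  rw [← Polynomial.trailingCoeff, Polynomial.trailingCoeff_eq_zero] at h4
  exact mul_ne_zero hf0 hg0 h4

end domain

end Pool.Agent.Lib.MP_a8d5c3_co.Stab
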