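import Mathlib
import Pool.Agent.Lib.MP_a8d5c3_co.Stab.Weight

/-!
Basic objects of the stability proof: non-horizontal lines of `ℂ^3`, ideals of lines and points,
affine changes of coordinates (frames).
-/

set_option autoImplicit false

namespace Pool.Agent.Lib.MP_a8d5c3_co.Stab

open MvPolynomial Matrix

/-- the polynomial ring in three variables -/
abbrev P3 := MvPolynomial (Fin 3) ℂ

/-- points of `ℂ^3` -/
abbrev Pt := Fin 3 → ℂ

/-- the non-horizontal line `{(p + t u, t) : t ∈ ℂ}` -/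
@[ext] structure Ln where
  /-- foot point at height 0 -/
  p : Fin 2 → ℂ
  /-- slope -/
  u : Fin 2 → ℂ

namespace Ln

/-- direction vector -/
def dir (l : Ln) : Pt := ![l.u 0, l.u 1, 1]

/-- the point of height `t` -/
def pt (l : Ln) (t : ℂ) : Pt := ![l.p 0 + t * l.u 0, l.p 1 + t * l.u 1, t]

/-- `q` lies on `l` -/
def Has (l : Ln) (q : Pt) : Prop := q = l.pt (q 2)

/-- the ideal of `l` -/
noncomputable def I (l : Ln) : Ideal P3 :=
  Ideal.span {X 0 - C (l.p 0) - C (l.u 0) * X 2, X 1 - C (l.p 1) - C (l.u 1) * X 2}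

theorem has_pt (l : Ln) (t : ℂ) : l.Has (l.pt t) := by
  simp [Has, pt]

@[simp] theorem pt_two (l : Ln) (t : ℂ) : l.pt t 2 = t := by simp [pt]

theorem Has.zero {l : Ln} {q : Pt} (h : l.Has q) : q 0 = l.p 0 + q 2 * l.u 0 := by
  have := congrFun h 0
  simpa [pt] using this

theorem Has.one {l : Ln} {q : Pt} (h : l.Has q) : q 1 = l.p 1 + q 2 * l.u 1 := by
  have := congrFun h 1
  simpa [pt] using this

theorem has_iff {l : Ln} {q : Pt} :
    l.Has q ↔ q 0 = l.p 0 + q 2 * l.u 0 ∧ q 1 = l.p 1 + q 2 * l.u 1 := by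
  constructor
  · intro h; exact ⟨h.zero, h.one⟩
  · rintro ⟨h0, h1⟩
    unfold Has pt
    ext i; fin_cases i
    · simpa using h0
    · simpa using h1
    · simp

end Ln

/-- the maximal ideal of a point -/
noncomputable def mI (q : Pt) : Ideal P3 :=
  Ideal.span {X 0 - C (q 0), X 1 - C (q 1), X 2 - C (q 2)}

/-- affine linear form -/
noncomputable def linF (a : Pt) (d : ℂ) : P3 :=
  C (a 0) * X 0 + C (a 1) * X 1 + C (a 2) * X 2 + C d

theorem linF_mem_I {l : Ln} {a : Pt} {d : ℂ} (h1 : a 0 * l.u 0 + a 1 * l.u 1 + a 2 = 0)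
    (h2 : a 0 * l.p 0 + a 1 * l.p 1 + d = 0) : linF a d ∈ l.I := by
  have : linF a d = C (a 0) * (X 0 - C (l.p 0) - C (l.u 0) * X 2) +
      C (a 1) * (X 1 - C (l.p 1) - C (l.u 1) * X 2) +
      (C (a 0 * l.u 0 + a 1 * l.u 1 + a 2) * X 2 + C (a 0 * l.p 0 + a 1 * l.p 1 + d)) := by
    unfold linF
    simp only [map_add, map_mul]
    ring
  rw [this, h1, h2]
  simp only [map_zero, zero_mul, add_zero]
  exact Ideal.add_mem _ (Ideal.mul_mem_left _ _ (Ideal.subset_span (by simp)))
    (Ideal.mul_mem_left _ _ (Ideal.subset_span (by simp)))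

theorem linF_mem_mI {q : Pt} {a : Pt} {d : ℂ} (h : a 0 * q 0 + a 1 * q 1 + a 2 * q 2 + d = 0) :
    linF a d ∈ mI q := by
  have : linF a d = C (a 0) * (X 0 - C (q 0)) + C (a 1) * (X 1 - C (q 1)) +
      C (a 2) * (X 2 - C (q 2)) + C (a 0 * q 0 + a 1 * q 1 + a 2 * q 2 + d) := by
    unfold linF
    simp only [map_add, map_mul]
    ring
  rw [this, h]
  simp only [map_zero, add_zero]
  exact Ideal.add_mem _ (Ideal.add_mem _ (Ideal.mul_mem_left _ _ (Ideal.subset_span (by simp)))
    (Ideal.mul_mem_left _ _ (Ideal.subset_span (by simp))))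
    (Ideal.mul_mem_left _ _ (Ideal.subset_span (by simp)))

theorem I_le_mI {l : Ln} {q : Pt} (h : l.Has q) : l.I ≤ mI q := by
  unfold Ln.I
  rw [Ideal.span_le]
  rintro f (rfl | rfl)
  · have : (X 0 - C (l.p 0) - C (l.u 0) * X 2 : P3) = linF ![1, 0, -l.u 0] (-l.p 0) := by
      simp [linF]; ring
    rw [this]
    apply linF_mem_mI
    simp [h.zero]; ring
  · have : (X 1 - C (l.p 1) - C (l.u 1) * X 2 : P3) = linF ![0, 1, -l.u 1] (-l.p 1) := by
      simp [linF]; ring
    rw [this]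
    apply linF_mem_mI
    simp [h.one]; ring

/-! ### affine substitutions -/

/-- `(aff q E f)(x) = f (q + E x)` -/
noncomputable def aff (q : Pt) (E : Matrix (Fin 3) (Fin 3) ℂ) : P3 →ₐ[ℂ] P3 :=
  aeval fun i => C (q i) + ∑ j, C (E i j) * X j

theorem aff_X (q : Pt) (E : Matrix (Fin 3) (Fin 3) ℂ) (i : Fin 3) :
    aff q E (X i) = C (q i) + ∑ j, C (E i j) * X j := by
  simp [aff]

theorem aff_C (q : Pt) (E : Matrix (Fin 3) (Fin 3) ℂ) (c : ℂ) : aff q E (C c) = C c := by
  simp [aff]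

theorem aff_comp (q q' : Pt) (E E' : Matrix (Fin 3) (Fin 3) ℂ) :
    (aff q E).comp (aff q' E') = aff (q' + E' *ᵥ q) (E' * E) := by
  apply MvPolynomial.algHom_ext
  intro i
  rw [AlgHom.comp_apply, aff_X, aff_X, map_add, map_sum, aff_C]
  simp only [map_mul, aff_C, aff_X, Pi.add_apply, mulVec, dotProduct, Matrix.mul_apply,
    Fin.sum_univ_three, map_add]
  ring

theorem aff_zero_one : aff 0 1 = AlgHom.id ℂ P3 := by
  apply MvPolynomial.algHom_ext
  intro i
  rw [aff_X]
  fin_cases i <;> simp [Fin.sum_univ_three, Matrix.one_apply]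

/-- the automorphism given by an invertible affine substitution -/
noncomputable def affE (q : Pt) (E : Matrix (Fin 3) (Fin 3) ℂ) (h : IsUnit E.det) : P3 ≃ₐ[ℂ] P3 :=
  AlgEquiv.ofAlgHom (aff q E) (aff (-(E⁻¹ *ᵥ q)) E⁻¹)
    (by
      rw [aff_comp, Matrix.nonsing_inv_mul _ h]
      simp [aff_zero_one])
    (by
      rw [aff_comp, Matrix.mul_nonsing_inv _ h]
      rw [Matrix.mulVec_neg, Matrix.mulVec_mulVec, Matrix.mul_nonsing_inv _ h]
      simp [aff_zero_one])

theorem affE_apply (q : Pt) (E : Matrix (Fin 3) (Fin 3) ℂ) (h : IsUnit E.det) (f : P3) :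
    affE q E h f = aff q E f := rfl

theorem affE_symm_apply (q : Pt) (E : Matrix (Fin 3) (Fin 3) ℂ) (h : IsUnit E.det) (f : P3) :
    (affE q E h).symm f = aff (-(E⁻¹ *ᵥ q)) E⁻¹ f := rfl

theorem aff_linF (q : Pt) (E : Matrix (Fin 3) (Fin 3) ℂ) (a : Pt) (d : ℂ) :
    aff q E (linF a d) = linF (a ᵥ* E) (a ⬝ᵥ q + d) := by
  unfold linF
  simp only [map_add, map_mul, aff_C, aff_X, vecMul, dotProduct, Fin.sum_univ_three]
  ring

theorem X_eq_linF (i : Fin 3) : (X i : P3) = linF (Pi.single i 1) 0 := by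
  fin_cases i <;> simp [linF]

theorem X_sub_C_eq_linF (i : Fin 3) (c : ℂ) : (X i - C c : P3) = linF (Pi.single i 1) (-c) := by
  rw [X_eq_linF]
  unfold linF
  rw [map_neg, map_zero]
  ring

theorem linF_mem_vI {A : Finset (Fin 3)} {a : Pt} (h : ∀ i, i ∉ A → a i = 0) :
    linF a 0 ∈ vI ℂ A := by
  have key : ∀ i, C (a i) * X i ∈ vI ℂ A := by
    intro i
    by_cases hi : i ∈ A
    · exact Ideal.mul_mem_left _ _ (Ideal.subset_span ⟨i, hi, rfl⟩)
    · rw [h i hi]; simp
  unfold linF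
  rw [map_zero, add_zero]
  exact Ideal.add_mem _ (Ideal.add_mem _ (key 0) (key 1)) (key 2)

/-- the ideal of a line becomes the ideal of a coordinate axis in a frame having the direction
of the line as `i`-th column -/
theorem map_I {l : Ln} {q : Pt} {E : Matrix (Fin 3) (Fin 3) ℂ} (hE : IsUnit E.det) {i : Fin 3}
    (hq : l.Has q) (hi : ∀ j, E j i = l.dir j) :
    (l.I).map (affE q E hE) = vI ℂ (Finset.univ.erase i) := by
  have h0 : E 0 i = l.u 0 := by simpa [Ln.dir] using hi 0
  have h1 : E 1 i = l.u 1 := by simpa [Ln.dir] using hi 1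
  have h2 : E 2 i = 1 := by simpa [Ln.dir] using hi 2
  apply le_antisymm
  · rw [Ideal.map_le_iff_le_comap]
    unfold Ln.I
    rw [Ideal.span_le]
    rintro f (rfl | rfl)
    · have : (X 0 - C (l.p 0) - C (l.u 0) * X 2 : P3) = linF ![1, 0, -l.u 0] (-l.p 0) := by
        simp [linF]; ring
      rw [this]
      change affE q E hE (linF _ _) ∈ vI ℂ (Finset.univ.erase i)
      rw [affE_apply, aff_linF]
      have h3 : (![1, 0, -l.u 0] : Pt) ⬝ᵥ q + -l.p 0 = 0 := by
        simp [dotProduct, Fin.sum_univ_three, hq.zero]; ring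
      rw [h3]
      apply linF_mem_vI
      intro j hj
      have : j = i := by simpa using hj
      subst this
      simp [vecMul, dotProduct, Fin.sum_univ_three, h0, h2]
    · have : (X 1 - C (l.p 1) - C (l.u 1) * X 2 : P3) = linF ![0, 1, -l.u 1] (-l.p 1) := by
        simp [linF]; ring
      rw [this]
      change affE q E hE (linF _ _) ∈ vI ℂ (Finset.univ.erase i)
      rw [affE_apply, aff_linF]
      have h3 : (![0, 1, -l.u 1] : Pt) ⬝ᵥ q + -l.p 1 = 0 := by
        simp [dotProduct, Fin.sum_univ_three, hq.one]; ring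
      rw [h3]
      apply linF_mem_vI
      intro j hj
      have : j = i := by simpa using hj
      subst this
      simp [vecMul, dotProduct, Fin.sum_univ_three, h1, h2]
  · unfold vI
    rw [Ideal.span_le]
    rintro f ⟨j, hj, rfl⟩
    have hji : j ≠ i := by simpa using hj
    have h3 : (X j : P3) = affE q E hE ((affE q E hE).symm (X j)) := by simp
    rw [h3]
    apply Ideal.mem_map_of_mem
    rw [affE_symm_apply, X_eq_linF, aff_linF]
    have hinv : E⁻¹ * E = 1 := Matrix.nonsing_inv_mul _ hE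
    -- row j of the inverse kills the direction
    have hrow : E⁻¹ j 0 * l.u 0 + E⁻¹ j 1 * l.u 1 + E⁻¹ j 2 = 0 := by
      have := congrFun (congrFun hinv j) i
      rw [Matrix.mul_apply, Fin.sum_univ_three, h0, h1, h2, Matrix.one_apply, if_neg hji] at this
      linear_combination this
    apply linF_mem_I
    · simp only [Matrix.single_one_vecMul, Matrix.row_apply]
      linear_combination hrow
    · have hp0 : l.p 0 = q 0 - q 2 * l.u 0 := by rw [hq.zero]; ring
      have hp1 : l.p 1 = q 1 - q 2 * l.u 1 := by rw [hq.one]; ring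
      simp only [Matrix.single_one_vecMul, single_one_dotProduct, Matrix.row_apply]
      simp only [Pi.neg_apply, mulVec, dotProduct, Fin.sum_univ_three, hp0, hp1, add_zero]
      linear_combination -q 2 * hrow

theorem mem_I_pow_iff_frame {l : Ln} {q : Pt} {E : Matrix (Fin 3) (Fin 3) ℂ} (hE : IsUnit E.det)
    {i : Fin 3} (hq : l.Has q) (hi : ∀ j, E j i = l.dir j) (k : ℕ) (f : P3) :
    f ∈ l.I ^ k ↔ aff q E f ∈ (vI ℂ (Finset.univ.erase i)) ^ k := by
  rw [← map_I hE hq hi, ← Ideal.map_pow, ← affE_apply q E hE]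
  constructor
  · intro h; exact Ideal.mem_map_of_mem _ h
  · intro h
    have := (Ideal.mem_map_of_equiv (affE q E hE).toRingEquiv (affE q E hE f) (I := l.I ^ k)).mp h
    obtain ⟨x, hx, hx'⟩ := this
    have : x = f := (affE q E hE).injective hx'
    rwa [← this]

/-- maximal ideals in a frame -/
theorem map_mI {q x : Pt} {E : Matrix (Fin 3) (Fin 3) ℂ} (hE : IsUnit E.det) :
    (mI (q + E *ᵥ x)).map (affE q E hE) = mI x := by
  apply le_antisymm
  · rw [Ideal.map_le_iff_le_comap]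
    unfold mI
    rw [Ideal.span_le]
    have key : ∀ i : Fin 3, affE q E hE (X i - C ((q + E *ᵥ x) i)) ∈ mI x := by
      intro i
      rw [X_sub_C_eq_linF, affE_apply, aff_linF]
      apply linF_mem_mI
      simp only [Matrix.single_one_vecMul, single_one_dotProduct, Pi.add_apply,
        Matrix.row_apply]
      simp only [mulVec, dotProduct, Fin.sum_univ_three]
      ring
    rintro f (rfl | rfl | rfl)
    · exact key 0
    · exact key 1
    · exact key 2
  · unfold mI
    rw [Ideal.span_le]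
    have key : ∀ j : Fin 3, (X j - C (x j) : P3) ∈ (mI (q + E *ᵥ x)).map (affE q E hE) := by
      intro j
      have h3 : (X j - C (x j) : P3) = affE q E hE ((affE q E hE).symm (X j - C (x j))) := by simp
      rw [h3]
      apply Ideal.mem_map_of_mem
      rw [X_sub_C_eq_linF, affE_symm_apply, aff_linF]
      apply linF_mem_mI
      have hinv : E⁻¹ * E = 1 := Matrix.nonsing_inv_mul _ hE
      have h4 : (E⁻¹ *ᵥ (E *ᵥ x)) j = x j := by
        rw [Matrix.mulVec_mulVec, hinv, Matrix.one_mulVec]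
      simp only [Matrix.single_one_vecMul, single_one_dotProduct, Pi.add_apply, Pi.neg_apply,
        Matrix.row_apply]
      have h5 : (E⁻¹ *ᵥ (q + E *ᵥ x)) j = (E⁻¹ *ᵥ q) j + (E⁻¹ *ᵥ (E *ᵥ x)) j := by
        rw [Matrix.mulVec_add]; rfl
      have h6 : (E⁻¹ *ᵥ (q + E *ᵥ x)) j = E⁻¹ j 0 * (q 0 + (E *ᵥ x) 0) +
          E⁻¹ j 1 * (q 1 + (E *ᵥ x) 1) + E⁻¹ j 2 * (q 2 + (E *ᵥ x) 2) := by
        simp [mulVec, dotProduct, Fin.sum_univ_three]
      linear_combination -h6 + h5 + h4
    rintro f (rfl | rfl | rfl)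
    · exact key 0
    · exact key 1
    · exact key 2

theorem mem_mI_pow_iff_frame {q x : Pt} {E : Matrix (Fin 3) (Fin 3) ℂ} (hE : IsUnit E.det)
    (k : ℕ) (f : P3) : f ∈ mI (q + E *ᵥ x) ^ k ↔ aff q E f ∈ (mI x) ^ k := by
  rw [← map_mI (q := q) (x := x) hE, ← Ideal.map_pow, ← affE_apply q E hE]
  constructor
  · intro h; exact Ideal.mem_map_of_mem _ h
  · intro h
    have := (Ideal.mem_map_of_equiv (affE q E hE).toRingEquiv (affE q E hE f)
      (I := mI (q + E *ᵥ x) ^ k)).mp h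
    obtain ⟨y, hy, hy'⟩ := this
    have : y = f := (affE q E hE).injective hy'
    rwa [← this]

theorem mI_zero : mI 0 = vI ℂ Finset.univ := by
  unfold mI vI
  congr 1
  ext f
  simp only [Pi.zero_apply, map_zero, sub_zero, Set.mem_insert_iff, Set.mem_singleton_iff,
    Finset.coe_univ, Set.image_univ, Set.mem_range]
  constructor
  · rintro (rfl | rfl | rfl) <;> exact ⟨_, rfl⟩
  · rintro ⟨i, rfl⟩
    fin_cases i <;> simp

theorem mem_mI_pow_iff_frame0 {q : Pt} {E : Matrix (Fin 3) (Fin 3) ℂ} (hE : IsUnit E.det)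
    (k : ℕ) (f : P3) : f ∈ mI q ^ k ↔ aff q E f ∈ (vI ℂ Finset.univ) ^ k := by
  have := mem_mI_pow_iff_frame (q := q) (x := 0) hE k f
  rwa [Matrix.mulVec_zero, add_zero, mI_zero] at this

/-- the frame of a line -/
def lineE (l : Ln) : Matrix (Fin 3) (Fin 3) ℂ := !![1, 0, l.u 0; 0, 1, l.u 1; 0, 0, 1]

theorem lineE_det (l : Ln) : IsUnit (lineE l).det := by
  have : (lineE l).det = 1 := by
    simp [lineE, Matrix.det_fin_three]
  rw [this]; exact isUnit_one

theorem lineE_col (l : Ln) (j : Fin 3) : lineE l j 2 = l.dir j := by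
  fin_cases j <;> simp [lineE, Ln.dir]

/-- the frame of three directions -/
def triE (t : Fin 3 → Ln) : Matrix (Fin 3) (Fin 3) ℂ := Matrix.of fun i j => (t j).dir i

theorem triE_det {t : Fin 3 → Ln} (h : LinearIndependent ℂ fun i => (t i).dir) :
    IsUnit (triE t).det := by
  have h1 : LinearIndependent ℂ (triE t)ᵀ.row := by
    exact h
  rw [Matrix.linearIndependent_rows_iff_isUnit, Matrix.isUnit_iff_isUnit_det,
    Matrix.det_transpose] at h1
  exact h1

theorem triE_col (t : Fin 3 → Ln) (i j : Fin 3) : triE t j i = (t i).dir j := rfl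

end Pool.Agent.Lib.MP_a8d5c3_co.Stab
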