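import Mathlib
import Pool.Agent.Lib.MP_a8d5c3_co.Stab.Basic

/-!
Orders of vanishing along lines and at points, slices of polynomials, the line inequality and the
joint inequality.
-/

set_option autoImplicit false

namespace Pool.Agent.Lib.MP_a8d5c3_co.Stab

open MvPolynomial Matrix

/-! ### degree of an affine substitution -/

theorem totalDegree_aff_X_le (q : Pt) (E : Matrix (Fin 3) (Fin 3) ℂ) (i : Fin 3) :
    (aff q E (X i)).totalDegree ≤ 1 := by
  rw [aff_X]
  refine (totalDegree_add _ _).trans (max_le (by simp) ?_)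
  refine (totalDegree_finsetSum _ _).trans ?_
  refine Finset.sup_le fun j _ => ?_
  refine (totalDegree_mul _ _).trans ?_
  simp

theorem totalDegree_aff_le (q : Pt) (E : Matrix (Fin 3) (Fin 3) ℂ) (f : P3) :
    (aff q E f).totalDegree ≤ f.totalDegree := by
  conv_lhs => rw [f.as_sum]
  rw [map_sum]
  refine (totalDegree_finsetSum _ _).trans ?_
  refine Finset.sup_le fun s hs => ?_
  rw [monomial_eq, map_mul, aff_C, Finsupp.prod, map_prod]
  refine (totalDegree_mul _ _).trans ?_
  rw [totalDegree_C, zero_add]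
  refine (totalDegree_finsetProd _ _).trans ?_
  refine le_trans ?_ (le_totalDegree hs)
  rw [Finsupp.sum]
  refine Finset.sum_le_sum fun i _ => ?_
  rw [map_pow]
  refine (totalDegree_pow _ _).trans ?_
  have := totalDegree_aff_X_le q E i
  nlinarith

/-! ### slices -/

/-- the one variable polynomial formed by the coefficients of `f` at the exponents which agree
with `r` outside `i` -/
noncomputable def sl (i : Fin 3) (r : Fin 3 →₀ ℕ) (f : P3) : Polynomial ℂ :=
  ∑ c ∈ Finset.range (f.totalDegree + 1),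
    Polynomial.monomial c (f.coeff (r.erase i + Finsupp.single i c))

theorem sl_coeff (i : Fin 3) (r : Fin 3 →₀ ℕ) (f : P3) (c : ℕ) :
    (sl i r f).coeff c = f.coeff (r.erase i + Finsupp.single i c) := by
  unfold sl
  rw [Polynomial.finsetSum_coeff]
  simp only [Polynomial.coeff_monomial]
  rw [Finset.sum_ite_eq']
  split_ifs with h
  · rfl
  · symm
    by_contra hne
    have h1 := le_totalDegree (mem_support_iff.mpr hne)
    have h2 : c ≤ (r.erase i + Finsupp.single i c).sum fun _ e => e := by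
      rw [Finsupp.sum_add_index' (by simp) (by simp)]
      rw [Finsupp.sum_single_index rfl]
      omega
    simp only [Finset.mem_range] at h
    omega

theorem sl_zero (i : Fin 3) (r : Fin 3 →₀ ℕ) : sl i r 0 = 0 := by
  ext c; rw [sl_coeff]; simp

theorem sl_add (i : Fin 3) (r : Fin 3 →₀ ℕ) (f g : P3) : sl i r (f + g) = sl i r f + sl i r g := by
  ext c; rw [Polynomial.coeff_add, sl_coeff, sl_coeff, sl_coeff, coeff_add]

theorem sl_smul (i : Fin 3) (r : Fin 3 →₀ ℕ) (a : ℂ) (f : P3) :
    sl i r (C a * f) = Polynomial.C a * sl i r f := by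
  ext c; rw [sl_coeff, coeff_C_mul, Polynomial.coeff_C_mul, sl_coeff]

theorem sl_sub (i : Fin 3) (r : Fin 3 →₀ ℕ) (f g : P3) : sl i r (f - g) = sl i r f - sl i r g := by
  ext c; rw [Polynomial.coeff_sub, sl_coeff, sl_coeff, sl_coeff, coeff_sub]

theorem sl_X_mul_self (i : Fin 3) (r : Fin 3 →₀ ℕ) (f : P3) :
    sl i r (X i * f) = Polynomial.X * sl i r f := by
  ext c
  rw [sl_coeff, mul_comm, coeff_mul_X']
  rcases c with _ | c
  · rw [if_neg, Polynomial.coeff_X_mul_zero]
    simp [Finsupp.mem_support_iff]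
  · rw [if_pos, Polynomial.coeff_X_mul, sl_coeff]
    · congr 1
      ext j
      simp only [Finsupp.coe_tsub, Finsupp.coe_add, Pi.sub_apply, Pi.add_apply]
      by_cases hj : j = i
      · subst hj; simp
      · simp [Finsupp.single_apply, Ne.symm hj]
    · simp [Finsupp.mem_support_iff]

theorem sl_X_mul_ne {i j : Fin 3} (hij : j ≠ i) (r : Fin 3 →₀ ℕ) (f : P3) :
    sl i r (X j * f) = if r j = 0 then 0 else sl i (r - Finsupp.single j 1) f := by
  ext c
  rw [sl_coeff, mul_comm, coeff_mul_X']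
  have h1 : (Finsupp.erase i r + Finsupp.single i c) j = r j := by
    simp [Finsupp.erase_ne hij, Finsupp.single_apply, Ne.symm hij]
  split_ifs with h2 h3 h3
  · rw [Finsupp.mem_support_iff, h1] at h2; exact absurd h3 h2
  · rw [sl_coeff]
    congr 1
    ext k
    simp only [Finsupp.coe_tsub, Finsupp.coe_add, Pi.sub_apply, Pi.add_apply]
    by_cases hk : k = i
    · subst hk; simp [Finsupp.single_apply, hij]
    · simp [Finsupp.single_apply, Ne.symm hk, Finsupp.erase_ne hk]
  · simp
  · rw [Finsupp.mem_support_iff, h1] at h2; exact absurd h3 (by simpa using h2)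

theorem wt_erase_sub {i j : Fin 3} (hij : j ≠ i) (r : Fin 3 →₀ ℕ) (h : r j ≠ 0) :
    wt (Finset.univ.erase i) (r - Finsupp.single j 1) + 1 = wt (Finset.univ.erase i) r := by
  have h1 : r = (r - Finsupp.single j 1) + Finsupp.single j 1 := by
    ext k
    simp only [Finsupp.coe_add, Finsupp.coe_tsub, Pi.add_apply, Pi.sub_apply]
    by_cases hk : k = j
    · subst hk; simp; omega
    · simp [Finsupp.single_apply, Ne.symm hk]
  conv_rhs => rw [h1, wt_add, wt_single]
  rw [if_pos (by simp [hij])]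

theorem sl_dvd_of_mem {i : Fin 3} {x : Pt} (hx : ∀ j, j ≠ i → x j = 0) {k : ℕ} {f : P3}
    (h : f ∈ mI x ^ k) (r : Fin 3 →₀ ℕ) :
    (Polynomial.X - Polynomial.C (x i)) ^ (k - wt (Finset.univ.erase i) r) ∣ sl i r f := by
  induction k generalizing f r with
  | zero => simp
  | succ k ih =>
    rw [pow_succ'] at h
    refine Submodule.mul_induction_on h ?_ ?_
    · intro m hm n hn
      have key : ∀ m ∈ mI x, ∀ n ∈ mI x ^ k, ∀ r : Fin 3 →₀ ℕ,
          (Polynomial.X - Polynomial.C (x i)) ^ (k + 1 - wt (Finset.univ.erase i) r) ∣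
            sl i r (m * n) := by
        intro m hm
        have gen : ∀ j : Fin 3, ∀ n ∈ mI x ^ k, ∀ r : Fin 3 →₀ ℕ,
            (Polynomial.X - Polynomial.C (x i)) ^ (k + 1 - wt (Finset.univ.erase i) r) ∣
            sl i r ((X j - C (x j)) * n) := by
          intro j n hn r
          by_cases hj : j = i
          · subst hj
            rw [sub_mul, sl_sub, sl_X_mul_self, sl_smul, ← sub_mul]
            refine dvd_trans ?_ (mul_dvd_mul_left _ (ih hn r))
            rw [← pow_succ']
            exact pow_dvd_pow _ (by omega)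
          · rw [hx j hj, map_zero, sub_zero, sl_X_mul_ne hj]
            split_ifs with h0
            · exact dvd_zero _
            · refine dvd_trans (pow_dvd_pow _ ?_) (ih hn _)
              have := wt_erase_sub hj r h0
              omega
        refine Submodule.span_induction (p := fun m _ => ∀ n ∈ mI x ^ k, ∀ r : Fin 3 →₀ ℕ,
          (Polynomial.X - Polynomial.C (x i)) ^ (k + 1 - wt (Finset.univ.erase i) r) ∣
            sl i r (m * n)) ?_ ?_ ?_ ?_ hm
        · rintro m (rfl | rfl | rfl)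
          · exact gen 0
          · exact gen 1
          · exact gen 2
        · intro n _ r; rw [zero_mul, sl_zero]; exact dvd_zero _
        · intro a b _ _ ha hb n hn r
          rw [add_mul, sl_add]
          exact dvd_add (ha n hn r) (hb n hn r)
        · intro a m _ hm n hn r
          have : a • m * n = m * (a * n) := by rw [smul_eq_mul]; ring
          rw [this]
          exact hm _ (Ideal.mul_mem_left _ _ hn) r
      exact key m hm n hn r
    · intro a b ha hb
      rw [sl_add]; exact dvd_add ha hb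

theorem natDegree_sl_le (i : Fin 3) (r : Fin 3 →₀ ℕ) {f : P3} (h : sl i r f ≠ 0) :
    (sl i r f).natDegree + wt (Finset.univ.erase i) r ≤ f.totalDegree := by
  have h1 : (sl i r f).coeff (sl i r f).natDegree ≠ 0 := by
    rw [Polynomial.coeff_natDegree]; simpa using h
  rw [sl_coeff] at h1
  refine le_trans ?_ (le_totalDegree (mem_support_iff.mpr h1))
  rw [Finsupp.sum_add_index' (by simp) (by simp), Finsupp.sum_single_index rfl, add_comm]
  refine Nat.add_le_add_right ?_ _
  rw [Finsupp.sum_fintype _ _ (by simp)]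
  unfold wt
  rw [← Finset.add_sum_erase Finset.univ (fun j => (Finsupp.erase i r) j) (Finset.mem_univ i)]
  rw [Finsupp.erase_same, zero_add]
  refine Finset.sum_le_sum fun j hj => ?_
  rw [Finsupp.erase_ne (Finset.ne_of_mem_erase hj)]

/-! ### orders -/

/-- order of `f` with respect to an ideal (meaningful for `f ≠ 0`) -/
noncomputable def ordI (J : Ideal P3) (f : P3) : ℕ := sSup {k | f ∈ J ^ k}

/-- order of vanishing along a line -/
noncomputable def ordL (l : Ln) (f : P3) : ℕ := ordI l.I f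

/-- order of vanishing at a point -/
noncomputable def ordP (q : Pt) (f : P3) : ℕ := ordI (mI q) f

/-- an ideal that becomes a coordinate ideal after an affine substitution -/
def IsVar (J : Ideal P3) : Prop :=
  ∃ (A : Finset (Fin 3)) (q : Pt) (E : Matrix (Fin 3) (Fin 3) ℂ), A.Nonempty ∧ IsUnit E.det ∧
    ∀ k f, f ∈ J ^ k ↔ aff q E f ∈ (vI ℂ A) ^ k

theorem isVar_I (l : Ln) : IsVar l.I := by
  refine ⟨Finset.univ.erase 2, l.pt 0, lineE l, ⟨0, by simp⟩, lineE_det l, fun k f => ?_⟩
  exact mem_I_pow_iff_frame (lineE_det l) (l.has_pt 0) (lineE_col l) k f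

theorem isVar_mI (q : Pt) : IsVar (mI q) := by
  refine ⟨Finset.univ, q, 1, ⟨0, by simp⟩, by simp, fun k f => ?_⟩
  exact mem_mI_pow_iff_frame0 (by simp) k f

theorem aff_ne_zero {q : Pt} {E : Matrix (Fin 3) (Fin 3) ℂ} (hE : IsUnit E.det) {f : P3}
    (hf : f ≠ 0) : aff q E f ≠ 0 := by
  rw [← affE_apply q E hE]
  simpa using hf

theorem wt_le_degree (A : Finset (Fin 3)) (s : Fin 3 →₀ ℕ) : wt A s ≤ s.sum fun _ e => e := by
  rw [Finsupp.sum_fintype _ _ (by simp)]
  exact Finset.sum_le_sum_of_subset (Finset.subset_univ _)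

theorem IsVar.le_totalDegree {J : Ideal P3} (hJ : IsVar J) {f : P3} (hf : f ≠ 0) {k : ℕ}
    (h : f ∈ J ^ k) : k ≤ f.totalDegree := by
  obtain ⟨A, q, E, _, hE, hA⟩ := hJ
  rw [hA, mem_vI_pow] at h
  obtain ⟨s, hs⟩ := (support_nonempty).mpr (aff_ne_zero (q := q) hE hf)
  exact (h s hs).trans ((wt_le_degree A s).trans ((MvPolynomial.le_totalDegree hs).trans
    (totalDegree_aff_le q E f)))

theorem IsVar.mem_pow_iff {J : Ideal P3} (hJ : IsVar J) {f : P3} (hf : f ≠ 0) (k : ℕ) :
    f ∈ J ^ k ↔ k ≤ ordI J f := by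
  have hbdd : BddAbove {k | f ∈ J ^ k} := ⟨f.totalDegree, fun k hk => hJ.le_totalDegree hf hk⟩
  have hne : {k | f ∈ J ^ k}.Nonempty := ⟨0, by simp⟩
  constructor
  · intro h
    exact le_csSup hbdd h
  · intro h
    exact Ideal.pow_le_pow_right h (Nat.sSup_mem hne hbdd)

theorem IsVar.ordI_mul {J : Ideal P3} (hJ : IsVar J) {f g : P3} (hf : f ≠ 0) (hg : g ≠ 0) :
    ordI J (f * g) = ordI J f + ordI J g := by
  apply le_antisymm
  · by_contra hlt
    have h1 : f * g ∈ J ^ (ordI J f + ordI J g + 1) := by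
      rw [hJ.mem_pow_iff (mul_ne_zero hf hg)]; omega
    have h2 : f ∉ J ^ (ordI J f + 1) := by
      rw [hJ.mem_pow_iff hf]; omega
    have h3 : g ∉ J ^ (ordI J g + 1) := by
      rw [hJ.mem_pow_iff hg]; omega
    obtain ⟨A, q, E, _, hE, hA⟩ := hJ
    rw [hA] at h1 h2 h3
    rw [map_mul] at h1
    exact not_mem_vI_pow_mul h2 h3 h1
  · rw [← hJ.mem_pow_iff (mul_ne_zero hf hg), pow_add]
    exact Ideal.mul_mem_mul ((hJ.mem_pow_iff hf _).mpr le_rfl) ((hJ.mem_pow_iff hg _).mpr le_rfl)

theorem mem_I_pow_iff (l : Ln) {f : P3} (hf : f ≠ 0) (k : ℕ) : f ∈ l.I ^ k ↔ k ≤ ordL l f :=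
  (isVar_I l).mem_pow_iff hf k

theorem mem_mI_pow_iff (q : Pt) {f : P3} (hf : f ≠ 0) (k : ℕ) : f ∈ mI q ^ k ↔ k ≤ ordP q f :=
  (isVar_mI q).mem_pow_iff hf k

theorem ordL_mul (l : Ln) {f g : P3} (hf : f ≠ 0) (hg : g ≠ 0) :
    ordL l (f * g) = ordL l f + ordL l g := (isVar_I l).ordI_mul hf hg

theorem ordP_mul (q : Pt) {f g : P3} (hf : f ≠ 0) (hg : g ≠ 0) :
    ordP q (f * g) = ordP q f + ordP q g := (isVar_mI q).ordI_mul hf hg

theorem IsVar.ordI_unit {J : Ideal P3} (hJ : IsVar J) {f : P3} (hf : IsUnit f) : ordI J f = 0 := by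
  have h1 := hJ.le_totalDegree hf.ne_zero ((hJ.mem_pow_iff hf.ne_zero _).mpr le_rfl)
  have h2 : f.totalDegree = 0 := by
    obtain ⟨c, hc, rfl⟩ := MvPolynomial.isUnit_iff_eq_C_of_isReduced.mp hf
    simp
  omega

theorem ordL_one (l : Ln) : ordL l 1 = 0 := (isVar_I l).ordI_unit isUnit_one

theorem ordP_one (q : Pt) : ordP q 1 = 0 := (isVar_mI q).ordI_unit isUnit_one

theorem ordL_prod {ι : Type*} (l : Ln) (s : Finset ι) (f : ι → P3) (h : ∀ i ∈ s, f i ≠ 0) :
    ordL l (∏ i ∈ s, f i) = ∑ i ∈ s, ordL l (f i) := by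
  classical
  induction s using Finset.induction_on with
  | empty => simpa using ordL_one l
  | insert a s ha ih =>
    rw [Finset.prod_insert ha, Finset.sum_insert ha, ordL_mul l (h a (Finset.mem_insert_self _ _)),
      ih fun i hi => h i (Finset.mem_insert_of_mem hi)]
    exact Finset.prod_ne_zero_iff.mpr fun i hi => h i (Finset.mem_insert_of_mem hi)

theorem ordP_prod {ι : Type*} (q : Pt) (s : Finset ι) (f : ι → P3) (h : ∀ i ∈ s, f i ≠ 0) :
    ordP q (∏ i ∈ s, f i) = ∑ i ∈ s, ordP q (f i) := by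
  classical
  induction s using Finset.induction_on with
  | empty => simpa using ordP_one q
  | insert a s ha ih =>
    rw [Finset.prod_insert ha, Finset.sum_insert ha, ordP_mul q (h a (Finset.mem_insert_self _ _)),
      ih fun i hi => h i (Finset.mem_insert_of_mem hi)]
    exact Finset.prod_ne_zero_iff.mpr fun i hi => h i (Finset.mem_insert_of_mem hi)

theorem ordL_le_ordP {l : Ln} {q : Pt} (h : l.Has q) {f : P3} (hf : f ≠ 0) :
    ordL l f ≤ ordP q f := by
  rw [← mem_mI_pow_iff q hf]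
  exact Ideal.pow_right_mono (I_le_mI h) _ ((mem_I_pow_iff l hf _).mpr le_rfl)

theorem ordL_le_totalDegree (l : Ln) {f : P3} (hf : f ≠ 0) : ordL l f ≤ f.totalDegree :=
  (isVar_I l).le_totalDegree hf ((mem_I_pow_iff l hf _).mpr le_rfl)

theorem ordP_le_totalDegree (q : Pt) {f : P3} (hf : f ≠ 0) : ordP q f ≤ f.totalDegree :=
  (isVar_mI q).le_totalDegree hf ((mem_mI_pow_iff q hf _).mpr le_rfl)

/-- points on a line, in the frame of the line -/
theorem pt_eq_frame (l : Ln) (t : ℂ) : l.pt t = l.pt 0 + lineE l *ᵥ ![0, 0, t] := by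
  ext i
  fin_cases i <;> simp [Ln.pt, lineE, Matrix.mulVec, dotProduct, Fin.sum_univ_three, mul_comm]

/-- The line inequality: the excess of the multiplicities at points of a line over the order
along the line is at most the degree minus the order. -/
theorem line_ineq (l : Ln) {f : P3} (hf : f ≠ 0) (S : Finset Pt) (hS : ∀ q ∈ S, l.Has q) :
    ∑ q ∈ S, (ordP q f - ordL l f) + ordL l f ≤ f.totalDegree := by
  classical
  set κ := ordL l f with hκ
  set g := aff (l.pt 0) (lineE l) f with hg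
  have h1 : g ∉ (vI ℂ (Finset.univ.erase 2)) ^ (κ + 1) := by
    rw [hg, ← mem_I_pow_iff_frame (lineE_det l) (l.has_pt 0) (lineE_col l), mem_I_pow_iff l hf]
    omega
  have h0 : g ∈ (vI ℂ (Finset.univ.erase 2)) ^ κ := by
    rw [hg, ← mem_I_pow_iff_frame (lineE_det l) (l.has_pt 0) (lineE_col l), mem_I_pow_iff l hf]
  rw [mem_vI_pow] at h1 h0
  push Not at h1
  obtain ⟨s, hs, hs1⟩ := h1
  have hs2 : wt (Finset.univ.erase 2) s = κ := by
    have := h0 s hs; omega
  have hsl : sl 2 s g ≠ 0 := by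
    intro h
    have := congrArg (fun p => Polynomial.coeff p (s 2)) h
    simp only [sl_coeff] at this
    rw [Finsupp.erase_add_single] at this
    exact mem_support_iff.mp hs (by simpa using this)
  have hdeg := natDegree_sl_le 2 s hsl
  have hdiv : ∀ q ∈ S, (Polynomial.X - Polynomial.C (q 2)) ^ (ordP q f - κ) ∣ sl 2 s g := by
    intro q hq
    have hq' := hS q hq
    have h2 : f ∈ mI (l.pt 0 + lineE l *ᵥ ![0, 0, q 2]) ^ ordP q f := by
      rw [← pt_eq_frame, ← hq', mem_mI_pow_iff q hf]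
    rw [mem_mI_pow_iff_frame (lineE_det l)] at h2
    have h3 := sl_dvd_of_mem (i := 2) (x := ![0, 0, q 2]) (by
      intro j hj; fin_cases j <;> simp_all) h2 s
    rw [hs2] at h3
    simpa using h3
  have hprod : (∏ q ∈ S, (Polynomial.X - Polynomial.C (q 2)) ^ (ordP q f - κ)) ∣ sl 2 s g := by
    refine Finset.prod_dvd_of_coprime ?_ hdiv
    intro a ha b hb hab
    refine IsCoprime.pow ?_
    apply Polynomial.isCoprime_X_sub_C_of_isUnit_sub
    rw [isUnit_iff_ne_zero, sub_ne_zero]
    intro hne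
    apply hab
    rw [hS a ha, hS b hb, hne]
  have hle := Polynomial.natDegree_le_of_dvd hprod hsl
  rw [Polynomial.natDegree_prod_of_monic _ _ fun q _ => (Polynomial.monic_X_sub_C _).pow _] at hle
  simp only [(Polynomial.monic_X_sub_C _).natDegree_pow, Polynomial.natDegree_X_sub_C,
    mul_one] at hle
  rw [hs2] at hdeg
  have := totalDegree_aff_le (l.pt 0) (lineE l) f
  rw [← hg] at this
  omega

/-- a monomial of lowest degree in the frame of a joint -/
theorem exists_min_monomial {q : Pt} {t : Fin 3 → Ln} (hq : ∀ i, (t i).Has q)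
    (hind : LinearIndependent ℂ fun i => (t i).dir) {f : P3} (hf : f ≠ 0) :
    ∃ s : Fin 3 →₀ ℕ, (aff q (triE t) f).coeff s ≠ 0 ∧ s 0 + s 1 + s 2 = ordP q f ∧
      ordL (t 0) f ≤ s 1 + s 2 ∧ ordL (t 1) f ≤ s 0 + s 2 ∧ ordL (t 2) f ≤ s 0 + s 1 := by
  have hE := triE_det hind
  have h1 : aff q (triE t) f ∉ (vI ℂ Finset.univ) ^ (ordP q f + 1) := by
    rw [← mem_mI_pow_iff_frame0 hE, mem_mI_pow_iff q hf]; omega
  have h2 : aff q (triE t) f ∈ (vI ℂ Finset.univ) ^ (ordP q f) := by
    rw [← mem_mI_pow_iff_frame0 hE, mem_mI_pow_iff q hf]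
  rw [mem_vI_pow] at h1 h2
  push Not at h1
  obtain ⟨s, hs, hs1⟩ := h1
  have h3 := h2 s hs
  have hw : wt Finset.univ s = s 0 + s 1 + s 2 := by simp [wt, Fin.sum_univ_three]
  have h4 : ∀ i, ordL (t i) f ≤ wt (Finset.univ.erase i) s := by
    intro i
    have h5 : aff q (triE t) f ∈ (vI ℂ (Finset.univ.erase i)) ^ (ordL (t i) f) := by
      rw [← mem_I_pow_iff_frame hE (hq i) (fun j => triE_col t i j), mem_I_pow_iff _ hf]
    exact (mem_vI_pow.mp h5) s hs
  refine ⟨s, mem_support_iff.mp hs, by omega, ?_, ?_, ?_⟩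
  · have := h4 0
    have e : (Finset.univ.erase 0 : Finset (Fin 3)) = {1, 2} := by decide
    rw [e] at this
    simpa [wt] using this
  · have := h4 1
    have e : (Finset.univ.erase 1 : Finset (Fin 3)) = {0, 2} := by decide
    rw [e] at this
    simpa [wt] using this
  · have := h4 2
    have e : (Finset.univ.erase 2 : Finset (Fin 3)) = {0, 1} := by decide
    rw [e] at this
    simpa [wt] using this

/-- the joint inequality -/
theorem joint_ineq {q : Pt} {t : Fin 3 → Ln} (hq : ∀ i, (t i).Has q)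
    (hind : LinearIndependent ℂ fun i => (t i).dir) {f : P3} (hf : f ≠ 0) :
    ∑ i, ordL (t i) f ≤ 2 * ordP q f := by
  obtain ⟨s, _, h1, h2, h3, h4⟩ := exists_min_monomial hq hind hf
  rw [Fin.sum_univ_three]
  omega

/-- equality in the joint inequality -/
theorem joint_eq {q : Pt} {t : Fin 3 → Ln} (hq : ∀ i, (t i).Has q)
    (hind : LinearIndependent ℂ fun i => (t i).dir) {f : P3} (hf : f ≠ 0)
    (h : ∑ i, ordL (t i) f = 2 * ordP q f) :
    ∃ s : Fin 3 → ℕ, ordL (t 0) f = s 1 + s 2 ∧ ordL (t 1) f = s 0 + s 2 ∧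
      ordL (t 2) f = s 0 + s 1 := by
  obtain ⟨s, _, h1, h2, h3, h4⟩ := exists_min_monomial hq hind hf
  rw [Fin.sum_univ_three] at h
  refine ⟨s, ?_, ?_, ?_⟩ <;> omega

end Pool.Agent.Lib.MP_a8d5c3_co.Stab
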