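import Mathlib
import Pool.Agent.Lib.MP_a8d5c3_co.Stab.Orders

/-!
Configurations, covariants, and the statements of the modules of the stability proof.
-/

set_option autoImplicit false

namespace Pool.Agent.Lib.MP_a8d5c3_co.Stab

open MvPolynomial Matrix

/-- a finite configuration of non-horizontal lines of `ℂ^3` with a finite set of joints, each with
a chosen independent triple of lines -/
structure Cfg where
  /-- the lines -/
  L : Finset Ln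
  /-- the joints -/
  J : Finset Pt
  /-- the chosen triple at a joint -/
  tri : Pt → Fin 3 → Ln
  tri_mem : ∀ q ∈ J, ∀ i, tri q i ∈ L
  has : ∀ q ∈ J, ∀ i, (tri q i).Has q
  indep : ∀ q ∈ J, LinearIndependent ℂ fun i => (tri q i).dir

open Classical in
/-- the joints whose chosen triple contains `l` -/
noncomputable def Cfg.on (c : Cfg) (l : Ln) : Finset Pt := c.J.filter fun q => ∃ i, c.tri q i = l

/-- `√(2N)` -/
noncomputable def Cfg.m (c : Cfg) : ℝ := √(2 * c.L.card)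

/-! ### covariants -/

/-- the tangent vector `∇f × w` -/
noncomputable def Xv (f : P3) (w : Pt) : Fin 3 → P3 :=
  ![pderiv 1 f * C (w 2) - pderiv 2 f * C (w 1),
    pderiv 2 f * C (w 0) - pderiv 0 f * C (w 2),
    pderiv 0 f * C (w 1) - pderiv 1 f * C (w 0)]

/-- second derivative -/
noncomputable def D2 (f : P3) (V W : Fin 3 → P3) : P3 :=
  ∑ i, ∑ j, pderiv i (pderiv j f) * V i * W j

/-- third derivative -/
noncomputable def D3 (f : P3) (U V W : Fin 3 → P3) : P3 :=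
  ∑ i, ∑ j, ∑ k, pderiv i (pderiv j (pderiv k f)) * U i * V j * W k

/-- discriminant of the binary quadratic form `A s^2 + 2 B s t + C t^2` -/
def disc2 {R : Type*} [CommRing R] (A B C : R) : R := A * C - B ^ 2

/-- the covariant of a binary quadratic form `A s^2 + 2 B s t + C t^2` and a binary cubic form
`E0 s^3 + 3 E1 s^2 t + 3 E2 s t^2 + E3 t^3` that vanishes iff the quadratic divides the cubic
(if the discriminant is not zero); its four coefficients -/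
def pi4 {R : Type*} [CommRing R] (A B C E0 E1 E2 E3 : R) : Fin 4 → R :=
  ![4 * disc2 A B C * E0 - 3 * (E0 * C - 2 * E1 * B + E2 * A) * A,
    12 * disc2 A B C * E1 - 3 * (2 * (E0 * C - 2 * E1 * B + E2 * A) * B +
      (E1 * C - 2 * E2 * B + E3 * A) * A),
    12 * disc2 A B C * E2 - 3 * ((E0 * C - 2 * E1 * B + E2 * A) * C +
      2 * (E1 * C - 2 * E2 * B + E3 * A) * B),
    4 * disc2 A B C * E3 - 3 * (E1 * C - 2 * E2 * B + E3 * A) * C]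

/-- discriminant of the second fundamental form -/
noncomputable def DeltaC (f : P3) (w w' : Pt) : P3 :=
  disc2 (D2 f (Xv f w) (Xv f w)) (D2 f (Xv f w) (Xv f w')) (D2 f (Xv f w') (Xv f w'))

/-- the cubic covariant (Pick form) -/
noncomputable def PiC (f : P3) (w w' : Pt) : Fin 4 → P3 :=
  pi4 (D2 f (Xv f w) (Xv f w)) (D2 f (Xv f w) (Xv f w')) (D2 f (Xv f w') (Xv f w'))
    (D3 f (Xv f w) (Xv f w) (Xv f w)) (D3 f (Xv f w) (Xv f w) (Xv f w'))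
    (D3 f (Xv f w) (Xv f w') (Xv f w')) (D3 f (Xv f w') (Xv f w') (Xv f w'))

/-- unit vectors -/
def e (i : Fin 3) : Pt := Pi.single i 1

/-- a surface whose second fundamental form is degenerate everywhere -/
def Dev (G : P3) : Prop := ∀ i j : Fin 3, G ∣ DeltaC G (e i) (e j)

/-! ### statements of the modules -/

/-- T1a: the sharp bound -/
def JointsLe : Prop := ∀ c : Cfg, 9 * (c.J.card : ℝ) ^ 2 ≤ 2 * (c.L.card : ℝ) ^ 3

/-- T1b: in a near-extremal configuration most lines have about `√(2N)` joints -/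
def Regularity : Prop := ∀ (c : Cfg) (ε : ℝ), 0 ≤ ε → ε ≤ 1 / 2 →
  2 * (1 - ε) * (c.L.card : ℝ) ^ 3 ≤ 9 * (c.J.card : ℝ) ^ 2 →
  ∑ l ∈ c.L, |((c.on l).card : ℝ) - c.m| ≤ 8 * √ε * c.L.card * c.m

/-- T2: a polynomial of degree about `mB` vanishing to order about `2B` along all lines -/
def ExistsG : Prop := ∀ (B r : ℕ) (ε : ℝ), 1 ≤ B → 0 < ε → ε * B ≤ 1 / 2 → r ≤ B →
  4 * B + 4 ≤ r * (r + 1) → ∃ ε' : ℝ, 0 < ε' ∧ ∃ N0 : ℕ, ∀ c : Cfg, N0 ≤ c.L.card →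
  ∑ l ∈ c.L, |((c.on l).card : ℝ) - c.m| ≤ ε' * c.m ^ 3 →
  ∃ G : P3, G ≠ 0 ∧ (G.totalDegree : ℝ) ≤ (1 + ε) * c.m * B + 1 ∧
    ∀ l ∈ c.L, G ∈ l.I ^ (2 * B + 1 - r)

/-- T3: Bezout for an irreducible surface and another surface, counted along lines -/
def Bezout : Prop := ∀ G H : P3, Irreducible G → ¬ G ∣ H → ∀ (S : Finset Ln) (a b : Ln → ℕ),
  (∀ l ∈ S, G ∈ l.I ^ a l) →
  (∀ l ∈ S, ∃ ρ : Polynomial ℂ, ρ ≠ 0 ∧
    Polynomial.aeval (X 2 : P3) ρ * H ∈ Ideal.span {G} ⊔ l.I ^ b l) →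
  ∑ l ∈ S, a l * b l ≤ G.totalDegree * H.totalDegree

/-- T4: the near-extremal lines are double lines of a reduced surface of degree about `m` and most
joints are triple points -/
def SurfStmt : Prop := ∀ θ : ℝ, 0 < θ → ∃ ε : ℝ, 0 < ε ∧ ∃ N0 : ℕ, ∀ c : Cfg, N0 ≤ c.L.card →
  2 * (1 - ε) * (c.L.card : ℝ) ^ 3 ≤ 9 * (c.J.card : ℝ) ^ 2 →
  ∃ S : Finset P3, (∀ G ∈ S, Irreducible G) ∧ (∀ G ∈ S, ∀ G' ∈ S, Associated G G' → G = G') ∧
    ∑ G ∈ S, (G.totalDegree : ℝ) ≤ (1 + θ) * c.m ∧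
    (({l ∈ (c.L : Set Ln) | ordL l (∏ G ∈ S, G) ≠ 2}).ncard : ℝ) ≤ θ * c.L.card ∧
    (({q ∈ (c.J : Set Pt) | ¬ (ordP q (∏ G ∈ S, G) = 3 ∧
      ∀ i, ordL (c.tri q i) (∏ G ∈ S, G) = 2)}).ncard : ℝ) ≤ θ * c.m ^ 3 ∧
    ∑ l ∈ c.L, |((c.on l).card : ℝ) - c.m| ≤ θ * c.m ^ 3

/-- T5: a plane containing many double lines is a component -/
def PlaneStmt : Prop := ∀ (P F : P3), P.totalDegree = 1 → ∀ S : Finset Ln,
  (∀ l ∈ S, P ∈ l.I ∧ F ∈ l.I ^ 2) → F.totalDegree < 2 * S.card → P ∣ F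

/-- T6c: linear algebra over `ℂ(t)` along the vertical axis. The hypothesis at the points of `S`
is the outcome of the local analysis at an ordinary triple point. -/
def MinorStmt : Prop := ∀ (k D : ℕ) (F H : P3) (S : Finset ℂ), 2 ≤ k →
  F ∈ (vI ℂ {0, 1}) ^ 2 → F ∉ (vI ℂ {0, 1}) ^ 3 → F.totalDegree ≤ D → H.totalDegree ≤ k * D →
  (∀ t ∈ S, ∃ F12 F3 a g : P3, F12 ∈ (vI ℂ {0, 1}) ^ 2 ∧ F3 ∈ mI ![0, 0, t] ∧
    g ∈ (mI ![0, 0, t]) ^ (k + 1) * (vI ℂ {0, 1}) ^ k ∧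
    F - F12 * F3 ∈ (mI ![0, 0, t]) ^ (k * k + 2 * k + 1) ∧
    H - a * F12 - g ∈ (mI ![0, 0, t]) ^ (k * k + 2 * k + 1)) →
  (k * (k - 1) / 2 + k) * D + k ^ 3 < (k * (k - 1) / 2 + k + 1) * S.card →
  ∃ ρ : Polynomial ℂ, ρ ≠ 0 ∧
    Polynomial.aeval (X 2 : P3) ρ * H ∈ Ideal.span {F} ⊔ (vI ℂ {0, 1}) ^ (k + 1)

/-- T7: a surface with vanishing Pick form is a quadric -/
def QuadricStmt : Prop := ∀ G : P3, Irreducible G → ∀ i j : Fin 3, ¬ G ∣ DeltaC G (e i) (e j) →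
  (∀ a, G ∣ PiC G (e i) (e j) a) → G.totalDegree ≤ 2

/-- T8: there are no 17 nondegenerate quadrics pairwise sharing four private lines -/
def CliqueStmt : Prop := ∀ Q : Fin 17 → P3, (∀ k, Irreducible (Q k)) →
  (∀ k, (Q k).totalDegree = 2) → (∀ k, ¬ Dev (Q k)) →
  (∀ k k', k ≠ k' → ∃ S : Finset Ln, S.card = 4 ∧ ∀ l ∈ S, Q k ∈ l.I ∧ Q k' ∈ l.I ∧
    ∀ k'', k'' ≠ k → k'' ≠ k' → Q k'' ∉ l.I) → False

/-- T9: the final result over `ℂ` -/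
def ComplexStmt : Prop := ∀ δ : ℝ, 0 < δ → ∃ ε : ℝ, 0 < ε ∧ ∃ N0 : ℕ, ∀ c : Cfg, N0 ≤ c.L.card →
  2 * (1 - ε) * (c.L.card : ℝ) ^ 3 ≤ 9 * (c.J.card : ℝ) ^ 2 →
  ∃ P : Finset P3, (∀ p ∈ P, p.totalDegree = 1) ∧ (∀ p ∈ P, ∀ p' ∈ P, Associated p p' → p = p') ∧
    (P.card : ℝ) ≤ (1 + δ) * c.m ∧
    (({l ∈ (c.L : Set Ln) | ¬ ∃ p ∈ P, ∃ p' ∈ P, p ≠ p' ∧ p ∈ l.I ∧ p' ∈ l.I}).ncard : ℝ) ≤
      δ * c.L.card ∧
    ∑ l ∈ c.L, |((c.on l).card : ℝ) - c.m| ≤ δ * c.m ^ 3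

end Pool.Agent.Lib.MP_a8d5c3_co.Stab
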