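import Mathlib
import Pool.Agent.Lib.MP_a8d5c3_co.Stab.Stmts

/-!
Properties of the covariants: behaviour under multiplication of the equation by a function,
under affine substitutions, congruences, degree bounds, and the vanishing for a surface containing
two lines through a point.
-/

set_option autoImplicit false

namespace Pool.Agent.Lib.MP_a8d5c3_co.Stab

open MvPolynomial Matrix

/-! ### derivatives commute -/

theorem pderiv_comm (i j : Fin 3) (f : P3) : pderiv i (pderiv j f) = pderiv j (pderiv i f) := by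
  have h : ⁅(pderiv i : Derivation ℂ P3 P3), (pderiv j : Derivation ℂ P3 P3)⁆ = 0 := by
    apply MvPolynomial.derivation_ext
    intro k
    rw [Derivation.commutator_apply]
    fin_cases i <;> fin_cases j <;> fin_cases k <;> simp [pderiv_X]
  have h2 := congrArg (fun D : Derivation ℂ P3 P3 => D f) h
  simp only [Derivation.commutator_apply, Derivation.coe_zero, Pi.zero_apply] at h2
  exact sub_eq_zero.mp h2

/-- first derivative -/
noncomputable def D1 (f : P3) (V : Fin 3 → P3) : P3 := ∑ i, pderiv i f * V i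

theorem D1_Xv (f : P3) (w : Pt) : D1 f (Xv f w) = 0 := by
  simp only [D1, Xv, Fin.sum_univ_three, cons_val_zero, cons_val_one, cons_val]
  ring

theorem D2_symm (f : P3) (V W : Fin 3 → P3) : D2 f V W = D2 f W V := by
  simp only [D2, Fin.sum_univ_three]
  rw [pderiv_comm 1 0 f, pderiv_comm 2 0 f, pderiv_comm 2 1 f]
  ring

theorem D2_mul (u f : P3) (V W : Fin 3 → P3) :
    D2 (u * f) V W = u * D2 f V W + D1 u V * D1 f W + D1 u W * D1 f V + f * D2 u V W := by
  simp only [D2, D1, Fin.sum_univ_three, pderiv_mul, map_add]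
  ring

theorem D3_mul (u f : P3) (U V W : Fin 3 → P3) :
    D3 (u * f) U V W = u * D3 f U V W + (D1 u U * D2 f V W + D1 u V * D2 f U W + D1 u W * D2 f U V)
      + (D1 f U * D2 u V W + D1 f V * D2 u U W + D1 f W * D2 u U V) + f * D3 u U V W := by
  simp only [D3, D2, D1, Fin.sum_univ_three, pderiv_mul, map_add]
  rw [pderiv_comm 1 0 f, pderiv_comm 2 0 f, pderiv_comm 2 1 f, pderiv_comm 1 0 u,
    pderiv_comm 2 0 u, pderiv_comm 2 1 u]
  ring

/-! ### multiplication by a function -/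

/-- working modulo `f` -/
theorem mod_Xv_mul (u f : P3) (w : Pt) (i : Fin 3) :
    ∃ r, Xv (u * f) w i = u * Xv f w i + f * r := by
  fin_cases i
  · refine ⟨pderiv 1 u * C (w 2) - pderiv 2 u * C (w 1), ?_⟩
    simp only [Xv, pderiv_mul, Fin.zero_eta, cons_val_zero]; ring
  · refine ⟨pderiv 2 u * C (w 0) - pderiv 0 u * C (w 2), ?_⟩
    simp only [Xv, pderiv_mul, Fin.mk_one, cons_val_one, cons_val_zero]; ring
  · refine ⟨pderiv 0 u * C (w 1) - pderiv 1 u * C (w 0), ?_⟩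
    simp only [Xv, pderiv_mul, Fin.reduceFinMk, cons_val]; ring

section quot

variable {S : Type*} [CommRing S] (φ : P3 →+* S)

theorem phi_D1 (f : P3) (V V' : Fin 3 → P3) (c : S) (h : ∀ i, φ (V' i) = c * φ (V i)) :
    φ (D1 f V') = c * φ (D1 f V) := by
  simp only [D1, map_sum, map_mul, h, Finset.mul_sum]
  refine Finset.sum_congr rfl fun i _ => ?_
  ring

theorem phi_D2 (f : P3) (V V' W W' : Fin 3 → P3) (c : S) (h : ∀ i, φ (V' i) = c * φ (V i))
    (h' : ∀ i, φ (W' i) = c * φ (W i)) : φ (D2 f V' W') = c ^ 2 * φ (D2 f V W) := by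
  simp only [D2, map_sum, map_mul, h, h', Finset.mul_sum]
  refine Finset.sum_congr rfl fun i _ => Finset.sum_congr rfl fun j _ => ?_
  ring

theorem phi_D3 (f : P3) (U U' V V' W W' : Fin 3 → P3) (c : S) (h0 : ∀ i, φ (U' i) = c * φ (U i))
    (h : ∀ i, φ (V' i) = c * φ (V i)) (h' : ∀ i, φ (W' i) = c * φ (W i)) :
    φ (D3 f U' V' W') = c ^ 3 * φ (D3 f U V W) := by
  simp only [D3, map_sum, map_mul, h0, h, h', Finset.mul_sum]
  refine Finset.sum_congr rfl fun i _ => Finset.sum_congr rfl fun j _ =>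
    Finset.sum_congr rfl fun k _ => ?_
  ring

theorem phi_pi4 (A B C' E0 E1 E2 E3 : P3) (a : Fin 4) :
    φ (pi4 A B C' E0 E1 E2 E3 a) = pi4 (φ A) (φ B) (φ C') (φ E0) (φ E1) (φ E2) (φ E3) a := by
  have h2 : φ 2 = 2 := map_ofNat φ 2
  have h3 : φ 3 = 3 := map_ofNat φ 3
  have h4 : φ 4 = 4 := map_ofNat φ 4
  have h12 : φ 12 = 12 := map_ofNat φ 12
  fin_cases a <;> simp [pi4, disc2, h2, h3, h4, h12]

theorem phi_disc2 (A B C' : P3) :
    φ (disc2 A B C') = disc2 (φ A) (φ B) (φ C') := by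
  simp [disc2]

end quot

/-- the algebraic identity behind the covariance of the Pick form -/
theorem pi4_weight {S : Type*} [CommRing S] (u α β A B C' E0 E1 E2 E3 : S) (a : Fin 4) :
    pi4 (u ^ 3 * A) (u ^ 3 * B) (u ^ 3 * C') (u ^ 3 * (u * E0 + 3 * α * A))
      (u ^ 3 * (u * E1 + (2 * α * B + β * A))) (u ^ 3 * (u * E2 + (α * C' + 2 * β * B)))
      (u ^ 3 * (u * E3 + 3 * β * C')) a = u ^ 10 * pi4 A B C' E0 E1 E2 E3 a := by
  fin_cases a <;> simp only [pi4, disc2, Fin.zero_eta, cons_val_zero, Fin.mk_one, cons_val_one,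
    Fin.reduceFinMk, cons_val] <;> ring

theorem disc2_weight {S : Type*} [CommRing S] (u A B C' : S) :
    disc2 (u ^ 3 * A) (u ^ 3 * B) (u ^ 3 * C') = u ^ 6 * disc2 A B C' := by
  simp only [disc2]; ring

theorem quot_forms (u f : P3) (w w' : Pt) (φ : P3 →+* P3 ⧸ Ideal.span {f})
    (hφ : φ = Ideal.Quotient.mk (Ideal.span {f})) :
    φ (D2 (u * f) (Xv (u * f) w) (Xv (u * f) w')) = φ u ^ 3 * φ (D2 f (Xv f w) (Xv f w')) := by
  have hf : φ f = 0 := by rw [hφ, Ideal.Quotient.eq_zero_iff_mem]; exact Ideal.subset_span rfl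
  have hX : ∀ w i, φ (Xv (u * f) w i) = φ u * φ (Xv f w i) := by
    intro w i
    obtain ⟨r, hr⟩ := mod_Xv_mul u f w i
    rw [hr, map_add, map_mul, map_mul, hf, zero_mul, add_zero]
  have h1 : ∀ w, φ (D1 f (Xv (u * f) w)) = 0 := by
    intro w
    rw [phi_D1 φ f (Xv f w) _ (φ u) (hX w), D1_Xv, map_zero, mul_zero]
  rw [D2_mul]
  simp only [map_add, map_mul, hf, zero_mul, add_zero, h1, mul_zero]
  rw [phi_D2 φ f (Xv f w) _ (Xv f w') _ (φ u) (hX w) (hX w')]
  ring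

theorem quot_forms3 (u f : P3) (w w' w'' : Pt) (φ : P3 →+* P3 ⧸ Ideal.span {f})
    (hφ : φ = Ideal.Quotient.mk (Ideal.span {f})) :
    φ (D3 (u * f) (Xv (u * f) w) (Xv (u * f) w') (Xv (u * f) w'')) =
      φ u ^ 3 * (φ u * φ (D3 f (Xv f w) (Xv f w') (Xv f w'')) +
        (φ (D1 u (Xv f w)) * φ (D2 f (Xv f w') (Xv f w'')) +
        φ (D1 u (Xv f w')) * φ (D2 f (Xv f w) (Xv f w'')) +
        φ (D1 u (Xv f w'')) * φ (D2 f (Xv f w) (Xv f w')))) := by
  have hf : φ f = 0 := by rw [hφ, Ideal.Quotient.eq_zero_iff_mem]; exact Ideal.subset_span rfl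
  have hX : ∀ w i, φ (Xv (u * f) w i) = φ u * φ (Xv f w i) := by
    intro w i
    obtain ⟨r, hr⟩ := mod_Xv_mul u f w i
    rw [hr, map_add, map_mul, map_mul, hf, zero_mul, add_zero]
  have h1 : ∀ w, φ (D1 f (Xv (u * f) w)) = 0 := by
    intro w
    rw [phi_D1 φ f (Xv f w) _ (φ u) (hX w), D1_Xv, map_zero, mul_zero]
  rw [D3_mul]
  simp only [map_add, map_mul, hf, zero_mul, add_zero, h1]
  rw [phi_D3 φ f (Xv f w) _ (Xv f w') _ (Xv f w'') _ (φ u) (hX w) (hX w') (hX w''),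
    phi_D2 φ f (Xv f w') _ (Xv f w'') _ (φ u) (hX w') (hX w''),
    phi_D2 φ f (Xv f w) _ (Xv f w'') _ (φ u) (hX w) (hX w''),
    phi_D2 φ f (Xv f w) _ (Xv f w') _ (φ u) (hX w) (hX w'),
    phi_D1 φ u (Xv f w) _ (φ u) (hX w), phi_D1 φ u (Xv f w') _ (φ u) (hX w'),
    phi_D1 φ u (Xv f w'') _ (φ u) (hX w'')]
  ring

/-- the Pick form has weight 10 -/
theorem PiC_mul (u f : P3) (w w' : Pt) (a : Fin 4) :
    f ∣ PiC (u * f) w w' a - u ^ 10 * PiC f w w' a := by
  rw [← Ideal.mem_span_singleton, ← Ideal.Quotient.eq_zero_iff_mem, map_sub, sub_eq_zero]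
  have key := quot_forms u f (φ := Ideal.Quotient.mk (Ideal.span {f})) (hφ := rfl)
  have key3 := quot_forms3 u f (φ := Ideal.Quotient.mk (Ideal.span {f})) (hφ := rfl)
  unfold PiC
  rw [map_mul, map_pow, phi_pi4, phi_pi4, key, key, key, key3, key3, key3, key3]
  rw [← pi4_weight (u := Ideal.Quotient.mk (Ideal.span {f}) u)
    (α := Ideal.Quotient.mk (Ideal.span {f}) (D1 u (Xv f w)))
    (β := Ideal.Quotient.mk (Ideal.span {f}) (D1 u (Xv f w')))]
  congr 1 <;> ring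

/-- the discriminant has weight 6 -/
theorem DeltaC_mul (u f : P3) (w w' : Pt) :
    f ∣ DeltaC (u * f) w w' - u ^ 6 * DeltaC f w w' := by
  rw [← Ideal.mem_span_singleton, ← Ideal.Quotient.eq_zero_iff_mem, map_sub, sub_eq_zero]
  have key := quot_forms u f (φ := Ideal.Quotient.mk (Ideal.span {f})) (hφ := rfl)
  unfold DeltaC
  rw [map_mul, map_pow, phi_disc2, phi_disc2, key, key, key, disc2_weight]

/-! ### congruences -/

theorem pderiv_mem_pow {J : Ideal P3} {n : ℕ} {f : P3} (h : f ∈ J ^ (n + 1)) (i : Fin 3) :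
    pderiv i f ∈ J ^ n := by
  induction n generalizing f with
  | zero => simp
  | succ n ih =>
    rw [pow_succ'] at h
    refine Submodule.mul_induction_on h ?_ ?_
    · intro m hm k hk
      rw [pderiv_mul]
      refine Ideal.add_mem _ (Ideal.mul_mem_left _ _ hk) ?_
      rw [pow_succ']
      exact Ideal.mul_mem_mul hm (ih hk)
    · intro x y hx hy
      rw [map_add]; exact Ideal.add_mem _ hx hy

theorem mem_pow_of_le {J : Ideal P3} {n k : ℕ} (h : k ≤ n) {f : P3} (hf : f ∈ J ^ n) : f ∈ J ^ k :=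
  Ideal.pow_le_pow_right h hf

theorem mk_congr {J : Ideal P3} {n : ℕ} {f g : P3} (h : f - g ∈ J ^ (n + 3)) :
    (∀ i, Ideal.Quotient.mk (J ^ n) (pderiv i f) = Ideal.Quotient.mk (J ^ n) (pderiv i g)) ∧
    (∀ i j, Ideal.Quotient.mk (J ^ n) (pderiv i (pderiv j f)) =
      Ideal.Quotient.mk (J ^ n) (pderiv i (pderiv j g))) ∧
    (∀ i j k, Ideal.Quotient.mk (J ^ n) (pderiv i (pderiv j (pderiv k f))) =
      Ideal.Quotient.mk (J ^ n) (pderiv i (pderiv j (pderiv k g)))) := by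
  refine ⟨fun i => ?_, fun i j => ?_, fun i j k => ?_⟩
  · rw [Ideal.Quotient.eq, ← map_sub]
    exact mem_pow_of_le (by omega) (pderiv_mem_pow (n := n + 2) h i)
  · rw [Ideal.Quotient.eq, ← map_sub, ← map_sub]
    exact mem_pow_of_le (by omega) (pderiv_mem_pow (n := n + 1) (pderiv_mem_pow (n := n + 2) h j) i)
  · rw [Ideal.Quotient.eq, ← map_sub, ← map_sub, ← map_sub]
    exact pderiv_mem_pow (n := n) (pderiv_mem_pow (n := n + 1) (pderiv_mem_pow (n := n + 2) h k) j) i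

theorem mk_Xv_congr {J : Ideal P3} {n : ℕ} {f g : P3} (h : f - g ∈ J ^ (n + 3)) (w : Pt)
    (i : Fin 3) :
    Ideal.Quotient.mk (J ^ n) (Xv f w i) = Ideal.Quotient.mk (J ^ n) (Xv g w i) := by
  obtain ⟨h1, _, _⟩ := mk_congr h
  fin_cases i <;> simp [Xv, h1]

theorem mk_D2_congr {J : Ideal P3} {n : ℕ} {f g : P3} (h : f - g ∈ J ^ (n + 3)) (w w' : Pt) :
    Ideal.Quotient.mk (J ^ n) (D2 f (Xv f w) (Xv f w')) =
    Ideal.Quotient.mk (J ^ n) (D2 g (Xv g w) (Xv g w')) := by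
  obtain ⟨_, h2, _⟩ := mk_congr h
  simp only [D2, map_sum, map_mul, mk_Xv_congr h, h2]

theorem mk_D3_congr {J : Ideal P3} {n : ℕ} {f g : P3} (h : f - g ∈ J ^ (n + 3)) (w w' w'' : Pt) :
    Ideal.Quotient.mk (J ^ n) (D3 f (Xv f w) (Xv f w') (Xv f w'')) =
    Ideal.Quotient.mk (J ^ n) (D3 g (Xv g w) (Xv g w') (Xv g w'')) := by
  obtain ⟨_, _, h3⟩ := mk_congr h
  simp only [D3, map_sum, map_mul, mk_Xv_congr h, h3]

theorem PiC_congr {J : Ideal P3} {n : ℕ} {f g : P3} (h : f - g ∈ J ^ (n + 3)) (w w' : Pt)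
    (a : Fin 4) : PiC f w w' a - PiC g w w' a ∈ J ^ n := by
  rw [← Ideal.Quotient.eq]
  unfold PiC
  rw [phi_pi4, phi_pi4, mk_D2_congr h, mk_D2_congr h, mk_D2_congr h, mk_D3_congr h, mk_D3_congr h,
    mk_D3_congr h, mk_D3_congr h]

theorem DeltaC_congr {J : Ideal P3} {n : ℕ} {f g : P3} (h : f - g ∈ J ^ (n + 3)) (w w' : Pt) :
    DeltaC f w w' - DeltaC g w w' ∈ J ^ n := by
  rw [← Ideal.Quotient.eq]
  unfold DeltaC
  rw [phi_disc2, phi_disc2, mk_D2_congr h, mk_D2_congr h, mk_D2_congr h]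

end Pool.Agent.Lib.MP_a8d5c3_co.Stab
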