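import Mathlib
import Pool.Agent.Lib.MP_a8d5c3_co.Stab.Cov

/-!
More properties of the covariants: degree bounds, affine substitutions, the vanishing at a point
where the surface contains two lines.
-/

set_option autoImplicit false

namespace Pool.Agent.Lib.MP_a8d5c3_co.Stab

open MvPolynomial Matrix

/-! ### degrees -/

theorem totalDegree_pderiv_le (i : Fin 3) (f : P3) : (pderiv i f).totalDegree ≤ f.totalDegree - 1 := by
  rw [totalDegree, Finset.sup_le_iff]
  intro s hs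
  rw [mem_support_iff, coeff_pderiv] at hs
  have h1 : f.coeff (s + Finsupp.single i 1) ≠ 0 := by
    intro h; rw [h, zero_mul] at hs; exact hs rfl
  have h2 := le_totalDegree (mem_support_iff.mpr h1)
  rw [Finsupp.sum_add_index' (by simp) (by simp), Finsupp.sum_single_index rfl] at h2
  omega

theorem totalDegree_pderiv_le' (i : Fin 3) (f : P3) : (pderiv i f).totalDegree ≤ f.totalDegree :=
  (totalDegree_pderiv_le i f).trans (Nat.sub_le _ _)

theorem deg_add {f g : P3} {n : ℕ} (hf : f.totalDegree ≤ n) (hg : g.totalDegree ≤ n) :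
    (f + g).totalDegree ≤ n := (totalDegree_add _ _).trans (max_le hf hg)

theorem deg_sub {f g : P3} {n : ℕ} (hf : f.totalDegree ≤ n) (hg : g.totalDegree ≤ n) :
    (f - g).totalDegree ≤ n := (totalDegree_sub _ _).trans (max_le hf hg)

theorem deg_mul {f g : P3} {n k : ℕ} (hf : f.totalDegree ≤ n) (hg : g.totalDegree ≤ k) :
    (f * g).totalDegree ≤ n + k := (totalDegree_mul _ _).trans (Nat.add_le_add hf hg)

theorem deg_C_mul {g : P3} {n : ℕ} (c : ℂ) (hg : g.totalDegree ≤ n) :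
    (C c * g).totalDegree ≤ n := (totalDegree_mul _ _).trans (by simpa using hg)

theorem deg_mul_C {g : P3} {n : ℕ} (c : ℂ) (hg : g.totalDegree ≤ n) :
    (g * C c).totalDegree ≤ n := (totalDegree_mul _ _).trans (by simpa using hg)

theorem deg_sum {ι : Type*} (s : Finset ι) {f : ι → P3} {n : ℕ}
    (hf : ∀ i ∈ s, (f i).totalDegree ≤ n) : (∑ i ∈ s, f i).totalDegree ≤ n :=
  (totalDegree_finsetSum _ _).trans (Finset.sup_le hf)

theorem deg_nat_mul {g : P3} {n : ℕ} (k : ℕ) (hg : g.totalDegree ≤ n) :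
    ((k : P3) * g).totalDegree ≤ n := by
  have : (k : P3) = C (k : ℂ) := by simp
  rw [this]; exact deg_C_mul _ hg

theorem deg_Xv {f : P3} {d : ℕ} (hf : f.totalDegree ≤ d) (w : Pt) (i : Fin 3) :
    (Xv f w i).totalDegree ≤ d := by
  have h : ∀ i, (pderiv i f).totalDegree ≤ d := fun i => (totalDegree_pderiv_le' i f).trans hf
  fin_cases i
  · exact deg_sub (deg_mul_C _ (h _)) (deg_mul_C _ (h _))
  · exact deg_sub (deg_mul_C _ (h _)) (deg_mul_C _ (h _))
  · exact deg_sub (deg_mul_C _ (h _)) (deg_mul_C _ (h _))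

theorem deg_D2 {f : P3} {d : ℕ} (hf : f.totalDegree ≤ d) (w w' : Pt) :
    (D2 f (Xv f w) (Xv f w')).totalDegree ≤ 3 * d := by
  unfold D2
  refine deg_sum _ fun i _ => deg_sum _ fun j _ => ?_
  have := deg_mul (deg_mul (((totalDegree_pderiv_le' i _).trans (totalDegree_pderiv_le' j f)).trans
    hf) (deg_Xv hf w i)) (deg_Xv hf w' j)
  exact this.trans (by omega)

theorem deg_D3 {f : P3} {d : ℕ} (hf : f.totalDegree ≤ d) (w w' w'' : Pt) :
    (D3 f (Xv f w) (Xv f w') (Xv f w'')).totalDegree ≤ 4 * d := by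
  unfold D3
  refine deg_sum _ fun i _ => deg_sum _ fun j _ => deg_sum _ fun k _ => ?_
  have := deg_mul (deg_mul (deg_mul (((totalDegree_pderiv_le' i _).trans
    ((totalDegree_pderiv_le' j _).trans (totalDegree_pderiv_le' k f))).trans
    hf) (deg_Xv hf w i)) (deg_Xv hf w' j)) (deg_Xv hf w'' k)
  exact this.trans (by omega)

theorem deg_pi4 {A B C' E0 E1 E2 E3 : P3} {d : ℕ} (hA : A.totalDegree ≤ 3 * d)
    (hB : B.totalDegree ≤ 3 * d) (hC : C'.totalDegree ≤ 3 * d) (h0 : E0.totalDegree ≤ 4 * d)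
    (h1 : E1.totalDegree ≤ 4 * d) (h2 : E2.totalDegree ≤ 4 * d) (h3 : E3.totalDegree ≤ 4 * d)
    (a : Fin 4) : (pi4 A B C' E0 E1 E2 E3 a).totalDegree ≤ 10 * d := by
  have hd : (disc2 A B C').totalDegree ≤ 6 * d := by
    unfold disc2
    refine deg_sub ((deg_mul hA hC).trans (by omega)) ?_
    rw [sq]; exact (deg_mul hB hB).trans (by omega)
  have hL0 : (E0 * C' - 2 * E1 * B + E2 * A).totalDegree ≤ 7 * d := by
    refine deg_add (deg_sub ((deg_mul h0 hC).trans (by omega)) ?_) ((deg_mul h2 hA).trans (by omega))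
    exact (deg_mul (deg_nat_mul 2 h1) hB).trans (by omega)
  have hL1 : (E1 * C' - 2 * E2 * B + E3 * A).totalDegree ≤ 7 * d := by
    refine deg_add (deg_sub ((deg_mul h1 hC).trans (by omega)) ?_) ((deg_mul h3 hA).trans (by omega))
    exact (deg_mul (deg_nat_mul 2 h2) hB).trans (by omega)
  fin_cases a
  · refine deg_sub ((deg_mul (deg_nat_mul 4 hd) h0).trans (by omega)) ?_
    exact (deg_mul (deg_nat_mul 3 hL0) hA).trans (by omega)
  · refine deg_sub ((deg_mul (deg_nat_mul 12 hd) h1).trans (by omega)) ?_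
    refine deg_nat_mul 3 (deg_add ?_ ?_)
    · exact (deg_mul (deg_nat_mul 2 hL0) hB).trans (by omega)
    · exact (deg_mul hL1 hA).trans (by omega)
  · refine deg_sub ((deg_mul (deg_nat_mul 12 hd) h2).trans (by omega)) ?_
    refine deg_nat_mul 3 (deg_add ?_ ?_)
    · exact (deg_mul hL0 hC).trans (by omega)
    · exact (deg_mul (deg_nat_mul 2 hL1) hB).trans (by omega)
  · refine deg_sub ((deg_mul (deg_nat_mul 4 hd) h3).trans (by omega)) ?_
    exact (deg_mul (deg_nat_mul 3 hL1) hC).trans (by omega)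

theorem totalDegree_PiC_le (f : P3) (w w' : Pt) (a : Fin 4) :
    (PiC f w w' a).totalDegree ≤ 10 * f.totalDegree :=
  deg_pi4 (deg_D2 le_rfl _ _) (deg_D2 le_rfl _ _) (deg_D2 le_rfl _ _) (deg_D3 le_rfl _ _ _)
    (deg_D3 le_rfl _ _ _) (deg_D3 le_rfl _ _ _) (deg_D3 le_rfl _ _ _) a

/-! ### affine substitutions -/

theorem pderiv_aff (q : Pt) (E : Matrix (Fin 3) (Fin 3) ℂ) (j : Fin 3) (f : P3) :
    pderiv j (aff q E f) = ∑ i, C (E i j) * aff q E (pderiv i f) := by
  induction f using MvPolynomial.induction_on with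
  | C c => simp [aff_C]
  | add f g hf hg =>
    simp only [map_add, hf, hg, ← Finset.sum_add_distrib, mul_add]
  | mul_X f k hf =>
    rw [map_mul, pderiv_mul, hf, aff_X]
    simp only [pderiv_mul, map_add, map_mul, Fin.sum_univ_three, pderiv_C, pderiv_X, aff_X]
    fin_cases j <;> fin_cases k <;> simp <;> ring

/-- vectors transform with the determinant -/
theorem Xv_aff (q : Pt) (E : Matrix (Fin 3) (Fin 3) ℂ) (f : P3) (w : Pt) (i : Fin 3) :
    ∑ j, C (E i j) * Xv (aff q E f) (Eᵀ *ᵥ w) j = C E.det * aff q E (Xv f w i) := by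
  have e : ∀ j, (Eᵀ *ᵥ w) j = E 0 j * w 0 + E 1 j * w 1 + E 2 j * w 2 := by
    intro j; simp [Matrix.mulVec, dotProduct, Fin.sum_univ_three]
  rw [Matrix.det_fin_three, Fin.sum_univ_three]
  fin_cases i <;>
  simp only [Xv, pderiv_aff, Fin.sum_univ_three, e, map_add, map_mul, map_sub, aff_C,
    Fin.zero_eta, Fin.mk_one, Fin.reduceFinMk, cons_val_zero, cons_val_one, cons_val] <;> ring

theorem D1_aff (q : Pt) (E : Matrix (Fin 3) (Fin 3) ℂ) (f : P3) (V : Fin 3 → P3) :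
    D1 (aff q E f) V = ∑ i, aff q E (pderiv i f) * (∑ k, C (E i k) * V k) := by
  simp only [D1, pderiv_aff, Fin.sum_univ_three]
  ring

theorem D1_comb (c : Fin 3 → ℂ) (g : Fin 3 → P3) (V : Fin 3 → P3) :
    D1 (∑ l, C (c l) * g l) V = ∑ l, C (c l) * D1 (g l) V := by
  simp only [D1, map_add, pderiv_C_mul, Fin.sum_univ_three]
  ring

theorem D2_eq (f : P3) (V W : Fin 3 → P3) : D2 f V W = ∑ j, D1 (pderiv j f) V * W j := by
  simp only [D2, D1, Fin.sum_univ_three]
  ring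

theorem D3_eq (f : P3) (U V W : Fin 3 → P3) : D3 f U V W = ∑ j, D2 (pderiv j f) U V * W j := by
  simp only [D3, D2, Fin.sum_univ_three]
  ring

theorem D2_comb (c : Fin 3 → ℂ) (g : Fin 3 → P3) (U V : Fin 3 → P3) :
    D2 (∑ l, C (c l) * g l) U V = ∑ l, C (c l) * D2 (g l) U V := by
  simp only [D2, map_add, pderiv_C_mul, Fin.sum_univ_three]
  ring

theorem D2_aff (q : Pt) (E : Matrix (Fin 3) (Fin 3) ℂ) (f : P3) (V W : Fin 3 → P3) :
    D2 (aff q E f) V W = ∑ i, ∑ j, aff q E (pderiv i (pderiv j f)) *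
      (∑ k, C (E i k) * V k) * (∑ k, C (E j k) * W k) := by
  rw [D2_eq]
  simp only [pderiv_aff q E _ f, D1_comb, D1_aff]
  simp only [Fin.sum_univ_three]
  ring

theorem D3_aff (q : Pt) (E : Matrix (Fin 3) (Fin 3) ℂ) (f : P3) (U V W : Fin 3 → P3) :
    D3 (aff q E f) U V W = ∑ i, ∑ j, ∑ l, aff q E (pderiv i (pderiv j (pderiv l f))) *
      (∑ k, C (E i k) * U k) * (∑ k, C (E j k) * V k) * (∑ k, C (E l k) * W k) := by
  rw [D3_eq]
  simp only [pderiv_aff q E _ f, D2_comb, D2_aff]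
  have key : ∀ (T : Fin 3 → Fin 3 → Fin 3 → P3) (U' V' : Fin 3 → P3),
      ∑ j, (∑ l, C (E l j) * (∑ i, ∑ k, T i k l * U' i * V' k)) * W j =
      ∑ i, ∑ j, ∑ l, T i j l * U' i * V' j * (∑ k, C (E l k) * W k) := by
    intro T U' V'
    simp only [Fin.sum_univ_three]
    ring
  exact key (fun i j l => aff q E (pderiv i (pderiv j (pderiv l f)))) _ _

theorem D2_Xv_aff (q : Pt) (E : Matrix (Fin 3) (Fin 3) ℂ) (f : P3) (w w' : Pt) :
    D2 (aff q E f) (Xv (aff q E f) (Eᵀ *ᵥ w)) (Xv (aff q E f) (Eᵀ *ᵥ w')) =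
      C E.det ^ 2 * aff q E (D2 f (Xv f w) (Xv f w')) := by
  rw [D2_aff]
  simp only [Xv_aff]
  simp only [D2, map_sum, map_mul, Finset.mul_sum]
  refine Finset.sum_congr rfl fun i _ => Finset.sum_congr rfl fun j _ => ?_
  ring

theorem D3_Xv_aff (q : Pt) (E : Matrix (Fin 3) (Fin 3) ℂ) (f : P3) (w w' w'' : Pt) :
    D3 (aff q E f) (Xv (aff q E f) (Eᵀ *ᵥ w)) (Xv (aff q E f) (Eᵀ *ᵥ w'))
      (Xv (aff q E f) (Eᵀ *ᵥ w'')) =
      C E.det ^ 3 * aff q E (D3 f (Xv f w) (Xv f w') (Xv f w'')) := by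
  rw [D3_aff]
  simp only [Xv_aff]
  simp only [D3, map_sum, map_mul, Finset.mul_sum]
  refine Finset.sum_congr rfl fun i _ => Finset.sum_congr rfl fun j _ =>
    Finset.sum_congr rfl fun k _ => ?_
  ring

theorem pi4_scale {S : Type*} [CommRing S] (u A B C' E0 E1 E2 E3 : S) (a : Fin 4) :
    pi4 (u ^ 2 * A) (u ^ 2 * B) (u ^ 2 * C') (u ^ 3 * E0) (u ^ 3 * E1) (u ^ 3 * E2) (u ^ 3 * E3) a =
      u ^ 7 * pi4 A B C' E0 E1 E2 E3 a := by
  fin_cases a <;> simp only [pi4, disc2, Fin.zero_eta, cons_val_zero, Fin.mk_one, cons_val_one,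
    Fin.reduceFinMk, cons_val] <;> ring

theorem PiC_aff (q : Pt) (E : Matrix (Fin 3) (Fin 3) ℂ) (f : P3) (w w' : Pt) (a : Fin 4) :
    PiC (aff q E f) (Eᵀ *ᵥ w) (Eᵀ *ᵥ w') a = C E.det ^ 7 * aff q E (PiC f w w' a) := by
  unfold PiC
  have h := phi_pi4 (aff q E : P3 →+* P3)
  simp only [RingHom.coe_coe] at h
  rw [h]
  simp only [D2_Xv_aff, D3_Xv_aff, pi4_scale]

theorem DeltaC_aff (q : Pt) (E : Matrix (Fin 3) (Fin 3) ℂ) (f : P3) (w w' : Pt) :
    DeltaC (aff q E f) (Eᵀ *ᵥ w) (Eᵀ *ᵥ w') = C E.det ^ 4 * aff q E (DeltaC f w w') := by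
  unfold DeltaC
  simp only [D2_Xv_aff]
  simp only [disc2, map_sub, map_mul, map_pow]
  ring

/-! ### a surface containing two lines through a point -/

theorem pi4_common {S : Type*} [CommRing S] (κ μ ν s0 s1 s2 : S) (a : Fin 4) :
    pi4 (κ * (2 * s0)) (κ * s1) (κ * (2 * s2)) (3 * μ * (2 * s0)) (2 * μ * s1 + ν * (2 * s0))
      (μ * (2 * s2) + 2 * ν * s1) (3 * ν * (2 * s2)) a = 0 := by
  fin_cases a <;> simp only [pi4, disc2, Fin.zero_eta, cons_val_zero, Fin.mk_one, cons_val_one,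
    Fin.reduceFinMk, cons_val] <;> ring

section sheet

variable (U b : P3)

/-- the equation of a surface containing the `y`- and the `z`-axis -/
noncomputable def sheet : P3 := U * X 0 + b * (X 1 * X 2)

theorem sheet_Xv (w : Pt) :
    constantCoeff (Xv (sheet U b) w 0) = 0 ∧
    constantCoeff (Xv (sheet U b) w 1) = -(constantCoeff U * w 2) ∧
    constantCoeff (Xv (sheet U b) w 2) = constantCoeff U * w 1 := by
  simp [Xv, sheet, pderiv_mul, pderiv_X]

theorem sheet_D2 (V W : Fin 3 → P3) (hV : constantCoeff (V 0) = 0) (hW : constantCoeff (W 0) = 0) :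
    constantCoeff (D2 (sheet U b) V W) = constantCoeff b *
      (constantCoeff (V 1) * constantCoeff (W 2) + constantCoeff (V 2) * constantCoeff (W 1)) := by
  simp [D2, sheet, Fin.sum_univ_three, pderiv_mul, pderiv_X, hV, hW]
  ring

theorem sheet_D3 (V W Z : Fin 3 → P3) (hV : constantCoeff (V 0) = 0)
    (hW : constantCoeff (W 0) = 0) (hZ : constantCoeff (Z 0) = 0) :
    constantCoeff (D3 (sheet U b) V W Z) =
      (constantCoeff (pderiv 1 b) * constantCoeff (V 1) +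
        constantCoeff (pderiv 2 b) * constantCoeff (V 2)) *
        (constantCoeff (W 1) * constantCoeff (Z 2) + constantCoeff (W 2) * constantCoeff (Z 1)) +
      (constantCoeff (pderiv 1 b) * constantCoeff (W 1) +
        constantCoeff (pderiv 2 b) * constantCoeff (W 2)) *
        (constantCoeff (V 1) * constantCoeff (Z 2) + constantCoeff (V 2) * constantCoeff (Z 1)) +
      (constantCoeff (pderiv 1 b) * constantCoeff (Z 1) +
        constantCoeff (pderiv 2 b) * constantCoeff (Z 2)) *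
        (constantCoeff (V 1) * constantCoeff (W 2) + constantCoeff (V 2) * constantCoeff (W 1)) := by
  simp [D3, sheet, Fin.sum_univ_three, pderiv_mul, pderiv_X, hV, hW, hZ]
  ring

theorem sheet_PiC (w w' : Pt) (a : Fin 4) : constantCoeff (PiC (sheet U b) w w' a) = 0 := by
  unfold PiC
  obtain ⟨h0, h1, h2⟩ := sheet_Xv U b w
  obtain ⟨h0', h1', h2'⟩ := sheet_Xv U b w'
  rw [phi_pi4 constantCoeff]
  rw [sheet_D2 _ _ _ _ h0 h0, sheet_D2 _ _ _ _ h0 h0', sheet_D2 _ _ _ _ h0' h0',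
    sheet_D3 _ _ _ _ _ h0 h0 h0, sheet_D3 _ _ _ _ _ h0 h0 h0', sheet_D3 _ _ _ _ _ h0 h0' h0',
    sheet_D3 _ _ _ _ _ h0' h0' h0']
  set x1 := constantCoeff (Xv (sheet U b) w 1)
  set x2 := constantCoeff (Xv (sheet U b) w 2)
  set y1 := constantCoeff (Xv (sheet U b) w' 1)
  set y2 := constantCoeff (Xv (sheet U b) w' 2)
  set β := constantCoeff b
  set b1 := constantCoeff (pderiv 1 b)
  set b2 := constantCoeff (pderiv 2 b)
  rw [← pi4_common β (b1 * x1 + b2 * x2) (b1 * y1 + b2 * y2) (x1 * x2) (x1 * y2 + x2 * y1)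
    (y1 * y2) a]
  congr 1 <;> ring

theorem sheet_DeltaC (w w' : Pt) : constantCoeff (DeltaC (sheet U b) w w') =
    -(constantCoeff b * constantCoeff U ^ 2 * (w 1 * w' 2 - w 2 * w' 1)) ^ 2 := by
  unfold DeltaC
  obtain ⟨h0, h1, h2⟩ := sheet_Xv U b w
  obtain ⟨h0', h1', h2'⟩ := sheet_Xv U b w'
  rw [phi_disc2 constantCoeff]
  rw [sheet_D2 _ _ _ _ h0 h0, sheet_D2 _ _ _ _ h0 h0', sheet_D2 _ _ _ _ h0' h0']
  rw [h1, h2, h1', h2']
  simp only [disc2]
  ring

end sheet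

end Pool.Agent.Lib.MP_a8d5c3_co.Stab
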