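import Mathlib
import Pool.Agent.Lib.MP_a8d5c3_co.Stab.Cov2

/-!
Local analysis at an ordinary triple point whose double curves are the coordinate axes.
-/

set_option autoImplicit false

namespace Pool.Agent.Lib.MP_a8d5c3_co.Stab

open MvPolynomial Matrix

/-- the maximal ideal of the origin -/
noncomputable abbrev m0 : Ideal P3 := vI ℂ Finset.univ

theorem mem_m0_iff {f : P3} : f ∈ m0 ↔ constantCoeff f = 0 := by
  have h := mem_vI_pow' (R := ℂ) (A := (Finset.univ : Finset (Fin 3))) (k := 1) (f := f)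
  rw [pow_one] at h
  rw [h]
  constructor
  · intro h; exact h 0 (by simp [wt])
  · intro h s hs
    have : s = 0 := by
      ext i
      have h1 : s i ≤ wt Finset.univ s :=
        Finset.single_le_sum (f := fun i => s i) (fun _ _ => Nat.zero_le _) (Finset.mem_univ i)
      simp; omega
    rw [this]; exact h

theorem constantCoeff_aff_zero (E : Matrix (Fin 3) (Fin 3) ℂ) (f : P3) :
    constantCoeff (aff 0 E f) = constantCoeff f := by
  induction f using MvPolynomial.induction_on with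
  | C c => simp [aff_C]
  | add f g hf hg => rw [map_add, map_add, map_add, hf, hg]
  | mul_X f k hf =>
    rw [map_mul, map_mul, map_mul, hf, aff_X]
    simp

/-- inverses modulo powers of the maximal ideal -/
theorem exists_inv {W : P3} (hW : constantCoeff W ≠ 0) (N : ℕ) : ∃ V : P3, V * W - 1 ∈ m0 ^ N := by
  induction N with
  | zero => exact ⟨0, by simp⟩
  | succ N ih =>
    obtain ⟨V, hV⟩ := ih
    refine ⟨V - C (constantCoeff W)⁻¹ * (V * W - 1), ?_⟩
    have h1 : (1 - C (constantCoeff W)⁻¹ * W : P3) ∈ m0 := by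
      rw [mem_m0_iff]
      simp [hW]
    have h2 : (V - C (constantCoeff W)⁻¹ * (V * W - 1)) * W - 1 =
        (V * W - 1) * (1 - C (constantCoeff W)⁻¹ * W) := by ring
    rw [h2, pow_succ]
    exact Ideal.mul_mem_mul hV h1

/-- a root of the cubic modulo powers of the maximal ideal -/
theorem exists_cubic_root {u p r : P3} (hu : constantCoeff u ≠ 0) (hp : p ∈ m0) (hr : r ∈ m0)
    (N : ℕ) : ∃ U : P3, constantCoeff U = constantCoeff u ∧
      U ^ 3 - u * U ^ 2 + p * U + r ∈ m0 ^ N := by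
  have hp' := mem_m0_iff.mp hp
  have hr' := mem_m0_iff.mp hr
  have key : ∀ N : ℕ, ∃ U : P3, constantCoeff U = constantCoeff u ∧
      U ^ 3 - u * U ^ 2 + p * U + r ∈ m0 ^ (N + 1) := by
    intro N
    induction N with
    | zero =>
      refine ⟨C (constantCoeff u), by simp, ?_⟩
      rw [zero_add, pow_one, mem_m0_iff]
      simp [hp', hr']
      ring
    | succ N ih =>
      obtain ⟨U, hU0, hU⟩ := ih
      set Q := U ^ 3 - u * U ^ 2 + p * U + r with hQ
      set c : ℂ := (constantCoeff u ^ 2)⁻¹ with hc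
      have hQ0 : constantCoeff Q = 0 :=
        mem_m0_iff.mp (Ideal.pow_le_self (Nat.succ_ne_zero N) hU)
      refine ⟨U - C c * Q, ?_, ?_⟩
      · rw [map_sub, map_mul, hQ0, mul_zero, sub_zero, hU0]
      · have h1 : (U - C c * Q) ^ 3 - u * (U - C c * Q) ^ 2 + p * (U - C c * Q) + r =
            Q * (1 - C c * (3 * U ^ 2 - 2 * u * U + p)) +
            Q ^ 2 * (C c ^ 2 * (3 * U - u) - C c ^ 3 * Q) := by
          rw [hQ]; ring
        rw [h1]
        refine Ideal.add_mem _ ?_ ?_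
        · rw [pow_succ (m0) (N + 1)]
          refine Ideal.mul_mem_mul hU ?_
          have e2 : (constantCoeff (2 : P3) : ℂ) = 2 := map_ofNat constantCoeff 2
          have e3 : (constantCoeff (3 : P3) : ℂ) = 3 := map_ofNat constantCoeff 3
          rw [mem_m0_iff]
          simp [hU0, hp', hc, e2, e3]
          field_simp
          ring
        · refine Ideal.mul_mem_right _ _ ?_
          have h2 : Q ^ 2 ∈ (m0 ^ (N + 1)) ^ 2 := Ideal.pow_mem_pow hU 2
          rw [← pow_mul] at h2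
          exact Ideal.pow_le_pow_right (by omega) h2
  rcases N with _ | N
  · obtain ⟨U, h1, _⟩ := key 0
    exact ⟨U, h1, by simp⟩
  · exact key N

/-- the second sheet, containing the `x`- and the `z`-axis -/
noncomputable def sheet' (U c : P3) : P3 := U * X 1 + c * (X 0 * X 2)

/-- the swap of the first two coordinates -/
def swE : Matrix (Fin 3) (Fin 3) ℂ := !![0, 1, 0; 1, 0, 0; 0, 0, 1]

theorem swE_det : swE.det = -1 := by simp [swE, Matrix.det_fin_three]

theorem swE_mul : swE * swE = 1 := by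
  ext i j; fin_cases i <;> fin_cases j <;> simp [swE, Matrix.mul_apply, Fin.sum_univ_three]

theorem swE_X0 : aff 0 swE (X 0) = X 1 := by
  rw [aff_X]; simp [swE, Fin.sum_univ_three]

theorem swE_X1 : aff 0 swE (X 1) = X 0 := by
  rw [aff_X]; simp [swE, Fin.sum_univ_three]

theorem swE_X2 : aff 0 swE (X 2) = X 2 := by
  rw [aff_X]; simp [swE, Fin.sum_univ_three]

theorem swE_swE (f : P3) : aff 0 swE (aff 0 swE f) = f := by
  have := aff_comp 0 0 swE swE
  rw [swE_mul] at this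
  simp only [Matrix.mulVec_zero, add_zero] at this
  rw [aff_zero_one] at this
  exact congrArg (fun φ : P3 →ₐ[ℂ] P3 => φ f) this

theorem sheet'_eq (U c : P3) : sheet' U c = aff 0 swE (sheet (aff 0 swE U) (aff 0 swE c)) := by
  simp only [sheet, sheet', map_add, map_mul, swE_swE, swE_X0, swE_X1, swE_X2]

theorem swE_vec (w : Pt) : swEᵀ *ᵥ (swE *ᵥ w) = w := by
  have h : swEᵀ = swE := by ext i j; fin_cases i <;> fin_cases j <;> simp [swE]
  rw [h, Matrix.mulVec_mulVec, swE_mul, Matrix.one_mulVec]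

theorem sheet'_PiC (U c : P3) (w w' : Pt) (a : Fin 4) :
    constantCoeff (PiC (sheet' U c) w w' a) = 0 := by
  rw [sheet'_eq, ← swE_vec w, ← swE_vec w', PiC_aff, map_mul, constantCoeff_aff_zero, sheet_PiC,
    mul_zero]

theorem sheet_ne_zero {U : P3} (hU : constantCoeff U ≠ 0) (b : P3) : sheet U b ≠ 0 := by
  intro h
  have h1 := congrArg (fun f : P3 => constantCoeff (pderiv 0 f)) h
  simp [sheet, pderiv_X] at h1
  exact hU h1

/-- the two sheets are locally coprime -/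
theorem exists_lcm {U b c k : P3} (hU : constantCoeff U ≠ 0) (h1 : sheet U b ∣ k)
    (h2 : sheet' U c ∣ k) :
    ∃ g0 s : P3, constantCoeff g0 ≠ 0 ∧ g0 * k = sheet U b * sheet' U c * s := by
  obtain ⟨A, B, g0, hrel, hA, hB⟩ : ∃ A B g0 : P3, IsRelPrime A B ∧ sheet U b = g0 * A ∧
      sheet' U c = g0 * B := by
    obtain ⟨A, B, g0, h, h', h''⟩ := UniqueFactorizationMonoid.exists_reduced_factors
      (sheet U b) (sheet_ne_zero hU b) (sheet' U c)
    exact ⟨A, B, g0, h, h'.symm, h''.symm⟩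
  refine ⟨g0, ?_⟩
  obtain ⟨s, hs⟩ := h1
  obtain ⟨s', hs'⟩ := h2
  have hg0 : g0 ≠ 0 := by
    rintro rfl
    rw [zero_mul] at hA
    exact sheet_ne_zero hU b hA
  have h3 : A * s = B * s' := by
    apply mul_left_cancel₀ hg0
    rw [← mul_assoc, ← mul_assoc, ← hA, ← hB, ← hs, ← hs']
  have h4 : B ∣ s := hrel.symm.dvd_of_dvd_mul_left (by rw [h3]; exact dvd_mul_right _ _)
  obtain ⟨s'', hs''⟩ := h4
  refine ⟨s'', ?_, ?_⟩
  · intro h0
    -- derivatives at the origin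
    have d0 := congrArg (fun f : P3 => constantCoeff (pderiv 0 f)) hA
    have d1 := congrArg (fun f : P3 => constantCoeff (pderiv 0 f)) hB
    have d2 := congrArg (fun f : P3 => constantCoeff (pderiv 1 f)) hB
    simp [sheet, sheet', pderiv_X, pderiv_mul, h0] at d0 d1 d2
    have e1 : constantCoeff (pderiv 0 g0) ≠ 0 := by
      intro e; rw [e, mul_zero] at d0; exact hU d0
    have e2 : constantCoeff B = 0 := by
      rcases d1 with h | h
      · exact h
      · exact absurd h e1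
    rw [e2, zero_mul] at d2
    exact hU d2
  · rw [hs, hs'', hB, hA]; ring

/-! ### decomposition of the equation at an ordinary triple point -/

/-- exponent vector -/
noncomputable def ex (a b c : ℕ) : Fin 3 →₀ ℕ := Finsupp.equivFunOnFinite.symm ![a, b, c]

@[simp] theorem ex_zero (a b c : ℕ) : ex a b c 0 = a := rfl
@[simp] theorem ex_one (a b c : ℕ) : ex a b c 1 = b := rfl
@[simp] theorem ex_two (a b c : ℕ) : ex a b c 2 = c := rfl

theorem monomial_ex (a b c : ℕ) : (monomial (ex a b c) 1 : P3) = X 0 ^ a * X 1 ^ b * X 2 ^ c := by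
  rw [monomial_eq, C_1, one_mul, Finsupp.prod_fintype _ _ (by simp), Fin.prod_univ_three]
  rfl

theorem triple_decomp {F : P3} (h0 : F ∈ (vI ℂ {1, 2}) ^ 2) (h1 : F ∈ (vI ℂ {0, 2}) ^ 2)
    (h2 : F ∈ (vI ℂ {0, 1}) ^ 2) : ∃ u a b c : P3,
    F = X 0 * X 1 * X 2 * u + X 0 ^ 2 * X 1 ^ 2 * a + X 1 ^ 2 * X 2 ^ 2 * b +
      X 0 ^ 2 * X 2 ^ 2 * c := by
  rw [mem_vI_pow] at h0 h1 h2
  have hmem : F ∈ Ideal.span ((fun s => monomial s (1 : ℂ)) ''
      ({ex 1 1 1, ex 2 2 0, ex 0 2 2, ex 2 0 2} : Set (Fin 3 →₀ ℕ))) := by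
    rw [mem_ideal_span_monomial_image]
    intro s hs
    have k0 : 2 ≤ s 1 + s 2 := by have := h0 s hs; simpa [wt] using this
    have k1 : 2 ≤ s 0 + s 2 := by have := h1 s hs; simpa [wt] using this
    have k2 : 2 ≤ s 0 + s 1 := by have := h2 s hs; simpa [wt] using this
    have le_iff : ∀ a b c : ℕ, a ≤ s 0 → b ≤ s 1 → c ≤ s 2 → ex a b c ≤ s := by
      intro a b c ha hb hc i
      fin_cases i <;> simpa
    by_cases e0 : s 0 = 0
    · exact ⟨ex 0 2 2, by simp, le_iff _ _ _ (by omega) (by omega) (by omega)⟩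
    · by_cases e1 : s 1 = 0
      · exact ⟨ex 2 0 2, by simp, le_iff _ _ _ (by omega) (by omega) (by omega)⟩
      · by_cases e2 : s 2 = 0
        · exact ⟨ex 2 2 0, by simp, le_iff _ _ _ (by omega) (by omega) (by omega)⟩
        · exact ⟨ex 1 1 1, by simp, le_iff _ _ _ (by omega) (by omega) (by omega)⟩
  rw [Set.image_insert_eq, Set.image_insert_eq, Set.image_insert_eq, Set.image_singleton] at hmem
  simp only [monomial_ex] at hmem
  obtain ⟨u, f1, hf1, e1⟩ := Ideal.mem_span_insert.mp hmem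
  obtain ⟨a, f2, hf2, e2⟩ := Ideal.mem_span_insert.mp hf1
  obtain ⟨b, f3, hf3, e3⟩ := Ideal.mem_span_insert.mp hf2
  obtain ⟨c, e4⟩ := Ideal.mem_span_singleton'.mp hf3
  refine ⟨u, a, b, c, ?_⟩
  rw [e1, e2, e3, ← e4]
  ring

theorem triple_unit {F u a b c : P3} (h : F = X 0 * X 1 * X 2 * u + X 0 ^ 2 * X 1 ^ 2 * a +
    X 1 ^ 2 * X 2 ^ 2 * b + X 0 ^ 2 * X 2 ^ 2 * c) (h4 : F ∉ m0 ^ 4) : constantCoeff u ≠ 0 := by
  intro hu
  apply h4
  have hX : ∀ i, (X i : P3) ∈ m0 := fun i => Ideal.subset_span ⟨i, by simp, rfl⟩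
  have hu' : u ∈ m0 := mem_m0_iff.mpr hu
  have p2 : ∀ i, (X i : P3) ^ 2 ∈ m0 ^ 2 := fun i => Ideal.pow_mem_pow (hX i) 2
  have q4 : ∀ i j, (X i : P3) ^ 2 * X j ^ 2 ∈ m0 ^ 4 := by
    intro i j
    have := Ideal.mul_mem_mul (p2 i) (p2 j)
    rwa [← pow_add] at this
  rw [h]
  refine Ideal.add_mem _ (Ideal.add_mem _ (Ideal.add_mem _ ?_ ?_) ?_) ?_
  · have := Ideal.mul_mem_mul (Ideal.mul_mem_mul (Ideal.mul_mem_mul (hX 0) (hX 1)) (hX 2)) hu'
    have e : m0 * m0 * m0 * m0 = m0 ^ 4 := by ring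
    rwa [e] at this
  · exact Ideal.mul_mem_right _ _ (q4 0 1)
  · exact Ideal.mul_mem_right _ _ (q4 1 2)
  · exact Ideal.mul_mem_right _ _ (q4 0 2)

/-- Local factorization at an ordinary triple point, modulo high powers. -/
theorem triple_factor {F u a b c : P3} (h : F = X 0 * X 1 * X 2 * u + X 0 ^ 2 * X 1 ^ 2 * a +
    X 1 ^ 2 * X 2 ^ 2 * b + X 0 ^ 2 * X 2 ^ 2 * c) (hu : constantCoeff u ≠ 0) (N : ℕ) :
    ∃ U : P3, constantCoeff U = constantCoeff u ∧
      U ^ 2 * F - sheet U b * sheet' U c * (U * X 2 + a * (X 0 * X 1)) ∈ m0 ^ N := by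
  have hX : ∀ i, (X i : P3) ∈ m0 := fun i => Ideal.subset_span ⟨i, by simp, rfl⟩
  obtain ⟨U, hU0, hU⟩ := exists_cubic_root (u := u)
    (p := b * c * X 2 ^ 2 + c * a * X 0 ^ 2 + a * b * X 1 ^ 2) (r := a * b * c * (X 0 * X 1 * X 2))
    hu
    (Ideal.add_mem _ (Ideal.add_mem _ (Ideal.mul_mem_left _ _ (Ideal.pow_mem_of_mem _ (hX 2) 2 (by norm_num)))
      (Ideal.mul_mem_left _ _ (Ideal.pow_mem_of_mem _ (hX 0) 2 (by norm_num))))
      (Ideal.mul_mem_left _ _ (Ideal.pow_mem_of_mem _ (hX 1) 2 (by norm_num))))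
    (Ideal.mul_mem_left _ _ (Ideal.mul_mem_left _ _ (hX 2))) N
  refine ⟨U, hU0, ?_⟩
  have : U ^ 2 * F - sheet U b * sheet' U c * (U * X 2 + a * (X 0 * X 1)) =
      -(X 0 * X 1 * X 2) * (U ^ 3 - u * U ^ 2 + (b * c * X 2 ^ 2 + c * a * X 0 ^ 2 +
        a * b * X 1 ^ 2) * U + a * b * c * (X 0 * X 1 * X 2)) := by
    rw [h]; unfold sheet sheet'; ring
  rw [this]
  exact Ideal.mul_mem_left _ _ hU

/-- The local statement at an ordinary triple point, for an abstract covariant of weight `k`. -/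
theorem loc_std {k : ℕ} (hk : 1 ≤ k) {H : P3 → P3} (H1 : ∀ u f, f ∣ H (u * f) - u ^ k * H f)
    (H2 : ∀ n f g, f - g ∈ m0 ^ (n + 3) → H f - H g ∈ m0 ^ n)
    (H3 : ∀ U b, constantCoeff (H (sheet U b)) = 0)
    (H4 : ∀ U c, constantCoeff (H (sheet' U c)) = 0)
    {F : P3} (h0 : F ∈ (vI ℂ {1, 2}) ^ 2) (h1 : F ∈ (vI ℂ {0, 2}) ^ 2)
    (h2 : F ∈ (vI ℂ {0, 1}) ^ 2) (h4 : F ∉ m0 ^ 4) (N : ℕ) :
    ∃ F12 F3 a g : P3, F12 ∈ (vI ℂ {0, 1}) ^ 2 ∧ F3 ∈ m0 ∧
      g ∈ m0 ^ (k + 1) * (vI ℂ {0, 1}) ^ k ∧ F - F12 * F3 ∈ m0 ^ N ∧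
      H F - a * F12 - g ∈ m0 ^ N := by
  obtain ⟨u, a, b, c, hF⟩ := triple_decomp h0 h1 h2
  have hu := triple_unit hF h4
  obtain ⟨U, hU0, hU⟩ := triple_factor hF hu (N + 3)
  have hU1 : constantCoeff U ≠ 0 := by rw [hU0]; exact hu
  obtain ⟨V, hV⟩ := exists_inv (W := U ^ 2) (by rw [map_pow]; exact pow_ne_zero _ hU1) (N + 3)
  set F1 := sheet U b with hF1
  set F2 := sheet' U c with hF2
  set F3 := U * X 2 + a * (X 0 * X 1) with hF3
  have hX : ∀ i, (X i : P3) ∈ m0 := fun i => Ideal.subset_span ⟨i, by simp, rfl⟩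
  have hXI : ∀ i, i ∈ ({0, 1} : Finset (Fin 3)) → (X i : P3) ∈ vI ℂ {0, 1} :=
    fun i hi => Ideal.subset_span ⟨i, by simpa using hi, rfl⟩
  have F1I : F1 ∈ vI ℂ {0, 1} := by
    rw [hF1]; unfold sheet
    exact Ideal.add_mem _ (Ideal.mul_mem_left _ _ (hXI 0 (by simp)))
      (Ideal.mul_mem_left _ _ (Ideal.mul_mem_right _ _ (hXI 1 (by simp))))
  have F2I : F2 ∈ vI ℂ {0, 1} := by
    rw [hF2]; unfold sheet'
    exact Ideal.add_mem _ (Ideal.mul_mem_left _ _ (hXI 1 (by simp)))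
      (Ideal.mul_mem_left _ _ (Ideal.mul_mem_right _ _ (hXI 0 (by simp))))
  have F3m : F3 ∈ m0 := by
    rw [hF3]
    exact Ideal.add_mem _ (Ideal.mul_mem_left _ _ (hX 2))
      (Ideal.mul_mem_left _ _ (Ideal.mul_mem_left _ _ (hX 1)))
  -- the covariant of the product
  have d1 : F1 ∣ H (F1 * F2 * F3) - (F2 * F3) ^ k * H F1 := by
    have := H1 (F2 * F3) F1
    rwa [show F2 * F3 * F1 = F1 * F2 * F3 by ring] at this
  have d2 : F2 ∣ H (F1 * F2 * F3) - (F1 * F3) ^ k * H F2 := by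
    have := H1 (F1 * F3) F2
    rwa [show F1 * F3 * F2 = F1 * F2 * F3 by ring] at this
  set g1 := F3 ^ k * (F2 ^ k * H F1 + F1 ^ k * H F2) with hg1
  have e1 : F1 ∣ H (F1 * F2 * F3) - g1 := by
    have : H (F1 * F2 * F3) - g1 = (H (F1 * F2 * F3) - (F2 * F3) ^ k * H F1) -
        F1 ^ k * (F3 ^ k * H F2) := by rw [hg1]; ring
    rw [this]
    exact dvd_sub d1 (Dvd.dvd.mul_right (dvd_pow_self _ (by omega)) _)
  have e2 : F2 ∣ H (F1 * F2 * F3) - g1 := by
    have : H (F1 * F2 * F3) - g1 = (H (F1 * F2 * F3) - (F1 * F3) ^ k * H F2) -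
        F2 ^ k * (F3 ^ k * H F1) := by rw [hg1]; ring
    rw [this]
    exact dvd_sub d2 (Dvd.dvd.mul_right (dvd_pow_self _ (by omega)) _)
  obtain ⟨g0, s, hg0, hs⟩ := exists_lcm hU1 e1 e2
  obtain ⟨g0', hg0'⟩ := exists_inv hg0 (N + 3)
  obtain ⟨t, ht⟩ := H1 (U ^ 2) F
  have hcong := H2 N _ _ hU
  -- everything in the quotient ring
  set φ := Ideal.Quotient.mk (m0 ^ N) with hφ
  have le3 : ∀ f : P3, f ∈ m0 ^ (N + 3) → φ f = 0 := fun f hf =>
    Ideal.Quotient.eq_zero_iff_mem.mpr (Ideal.pow_le_pow_right (by omega) hf)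
  have q1 : φ U ^ 2 * φ F = φ F1 * φ F2 * φ F3 := by
    have := le3 _ hU
    simp only [map_sub, map_mul, map_pow] at this
    exact sub_eq_zero.mp this
  have q2 : φ V * φ U ^ 2 = 1 := by
    have := le3 _ hV
    simp only [map_sub, map_mul, map_pow, map_one] at this
    exact sub_eq_zero.mp this
  have q3 : φ g0' * φ g0 = 1 := by
    have := le3 _ hg0'
    simp only [map_sub, map_mul, map_one] at this
    exact sub_eq_zero.mp this
  have q4 : φ (H (U ^ 2 * F)) = φ (H (F1 * F2 * F3)) := by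
    rw [hφ, Ideal.Quotient.eq]; exact hcong
  have q5 : φ (H (U ^ 2 * F)) = φ U ^ (2 * k) * φ (H F) + φ F * φ t := by
    have := congrArg φ ht
    simp only [map_sub, map_mul, map_pow] at this
    rw [pow_mul]
    linear_combination this
  have q6 : φ g0 * (φ (H (F1 * F2 * F3)) - φ g1) = φ F1 * φ F2 * φ s := by
    have := congrArg φ hs
    simpa only [map_sub, map_mul] using this
  have q2k : φ V ^ k * φ U ^ (2 * k) = 1 := by
    rw [pow_mul, ← mul_pow, q2, one_pow]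
  refine ⟨V * (F1 * F2), F3, V ^ k * (U ^ 2 * (g0' * s) - F3 * t), V ^ k * g1, ?_, F3m, ?_, ?_, ?_⟩
  · refine Ideal.mul_mem_left _ _ ?_
    rw [sq]; exact Ideal.mul_mem_mul F1I F2I
  · refine Ideal.mul_mem_left _ _ ?_
    have : g1 = (F3 ^ k * H F1) * F2 ^ k + (F3 ^ k * H F2) * F1 ^ k := by rw [hg1]; ring
    rw [this]
    have m1 : H F1 ∈ m0 := mem_m0_iff.mpr (H3 U b)
    have m2 : H F2 ∈ m0 := mem_m0_iff.mpr (H4 U c)
    refine Ideal.add_mem _ (Ideal.mul_mem_mul ?_ (Ideal.pow_mem_pow F2I k))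
      (Ideal.mul_mem_mul ?_ (Ideal.pow_mem_pow F1I k))
    · rw [pow_succ]; exact Ideal.mul_mem_mul (Ideal.pow_mem_pow F3m k) m1
    · rw [pow_succ]; exact Ideal.mul_mem_mul (Ideal.pow_mem_pow F3m k) m2
  · rw [← Ideal.Quotient.eq_zero_iff_mem]
    change φ _ = 0
    simp only [map_sub, map_mul]
    linear_combination (1 - φ V * φ U ^ 2) * 0 + (-(φ F)) * q2 + φ V * q1
  · rw [← Ideal.Quotient.eq_zero_iff_mem]
    change φ _ = 0
    simp only [map_sub, map_mul, map_pow]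
    have r1 : φ (H F) = φ V ^ k * (φ (H (F1 * F2 * F3)) - φ F * φ t) := by
      linear_combination (-(φ (H F))) * q2k + φ V ^ k * (q4 - q5)
    have r2 : φ (H (F1 * F2 * F3)) = φ g1 + φ g0' * (φ F1 * φ F2 * φ s) := by
      linear_combination (-(φ (H (F1 * F2 * F3)) - φ g1)) * q3 + φ g0' * q6
    have r3 : φ F = φ V * (φ F1 * φ F2 * φ F3) := by
      linear_combination (-(φ F)) * q2 + φ V * q1
    rw [r1, r2, r3]
    linear_combination (-(φ V ^ k * φ g0' * φ F1 * φ F2 * φ s)) * q2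

end Pool.Agent.Lib.MP_a8d5c3_co.Stab
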