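import Mathlib
import Pool.Agent.Lib.MP_a8d5c3_co.Stab.Local

/-!
The local statement at a typical joint in global coordinates and its consequence along a line.
-/

set_option autoImplicit false

namespace Pool.Agent.Lib.MP_a8d5c3_co.Stab

open MvPolynomial Matrix

theorem mem_map_affE {q : Pt} {E : Matrix (Fin 3) (Fin 3) ℂ} (hE : IsUnit E.det) {J : Ideal P3}
    {f : P3} : aff q E f ∈ J.map (affE q E hE) ↔ f ∈ J := by
  constructor
  · intro h
    obtain ⟨x, hx, hx'⟩ := (Ideal.mem_map_of_equiv (affE q E hE).toRingEquiv (aff q E f)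
      (I := J)).mp h
    have : x = f := (affE q E hE).injective hx'
    rwa [← this]
  · intro h; exact Ideal.mem_map_of_mem (affE q E hE) h

theorem erase_two : (Finset.univ.erase 2 : Finset (Fin 3)) = {0, 1} := by decide
theorem erase_one : (Finset.univ.erase 1 : Finset (Fin 3)) = {0, 2} := by decide
theorem erase_zero : (Finset.univ.erase 0 : Finset (Fin 3)) = {1, 2} := by decide

/-- pulling back the local statement -/
theorem loc_glob {k : ℕ} (hk : 1 ≤ k) {q : Pt} {t : Fin 3 → Ln} (hq : ∀ i, (t i).Has q)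
    (hind : LinearIndependent ℂ fun i => (t i).dir) {H : P3 → P3} {H' : P3 → P3} {c : ℂ}
    (H0 : ∀ f, H' (aff q (triE t) f) = C c * aff q (triE t) (H f)) (hc : c ≠ 0)
    (H1 : ∀ u f, f ∣ H' (u * f) - u ^ k * H' f)
    (H2 : ∀ n f g, f - g ∈ m0 ^ (n + 3) → H' f - H' g ∈ m0 ^ n)
    (H3 : ∀ U b, constantCoeff (H' (sheet U b)) = 0)
    (H4 : ∀ U c, constantCoeff (H' (sheet' U c)) = 0)
    {F : P3} (hF : ∀ i, F ∈ (t i).I ^ 2) (h4 : F ∉ mI q ^ 4) (N : ℕ) :
    ∃ F12 F3 a g : P3, F12 ∈ (t 2).I ^ 2 ∧ F3 ∈ mI q ∧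
      g ∈ mI q ^ (k + 1) * (t 2).I ^ k ∧ F - F12 * F3 ∈ mI q ^ N ∧
      H F - a * F12 - g ∈ mI q ^ N := by
  have hE := triE_det hind
  set E := triE t with hEdef
  have hfr : ∀ i k f, f ∈ (t i).I ^ k ↔ aff q E f ∈ (vI ℂ (Finset.univ.erase i)) ^ k :=
    fun i k f => mem_I_pow_iff_frame hE (hq i) (fun j => triE_col t i j) k f
  have hfm : ∀ k f, f ∈ mI q ^ k ↔ aff q E f ∈ m0 ^ k := fun k f => mem_mI_pow_iff_frame0 hE k f
  have a0 := (hfr 0 2 F).mp (hF 0)
  have a1 := (hfr 1 2 F).mp (hF 1)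
  have a2 := (hfr 2 2 F).mp (hF 2)
  rw [erase_zero] at a0
  rw [erase_one] at a1
  rw [erase_two] at a2
  have a4 : aff q E F ∉ m0 ^ 4 := fun h => h4 ((hfm 4 F).mpr h)
  obtain ⟨F12, F3, a, g, b1, b2, b3, b4, b5⟩ := loc_std hk H1 H2 H3 H4 a0 a1 a2 a4 N
  set ψ := (affE q E hE).symm with hψ
  have hpsi : ∀ f, aff q E (ψ f) = f := fun f => (affE q E hE).apply_symm_apply f
  refine ⟨ψ F12, ψ F3, C c⁻¹ * ψ a, C c⁻¹ * ψ g, ?_, ?_, ?_, ?_, ?_⟩
  · rw [hfr, hpsi, erase_two]; exact b1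
  · have := (hfm 1 (ψ F3)).mpr (by rw [hpsi, pow_one]; exact b2)
    rwa [pow_one] at this
  · refine Ideal.mul_mem_left _ _ ?_
    rw [← mem_map_affE (q := q) hE, hpsi, Ideal.map_mul, Ideal.map_pow, Ideal.map_pow,
      map_I hE (hq 2) (fun j => triE_col t 2 j), erase_two]
    have : (mI q).map (affE q E hE) = m0 := by
      have := map_mI (q := q) (x := 0) hE
      rwa [Matrix.mulVec_zero, add_zero, mI_zero] at this
    rw [this]; exact b3
  · rw [hfm, map_sub, map_mul, hpsi, hpsi]; exact b4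
  · rw [hfm]
    have e1 : aff q E (H F - C c⁻¹ * ψ a * ψ F12 - C c⁻¹ * ψ g) =
        C c⁻¹ * (H' (aff q E F) - a * F12 - g) := by
      rw [H0]
      simp only [map_sub, map_mul, hpsi, aff_C]
      have : (C c⁻¹ * C c : P3) = 1 := by rw [← map_mul, inv_mul_cancel₀ hc, map_one]
      linear_combination (-(aff q E (H F))) * this
    rw [e1]
    exact Ideal.mul_mem_left _ _ b5

/-- a vector of the old coordinates in the new ones -/
theorem loc_PiC {q : Pt} {t : Fin 3 → Ln} (hq : ∀ i, (t i).Has q)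
    (hind : LinearIndependent ℂ fun i => (t i).dir) {F : P3} (hF : ∀ i, F ∈ (t i).I ^ 2)
    (h4 : F ∉ mI q ^ 4) (w w' : Pt) (j : Fin 4) (N : ℕ) :
    ∃ F12 F3 a g : P3, F12 ∈ (t 2).I ^ 2 ∧ F3 ∈ mI q ∧
      g ∈ mI q ^ (10 + 1) * (t 2).I ^ 10 ∧ F - F12 * F3 ∈ mI q ^ N ∧
      PiC F w w' j - a * F12 - g ∈ mI q ^ N := by
  have hE := triE_det hind
  refine loc_glob (k := 10) (by norm_num) hq hind (H := fun f => PiC f w w' j)
    (H' := fun f => PiC f ((triE t)ᵀ *ᵥ w) ((triE t)ᵀ *ᵥ w') j) (c := (triE t).det ^ 7)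
    ?_ ?_ ?_ ?_ ?_ ?_ hF h4 N
  · intro f; rw [PiC_aff, map_pow]
  · exact pow_ne_zero _ hE.ne_zero
  · intro u f; exact PiC_mul u f _ _ j
  · intro n f g h; exact PiC_congr h _ _ j
  · intro U b; exact sheet_PiC U b _ _ j
  · intro U c; exact sheet'_PiC U c _ _ j

/-- The same for any line through the joint. -/
theorem loc_PiC' {q : Pt} {t : Fin 3 → Ln} (hq : ∀ i, (t i).Has q)
    (hind : LinearIndependent ℂ fun i => (t i).dir) {F : P3} (hF : ∀ i, F ∈ (t i).I ^ 2)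
    (h4 : F ∉ mI q ^ 4) (w w' : Pt) (j : Fin 4) (N : ℕ) (i : Fin 3) :
    ∃ F12 F3 a g : P3, F12 ∈ (t i).I ^ 2 ∧ F3 ∈ mI q ∧
      g ∈ mI q ^ (10 + 1) * (t i).I ^ 10 ∧ F - F12 * F3 ∈ mI q ^ N ∧
      PiC F w w' j - a * F12 - g ∈ mI q ^ N := by
  have hind' : LinearIndependent ℂ fun k => ((t ∘ Equiv.swap i 2) k).dir :=
    hind.comp _ (Equiv.swap i 2).injective
  have := loc_PiC (t := t ∘ Equiv.swap i 2) (fun k => hq _) hind' (fun k => hF _) h4 w w' j N
  simpa using this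

/-- consequence of the local analysis and of linear algebra over `ℂ(t)` along a line -/
theorem along_line (hM : MinorStmt) {l : Ln} {F : P3} {D : ℕ} (hD : F.totalDegree ≤ D)
    (h2 : F ∈ l.I ^ 2) (h3 : F ∉ l.I ^ 3) (S : Finset Pt)
    (hS : ∀ q ∈ S, ∃ t : Fin 3 → Ln, (∀ i, (t i).Has q) ∧
      (LinearIndependent ℂ fun i => (t i).dir) ∧ (∀ i, F ∈ (t i).I ^ 2) ∧ F ∉ mI q ^ 4 ∧
      ∃ i, t i = l)
    (hcard : 55 * D + 1000 < 56 * S.card) (w w' : Pt) (j : Fin 4) :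
    ∃ ρ : Polynomial ℂ, ρ ≠ 0 ∧
      Polynomial.aeval (X 2 : P3) ρ * PiC F w w' j ∈ Ideal.span {F} ⊔ l.I ^ 11 := by
  classical
  have hE := lineE_det l
  set q0 := l.pt 0 with hq0
  set E := lineE l with hEd
  have hfr : ∀ k f, f ∈ l.I ^ k ↔ aff q0 E f ∈ (vI ℂ {0, 1}) ^ k := by
    intro k f
    rw [mem_I_pow_iff_frame hE (l.has_pt 0) (lineE_col l), erase_two]
  have hinj : Set.InjOn (fun q : Pt => q 2) (S : Set Pt) := by
    intro a ha b hb hab
    obtain ⟨t, h1, _, _, _, i, hi⟩ := hS a ha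
    obtain ⟨t', h1', _, _, _, i', hi'⟩ := hS b hb
    have ea := h1 i; rw [hi] at ea
    have eb := h1' i'; rw [hi'] at eb
    rw [ea, eb]
    simp only at hab
    rw [hab]
  have key := hM 10 D (aff q0 E F) (aff q0 E (PiC F w w' j)) (S.image fun q => q 2) (by norm_num)
    ((hfr 2 F).mp h2) (fun h => h3 ((hfr 3 F).mpr h)) ((totalDegree_aff_le _ _ _).trans hD)
    ((totalDegree_aff_le _ _ _).trans ((totalDegree_PiC_le F w w' j).trans
      (Nat.mul_le_mul_left 10 hD))) ?_ ?_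
  · obtain ⟨ρ, hρ, hmem⟩ := key
    refine ⟨ρ, hρ, ?_⟩
    have hX2 : aff q0 E (Polynomial.aeval (X 2 : P3) ρ) = Polynomial.aeval (X 2 : P3) ρ := by
      rw [← Polynomial.aeval_algHom_apply]
      congr 1
      rw [aff_X]
      simp [hq0, hEd, lineE, Fin.sum_univ_three]
    rw [← hX2, ← map_mul] at hmem
    rw [← mem_map_affE (q := q0) hE, Ideal.map_sup, Ideal.map_span, Set.image_singleton,
      Ideal.map_pow, map_I hE (l.has_pt 0) (lineE_col l), erase_two]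
    exact hmem
  · intro τ hτ
    generalize 10 * 10 + 2 * 10 + 1 = N
    obtain ⟨q, hq, rfl⟩ := Finset.mem_image.mp hτ
    obtain ⟨t, h1, h2', h3', h4', i, hi⟩ := hS q hq
    obtain ⟨F12, F3, a, g, b1, b2, b3, b4, b5⟩ := loc_PiC' h1 h2' h3' h4' w w' j N i
    rw [hi] at b1 b3
    have hql : l.Has q := hi ▸ h1 i
    have hmap : (mI q).map (affE q0 E hE) = mI ![0, 0, q 2] := by
      have e : q = q0 + E *ᵥ ![0, 0, q 2] := by
        rw [hq0, hEd, ← pt_eq_frame]; exact hql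
      conv_lhs => rw [e]
      exact map_mI hE
    have hm : ∀ k f, f ∈ mI q ^ k ↔ aff q0 E f ∈ (mI ![0, 0, q 2]) ^ k := by
      intro k f
      rw [← mem_map_affE (q := q0) hE, Ideal.map_pow, hmap]
    refine ⟨aff q0 E F12, aff q0 E F3, aff q0 E a, aff q0 E g, (hfr 2 _).mp b1, ?_, ?_, ?_, ?_⟩
    · have := (hm 1 F3).mp (by rwa [pow_one])
      rwa [pow_one] at this
    · rw [← mem_map_affE (q := q0) hE, Ideal.map_mul, Ideal.map_pow, Ideal.map_pow, hmap,
        map_I hE (l.has_pt 0) (lineE_col l), erase_two] at b3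
      exact b3
    · have b4' := (hm _ _).mp b4
      rw [map_sub, map_mul] at b4'; exact b4'
    · have b5' := (hm _ _).mp b5
      rw [map_sub, map_sub, map_mul] at b5'; exact b5'
  · rw [Finset.card_image_of_injOn hinj]
    norm_num
    omega

end Pool.Agent.Lib.MP_a8d5c3_co.Stab
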