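import Mathlib
import Pool.Agent.Lib.MP_a8d5c3_co.Stab.Weight

/-!
Bezout in the plane over a field, with multiplicities bounded below by products of orders:
dimension counts.
-/

set_option autoImplicit false

namespace Pool.Agent.Lib.MP_a8d5c3_co.Stab

open MvPolynomial

namespace Bez

/-! ### the triangle of exponents -/

/-- pairs of sum less than `k` -/
def tri (k : ℕ) : Finset (ℕ × ℕ) := (Finset.range k).biUnion fun j => Finset.HasAntidiagonal.antidiagonal j

theorem mem_tri {k : ℕ} {p : ℕ × ℕ} : p ∈ tri k ↔ p.1 + p.2 < k := by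
  simp [tri]

theorem card_tri (k : ℕ) : 2 * (tri k).card = k * (k + 1) := by
  induction k with
  | zero => simp [tri]
  | succ k ih =>
    have h : tri (k + 1) = tri k ∪ Finset.HasAntidiagonal.antidiagonal k := by
      ext p; simp only [Finset.mem_union, mem_tri, Finset.HasAntidiagonal.mem_antidiagonal]; omega
    have hd : Disjoint (tri k) (Finset.HasAntidiagonal.antidiagonal k) := by
      rw [Finset.disjoint_left]
      intro p hp hp'
      rw [mem_tri] at hp; rw [Finset.HasAntidiagonal.mem_antidiagonal] at hp'; omega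
    rw [h, Finset.card_union_of_disjoint hd, Finset.Nat.card_antidiagonal, mul_add, ih]
    ring

/-- the exponent of a pair -/
noncomputable def ex (p : ℕ × ℕ) : Fin 2 →₀ ℕ := Finsupp.single 0 p.1 + Finsupp.single 1 p.2

theorem ex_zero (p : ℕ × ℕ) : ex p 0 = p.1 := by simp [ex]
theorem ex_one (p : ℕ × ℕ) : ex p 1 = p.2 := by simp [ex]

theorem ex_inj {p q : ℕ × ℕ} (h : ex p = ex q) : p = q := by
  ext
  · rw [← ex_zero, ← ex_zero, h]
  · rw [← ex_one, ← ex_one, h]

theorem ex_pair (s : Fin 2 →₀ ℕ) : ex (s 0, s 1) = s := by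
  ext i; fin_cases i
  · exact ex_zero _
  · exact ex_one _

/-- the polynomial ring in two variables -/
abbrev R2 (K : Type*) [Field K] := MvPolynomial (Fin 2) K

variable {K : Type*} [Field K]

/-- coefficients of degree less than `k` -/
noncomputable def co (K : Type*) [Field K] (k : ℕ) : R2 K →ₗ[K] (tri k → K) :=
  LinearMap.pi fun p => lcoeff K (ex p.1)

theorem co_apply (k : ℕ) (f : R2 K) (p : tri k) : co K k f p = f.coeff (ex p.1) := by
  simp [co, lcoeff]

/-- polynomial with given coefficients -/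
noncomputable def mk (k : ℕ) (g : tri k → K) : R2 K := ∑ p : tri k, monomial (ex p.1) (g p)

theorem co_mk (k : ℕ) (g : tri k → K) : co K k (mk k g) = g := by
  ext p
  rw [co_apply, mk, coeff_sum]
  simp only [coeff_monomial]
  rw [Finset.sum_eq_single p]
  · simp
  · intro q _ hq
    rw [if_neg]
    intro h
    exact hq (Subtype.ext (ex_inj h))
  · simp

theorem totalDegree_mk_le (k : ℕ) (g : tri (k + 1) → K) : (mk (k + 1) g).totalDegree ≤ k := by
  unfold mk
  refine (totalDegree_finsetSum _ _).trans ?_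
  refine Finset.sup_le fun p _ => ?_
  refine (totalDegree_monomial_le _ _).trans ?_
  have := mem_tri.mp p.2
  rw [ex, Finsupp.sum_add_index' (by simp) (by simp), Finsupp.sum_single_index rfl,
    Finsupp.sum_single_index rfl]
  simp only [id] at *
  omega

theorem co_surj (k : ℕ) : Function.Surjective (co K k) := fun g => ⟨mk k g, co_mk k g⟩

theorem wt_univ (s : Fin 2 →₀ ℕ) : wt Finset.univ s = s 0 + s 1 := by
  simp [wt]

theorem degree_eq (s : Fin 2 →₀ ℕ) : (s.sum fun _ e => e) = s 0 + s 1 := by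
  rw [Finsupp.sum_fintype _ _ (by simp)]
  simp

theorem co_eq_zero {k : ℕ} {f : R2 K} : co K k f = 0 ↔ f ∈ (vI K Finset.univ) ^ k := by
  rw [mem_vI_pow']
  constructor
  · intro h s hs
    have := congrFun h ⟨(s 0, s 1), by rw [mem_tri]; rwa [wt_univ] at hs⟩
    rw [co_apply] at this
    simp only [ex_pair] at this
    simpa using this
  · intro h
    ext p
    rw [co_apply]
    exact h _ (by rw [wt_univ, ex_zero, ex_one]; exact mem_tri.mp p.2)

theorem co_inj {k : ℕ} {f : R2 K} (hf : f.totalDegree ≤ k) (h : co K (k + 1) f = 0) : f = 0 := by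
  ext s
  rw [coeff_zero]
  by_contra hne
  have h1 := le_totalDegree (mem_support_iff.mpr hne)
  rw [degree_eq] at h1
  have := congrFun h ⟨(s 0, s 1), by rw [mem_tri]; simp; omega⟩
  rw [co_apply] at this
  simp only [ex_pair] at this
  exact hne (by simpa using this)

/-- polynomials of degree at most `n` -/
noncomputable abbrev Rn (K : Type*) [Field K] (n : ℕ) : Submodule K (R2 K) :=
  restrictTotalDegree (Fin 2) K n

theorem finrank_Rn (n : ℕ) : 2 * Module.finrank K (Rn K n) = (n + 1) * (n + 2) := by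
  have e : Rn K n ≃ₗ[K] (tri (n + 1) → K) := by
    refine LinearEquiv.ofBijective ((co K (n + 1)).comp (Rn K n).subtype) ⟨?_, ?_⟩
    · rw [← LinearMap.ker_eq_bot, LinearMap.ker_eq_bot']
      rintro ⟨f, hf⟩ h
      rw [mem_restrictTotalDegree] at hf
      exact Subtype.ext (co_inj hf h)
    · intro g
      exact ⟨⟨mk (n + 1) g, (mem_restrictTotalDegree _ _ _).mpr (totalDegree_mk_le n g)⟩,
        co_mk _ g⟩
  rw [e.finrank_eq, Module.finrank_fintype_fun_eq_card, Fintype.card_coe, card_tri]

/-- the maximal ideal of a point -/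
noncomputable def mm (P : Fin 2 → K) : Ideal (R2 K) :=
  Ideal.span {X 0 - C (P 0), X 1 - C (P 1)}

/-- translation -/
noncomputable def tr (P : Fin 2 → K) : R2 K →ₐ[K] R2 K := aeval fun i => X i + C (P i)

theorem tr_X (P : Fin 2 → K) (i : Fin 2) : tr P (X i) = X i + C (P i) := by simp [tr]
theorem tr_C (P : Fin 2 → K) (c : K) : tr P (C c) = C c := by simp [tr]

theorem tr_tr (P Q : Fin 2 → K) (h : ∀ i, P i + Q i = 0) : (tr P).comp (tr Q) = AlgHom.id K _ := by
  apply MvPolynomial.algHom_ext
  intro i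
  rw [AlgHom.comp_apply, tr_X, map_add, tr_X, tr_C, add_assoc, ← map_add, h]
  simp

/-- translation as an automorphism -/
noncomputable def trE (P : Fin 2 → K) : R2 K ≃ₐ[K] R2 K :=
  AlgEquiv.ofAlgHom (tr P) (tr (-P)) (tr_tr _ _ (by simp)) (tr_tr _ _ (by simp))

theorem trE_apply (P : Fin 2 → K) (f : R2 K) : trE P f = tr P f := rfl

theorem map_mm (P : Fin 2 → K) : (mm P).map (trE P) = vI K Finset.univ := by
  unfold mm vI
  rw [Ideal.map_span]
  congr 1
  ext f
  simp only [Set.image_insert_eq, Set.image_singleton, Set.mem_insert_iff, Set.mem_singleton_iff,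
    map_sub, trE_apply, tr_X, tr_C, add_sub_cancel_right, Finset.coe_univ, Set.image_univ,
    Set.mem_range]
  constructor
  · rintro (rfl | rfl) <;> exact ⟨_, rfl⟩
  · rintro ⟨i, rfl⟩
    fin_cases i <;> simp

theorem mem_mm_pow {P : Fin 2 → K} {k : ℕ} {f : R2 K} :
    f ∈ mm P ^ k ↔ tr P f ∈ (vI K Finset.univ) ^ k := by
  rw [← map_mm P, ← Ideal.map_pow, ← trE_apply]
  constructor
  · intro h; exact Ideal.mem_map_of_mem _ h
  · intro h
    obtain ⟨x, hx, hx'⟩ := (Ideal.mem_map_of_equiv (trE P).toRingEquiv (trE P f)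
      (I := mm P ^ k)).mp h
    have : x = f := (trE P).injective hx'
    rwa [← this]

theorem coprime_mm {P Q : Fin 2 → K} (h : P ≠ Q) : IsCoprime (mm P) (mm Q) := by
  obtain ⟨i, hi⟩ := Function.ne_iff.mp h
  rw [Ideal.isCoprime_iff_exists]
  have hmem : ∀ (P : Fin 2 → K) (i : Fin 2), X i - C (P i) ∈ mm P := by
    intro P i
    apply Ideal.subset_span
    fin_cases i <;> simp
  have hne : Q i - P i ≠ 0 := fun h0 => hi (sub_eq_zero.mp h0).symm
  refine ⟨C (Q i - P i)⁻¹ * (X i - C (P i)), Ideal.mul_mem_left _ _ (hmem P i),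
    -C (Q i - P i)⁻¹ * (X i - C (Q i)), Ideal.mul_mem_left _ _ (hmem Q i), ?_⟩
  have h1 : (C (Q i - P i)⁻¹ * (C (Q i) - C (P i)) : R2 K) = 1 := by
    rw [← map_sub, ← map_mul, inv_mul_cancel₀ hne, map_one]
  linear_combination h1

/-- the quotient by a power of the maximal ideal of a point -/
theorem quot_mm (P : Fin 2 → K) (k : ℕ) :
    Module.Finite K (R2 K ⧸ (mm P ^ k).restrictScalars K) ∧
    2 * Module.finrank K (R2 K ⧸ (mm P ^ k).restrictScalars K) = k * (k + 1) := by
  set L : R2 K →ₗ[K] (tri k → K) := (co K k).comp (tr P).toLinearMap with hL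
  have hker : LinearMap.ker L = (mm P ^ k).restrictScalars K := by
    ext f
    rw [LinearMap.mem_ker, Submodule.restrictScalars_mem, mem_mm_pow, ← co_eq_zero]
    rfl
  have hsurj : Function.Surjective L := by
    intro g
    obtain ⟨f, hf⟩ := co_surj k g
    refine ⟨(trE P).symm f, ?_⟩
    rw [hL, LinearMap.comp_apply]
    have : (tr P).toLinearMap ((trE P).symm f) = f := (trE P).apply_symm_apply f
    rw [this, hf]
  have e := L.quotKerEquivOfSurjective hsurj
  rw [hker] at e
  refine ⟨Module.Finite.equiv e.symm, ?_⟩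
  rw [e.finrank_eq, Module.finrank_fintype_fun_eq_card, Fintype.card_coe, card_tri]

/-- the ideal of the local intersection -/
noncomputable def JJ (G H : R2 K) (P : Fin 2 → K) (k : ℕ) : Ideal (R2 K) :=
  Ideal.span {G, H} ⊔ mm P ^ k

theorem le_JJ (G H : R2 K) (P : Fin 2 → K) (k : ℕ) : mm P ^ k ≤ JJ G H P k := le_sup_right

theorem JJ_congr {G H H' A : R2 K} (P : Fin 2 → K) (k : ℕ) (h : H' = H - A * G) :
    JJ G H P k = JJ G H' P k := by
  have h1 : Ideal.span {G, H} = Ideal.span ({G, H'} : Set (R2 K)) := by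
    apply le_antisymm
    · rw [Ideal.span_le]
      rintro f (rfl | rfl)
      · exact Ideal.subset_span (by simp)
      · have : f = A * G + H' := by rw [h]; ring
        rw [this]
        exact Ideal.add_mem _ (Ideal.mul_mem_left _ _ (Ideal.subset_span (by simp)))
          (Ideal.subset_span (by simp))
    · rw [Ideal.span_le]
      rintro f (rfl | rfl)
      · exact Ideal.subset_span (by simp)
      · rw [h]
        exact Ideal.sub_mem _ (Ideal.subset_span (by simp))
          (Ideal.mul_mem_left _ _ (Ideal.subset_span (by simp)))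
  unfold JJ
  rw [h1]

/-- the local intersection number is at least the product of the orders -/
theorem local_dim {G H : R2 K} {P : Fin 2 → K} {a b : ℕ} (hG : G ∈ mm P ^ a)
    (hH : H ∈ mm P ^ b) :
    Module.Finite K (R2 K ⧸ (JJ G H P (a + b)).restrictScalars K) ∧
    a * b ≤ Module.finrank K (R2 K ⧸ (JJ G H P (a + b)).restrictScalars K) := by
  obtain ⟨fa, ca⟩ := quot_mm P a
  obtain ⟨fb, cb⟩ := quot_mm P b
  obtain ⟨fc, cc⟩ := quot_mm P (a + b)
  set Ma := (mm P ^ a).restrictScalars K
  set Mb := (mm P ^ b).restrictScalars K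
  set Mc := (mm P ^ (a + b)).restrictScalars K
  set J := (JJ G H P (a + b)).restrictScalars K
  have hMJ : Mc ≤ J := fun x hx => le_JJ G H P (a + b) hx
  have h1 : Mb ≤ Mc.comap (LinearMap.mulLeft K G) := by
    intro x hx
    change G * x ∈ mm P ^ (a + b)
    rw [pow_add]; exact Ideal.mul_mem_mul hG hx
  have h2 : Ma ≤ Mc.comap (LinearMap.mulLeft K H) := by
    intro x hx
    change H * x ∈ mm P ^ (a + b)
    rw [pow_add, mul_comm H x]; exact Ideal.mul_mem_mul hx hH
  set ψ : ((R2 K ⧸ Mb) × (R2 K ⧸ Ma)) →ₗ[K] (R2 K ⧸ Mc) :=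
    (Submodule.mapQ Mb Mc (LinearMap.mulLeft K G) h1).coprod
      (Submodule.mapQ Ma Mc (LinearMap.mulLeft K H) h2) with hψ
  set W := LinearMap.range ψ
  have hfinJ : Module.Finite K (R2 K ⧸ J) :=
    Module.Finite.of_surjective (Submodule.mapQ Mc J LinearMap.id hMJ) (by
      intro y
      obtain ⟨x, rfl⟩ := Submodule.mkQ_surjective _ y
      exact ⟨Mc.mkQ x, rfl⟩)
  refine ⟨hfinJ, ?_⟩
  have hW : Module.finrank K W ≤ Module.finrank K (R2 K ⧸ Mb) + Module.finrank K (R2 K ⧸ Ma) := by
    rw [← Module.finrank_prod]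
    exact LinearMap.finrank_range_le ψ
  have hq := Submodule.finrank_quotient_add_finrank W
  have hJker : J ≤ LinearMap.ker (W.mkQ.comp Mc.mkQ) := by
    intro x hx
    change x ∈ Ideal.span {G, H} ⊔ mm P ^ (a + b) at hx
    obtain ⟨y, hy, z, hz, rfl⟩ := Submodule.mem_sup.mp hx
    obtain ⟨u, v, rfl⟩ := Ideal.mem_span_pair.mp hy
    rw [LinearMap.mem_ker, LinearMap.comp_apply, map_add]
    have hz' : Mc.mkQ z = 0 := (Submodule.Quotient.mk_eq_zero _).mpr hz
    rw [hz', add_zero]
    refine (Submodule.Quotient.mk_eq_zero _).mpr ?_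
    refine ⟨(Mb.mkQ u, Ma.mkQ v), ?_⟩
    rw [hψ, LinearMap.coprod_apply]
    change Mc.mkQ (G * u) + Mc.mkQ (H * v) = Mc.mkQ (u * G + v * H)
    rw [← map_add]
    congr 1
    ring
  have hsurj : Function.Surjective (J.liftQ (W.mkQ.comp Mc.mkQ) hJker) := by
    intro y
    obtain ⟨y, rfl⟩ := Submodule.mkQ_surjective _ y
    obtain ⟨y, rfl⟩ := Submodule.mkQ_surjective _ y
    exact ⟨J.mkQ y, rfl⟩
  have hle := LinearMap.finrank_le_finrank_of_surjective hsurj
  have h3 : (a + b) * (a + b + 1) = a * (a + 1) + b * (b + 1) + 2 * (a * b) := by ring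
  omega

/-- the space of combinations of bounded degree is large -/
theorem comb_dim {G H : R2 K} (hG : Prime G) (hGH : ¬ G ∣ H) (m : ℕ) :
    ∃ V : Submodule K (Rn K (m + G.totalDegree + H.totalDegree)),
      (∀ f ∈ V, (f : R2 K) ∈ Ideal.span {G, H}) ∧
      Module.finrank K (Rn K (m + G.totalDegree + H.totalDegree)) ≤
        Module.finrank K V + G.totalDegree * H.totalDegree := by
  set d := G.totalDegree with hd
  set e := H.totalDegree with he
  have hdeg : ∀ (u : Rn K (m + e)) (v : Rn K (m + d)),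
      (G * (u : R2 K) + H * (v : R2 K)) ∈ Rn K (m + d + e) := by
    intro u v
    rw [mem_restrictTotalDegree]
    have hu := (mem_restrictTotalDegree _ _ _).mp u.2
    have hv := (mem_restrictTotalDegree _ _ _).mp v.2
    refine (totalDegree_add _ _).trans (max_le ?_ ?_)
    · refine (totalDegree_mul _ _).trans ?_
      omega
    · refine (totalDegree_mul _ _).trans ?_
      omega
  set Θ : (Rn K (m + e) × Rn K (m + d)) →ₗ[K] Rn K (m + d + e) :=
    LinearMap.codRestrict (Rn K (m + d + e))
      (((LinearMap.mulLeft K G).comp (Rn K (m + e)).subtype).coprod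
        ((LinearMap.mulLeft K H).comp (Rn K (m + d)).subtype))
      (fun x => hdeg x.1 x.2) with hΘ
  have hΘa : ∀ x, ((Θ x : Rn K (m + d + e)) : R2 K) = G * (x.1 : R2 K) + H * (x.2 : R2 K) := by
    intro x; rfl
  refine ⟨LinearMap.range Θ, ?_, ?_⟩
  · rintro _ ⟨x, rfl⟩
    rw [hΘa]
    exact Ideal.mem_span_pair.mpr ⟨x.1, x.2, by ring⟩
  · have hrank := LinearMap.finrank_range_add_finrank_ker Θ
    rw [Module.finrank_prod] at hrank
    -- the kernel
    have hk1 : ∀ w : Rn K m, H * (w : R2 K) ∈ Rn K (m + e) := by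
      intro w
      rw [mem_restrictTotalDegree]
      have hw := (mem_restrictTotalDegree _ _ _).mp w.2
      refine (totalDegree_mul _ _).trans ?_
      omega
    have hk2 : ∀ w : Rn K m, -(G * (w : R2 K)) ∈ Rn K (m + d) := by
      intro w
      rw [mem_restrictTotalDegree, totalDegree_neg]
      have hw := (mem_restrictTotalDegree _ _ _).mp w.2
      refine (totalDegree_mul _ _).trans ?_
      omega
    set κ : Rn K m →ₗ[K] (Rn K (m + e) × Rn K (m + d)) :=
      (LinearMap.codRestrict (Rn K (m + e)) ((LinearMap.mulLeft K H).comp (Rn K m).subtype) hk1).prod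
      (LinearMap.codRestrict (Rn K (m + d)) (-(LinearMap.mulLeft K G).comp (Rn K m).subtype) hk2)
      with hκ
    have hker : LinearMap.ker Θ ≤ LinearMap.range κ := by
      rintro ⟨u, v⟩ huv
      rw [LinearMap.mem_ker] at huv
      have h0 : G * (u : R2 K) + H * (v : R2 K) = 0 := by
        rw [← hΘa (u, v), huv]; rfl
      have h1 : G ∣ H * (v : R2 K) := ⟨-(u : R2 K), by linear_combination h0⟩
      rcases hG.dvd_or_dvd h1 with h2 | ⟨w, hw⟩
      · exact absurd h2 hGH
      · have h3 : (u : R2 K) = H * (-w) := by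
          apply mul_left_cancel₀ hG.ne_zero
          rw [hw] at h0
          linear_combination h0
        have hwd : -w ∈ Rn K m := by
          rw [mem_restrictTotalDegree, totalDegree_neg]
          by_cases hw0 : w = 0
          · rw [hw0]; simp
          · have hv := (mem_restrictTotalDegree _ _ _).mp v.2
            rw [hw, totalDegree_mul_of_isDomain hG.ne_zero hw0] at hv
            omega
        refine ⟨⟨-w, hwd⟩, ?_⟩
        refine Prod.ext (Subtype.ext ?_) (Subtype.ext ?_)
        · exact h3.symm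
        · change -(G * (-w)) = (v : R2 K)
          rw [hw]; ring
    have hle1 := Submodule.finrank_mono hker
    have hle2 := LinearMap.finrank_range_le κ
    have c1 := finrank_Rn (K := K) (m + d + e)
    have c2 := finrank_Rn (K := K) (m + e)
    have c3 := finrank_Rn (K := K) (m + d)
    have c4 := finrank_Rn (K := K) m
    have c5 : (m + d + e + 1) * (m + d + e + 2) + (m + 1) * (m + 2) =
      (m + e + 1) * (m + e + 2) + (m + d + 1) * (m + d + 2) + 2 * (d * e) := by ring
    omega

/-- every element of a finite-dimensional quotient is represented in bounded degree -/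
theorem bounded_surj {V : Type*} [AddCommGroup V] [Module K V] [Module.Finite K V]
    (Q : R2 K →ₗ[K] V) (hQ : Function.Surjective Q) :
    ∃ n0 : ℕ, ∀ n, n0 ≤ n → Function.Surjective (Q.comp (Rn K n).subtype) := by
  classical
  set B := Module.finBasis K V
  choose f hf using fun i => hQ (B i)
  refine ⟨Finset.univ.sup fun i => (f i).totalDegree, fun n hn y => ?_⟩
  refine ⟨⟨∑ i, C (B.repr y i) * f i, ?_⟩, ?_⟩
  · rw [mem_restrictTotalDegree]
    refine (totalDegree_finsetSum _ _).trans (Finset.sup_le fun i _ => ?_)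
    refine (totalDegree_mul _ _).trans ?_
    rw [totalDegree_C, zero_add]
    exact (Finset.le_sup (f := fun i => (f i).totalDegree) (Finset.mem_univ i)).trans hn
  · change Q (∑ i, C (B.repr y i) * f i) = y
    rw [map_sum]
    have : ∀ i, Q (C (B.repr y i) * f i) = B.repr y i • B i := by
      intro i
      rw [← hf i, ← map_smul, smul_eq_C_mul]
    simp only [this]
    exact B.sum_repr y

/-- Bezout in the plane -/
theorem bezout2 {ι : Type*} {G H : R2 K} (hG : Prime G) (hGH : ¬ G ∣ H) (S : Finset ι)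
    (P : ι → Fin 2 → K) (hP : Set.InjOn P S) (a b : ι → ℕ)
    (ha : ∀ l ∈ S, G ∈ mm (P l) ^ a l) (hb : ∀ l ∈ S, H ∈ Ideal.span {G} ⊔ mm (P l) ^ b l) :
    ∑ l ∈ S, a l * b l ≤ G.totalDegree * H.totalDegree := by
  classical
  set J : S → Ideal (R2 K) := fun l => JJ G H (P l) (a l + b l) with hJ
  have hloc : ∀ l : S, Module.Finite K (R2 K ⧸ (J l).restrictScalars K) ∧
      a l * b l ≤ Module.finrank K (R2 K ⧸ (J l).restrictScalars K) := by
    intro l
    obtain ⟨y, hy, z, hz, hyz⟩ := Submodule.mem_sup.mp (hb l l.2)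
    obtain ⟨A, rfl⟩ := Ideal.mem_span_singleton'.mp hy
    have : J l = JJ G z (P l) (a l + b l) :=
      JJ_congr (A := A) _ _ (by rw [← hyz]; ring)
    rw [this]
    exact local_dim (ha l l.2) hz
  have hcop : Pairwise (Function.onFun IsCoprime J) := by
    intro l l' hll'
    have h1 : P l ≠ P l' := fun h => hll' (Subtype.ext (hP l.2 l'.2 h))
    have h2 : IsCoprime (mm (P l) ^ (a l + b l)) (mm (P l') ^ (a l' + b l')) :=
      (coprime_mm h1).pow
    rw [Ideal.isCoprime_iff_codisjoint] at h2
    change IsCoprime (J l) (J l')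
    rw [Ideal.isCoprime_iff_codisjoint]
    exact h2.mono (le_JJ _ _ _ _) (le_JJ _ _ _ _)
  set Q : R2 K →ₗ[K] (∀ l : S, R2 K ⧸ (J l).restrictScalars K) :=
    LinearMap.pi fun l => ((J l).restrictScalars K).mkQ with hQ
  have hQs : Function.Surjective Q := by
    intro y
    choose x hx using fun l => Submodule.mkQ_surjective _ (y l)
    obtain ⟨r, hr⟩ := Ideal.exists_forall_sub_mem_ideal hcop x
    refine ⟨r, ?_⟩
    ext l
    rw [← hx l]
    exact (Submodule.Quotient.eq _).mpr (hr l)
  have : ∀ l : S, Module.Finite K (R2 K ⧸ (J l).restrictScalars K) := fun l => (hloc l).1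
  obtain ⟨n0, hn0⟩ := bounded_surj Q hQs
  obtain ⟨V, hV, hVdim⟩ := comb_dim hG hGH n0
  have hs := hn0 (n0 + G.totalDegree + H.totalDegree) (by omega)
  set T := Q.comp (Rn K (n0 + G.totalDegree + H.totalDegree)).subtype with hT
  have hVT : V ≤ LinearMap.ker T := by
    intro f hf
    rw [LinearMap.mem_ker]
    ext l
    change ((J l).restrictScalars K).mkQ (f : R2 K) = 0
    refine (Submodule.Quotient.mk_eq_zero _).mpr ?_
    exact (le_sup_left : Ideal.span {G, H} ≤ J l) (hV f hf)
  have h1 := LinearMap.finrank_range_add_finrank_ker T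
  rw [LinearMap.range_eq_top.mpr hs, finrank_top, Module.finrank_pi_fintype] at h1
  have h2 := Submodule.finrank_mono hVT
  have h3 : ∑ l ∈ S, a l * b l ≤
      ∑ l : S, Module.finrank K (R2 K ⧸ (J l).restrictScalars K) := by
    rw [← Finset.sum_coe_sort S]
    exact Finset.sum_le_sum fun l _ => (hloc l).2
  omega

end Bez

end Pool.Agent.Lib.MP_a8d5c3_co.Stab
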