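import Mathlib
import Pool.Agent.Lib.MP_a8d5c3_co.Stab.Stmts
import Pool.Agent.Lib.MP_a8d5c3_co.Stab.Bezout2

/-!
Bezout along lines: passage from three variables to two variables over the function field of the
height.
-/

set_option autoImplicit false

namespace Pool.Agent.Lib.MP_a8d5c3_co.Stab

open MvPolynomial

namespace Bez

/-- function field of the height -/
abbrev KK := FractionRing (Polynomial ℂ)

/-- the height variable becomes a coefficient -/
noncomputable def psi : P3 ≃ₐ[ℂ] MvPolynomial (Fin 2) (Polynomial ℂ) :=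
  (renameEquiv ℂ (finSuccEquivLast : Fin 3 ≃ Option (Fin 2))).trans (optionEquivRight ℂ (Fin 2))

theorem psi_X0 : psi (X 0) = X 0 := by
  have h : (finSuccEquivLast (0 : Fin 3) : Option (Fin 2)) = some 0 :=
    finSuccEquivLast_castSucc (n := 2) 0
  simp [psi, h, optionEquivRight_X_some]

theorem psi_X1 : psi (X 1) = X 1 := by
  have h : (finSuccEquivLast (1 : Fin 3) : Option (Fin 2)) = some 1 :=
    finSuccEquivLast_castSucc (n := 2) 1
  simp [psi, h, optionEquivRight_X_some]

theorem psi_X2 : psi (X 2) = C Polynomial.X := by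
  have h : (finSuccEquivLast (2 : Fin 3) : Option (Fin 2)) = none :=
    finSuccEquivLast_last (n := 2)
  simp [psi, h, optionEquivRight_X_none]

theorem psi_C (c : ℂ) : psi (C c) = C (Polynomial.C c) := by
  simp [psi, optionEquivRight_C]

theorem psi_aeval (ρ : Polynomial ℂ) : psi (Polynomial.aeval (X 2 : P3) ρ) = C ρ := by
  induction ρ using Polynomial.induction_on' with
  | add p q hp hq => rw [map_add, map_add, hp, hq, map_add]
  | monomial n a =>
    rw [Polynomial.aeval_monomial, map_mul, map_pow, psi_X2]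
    have : (algebraMap ℂ P3) a = C a := rfl
    rw [this, psi_C, ← Polynomial.C_mul_X_pow_eq_monomial, map_mul, map_pow]

/-- the substitution -/
noncomputable def phi : P3 →+* R2 KK :=
  (MvPolynomial.map (algebraMap (Polynomial ℂ) KK)).comp (psi : P3 →+* _)

theorem phi_apply (f : P3) : phi f = MvPolynomial.map (algebraMap (Polynomial ℂ) KK) (psi f) := rfl

theorem phi_X0 : phi (X 0) = X 0 := by rw [phi_apply, psi_X0, map_X]
theorem phi_X1 : phi (X 1) = X 1 := by rw [phi_apply, psi_X1, map_X]
theorem phi_X2 : phi (X 2) = C (algebraMap (Polynomial ℂ) KK Polynomial.X) := by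
  rw [phi_apply, psi_X2, map_C]
theorem phi_C (c : ℂ) : phi (C c) = C (algebraMap (Polynomial ℂ) KK (Polynomial.C c)) := by
  rw [phi_apply, psi_C, map_C]
theorem phi_aeval (ρ : Polynomial ℂ) :
    phi (Polynomial.aeval (X 2 : P3) ρ) = C (algebraMap (Polynomial ℂ) KK ρ) := by
  rw [phi_apply, psi_aeval, map_C]

theorem totalDegree_phi_le (f : P3) : (phi f).totalDegree ≤ f.totalDegree := by
  conv_lhs => rw [f.as_sum]
  rw [map_sum]
  refine (totalDegree_finsetSum _ _).trans ?_
  refine Finset.sup_le fun s hs => ?_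
  rw [monomial_eq, map_mul, phi_C, Finsupp.prod, map_prod]
  refine (totalDegree_mul _ _).trans ?_
  rw [totalDegree_C, zero_add]
  refine (totalDegree_finsetProd _ _).trans ?_
  refine le_trans ?_ (le_totalDegree hs)
  rw [Finsupp.sum]
  refine Finset.sum_le_sum fun i _ => ?_
  rw [map_pow]
  refine (totalDegree_pow _ _).trans ?_
  have h1 : (phi (X i)).totalDegree ≤ 1 := by
    fin_cases i
    · change (phi (X 0)).totalDegree ≤ 1
      rw [phi_X0]; exact (totalDegree_X _).le
    · change (phi (X 1)).totalDegree ≤ 1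
      rw [phi_X1]; exact (totalDegree_X _).le
    · change (phi (X 2)).totalDegree ≤ 1
      rw [phi_X2, totalDegree_C]; exact Nat.zero_le _
  nlinarith

/-- the generic point of a line -/
noncomputable def gp (l : Ln) : Fin 2 → KK := fun i =>
  algebraMap (Polynomial ℂ) KK (Polynomial.C (l.p i) + Polynomial.C (l.u i) * Polynomial.X)

theorem gp_inj : Function.Injective gp := by
  intro l l' h
  have key : ∀ i, l.p i = l'.p i ∧ l.u i = l'.u i := by
    intro i
    have h1 := congrFun h i
    have h2 := IsFractionRing.injective (Polynomial ℂ) KK h1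
    constructor
    · have := congrArg (fun p => Polynomial.coeff p 0) h2
      simpa using this
    · have := congrArg (fun p => Polynomial.coeff p 1) h2
      simpa [Polynomial.coeff_C] using this
  ext i
  · exact (key i).1
  · exact (key i).2

theorem map_I_le (l : Ln) (k : ℕ) : (l.I ^ k).map phi ≤ mm (gp l) ^ k := by
  rw [Ideal.map_pow]
  apply Ideal.pow_right_mono
  rw [Ideal.map_le_iff_le_comap]
  unfold Ln.I
  rw [Ideal.span_le]
  rintro f (rfl | rfl)
  · change phi _ ∈ mm (gp l)
    have : phi (X 0 - C (l.p 0) - C (l.u 0) * X 2) = X 0 - C (gp l 0) := by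
      simp only [map_sub, map_mul, phi_X0, phi_X2, phi_C, gp, map_add]
      ring
    rw [this]
    exact Ideal.subset_span (by simp)
  · change phi _ ∈ mm (gp l)
    have : phi (X 1 - C (l.p 1) - C (l.u 1) * X 2) = X 1 - C (gp l 1) := by
      simp only [map_sub, map_mul, phi_X1, phi_X2, phi_C, gp, map_add]
      ring
    rw [this]
    exact Ideal.subset_span (by simp)

/-- a polynomial of the height in the ideal of a line vanishes -/
theorem aeval_mem_I {l : Ln} {ρ : Polynomial ℂ} (h : Polynomial.aeval (X 2 : P3) ρ ∈ l.I) :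
    ρ = 0 := by
  by_contra hne
  have h1 : phi (Polynomial.aeval (X 2 : P3) ρ) ∈ mm (gp l) ^ 1 := by
    apply map_I_le l 1
    rw [pow_one]
    exact Ideal.mem_map_of_mem _ h
  rw [phi_aeval, mem_mm_pow, tr_C, mem_vI_pow'] at h1
  have h2 := h1 0 (by simp [wt])
  rw [coeff_zero_C] at h2
  exact hne ((IsFractionRing.injective (Polynomial ℂ) KK) (by rw [h2, map_zero]))

attribute [local instance] MvPolynomial.algebraMvPolynomial in
theorem prime_phi {G : P3} (hG : Irreducible G)
    (hd : ∀ ρ : Polynomial ℂ, ρ ≠ 0 → ¬ G ∣ Polynomial.aeval (X 2 : P3) ρ) :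
    Prime (phi G) ∧ ∀ H, ¬ G ∣ H → ¬ phi G ∣ phi H := by
  set M : Submonoid (MvPolynomial (Fin 2) (Polynomial ℂ)) :=
    (nonZeroDivisors (Polynomial ℂ)).map (C (σ := Fin 2)) with hM
  have hloc : IsLocalization M (R2 KK) := MvPolynomial.isLocalization _ _
  have hpG : Prime (psi G) := by
    have : Prime G := hG.prime
    exact (MulEquiv.prime_iff psi.toMulEquiv).mpr this
  have hI : (Ideal.span {psi G}).IsPrime := (Ideal.span_singleton_prime hpG.ne_zero).mpr hpG
  have hdis : Disjoint (M : Set (MvPolynomial (Fin 2) (Polynomial ℂ)))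
      (Ideal.span {psi G} : Ideal (MvPolynomial (Fin 2) (Polynomial ℂ))) := by
    rw [Set.disjoint_left]
    rintro x ⟨ρ, hρ, rfl⟩ hx
    have hx' := Ideal.mem_span_singleton.mp hx
    have hρ0 : ρ ≠ 0 := nonZeroDivisors.ne_zero hρ
    rw [← psi_aeval] at hx'
    exact hd ρ hρ0 ((map_dvd_iff psi).mp hx')
  have hmap : (Ideal.span {psi G}).map (algebraMap _ (R2 KK)) = Ideal.span {phi G} := by
    rw [Ideal.map_span, Set.image_singleton]
    rfl
  have hp := IsLocalization.isPrime_of_isPrime_disjoint M (R2 KK) _ hI hdis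
  have hc := IsLocalization.under_map_of_isPrime_disjoint M (R2 KK) hI hdis
  rw [hmap] at hp hc
  have hinj : Function.Injective phi := by
    have h1 : Function.Injective (MvPolynomial.map (σ := Fin 2) (algebraMap (Polynomial ℂ) KK)) :=
      MvPolynomial.map_injective _ (IsFractionRing.injective (Polynomial ℂ) KK)
    exact h1.comp psi.injective
  have hne : phi G ≠ 0 := by
    intro h0
    exact hG.ne_zero (hinj (by rw [h0, map_zero]))
  refine ⟨(Ideal.span_singleton_prime hne).mp hp, ?_⟩
  intro H hH hdvd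
  apply hH
  have h1 : psi H ∈ (Ideal.span {phi G}).under (MvPolynomial (Fin 2) (Polynomial ℂ)) := by
    rw [Ideal.mem_comap]
    exact Ideal.mem_span_singleton.mpr hdvd
  rw [hc] at h1
  exact (map_dvd_iff psi).mp (Ideal.mem_span_singleton.mp h1)

end Bez

open Bez in
/-- T3: Bezout along lines -/
theorem bezout : Bezout := by
  intro G H hG hGH S a b ha hb
  by_cases hd : ∃ ρ : Polynomial ℂ, ρ ≠ 0 ∧ G ∣ Polynomial.aeval (X 2 : P3) ρ
  · obtain ⟨ρ, hρ, hdvd⟩ := hd
    have h0 : ∀ l ∈ S, a l * b l = 0 := by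
      intro l hl
      have : a l = 0 := by
        by_contra hne
        apply hρ
        apply aeval_mem_I (l := l)
        have h1 : G ∈ l.I := by
          have := Ideal.pow_le_pow_right (I := l.I) (Nat.one_le_iff_ne_zero.mpr hne) (ha l hl)
          rwa [pow_one] at this
        exact Ideal.mem_of_dvd _ hdvd h1
      rw [this, zero_mul]
    rw [Finset.sum_eq_zero h0]
    exact Nat.zero_le _
  · push Not at hd
    obtain ⟨hp, hnd⟩ := prime_phi hG hd
    refine (bezout2 hp (hnd H hGH) S gp (gp_inj.injOn) a b ?_ ?_).trans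
      (Nat.mul_le_mul (totalDegree_phi_le G) (totalDegree_phi_le H))
    · intro l hl
      exact map_I_le l _ (Ideal.mem_map_of_mem _ (ha l hl))
    · intro l hl
      obtain ⟨ρ, hρ, h1⟩ := hb l hl
      have h2 := Ideal.mem_map_of_mem phi h1
      rw [Ideal.map_sup, Ideal.map_span, Set.image_singleton, map_mul, phi_aeval] at h2
      have h3 : C (algebraMap (Polynomial ℂ) KK ρ) * phi H ∈
          Ideal.span {phi G} ⊔ mm (gp l) ^ b l := (sup_le_sup_left (map_I_le l _) _) h2
      have hu : algebraMap (Polynomial ℂ) KK ρ ≠ 0 := by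
        intro h0
        exact hρ ((IsFractionRing.injective (Polynomial ℂ) KK) (by rw [h0, map_zero]))
      have h4 := Ideal.mul_mem_left _ (C (algebraMap (Polynomial ℂ) KK ρ)⁻¹) h3
      rw [← mul_assoc, ← map_mul, inv_mul_cancel₀ hu, map_one, one_mul] at h4
      exact h4

end Pool.Agent.Lib.MP_a8d5c3_co.Stab
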