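import Mathlib
import Pool.Agent.Lib.MP_a8d5c3_co.Stab.Stmts

/-!
T2, part 1: existence of polynomials killed by few linear conditions; local divisibility.
-/

set_option autoImplicit false

namespace Pool.Agent.Lib.MP_a8d5c3_co.Stab

open MvPolynomial Matrix

namespace EG

/-- exponents of degree at most `D` -/
noncomputable def expo (D : ℕ) : Finset (Fin 3 →₀ ℕ) :=
  (Finset.range (D + 1)).biUnion fun n => Finset.univ.finsuppAntidiag n

theorem mem_expo {D : ℕ} {s : Fin 3 →₀ ℕ} : s ∈ expo D ↔ (s.sum fun _ e => e) ≤ D := by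
  unfold expo
  rw [Finsupp.sum_fintype _ _ (by simp)]
  simp only [Finset.mem_biUnion, Finset.mem_range, Finset.mem_finsuppAntidiag,
    Finset.subset_univ, and_true]
  constructor
  · rintro ⟨n, hn, h⟩
    have h' : ∑ i, s i = n := h
    omega
  · intro h; exact ⟨∑ i, s i, by omega, rfl⟩

theorem card_expo (D : ℕ) : 6 * (expo D).card = (D + 1) * (D + 2) * (D + 3) := by
  unfold expo
  rw [Finset.card_biUnion]
  · simp only [Finset.card_finsuppAntidiag_nat_eq_choose, Finset.card_univ, Fintype.card_fin]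
    induction D with
    | zero => simp
    | succ D ih =>
      rw [Finset.sum_range_succ, mul_add, ih]
      have h1 : (3 + (D + 1) - 1).choose (D + 1) = (D + 3).choose 2 := by
        have : 3 + (D + 1) - 1 = D + 3 := by omega
        rw [this, ← Nat.choose_symm_of_eq_add (a := D + 1) (b := 2) (by omega)]
      rw [h1, Nat.choose_two_right]
      have h2 : (D + 3) * (D + 3 - 1) = (D + 3) * (D + 2) := by
        congr 1
      rw [h2]
      have h3 : 2 ∣ (D + 3) * (D + 2) := by
        rcases Nat.even_or_odd D with h | h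
        · exact Dvd.dvd.mul_left (by obtain ⟨k, rfl⟩ := h; exact ⟨k + 1, by ring⟩) _
        · exact Dvd.dvd.mul_right (by obtain ⟨k, rfl⟩ := h; exact ⟨k + 2, by ring⟩) _
      obtain ⟨k, hk⟩ := h3
      rw [hk, Nat.mul_div_cancel_left _ (by norm_num)]
      have h4 : 6 * k = 3 * ((D + 3) * (D + 2)) := by rw [hk]; ring
      rw [h4]
      ring
  · intro a _ b _ hab
    rw [Function.onFun, Finset.disjoint_left]
    intro s hs hs'
    rw [Finset.mem_finsuppAntidiag] at hs hs'
    exact hab (hs.1.symm.trans hs'.1)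

/-- a nonzero polynomial of bounded degree killed by few linear conditions -/
theorem exists_poly (Φ : Finset (P3 →ₗ[ℂ] ℂ)) (D : ℕ)
    (h : 6 * Φ.card < (D + 1) * (D + 2) * (D + 3)) :
    ∃ G : P3, G ≠ 0 ∧ G.totalDegree ≤ D ∧ ∀ φ ∈ Φ, φ G = 0 := by
  classical
  let P : ((expo D) → ℂ) →ₗ[ℂ] P3 :=
    { toFun := fun v => ∑ s : expo D, monomial s.1 (v s)
      map_add' := by intro v w; simp [Finset.sum_add_distrib]
      map_smul' := by
        intro a v
        simp only [Pi.smul_apply, smul_eq_mul, RingHom.id_apply, Finset.smul_sum,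
          smul_monomial] }
  let T : ((expo D) → ℂ) →ₗ[ℂ] (Φ → ℂ) := LinearMap.pi fun φ => φ.1 ∘ₗ P
  have hker : LinearMap.ker T ≠ ⊥ := by
    apply LinearMap.ker_ne_bot_of_finrank_lt
    rw [Module.finrank_fintype_fun_eq_card, Module.finrank_fintype_fun_eq_card,
      Fintype.card_coe, Fintype.card_coe]
    have := card_expo D
    omega
  obtain ⟨v, hv, hv0⟩ := Submodule.exists_mem_ne_zero_of_ne_bot hker
  have hcoeff : ∀ s : expo D, (P v).coeff s.1 = v s := by
    intro s
    change coeff s.1 (∑ s : expo D, monomial s.1 (v s)) = v s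
    rw [coeff_sum]
    simp only [coeff_monomial]
    rw [Finset.sum_eq_single s]
    · simp
    · intro b _ hb
      rw [if_neg]
      intro h'; exact hb (Subtype.ext h')
    · simp
  refine ⟨P v, ?_, ?_, ?_⟩
  · intro h0
    apply hv0
    ext s
    rw [← hcoeff s, h0]; simp
  · change (∑ s : expo D, monomial s.1 (v s)).totalDegree ≤ D
    refine (totalDegree_finsetSum _ _).trans (Finset.sup_le fun s _ => ?_)
    refine (totalDegree_monomial_le _ _).trans ?_
    exact mem_expo.mp s.2
  · intro φ hφ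
    have := congrFun (LinearMap.mem_ker.mp hv) ⟨φ, hφ⟩
    simpa [T] using this

/-- slices of elements of `(X_2 - t)^j (X_0,X_1)^k + (X_0,X_1)^(k+1)` -/
theorem sl_dvd_of_mem_K {k j : ℕ} {t : ℂ} {f : P3}
    (h : f ∈ Ideal.span {(X 2 - C t : P3) ^ j} * (vI ℂ (Finset.univ.erase 2)) ^ k ⊔
      (vI ℂ (Finset.univ.erase 2)) ^ (k + 1))
    {r : Fin 3 →₀ ℕ} (hr : wt (Finset.univ.erase 2) r ≤ k) :
    (Polynomial.X - Polynomial.C t) ^ j ∣ sl 2 r f := by
  obtain ⟨a, ha, b, hb, rfl⟩ := Submodule.mem_sup.mp h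
  obtain ⟨g, hg, rfl⟩ := Ideal.mem_span_singleton_mul.mp ha
  rw [sl_add]
  have h1 : sl 2 r b = 0 := by
    ext c
    rw [sl_coeff, Polynomial.coeff_zero]
    apply mem_vI_pow'.mp hb
    rw [wt_add, wt_single, if_neg (by simp), add_zero]
    have : wt (Finset.univ.erase 2) (Finsupp.erase 2 r) = wt (Finset.univ.erase 2) r := by
      unfold wt
      refine Finset.sum_congr rfl fun i hi => ?_
      rw [Finsupp.erase_ne (Finset.ne_of_mem_erase hi)]
    omega
  rw [h1, add_zero]
  have key : ∀ (j : ℕ) (g : P3), sl 2 r ((X 2 - C t) ^ j * g) =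
      (Polynomial.X - Polynomial.C t) ^ j * sl 2 r g := by
    intro j
    induction j with
    | zero => intro g; simp
    | succ j ih =>
      intro g
      rw [pow_succ, mul_assoc, ih, sub_mul, sl_sub, sl_X_mul_self, sl_smul, pow_succ]
      ring
  rw [key]
  exact dvd_mul_right _ _

theorem map_pow_of_equiv (φ : P3 ≃ₐ[ℂ] P3) (J : Ideal P3) (k : ℕ) :
    (J ^ k).map φ = (J.map φ) ^ k := Ideal.map_pow _ _ _

/-- the local divisibility at a point `q` of a line `l = t i`, from the frame of the joint to the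
frame of the line -/
theorem local_dvd {t : Fin 3 → Ln} (hind : LinearIndependent ℂ fun i => (t i).dir) {q : Pt}
    {i : Fin 3} (hq : (t i).Has q) {k j : ℕ} {G : P3}
    (hG : ∀ s, (aff q (triE t) G).coeff s ≠ 0 → k ≤ wt (Finset.univ.erase i) s ∧
      (wt (Finset.univ.erase i) s = k → j ≤ s i))
    {r : Fin 3 →₀ ℕ} (hr : wt (Finset.univ.erase 2) r ≤ k) :
    (Polynomial.X - Polynomial.C (q 2)) ^ j ∣ sl 2 r (aff ((t i).pt 0) (lineE (t i)) G) := by
  classical
  have hE := triE_det hind
  set ψ := affE q (triE t) hE with hψ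
  set φ := affE ((t i).pt 0) (lineE (t i)) (lineE_det _) with hφ
  have hIψ : ((t i).I).map ψ = vI ℂ (Finset.univ.erase i) :=
    map_I hE hq (fun j => triE_col t i j)
  have hIφ : ((t i).I).map φ = vI ℂ (Finset.univ.erase 2) :=
    map_I (lineE_det _) ((t i).has_pt 0) (lineE_col _)
  -- in the frame of the joint
  have h1 : ψ G ∈ Ideal.span {(X i : P3) ^ j} * (vI ℂ (Finset.univ.erase i)) ^ k ⊔
      (vI ℂ (Finset.univ.erase i)) ^ (k + 1) := by
    rw [(ψ G).as_sum]
    refine Ideal.sum_mem _ fun s hs => ?_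
    have hs0 : (aff q (triE t) G).coeff s ≠ 0 := mem_support_iff.mp hs
    obtain ⟨h2, h3⟩ := hG s hs0
    by_cases hk : wt (Finset.univ.erase i) s = k
    · refine Submodule.mem_sup_left ?_
      have h4 := h3 hk
      rw [Ideal.mem_span_singleton_mul]
      refine ⟨monomial (s - Finsupp.single i j) ((ψ G).coeff s), ?_, ?_⟩
      · apply mem_vI_pow_of
        intro s' hs'
        have : s' = s - Finsupp.single i j := by
          have := support_monomial_subset hs'
          simpa using this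
        subst this
        rw [← hk]
        unfold wt
        refine Finset.sum_le_sum fun b hb => ?_
        simp only [Finsupp.coe_tsub, Pi.sub_apply]
        rw [Finsupp.single_eq_of_ne (Finset.ne_of_mem_erase hb)]
        simp
      · rw [X_pow_eq_monomial, monomial_mul, one_mul, add_comm]
        rw [tsub_add_cancel_of_le (Finsupp.single_le_iff.mpr h4)]
    · refine Submodule.mem_sup_right ?_
      apply mem_vI_pow_of
      intro s' hs'
      have : s' = s := by
        have := support_monomial_subset hs'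
        simpa using this
      subst this
      omega
  -- pull back
  set lam := ψ.symm (X i) with hlam
  have hlamψ : ψ lam = X i := by rw [hlam]; exact ψ.apply_symm_apply _
  have h2 : G ∈ Ideal.span {lam ^ j} * ((t i).I) ^ k ⊔ ((t i).I) ^ (k + 1) := by
    have h3 : (Ideal.span {lam ^ j} * ((t i).I) ^ k ⊔ ((t i).I) ^ (k + 1)).map ψ =
        Ideal.span {(X i : P3) ^ j} * (vI ℂ (Finset.univ.erase i)) ^ k ⊔
      (vI ℂ (Finset.univ.erase i)) ^ (k + 1) := by
      rw [Ideal.map_sup, Ideal.map_mul, Ideal.map_pow, Ideal.map_pow, hIψ, Ideal.map_span]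
      congr 3
      simp [hlamψ]
    rw [← h3] at h1
    obtain ⟨x, hx, hx'⟩ := (Ideal.mem_map_of_equiv ψ.toRingEquiv (ψ G)).mp h1
    have : x = G := ψ.injective hx'
    rwa [← this]
  -- compare `lam` and `X 2 - q 2`
  have h3 : lam - (X 2 - C (q 2)) ∈ (t i).I := by
    have h4 : lam - (X 2 - C (q 2)) ∈ (t i).I ^ 1 := by
      rw [mem_I_pow_iff_frame hE hq (fun j => triE_col t i j), pow_one, ← affE_apply q _ hE,
        ← hψ, map_sub, hlamψ, map_sub, hψ, affE_apply, affE_apply, aff_X, aff_C]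
      have h5 : (X i - (C (q 2) + ∑ j, C (triE t 2 j) * X j - C (q 2)) : P3) =
          - ∑ j ∈ Finset.univ.erase i, X j := by
        have h6 : ∀ j, triE t 2 j = 1 := by
          intro j; simp [triE, Ln.dir]
        simp only [h6, map_one, one_mul]
        rw [← Finset.add_sum_erase Finset.univ (fun j => (X j : P3)) (Finset.mem_univ i)]
        ring
      rw [h5]
      refine neg_mem (Ideal.sum_mem _ fun b hb => ?_)
      exact Ideal.subset_span ⟨b, by simpa using hb, rfl⟩
    simpa using h4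
  have h4 : lam ^ j - (X 2 - C (q 2)) ^ j ∈ (t i).I :=
    Ideal.mem_of_dvd _ (sub_dvd_pow_sub_pow _ _ _) h3
  have h5 : G ∈ Ideal.span {(X 2 - C (q 2) : P3) ^ j} * ((t i).I) ^ k ⊔ ((t i).I) ^ (k + 1) := by
    refine (sup_le ?_ le_sup_right : Ideal.span {lam ^ j} * ((t i).I) ^ k ⊔ ((t i).I) ^ (k + 1) ≤ _) h2
    intro x hx
    obtain ⟨z, hz, rfl⟩ := Ideal.mem_span_singleton_mul.mp hx
    have : lam ^ j * z = (X 2 - C (q 2)) ^ j * z + (lam ^ j - (X 2 - C (q 2)) ^ j) * z := by ring
    rw [this]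
    refine Submodule.add_mem_sup (Ideal.mem_span_singleton_mul.mpr ⟨z, hz, rfl⟩) ?_
    rw [pow_succ']
    exact Ideal.mul_mem_mul h4 hz
  -- push forward
  have h6 : φ G ∈ Ideal.span {(X 2 - C (q 2) : P3) ^ j} * (vI ℂ (Finset.univ.erase 2)) ^ k ⊔
      (vI ℂ (Finset.univ.erase 2)) ^ (k + 1) := by
    have h7 := Ideal.mem_map_of_mem φ h5
    rw [Ideal.map_sup, Ideal.map_mul, Ideal.map_pow, Ideal.map_pow, hIφ, Ideal.map_span] at h7
    have h8 : φ (X 2 - C (q 2)) = X 2 - C (q 2) := by
      rw [hφ, affE_apply, map_sub, aff_X, aff_C]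
      simp [Fin.sum_univ_three, lineE, Ln.pt]
    have h9 : (φ '' {(X 2 - C (q 2) : P3) ^ j}) = {(X 2 - C (q 2) : P3) ^ j} := by
      rw [Set.image_singleton, map_pow, h8]
    rwa [h9] at h7
  exact sl_dvd_of_mem_K h6 hr

/-- a one variable polynomial with too many zeros vanishes -/
theorem poly_zero {g : Polynomial ℂ} {l : Ln} (S : Finset Pt) (hS : ∀ q ∈ S, l.Has q)
    (e : Pt → ℕ) (T : Finset ℂ) (hT : ∀ q ∈ S, q 2 ∉ T)
    (hdvd : ∀ q ∈ S, (Polynomial.X - Polynomial.C (q 2)) ^ e q ∣ g)
    (heval : ∀ t ∈ T, g.eval t = 0) (hdeg : g.natDegree < ∑ q ∈ S, e q + T.card) : g = 0 := by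
  classical
  by_contra hg
  have h1 : (∏ q ∈ S, (Polynomial.X - Polynomial.C (q 2)) ^ e q) ∣ g := by
    refine Finset.prod_dvd_of_coprime ?_ hdvd
    intro a ha b hb hab
    refine IsCoprime.pow ?_
    apply Polynomial.isCoprime_X_sub_C_of_isUnit_sub
    rw [isUnit_iff_ne_zero, sub_ne_zero]
    intro hne
    apply hab
    rw [hS a ha, hS b hb, hne]
  have h2 : (∏ t ∈ T, (Polynomial.X - Polynomial.C t)) ∣ g := by
    refine Finset.prod_dvd_of_coprime ?_ fun t ht => Polynomial.dvd_iff_isRoot.mpr (heval t ht)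
    intro a ha b hb hab
    apply Polynomial.isCoprime_X_sub_C_of_isUnit_sub
    rw [isUnit_iff_ne_zero, sub_ne_zero]
    exact hab
  have h3 : IsCoprime (∏ q ∈ S, (Polynomial.X - Polynomial.C (q 2)) ^ e q)
      (∏ t ∈ T, (Polynomial.X - Polynomial.C t)) := by
    refine IsCoprime.prod_left fun q hq => IsCoprime.prod_right fun t ht => IsCoprime.pow_left ?_
    apply Polynomial.isCoprime_X_sub_C_of_isUnit_sub
    rw [isUnit_iff_ne_zero, sub_ne_zero]
    intro hne
    exact hT q hq (hne ▸ ht)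
  have h4 := Polynomial.natDegree_le_of_dvd (h3.mul_dvd h1 h2) hg
  rw [Polynomial.natDegree_mul, Polynomial.natDegree_prod_of_monic _ _
    fun q _ => (Polynomial.monic_X_sub_C _).pow _, Polynomial.natDegree_prod_of_monic _ _
    fun q _ => (Polynomial.monic_X_sub_C _)] at h4
  · simp only [(Polynomial.monic_X_sub_C _).natDegree_pow, Polynomial.natDegree_X_sub_C,
      mul_one, Finset.sum_const, smul_eq_mul] at h4
    omega
  · exact (Polynomial.monic_prod_of_monic _ _ fun q _ => (Polynomial.monic_X_sub_C _).pow _).ne_zero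
  · exact (Polynomial.monic_prod_of_monic _ _ fun q _ => (Polynomial.monic_X_sub_C _)).ne_zero

end EG

end Pool.Agent.Lib.MP_a8d5c3_co.Stab
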