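import Mathlib
import Pool.Agent.Lib.MP_a8d5c3_co.Stab.ExistsG1

/-!
T2, part 2: the induction on the order along the lines, and the linear conditions.
-/

set_option autoImplicit false

namespace Pool.Agent.Lib.MP_a8d5c3_co.Stab

open MvPolynomial Matrix

namespace EG

theorem wt_erase_add (i : Fin 3) (s : Fin 3 →₀ ℕ) :
    wt (Finset.univ.erase i) s + s i = ∑ j, s j := by
  unfold wt
  rw [add_comm]
  exact Finset.add_sum_erase Finset.univ (fun j => s j) (Finset.mem_univ i)

/-- The induction step. -/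
theorem step (c : Cfg) (B k0 D : ℕ) (G : P3) (hD : G.totalDegree ≤ D)
    (T : Ln → Finset ℂ) (Q : Ln → Finset Pt) (good : Ln → Prop)
    (hT : ∀ l ∈ c.L, ∀ q ∈ c.on l, q 2 ∉ T l)
    (hQ : ∀ l ∈ c.L, good l → Q l ⊆ c.on l)
    (ha : ∀ q ∈ c.J, ∀ s : Fin 3 →₀ ℕ, (∀ i, s i < B) →
      (aff q (triE (c.tri q)) G).coeff s = 0)
    (hb : ∀ l ∈ c.L, ∀ s : Fin 3 →₀ ℕ, s 2 = 0 → wt (Finset.univ.erase 2) s < k0 →
      (good l → wt (Finset.univ.erase 2) s < B) → ∀ t ∈ T l,
      (sl 2 s (aff (l.pt 0) (lineE l) G)).eval t = 0)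
    (hc : ∀ l ∈ c.L, good l → ∀ q ∈ Q l, ∃ i, c.tri q i = l ∧ ∀ s : Fin 3 →₀ ℕ, s i = B →
      (∀ j, s j ≤ B) → B ≤ wt (Finset.univ.erase i) s → wt (Finset.univ.erase i) s < k0 →
      (aff q (triE (c.tri q)) G).coeff s = 0)
    (h1 : ∀ l ∈ c.L, D + 1 ≤ B * (c.on l).card + (T l).card)
    (h2 : ∀ l ∈ c.L, good l → D + 1 ≤ B * (c.on l).card + (Q l).card)
    (k : ℕ) (hk : k ≤ k0) : ∀ l ∈ c.L, G ∈ l.I ^ k := by
  classical
  induction k with
  | zero => intro l _; simp
  | succ k ih =>
    specialize ih (by omega)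
    intro l hl
    rw [mem_I_pow_iff_frame (lineE_det l) (l.has_pt 0) (lineE_col l), mem_vI_pow']
    intro s hs
    have ihl := ih l hl
    rw [mem_I_pow_iff_frame (lineE_det l) (l.has_pt 0) (lineE_col l), mem_vI_pow'] at ihl
    by_cases hsk : wt (Finset.univ.erase 2) s < k
    · exact ihl s hsk
    have hsk' : wt (Finset.univ.erase 2) s = k := by omega
    -- the slice vanishes
    set r := s.erase 2 with hr
    have hr2 : r 2 = 0 := by rw [hr]; simp
    have hrw : wt (Finset.univ.erase 2) r = k := by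
      rw [← hsk']
      unfold wt
      refine Finset.sum_congr rfl fun i hi => ?_
      rw [hr, Finsupp.erase_ne (Finset.ne_of_mem_erase hi)]
    suffices h : sl 2 r (aff (l.pt 0) (lineE l) G) = 0 by
      have h3 := congrArg (fun p => Polynomial.coeff p (s 2)) h
      simp only [sl_coeff, Polynomial.coeff_zero] at h3
      have h4 : Finsupp.erase 2 r + Finsupp.single 2 (s 2) = s := by
        rw [hr]
        ext j
        by_cases hj : j = 2
        · subst hj; simp
        · simp [Finsupp.erase_ne hj, Finsupp.single_eq_of_ne hj]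
      rwa [h4] at h3
    have hon : ∀ q ∈ c.on l, l.Has q := by
      intro q hq
      obtain ⟨hq, i, hi⟩ := Finset.mem_filter.mp hq
      rw [← hi]; exact c.has q hq i
    -- local divisibility
    have hloc : ∀ q ∈ c.J, ∀ i, c.tri q i = l → ∀ j : ℕ,
        (∀ s : Fin 3 →₀ ℕ, (aff q (triE (c.tri q)) G).coeff s ≠ 0 →
          wt (Finset.univ.erase i) s = k → (∀ i', s i' ≤ s i) → j ≤ s i) →
        (Polynomial.X - Polynomial.C (q 2)) ^ j ∣ sl 2 r (aff (l.pt 0) (lineE l) G) := by
      intro q hq i hi j hj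
      have := local_dvd (c.indep q hq) (i := i) (c.has q hq i) (k := k) (j := j) (G := G) (r := r)
        (fun s hs => by
          have hw : ∀ i', k ≤ wt (Finset.univ.erase i') s := by
            intro i'
            have h3 := ih (c.tri q i') (c.tri_mem q hq i')
            rw [mem_I_pow_iff_frame (triE_det (c.indep q hq)) (c.has q hq i')
              (fun j => triE_col _ i' j)] at h3
            exact mem_vI_pow.mp h3 s (mem_support_iff.mpr hs)
          refine ⟨hw i, fun h3 => hj s hs h3 fun i' => ?_⟩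
          have h4 := wt_erase_add i s
          have h5 := wt_erase_add i' s
          have h6 := hw i'
          omega) (by omega)
      rwa [hi] at this
    have hdeg : sl 2 r (aff (l.pt 0) (lineE l) G) ≠ 0 →
        (sl 2 r (aff (l.pt 0) (lineE l) G)).natDegree ≤ D := by
      intro h
      have h3 := natDegree_sl_le 2 r h
      have h4 := totalDegree_aff_le (l.pt 0) (lineE l) G
      omega
    have hB : ∀ q ∈ c.on l, (Polynomial.X - Polynomial.C (q 2)) ^ B ∣
        sl 2 r (aff (l.pt 0) (lineE l) G) := by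
      intro q hq
      obtain ⟨hq, i, hi⟩ := Finset.mem_filter.mp hq
      refine hloc q hq i hi B fun s hs hsw hmax => ?_
      by_contra hlt
      exact hs (ha q hq s fun i' => lt_of_le_of_lt (hmax i') (by omega))
    by_contra hne
    have hdeg' := hdeg hne
    by_cases hcase : good l ∧ B ≤ k
    · obtain ⟨hg, hBk⟩ := hcase
      apply hne
      refine poly_zero (l := l) (c.on l) hon (fun q => if q ∈ Q l then B + 1 else B) ∅ (by simp)
        (fun q hq => ?_) (by simp) ?_
      · by_cases hqQ : q ∈ Q l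
        · rw [if_pos hqQ]
          obtain ⟨i, hi, hcoef⟩ := hc l hl hg q hqQ
          have hqJ : q ∈ c.J := (Finset.mem_filter.mp hq).1
          refine hloc q hqJ i hi (B + 1) fun s hs hsw hmax => ?_
          have hBs : B ≤ s i := by
            by_contra hlt
            exact hs (ha q hqJ s fun i' => lt_of_le_of_lt (hmax i') (by omega))
          by_contra hlt
          have hsi : s i = B := by omega
          exact hs (hcoef s hsi (fun j => by rw [← hsi]; exact hmax j) (by omega) (by omega))
        · rw [if_neg hqQ]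
          exact hB q hq
      · have h3 : ∑ q ∈ c.on l, (if q ∈ Q l then B + 1 else B) =
            B * (c.on l).card + (Q l).card := by
          have h4 : ∀ q ∈ c.on l, (if q ∈ Q l then B + 1 else B) =
              B + (if q ∈ Q l then 1 else 0) := by
            intro q _; split_ifs <;> rfl
          rw [Finset.sum_congr rfl h4, Finset.sum_add_distrib, Finset.sum_const, smul_eq_mul,
            mul_comm, ← Finset.sum_filter, Finset.sum_const, smul_eq_mul, mul_one]
          congr 2
          ext q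
          simp only [Finset.mem_filter]
          exact ⟨fun h => h.2, fun h => ⟨hQ l hl hg h, h⟩⟩
        rw [h3, Finset.card_empty]
        have := h2 l hl hg
        omega
    · apply hne
      refine poly_zero (l := l) (c.on l) hon (fun _ => B) (T l) (hT l hl) hB (fun t ht => ?_) ?_
      · refine hb l hl r hr2 (by omega) (fun hg => ?_) t ht
        rw [hrw]
        by_contra hlt
        exact hcase ⟨hg, by omega⟩
      · rw [Finset.sum_const, smul_eq_mul, mul_comm]
        have := h1 l hl
        omega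

/-! ### the functionals -/

/-- coefficient in a frame -/
noncomputable def coF (q : Pt) (E : Matrix (Fin 3) (Fin 3) ℂ) (s : Fin 3 →₀ ℕ) : P3 →ₗ[ℂ] ℂ :=
  (lcoeff ℂ s) ∘ₗ (aff q E).toLinearMap

theorem coF_apply (q : Pt) (E : Matrix (Fin 3) (Fin 3) ℂ) (s : Fin 3 →₀ ℕ) (G : P3) :
    coF q E s G = (aff q E G).coeff s := rfl

/-- value of a slice in the frame of a line -/
noncomputable def slF (l : Ln) (s : Fin 3 →₀ ℕ) (t : ℂ) : P3 →ₗ[ℂ] ℂ where
  toFun G := (sl 2 s (aff (l.pt 0) (lineE l) G)).eval t
  map_add' G H := by rw [map_add, sl_add, Polynomial.eval_add]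
  map_smul' a G := by
    rw [smul_eq_C_mul, map_mul, aff_C, sl_smul, Polynomial.eval_mul, Polynomial.eval_C]
    rfl

theorem slF_apply (l : Ln) (s : Fin 3 →₀ ℕ) (t : ℂ) (G : P3) :
    slF l s t G = (sl 2 s (aff (l.pt 0) (lineE l) G)).eval t := rfl

/-! ### the sets of exponents -/

/-- exponents with entries less than `B` -/
noncomputable def box (B : ℕ) : Finset (Fin 3 →₀ ℕ) := by
  classical
  exact (Fintype.piFinset fun _ : Fin 3 => Finset.range B).image Finsupp.equivFunOnFinite.symm

theorem mem_box {B : ℕ} {s : Fin 3 →₀ ℕ} (h : ∀ i, s i < B) : s ∈ box B := by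
  classical
  unfold box
  rw [Finset.mem_image]
  refine ⟨s, ?_, ?_⟩
  · rw [Fintype.mem_piFinset]; intro i; simpa using h i
  · ext i; simp

theorem card_box_le (B : ℕ) : (box B).card ≤ B ^ 3 := by
  classical
  unfold box
  refine Finset.card_image_le.trans ?_
  rw [Fintype.card_piFinset]
  simp

/-- exponents in two variables with sum less than `n` -/
noncomputable def prs (n : ℕ) : Finset (Fin 3 →₀ ℕ) := by
  classical
  exact (Finset.range n).biUnion fun k => (Finset.HasAntidiagonal.antidiagonal k : Finset (ℕ × ℕ)).image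
    fun p => Finsupp.single 0 p.1 + Finsupp.single 1 p.2

theorem mem_prs {n : ℕ} {s : Fin 3 →₀ ℕ} (h2 : s 2 = 0)
    (h : wt (Finset.univ.erase 2) s < n) : s ∈ prs n := by
  classical
  have hw : wt (Finset.univ.erase 2) s = s 0 + s 1 := by
    have e : (Finset.univ.erase 2 : Finset (Fin 3)) = {0, 1} := by decide
    rw [e]; simp [wt]
  unfold prs
  simp only [Finset.mem_biUnion, Finset.mem_range, Finset.mem_image, Finset.HasAntidiagonal.mem_antidiagonal]
  refine ⟨s 0 + s 1, by omega, (s 0, s 1), rfl, ?_⟩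
  ext i
  fin_cases i
  · simp
  · simp
  · simp [h2]

theorem card_prs_le (n : ℕ) : (prs n).card ≤ ∑ k ∈ Finset.range n, (k + 1) := by
  classical
  unfold prs
  refine Finset.card_biUnion_le.trans (Finset.sum_le_sum fun k _ => ?_)
  refine Finset.card_image_le.trans ?_
  rw [Finset.Nat.card_antidiagonal]

/-- exponents of the additional conditions at the special joints -/
noncomputable def spec (B r : ℕ) (i : Fin 3) : Finset (Fin 3 →₀ ℕ) := by
  classical
  exact (Finset.Ico r (B + 1)).biUnion fun k => (Finset.HasAntidiagonal.antidiagonal k : Finset (ℕ × ℕ)).image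
    fun p => Finsupp.single i B + Finsupp.single (i + 1) (B - p.1) +
      Finsupp.single (i + 2) (B - p.2)

theorem mem_spec {B r : ℕ} {i : Fin 3} {s : Fin 3 →₀ ℕ} (hi : s i = B) (hs : ∀ j, s j ≤ B)
    (h1 : B ≤ wt (Finset.univ.erase i) s) (h2 : wt (Finset.univ.erase i) s < 2 * B + 1 - r) :
    s ∈ spec B r i := by
  classical
  have hw : wt (Finset.univ.erase i) s = s (i + 1) + s (i + 2) := by
    have e := wt_erase_add i s
    rw [Fin.sum_univ_three] at e
    fin_cases i
    · simp at e ⊢; omega
    · simp at e ⊢; omega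
    · simp at e ⊢; omega
  have ha := hs (i + 1)
  have hb := hs (i + 2)
  unfold spec
  simp only [Finset.mem_biUnion, Finset.mem_Ico, Finset.mem_image, Finset.HasAntidiagonal.mem_antidiagonal]
  refine ⟨(B - s (i + 1)) + (B - s (i + 2)), by omega, (B - s (i + 1), B - s (i + 2)), rfl, ?_⟩
  rw [Nat.sub_sub_self ha, Nat.sub_sub_self hb]
  ext j
  fin_cases i <;> fin_cases j <;> simp_all

theorem card_spec_le (B r : ℕ) (i : Fin 3) :
    (spec B r i).card ≤ ∑ k ∈ Finset.Ico r (B + 1), (k + 1) := by
  classical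
  unfold spec
  refine Finset.card_biUnion_le.trans (Finset.sum_le_sum fun k _ => ?_)
  refine Finset.card_image_le.trans ?_
  rw [Finset.Nat.card_antidiagonal]

theorem sum_succ (n : ℕ) : 2 * ∑ k ∈ Finset.range n, (k + 1) = n * (n + 1) := by
  induction n with
  | zero => simp
  | succ n ih => rw [Finset.sum_range_succ, mul_add, ih]; ring

theorem coef_good {B r : ℕ} (hr : r ≤ B) (h : 4 * B + 4 ≤ r * (r + 1)) :
    ∑ k ∈ Finset.range B, (k + 1) + ∑ k ∈ Finset.Ico r (B + 1), (k + 1) + 1 ≤ B ^ 2 := by
  have h1 := sum_succ B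
  have h2 := sum_succ (B + 1)
  have h3 := sum_succ r
  have h4 : ∑ k ∈ Finset.range r, (k + 1) + ∑ k ∈ Finset.Ico r (B + 1), (k + 1) =
      ∑ k ∈ Finset.range (B + 1), (k + 1) := by
    rw [Finset.range_eq_Ico, Finset.range_eq_Ico]
    exact Finset.sum_Ico_consecutive _ (by omega) (by omega)
  nlinarith

theorem coef_bad (B r : ℕ) :
    ∑ k ∈ Finset.range (2 * B + 1 - r), (k + 1) ≤ (2 * B + 1) ^ 2 := by
  have h1 := sum_succ (2 * B + 1 - r)
  have h2 : 2 * B + 1 - r ≤ 2 * B + 1 := by omega
  have h3 : (2 * B + 1 - r) * (2 * B + 1 - r + 1) ≤ (2 * B + 1) * (2 * B + 1 + 1) :=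
    Nat.mul_le_mul h2 (by omega)
  nlinarith

end EG

end Pool.Agent.Lib.MP_a8d5c3_co.Stab
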