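import Mathlib
import Pool.Agent.Lib.MP_a8d5c3_co.Stab.ExistsG2

/-!
T2: a polynomial of degree about `mB` vanishing to order about `2B` along all lines.
-/

set_option autoImplicit false

namespace Pool.Agent.Lib.MP_a8d5c3_co.Stab

open MvPolynomial Matrix

namespace EG

/-- The combinatorial form: if the count is small enough, the polynomial exists. -/
theorem exists_of_count (c : Cfg) (B r D : ℕ) (hr : r ≤ B)
    (hrr : 4 * B + 4 ≤ r * (r + 1)) (good : Ln → Prop) [DecidablePred good]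
    (hgood : ∀ l ∈ c.L, good l → D + 1 ≤ B * (c.on l).card + (c.on l).card)
    (hcount : 6 * (c.J.card * B ^ 3 + ∑ l ∈ c.L,
      (if good l then B ^ 2 - 1 else (2 * B + 1) ^ 2) * (D + 1 - B * (c.on l).card)) <
      (D + 1) * (D + 2) * (D + 3)) :
    ∃ G : P3, G ≠ 0 ∧ G.totalDegree ≤ D ∧ ∀ l ∈ c.L, G ∈ l.I ^ (2 * B + 1 - r) := by
  classical
  set z : Ln → ℕ := fun l => D + 1 - B * (c.on l).card with hz
  -- additional heights
  have hT : ∀ l : Ln, ∃ T : Finset ℂ, T.card = z l ∧ ∀ q ∈ c.on l, q 2 ∉ T := by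
    intro l
    have hinf : (((c.on l).image fun q : Pt => q 2 : Finset ℂ) : Set ℂ)ᶜ.Infinite :=
      (Finset.finite_toSet _).infinite_compl
    obtain ⟨T, hT, hTc⟩ := hinf.exists_subset_card_eq (z l)
    refine ⟨T, hTc, fun q hq hqT => ?_⟩
    apply hT hqT
    simp only [Finset.coe_image, Set.mem_image, Finset.mem_coe]
    exact ⟨q, hq, rfl⟩
  choose T hTc hT using hT
  -- special joints
  have hQ : ∀ l : Ln, ∃ Q : Finset Pt, (l ∈ c.L ∧ good l → Q ⊆ c.on l ∧ Q.card = z l) ∧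
      Q.card ≤ z l := by
    intro l
    by_cases h : l ∈ c.L ∧ good l
    · have h1 := hgood l h.1 h.2
      obtain ⟨Q, hQ, hQc⟩ := Finset.exists_subset_card_eq (s := c.on l) (n := z l) (by
        simp only [hz]; omega)
      exact ⟨Q, fun _ => ⟨hQ, hQc⟩, hQc.le⟩
    · exact ⟨∅, fun h' => absurd h' h, by simp⟩
  choose Q hQ hQc using hQ
  -- indices
  have hidx : ∀ (q : Pt) (l : Ln), ∃ i : Fin 3, (∃ i, c.tri q i = l) → c.tri q i = l := by
    intro q l
    by_cases h : ∃ i, c.tri q i = l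
    · obtain ⟨i, hi⟩ := h; exact ⟨i, fun _ => hi⟩
    · exact ⟨0, fun h' => absurd h' h⟩
  choose idx hidx using hidx
  -- the conditions
  set Φa : Finset (P3 →ₗ[ℂ] ℂ) :=
    (c.J ×ˢ box B).image fun p => coF p.1 (triE (c.tri p.1)) p.2 with hΦa
  set Φb : Ln → Finset (P3 →ₗ[ℂ] ℂ) := fun l =>
    ((prs (if good l then B else 2 * B + 1 - r)) ×ˢ T l).image fun p => slF l p.1 p.2 with hΦb
  set Φc : Ln → Finset (P3 →ₗ[ℂ] ℂ) := fun l => if good l then
    (Q l).biUnion fun q => (spec B r (idx q l)).image fun s => coF q (triE (c.tri q)) s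
    else ∅ with hΦc
  set Φ : Finset (P3 →ₗ[ℂ] ℂ) := Φa ∪ c.L.biUnion fun l => Φb l ∪ Φc l with hΦ
  have ha : Φa.card ≤ c.J.card * B ^ 3 := by
    refine Finset.card_image_le.trans ?_
    rw [Finset.card_product]
    exact Nat.mul_le_mul_left _ (card_box_le B)
  have hbc : ∀ l ∈ c.L, (Φb l ∪ Φc l).card ≤
      (if good l then B ^ 2 - 1 else (2 * B + 1) ^ 2) * z l := by
    intro l hl
    refine (Finset.card_union_le _ _).trans ?_
    have hb : (Φb l).card ≤
        (∑ k ∈ Finset.range (if good l then B else 2 * B + 1 - r), (k + 1)) * z l := by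
      refine Finset.card_image_le.trans ?_
      rw [Finset.card_product, hTc]
      exact Nat.mul_le_mul_right _ (card_prs_le _)
    by_cases hg : good l
    · rw [if_pos hg] at hb ⊢
      have hc : (Φc l).card ≤ (∑ k ∈ Finset.Ico r (B + 1), (k + 1)) * z l := by
        simp only [hΦc]
        rw [if_pos hg]
        refine Finset.card_biUnion_le.trans ?_
        refine (Finset.sum_le_sum fun q _ => Finset.card_image_le.trans
          (card_spec_le B r _)).trans ?_
        rw [Finset.sum_const, smul_eq_mul, mul_comm]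
        exact Nat.mul_le_mul_left _ (hQc l)
      have h3 := coef_good hr hrr
      calc (Φb l).card + (Φc l).card ≤ _ := Nat.add_le_add hb hc
        _ = (∑ k ∈ Finset.range B, (k + 1) + ∑ k ∈ Finset.Ico r (B + 1), (k + 1)) * z l := by
          ring
        _ ≤ (B ^ 2 - 1) * z l := Nat.mul_le_mul_right _ (by omega)
    · rw [if_neg hg] at hb ⊢
      have hc : (Φc l).card = 0 := by
        simp only [hΦc]
        rw [if_neg hg, Finset.card_empty]
      rw [hc, add_zero]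
      exact hb.trans (Nat.mul_le_mul_right _ (coef_bad B r))
  have hcard : Φ.card ≤ c.J.card * B ^ 3 + ∑ l ∈ c.L,
      (if good l then B ^ 2 - 1 else (2 * B + 1) ^ 2) * z l := by
    refine (Finset.card_union_le _ _).trans (Nat.add_le_add ha ?_)
    exact Finset.card_biUnion_le.trans (Finset.sum_le_sum hbc)
  obtain ⟨G, hG0, hGD, hG⟩ := exists_poly Φ D (lt_of_le_of_lt (Nat.mul_le_mul_left 6 hcard) hcount)
  refine ⟨G, hG0, hGD, ?_⟩
  refine step c B (2 * B + 1 - r) D G hGD T Q good (fun l _ => hT l)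
    (fun l hl hg => (hQ l ⟨hl, hg⟩).1) ?_ ?_ ?_ ?_ ?_ _ le_rfl
  · intro q hq s hs
    refine hG (coF q (triE (c.tri q)) s) ?_
    rw [hΦ]
    refine Finset.mem_union_left _ ?_
    rw [hΦa]
    exact Finset.mem_image.mpr ⟨(q, s), Finset.mem_product.mpr ⟨hq, mem_box hs⟩, rfl⟩
  · intro l hl s hs2 hs hsg t ht
    refine hG (slF l s t) ?_
    rw [hΦ]
    refine Finset.mem_union_right _ (Finset.mem_biUnion.mpr ⟨l, hl, Finset.mem_union_left _ ?_⟩)
    rw [hΦb]
    refine Finset.mem_image.mpr ⟨(s, t), Finset.mem_product.mpr ⟨mem_prs hs2 ?_, ht⟩, rfl⟩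
    split_ifs with hg
    · exact hsg hg
    · exact hs
  · intro l hl hg q hq
    have hqon : q ∈ c.on l := (hQ l ⟨hl, hg⟩).1 hq
    have hi := hidx q l (Finset.mem_filter.mp hqon).2
    refine ⟨idx q l, hi, fun s h1 h2 h3 h4 => ?_⟩
    refine hG (coF q (triE (c.tri q)) s) ?_
    rw [hΦ]
    refine Finset.mem_union_right _ (Finset.mem_biUnion.mpr ⟨l, hl, Finset.mem_union_right _ ?_⟩)
    simp only [hΦc]
    rw [if_pos hg]
    exact Finset.mem_biUnion.mpr ⟨q, hq, Finset.mem_image.mpr ⟨s, mem_spec h1 h2 h3 h4, rfl⟩⟩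
  · intro l hl
    rw [hTc]
    simp only [hz]; omega
  · intro l hl hg
    rw [(hQ l ⟨hl, hg⟩).2]
    simp only [hz]; omega

/-- The numerical estimate. -/
theorem estimate {B ε ε' m N J D Z Zb : ℝ} (hB : 1 ≤ B) (hε : 0 < ε) (hεB : ε * B ≤ 1 / 2)
    (hε'0 : 0 < ε') (hε' : ε' * (B ^ 3 + 9 * B * (2 * B + 1) ^ 2) ≤ ε * B / 4)
    (hm : 8 ≤ m) (hm2 : 4 * B ≤ ε * m) (hN : m ^ 2 = 2 * N) (hJ : J ≤ m ^ 3 / 6) (hJ0 : 0 ≤ J)
    (hD : (1 + ε) * m * B ≤ D)
    (hZ : Z ≤ N * (ε * m * B + 2) + B * (ε' * m ^ 3))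
    (hZb : Zb ≤ 8 * B * ε' * m ^ 2 * (ε * m * B + 2) + B * (ε' * m ^ 3)) :
    6 * (J * B ^ 3 + ((B ^ 2 - 1) * Z + (2 * B + 1) ^ 2 * Zb)) < (D + 1) * (D + 2) * (D + 3) := by
  have hm0 : 0 < m := by linarith
  have hD0 : 0 < D := lt_of_lt_of_le (by positivity) hD
  have h1 : D ^ 3 < (D + 1) * (D + 2) * (D + 3) := by nlinarith [sq_nonneg D]
  have h2 : ((1 + ε) * m * B) ^ 3 ≤ D ^ 3 := pow_le_pow_left₀ (by positivity) hD 3
  have h3 : (1 + 3 * ε) * (m ^ 3 * B ^ 3) ≤ ((1 + ε) * m * B) ^ 3 := by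
    have h4 : (1 + 3 * ε) ≤ (1 + ε) ^ 3 := by nlinarith [pow_pos hε 3, sq_nonneg ε]
    calc (1 + 3 * ε) * (m ^ 3 * B ^ 3) ≤ (1 + ε) ^ 3 * (m ^ 3 * B ^ 3) :=
          mul_le_mul_of_nonneg_right h4 (by positivity)
      _ = _ := by ring
  have h5 : J * B ^ 3 ≤ m ^ 3 / 6 * B ^ 3 := mul_le_mul_of_nonneg_right hJ (by positivity)
  have hB1 : 0 ≤ B ^ 2 - 1 := by nlinarith
  have h6 : (B ^ 2 - 1) * Z ≤ (B ^ 2 - 1) * (m ^ 2 / 2 * (ε * m * B + 2) + B * (ε' * m ^ 3)) := by
    apply mul_le_mul_of_nonneg_left _ hB1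
    have hN' : m ^ 2 / 2 = N := by rw [hN]; ring
    rw [hN']
    exact hZ
  have h7 : Zb ≤ 9 * B * ε' * m ^ 3 := by
    have h8 : ε * m * B + 2 ≤ m := by nlinarith
    have h9 : 8 * B * ε' * m ^ 2 * (ε * m * B + 2) ≤ 8 * B * ε' * m ^ 2 * m :=
      mul_le_mul_of_nonneg_left h8 (by positivity)
    nlinarith
  have h10 : (2 * B + 1) ^ 2 * Zb ≤ (2 * B + 1) ^ 2 * (9 * B * ε' * m ^ 3) :=
    mul_le_mul_of_nonneg_left h7 (by positivity)
  have h11 : (B ^ 2 - 1) * (m ^ 2 / 2 * (ε * m * B + 2) + B * (ε' * m ^ 3)) +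
      (2 * B + 1) ^ 2 * (9 * B * ε' * m ^ 3) ≤ ε * (m ^ 3 * B ^ 3) / 2 := by
    have e1 : (B ^ 2 - 1) * (m ^ 2 / 2 * (ε * m * B + 2) + B * (ε' * m ^ 3)) +
      (2 * B + 1) ^ 2 * (9 * B * ε' * m ^ 3) = ε * (m ^ 3 * B ^ 3) / 2 - ε * B * m ^ 3 / 2 +
        (B ^ 2 - 1) * m ^ 2 + m ^ 3 * (ε' * (B ^ 3 + 9 * B * (2 * B + 1) ^ 2)) -
        B * ε' * m ^ 3 := by ring
    rw [e1]
    have e2 : m ^ 3 * (ε' * (B ^ 3 + 9 * B * (2 * B + 1) ^ 2)) ≤ m ^ 3 * (ε * B / 4) :=
      mul_le_mul_of_nonneg_left hε' (by positivity)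
    have e3 : (B ^ 2 - 1) * m ^ 2 ≤ ε * B * m ^ 3 / 4 := by
      have : B * m ^ 2 * (4 * B) ≤ B * m ^ 2 * (ε * m) :=
        mul_le_mul_of_nonneg_left hm2 (by positivity)
      nlinarith [sq_nonneg m]
    have e4 : 0 < B * ε' * m ^ 3 := by positivity
    nlinarith
  nlinarith

end EG

open EG in
theorem existsG (h : JointsLe) : ExistsG := by
  classical
  intro B r ε hB hε hεB hr hrr
  have hBr : (1 : ℝ) ≤ B := by exact_mod_cast hB
  have hB0 : (0 : ℝ) < B := by linarith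
  set K : ℝ := B ^ 3 + 9 * B * (2 * B + 1) ^ 2 with hK
  have hK0 : 0 < K := by positivity
  refine ⟨ε * B / 4 / K, by positivity, ⌈(8 + 4 * B / ε) ^ 2⌉₊, fun c hN hreg => ?_⟩
  set ε' := ε * B / 4 / K with hε'
  have hε'0 : 0 < ε' := by positivity
  have hε'K : ε' * K = ε * B / 4 := by rw [hε']; field_simp
  set m := c.m with hm
  have hm2 : m ^ 2 = 2 * c.L.card := by
    rw [hm, Cfg.m, Real.sq_sqrt (by positivity)]
  have hm0 : 0 ≤ m := Real.sqrt_nonneg _
  have hmlarge : 8 + 4 * B / ε ≤ m := by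
    have h1 : (8 + 4 * B / ε) ^ 2 ≤ m ^ 2 := by
      rw [hm2]
      have h2 := Nat.le_ceil ((8 + 4 * B / ε) ^ 2 : ℝ)
      have h3 : (⌈(8 + 4 * B / ε : ℝ) ^ 2⌉₊ : ℝ) ≤ c.L.card := by exact_mod_cast hN
      have h4 : (0 : ℝ) ≤ c.L.card := by positivity
      linarith
    exact le_of_sq_le_sq h1 hm0
  have hm8 : 8 ≤ m := by
    have : 0 < 4 * B / ε := by positivity
    linarith
  have hmB : 4 * B ≤ ε * m := by
    have h1 : 4 * B / ε ≤ m := by linarith
    rwa [div_le_iff₀ hε, mul_comm m] at h1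
  set D := ⌈(1 + ε) * m * B⌉₊ with hD
  have hD1 : (1 + ε) * m * B ≤ D := Nat.le_ceil _
  have hD2 : (D : ℝ) < (1 + ε) * m * B + 1 := Nat.ceil_lt_add_one (by positivity)
  let good : Ln → Prop := fun l => (1 - 1 / (8 * B)) * m ≤ (c.on l).card
  have hgood : ∀ l ∈ c.L, good l → D + 1 ≤ B * (c.on l).card + (c.on l).card := by
    intro l _ hg
    have hg' : (1 - 1 / (8 * B)) * m ≤ (c.on l).card := hg
    have h1 : ((D + 1 : ℕ) : ℝ) ≤ ((B * (c.on l).card + (c.on l).card : ℕ) : ℝ) := by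
      push_cast
      have h2 : (B + 1) * ((1 - 1 / (8 * B)) * m) ≤ (B + 1) * ((c.on l).card : ℝ) :=
        mul_le_mul_of_nonneg_left hg' (by positivity)
      have h3 : (B + 1) * ((1 - 1 / (8 * B)) * m) = (B + 1) * m - (1 + 1 / B) * m / 8 := by
        field_simp
      have h4 : 1 / (B : ℝ) ≤ 1 := by rw [div_le_one hB0]; exact hBr
      have h5 : (1 + 1 / (B : ℝ)) * m / 8 ≤ m / 4 := by nlinarith
      have h6 : (1 + ε) * m * B ≤ m * B + m / 2 := by nlinarith
      nlinarith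
    exact_mod_cast h1
  -- estimates of the number of additional conditions
  set z : Ln → ℕ := fun l => D + 1 - B * (c.on l).card with hz
  have hzle : ∀ l, (z l : ℝ) ≤ (ε * m * B + 2) + B * |((c.on l).card : ℝ) - m| := by
    intro l
    have h0 : 0 ≤ (ε * m * B + 2) + B * |((c.on l).card : ℝ) - m| := by positivity
    by_cases hle : B * (c.on l).card ≤ D + 1
    · have h1 : (z l : ℝ) = D + 1 - B * (c.on l).card := by
        simp only [hz]
        rw [Nat.cast_sub hle]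
        push_cast; ring
      rw [h1]
      have h2 : m - (c.on l).card ≤ |((c.on l).card : ℝ) - m| := by
        rw [abs_sub_comm]; exact le_abs_self _
      have h3 : B * (m - (c.on l).card) ≤ B * |((c.on l).card : ℝ) - m| :=
        mul_le_mul_of_nonneg_left h2 hB0.le
      nlinarith
    · have h1 : z l = 0 := by simp only [hz]; omega
      rw [h1]; simpa using h0
  have hZ : ∑ l ∈ c.L, (z l : ℝ) ≤ c.L.card * (ε * m * B + 2) + B * (ε' * m ^ 3) := by
    calc ∑ l ∈ c.L, (z l : ℝ) ≤ ∑ l ∈ c.L, ((ε * m * B + 2) + B * |((c.on l).card : ℝ) - m|) :=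
          Finset.sum_le_sum fun l _ => hzle l
      _ = c.L.card * (ε * m * B + 2) + B * ∑ l ∈ c.L, |((c.on l).card : ℝ) - m| := by
          rw [Finset.sum_add_distrib, Finset.sum_const, nsmul_eq_mul, Finset.mul_sum]
      _ ≤ _ := by
          have := mul_le_mul_of_nonneg_left hreg hB0.le
          linarith
  have hbadcard : ((c.L.filter fun l => ¬ good l).card : ℝ) ≤ 8 * B * ε' * m ^ 2 := by
    have h1 : ((c.L.filter fun l => ¬ good l).card : ℝ) * (m / (8 * B)) ≤ ε' * m ^ 3 := by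
      refine le_trans ?_ hreg
      calc ((c.L.filter fun l => ¬ good l).card : ℝ) * (m / (8 * B))
          = ∑ l ∈ c.L.filter fun l => ¬ good l, m / (8 * B) := by
            rw [Finset.sum_const, nsmul_eq_mul]
        _ ≤ ∑ l ∈ c.L.filter fun l => ¬ good l, |((c.on l).card : ℝ) - m| := by
            refine Finset.sum_le_sum fun l hl => ?_
            have hb : ¬ (1 - 1 / (8 * B)) * m ≤ (c.on l).card := (Finset.mem_filter.mp hl).2
            have h2 : m - (c.on l).card ≤ |((c.on l).card : ℝ) - m| := by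
              rw [abs_sub_comm]; exact le_abs_self _
            have h3 : (1 - 1 / (8 * B)) * m = m - m / (8 * B) := by ring
            rw [h3] at hb
            push Not at hb
            linarith
        _ ≤ _ := Finset.sum_le_sum_of_subset_of_nonneg (Finset.filter_subset _ _)
            fun _ _ _ => abs_nonneg _
    have hmpos : 0 < m := by linarith
    have h2 : ((c.L.filter fun l => ¬ good l).card : ℝ) * (m / (8 * B)) =
        ((c.L.filter fun l => ¬ good l).card : ℝ) * m / (8 * B) := by ring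
    rw [h2, div_le_iff₀ (by positivity)] at h1
    have h3 : ε' * m ^ 3 * (8 * B) = (8 * B * ε' * m ^ 2) * m := by ring
    rw [h3] at h1
    exact le_of_mul_le_mul_right h1 hmpos
  have hZb : ∑ l ∈ c.L.filter (fun l => ¬ good l), (z l : ℝ) ≤
      8 * B * ε' * m ^ 2 * (ε * m * B + 2) + B * (ε' * m ^ 3) := by
    calc ∑ l ∈ c.L.filter (fun l => ¬ good l), (z l : ℝ)
        ≤ ∑ l ∈ c.L.filter (fun l => ¬ good l),
          ((ε * m * B + 2) + B * |((c.on l).card : ℝ) - m|) :=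
          Finset.sum_le_sum fun l _ => hzle l
      _ = (c.L.filter fun l => ¬ good l).card * (ε * m * B + 2) +
          B * ∑ l ∈ c.L.filter (fun l => ¬ good l), |((c.on l).card : ℝ) - m| := by
          rw [Finset.sum_add_distrib, Finset.sum_const, nsmul_eq_mul, Finset.mul_sum]
      _ ≤ _ := by
          have h1 : ∑ l ∈ c.L.filter (fun l => ¬ good l), |((c.on l).card : ℝ) - m| ≤
              ε' * m ^ 3 := le_trans (Finset.sum_le_sum_of_subset_of_nonneg
                (Finset.filter_subset _ _) fun _ _ _ => abs_nonneg _) hreg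
          exact add_le_add (mul_le_mul_of_nonneg_right hbadcard (by positivity))
            (mul_le_mul_of_nonneg_left h1 hB0.le)
  have hJ : (c.J.card : ℝ) ≤ m ^ 3 / 6 := by
    have h1 := h c
    have h2 : (c.J.card : ℝ) ^ 2 ≤ (m ^ 3 / 6) ^ 2 := by
      have h3 : (m ^ 3 / 6) ^ 2 = (m ^ 2) ^ 3 / 36 := by ring
      rw [h3, hm2]
      nlinarith
    exact le_of_sq_le_sq h2 (by positivity)
  have hest := estimate (J := c.J.card) hBr hε hεB hε'0 hε'K.le hm8 hmB hm2 hJ (by positivity)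
    hD1 hZ hZb
  obtain ⟨G, hG0, hGD, hG⟩ := exists_of_count c B r D hr hrr good hgood (by
    have hsum : (∑ l ∈ c.L, (((if good l then B ^ 2 - 1 else (2 * B + 1) ^ 2) *
        (D + 1 - B * (c.on l).card) : ℕ) : ℝ)) ≤
        ((B : ℝ) ^ 2 - 1) * ∑ l ∈ c.L, (z l : ℝ) +
        (2 * B + 1) ^ 2 * ∑ l ∈ c.L.filter (fun l => ¬ good l), (z l : ℝ) := by
      rw [Finset.mul_sum, Finset.mul_sum, Finset.sum_filter, ← Finset.sum_add_distrib]
      refine Finset.sum_le_sum fun l _ => ?_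
      have hB1 : 0 ≤ (B : ℝ) ^ 2 - 1 := by nlinarith
      have hB2 : ((B ^ 2 - 1 : ℕ) : ℝ) = (B : ℝ) ^ 2 - 1 := by
        rw [Nat.cast_sub (Nat.one_le_pow _ _ hB)]; push_cast; ring
      by_cases hg : good l
      · rw [if_pos hg, if_neg (not_not.mpr hg), Nat.cast_mul, hB2, add_zero]
      · rw [if_neg hg, if_pos hg, Nat.cast_mul]
        have : 0 ≤ ((B : ℝ) ^ 2 - 1) * (z l : ℝ) := by positivity
        push_cast
        simp only [hz] at this ⊢
        linarith
    have : ((6 * (c.J.card * B ^ 3 + ∑ l ∈ c.L,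
      (if good l then B ^ 2 - 1 else (2 * B + 1) ^ 2) * (D + 1 - B * (c.on l).card)) : ℕ) : ℝ) <
      (((D + 1) * (D + 2) * (D + 3) : ℕ) : ℝ) := by
      push_cast [-Nat.cast_sub] at hsum ⊢
      refine lt_of_le_of_lt ?_ hest
      have := hsum
      nlinarith
    exact_mod_cast this)
  refine ⟨G, hG0, ?_, hG⟩
  have : (G.totalDegree : ℝ) ≤ D := by exact_mod_cast hGD
  linarith

end Pool.Agent.Lib.MP_a8d5c3_co.Stab
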