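import Mathlib
import Pool.Agent.Lib.MP_a8d5c3_co.Stab.Stmts

/-!
A plane containing many double lines of a surface of small degree is a component of it.
-/

set_option autoImplicit false

namespace Pool.Agent.Lib.MP_a8d5c3_co.Stab

open MvPolynomial Matrix

theorem degree_three (s : Fin 3 →₀ ℕ) : (s.sum fun _ e => e) = s 0 + s 1 + s 2 := by
  rw [Finsupp.sum_fintype _ _ (by simp), Fin.sum_univ_three]

theorem coeff_linF (a : Pt) (d : ℂ) (s : Fin 3 →₀ ℕ) :
    (linF a d).coeff s = (if s = 0 then d else 0) +
      ∑ i, if s = Finsupp.single i 1 then a i else 0 := by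
  unfold linF
  simp only [coeff_add, coeff_C_mul, coeff_X, coeff_C, Fin.sum_univ_three, eq_comm (b := s)]
  simp only [mul_ite, mul_one, mul_zero]
  ring

theorem eq_linF_of_totalDegree_le_one {f : P3} (h : f.totalDegree ≤ 1) :
    ∃ (a : Pt) (d : ℂ), f = linF a d := by
  refine ⟨fun i => f.coeff (Finsupp.single i 1), f.coeff 0, ?_⟩
  ext s
  rw [coeff_linF]
  by_cases h0 : s = 0
  · subst h0
    simp [eq_comm (a := (0 : Fin 3 →₀ ℕ))]
  · rw [if_neg h0, zero_add]
    by_cases h1 : ∃ i, s = Finsupp.single i 1
    · obtain ⟨i, rfl⟩ := h1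
      rw [Finset.sum_eq_single i]
      · simp
      · intro b _ hb
        rw [if_neg]
        intro h
        have := congrArg (fun s => s b) h
        simp [Finsupp.single_apply, hb.symm] at this
      · simp
    · push Not at h1
      rw [Finset.sum_eq_zero]
      · by_contra hne
        have h2 := le_totalDegree (mem_support_iff.mpr hne)
        rw [degree_three] at h2
        have h3 : s 0 + s 1 + s 2 ≤ 1 := h2.trans h
        have h4 : s 0 + s 1 + s 2 ≠ 0 := by
          intro h4
          apply h0
          ext i; fin_cases i <;> simp <;> omega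
        rcases Nat.eq_zero_or_pos (s 0) with e0 | e0
        · rcases Nat.eq_zero_or_pos (s 1) with e1 | e1
          · apply h1 2
            ext i; fin_cases i <;> simp [Finsupp.single_apply] <;> omega
          · apply h1 1
            ext i; fin_cases i <;> simp [Finsupp.single_apply] <;> omega
        · apply h1 0
          ext i; fin_cases i <;> simp [Finsupp.single_apply] <;> omega
      · intro i _
        rw [if_neg (h1 i)]

theorem eval_eq_zero_of_mem_I {l : Ln} {f : P3} (h : f ∈ l.I) (t : ℂ) :
    MvPolynomial.eval (l.pt t) f = 0 := by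
  have : l.I ≤ RingHom.ker (MvPolynomial.eval (l.pt t)) := by
    unfold Ln.I
    rw [Ideal.span_le]
    rintro g (rfl | rfl)
    · simp [RingHom.mem_ker, Ln.pt]; ring
    · simp [RingHom.mem_ker, Ln.pt]; ring
  exact this h

theorem linF_mem_I_iff {l : Ln} {a : Pt} {d : ℂ} :
    linF a d ∈ l.I ↔ a 0 * l.u 0 + a 1 * l.u 1 + a 2 = 0 ∧ a 0 * l.p 0 + a 1 * l.p 1 + d = 0 := by
  constructor
  · intro h
    have h0 := eval_eq_zero_of_mem_I h 0
    have h1 := eval_eq_zero_of_mem_I h 1
    simp [linF, Ln.pt] at h0 h1
    constructor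
    · linear_combination h1 - h0
    · linear_combination h0
  · rintro ⟨h1, h2⟩
    exact linF_mem_I h1 h2

/-- product of squares of non-associated irreducible linear forms -/
theorem eq_zero_of_squares {S : Finset Ln} (b : Ln → P3) (hdeg : ∀ l ∈ S, (b l).totalDegree = 1)
    (hirr : ∀ l ∈ S, Irreducible (b l))
    (hne : ∀ l ∈ S, ∀ l' ∈ S, l ≠ l' → ¬ b l ∣ b l') (g : P3) (hg : ∀ l ∈ S, b l ^ 2 ∣ g)
    (hlt : g.totalDegree < 2 * S.card) : g = 0 := by
  by_contra hg0
  have h1 : (∏ l ∈ S, b l ^ 2) ∣ g := by
    refine Finset.prod_dvd_of_isRelPrime ?_ hg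
    intro l hl l' hl' hll'
    exact IsRelPrime.pow (((hirr l hl).isRelPrime_iff_not_dvd).mpr (hne l hl l' hl' hll'))
  obtain ⟨k, hk⟩ := h1
  have hprod : ∀ T : Finset Ln, T ⊆ S → (∏ l ∈ T, b l ^ 2) ≠ 0 ∧
      (∏ l ∈ T, b l ^ 2).totalDegree = 2 * T.card := by
    classical
    intro T
    induction T using Finset.induction_on with
    | empty => intro _; simp
    | insert x T hx ih =>
      intro hT
      obtain ⟨i1, i2⟩ := ih fun y hy => hT (Finset.mem_insert_of_mem hy)
      have hxS := hT (Finset.mem_insert_self _ _)
      have h3 : b x ^ 2 ≠ 0 := pow_ne_zero _ (hirr x hxS).ne_zero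
      rw [Finset.prod_insert hx, Finset.card_insert_of_notMem hx]
      refine ⟨mul_ne_zero h3 i1, ?_⟩
      rw [totalDegree_mul_of_isDomain h3 i1, i2, sq,
        totalDegree_mul_of_isDomain (hirr x hxS).ne_zero (hirr x hxS).ne_zero, hdeg x hxS]
      omega
  obtain ⟨h3, h4⟩ := hprod S (le_refl _)
  have hk0 : k ≠ 0 := by rintro rfl; exact hg0 (by rw [hk, mul_zero])
  rw [hk, totalDegree_mul_of_isDomain h3 hk0, h4] at hlt
  omega

theorem totalDegree_linF {a : Pt} {d : ℂ} (h : a ≠ 0) : (linF a d).totalDegree = 1 := by
  apply le_antisymm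
  · unfold linF
    refine (totalDegree_add _ _).trans (max_le ?_ (by simp))
    refine (totalDegree_add _ _).trans (max_le ((totalDegree_add _ _).trans (max_le ?_ ?_)) ?_) <;>
    exact (totalDegree_mul _ _).trans (by simp)
  · obtain ⟨i, hi⟩ := Function.ne_iff.mp h
    have : (linF a d).coeff (Finsupp.single i 1) = a i := by
      rw [coeff_linF, if_neg (by simp), zero_add, Finset.sum_eq_single i]
      · simp
      · intro b _ hb
        rw [if_neg]
        intro h
        have := congrArg (fun s => s b) h
        simp [Finsupp.single_apply, hb.symm] at this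
      · simp
    have h2 : Finsupp.single i 1 ∈ (linF a d).support := by
      rw [mem_support_iff, this]; exact hi
    have := le_totalDegree h2
    simpa using this

theorem irreducible_linF {a : Pt} {d : ℂ} (h : a ≠ 0) : Irreducible (linF a d) := by
  apply irreducible_of_totalDegree_eq_one (totalDegree_linF h)
  intro x hx
  obtain ⟨i, hi⟩ := Function.ne_iff.mp h
  have h1 := hx (Finsupp.single i 1)
  have : (linF a d).coeff (Finsupp.single i 1) = a i := by
    rw [coeff_linF, if_neg (by simp), zero_add, Finset.sum_eq_single i]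
    · simp
    · intro b _ hb
      rw [if_neg]
      intro h
      have := congrArg (fun s => s b) h
      simp [Finsupp.single_apply, hb.symm] at this
    · simp
  rw [this] at h1
  have hx0 : x ≠ 0 := by
    rintro rfl
    exact hi (by simpa using h1)
  exact isUnit_iff_ne_zero.mpr hx0

theorem planeStmt : PlaneStmt := by
  intro P F hP S hS hdeg
  obtain ⟨a, d, rfl⟩ := eq_linF_of_totalDegree_le_one hP.le
  have ha : a ≠ 0 := by
    rintro rfl
    have : (linF 0 d).totalDegree = 0 := by
      simp [linF]
    omega
  have hSne : S.Nonempty := by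
    rw [Finset.nonempty_iff_ne_empty]; rintro rfl; simp at hdeg
  have hline : ∀ l ∈ S, a 0 * l.u 0 + a 1 * l.u 1 + a 2 = 0 ∧ a 0 * l.p 0 + a 1 * l.p 1 + d = 0 :=
    fun l hl => linF_mem_I_iff.mp (hS l hl).1
  -- the substitution eliminating the variable `i`
  have main : ∀ i : Fin 3, a i ≠ 0 → ∀ b : Ln → Pt, ∀ bd : Ln → ℂ, (∀ l ∈ S, b l i = 0) →
      (∀ l ∈ S, b l ≠ 0) →
      (∀ l ∈ S, l.I ≤ Ideal.span {linF a d, linF (b l) (bd l)}) →
      (∀ l ∈ S, ∀ l' ∈ S, l ≠ l' → ¬ linF (b l) (bd l) ∣ linF (b l') (bd l')) →
      linF a d ∣ F := by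
    intro i hi b bd hbi hb0 hI hne
    set E : Matrix (Fin 3) (Fin 3) ℂ := Matrix.of fun j k =>
      (if j = k then 1 else 0) - (if j = i then (a i)⁻¹ * a k else 0) with hE
    set q : Pt := fun j => if j = i then -((a i)⁻¹ * d) else 0 with hq
    have hX : ∀ j, aff q E (X j) = X j - (if j = i then C (a i)⁻¹ * linF a d else 0) := by
      intro j
      rw [aff_X]
      simp only [hE, hq, Matrix.of_apply, map_sub, Fin.sum_univ_three, linF]
      fin_cases j <;> fin_cases i <;> simp <;> ring
    have hmod : ∀ f : P3, linF a d ∣ f - aff q E f := by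
      intro f
      induction f using MvPolynomial.induction_on with
      | C c => rw [aff_C]; simp
      | add f g hf hg =>
        rw [map_add]
        have : f + g - (aff q E f + aff q E g) = (f - aff q E f) + (g - aff q E g) := by ring
        rw [this]; exact dvd_add hf hg
      | mul_X f j hf =>
        rw [map_mul]
        have : f * X j - aff q E f * aff q E (X j) =
            (f - aff q E f) * X j + aff q E f * (X j - aff q E (X j)) := by ring
        rw [this]
        refine dvd_add (Dvd.dvd.mul_right hf _) (Dvd.dvd.mul_left ?_ _)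
        rw [hX]
        split_ifs
        · rw [sub_sub_cancel]; exact Dvd.dvd.mul_left (dvd_refl _) _
        · simp
    have hP0 : aff q E (linF a d) = 0 := by
      rw [aff_linF]
      have h1 : a ᵥ* E = 0 := by
        ext k
        simp only [hE, vecMul, dotProduct, Matrix.of_apply, Fin.sum_univ_three, Pi.zero_apply]
        fin_cases i <;> fin_cases k <;> simp at hi ⊢ <;> field_simp <;> first | ring1 | simp
      have h2 : a ⬝ᵥ q + d = 0 := by
        simp only [hq, dotProduct, Fin.sum_univ_three]
        fin_cases i <;> simp at hi ⊢ <;> field_simp <;> ring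
      rw [h1, h2]; simp [linF]
    have hb : ∀ l ∈ S, aff q E (linF (b l) (bd l)) = linF (b l) (bd l) := by
      intro l hl
      rw [aff_linF]
      have h0 := hbi l hl
      have h1 : b l ᵥ* E = b l := by
        ext k
        simp only [hE, vecMul, dotProduct, Matrix.of_apply, Fin.sum_univ_three]
        fin_cases i <;> fin_cases k <;> simp at h0 ⊢ <;> simp [h0]
      have h2 : b l ⬝ᵥ q + bd l = bd l := by
        simp only [hq, dotProduct, Fin.sum_univ_three]
        fin_cases i <;> simp at h0 ⊢ <;> simp [h0]
      rw [h1, h2]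
    have hsq : ∀ l ∈ S, linF (b l) (bd l) ^ 2 ∣ aff q E F := by
      intro l hl
      have h1 : (l.I).map (aff q E) ≤ Ideal.span {linF (b l) (bd l)} := by
        refine (Ideal.map_mono (hI l hl)).trans ?_
        rw [Ideal.map_span, Ideal.span_le]
        rintro _ ⟨g, (rfl | rfl), rfl⟩
        · rw [hP0]; exact Submodule.zero_mem _
        · rw [hb l hl]; exact Ideal.subset_span (by simp)
      have h2 : aff q E F ∈ (Ideal.span {linF (b l) (bd l)}) ^ 2 := by
        refine (Ideal.pow_right_mono h1 2) ?_
        rw [← Ideal.map_pow]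
        exact Ideal.mem_map_of_mem _ (hS l hl).2
      rwa [Ideal.span_singleton_pow, Ideal.mem_span_singleton] at h2
    have h0 := eq_zero_of_squares (fun l => linF (b l) (bd l))
      (fun l hl => totalDegree_linF (hb0 l hl)) (fun l hl => irreducible_linF (hb0 l hl)) hne
      (aff q E F) hsq (lt_of_le_of_lt (totalDegree_aff_le q E F) hdeg)
    have := hmod F
    rwa [h0, sub_zero] at this
  by_cases h0 : a 0 = 0
  · by_cases h1 : a 1 = 0
    · obtain ⟨l, hl⟩ := hSne
      have := (hline l hl).1
      rw [h0, h1] at this
      exfalso; apply ha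
      ext i; fin_cases i
      · simpa using h0
      · simpa using h1
      · simpa using this
    · refine main 1 h1 (fun l => ![1, 0, -l.u 0]) (fun l => -l.p 0) ?_ ?_ ?_ ?_
      · intro l _; simp
      · intro l _ h; have := congrFun h 0; simp at this
      · intro l hl
        unfold Ln.I
        rw [Ideal.span_le]
        have e0 : (X 0 - C (l.p 0) - C (l.u 0) * X 2 : P3) = linF ![1, 0, -l.u 0] (-l.p 0) := by
          simp [linF]; ring
        have e1 : (X 1 - C (l.p 1) - C (l.u 1) * X 2 : P3) =
            C (a 1)⁻¹ * linF a d - C ((a 1)⁻¹ * a 0) * linF ![1, 0, -l.u 0] (-l.p 0) := by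
          have k1 : a 2 = -(a 1 * l.u 1) - a 0 * l.u 0 := by linear_combination (hline l hl).1
          have k2 : d = -(a 1 * l.p 1) - a 0 * l.p 0 := by linear_combination (hline l hl).2
          have k3 : (C (a 1)⁻¹ * C (a 1) : P3) = 1 := by
            rw [← map_mul, inv_mul_cancel₀ h1, map_one]
          rw [← e0]
          simp only [linF, k1, k2, map_sub, map_neg, map_mul]
          linear_combination (-(X 1) + C (l.p 1) + C (l.u 1) * X 2) * k3
        rintro g (rfl | rfl)
        · rw [e0]; exact Ideal.subset_span (by simp)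
        · rw [e1]
          exact Ideal.sub_mem _ (Ideal.mul_mem_left _ _ (Ideal.subset_span (by simp)))
            (Ideal.mul_mem_left _ _ (Ideal.subset_span (by simp)))
      · intro l hl l' hl' hne hdvd
        apply hne
        have key : ∀ t : ℂ, l.p 0 + t * l.u 0 = l'.p 0 + t * l'.u 0 := by
          intro t
          obtain ⟨k, hk⟩ := hdvd
          have := congrArg (MvPolynomial.eval (l.pt t)) hk
          simp [linF, Ln.pt] at this
          linear_combination this
        have p0 := key 0
        have p1 := key 1
        have q1 : l.u 0 = l'.u 0 := by linear_combination p1 - p0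
        have q0 : l.p 0 = l'.p 0 := by linear_combination p0
        have r1 : a 1 * l.u 1 = a 1 * l'.u 1 := by
          linear_combination (hline l hl).1 - (hline l' hl').1 - a 0 * q1
        have r0 : a 1 * l.p 1 = a 1 * l'.p 1 := by
          linear_combination (hline l hl).2 - (hline l' hl').2 - a 0 * q0
        ext i
        · fin_cases i
          · exact q0
          · exact mul_left_cancel₀ h1 r0
        · fin_cases i
          · exact q1
          · exact mul_left_cancel₀ h1 r1
  · refine main 0 h0 (fun l => ![0, 1, -l.u 1]) (fun l => -l.p 1) ?_ ?_ ?_ ?_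
    · intro l _; simp
    · intro l _ h; have := congrFun h 1; simp at this
    · intro l hl
      unfold Ln.I
      rw [Ideal.span_le]
      have e0 : (X 1 - C (l.p 1) - C (l.u 1) * X 2 : P3) = linF ![0, 1, -l.u 1] (-l.p 1) := by
        simp [linF]; ring
      have e1 : (X 0 - C (l.p 0) - C (l.u 0) * X 2 : P3) =
          C (a 0)⁻¹ * linF a d - C ((a 0)⁻¹ * a 1) * linF ![0, 1, -l.u 1] (-l.p 1) := by
        have k1 : a 2 = -(a 0 * l.u 0) - a 1 * l.u 1 := by linear_combination (hline l hl).1
        have k2 : d = -(a 0 * l.p 0) - a 1 * l.p 1 := by linear_combination (hline l hl).2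
        have k3 : (C (a 0)⁻¹ * C (a 0) : P3) = 1 := by
          rw [← map_mul, inv_mul_cancel₀ h0, map_one]
        rw [← e0]
        simp only [linF, k1, k2, map_sub, map_neg, map_mul]
        linear_combination (-(X 0) + C (l.p 0) + C (l.u 0) * X 2) * k3
      rintro g (rfl | rfl)
      · rw [e1]
        exact Ideal.sub_mem _ (Ideal.mul_mem_left _ _ (Ideal.subset_span (by simp)))
          (Ideal.mul_mem_left _ _ (Ideal.subset_span (by simp)))
      · rw [e0]; exact Ideal.subset_span (by simp)
    · intro l hl l' hl' hne hdvd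
      apply hne
      have key : ∀ t : ℂ, l.p 1 + t * l.u 1 = l'.p 1 + t * l'.u 1 := by
        intro t
        obtain ⟨k, hk⟩ := hdvd
        have := congrArg (MvPolynomial.eval (l.pt t)) hk
        simp [linF, Ln.pt] at this
        linear_combination this
      have p0 := key 0
      have p1 := key 1
      have q1 : l.u 1 = l'.u 1 := by linear_combination p1 - p0
      have q0 : l.p 1 = l'.p 1 := by linear_combination p0
      have r1 : a 0 * l.u 0 = a 0 * l'.u 0 := by
        linear_combination (hline l hl).1 - (hline l' hl').1 - a 1 * q1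
      have r0 : a 0 * l.p 0 = a 0 * l'.p 0 := by
        linear_combination (hline l hl).2 - (hline l' hl').2 - a 1 * q0
      ext i
      · fin_cases i
        · exact mul_left_cancel₀ h0 r0
        · exact q0
      · fin_cases i
        · exact mul_left_cancel₀ h0 r1
        · exact q1

end Pool.Agent.Lib.MP_a8d5c3_co.Stab
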