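import Mathlib
import Pool.Agent.Lib.MP_a8d5c3_co.Stab.Glob
import Pool.Agent.Lib.MP_a8d5c3_co.Stab.Plane

/-!
Restriction of polynomials and of their derivatives to a line.
-/

set_option autoImplicit false

namespace Pool.Agent.Lib.MP_a8d5c3_co.Stab

open MvPolynomial Matrix

/-- derivative in the direction `v` -/
noncomputable def dv (v : Pt) (f : P3) : P3 := ∑ i, C (v i) * pderiv i f

theorem dv_add_left (v w : Pt) (f : P3) : dv (v + w) f = dv v f + dv w f := by
  simp only [dv, Pi.add_apply, map_add, add_mul, Finset.sum_add_distrib]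

theorem dv_smul_left (a : ℂ) (v : Pt) (f : P3) : dv (a • v) f = C a * dv v f := by
  simp only [dv, Pi.smul_apply, smul_eq_mul, map_mul, Finset.mul_sum, mul_assoc]

theorem dv_add (v : Pt) (f g : P3) : dv v (f + g) = dv v f + dv v g := by
  simp only [dv, map_add, mul_add, Finset.sum_add_distrib]

theorem dv_C_mul (v : Pt) (a : ℂ) (f : P3) : dv v (C a * f) = C a * dv v f := by
  simp only [dv, pderiv_C_mul, Finset.mul_sum]
  exact Finset.sum_congr rfl fun i _ => by ring

theorem dv_mul (v : Pt) (f g : P3) : dv v (f * g) = dv v f * g + f * dv v g := by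
  simp only [dv, pderiv_mul, Finset.mul_sum, Finset.sum_mul, ← Finset.sum_add_distrib]
  exact Finset.sum_congr rfl fun i _ => by ring

theorem dv_comm (v w : Pt) (f : P3) : dv v (dv w f) = dv w (dv v f) := by
  simp only [dv, Fin.sum_univ_three, map_add, pderiv_C_mul]
  rw [pderiv_comm 1 0 f, pderiv_comm 2 0 f, pderiv_comm 2 1 f]
  ring

theorem dv_mem {J : Ideal P3} {n : ℕ} {f : P3} (h : f ∈ J ^ (n + 1)) (v : Pt) : dv v f ∈ J ^ n :=
  Ideal.sum_mem _ fun i _ => Ideal.mul_mem_left _ _ (pderiv_mem_pow h i)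

/-- the derivative along the line preserves the powers of its ideal -/
theorem dv_dir_mem {l : Ln} {n : ℕ} {f : P3} (h : f ∈ l.I ^ n) : dv l.dir f ∈ l.I ^ n := by
  induction n generalizing f with
  | zero => simp
  | succ n ih =>
    rw [pow_succ'] at h ⊢
    refine Submodule.mul_induction_on h ?_ ?_
    · intro m hm k hk
      rw [dv_mul]
      refine Ideal.add_mem _ (Ideal.mul_mem_mul ?_ hk) (Ideal.mul_mem_mul hm (ih hk))
      -- the generators are killed
      have : ∀ m ∈ l.I, dv l.dir m ∈ l.I := by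
        intro m hm
        refine Submodule.span_induction (p := fun m _ => dv l.dir m ∈ l.I) ?_ ?_ ?_ ?_ hm
        · rintro m (rfl | rfl)
          · have : dv l.dir (X 0 - C (l.p 0) - C (l.u 0) * X 2) = 0 := by
              simp [dv, Fin.sum_univ_three, pderiv_X, Ln.dir]
            rw [this]; exact Submodule.zero_mem _
          · have : dv l.dir (X 1 - C (l.p 1) - C (l.u 1) * X 2) = 0 := by
              simp [dv, Fin.sum_univ_three, pderiv_X, Ln.dir]
            rw [this]; exact Submodule.zero_mem _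
        · have : dv l.dir 0 = 0 := by simp [dv]
          rw [this]; exact Submodule.zero_mem _
        · intro a b _ _ ha hb
          rw [dv_add]; exact Ideal.add_mem _ ha hb
        · intro a m hm' hm
          rw [smul_eq_mul, dv_mul]
          exact Ideal.add_mem _ (Ideal.mul_mem_left _ _ hm') (Ideal.mul_mem_left _ _ hm)
      exact this m hm
    · intro x y hx hy
      rw [dv_add]; exact Ideal.add_mem _ hx hy

/-! ### restriction to a line -/

/-- restriction to a line -/
noncomputable def res (l : Ln) : P3 →ₐ[ℂ] Polynomial ℂ :=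
  aeval fun i => Polynomial.C (l.pt 0 i) + Polynomial.C (l.dir i) * Polynomial.X

/-- restriction to the third axis -/
noncomputable def resz : P3 →ₐ[ℂ] Polynomial ℂ := aeval ![0, 0, Polynomial.X]

theorem res_X (l : Ln) (i : Fin 3) :
    res l (X i) = Polynomial.C (l.pt 0 i) + Polynomial.C (l.dir i) * Polynomial.X := by
  simp [res]

theorem res_C (l : Ln) (c : ℂ) : res l (C c) = Polynomial.C c := by
  simp [res]

theorem res_mem {l : Ln} {f : P3} (h : f ∈ l.I) : res l f = 0 := by
  have : l.I ≤ RingHom.ker (res l : P3 →+* Polynomial ℂ) := by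
    unfold Ln.I
    rw [Ideal.span_le]
    rintro g (rfl | rfl)
    · rw [SetLike.mem_coe, RingHom.mem_ker]
      simp only [RingHom.coe_coe, map_sub, map_mul, res_C, res_X, Ln.pt, Ln.dir]
      simp
    · rw [SetLike.mem_coe, RingHom.mem_ker]
      simp only [RingHom.coe_coe, map_sub, map_mul, res_C, res_X, Ln.pt, Ln.dir]
      simp
  exact this h

theorem res_mem_mI {l : Ln} {q : Pt} (hq : l.Has q) {k : ℕ} {f : P3} (h : f ∈ mI q ^ k) :
    (Polynomial.X - Polynomial.C (q 2)) ^ k ∣ res l f := by
  have h1 : (mI q).map (res l) ≤ Ideal.span {Polynomial.X - Polynomial.C (q 2)} := by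
    rw [Ideal.map_le_iff_le_comap]
    unfold mI
    rw [Ideal.span_le]
    rintro g (rfl | rfl | rfl)
    · change res l _ ∈ Ideal.span {Polynomial.X - Polynomial.C (q 2)}
      rw [Ideal.mem_span_singleton]
      refine ⟨Polynomial.C (l.u 0), ?_⟩
      rw [map_sub, res_X, res_C, hq.zero]
      simp [Ln.pt, Ln.dir]; ring
    · change res l _ ∈ Ideal.span {Polynomial.X - Polynomial.C (q 2)}
      rw [Ideal.mem_span_singleton]
      refine ⟨Polynomial.C (l.u 1), ?_⟩
      rw [map_sub, res_X, res_C, hq.one]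
      simp [Ln.pt, Ln.dir]; ring
    · change res l _ ∈ Ideal.span {Polynomial.X - Polynomial.C (q 2)}
      rw [Ideal.mem_span_singleton]
      refine ⟨1, ?_⟩
      rw [map_sub, res_X, res_C]
      simp [Ln.pt, Ln.dir]
  have h2 : res l f ∈ (Ideal.span {Polynomial.X - Polynomial.C (q 2)}) ^ k := by
    refine Ideal.pow_right_mono h1 k ?_
    rw [← Ideal.map_pow]
    exact Ideal.mem_map_of_mem _ h
  rwa [Ideal.span_singleton_pow, Ideal.mem_span_singleton] at h2

theorem res_deriv (l : Ln) (f : P3) : res l (dv l.dir f) = Polynomial.derivative (res l f) := by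
  induction f using MvPolynomial.induction_on with
  | C c => simp [dv, res_C]
  | add f g hf hg => rw [dv_add, map_add, map_add, hf, hg, map_add]
  | mul_X f k hf =>
    have h1 : dv l.dir (X k) = C (l.dir k) := by
      simp only [dv, pderiv_X, Fin.sum_univ_three]
      fin_cases k <;> simp
    have h2 : Polynomial.derivative (res l (X k)) = Polynomial.C (l.dir k) := by
      rw [res_X]; simp
    rw [dv_mul, map_add, map_mul, map_mul, map_mul, hf, Polynomial.derivative_mul, h1, h2, res_C]

theorem resz_coeff (f : P3) (n : ℕ) : (resz f).coeff n = f.coeff (ex 0 0 n) := by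
  induction f using MvPolynomial.induction_on' generalizing n with
  | monomial s a =>
    have h1 : resz (monomial s a) = Polynomial.C a * (0 ^ s 0 * 0 ^ s 1 * Polynomial.X ^ s 2) := by
      rw [resz, aeval_monomial, Finsupp.prod_fintype _ _ (by simp), Fin.prod_univ_three]
      simp
    rw [h1, coeff_monomial]
    by_cases h0 : s 0 = 0
    · by_cases h2 : s 1 = 0
      · rw [h0, h2]
        simp only [pow_zero, one_mul, Polynomial.coeff_C_mul, Polynomial.coeff_X_pow]
        by_cases h3 : n = s 2
        · rw [if_pos h3, if_pos, mul_one]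
          ext i; fin_cases i <;> simp [h0, h2, h3]
        · rw [if_neg h3, if_neg, mul_zero]
          intro h; apply h3; rw [h]; simp
      · rw [zero_pow h2, if_neg]
        · simp
        · intro h; apply h2; rw [h]; simp
    · rw [zero_pow h0, if_neg]
      · simp
      · intro h; apply h0; rw [h]; simp
  | add f g hf hg => rw [map_add, Polynomial.coeff_add, coeff_add, hf, hg]

theorem Has.pt_dir {l : Ln} {q : Pt} (hq : l.Has q) (i : Fin 3) :
    q i = l.pt 0 i + q 2 * l.dir i := by
  fin_cases i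
  · simpa [Ln.pt, Ln.dir] using hq.zero
  · simpa [Ln.pt, Ln.dir] using hq.one
  · simp [Ln.pt, Ln.dir]

/-- restriction to a line in a frame -/
theorem resz_aff {l : Ln} {q : Pt} (hq : l.Has q) {E : Matrix (Fin 3) (Fin 3) ℂ}
    (hE : ∀ j, E j 2 = l.dir j) (f : P3) :
    resz (aff q E f) = (res l f).comp (Polynomial.X + Polynomial.C (q 2)) := by
  have h : resz.comp (aff q E) = (Polynomial.taylorAlgHom (q 2)).comp (res l) := by
    apply MvPolynomial.algHom_ext
    intro i
    rw [AlgHom.comp_apply, AlgHom.comp_apply, aff_X, res_X]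
    simp only [map_add, map_sum, map_mul, Fin.sum_univ_three]
    have hC : ∀ c : ℂ, resz (C c) = Polynomial.C c := fun c => by simp [resz]
    have h0 : resz (X 0) = 0 := by simp [resz]
    have h1 : resz (X 1) = 0 := by simp [resz]
    have h2 : resz (X 2) = Polynomial.X := by simp [resz]
    rw [hC, hC, hC, hC, h0, h1, h2, hE, Has.pt_dir hq i]
    simp only [Polynomial.taylorAlgHom_apply, Polynomial.taylor_C, Polynomial.taylor_X]
    simp only [map_add, map_mul]
    ring
  have := congrArg (fun φ : P3 →ₐ[ℂ] Polynomial ℂ => φ f) h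
  simpa [Polynomial.taylor_apply] using this

theorem X_pow_dvd_comp {p : Polynomial ℂ} {a : ℂ} {k : ℕ} :
    Polynomial.X ^ k ∣ p.comp (Polynomial.X + Polynomial.C a) ↔
      (Polynomial.X - Polynomial.C a) ^ k ∣ p := by
  constructor
  · rintro ⟨r, hr⟩
    refine ⟨r.comp (Polynomial.X - Polynomial.C a), ?_⟩
    have := congrArg (fun f => Polynomial.comp f (Polynomial.X - Polynomial.C a)) hr
    simp only [Polynomial.comp_assoc, Polynomial.mul_comp, Polynomial.pow_comp,
      Polynomial.X_comp] at this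
    rw [← this]
    simp
  · rintro ⟨r, rfl⟩
    refine ⟨r.comp (Polynomial.X + Polynomial.C a), ?_⟩
    simp [Polynomial.mul_comp, Polynomial.pow_comp]

/-- coefficients of second derivatives restricted to the axis -/
theorem resz_pderiv2 (f : P3) (n : ℕ) :
    (resz (pderiv 0 (pderiv 0 f))).coeff n = 2 * f.coeff (ex 2 0 n) ∧
    (resz (pderiv 1 (pderiv 1 f))).coeff n = 2 * f.coeff (ex 0 2 n) ∧
    (resz (pderiv 0 (pderiv 1 f))).coeff n = f.coeff (ex 1 1 n) := by
  refine ⟨?_, ?_, ?_⟩
  · rw [resz_coeff, coeff_pderiv, coeff_pderiv]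
    have e1 : ex 0 0 n + Finsupp.single 0 1 + Finsupp.single 0 1 = ex 2 0 n := by
      ext i; fin_cases i <;> simp [Finsupp.single_apply]
    rw [e1]; simp; ring
  · rw [resz_coeff, coeff_pderiv, coeff_pderiv]
    have e1 : ex 0 0 n + Finsupp.single 1 1 + Finsupp.single 1 1 = ex 0 2 n := by
      ext i; fin_cases i <;> simp [Finsupp.single_apply]
    rw [e1]; simp; ring
  · rw [resz_coeff, coeff_pderiv, coeff_pderiv]
    have e1 : ex 0 0 n + Finsupp.single 0 1 + Finsupp.single 1 1 = ex 1 1 n := by
      ext i; fin_cases i <;> simp [Finsupp.single_apply]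
    rw [e1]; simp

/-- first derivatives detect order two along a line -/
theorem mem_sq_of_res {l : Ln} {f : P3} (h : f ∈ l.I)
    (h0 : res l (pderiv 0 f) = 0) (h1 : res l (pderiv 1 f) = 0) : f ∈ l.I ^ 2 := by
  have hE := lineE_det l
  rw [mem_I_pow_iff_frame hE (l.has_pt 0) (lineE_col l), erase_two, mem_vI_pow']
  have hf : aff (l.pt 0) (lineE l) f ∈ (vI ℂ {0, 1}) ^ 1 := by
    have := (mem_I_pow_iff_frame hE (l.has_pt 0) (lineE_col l) 1 f).mp (by rwa [pow_one])
    rwa [erase_two] at this
  rw [mem_vI_pow'] at hf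
  have hp : ∀ j : Fin 3, j ≠ 2 → pderiv j (aff (l.pt 0) (lineE l) f) =
      aff (l.pt 0) (lineE l) (pderiv j f) := by
    intro j hj
    rw [pderiv_aff]
    fin_cases j
    · simp [lineE, Fin.sum_univ_three]
    · simp [lineE, Fin.sum_univ_three]
    · exact absurd rfl hj
  have hz : ∀ j : Fin 3, j ≠ 2 → res l (pderiv j f) = 0 → ∀ n,
      (pderiv j (aff (l.pt 0) (lineE l) f)).coeff (ex 0 0 n) = 0 := by
    intro j hj hr n
    rw [← resz_coeff, hp j hj, resz_aff (l.has_pt 0) (lineE_col l), hr]
    simp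
  intro s hs
  have hw : wt {0, 1} s = s 0 + s 1 := by simp [wt]
  rw [hw] at hs
  by_cases e0 : s 0 + s 1 = 0
  · exact hf s (by rw [hw]; omega)
  · by_cases e1 : s 0 = 0
    · have := hz 1 (by decide) h1 (s 2)
      rw [coeff_pderiv] at this
      have e : ex 0 0 (s 2) + Finsupp.single 1 1 = s := by
        ext i; fin_cases i <;> simp [Finsupp.single_apply] <;> omega
      rw [e] at this
      simpa using this
    · have := hz 0 (by decide) h0 (s 2)
      rw [coeff_pderiv] at this
      have e : ex 0 0 (s 2) + Finsupp.single 0 1 = s := by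
        ext i; fin_cases i <;> simp [Finsupp.single_apply] <;> omega
      rw [e] at this
      simpa using this

/-- second derivatives detect order three along a line -/
theorem mem_cube_of_res {l : Ln} {f : P3} (h : f ∈ l.I ^ 2)
    (h0 : res l (pderiv 0 (pderiv 0 f)) = 0) (h1 : res l (pderiv 1 (pderiv 1 f)) = 0)
    (h2 : res l (pderiv 0 (pderiv 1 f)) = 0) : f ∈ l.I ^ 3 := by
  have hE := lineE_det l
  rw [mem_I_pow_iff_frame hE (l.has_pt 0) (lineE_col l), erase_two, mem_vI_pow']
  have hf := (mem_I_pow_iff_frame hE (l.has_pt 0) (lineE_col l) 2 f).mp h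
  rw [erase_two, mem_vI_pow'] at hf
  have hp : ∀ j : Fin 3, j ≠ 2 → ∀ g : P3, pderiv j (aff (l.pt 0) (lineE l) g) =
      aff (l.pt 0) (lineE l) (pderiv j g) := by
    intro j hj g
    rw [pderiv_aff]
    fin_cases j
    · simp [lineE, Fin.sum_univ_three]
    · simp [lineE, Fin.sum_univ_three]
    · exact absurd rfl hj
  have hz : ∀ i j : Fin 3, i ≠ 2 → j ≠ 2 → res l (pderiv i (pderiv j f)) = 0 → ∀ n,
      (resz (pderiv i (pderiv j (aff (l.pt 0) (lineE l) f)))).coeff n = 0 := by
    intro i j hi hj hr n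
    rw [hp j hj, hp i hi, resz_aff (l.has_pt 0) (lineE_col l), hr]
    simp
  intro s hs
  have hw : wt {0, 1} s = s 0 + s 1 := by simp [wt]
  rw [hw] at hs
  by_cases e0 : s 0 + s 1 < 2
  · exact hf s (by rw [hw]; omega)
  · obtain ⟨r1, r2, r3⟩ := resz_pderiv2 (aff (l.pt 0) (lineE l) f) (s 2)
    have e : ∀ a b : ℕ, s 0 = a → s 1 = b → ex a b (s 2) = s := by
      intro a b ha hb
      ext i; fin_cases i <;> simp [ha, hb]
    have hcases : (s 0 = 2 ∧ s 1 = 0) ∨ (s 0 = 0 ∧ s 1 = 2) ∨ (s 0 = 1 ∧ s 1 = 1) := by omega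
    rcases hcases with ⟨ha, hb⟩ | ⟨ha, hb⟩ | ⟨ha, hb⟩
    · rw [hz 0 0 (by decide) (by decide) h0, e 2 0 ha hb] at r1
      simpa using r1.symm
    · rw [hz 1 1 (by decide) (by decide) h1, e 0 2 ha hb] at r2
      simpa using r2.symm
    · rw [hz 0 1 (by decide) (by decide) h2, e 1 1 ha hb] at r3
      exact r3.symm

/-- a column of the frame -/
theorem pderiv_aff_triE {q : Pt} {t : Fin 3 → Ln} (j : Fin 3) (f : P3) :
    pderiv j (aff q (triE t) f) = aff q (triE t) (dv (t j).dir f) := by
  rw [pderiv_aff]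
  simp only [dv, map_sum, map_mul, aff_C]
  rfl

end Pool.Agent.Lib.MP_a8d5c3_co.Stab
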