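import Mathlib
import Pool.Agent.Lib.MP_a8d5c3_co.Stab.Res

/-!
If the second fundamental form of a surface is degenerate everywhere, then at an ordinary triple
point on three double lines the sheets are flat.
-/

set_option autoImplicit false

namespace Pool.Agent.Lib.MP_a8d5c3_co.Stab

open MvPolynomial Matrix

/-- put `x = 0` -/
noncomputable def kx : P3 →ₐ[ℂ] P3 := aeval ![0, X 1, X 2]

theorem kx_mem {n : ℕ} {f : P3} (h : f ∈ m0 ^ n) : kx f ∈ m0 ^ n := by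
  have h1 : (m0 : Ideal P3).map kx ≤ m0 := by
    rw [Ideal.map_le_iff_le_comap]
    unfold m0 vI
    rw [Ideal.span_le]
    rintro _ ⟨i, _, rfl⟩
    change kx (X i) ∈ vI ℂ Finset.univ
    have hX : ∀ i, (X i : P3) ∈ vI ℂ Finset.univ := fun i => Ideal.subset_span ⟨i, by simp, rfl⟩
    fin_cases i
    · simp [kx]
    · simpa [kx] using hX 1
    · simpa [kx] using hX 2
  refine Ideal.pow_right_mono h1 n ?_
  rw [← Ideal.map_pow]
  exact Ideal.mem_map_of_mem _ h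

theorem constantCoeff_kx (f : P3) : constantCoeff (kx f) = constantCoeff f := by
  induction f using MvPolynomial.induction_on with
  | C c => simp [kx]
  | add f g hf hg => rw [map_add, map_add, map_add, hf, hg]
  | mul_X f k hf =>
    rw [map_mul, map_mul, map_mul, hf]
    fin_cases k <;> simp [kx]

theorem X_not_mem_sq {U b : P3} (hU : constantCoeff U ≠ 0) : sheet U b ∉ m0 ^ (1 + 1) := by
  intro h
  have h1 := pderiv_mem_pow (n := 1) h 0
  rw [pow_one, mem_m0_iff] at h1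
  apply hU
  simpa [sheet, pderiv_X] using h1

/-- flatness of the first sheet -/
theorem flat_one {G u a b c : P3} (hG : G = X 0 * X 1 * X 2 * u + X 0 ^ 2 * X 1 ^ 2 * a +
    X 1 ^ 2 * X 2 ^ 2 * b + X 0 ^ 2 * X 2 ^ 2 * c) (hu : constantCoeff u ≠ 0)
    (hdev : G ∣ DeltaC G (e 1) (e 2)) : constantCoeff b = 0 := by
  obtain ⟨U, hU0, hU⟩ := triple_factor hG hu 16
  have hU1 : constantCoeff U ≠ 0 := by rw [hU0]; exact hu
  obtain ⟨V, hV⟩ := exists_inv (W := U ^ 2) (by rw [map_pow]; exact pow_ne_zero _ hU1) 16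
  set F1 := sheet U b with hF1
  set F2 := sheet' U c with hF2
  set F3 := U * X 2 + a * (X 0 * X 1) with hF3
  -- the discriminant of the product
  have d0 : G ∣ DeltaC (U ^ 2 * G) (e 1) (e 2) := by
    have := DeltaC_mul (U ^ 2) G (e 1) (e 2)
    have h2 : G ∣ (U ^ 2) ^ 6 * DeltaC G (e 1) (e 2) := Dvd.dvd.mul_left hdev _
    have := dvd_add this h2
    rwa [sub_add_cancel] at this
  have d1 := DeltaC_congr (n := 13) hU (e 1) (e 2)
  have d2 : F1 ∣ DeltaC (F1 * F2 * F3) (e 1) (e 2) - (F2 * F3) ^ 6 * DeltaC F1 (e 1) (e 2) := by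
    have := DeltaC_mul (F2 * F3) F1 (e 1) (e 2)
    rwa [show F2 * F3 * F1 = F1 * F2 * F3 by ring] at this
  -- G in (F1) + m0^16
  obtain ⟨k0, hk0⟩ := d0
  obtain ⟨k2, hk2⟩ := d2
  set δ := DeltaC F1 (e 1) (e 2) with hδ
  obtain ⟨h, r, hr, hh⟩ : ∃ h r : P3, r ∈ m0 ^ 13 ∧ (F2 * F3) ^ 6 * δ = F1 * h + r := by
    refine ⟨V * (F2 * F3) * k0 - k2,
      -(DeltaC (U ^ 2 * G) (e 1) (e 2) - DeltaC (F1 * F2 * F3) (e 1) (e 2)) +
        (V * (U ^ 2 * G - F1 * F2 * F3) - (V * U ^ 2 - 1) * G) * k0, ?_, ?_⟩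
    · refine Ideal.add_mem _ ((Ideal.neg_mem_iff _).mpr d1) (Ideal.mul_mem_right _ _ ?_)
      exact Ideal.sub_mem _ (Ideal.mul_mem_left _ _ (Ideal.pow_le_pow_right (by norm_num) hU))
        (Ideal.mul_mem_right _ _ (Ideal.pow_le_pow_right (by norm_num) hV))
    · linear_combination hk0 - hk2
  have hX : ∀ i, (X i : P3) ∈ m0 := fun i => Ideal.subset_span ⟨i, by simp, rfl⟩
  have F2m : F2 ∈ m0 := by
    rw [hF2]; unfold sheet'
    exact Ideal.add_mem _ (Ideal.mul_mem_left _ _ (hX 1))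
      (Ideal.mul_mem_left _ _ (Ideal.mul_mem_right _ _ (hX 0)))
  have F3m : F3 ∈ m0 := by
    rw [hF3]
    exact Ideal.add_mem _ (Ideal.mul_mem_left _ _ (hX 2))
      (Ideal.mul_mem_left _ _ (Ideal.mul_mem_left _ _ (hX 1)))
  have hL : (F2 * F3) ^ 6 * δ ∈ m0 ^ 12 := by
    refine Ideal.mul_mem_right _ _ ?_
    have h1 : F2 * F3 ∈ m0 ^ 2 := by rw [sq]; exact Ideal.mul_mem_mul F2m F3m
    have := Ideal.pow_mem_pow h1 6
    rwa [← pow_mul] at this
  have h11 : h ∈ m0 ^ 11 := by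
    by_contra hn
    have h1 := not_mem_vI_pow_mul (a := 1) (b := 10) (X_not_mem_sq (b := b) hU1) hn
    apply h1
    have : sheet U b * h = (F2 * F3) ^ 6 * δ - r := by rw [hh]; ring
    rw [this]
    exact Ideal.sub_mem _ hL (Ideal.pow_le_pow_right (by norm_num) hr)
  -- put x = 0
  have hk : (kx F2 * kx F3) ^ 6 * kx δ = kx F1 * kx h + kx r := by
    have := congrArg kx hh
    clear_value F1 F2 F3 δ
    rwa [map_mul, map_pow, map_mul, map_add, map_mul] at this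
  have e1 : kx F1 = kx b * (X 1 * X 2) := by
    rw [hF1]; simp [sheet, kx]
  have e2 : kx F2 = kx U * X 1 := by
    rw [hF2]; simp [sheet', kx]
  have e3 : kx F3 = kx U * X 2 := by
    rw [hF3]; simp [kx]
  rw [e1, e2, e3] at hk
  have hmem : (X 1 : P3) ^ 6 * X 2 ^ 6 * (kx U ^ 12 * kx δ) ∈ m0 ^ 13 := by
    have : (X 1 : P3) ^ 6 * X 2 ^ 6 * (kx U ^ 12 * kx δ) =
        kx b * (X 1 * X 2 * kx h) + kx r := by
      linear_combination hk
    rw [this]
    refine Ideal.add_mem _ (Ideal.mul_mem_left _ _ ?_) (kx_mem hr)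
    have h1 : (X 1 : P3) * X 2 ∈ m0 ^ 2 := by rw [sq]; exact Ideal.mul_mem_mul (hX 1) (hX 2)
    have := Ideal.mul_mem_mul h1 (kx_mem h11)
    rwa [← pow_add] at this
  have hcc : constantCoeff (kx U ^ 12 * kx δ) = 0 := by
    by_contra hne
    have h1 : kx U ^ 12 * kx δ ∉ m0 ^ (0 + 1) := by
      rw [zero_add, pow_one, mem_m0_iff]; exact hne
    have h2 : (X 1 : P3) ^ 6 * X 2 ^ 6 ∉ m0 ^ (12 + 1) := by
      rw [mem_vI_pow']
      intro h
      have := h (ex 0 6 6) (by simp [wt, Fin.sum_univ_three])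
      have e4 : (X 1 : P3) ^ 6 * X 2 ^ 6 = monomial (ex 0 6 6) 1 := by
        rw [monomial_ex]; ring
      rw [e4, coeff_monomial, if_pos rfl] at this
      exact one_ne_zero this
    exact not_mem_vI_pow_mul h2 h1 hmem
  rw [map_mul, map_pow, constantCoeff_kx, constantCoeff_kx, hδ, hF1, sheet_DeltaC] at hcc
  have h12 : constantCoeff U ^ 12 ≠ 0 := pow_ne_zero _ hU1
  have h3 := (mul_eq_zero.mp hcc).resolve_left h12
  have h4 : constantCoeff b * constantCoeff U ^ 2 * (e 1 1 * e 2 2 - e 1 2 * e 2 1) = 0 := by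
    have := neg_eq_zero.mp h3
    exact pow_eq_zero_iff (two_ne_zero) |>.mp this
  simpa [e, hU1] using h4

/-- the coefficient of `y^2 z^2` -/
theorem coeff_022 {G u a b c : P3} (hG : G = X 0 * X 1 * X 2 * u + X 0 ^ 2 * X 1 ^ 2 * a +
    X 1 ^ 2 * X 2 ^ 2 * b + X 0 ^ 2 * X 2 ^ 2 * c) : G.coeff (ex 0 2 2) = constantCoeff b := by
  have e1 : (X 0 : P3) * X 1 * X 2 = monomial (ex 1 1 1) 1 := by rw [monomial_ex]; ring
  have e2 : (X 0 : P3) ^ 2 * X 1 ^ 2 = monomial (ex 2 2 0) 1 := by rw [monomial_ex]; ring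
  have e3 : (X 1 : P3) ^ 2 * X 2 ^ 2 = monomial (ex 0 2 2) 1 := by rw [monomial_ex]; ring
  have e4 : (X 0 : P3) ^ 2 * X 2 ^ 2 = monomial (ex 2 0 2) 1 := by rw [monomial_ex]; ring
  have n1 : ¬ ex 1 1 1 ≤ ex 0 2 2 := fun h => by simpa using h 0
  have n2 : ¬ ex 2 2 0 ≤ ex 0 2 2 := fun h => by simpa using h 0
  have n4 : ¬ ex 2 0 2 ≤ ex 0 2 2 := fun h => by simpa using h 0
  rw [hG, e1, e2, e3, e4, coeff_add, coeff_add, coeff_add, coeff_monomial_mul', coeff_monomial_mul',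
    coeff_monomial_mul', coeff_monomial_mul', if_neg n1, if_neg n2, if_neg n4, if_pos le_rfl]
  simp [constantCoeff_eq]

/-- flatness in the standard frame -/
theorem flat_std {G : P3} (h0 : G ∈ (vI ℂ {1, 2}) ^ 2) (h1 : G ∈ (vI ℂ {0, 2}) ^ 2)
    (h2 : G ∈ (vI ℂ {0, 1}) ^ 2) (h4 : G ∉ m0 ^ 4) (hdev : ∀ w w', G ∣ DeltaC G w w') :
    G.coeff (ex 0 2 2) = 0 ∧ G.coeff (ex 2 0 2) = 0 := by
  obtain ⟨u, a, b, c, hG⟩ := triple_decomp h0 h1 h2
  have hu := triple_unit hG h4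
  have hb : constantCoeff b = 0 := flat_one hG hu (hdev _ _)
  have hc : constantCoeff c = 0 := by
    have hG' : aff 0 swE G = X 0 * X 1 * X 2 * aff 0 swE u + X 0 ^ 2 * X 1 ^ 2 * aff 0 swE a +
        X 1 ^ 2 * X 2 ^ 2 * aff 0 swE c + X 0 ^ 2 * X 2 ^ 2 * aff 0 swE b := by
      rw [hG]
      simp only [map_add, map_mul, map_pow, swE_X0, swE_X1, swE_X2]
      ring
    rw [← constantCoeff_aff_zero swE c]
    refine flat_one hG' (by rw [constantCoeff_aff_zero]; exact hu) ?_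
    rw [← swE_vec (e 1), ← swE_vec (e 2), DeltaC_aff]
    exact Dvd.dvd.mul_left (map_dvd _ (hdev _ _)) _
  refine ⟨by rw [coeff_022 hG, hb], ?_⟩
  have e1 : (X 0 : P3) * X 1 * X 2 = monomial (ex 1 1 1) 1 := by rw [monomial_ex]; ring
  have e2 : (X 0 : P3) ^ 2 * X 1 ^ 2 = monomial (ex 2 2 0) 1 := by rw [monomial_ex]; ring
  have e3 : (X 1 : P3) ^ 2 * X 2 ^ 2 = monomial (ex 0 2 2) 1 := by rw [monomial_ex]; ring
  have e4 : (X 0 : P3) ^ 2 * X 2 ^ 2 = monomial (ex 2 0 2) 1 := by rw [monomial_ex]; ring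
  have n1 : ¬ ex 1 1 1 ≤ ex 2 0 2 := fun h => by simpa using h 1
  have n2 : ¬ ex 2 2 0 ≤ ex 2 0 2 := fun h => by simpa using h 1
  have n3 : ¬ ex 0 2 2 ≤ ex 2 0 2 := fun h => by simpa using h 1
  rw [hG, e1, e2, e3, e4, coeff_add, coeff_add, coeff_add, coeff_monomial_mul', coeff_monomial_mul',
    coeff_monomial_mul', coeff_monomial_mul', if_neg n1, if_neg n2, if_neg n3, if_pos le_rfl]
  simpa [constantCoeff_eq] using hc

end Pool.Agent.Lib.MP_a8d5c3_co.Stab
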