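import Mathlib
import Pool.Agent.Lib.MP_a8d5c3_co.Stab.Flat

/-!
A component of the surface whose second fundamental form is degenerate everywhere and which is not
a plane contains no line with many typical joints.
-/

set_option autoImplicit false

namespace Pool.Agent.Lib.MP_a8d5c3_co.Stab

open MvPolynomial Matrix

/-- `q` is an ordinary triple point of `F = 0` on three double lines -/
structure Typ (F : P3) (q : Pt) (t : Fin 3 → Ln) : Prop where
  has : ∀ i, (t i).Has q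
  ind : LinearIndependent ℂ fun i => (t i).dir
  dbl : ∀ i, F ∈ (t i).I ^ 2
  ord : F ∉ mI q ^ 4

theorem Typ.comp {F : P3} {q : Pt} {t : Fin 3 → Ln} (h : Typ F q t) (σ : Equiv.Perm (Fin 3)) :
    Typ F q (t ∘ σ) :=
  ⟨fun i => h.has _, h.ind.comp _ σ.injective, fun i => h.dbl _, h.ord⟩

/-- moving a given line to the third place -/
theorem Typ.exists_two {F : P3} {q : Pt} {t : Fin 3 → Ln} (h : Typ F q t) {l : Ln}
    (hl : ∃ i, t i = l) : ∃ σ : Equiv.Perm (Fin 3), Typ F q (t ∘ σ) ∧ (t ∘ σ) 2 = l := by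
  obtain ⟨i, hi⟩ := hl
  exact ⟨Equiv.swap i 2, h.comp _, by simpa using hi⟩

/-- second derivative restricted to a line -/
noncomputable def hs (l : Ln) (F : P3) (v w : Pt) : Polynomial ℂ := res l (dv v (dv w F))

theorem hs_symm (l : Ln) (F : P3) (v w : Pt) : hs l F v w = hs l F w v := by
  unfold hs; rw [dv_comm]

theorem hs_add_left (l : Ln) (F : P3) (v v' w : Pt) :
    hs l F (v + v') w = hs l F v w + hs l F v' w := by
  unfold hs; rw [dv_add_left, map_add]

theorem hs_smul_left (l : Ln) (F : P3) (a : ℂ) (v w : Pt) :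
    hs l F (a • v) w = Polynomial.C a * hs l F v w := by
  unfold hs; rw [dv_smul_left, map_mul, res_C]

theorem hs_add_right (l : Ln) (F : P3) (v w w' : Pt) :
    hs l F v (w + w') = hs l F v w + hs l F v w' := by
  rw [hs_symm, hs_add_left, hs_symm l F w, hs_symm l F w']

theorem hs_smul_right (l : Ln) (F : P3) (a : ℂ) (v w : Pt) :
    hs l F v (a • w) = Polynomial.C a * hs l F v w := by
  rw [hs_symm, hs_smul_left, hs_symm]

theorem hs_dir_left {l : Ln} {F : P3} (hF : F ∈ l.I ^ 2) (w : Pt) : hs l F l.dir w = 0 := by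
  unfold hs
  apply res_mem
  have h1 := dv_mem (n := 1) hF w
  have := dv_dir_mem h1
  rwa [pow_one] at this

theorem hs_dir_right {l : Ln} {F : P3} (hF : F ∈ l.I ^ 2) (v : Pt) : hs l F v l.dir = 0 := by
  rw [hs_symm]; exact hs_dir_left hF v

section frame

variable {F : P3} {q : Pt} {t : Fin 3 → Ln}

theorem std_mem (hq : ∀ i, (t i).Has q) (hind : LinearIndependent ℂ fun i => (t i).dir)
    (hd : ∀ i, F ∈ (t i).I ^ 2) :
    aff q (triE t) F ∈ (vI ℂ {1, 2}) ^ 2 ∧ aff q (triE t) F ∈ (vI ℂ {0, 2}) ^ 2 ∧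
    aff q (triE t) F ∈ (vI ℂ {0, 1}) ^ 2 := by
  have hE := triE_det hind
  have a0 := (mem_I_pow_iff_frame hE (hq 0) (fun j => triE_col t 0 j) 2 F).mp (hd 0)
  have a1 := (mem_I_pow_iff_frame hE (hq 1) (fun j => triE_col t 1 j) 2 F).mp (hd 1)
  have a2 := (mem_I_pow_iff_frame hE (hq 2) (fun j => triE_col t 2 j) 2 F).mp (hd 2)
  rw [erase_zero] at a0
  rw [erase_one] at a1
  rw [erase_two] at a2
  exact ⟨a0, a1, a2⟩

theorem std_ord (hind : LinearIndependent ℂ fun i => (t i).dir) (ho : F ∉ mI q ^ 4) :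
    aff q (triE t) F ∉ m0 ^ 4 := by
  intro h
  exact ho ((mem_mI_pow_iff_frame0 (triE_det hind) 4 F).mpr h)

theorem hs_frame (hq : (t 2).Has q) (i j : Fin 3) :
    resz (pderiv i (pderiv j (aff q (triE t) F))) =
      (hs (t 2) F (t i).dir (t j).dir).comp (Polynomial.X + Polynomial.C (q 2)) := by
  rw [pderiv_aff_triE, pderiv_aff_triE, resz_aff hq (fun j => triE_col t 2 j)]
  rfl

theorem hs_dvd_iff (hq : (t 2).Has q) (i j : Fin 3) (k : ℕ) :
    (Polynomial.X - Polynomial.C (q 2)) ^ k ∣ hs (t 2) F (t i).dir (t j).dir ↔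
      ∀ n < k, (resz (pderiv i (pderiv j (aff q (triE t) F)))).coeff n = 0 := by
  rw [← X_pow_dvd_comp, ← hs_frame hq, Polynomial.X_pow_dvd_iff]

theorem hs00 (hq : ∀ i, (t i).Has q) (hind : LinearIndependent ℂ fun i => (t i).dir)
    (hd : ∀ i, F ∈ (t i).I ^ 2) :
    (Polynomial.X - Polynomial.C (q 2)) ^ 2 ∣ hs (t 2) F (t 0).dir (t 0).dir := by
  rw [hs_dvd_iff (hq 2)]
  intro n hn
  rw [(resz_pderiv2 _ n).1]
  have := (std_mem hq hind hd).1
  rw [mem_vI_pow'] at this
  rw [this (ex 2 0 n) (by simp [wt]; omega), mul_zero]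

theorem hs11 (hq : ∀ i, (t i).Has q) (hind : LinearIndependent ℂ fun i => (t i).dir)
    (hd : ∀ i, F ∈ (t i).I ^ 2) :
    (Polynomial.X - Polynomial.C (q 2)) ^ 2 ∣ hs (t 2) F (t 1).dir (t 1).dir := by
  rw [hs_dvd_iff (hq 2)]
  intro n hn
  rw [(resz_pderiv2 _ n).2.1]
  have := (std_mem hq hind hd).2.1
  rw [mem_vI_pow'] at this
  rw [this (ex 0 2 n) (by simp [wt]; omega), mul_zero]

theorem hs01 (hq : ∀ i, (t i).Has q) (hind : LinearIndependent ℂ fun i => (t i).dir)
    (hd : ∀ i, F ∈ (t i).I ^ 2) :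
    (Polynomial.X - Polynomial.C (q 2)) ^ 1 ∣ hs (t 2) F (t 0).dir (t 1).dir := by
  rw [hs_dvd_iff (hq 2)]
  intro n hn
  rw [(resz_pderiv2 _ n).2.2]
  have := (std_mem hq hind hd).1
  rw [mem_vI_pow'] at this
  rw [this (ex 1 1 n) (by simp [wt]; omega)]

theorem hs01_not (h : Typ F q t) :
    ¬ (Polynomial.X - Polynomial.C (q 2)) ^ 2 ∣ hs (t 2) F (t 0).dir (t 1).dir := by
  rw [hs_dvd_iff (h.has 2)]
  intro hh
  have h1 := hh 1 (by norm_num)
  rw [(resz_pderiv2 _ 1).2.2] at h1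
  obtain ⟨a0, a1, a2⟩ := std_mem h.has h.ind h.dbl
  apply std_ord h.ind h.ord
  rw [mem_vI_pow] at a0 a1 a2 ⊢
  intro s hs
  have b0 := a0 s hs
  have b1 := a1 s hs
  have b2 := a2 s hs
  have w0 : wt {1, 2} s = s 1 + s 2 := by simp [wt]
  have w1 : wt {0, 2} s = s 0 + s 2 := by simp [wt]
  have w2 : wt {0, 1} s = s 0 + s 1 := by simp [wt]
  have w3 : wt Finset.univ s = s 0 + s 1 + s 2 := by simp [wt, Fin.sum_univ_three]
  rw [w0] at b0; rw [w1] at b1; rw [w2] at b2; rw [w3]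
  by_contra hlt
  have e0 : s = ex 1 1 1 := by
    ext i; fin_cases i <;> simp <;> omega
  rw [e0, mem_support_iff] at hs
  exact hs h1

theorem hs_flat (hq : ∀ i, (t i).Has q) (hind : LinearIndependent ℂ fun i => (t i).dir)
    (hd : ∀ i, F ∈ (t i).I ^ 2) (ho : F ∉ mI q ^ 4) (hdev : ∀ w w', F ∣ DeltaC F w w') :
    (Polynomial.X - Polynomial.C (q 2)) ^ 3 ∣ hs (t 2) F (t 0).dir (t 0).dir ∧
    (Polynomial.X - Polynomial.C (q 2)) ^ 3 ∣ hs (t 2) F (t 1).dir (t 1).dir := by
  have hE := triE_det hind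
  obtain ⟨a0, a1, a2⟩ := std_mem hq hind hd
  have hsurj : ∀ w : Pt, ∃ w0, (triE t)ᵀ *ᵥ w0 = w := by
    intro w
    refine ⟨((triE t)ᵀ)⁻¹ *ᵥ w, ?_⟩
    rw [Matrix.mulVec_mulVec, Matrix.mul_nonsing_inv _ (by rwa [Matrix.det_transpose]),
      Matrix.one_mulVec]
  obtain ⟨f1, f2⟩ := flat_std a0 a1 a2 (std_ord hind ho) (by
    intro w w'
    obtain ⟨w0, rfl⟩ := hsurj w
    obtain ⟨w0', rfl⟩ := hsurj w'
    rw [DeltaC_aff]
    exact Dvd.dvd.mul_left (map_dvd _ (hdev _ _)) _)
  rw [mem_vI_pow'] at a0 a1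
  constructor
  · rw [hs_dvd_iff (hq 2)]
    intro n hn
    rw [(resz_pderiv2 _ n).1]
    rcases Nat.lt_or_ge n 2 with h | h
    · rw [a0 (ex 2 0 n) (by simp [wt]; omega), mul_zero]
    · have : n = 2 := by omega
      rw [this, f2, mul_zero]
  · rw [hs_dvd_iff (hq 2)]
    intro n hn
    rw [(resz_pderiv2 _ n).2.1]
    rcases Nat.lt_or_ge n 2 with h | h
    · rw [a1 (ex 0 2 n) (by simp [wt]; omega), mul_zero]
    · have : n = 2 := by omega
      rw [this, f1, mul_zero]

end frame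

/-- horizontal vectors in terms of the directions at a joint -/
theorem horiz_decomp {t : Fin 3 → Ln} (hind : LinearIndependent ℂ fun i => (t i).dir) {v : Pt}
    (hv : v 2 = 0) : ∃ a b : ℂ, v = a • (t 0).dir + b • (t 1).dir + (-(a + b)) • (t 2).dir := by
  have hE := triE_det hind
  set x := (triE t)⁻¹ *ᵥ v with hx
  have h1 : triE t *ᵥ x = v := by
    rw [hx, Matrix.mulVec_mulVec, Matrix.mul_nonsing_inv _ hE, Matrix.one_mulVec]
  have h2 : ∀ i, v i = x 0 * (t 0).dir i + x 1 * (t 1).dir i + x 2 * (t 2).dir i := by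
    intro i
    rw [← h1]
    simp [Matrix.mulVec, dotProduct, triE, Fin.sum_univ_three]
    ring
  have h3 : x 2 = -(x 0 + x 1) := by
    have := h2 2
    rw [hv] at this
    simp [Ln.dir] at this
    linear_combination -this
  refine ⟨x 0, x 1, ?_⟩
  ext i
  rw [h2 i, h3]
  simp

theorem hs_expand {F : P3} {t : Fin 3 → Ln} (hF : F ∈ (t 2).I ^ 2) {v w : Pt} {a b a' b' : ℂ}
    (hv : v = a • (t 0).dir + b • (t 1).dir + (-(a + b)) • (t 2).dir)
    (hw : w = a' • (t 0).dir + b' • (t 1).dir + (-(a' + b')) • (t 2).dir) :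
    hs (t 2) F v w = Polynomial.C (a * a') * hs (t 2) F (t 0).dir (t 0).dir +
      Polynomial.C (a * b' + b * a') * hs (t 2) F (t 0).dir (t 1).dir +
      Polynomial.C (b * b') * hs (t 2) F (t 1).dir (t 1).dir := by
  rw [hv, hw]
  simp only [hs_add_left, hs_add_right, hs_smul_left, hs_smul_right, hs_dir_left hF,
    hs_dir_right hF, hs_symm (t 2) F (t 1).dir (t 0).dir, map_add, map_mul]
  ring

/-- the plane through `l` in the horizontal direction `v` -/
noncomputable def planeL (l : Ln) (v : Pt) : P3 :=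
  linF ![v 1, -v 0, v 0 * l.u 1 - v 1 * l.u 0] (v 0 * l.p 1 - v 1 * l.p 0)

theorem planeL_mem_self (l : Ln) (v : Pt) : planeL l v ∈ l.I := by
  apply linF_mem_I
  · simp; ring
  · simp; ring

theorem dv_planeL (l : Ln) {v : Pt} (hv : v 2 = 0) : dv v (planeL l v) = 0 := by
  have : dv v (planeL l v) = C (v 0 * v 1 - v 1 * v 0 + v 2 * (v 0 * l.u 1 - v 1 * l.u 0)) := by
    simp [dv, planeL, linF, pderiv_X, Fin.sum_univ_three, hv]
    ring
  rw [this, hv]
  simp [mul_comm]

theorem planeL_ne {l : Ln} {v : Pt} (hv : v 2 = 0) (hv0 : v ≠ 0) :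
    (![v 1, -v 0, v 0 * l.u 1 - v 1 * l.u 0] : Pt) ≠ 0 := by
  intro h
  apply hv0
  have h0 := congrFun h 0
  have h1 := congrFun h 1
  simp at h0 h1
  ext i; fin_cases i
  · exact h1
  · exact h0
  · exact hv

/-- a line through a point of `l` whose direction lies in the plane -/
theorem planeL_mem {l l' : Ln} {q : Pt} {v : Pt} (hv : v 2 = 0) (hq : l.Has q) (hq' : l'.Has q)
    {a : ℂ} (ha : a ≠ 0) (h : v = a • (l'.dir - l.dir)) : planeL l v ∈ l'.I := by
  have h0 : v 0 = a * (l'.u 0 - l.u 0) := by rw [h]; simp [Ln.dir]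
  have h1 : v 1 = a * (l'.u 1 - l.u 1) := by rw [h]; simp [Ln.dir]
  have e0 : l'.p 0 = l.p 0 + q 2 * l.u 0 - q 2 * l'.u 0 := by
    rw [← hq.zero, hq'.zero]; ring
  have e1 : l'.p 1 = l.p 1 + q 2 * l.u 1 - q 2 * l'.u 1 := by
    rw [← hq.one, hq'.one]; ring
  apply linF_mem_I
  · simp only [cons_val_zero, cons_val_one, cons_val, h0, h1]; ring
  · simp only [cons_val_zero, cons_val_one, h0, h1, e0, e1]; ring

theorem Ln.eq_of_two {l l' : Ln} {q q' : Pt} (h1 : l.Has q) (h2 : l'.Has q) (h3 : l.Has q')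
    (h4 : l'.Has q') (hne : q ≠ q') : l = l' := by
  have hh : q 2 ≠ q' 2 := by
    intro h; apply hne; rw [h1, h3, h]
  have hs : q 2 - q' 2 ≠ 0 := sub_ne_zero.mpr hh
  have a0 : (q 2 - q' 2) * l.u 0 = (q 2 - q' 2) * l'.u 0 := by
    have := h1.zero; have := h2.zero; have := h3.zero; have := h4.zero
    linear_combination -h1.zero + h2.zero + h3.zero - h4.zero
  have a1 : (q 2 - q' 2) * l.u 1 = (q 2 - q' 2) * l'.u 1 := by
    linear_combination -h1.one + h2.one + h3.one - h4.one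
  have b0 := mul_left_cancel₀ hs a0
  have b1 := mul_left_cancel₀ hs a1
  ext i
  · fin_cases i
    · have : l.p 0 = l'.p 0 := by linear_combination -h1.zero + h2.zero - q 2 * b0
      exact this
    · have : l.p 1 = l'.p 1 := by linear_combination -h1.one + h2.one - q 2 * b1
      exact this
  · fin_cases i
    · exact b0
    · exact b1

instance : Nonempty Ln := ⟨⟨0, 0⟩⟩

/-- a constant root of the quadratic form of double line gives a plane component -/
theorem plane_of_root {F : P3} {l : Ln} {v : Pt} (hv : v 2 = 0) (hv0 : v ≠ 0)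
    (hroot : hs l F v v = 0) (S : Finset Pt)
    (hS : ∀ q ∈ S, ∃ t, Typ F q t ∧ ∃ i, t i = l) (hdeg : F.totalDegree < 2 * S.card) :
    planeL l v ∣ F := by
  classical
  have key : ∀ q ∈ S, ∃ l' : Ln, l' ≠ l ∧ l'.Has q ∧ l.Has q ∧ planeL l v ∈ l'.I ∧
      F ∈ l'.I ^ 2 := by
    intro q hq
    obtain ⟨t0, ht0, hl0⟩ := hS q hq
    obtain ⟨σ, ht, hl⟩ := ht0.exists_two hl0
    set t := t0 ∘ σ with htdef
    obtain ⟨a, b, hab⟩ := horiz_decomp ht.ind hv
    have hlq : l.Has q := hl ▸ ht.has 2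
    have h1 := hs_expand (ht.dbl 2) hab hab
    rw [hl, hroot] at h1
    have d00 := hs00 ht.has ht.ind ht.dbl
    have d11 := hs11 ht.has ht.ind ht.dbl
    have d01 := hs01_not ht
    rw [hl] at d00 d11 d01
    have hprod : a * b = 0 := by
      by_contra hne
      apply d01
      have h2 : Polynomial.C (a * b + b * a) * hs l F (t 0).dir (t 1).dir =
          -(Polynomial.C (a * a) * hs l F (t 0).dir (t 0).dir +
            Polynomial.C (b * b) * hs l F (t 1).dir (t 1).dir) := by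
        linear_combination -h1
      have h3 : (Polynomial.X - Polynomial.C (q 2)) ^ 2 ∣
          Polynomial.C (a * b + b * a) * hs l F (t 0).dir (t 1).dir := by
        rw [h2]
        exact (dvd_neg).mpr (dvd_add (Dvd.dvd.mul_left d00 _) (Dvd.dvd.mul_left d11 _))
      have h4 : IsUnit (Polynomial.C (a * b + b * a)) := by
        rw [Polynomial.isUnit_C, isUnit_iff_ne_zero]
        intro h5
        apply hne
        have : 2 * (a * b) = 0 := by linear_combination h5
        exact (mul_eq_zero.mp this).resolve_left two_ne_zero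
      exact (h4.dvd_mul_left).mp h3
    have hne : ∀ i : Fin 3, i ≠ 2 → t i ≠ l := by
      intro i hi heq
      have : (t i).dir = (t 2).dir := by rw [heq, hl]
      exact hi (ht.ind.injective this)
    rcases mul_eq_zero.mp hprod with h | h
    · refine ⟨t 1, hne 1 (by decide), ht.has 1, hlq, ?_, ht.dbl 1⟩
      have hb : b ≠ 0 := by
        rintro rfl
        apply hv0; rw [hab, h]; simp
      refine planeL_mem hv hlq (ht.has 1) hb ?_
      rw [hab, h, hl]; ext i; simp; ring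
    · refine ⟨t 0, hne 0 (by decide), ht.has 0, hlq, ?_, ht.dbl 0⟩
      have ha : a ≠ 0 := by
        rintro rfl
        apply hv0; rw [hab, h]; simp
      refine planeL_mem hv hlq (ht.has 0) ha ?_
      rw [hab, h, hl]; ext i; simp; ring
  choose! L hL using key
  have hinj : Set.InjOn L (S : Set Pt) := by
    intro q hq q' hq' heq
    by_contra hne
    obtain ⟨n1, n2, n3, _, _⟩ := hL q hq
    obtain ⟨m1, m2, m3, _, _⟩ := hL q' hq'
    rw [← heq] at m2
    exact n1 (Ln.eq_of_two n2 n3 m2 m3 hne)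
  refine planeStmt _ _ (totalDegree_linF (planeL_ne hv hv0)) (S.image L) ?_ ?_
  · intro l' hl'
    obtain ⟨q, hq, rfl⟩ := Finset.mem_image.mp hl'
    exact ⟨(hL q hq).2.2.2.1, (hL q hq).2.2.2.2⟩
  · rwa [Finset.card_image_of_injOn hinj]

end Pool.Agent.Lib.MP_a8d5c3_co.Stab
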