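import Mathlib
import Pool.Agent.Lib.MP_a8d5c3_co.Stab.Dev

/-!
Wronskians and the degenerate second fundamental form along a line.
-/

set_option autoImplicit false

namespace Pool.Agent.Lib.MP_a8d5c3_co.Stab

open MvPolynomial Matrix

theorem wronskian_lemma {p q : Polynomial ℂ} (h : Polynomial.wronskian p q = 0) :
    ∃ (a b : ℂ) (g : Polynomial ℂ), p = Polynomial.C a * g ∧ q = Polynomial.C b * g := by
  by_cases hp : p = 0
  · exact ⟨0, 1, q, by simp [hp], by simp⟩
  · have hc := isCoprime_div_gcd_div_gcd_of_gcd_ne_zero (p := p) (q := q)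
      (fun h0 => hp ((gcd_eq_zero_iff _ _).mp h0).1)
    set g := GCDMonoid.gcd p q with hg
    have hg0 : g ≠ 0 := fun h0 => hp ((gcd_eq_zero_iff _ _).mp h0).1
    have h1 : p = (p / g) * g := by
      rw [mul_comm]; exact (EuclideanDomain.mul_div_cancel' hg0 (gcd_dvd_left p q)).symm
    have h2 : q = (q / g) * g := by
      rw [mul_comm]; exact (EuclideanDomain.mul_div_cancel' hg0 (gcd_dvd_right p q)).symm
    have h3 : Polynomial.wronskian (p / g) (q / g) = 0 := by
      have : Polynomial.wronskian p q = g ^ 2 * Polynomial.wronskian (p / g) (q / g) := by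
        conv_lhs => rw [h1, h2]
        simp only [Polynomial.wronskian, Polynomial.derivative_mul]
        ring
      rw [h] at this
      exact (mul_eq_zero.mp this.symm).resolve_left (pow_ne_zero _ hg0)
    obtain ⟨h4, h5⟩ := hc.wronskian_eq_zero_iff.mp h3
    have h6 := Polynomial.eq_C_of_derivative_eq_zero h4
    have h7 := Polynomial.eq_C_of_derivative_eq_zero h5
    exact ⟨_, _, g, by rw [← h6]; exact h1, by rw [← h7]; exact h2⟩

/-- with `p` not zero -/
theorem wronskian_lemma' {p q : Polynomial ℂ} (hp : p ≠ 0) (h : Polynomial.wronskian p q = 0) :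
    ∃ c : ℂ, q = Polynomial.C c * p := by
  obtain ⟨a, b, g, h1, h2⟩ := wronskian_lemma h
  have ha : a ≠ 0 := by
    rintro rfl; apply hp; rw [h1]; simp
  refine ⟨b / a, ?_⟩
  rw [h1, ← mul_assoc, ← map_mul, div_mul_cancel₀ _ ha]
  exact h2

theorem wronskian_symm_zero {p q : Polynomial ℂ} (h : Polynomial.wronskian p q = 0) :
    Polynomial.wronskian q p = 0 := by
  rw [← Polynomial.wronskian_neg_eq, h, neg_zero]

/-- a binary quadratic form over `ℂ` has a root -/
theorem exists_root2 (a b c : ℂ) : ∃ x y : ℂ, (x, y) ≠ (0, 0) ∧ a * x ^ 2 + 2 * b * x * y + c * y ^ 2 = 0 := by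
  by_cases ha : a = 0
  · exact ⟨1, 0, by simp, by rw [ha]; ring⟩
  · obtain ⟨s, hs⟩ := IsAlgClosed.exists_pow_nat_eq (b ^ 2 - a * c) (n := 2) (by norm_num)
    refine ⟨(-b + s) / a, 1, by simp, ?_⟩
    field_simp
    linear_combination hs

/-- pairwise vanishing Wronskians: there is a common root -/
theorem common_root {A B D : Polynomial ℂ} (h1 : Polynomial.wronskian A B = 0)
    (h2 : Polynomial.wronskian A D = 0) (h3 : Polynomial.wronskian B D = 0) :
    ∃ x y : ℂ, (x, y) ≠ (0, 0) ∧ Polynomial.C (x ^ 2) * A + Polynomial.C (2 * x * y) * B +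
      Polynomial.C (y ^ 2) * D = 0 := by
  have key : ∃ (a b d : ℂ) (g : Polynomial ℂ), A = Polynomial.C a * g ∧ B = Polynomial.C b * g ∧
      D = Polynomial.C d * g := by
    by_cases hA : A = 0
    · by_cases hB : B = 0
      · exact ⟨0, 0, 1, D, by simp [hA], by simp [hB], by simp⟩
      · obtain ⟨d, hd⟩ := wronskian_lemma' hB h3
        exact ⟨0, 1, d, B, by simp [hA], by simp, hd⟩
    · obtain ⟨b, hb⟩ := wronskian_lemma' hA h1
      obtain ⟨d, hd⟩ := wronskian_lemma' hA h2
      exact ⟨1, b, d, A, by simp, hb, hd⟩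
  obtain ⟨a, b, d, g, rfl, rfl, rfl⟩ := key
  obtain ⟨x, y, hxy, h⟩ := exists_root2 a b d
  refine ⟨x, y, hxy, ?_⟩
  have : Polynomial.C (x ^ 2) * (Polynomial.C a * g) + Polynomial.C (2 * x * y) * (Polynomial.C b * g) +
      Polynomial.C (y ^ 2) * (Polynomial.C d * g) =
      Polynomial.C (a * x ^ 2 + 2 * b * x * y + d * y ^ 2) * g := by
    simp only [map_add, map_mul, map_pow]; ring
  rw [this, h]; simp

/-- the invariant form of the discriminant -/
noncomputable def NC (f : P3) : P3 :=
  let g : Fin 3 → P3 := fun i => pderiv i f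
  let m : Fin 3 → Fin 3 → P3 := fun i j => pderiv i (pderiv j f)
  g 0 ^ 2 * (m 1 1 * m 2 2 - m 1 2 ^ 2) + g 1 ^ 2 * (m 0 0 * m 2 2 - m 0 2 ^ 2) +
  g 2 ^ 2 * (m 0 0 * m 1 1 - m 0 1 ^ 2) + 2 * g 0 * g 1 * (m 0 2 * m 1 2 - m 0 1 * m 2 2) +
  2 * g 0 * g 2 * (m 0 1 * m 1 2 - m 0 2 * m 1 1) + 2 * g 1 * g 2 * (m 0 1 * m 0 2 - m 1 2 * m 0 0)

theorem DeltaC_eq_NC (f : P3) (w w' : Pt) : DeltaC f w w' =
    (pderiv 0 f * C (w 1 * w' 2 - w 2 * w' 1) + pderiv 1 f * C (w 2 * w' 0 - w 0 * w' 2) +
      pderiv 2 f * C (w 0 * w' 1 - w 1 * w' 0)) ^ 2 * NC f := by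
  have h10 : pderiv 1 (pderiv 0 f) = pderiv 0 (pderiv 1 f) := pderiv_comm _ _ _
  have h20 : pderiv 2 (pderiv 0 f) = pderiv 0 (pderiv 2 f) := pderiv_comm _ _ _
  have h21 : pderiv 2 (pderiv 1 f) = pderiv 1 (pderiv 2 f) := pderiv_comm _ _ _
  simp only [DeltaC, disc2, D2, Xv, NC, Fin.sum_univ_three, cons_val_zero, cons_val_one, cons_val,
    map_sub, map_mul, h10, h20, h21]
  ring

theorem exists_pderiv_not_dvd {G : P3} (hG : Irreducible G) : ∃ k : Fin 3, ¬ G ∣ pderiv k G := by
  by_contra hcon
  push Not at hcon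
  have h0 : ∀ k : Fin 3, pderiv k G = 0 := by
    intro k
    by_contra hne
    have h1 := totalDegree_pderiv_le k G
    obtain ⟨u, hu⟩ := hcon k
    have hu0 : u ≠ 0 := by rintro rfl; apply hne; rw [hu, mul_zero]
    rw [hu, totalDegree_mul_of_isDomain hG.ne_zero hu0] at h1
    have h2 : G.totalDegree = 0 := by omega
    rw [totalDegree_eq_zero_iff_eq_C] at h2
    have h3 : pderiv k G = 0 := by rw [h2]; simp
    exact hne h3
  have hc : G = C (G.coeff 0) := by
    ext s
    rw [coeff_C]
    split_ifs with h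
    · rw [h]
    · by_contra hne
      obtain ⟨k, hk⟩ : ∃ k, s k ≠ 0 := by
        by_contra hh; push Not at hh
        apply h; ext i; simp [hh i]
      have h1 := congrArg (coeff (s - Finsupp.single k 1)) (h0 k)
      rw [coeff_pderiv, coeff_zero] at h1
      have h2 : s - Finsupp.single k 1 + Finsupp.single k 1 = s := by
        ext i
        by_cases hi : i = k
        · subst hi; simp; omega
        · simp [Ne.symm hi]
      rw [h2] at h1
      rcases mul_eq_zero.mp h1 with h3 | h3
      · exact hne h3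
      · exact absurd h3 (Nat.cast_add_one_ne_zero _)
  apply hG.not_isUnit
  have hne : G.coeff 0 ≠ 0 := by
    intro h0; apply hG.ne_zero; rw [hc, h0]; simp
  rw [hc]
  exact (isUnit_iff_ne_zero.mpr hne).map C

theorem dev_all {G : P3} (hG : Irreducible G) (hd : Dev G) (w w' : Pt) : G ∣ DeltaC G w w' := by
  obtain ⟨k, hk⟩ := exists_pderiv_not_dvd hG
  have hN : G ∣ NC G := by
    have hp := hG.prime
    have : G ∣ pderiv k G ^ 2 * NC G := by
      fin_cases k
      · have := hd 1 2
        rw [DeltaC_eq_NC] at this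
        simpa [e] using this
      · have := hd 2 0
        rw [DeltaC_eq_NC] at this
        simpa [e] using this
      · have := hd 0 1
        rw [DeltaC_eq_NC] at this
        simpa [e] using this
    rcases hp.dvd_or_dvd this with h | h
    · exact absurd (hp.dvd_of_dvd_pow h) hk
    · exact h
  rw [DeltaC_eq_NC]
  exact Dvd.dvd.mul_left hN _

/-- along a simple line of a surface with degenerate second fundamental form the tangent plane is
constant -/
theorem dev_wronskian {G : P3} {l : Ln} (hd : ∀ w w', G ∣ DeltaC G w w') (hl : G ∈ l.I) :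
    Polynomial.wronskian (res l (pderiv 0 G)) (res l (pderiv 1 G)) = 0 := by
  set α := res l (pderiv 0 G) with hα
  set β := res l (pderiv 1 G) with hβ
  have hdir : ∀ i : Fin 3, dv l.dir (pderiv i G) = C (l.u 0) * pderiv 0 (pderiv i G) +
      C (l.u 1) * pderiv 1 (pderiv i G) + pderiv 2 (pderiv i G) := by
    intro i; simp [dv, Fin.sum_univ_three, Ln.dir]
  have h2 : res l (pderiv 2 G) = -(Polynomial.C (l.u 0) * α + Polynomial.C (l.u 1) * β) := by
    have h := res_deriv l G
    rw [res_mem hl] at h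
    have h' : dv l.dir G = C (l.u 0) * pderiv 0 G + C (l.u 1) * pderiv 1 G + pderiv 2 G := by
      simp [dv, Fin.sum_univ_three, Ln.dir]
    rw [h', map_add, map_add, map_mul, map_mul, res_C, res_C, Polynomial.derivative_zero] at h
    linear_combination h
  have k0 : res l (pderiv 0 (pderiv 2 G)) = Polynomial.derivative α -
      Polynomial.C (l.u 0) * res l (pderiv 0 (pderiv 0 G)) -
      Polynomial.C (l.u 1) * res l (pderiv 0 (pderiv 1 G)) := by
    have h := res_deriv l (pderiv 0 G)
    rw [hdir, map_add, map_add, map_mul, map_mul, res_C, res_C, pderiv_comm 1 0, pderiv_comm 2 0] at h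
    rw [hα]; linear_combination h
  have k1 : res l (pderiv 1 (pderiv 2 G)) = Polynomial.derivative β -
      Polynomial.C (l.u 0) * res l (pderiv 0 (pderiv 1 G)) -
      Polynomial.C (l.u 1) * res l (pderiv 1 (pderiv 1 G)) := by
    have h := res_deriv l (pderiv 1 G)
    rw [hdir, map_add, map_add, map_mul, map_mul, res_C, res_C, pderiv_comm 2 1] at h
    rw [hβ]; linear_combination h
  have k2 : res l (pderiv 2 (pderiv 2 G)) =
      -(Polynomial.C (l.u 0) * Polynomial.derivative α + Polynomial.C (l.u 1) * Polynomial.derivative β) -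
      Polynomial.C (l.u 0) * res l (pderiv 0 (pderiv 2 G)) -
      Polynomial.C (l.u 1) * res l (pderiv 1 (pderiv 2 G)) := by
    have h := res_deriv l (pderiv 2 G)
    rw [hdir, map_add, map_add, map_mul, map_mul, res_C, res_C, h2] at h
    simp only [map_neg, map_add, Polynomial.derivative_mul, Polynomial.derivative_C, zero_mul,
      zero_add] at h
    linear_combination h
  have hz : ∀ w w', res l (DeltaC G w w') = 0 := by
    intro w w'
    obtain ⟨u, hu⟩ := hd w w'
    rw [hu, map_mul, res_mem hl, zero_mul]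
  have hN : ∀ w w' : Pt, res l (DeltaC G w w') =
      (α * Polynomial.C (w 1 * w' 2 - w 2 * w' 1) + β * Polynomial.C (w 2 * w' 0 - w 0 * w' 2) +
      res l (pderiv 2 G) * Polynomial.C (w 0 * w' 1 - w 1 * w' 0)) ^ 2 * res l (NC G) := by
    intro w w'
    rw [DeltaC_eq_NC, map_mul, map_pow, map_add, map_add, map_mul, map_mul, map_mul, res_C, res_C,
      res_C]
  have hNC : res l (NC G) = -(α * Polynomial.derivative β - Polynomial.derivative α * β) ^ 2 := by
    simp only [NC, map_add, map_mul, map_sub, map_pow, map_ofNat, ← hα, ← hβ]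
    rw [k2, k0, k1, h2]
    ring
  have e1 := hz (e 1) (e 2)
  have e2 := hz (e 2) (e 0)
  rw [hN, hNC] at e1 e2
  simp [e] at e1 e2
  unfold Polynomial.wronskian
  by_contra hne
  have a1 : α = 0 := e1.resolve_right hne
  apply hne
  rw [a1]; simp

end Pool.Agent.Lib.MP_a8d5c3_co.Stab
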