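import Mathlib
import Pool.Agent.Lib.MP_a8d5c3_co.Stab.Wron

/-!
Components with degenerate second fundamental form contain no line with many typical joints.
-/

set_option autoImplicit false

namespace Pool.Agent.Lib.MP_a8d5c3_co.Stab

open MvPolynomial Matrix

theorem totalDegree_planeL {l : Ln} {v : Pt} (hv : v 2 = 0) (hv0 : v ≠ 0) :
    (planeL l v).totalDegree = 1 := totalDegree_linF (planeL_ne hv hv0)

theorem irreducible_planeL {l : Ln} {v : Pt} (hv : v 2 = 0) (hv0 : v ≠ 0) :
    Irreducible (planeL l v) := irreducible_linF (planeL_ne hv hv0)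

theorem totalDegree_isUnit {c : P3} (hc : IsUnit c) : c.totalDegree = 0 := by
  obtain ⟨d, hd⟩ := hc.exists_right_inv
  have hc0 : c ≠ 0 := hc.ne_zero
  have hd0 : d ≠ 0 := by rintro rfl; simp at hd
  have := congrArg MvPolynomial.totalDegree hd
  rw [totalDegree_mul_of_isDomain hc0 hd0, totalDegree_one] at this
  omega

theorem planeL_not_dvd {G : P3} (hG : Irreducible G) (h2 : 2 ≤ G.totalDegree) {l : Ln} {v : Pt}
    (hv : v 2 = 0) (hv0 : v ≠ 0) : ¬ planeL l v ∣ G := by
  rintro ⟨c, hc⟩
  rcases hG.isUnit_or_isUnit hc with h | h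
  · exact (irreducible_planeL hv hv0).not_isUnit h
  · have hc0 : c ≠ 0 := h.ne_zero
    have := congrArg MvPolynomial.totalDegree hc
    rw [totalDegree_mul_of_isDomain (irreducible_planeL hv hv0).ne_zero hc0,
      totalDegree_planeL hv hv0, totalDegree_isUnit h] at this
    omega

theorem totalDegree_dv_le (v : Pt) (f : P3) : (dv v f).totalDegree ≤ f.totalDegree := by
  unfold dv
  exact deg_sum _ fun i _ => deg_C_mul _ (totalDegree_pderiv_le' i f)

theorem natDegree_res_le (l : Ln) (f : P3) : (res l f).natDegree ≤ f.totalDegree := by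
  have := MvPolynomial.aeval_natDegree_le f le_rfl
    (fun i => Polynomial.C (l.pt 0 i) + Polynomial.C (l.dir i) * Polynomial.X) (n := 1) (by
      intro i
      refine (Polynomial.natDegree_add_le _ _).trans ?_
      refine max_le (by simp) ?_
      have := Polynomial.natDegree_C_mul_X_pow_le (l.dir i) 1
      rwa [pow_one] at this)
  rwa [mul_one] at this

theorem dv_mul2 (v w : Pt) (f g : P3) : dv v (dv w (f * g)) =
    dv v (dv w f) * g + dv w f * dv v g + dv v f * dv w g + f * dv v (dv w g) := by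
  rw [dv_mul, dv_add, dv_mul, dv_mul]; ring

theorem hs_mul_one {l : Ln} {G G' : P3} (h : G ∈ l.I) (h' : G' ∈ l.I) (v w : Pt) :
    hs l (G * G') v w = res l (dv w G) * res l (dv v G') + res l (dv v G) * res l (dv w G') := by
  unfold hs
  rw [dv_mul2, map_add, map_add, map_add, map_mul, map_mul, map_mul, map_mul, res_mem h, res_mem h']
  ring

theorem hs_mul_two {l : Ln} {G G' : P3} (h : G ∈ l.I ^ 2) (v w : Pt) :
    hs l (G * G') v w = hs l G v w * res l G' := by
  unfold hs
  have h1 : ∀ v, res l (dv v G) = 0 := by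
    intro v; apply res_mem
    have := dv_mem (n := 1) h v
    rwa [pow_one] at this
  have h0 : res l G = 0 := res_mem (Ideal.pow_le_self two_ne_zero h)
  rw [dv_mul2, map_add, map_add, map_add, map_mul, map_mul, map_mul, map_mul, h1, h1, h0]
  ring

/-- a component with degenerate second fundamental form contains the line to order two or not at
all -/
theorem dev_double {F G G' : P3} {l : Ln} (hF : F = G * G') (hF0 : F ≠ 0) (hG : Irreducible G)
    (h2 : 2 ≤ G.totalDegree) (hd : Dev G) (hF2 : F ∈ l.I ^ 2) (hF3 : F ∉ l.I ^ 3) (S : Finset Pt)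
    (hS : ∀ q ∈ S, ∃ t, Typ F q t ∧ ∃ i, t i = l) (hdeg : F.totalDegree < 2 * S.card)
    (hl : G ∈ l.I) : G ∈ l.I ^ 2 := by
  by_contra hn
  have hG'0 : G' ≠ 0 := by rintro rfl; apply hF0; rw [hF, mul_zero]
  have o1 : ordL l G + ordL l G' = ordL l F := by rw [hF, ordL_mul l hG.ne_zero hG'0]
  have o2 : 2 ≤ ordL l F := (mem_I_pow_iff l hF0 2).mp hF2
  have o3 : ¬ 3 ≤ ordL l F := fun h => hF3 ((mem_I_pow_iff l hF0 3).mpr h)
  have o4 : 1 ≤ ordL l G := (mem_I_pow_iff l hG.ne_zero 1).mp (by rwa [pow_one])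
  have o5 : ¬ 2 ≤ ordL l G := fun h => hn ((mem_I_pow_iff l hG.ne_zero 2).mpr h)
  have hG' : G' ∈ l.I := by
    have := (mem_I_pow_iff l hG'0 1).mpr (by omega)
    rwa [pow_one] at this
  obtain ⟨a, b, g, ha, hb⟩ := wronskian_lemma (dev_wronskian (dev_all hG hd) hl)
  have hab : a ≠ 0 ∨ b ≠ 0 := by
    by_contra hcon
    push Not at hcon
    apply hn
    apply mem_sq_of_res hl
    · rw [ha, hcon.1]; simp
    · rw [hb, hcon.2]; simp
  set v : Pt := ![b, -a, 0] with hv
  have hv2 : v 2 = 0 := by simp [hv]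
  have hv0 : v ≠ 0 := by
    intro h
    have e0 := congrFun h 0
    have e1 := congrFun h 1
    simp [hv] at e0 e1
    rcases hab with h | h
    · exact h e1
    · exact h e0
  have hvG : res l (dv v G) = 0 := by
    have : dv v G = C b * pderiv 0 G + C (-a) * pderiv 1 G + C 0 * pderiv 2 G := by
      simp [dv, Fin.sum_univ_three, hv]
    rw [this, map_add, map_add, map_mul, map_mul, map_mul, res_C, res_C, res_C, ha, hb]
    simp only [map_neg, map_zero]; ring
  have hroot : hs l F v v = 0 := by
    rw [hF, hs_mul_one hl hG', hvG]; ring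
  have hpl := plane_of_root hv2 hv0 hroot S hS hdeg
  rw [hF] at hpl
  rcases (irreducible_planeL hv2 hv0).prime.dvd_or_dvd hpl with h | ⟨G'', h⟩
  · exact planeL_not_dvd hG h2 hv2 hv0 h
  · have hvG' : res l (dv v G') = 0 := by
      rw [h, dv_mul, dv_planeL l hv2, map_add, map_mul, map_mul, res_mem (planeL_mem_self l v)]
      simp
    have hall : ∀ w, hs l F v w = 0 := by
      intro w
      rw [hF, hs_mul_one hl hG', hvG, hvG']; ring
    have hne : S.Nonempty := by
      rw [← Finset.card_pos]; omega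
    obtain ⟨q, hq⟩ := hne
    obtain ⟨t0, ht0, hl0⟩ := hS q hq
    obtain ⟨σ, ht, hl1⟩ := ht0.exists_two hl0
    set t := t0 ∘ σ with htdef
    obtain ⟨a', b', hab'⟩ := horiz_decomp ht.ind hv2
    have d00 := hs00 ht.has ht.ind ht.dbl
    have d11 := hs11 ht.has ht.ind ht.dbl
    have d01 := hs01_not ht
    have hunit : ∀ c : ℂ, c ≠ 0 → IsUnit (Polynomial.C c) := by
      intro c hc
      rw [Polynomial.isUnit_C, isUnit_iff_ne_zero]; exact hc
    have e1 := hs_expand (w := (t 1).dir - (t 2).dir) (a' := 0) (b' := 1) (ht.dbl 2) hab'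
      (by ext i; simp; ring)
    have e2 := hs_expand (w := (t 0).dir - (t 2).dir) (a' := 1) (b' := 0) (ht.dbl 2) hab'
      (by ext i; simp; ring)
    rw [hl1, hall] at e1 e2
    rw [hl1] at d00 d11 d01
    have ha' : a' = 0 := by
      by_contra hne
      apply d01
      rw [← (hunit a' hne).dvd_mul_left]
      have : Polynomial.C a' * hs l F (t 0).dir (t 1).dir =
          -(Polynomial.C b' * hs l F (t 1).dir (t 1).dir) := by
        simp only [mul_zero, mul_one, zero_add, map_zero, zero_mul, add_zero] at e1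
        linear_combination -e1
      rw [this]
      exact (dvd_neg).mpr (Dvd.dvd.mul_left d11 _)
    have hb' : b' = 0 := by
      by_contra hne
      apply d01
      rw [← (hunit b' hne).dvd_mul_left]
      have : Polynomial.C b' * hs l F (t 0).dir (t 1).dir =
          -(Polynomial.C a' * hs l F (t 0).dir (t 0).dir) := by
        simp only [mul_zero, mul_one, zero_add, map_zero, zero_mul, add_zero] at e2
        linear_combination -e2
      rw [this]
      exact (dvd_neg).mpr (Dvd.dvd.mul_left d00 _)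
    apply hv0
    rw [hab', ha', hb']
    simp

/-- a component with degenerate second fundamental form does not contain a line with many typical
joints all of whose lines are good -/
theorem dev_excl {F G G' : P3} {l : Ln} (hF : F = G * G') (hF0 : F ≠ 0) (hG : Irreducible G)
    (h2 : 2 ≤ G.totalDegree) (hd : Dev G) (S : Finset Pt)
    (hS : ∀ q ∈ S, ∃ t, Typ F q t ∧ (∃ i, t i = l) ∧
      ∀ i, F ∉ (t i).I ^ 3 ∧ (G ∈ (t i).I → G ∈ (t i).I ^ 2))
    (hdeg : F.totalDegree < 2 * S.card) (hdeg' : 2 * F.totalDegree < 3 * S.card) : G ∉ l.I := by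
  intro hl
  have hG'0 : G' ≠ 0 := by rintro rfl; apply hF0; rw [hF, mul_zero]
  have hne : S.Nonempty := by
    rw [← Finset.card_pos]; omega
  have hdegF : F.totalDegree = G.totalDegree + G'.totalDegree := by
    rw [hF, totalDegree_mul_of_isDomain hG.ne_zero hG'0]
  -- G is in the square of the ideal of l
  have hGl : G ∈ l.I ^ 2 ∧ G' ∉ l.I := by
    obtain ⟨q, hq⟩ := hne
    obtain ⟨t, ht, ⟨i, hi⟩, hgood⟩ := hS q hq
    have h1 := (hgood i).2 (by rwa [hi])
    rw [hi] at h1
    refine ⟨h1, fun h3 => (hgood i).1 ?_⟩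
    rw [hi, hF, pow_succ]
    exact Ideal.mul_mem_mul h1 h3
  -- at every joint of S the surface G has a triple point
  have key : ∀ q ∈ S, ∃ t, Typ G q t ∧ (t 2 = l) := by
    intro q hq
    obtain ⟨t0, ht0, ⟨i0, hi0⟩, hgood⟩ := hS q hq
    have hGi : ∀ i, G ∈ (t0 i).I ^ 2 := by
      intro i
      apply (hgood i).2
      by_contra hni
      have hG'2 : G' ∈ (t0 i).I ^ 2 := by
        have a1 : ordL (t0 i) G + ordL (t0 i) G' = ordL (t0 i) F := by
          rw [hF, ordL_mul _ hG.ne_zero hG'0]
        have a2 : 2 ≤ ordL (t0 i) F := (mem_I_pow_iff _ hF0 2).mp (ht0.dbl i)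
        have a3 : ¬ 1 ≤ ordL (t0 i) G := fun h => hni (by
          have := (mem_I_pow_iff _ hG.ne_zero 1).mpr h
          rwa [pow_one] at this)
        exact (mem_I_pow_iff _ hG'0 2).mpr (by omega)
      apply ht0.ord
      have hGq : G ∈ mI q ^ 2 := by
        refine Ideal.pow_right_mono (I_le_mI (hi0 ▸ ht0.has i0)) 2 ?_
        exact hGl.1
      have hG'q : G' ∈ mI q ^ 2 := Ideal.pow_right_mono (I_le_mI (ht0.has i)) 2 hG'2
      rw [hF, show 4 = 2 + 2 from rfl, pow_add]
      exact Ideal.mul_mem_mul hGq hG'q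
    have hT : Typ G q t0 := by
      refine ⟨ht0.has, ht0.ind, hGi, fun h => ht0.ord ?_⟩
      rw [hF]; exact Ideal.mul_mem_right _ _ h
    obtain ⟨σ, h1, h2⟩ := hT.exists_two ⟨i0, hi0⟩
    exact ⟨_, h1, h2⟩
  have hdevall := dev_all hG hd
  -- Wronskians vanish
  have hW : ∀ v w v' w' : Pt, v 2 = 0 → w 2 = 0 → v' 2 = 0 → w' 2 = 0 →
      Polynomial.wronskian (hs l G v w) (hs l G v' w') = 0 := by
    intro v w v' w' hv hw hv' hw'
    by_contra hne0
    have hdvd : ∀ q ∈ S, (Polynomial.X - Polynomial.C (q 2)) ^ 3 ∣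
        Polynomial.wronskian (hs l G v w) (hs l G v' w') := by
      intro q hq
      obtain ⟨t, ht, htl⟩ := key q hq
      obtain ⟨f0, f1⟩ := hs_flat ht.has ht.ind ht.dbl ht.ord hdevall
      have f01 := hs01 ht.has ht.ind ht.dbl
      rw [htl] at f0 f1 f01
      obtain ⟨a1, b1, r1⟩ := horiz_decomp ht.ind hv
      obtain ⟨a2, b2, r2⟩ := horiz_decomp ht.ind hw
      obtain ⟨a3, b3, r3⟩ := horiz_decomp ht.ind hv'
      obtain ⟨a4, b4, r4⟩ := horiz_decomp ht.ind hw'
      have x1 := hs_expand (ht.dbl 2) r1 r2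
      have x2 := hs_expand (ht.dbl 2) r3 r4
      rw [htl] at x1 x2
      rw [x1, x2]
      obtain ⟨c0, hc0⟩ := f0
      obtain ⟨c1, hc1⟩ := f1
      obtain ⟨c2, hc2⟩ := f01
      rw [hc0, hc1, hc2, pow_one]
      set τ := (Polynomial.X - Polynomial.C (q 2) : Polynomial ℂ) with hτ
      have hτd : Polynomial.derivative τ = 1 := by rw [hτ]; simp
      have hw3 : ∀ (k k' : ℂ) (s r r' : Polynomial ℂ),
          τ ^ 3 ∣ Polynomial.wronskian (Polynomial.C k * (τ * s) + τ ^ 3 * r)
            (Polynomial.C k' * (τ * s) + τ ^ 3 * r') := by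
        intro k k' s r r'
        simp only [Polynomial.wronskian, Polynomial.derivative_add, Polynomial.derivative_mul,
          Polynomial.derivative_C, Polynomial.derivative_pow, hτd, zero_mul, zero_add, mul_one,
          one_mul]
        refine ⟨Polynomial.C k * s * (3 * r' + τ * Polynomial.derivative r') +
          r * (Polynomial.C k' * (s + τ * Polynomial.derivative s) + 3 * τ ^ 2 * r' +
            τ ^ 3 * Polynomial.derivative r') -
          (Polynomial.C k * (s + τ * Polynomial.derivative s) + 3 * τ ^ 2 * r +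
            τ ^ 3 * Polynomial.derivative r) * r' -
          (3 * r + τ * Polynomial.derivative r) * (Polynomial.C k' * s), ?_⟩
        rw [show (Polynomial.C ((3 : ℕ) : ℂ)) = 3 from map_ofNat _ 3]
        ring
      have := hw3 (a1 * b2 + b1 * a2) (a3 * b4 + b3 * a4) c2
        (Polynomial.C (a1 * a2) * c0 + Polynomial.C (b1 * b2) * c1)
        (Polynomial.C (a3 * a4) * c0 + Polynomial.C (b3 * b4) * c1)
      convert this using 2 <;> ring
    have hinj : Set.InjOn (fun q : Pt => q 2) (S : Set Pt) := by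
      intro q hq q' hq' heq
      obtain ⟨t, ht, htl⟩ := key q hq
      obtain ⟨t', ht', htl'⟩ := key q' hq'
      have k1 : l.Has q := htl ▸ ht.has 2
      have k2 : l.Has q' := htl' ▸ ht'.has 2
      rw [k1, k2]; exact congrArg _ heq
    have hprod : ∏ q ∈ S, (Polynomial.X - Polynomial.C (q 2)) ^ 3 ∣
        Polynomial.wronskian (hs l G v w) (hs l G v' w') := by
      apply Finset.prod_dvd_of_coprime
      · intro q hq q' hq' hne1
        apply IsCoprime.pow
        apply Polynomial.isCoprime_X_sub_C_of_isUnit_sub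
        rw [isUnit_iff_ne_zero, sub_ne_zero]
        intro h
        exact hne1 (hinj hq hq' h)
      · exact hdvd
    have hd1 := Polynomial.natDegree_le_of_dvd hprod hne0
    rw [Polynomial.natDegree_prod _ _ (fun q _ => pow_ne_zero _ (Polynomial.X_sub_C_ne_zero _))] at hd1
    simp only [Polynomial.natDegree_pow, Polynomial.natDegree_X_sub_C, mul_one,
      Finset.sum_const, smul_eq_mul] at hd1
    have hd2 := Polynomial.natDegree_wronskian_lt_add hne0
    have hd3 : ∀ v w, (hs l G v w).natDegree ≤ G.totalDegree := by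
      intro v w
      unfold hs
      exact (natDegree_res_le l _).trans
        ((totalDegree_dv_le v _).trans (totalDegree_dv_le w _))
    have := hd3 v w
    have := hd3 v' w'
    omega
  obtain ⟨x, y, hxy, hr⟩ := common_root
    (hW (e 0) (e 0) (e 0) (e 1) (by simp [e]) (by simp [e]) (by simp [e]) (by simp [e]))
    (hW (e 0) (e 0) (e 1) (e 1) (by simp [e]) (by simp [e]) (by simp [e]) (by simp [e]))
    (hW (e 0) (e 1) (e 1) (e 1) (by simp [e]) (by simp [e]) (by simp [e]) (by simp [e]))
  set v : Pt := ![x, y, 0] with hv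
  have hv2 : v 2 = 0 := by simp [hv]
  have hv0 : v ≠ 0 := by
    intro h
    have e0 := congrFun h 0
    have e1 := congrFun h 1
    simp [hv] at e0 e1
    apply hxy; rw [e0, e1]
  have hve : v = x • e 0 + y • e 1 := by
    ext i; fin_cases i <;> simp [hv, e]
  have hrG : hs l G v v = 0 := by
    rw [hve]
    simp only [hs_add_left, hs_add_right, hs_smul_left, hs_smul_right, hs_symm l G (e 1) (e 0)]
    simp only [map_mul, map_pow, map_ofNat] at hr
    linear_combination hr
  have hroot : hs l F v v = 0 := by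
    rw [hF, hs_mul_two hGl.1, hrG, zero_mul]
  have hpl := plane_of_root hv2 hv0 hroot S
    (fun q hq => by obtain ⟨t, h1, h2, _⟩ := hS q hq; exact ⟨t, h1, h2⟩) hdeg
  rw [hF] at hpl
  rcases (irreducible_planeL hv2 hv0).prime.dvd_or_dvd hpl with h | ⟨G'', h⟩
  · exact planeL_not_dvd hG h2 hv2 hv0 h
  · apply hGl.2
    rw [h]
    exact Ideal.mul_mem_right _ _ (planeL_mem_self l v)

end Pool.Agent.Lib.MP_a8d5c3_co.Stab
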