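import Pool.Agent.Lib.MP_a8d5c3_co.Stab.SharpMin

/-!
T1: the sharp bound for the number of joints and the regularity of near-extremal configurations.
-/

set_option autoImplicit false
set_option maxHeartbeats 1000000

namespace Pool.Agent.Lib.MP_a8d5c3_co.Stab

open MvPolynomial Matrix Classical

/-- the lines carrying joints -/
noncomputable def Cfg.LN (c : Cfg) : Finset Ln := Finset.univ.image c.lm

theorem LN_subset (c : Cfg) : c.LN ⊆ c.L := by
  intro l hl
  obtain ⟨x, _, rfl⟩ := Finset.mem_image.1 hl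
  exact c.tri_mem x.1 x.1.2 x.2

theorem sum_feas {c : Cfg} {b : c.X → ℝ} (h : Feas c b) : ∑ x, b x = (c.LN.card : ℝ) := by
  rw [← Finset.sum_fiberwise_of_maps_to (s := Finset.univ) (t := c.LN) (g := c.lm)
    (fun x _ => Finset.mem_image_of_mem _ (Finset.mem_univ x))]
  rw [Finset.card_eq_sum_ones, Nat.cast_sum]
  refine Finset.sum_congr rfl fun l hl => ?_
  obtain ⟨x, _, rfl⟩ := Finset.mem_image.1 hl
  rw [Finset.sum_filter, h.one x, Nat.cast_one]

theorem sum_X {c : Cfg} (b : c.X → ℝ) : ∑ x, b x = ∑ q, Ssum c b q := by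
  rw [Fintype.sum_prod_type]
  rfl

/-- the configuration given by some of the joints -/
noncomputable def Cfg.sub (c : Cfg) (P : Finset Pt) (h : P ⊆ c.J) : Cfg where
  L := (P ×ˢ (Finset.univ : Finset (Fin 3))).image fun x => c.tri x.1 x.2
  J := P
  tri := c.tri
  tri_mem := by
    intro q hq i
    exact Finset.mem_image.2 ⟨(q, i), by simp [hq], rfl⟩
  has := fun q hq i => c.has q (h hq) i
  indep := fun q hq => c.indep q (h hq)

theorem sub_LN (c : Cfg) (P : Finset Pt) (h : P ⊆ c.J) : (c.sub P h).LN = (c.sub P h).L := by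
  apply Finset.Subset.antisymm (LN_subset _)
  intro l hl
  obtain ⟨x, hx, rfl⟩ := Finset.mem_image.1 hl
  exact Finset.mem_image.2 ⟨(⟨x.1, (Finset.mem_product.1 hx).1⟩, x.2), Finset.mem_univ _, rfl⟩

theorem sub_L_subset (c : Cfg) (P : Finset Pt) (h : P ⊆ c.J) : (c.sub P h).L ⊆ c.L := by
  intro l hl
  obtain ⟨x, hx, rfl⟩ := Finset.mem_image.1 hl
  exact c.tri_mem x.1 (h (Finset.mem_product.1 hx).1) x.2

/-- inclusion of index sets -/
def emb (c : Cfg) (P : Finset Pt) (h : P ⊆ c.J) : (c.sub P h).X ↪ c.X where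
  toFun x := (⟨x.1, h x.1.2⟩, x.2)
  inj' := by
    intro x y hxy
    have h1 := congrArg (fun z : c.X => (z.1 : Pt)) hxy
    have h2 := congrArg (fun z : c.X => z.2) hxy
    exact Prod.ext (Subtype.ext h1) h2

theorem subconfig (c : Cfg) (hJ : c.J.Nonempty) :
    ∃ (P : Finset Pt) (h : P ⊆ c.J), P.Nonempty ∧ ∃ (s : ℝ) (b : (c.sub P h).X → ℝ), 0 < s ∧
      Feas (c.sub P h) b ∧ s * P.card = (c.sub P h).L.card ∧ s * c.J.card ≤ c.L.card ∧
      (∀ q, Ssum (c.sub P h) b q = s) ∧ 1 / 6 ≤ ∑ q : (c.sub P h).J, ∏ i, b (q, i) := by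
  obtain ⟨b, hb, -, hmin⟩ := lemmaA c hJ
  have hmin' : ∀ b', Feas c b' → Phi c 0 b ≤ Phi c 0 b' := by
    intro b' hb'
    have := hmin b' hb'
    unfold Phi
    linarith
  have : Nonempty c.J := hJ.to_subtype
  obtain ⟨q₀, hq₀⟩ := Finite.exists_min (Ssum c b)
  set s := Ssum c b q₀ with hs
  set P : Finset Pt := (Finset.univ.filter (fun q : c.J => Ssum c b q = s)).map
    (Function.Embedding.subtype _) with hP
  have hPJ : P ⊆ c.J := by
    intro q hq
    obtain ⟨x, _, rfl⟩ := Finset.mem_map.1 hq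
    exact x.2
  have hPs : ∀ q (h : q ∈ P), Ssum c b ⟨q, hPJ h⟩ = s := by
    intro q hq
    obtain ⟨x, hx, rfl⟩ := Finset.mem_map.1 hq
    exact (Finset.mem_filter.1 hx).2
  have hPs' : ∀ q : c.J, Ssum c b q = s → (q : Pt) ∈ P := by
    intro q hq
    exact Finset.mem_map.2 ⟨q, Finset.mem_filter.2 ⟨Finset.mem_univ _, hq⟩, rfl⟩
  have hPne : P.Nonempty := ⟨q₀, hPs' q₀ rfl⟩
  -- the restriction
  let b1 : (c.sub P hPJ).X → ℝ := fun x => b (emb c P hPJ x)
  have hsupp : ∀ (x : (c.sub P hPJ).X) (z : c.X), c.lm z = c.lm (emb c P hPJ x) →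
      z ∉ Finset.univ.map (emb c P hPJ) → b z = 0 := by
    intro x z hz hz'
    by_contra hne
    have hpos : 0 < b z := lt_of_le_of_ne (hb.nn z) (Ne.symm hne)
    have h1 := first_order le_rfl hb hmin' (x := emb c P hPJ x) (y := z) hz.symm hpos
    simp only [zero_mul, add_zero] at h1
    have h2 : Ssum c b (emb c P hPJ x).1 = s := hPs x.1 x.1.2
    rw [h2] at h1
    have h3 : Ssum c b z.1 = s := le_antisymm h1 (hq₀ z.1)
    apply hz'
    exact Finset.mem_map.2 ⟨(⟨z.1, hPs' z.1 h3⟩, z.2), Finset.mem_univ _, rfl⟩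
  have hb1 : Feas (c.sub P hPJ) b1 := by
    refine ⟨fun x => hb.nn _, fun x => ?_⟩
    rw [← hb.one (emb c P hPJ x)]
    rw [← Finset.sum_subset (Finset.subset_univ (Finset.univ.map (emb c P hPJ))) ?_,
      Finset.sum_map]
    · rfl
    · intro z _ hz
      split_ifs with h
      · exact hsupp x z h hz
      · rfl
  have hS1 : ∀ q, Ssum (c.sub P hPJ) b1 q = s := by
    intro q
    exact hPs q q.2
  have hcard1 : s * P.card = (c.sub P hPJ).L.card := by
    have h1 := sum_feas hb1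
    rw [sum_X, Finset.sum_congr rfl fun q _ => hS1 q, Finset.sum_const, nsmul_eq_mul,
      sub_LN, Finset.card_univ, Fintype.card_coe] at h1
    rw [mul_comm]
    exact h1
  have hcard2 : s * c.J.card ≤ c.L.card := by
    have h1 := sum_feas hb
    rw [sum_X] at h1
    have h2 : ∑ _q : c.J, s ≤ ∑ q, Ssum c b q := Finset.sum_le_sum fun q _ => hq₀ q
    rw [Finset.sum_const, nsmul_eq_mul, Finset.card_univ, Fintype.card_coe] at h2
    have h3 : (c.LN.card : ℝ) ≤ c.L.card := by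
      exact_mod_cast Finset.card_le_card (LN_subset c)
    calc s * c.J.card = c.J.card * s := mul_comm _ _
      _ ≤ _ := h2.trans (h1.le.trans h3)
  have hspos : 0 < s := by
    have h1 : (0 : ℝ) < (c.sub P hPJ).L.card := by
      rw [Nat.cast_pos, Finset.card_pos]
      obtain ⟨q, hq⟩ := hPne
      exact ⟨c.tri q 0, Finset.mem_image.2 ⟨(q, 0), by simp [hq], rfl⟩⟩
    rw [← hcard1] at h1
    exact (pos_iff_pos_of_mul_pos h1).2 (by
      rw [Nat.cast_pos, Finset.card_pos]; exact hPne)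
  obtain ⟨b2, hb2, h6, hmin2⟩ := lemmaA (c.sub P hPJ) hPne
  refine ⟨P, hPJ, hPne, s, b2, hspos, hb2, hcard1, hcard2, ?_, h6⟩
  -- Cauchy-Schwarz
  have h1 := hmin2 b1 hb1
  have h1' : ∑ q, Ssum (c.sub P hPJ) b1 q ^ 2 = ∑ _q : (c.sub P hPJ).J, s ^ 2 :=
    Finset.sum_congr rfl fun q _ => by rw [hS1 q]
  rw [h1'] at h1
  have h2 := sum_feas hb2
  rw [sum_X, sub_LN, ← hcard1] at h2
  have h3 : ∑ q, (Ssum (c.sub P hPJ) b2 q - s) ^ 2 ≤ 0 := by
    have h4 : ∑ q, (Ssum (c.sub P hPJ) b2 q - s) ^ 2 =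
        ∑ q, Ssum (c.sub P hPJ) b2 q ^ 2 - 2 * s * ∑ q, Ssum (c.sub P hPJ) b2 q +
          ∑ _q : (c.sub P hPJ).J, s ^ 2 := by
      rw [Finset.mul_sum, ← Finset.sum_sub_distrib, ← Finset.sum_add_distrib]
      exact Finset.sum_congr rfl fun q _ => by ring
    rw [h4, h2]
    have h5 : ∑ _q : (c.sub P hPJ).J, s ^ 2 = P.card * s ^ 2 := by
      rw [Finset.sum_const, nsmul_eq_mul, Finset.card_univ, Fintype.card_coe]
      rfl
    rw [h5] at h1 ⊢
    nlinarith
  intro q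
  have h4 := Finset.sum_nonneg (s := Finset.univ)
    (fun q _ => sq_nonneg (Ssum (c.sub P hPJ) b2 q - s))
  have h5 := (Finset.sum_eq_zero_iff_of_nonneg
    (fun q _ => sq_nonneg (Ssum (c.sub P hPJ) b2 q - s))).1 (le_antisymm h3 h4) q
    (Finset.mem_univ q)
  have h7 : Ssum (c.sub P hPJ) b2 q - s = 0 := by
    exact pow_eq_zero_iff (two_ne_zero) |>.1 h5
  linarith

/-- quantitative inequality of the means -/
theorem amgm {x y z s : ℝ} (hx : 0 ≤ x) (hy : 0 ≤ y) (hz : 0 ≤ z) (h : x + y + z = s) :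
    s / 18 * ((x - s / 3) ^ 2 + (y - s / 3) ^ 2 + (z - s / 3) ^ 2) ≤ (s / 3) ^ 3 - x * y * z := by
  subst h
  -- `54 (RHS - LHS)`
  nlinarith [mul_nonneg hx (sq_nonneg (y - z)), mul_nonneg hy (sq_nonneg (x - z)),
    mul_nonneg hz (sq_nonneg (x - y)), mul_nonneg hx hy, mul_nonneg hy hz, mul_nonneg hx hz,
    sq_nonneg (x - y), sq_nonneg (y - z), sq_nonneg (x - z),
    mul_nonneg hx (sq_nonneg (x - y)), mul_nonneg hx (sq_nonneg (x - z)),
    mul_nonneg hy (sq_nonneg (x - y)), mul_nonneg hy (sq_nonneg (y - z)),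
    mul_nonneg hz (sq_nonneg (x - z)), mul_nonneg hz (sq_nonneg (y - z)),
    mul_nonneg hx (sq_nonneg (2 * x - y - z)), mul_nonneg hy (sq_nonneg (2 * y - x - z)),
    mul_nonneg hz (sq_nonneg (2 * z - x - y))]

/-- the data extracted from a configuration, with real numbers only -/
theorem sharp_data (c : Cfg) (hJ : c.J.Nonempty) :
    ∃ (P : Finset Pt) (h : P ⊆ c.J), P.Nonempty ∧ ∃ (s : ℝ) (b : (c.sub P h).X → ℝ), 0 < s ∧
      Feas (c.sub P h) b ∧ s * P.card = (c.sub P h).L.card ∧ s * c.J.card ≤ c.L.card ∧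
      9 ≤ 2 * ((c.sub P h).L.card : ℝ) * s ^ 2 ∧
      s / 18 * ∑ x, (b x - s / 3) ^ 2 ≤ (c.sub P h).L.card * s ^ 2 / 27 - 1 / 6 := by
  obtain ⟨P, h, hP, s, b, hs, hb, h1, h2, h3, h4⟩ := subconfig c hJ
  have key : s / 18 * ∑ x, (b x - s / 3) ^ 2 ≤ (c.sub P h).L.card * s ^ 2 / 27 - 1 / 6 := by
    have e1 : ∀ q : (c.sub P h).J,
        s / 18 * ∑ i, (b (q, i) - s / 3) ^ 2 ≤ (s / 3) ^ 3 - ∏ i, b (q, i) := by
      intro q
      have h5 := h3 q
      unfold Ssum at h5
      rw [Fin.sum_univ_three] at h5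
      rw [Fin.sum_univ_three, Fin.prod_univ_three]
      exact amgm (hb.nn _) (hb.nn _) (hb.nn _) h5
    rw [Fintype.sum_prod_type, Finset.mul_sum]
    refine (Finset.sum_le_sum fun q _ => e1 q).trans ?_
    rw [Finset.sum_sub_distrib]
    have e2 : ∑ _q : (c.sub P h).J, (s / 3) ^ 3 = (c.sub P h).L.card * s ^ 2 / 27 := by
      rw [Finset.sum_const, nsmul_eq_mul, Finset.card_univ, Fintype.card_coe, ← h1]
      change (P.card : ℝ) * (s / 3) ^ 3 = _
      ring
    rw [e2]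
    linarith
  refine ⟨P, h, hP, s, b, hs, hb, h1, h2, ?_, key⟩
  have h5 : 0 ≤ s / 18 * ∑ x, (b x - s / 3) ^ 2 :=
    mul_nonneg (by positivity) (Finset.sum_nonneg fun _ _ => sq_nonneg _)
  linarith

/-- T1a -/
theorem jointsLe : JointsLe := by
  intro c
  rcases c.J.eq_empty_or_nonempty with hJ | hJ
  · rw [hJ, Finset.card_empty, Nat.cast_zero, zero_pow two_ne_zero, mul_zero]
    positivity
  obtain ⟨P, h, hP, s, b, hs, hb, h1, h2, h3, -⟩ := sharp_data c hJ
  have h4 : ((c.sub P h).L.card : ℝ) ≤ c.L.card := by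
    exact_mod_cast Finset.card_le_card (sub_L_subset c P h)
  have hN : (0 : ℝ) ≤ c.L.card := Nat.cast_nonneg _
  have hJ0 : (0 : ℝ) ≤ c.J.card := Nat.cast_nonneg _
  -- `9 J^2 <= 2 N s^2 J^2 <= 2 N N^2`
  calc 9 * (c.J.card : ℝ) ^ 2 ≤ 2 * ((c.sub P h).L.card : ℝ) * s ^ 2 * (c.J.card : ℝ) ^ 2 :=
        mul_le_mul_of_nonneg_right h3 (sq_nonneg _)
    _ ≤ 2 * (c.L.card : ℝ) * s ^ 2 * (c.J.card : ℝ) ^ 2 := by gcongr
    _ = 2 * (c.L.card : ℝ) * (s * c.J.card) ^ 2 := by ring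
    _ ≤ 2 * (c.L.card : ℝ) * (c.L.card : ℝ) ^ 2 := by gcongr
    _ = 2 * (c.L.card : ℝ) ^ 3 := by ring

theorem on_card_sub_le (c : Cfg) (P : Finset Pt) (h : P ⊆ c.J) (l : Ln) :
    ((c.sub P h).on l).card ≤ (c.on l).card := by
  apply Finset.card_le_card
  intro q hq
  unfold Cfg.on at hq ⊢
  rw [Finset.mem_filter] at hq ⊢
  exact ⟨h hq.1, hq.2⟩

/-- the number of indices on a line is the number of joints on it -/
theorem on_card (c : Cfg) (l : Ln) :
    (c.on l).card = (Finset.univ.filter fun x : c.X => c.lm x = l).card := by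
  symm
  refine Finset.card_bij (fun x _ => (x.1 : Pt)) ?_ ?_ ?_
  · intro x hx
    unfold Cfg.on
    rw [Finset.mem_filter]
    exact ⟨x.1.2, x.2, (Finset.mem_filter.1 hx).2⟩
  · intro x hx y hy hxy
    exact lm_inj c ((Finset.mem_filter.1 hx).2.trans (Finset.mem_filter.1 hy).2.symm)
      (Subtype.ext hxy)
  · intro q hq
    unfold Cfg.on at hq
    rw [Finset.mem_filter] at hq
    obtain ⟨hqJ, i, hi⟩ := hq
    exact ⟨(⟨q, hqJ⟩, i), Finset.mem_filter.2 ⟨Finset.mem_univ _, hi⟩, rfl⟩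

theorem sum_on_card (c : Cfg) : ∑ l ∈ c.L, ((c.on l).card : ℝ) = 3 * c.J.card := by
  have h1 : ∑ l ∈ c.L, (c.on l).card = Fintype.card c.X := by
    simp only [on_card]
    rw [← Finset.card_univ]
    symm
    exact Finset.card_eq_sum_card_fiberwise (fun x _ => c.tri_mem x.1 x.1.2 x.2)
  have h2 : Fintype.card c.X = c.J.card * 3 := by
    rw [Fintype.card_prod, Fintype.card_coe, Fintype.card_fin]
  rw [h2] at h1
  have : ((∑ l ∈ c.L, (c.on l).card : ℕ) : ℝ) = ((c.J.card * 3 : ℕ) : ℝ) := by rw [h1]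
  push_cast at this
  linarith

/-- T1b -/
theorem regularity : Regularity := by
  intro c ε hε0 hε1 hhyp
  set N : ℝ := (c.L.card : ℝ) with hNdef
  have hN0 : 0 ≤ N := Nat.cast_nonneg _
  rcases hN0.eq_or_lt with hN | hN
  · have : c.L = ∅ := by
      rw [← Finset.card_eq_zero]
      have h0 : (c.L.card : ℝ) = 0 := hN.symm
      exact_mod_cast h0
    rw [this, ← hN]
    simp
  set m := c.m with hm
  have hm2 : m ^ 2 = 2 * N := by
    rw [hm]; unfold Cfg.m
    rw [Real.sq_sqrt (by positivity)]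
  have hm0 : 0 < m := by
    rw [hm]; unfold Cfg.m
    exact Real.sqrt_pos.2 (by positivity)
  have hJ : c.J.Nonempty := by
    rw [Finset.nonempty_iff_ne_empty]
    intro h
    rw [h] at hhyp
    simp only [Finset.card_empty, Nat.cast_zero] at hhyp
    have : 0 < 2 * (1 - ε) * N ^ 3 := by
      have : 0 < 1 - ε := by linarith
      positivity
    linarith
  obtain ⟨P, h, hP, s, b, hs, hb, h1, h2, h3, h4⟩ := sharp_data c hJ
  set N0 : ℝ := ((c.sub P h).L.card : ℝ) with hN0def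
  set J : ℝ := (c.J.card : ℝ) with hJdef
  have hJ0 : 0 ≤ J := Nat.cast_nonneg _
  have hN0N : N0 ≤ N := by
    rw [hN0def, hNdef]
    exact_mod_cast Finset.card_le_card (sub_L_subset c P h)
  have hN00 : 0 ≤ N0 := Nat.cast_nonneg _
  have hε2 : 0 < 1 - ε := by linarith
  -- `2 (1-ε) N s^2 ≤ 9`
  have a1 : 2 * (1 - ε) * N * s ^ 2 ≤ 9 := by
    have e1 : 2 * (1 - ε) * N ^ 3 * s ^ 2 ≤ 9 * N ^ 2 := by
      calc 2 * (1 - ε) * N ^ 3 * s ^ 2 ≤ 9 * J ^ 2 * s ^ 2 :=
            mul_le_mul_of_nonneg_right hhyp (sq_nonneg _)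
        _ = 9 * (s * J) ^ 2 := by ring
        _ ≤ 9 * N ^ 2 := by gcongr
    have e2 : N ^ 2 * (2 * (1 - ε) * N * s ^ 2) ≤ N ^ 2 * 9 := by
      calc N ^ 2 * (2 * (1 - ε) * N * s ^ 2) = 2 * (1 - ε) * N ^ 3 * s ^ 2 := by ring
        _ ≤ 9 * N ^ 2 := e1
        _ = N ^ 2 * 9 := by ring
    exact le_of_mul_le_mul_left e2 (by positivity)
  have hs2 : 0 < s ^ 2 := by positivity
  -- `(1-ε) N ≤ N0`
  have a2 : (1 - ε) * N ≤ N0 := by
    have : (2 * s ^ 2) * ((1 - ε) * N) ≤ (2 * s ^ 2) * N0 := by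
      calc (2 * s ^ 2) * ((1 - ε) * N) = 2 * (1 - ε) * N * s ^ 2 := by ring
        _ ≤ 9 := a1
        _ ≤ 2 * N0 * s ^ 2 := h3
        _ = (2 * s ^ 2) * N0 := by ring
    exact le_of_mul_le_mul_left this (by positivity)
  -- `3 ≤ m s`
  have a3 : 3 ≤ m * s := by
    have e1 : (3 : ℝ) ^ 2 ≤ (m * s) ^ 2 := by
      rw [mul_pow, hm2]
      calc (3 : ℝ) ^ 2 = 9 := by norm_num
        _ ≤ 2 * N0 * s ^ 2 := h3
        _ ≤ 2 * N * s ^ 2 := by gcongr
    exact le_of_pow_le_pow_left₀ two_ne_zero (by positivity) e1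
  -- `(1-ε) m s ≤ 3`
  have a4 : (1 - ε) * m * s ≤ 3 := by
    have e1 : ((1 - ε) * m * s) ^ 2 ≤ 3 ^ 2 := by
      calc ((1 - ε) * m * s) ^ 2 = (1 - ε) * ((1 - ε) * m ^ 2 * s ^ 2) := by ring
        _ = (1 - ε) * (2 * (1 - ε) * N * s ^ 2) := by rw [hm2]; ring
        _ ≤ 1 * 9 := by
            apply mul_le_mul _ a1 (by positivity) zero_le_one
            linarith
        _ = 3 ^ 2 := by norm_num
    exact le_of_pow_le_pow_left₀ two_ne_zero (by norm_num) e1
  -- the second moment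
  have a5 : ∑ x, (b x - s / 3) ^ 2 ≤ 6 * ε / s := by
    have e1 : N0 * s ^ 2 / 27 - 1 / 6 ≤ ε / 3 := by
      have e2 : (1 - ε) * (N0 * s ^ 2 / 27) ≤ 1 / 6 := by
        have : (1 - ε) * (N0 * s ^ 2) ≤ (1 - ε) * (N * s ^ 2) := by gcongr
        nlinarith
      have e3 : (1 - ε) * (N0 * s ^ 2 / 27) ≤ (1 - ε) * (1 / 6 + ε / 3) := by
        have : 1 / 6 ≤ (1 - ε) * (1 / 6 + ε / 3) := by nlinarith
        linarith
      have := le_of_mul_le_mul_left e3 hε2
      linarith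
    rw [le_div_iff₀ hs]
    have := h4.trans e1
    linarith
  -- the first moment
  have a6 : ∑ x, |b x - s / 3| ≤ 2 * √ε * N0 := by
    have e1 : (∑ x, |b x - s / 3|) ^ 2 ≤ (3 * P.card) * ∑ x, (b x - s / 3) ^ 2 := by
      have e2 := sq_sum_le_card_mul_sum_sq (s := (Finset.univ : Finset (c.sub P h).X))
        (f := fun x => |b x - s / 3|)
      simp only [sq_abs] at e2
      rw [Finset.card_univ, Fintype.card_prod, Fintype.card_coe, Fintype.card_fin] at e2
      refine e2.trans (le_of_eq ?_)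
      push_cast
      change ((P.card : ℝ) * 3) * _ = _
      ring
    have e3 : (∑ x, |b x - s / 3|) ^ 2 ≤ (2 * √ε * N0) ^ 2 := by
      refine e1.trans ?_
      have e4 : (3 * (P.card : ℝ)) * ∑ x, (b x - s / 3) ^ 2 ≤ (3 * P.card) * (6 * ε / s) := by
        gcongr
      refine e4.trans ?_
      have e5 : (P.card : ℝ) = N0 / s := by
        rw [eq_div_iff hs.ne', ← h1]; ring
      rw [e5, mul_pow, mul_pow, Real.sq_sqrt hε0]
      have e6 : 3 * (N0 / s) * (6 * ε / s) = 18 * ε * N0 / s ^ 2 := by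
        field_simp; ring
      rw [e6, div_le_iff₀ hs2]
      have e7 : ε * N0 * 9 ≤ ε * N0 * (2 * N0 * s ^ 2) := by gcongr
      nlinarith
    exact le_of_pow_le_pow_left₀ two_ne_zero (by positivity) e3
  -- line sums
  have a7 : ∀ l ∈ (c.sub P h).L, |1 - ((c.sub P h).on l).card * (s / 3)| ≤
      ∑ x, if (c.sub P h).lm x = l then |b x - s / 3| else 0 := by
    intro l hl
    rw [← sub_LN] at hl
    obtain ⟨x, _, rfl⟩ := Finset.mem_image.1 hl
    have e1 : 1 - (((c.sub P h).on ((c.sub P h).lm x)).card : ℝ) * (s / 3) =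
        ∑ y, if (c.sub P h).lm y = (c.sub P h).lm x then b y - s / 3 else 0 := by
      rw [← Finset.sum_filter, Finset.sum_sub_distrib, Finset.sum_const, nsmul_eq_mul,
        Finset.sum_filter, hb.one x, on_card]
    rw [e1]
    refine (Finset.abs_sum_le_sum_abs _ _).trans (le_of_eq ?_)
    refine Finset.sum_congr rfl fun y _ => ?_
    split_ifs
    · rfl
    · exact abs_zero
  have a8 : ∑ l ∈ (c.sub P h).L, |1 - ((c.sub P h).on l).card * (s / 3)| ≤ 2 * √ε * N0 := by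
    refine (Finset.sum_le_sum a7).trans ?_
    rw [Finset.sum_comm]
    refine le_trans (le_of_eq ?_) a6
    refine Finset.sum_congr rfl fun x _ => ?_
    rw [Finset.sum_ite_eq, if_pos]
    exact (c.sub P h).tri_mem x.1 x.1.2 x.2
  -- positive parts on the good lines
  have a9 : ∀ l ∈ (c.sub P h).L, max (m - (c.on l).card) 0 ≤
      m * |1 - ((c.sub P h).on l).card * (s / 3)| + ε * m := by
    intro l _
    have e1 : (((c.sub P h).on l).card : ℝ) ≤ (c.on l).card := by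
      exact_mod_cast on_card_sub_le c P h l
    set k : ℝ := (((c.sub P h).on l).card : ℝ)
    have e2 : 3 / s ≤ m := by
      rw [div_le_iff₀ hs]; exact a3
    have e3 : (1 - ε) * m ≤ 3 / s := by
      rw [le_div_iff₀ hs]; exact a4
    have e4 : 3 / s - k ≤ m * |1 - k * (s / 3)| := by
      have e5 : 3 / s - k = (3 / s) * (1 - k * (s / 3)) := by
        field_simp
      rw [e5]
      calc (3 / s) * (1 - k * (s / 3)) ≤ (3 / s) * |1 - k * (s / 3)| := by
            gcongr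
            exact le_abs_self _
        _ ≤ m * |1 - k * (s / 3)| := by gcongr
    apply max_le
    · nlinarith
    · positivity
  have a10 : ∑ l ∈ (c.sub P h).L, max (m - (c.on l).card) 0 ≤ (2 * √ε + ε) * N * m := by
    refine (Finset.sum_le_sum a9).trans ?_
    rw [Finset.sum_add_distrib, ← Finset.mul_sum, Finset.sum_const, nsmul_eq_mul]
    have e1 : m * ∑ l ∈ (c.sub P h).L, |1 - ((c.sub P h).on l).card * (s / 3)| ≤
        m * (2 * √ε * N) := by
      refine mul_le_mul_of_nonneg_left (a8.trans ?_) hm0.le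
      gcongr
    have e2 : N0 * (ε * m) ≤ N * (ε * m) := by gcongr
    change m * ∑ l ∈ (c.sub P h).L, |1 - ((c.sub P h).on l).card * (s / 3)| + N0 * (ε * m) ≤ _
    linarith
  have a11 : ∑ l ∈ c.L, max (m - (c.on l).card) 0 ≤ (2 * √ε + 2 * ε) * N * m := by
    rw [← Finset.sum_sdiff (sub_L_subset c P h)]
    have e1 : ∑ l ∈ c.L \ (c.sub P h).L, max (m - (c.on l).card) 0 ≤ ε * N * m := by
      calc ∑ l ∈ c.L \ (c.sub P h).L, max (m - (c.on l).card) 0
          ≤ ∑ _l ∈ c.L \ (c.sub P h).L, m := by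
            refine Finset.sum_le_sum fun l _ => ?_
            apply max_le _ hm0.le
            have : (0 : ℝ) ≤ (c.on l).card := Nat.cast_nonneg _
            linarith
        _ = ((c.L \ (c.sub P h).L).card : ℝ) * m := by rw [Finset.sum_const, nsmul_eq_mul]
        _ = (N - N0) * m := by
            rw [Finset.card_sdiff_of_subset (sub_L_subset c P h),
              Nat.cast_sub (Finset.card_le_card (sub_L_subset c P h))]
        _ ≤ ε * N * m := by
            refine mul_le_mul_of_nonneg_right ?_ hm0.le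
            linarith
    linarith
  have a12 : 3 * J ≤ N * m := by
    have e1 := jointsLe c
    have e2 : (3 * J) ^ 2 ≤ (N * m) ^ 2 := by
      rw [mul_pow, mul_pow, hm2]
      calc (3 : ℝ) ^ 2 * J ^ 2 = 9 * J ^ 2 := by norm_num
        _ ≤ 2 * N ^ 3 := e1
        _ = N ^ 2 * (2 * N) := by ring
    exact le_of_pow_le_pow_left₀ two_ne_zero (by positivity) e2
  have a13 : ∑ l ∈ c.L, |((c.on l).card : ℝ) - m| =
      2 * ∑ l ∈ c.L, max (m - (c.on l).card) 0 + (3 * J - N * m) := by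
    have e1 : ∀ l ∈ c.L, |((c.on l).card : ℝ) - m| =
        2 * max (m - (c.on l).card) 0 + ((c.on l).card - m) := by
      intro l _
      rcases le_total ((c.on l).card : ℝ) m with hl | hl
      · rw [abs_of_nonpos (by linarith), max_eq_left (by linarith)]; ring
      · rw [abs_of_nonneg (by linarith), max_eq_right (by linarith)]; ring
    rw [Finset.sum_congr rfl e1, Finset.sum_add_distrib, ← Finset.mul_sum,
      Finset.sum_sub_distrib, sum_on_card, Finset.sum_const, nsmul_eq_mul]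
  rw [a13]
  have a14 : ε ≤ √ε := by
    apply Real.le_sqrt_of_sq_le
    nlinarith
  have a15 : 0 ≤ N * m := by positivity
  have a16 : ε * (N * m) ≤ √ε * (N * m) := by gcongr
  nlinarith

end Pool.Agent.Lib.MP_a8d5c3_co.Stab
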