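import Mathlib
import Pool.Agent.Lib.MP_a8d5c3_co.Stab.DevExcl
import Pool.Agent.Lib.MP_a8d5c3_co.Stab.Sharp

/-!
Factorisation into irreducible surfaces and the consequences of Bezout's theorem.
-/

set_option autoImplicit false

namespace Pool.Agent.Lib.MP_a8d5c3_co.Stab

open MvPolynomial Matrix

/-- double counting of incidences -/
theorem sum_on (c : Cfg) {M : Type*} [AddCommMonoid M] (f : Pt → Ln → M) :
    ∑ l ∈ c.L, ∑ q ∈ c.on l, f q l = ∑ q ∈ c.J, ∑ i, f q (c.tri q i) := by
  classical
  have h1 : ∀ l ∈ c.L, ∑ q ∈ c.on l, f q l =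
      ∑ q ∈ c.J, ∑ i, if c.tri q i = l then f q (c.tri q i) else 0 := by
    intro l _
    have h2 : c.on l = c.J.filter fun q => ∃ i, c.tri q i = l := by
      unfold Cfg.on
      ext q; simp only [Finset.mem_filter]
    rw [h2, Finset.sum_filter]
    refine Finset.sum_congr rfl fun q hq => ?_
    by_cases h : ∃ i, c.tri q i = l
    · rw [if_pos h]
      obtain ⟨i, hi⟩ := h
      rw [Finset.sum_eq_single i]
      · rw [if_pos hi, hi]
      · intro j _ hj
        rw [if_neg]
        intro h3
        exact hj (tri_inj c hq (h3.trans hi.symm))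
      · intro h3; exact absurd (Finset.mem_univ i) h3
    · rw [if_neg h]
      symm
      apply Finset.sum_eq_zero
      intro i _
      rw [if_neg]
      intro h3; exact h ⟨i, h3⟩
  rw [Finset.sum_congr rfl h1, Finset.sum_comm]
  refine Finset.sum_congr rfl fun q hq => ?_
  rw [Finset.sum_comm]
  refine Finset.sum_congr rfl fun i _ => ?_
  rw [Finset.sum_ite_eq, if_pos (c.tri_mem q hq i)]

/-- factorisation into irreducible polynomials -/
theorem exists_factor {G : P3} (hG : G ≠ 0) : ∃ (S : Finset P3) (e : P3 → ℕ),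
    (∀ p ∈ S, Irreducible p) ∧ (∀ p ∈ S, ∀ p' ∈ S, Associated p p' → p = p') ∧
    (∀ p ∈ S, 1 ≤ e p) ∧ Associated (∏ p ∈ S, p ^ e p) G := by
  classical
  obtain ⟨inst⟩ : Nonempty (StrongNormalizationMonoid P3) := inferInstance
  let _ := inst
  refine ⟨(UniqueFactorizationMonoid.normalizedFactors G).toFinset,
    fun p => (UniqueFactorizationMonoid.normalizedFactors G).count p, ?_, ?_, ?_, ?_⟩
  · intro p hp
    exact UniqueFactorizationMonoid.irreducible_of_normalized_factor p (Multiset.mem_toFinset.mp hp)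
  · intro p hp p' hp' h
    exact UniqueFactorizationMonoid.normalizedFactors_eq_of_dvd G p (Multiset.mem_toFinset.mp hp)
      p' (Multiset.mem_toFinset.mp hp') h.dvd
  · intro p hp
    exact Multiset.one_le_count_iff_mem.mpr (Multiset.mem_toFinset.mp hp)
  · rw [← Finset.prod_multiset_count]
    exact UniqueFactorizationMonoid.prod_normalizedFactors hG

theorem totalDegree_prod' {ι : Type*} (s : Finset ι) (f : ι → P3) (h : ∀ i ∈ s, f i ≠ 0) :
    (∏ i ∈ s, f i).totalDegree = ∑ i ∈ s, (f i).totalDegree := by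
  classical
  induction s using Finset.induction_on with
  | empty => simp
  | insert a s ha ih =>
    rw [Finset.prod_insert ha, Finset.sum_insert ha, totalDegree_mul_of_isDomain
      (h a (Finset.mem_insert_self _ _))
      (Finset.prod_ne_zero_iff.mpr fun i hi => h i (Finset.mem_insert_of_mem hi)),
      ih fun i hi => h i (Finset.mem_insert_of_mem hi)]

theorem totalDegree_pow' {f : P3} (hf : f ≠ 0) (n : ℕ) : (f ^ n).totalDegree = n * f.totalDegree := by
  induction n with
  | zero => simp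
  | succ n ih => rw [pow_succ, totalDegree_mul_of_isDomain (pow_ne_zero _ hf) hf, ih]; ring

theorem ordL_pow (l : Ln) {f : P3} (hf : f ≠ 0) (n : ℕ) : ordL l (f ^ n) = n * ordL l f := by
  induction n with
  | zero => simp [ordL_one]
  | succ n ih => rw [pow_succ, ordL_mul l (pow_ne_zero _ hf) hf, ih]; ring

theorem ordP_pow (q : Pt) {f : P3} (hf : f ≠ 0) (n : ℕ) : ordP q (f ^ n) = n * ordP q f := by
  induction n with
  | zero => simp [ordP_one]
  | succ n ih => rw [pow_succ, ordP_mul q (pow_ne_zero _ hf) hf, ih]; ring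

theorem totalDegree_assoc {f g : P3} (hf : f ≠ 0) (h : Associated f g) :
    f.totalDegree = g.totalDegree := by
  obtain ⟨u, rfl⟩ := h
  rw [totalDegree_mul_of_isDomain hf u.ne_zero, totalDegree_isUnit u.isUnit, add_zero]

theorem ordL_assoc (l : Ln) {f g : P3} (hf : f ≠ 0) (h : Associated f g) : ordL l f = ordL l g := by
  obtain ⟨u, rfl⟩ := h
  have : ordL l (u : P3) = 0 := (isVar_I l).ordI_unit u.isUnit
  rw [ordL_mul l hf u.ne_zero, this, add_zero]

theorem ordP_assoc (q : Pt) {f g : P3} (hf : f ≠ 0) (h : Associated f g) : ordP q f = ordP q g := by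
  obtain ⟨u, rfl⟩ := h
  have : ordP q (u : P3) = 0 := (isVar_mI q).ordI_unit u.isUnit
  rw [ordP_mul q hf u.ne_zero, this, add_zero]

section factor

variable {G : P3} {S : Finset P3} {e : P3 → ℕ} (hirr : ∀ p ∈ S, Irreducible p)
  (hass : Associated (∏ p ∈ S, p ^ e p) G)

include hirr

theorem prod_ne : ∏ p ∈ S, p ^ e p ≠ 0 :=
  Finset.prod_ne_zero_iff.mpr fun p hp => pow_ne_zero _ (hirr p hp).ne_zero

include hass

theorem fac_totalDegree : G.totalDegree = ∑ p ∈ S, e p * p.totalDegree := by
  rw [← totalDegree_assoc (prod_ne hirr) hass, totalDegree_prod' _ _ fun p hp =>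
    pow_ne_zero _ (hirr p hp).ne_zero]
  exact Finset.sum_congr rfl fun p hp => totalDegree_pow' (hirr p hp).ne_zero _

theorem fac_ordL (l : Ln) : ordL l G = ∑ p ∈ S, e p * ordL l p := by
  rw [← ordL_assoc l (prod_ne hirr) hass, ordL_prod _ _ _ fun p hp =>
    pow_ne_zero _ (hirr p hp).ne_zero]
  exact Finset.sum_congr rfl fun p hp => ordL_pow l (hirr p hp).ne_zero _

theorem fac_ordP (q : Pt) : ordP q G = ∑ p ∈ S, e p * ordP q p := by
  rw [← ordP_assoc q (prod_ne hirr) hass, ordP_prod _ _ _ fun p hp =>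
    pow_ne_zero _ (hirr p hp).ne_zero]
  exact Finset.sum_congr rfl fun p hp => ordP_pow q (hirr p hp).ne_zero _

end factor

/-- Bezout for two polynomials along lines -/
theorem bez_one (hB : Bezout) {p p' : P3} (hp : Irreducible p) (h : ¬ p ∣ p')
    (T : Finset Ln) : ∑ l ∈ T, ordL l p * ordL l p' ≤ p.totalDegree * p'.totalDegree := by
  have hp' : p' ≠ 0 := by rintro rfl; exact h (dvd_zero _)
  refine hB p p' hp h T (fun l => ordL l p) (fun l => ordL l p') ?_ ?_
  · intro l _
    exact (mem_I_pow_iff l hp.ne_zero _).mpr le_rfl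
  · intro l _
    refine ⟨1, one_ne_zero, ?_⟩
    rw [map_one, one_mul]
    exact Ideal.mem_sup_right ((mem_I_pow_iff l hp' _).mpr le_rfl)

/-- Bezout for a polynomial and its derivative along lines -/
theorem bez_two (hB : Bezout) {p : P3} (hp : Irreducible p)
    (T : Finset Ln) : ∑ l ∈ T, ordL l p * (ordL l p - 1) ≤ p.totalDegree * (p.totalDegree - 1) := by
  obtain ⟨k, hk⟩ := exists_pderiv_not_dvd hp
  refine (hB p (pderiv k p) hp hk T (fun l => ordL l p) (fun l => ordL l p - 1) ?_ ?_).trans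
    (Nat.mul_le_mul_left _ (totalDegree_pderiv_le k p))
  · intro l _
    exact (mem_I_pow_iff l hp.ne_zero _).mpr le_rfl
  · intro l _
    refine ⟨1, one_ne_zero, ?_⟩
    rw [map_one, one_mul]
    apply Ideal.mem_sup_right
    by_cases h0 : ordL l p = 0
    · rw [h0]; simp
    · apply pderiv_mem_pow
      rw [show ordL l p - 1 + 1 = ordL l p by omega]
      exact (mem_I_pow_iff l hp.ne_zero _).mpr le_rfl

/-- the second moment bound -/
theorem second_moment (hB : Bezout) {G : P3} {S : Finset P3} {e : P3 → ℕ}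
    (hirr : ∀ p ∈ S, Irreducible p) (hne : ∀ p ∈ S, ∀ p' ∈ S, Associated p p' → p = p')
    (hass : Associated (∏ p ∈ S, p ^ e p) G) (T : Finset Ln) :
    ∑ l ∈ T, ordL l G ^ 2 ≤ G.totalDegree ^ 2 + ∑ l ∈ T, ∑ p ∈ S, e p ^ 2 * ordL l p := by
  classical
  have h1 : ∑ l ∈ T, ordL l G ^ 2 =
      ∑ p ∈ S, ∑ p' ∈ S, e p * e p' * ∑ l ∈ T, ordL l p * ordL l p' := by
    calc ∑ l ∈ T, ordL l G ^ 2 = ∑ l ∈ T, ∑ p ∈ S, ∑ p' ∈ S, e p * e p' * (ordL l p * ordL l p') := by
          refine Finset.sum_congr rfl fun l _ => ?_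
          rw [fac_ordL hirr hass, sq, Finset.sum_mul_sum]
          refine Finset.sum_congr rfl fun p _ => Finset.sum_congr rfl fun p' _ => ?_
          ring
      _ = _ := by
          rw [Finset.sum_comm]
          refine Finset.sum_congr rfl fun p _ => ?_
          rw [Finset.sum_comm]
          refine Finset.sum_congr rfl fun p' _ => ?_
          rw [Finset.mul_sum]
  have h2 : ∀ p ∈ S, ∀ p' ∈ S, e p * e p' * ∑ l ∈ T, ordL l p * ordL l p' ≤
      e p * e p' * (p.totalDegree * p'.totalDegree) +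
        if p = p' then e p ^ 2 * ∑ l ∈ T, ordL l p else 0 := by
    intro p hp p' hp'
    by_cases h : p = p'
    · subst h
      rw [if_pos rfl]
      have h3 := bez_two hB (hirr p hp) T
      have h4 : ∑ l ∈ T, ordL l p * ordL l p =
          ∑ l ∈ T, ordL l p * (ordL l p - 1) + ∑ l ∈ T, ordL l p := by
        rw [← Finset.sum_add_distrib]
        refine Finset.sum_congr rfl fun l _ => ?_
        rcases Nat.eq_zero_or_pos (ordL l p) with h0 | h0
        · simp [h0]
        · obtain ⟨n, hn⟩ := Nat.exists_eq_succ_of_ne_zero h0.ne'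
          rw [hn]; simp; ring
      rw [h4]
      have h5 : p.totalDegree * (p.totalDegree - 1) ≤ p.totalDegree * p.totalDegree :=
        Nat.mul_le_mul_left _ (Nat.sub_le _ _)
      calc e p * e p * (∑ l ∈ T, ordL l p * (ordL l p - 1) + ∑ l ∈ T, ordL l p)
          ≤ e p * e p * (p.totalDegree * p.totalDegree + ∑ l ∈ T, ordL l p) :=
            Nat.mul_le_mul_left _ (Nat.add_le_add_right (h3.trans h5) _)
        _ = _ := by ring
    · rw [if_neg h, add_zero]
      refine Nat.mul_le_mul_left _ (bez_one hB (hirr p hp) ?_ T)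
      intro hd
      exact h (hne p hp p' hp' ((hirr p hp).associated_of_dvd (hirr p' hp') hd))
  rw [h1]
  calc ∑ p ∈ S, ∑ p' ∈ S, e p * e p' * ∑ l ∈ T, ordL l p * ordL l p'
      ≤ ∑ p ∈ S, ∑ p' ∈ S, (e p * e p' * (p.totalDegree * p'.totalDegree) +
        if p = p' then e p ^ 2 * ∑ l ∈ T, ordL l p else 0) :=
        Finset.sum_le_sum fun p hp => Finset.sum_le_sum fun p' hp' => h2 p hp p' hp'
    _ = G.totalDegree ^ 2 + ∑ l ∈ T, ∑ p ∈ S, e p ^ 2 * ordL l p := by
        simp only [Finset.sum_add_distrib]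
        congr 1
        · rw [fac_totalDegree hirr hass, sq, Finset.sum_mul_sum]
          refine Finset.sum_congr rfl fun p _ => Finset.sum_congr rfl fun p' _ => ?_
          ring
        · rw [Finset.sum_comm (s := T)]
          refine Finset.sum_congr rfl fun p hp => ?_
          rw [Finset.sum_ite_eq, if_pos hp, Finset.mul_sum]

end Pool.Agent.Lib.MP_a8d5c3_co.Stab
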