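import Mathlib
import Pool.Agent.Lib.MP_a8d5c3_co.Stab.Fac
import Pool.Agent.Lib.MP_a8d5c3_co.Stab.ExistsG
import Pool.Agent.Lib.MP_a8d5c3_co.Stab.Bezout

/-!
The polynomial of high multiplicity along the lines of a near-extremal configuration.
-/

set_option autoImplicit false

namespace Pool.Agent.Lib.MP_a8d5c3_co.Stab

open MvPolynomial Matrix

/-- a polynomial of degree about `m B` with order about `2 B` along most lines and about `3 B` at most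
joints -/
structure Big (c : Cfg) (G : P3) (B η : ℝ) : Prop where
  ne : G ≠ 0
  deg : (G.totalDegree : ℝ) ≤ (1 + η) * c.m * B
  joints : ∑ q ∈ c.J, (2 * (ordP q G : ℝ) - ∑ i, (ordL (c.tri q i) G : ℝ)) ≤ η * c.m ^ 3 * B
  lines : ∑ l ∈ c.L, ((c.on l).card : ℝ) * |(ordL l G : ℝ) - 2 * B| ≤ η * c.m ^ 3 * B
  reg : ∑ l ∈ c.L, |((c.on l).card : ℝ) - c.m| ≤ η * c.m ^ 3

theorem m_sq (c : Cfg) : c.m ^ 2 = 2 * c.L.card := by
  unfold Cfg.m
  rw [Real.sq_sqrt (by positivity)]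

theorem m_nonneg (c : Cfg) : 0 ≤ c.m := Real.sqrt_nonneg _

theorem mem_on {c : Cfg} {l : Ln} {q : Pt} : q ∈ c.on l ↔ q ∈ c.J ∧ ∃ i, c.tri q i = l := by
  classical
  unfold Cfg.on; simp only [Finset.mem_filter]

theorem has_of_mem_on {c : Cfg} {l : Ln} {q : Pt} (h : q ∈ c.on l) : l.Has q := by
  obtain ⟨h1, i, hi⟩ := mem_on.mp h
  rw [← hi]; exact c.has q h1 i

/-- the line inequality summed over all lines -/
theorem sum_line (c : Cfg) {G : P3} (hG : G ≠ 0) :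
    ∑ q ∈ c.J, ∑ i, ((ordP q G : ℝ) - (ordL (c.tri q i) G : ℝ)) ≤ c.L.card * (G.totalDegree : ℝ) := by
  rw [← sum_on c (fun q l => (ordP q G : ℝ) - (ordL l G : ℝ))]
  have h : ∀ l ∈ c.L, ∑ q ∈ c.on l, ((ordP q G : ℝ) - (ordL l G : ℝ)) ≤ G.totalDegree := by
    intro l _
    have h1 := line_ineq l hG (c.on l) fun q hq => has_of_mem_on hq
    have h2 : ∑ q ∈ c.on l, ((ordP q G : ℝ) - (ordL l G : ℝ)) =
        ((∑ q ∈ c.on l, (ordP q G - ordL l G) : ℕ) : ℝ) := by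
      push_cast
      refine Finset.sum_congr rfl fun q hq => ?_
      rw [Nat.cast_sub (ordL_le_ordP (has_of_mem_on hq) hG)]
    rw [h2]
    exact_mod_cast (Nat.le_add_right _ _).trans h1
  calc _ ≤ ∑ l ∈ c.L, (G.totalDegree : ℝ) := Finset.sum_le_sum h
    _ = _ := by rw [Finset.sum_const, nsmul_eq_mul]

theorem joint_ineq' (c : Cfg) {G : P3} (hG : G ≠ 0) {q : Pt} (hq : q ∈ c.J) :
    0 ≤ 2 * (ordP q G : ℝ) - ∑ i, (ordL (c.tri q i) G : ℝ) := by
  have := joint_ineq (c.has q hq) (c.indep q hq) hG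
  have h : ((∑ i, ordL (c.tri q i) G : ℕ) : ℝ) ≤ ((2 * ordP q G : ℕ) : ℝ) := by exact_mod_cast this
  push_cast at h
  linarith

theorem est_main {m B r ε ε1 η A Bs K : ℝ} (hm0 : 0 ≤ m) (hB0 : 1 ≤ B) (hr0 : 1 ≤ r)
    (hε0 : 0 ≤ ε) (hη0 : 0 ≤ η) (hK : K = 2 * B + 1 - r)
    (h1 : 3 * A + Bs ≤ m ^ 2 * ((1 + ε1) * m * B + 1) - K * ((1 - ε) * m ^ 3 / 2))
    (hm : 1 ≤ m * (η / 4)) (hε1 : ε ≤ 1) :
    3 * A + Bs ≤ m ^ 3 * B * (ε1 + ε + r / B / 2 + η / 4) := by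
  have hm3 : 0 ≤ m ^ 3 := by positivity
  have hrB2 : m ^ 3 * B * (r / B / 2) = m ^ 3 * r / 2 := by
    field_simp
  have h2 : K * ((1 - ε) * m ^ 3 / 2) ≥ m ^ 3 * B - m ^ 3 * B * ε - m ^ 3 * r / 2 := by
    have h3 : 0 ≤ m ^ 3 * (1 - ε + ε * r) := by
      apply mul_nonneg hm3
      have : 0 ≤ ε * r := mul_nonneg hε0 (by linarith)
      linarith
    rw [hK]
    linear_combination h3 / 2
  have h4 : m ^ 2 * 1 ≤ m ^ 3 * B * (η / 4) := by
    calc m ^ 2 * 1 ≤ m ^ 2 * (m * (η / 4)) := mul_le_mul_of_nonneg_left hm (by positivity)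
      _ = m ^ 3 * (η / 4) * 1 := by ring
      _ ≤ m ^ 3 * (η / 4) * B := mul_le_mul_of_nonneg_left hB0 (by positivity)
      _ = _ := by ring
  linear_combination h1 + h2 + h4 - hrB2

/-- the basic estimates -/
theorem big_of {c : Cfg} {G : P3} {B r : ℕ} {η ε ε1 : ℝ} (hG : G ≠ 0) (hB : 1 ≤ B) (hr1 : 1 ≤ r)
    (hrB : r ≤ 2 * B + 1) (hε0 : 0 ≤ ε) (hε1 : ε ≤ 1)
    (hD : (G.totalDegree : ℝ) ≤ (1 + ε1) * c.m * B + 1)
    (hk : ∀ l ∈ c.L, G ∈ l.I ^ (2 * B + 1 - r)) (hJ1 : (1 - ε) * c.m ^ 3 / 6 ≤ c.J.card)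
    (hJ2 : (c.J.card : ℝ) ≤ c.m ^ 3 / 6) (hη : ε1 + ε + r / B ≤ 3 / 4 * η) (hm : 1 ≤ c.m * (η / 4))
    (hreg : ∑ l ∈ c.L, |((c.on l).card : ℝ) - c.m| ≤ η * c.m ^ 3) : Big c G B η := by
  have hm0 := m_nonneg c
  have hB0 : (1 : ℝ) ≤ B := by exact_mod_cast hB
  have hr0 : (1 : ℝ) ≤ r := by exact_mod_cast hr1
  have hrB' : (r : ℝ) ≤ 2 * B + 1 := by exact_mod_cast hrB
  have hη0 : 0 < η := by
    by_contra hneg
    push Not at hneg
    have : c.m * (η / 4) ≤ 0 := mul_nonpos_of_nonneg_of_nonpos hm0 (by linarith)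
    linarith
  have hcard : (c.L.card : ℝ) = c.m ^ 2 / 2 := by rw [m_sq]; ring
  -- abbreviations
  set A := ∑ q ∈ c.J, (2 * (ordP q G : ℝ) - ∑ i, (ordL (c.tri q i) G : ℝ)) with hA
  set K : ℝ := 2 * B + 1 - r with hK
  set Bs := ∑ l ∈ c.L, ((c.on l).card : ℝ) * ((ordL l G : ℝ) - K) with hBs
  have hA0 : 0 ≤ A := Finset.sum_nonneg fun q hq => joint_ineq' c hG hq
  have hKl : ∀ l ∈ c.L, K ≤ (ordL l G : ℝ) := by
    intro l hl
    have h1 := (mem_I_pow_iff l hG _).mp (hk l hl)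
    have h2 : ((2 * B + 1 - r : ℕ) : ℝ) = K := by
      rw [Nat.cast_sub hrB]; push_cast; rfl
    rw [← h2]; exact_mod_cast h1
  have hBs0 : 0 ≤ Bs := Finset.sum_nonneg fun l hl =>
    mul_nonneg (by positivity) (sub_nonneg.mpr (hKl l hl))
  have hsum3 := sum_on_card c
  have hσ : ∑ q ∈ c.J, ∑ i, (ordL (c.tri q i) G : ℝ) = Bs + K * (3 * c.J.card) := by
    rw [← sum_on c (fun _ l => (ordL l G : ℝ)), hBs, ← hsum3, Finset.mul_sum,
      ← Finset.sum_add_distrib]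
    refine Finset.sum_congr rfl fun l _ => ?_
    rw [Finset.sum_const, nsmul_eq_mul]; ring
  have hline := sum_line c hG
  have hline' : ∑ q ∈ c.J, ∑ i, ((ordP q G : ℝ) - (ordL (c.tri q i) G : ℝ)) =
      3 / 2 * A + 1 / 2 * (Bs + K * (3 * c.J.card)) := by
    rw [← hσ, hA, Finset.mul_sum, Finset.mul_sum, ← Finset.sum_add_distrib]
    refine Finset.sum_congr rfl fun q _ => ?_
    rw [Finset.sum_sub_distrib]
    simp only [Finset.sum_const, Finset.card_univ, Fintype.card_fin, nsmul_eq_mul]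
    push_cast
    ring
  rw [hline', hcard] at hline
  have hm2 : 0 ≤ c.m ^ 2 := by positivity
  have hm3 : 0 ≤ c.m ^ 3 := by positivity
  have hDm : c.m ^ 2 / 2 * (G.totalDegree : ℝ) ≤ c.m ^ 2 / 2 * ((1 + ε1) * c.m * B + 1) :=
    mul_le_mul_of_nonneg_left hD (by positivity)
  have hK0 : 0 ≤ K := by rw [hK]; linarith
  have hKJ : K * (3 * ((1 - ε) * c.m ^ 3 / 6)) ≤ K * (3 * c.J.card) :=
    mul_le_mul_of_nonneg_left (by linarith) hK0
  -- main bound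
  have hmain : 3 * A + Bs ≤ c.m ^ 3 * B * (ε1 + ε + r / B / 2 + η / 4) :=
    est_main hm0 hB0 hr0 hε0 hη0.le hK (by linarith) hm hε1
  have hrB0 : 0 ≤ (r : ℝ) / B := by positivity
  have hmB : 0 ≤ c.m ^ 3 * B := by positivity
  refine ⟨hG, ?_, ?_, ?_, hreg⟩
  · have h4 : 1 ≤ c.m * B * (η / 4) := by
      calc (1 : ℝ) ≤ c.m * (η / 4) := hm
        _ = c.m * (η / 4) * 1 := by ring
        _ ≤ c.m * (η / 4) * B := mul_le_mul_of_nonneg_left hB0 (by positivity)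
        _ = _ := by ring
    have h5 : c.m * B * ε1 ≤ c.m * B * (3 / 4 * η) :=
      mul_le_mul_of_nonneg_left (by linarith) (by positivity)
    linear_combination hD + h5 + h4
  · have h5 : c.m ^ 3 * B * (ε1 + ε + r / B / 2 + η / 4) ≤ c.m ^ 3 * B * η :=
      mul_le_mul_of_nonneg_left (by linarith) hmB
    linarith
  · have h6 : ∑ l ∈ c.L, ((c.on l).card : ℝ) * |(ordL l G : ℝ) - 2 * B| ≤
        Bs + (r - 1) * (3 * c.J.card) := by
      rw [hBs, ← hsum3, Finset.mul_sum, ← Finset.sum_add_distrib]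
      refine Finset.sum_le_sum fun l hl => ?_
      have h7 : |(ordL l G : ℝ) - 2 * B| ≤ ((ordL l G : ℝ) - K) + (r - 1) := by
        have := hKl l hl
        rw [hK] at this ⊢
        rw [abs_le]; constructor <;> linarith
      calc ((c.on l).card : ℝ) * |(ordL l G : ℝ) - 2 * B| ≤
          (c.on l).card * (((ordL l G : ℝ) - K) + (r - 1)) :=
            mul_le_mul_of_nonneg_left h7 (by positivity)
        _ = _ := by ring
    have h8 : (r - 1) * (3 * (c.J.card : ℝ)) ≤ c.m ^ 3 * B * (r / B / 2) := by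
      have hrB2 : c.m ^ 3 * B * (r / B / 2) = c.m ^ 3 * r / 2 := by
        field_simp
      rw [hrB2]
      have : (r - 1) * (3 * (c.J.card : ℝ)) ≤ (r - 1) * (3 * (c.m ^ 3 / 6)) :=
        mul_le_mul_of_nonneg_left (by linarith) (by linarith)
      linear_combination this + hm3 / 2
    have h9 : c.m ^ 3 * B * (ε1 + ε + r / B / 2 + η / 4) + c.m ^ 3 * B * (r / B / 2) ≤
        c.m ^ 3 * B * η := by
      rw [← mul_add]
      exact mul_le_mul_of_nonneg_left (by linarith) hmB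
    linarith

theorem joints_upper (hJL : JointsLe) (c : Cfg) : (c.J.card : ℝ) ≤ c.m ^ 3 / 6 := by
  have h1 := hJL c
  have hm0 := m_nonneg c
  have h2 : (c.L.card : ℝ) = c.m ^ 2 / 2 := by rw [m_sq]; ring
  rw [h2] at h1
  have h3 : (c.J.card : ℝ) ^ 2 ≤ (c.m ^ 3 / 6) ^ 2 := by nlinarith
  exact (pow_le_pow_iff_left₀ (by positivity) (by positivity) two_ne_zero).mp h3

theorem joints_lower {c : Cfg} {ε : ℝ} (hε0 : 0 ≤ ε) (hε1 : ε ≤ 1)
    (h : 2 * (1 - ε) * (c.L.card : ℝ) ^ 3 ≤ 9 * (c.J.card : ℝ) ^ 2) :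
    (1 - ε) * c.m ^ 3 / 6 ≤ c.J.card := by
  have hm0 := m_nonneg c
  have h2 : (c.L.card : ℝ) = c.m ^ 2 / 2 := by rw [m_sq]; ring
  rw [h2] at h
  have h4 : 0 ≤ (1 - ε) * ε * (c.m ^ 3) ^ 2 := by
    apply mul_nonneg (mul_nonneg (by linarith) hε0) (by positivity)
  have h3 : ((1 - ε) * c.m ^ 3 / 6) ^ 2 ≤ (c.J.card : ℝ) ^ 2 := by nlinarith
  have h5 : 0 ≤ (1 - ε) * c.m ^ 3 / 6 := by
    apply div_nonneg _ (by norm_num)
    exact mul_nonneg (by linarith) (by positivity)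
  exact (pow_le_pow_iff_left₀ h5 (by positivity) two_ne_zero).mp h3

theorem exists_big (hJL : JointsLe) (hReg : Regularity) (hEG : ExistsG) {η : ℝ} (hη : 0 < η) :
    ∃ B : ℝ, 1 ≤ B ∧ ∃ ε : ℝ, 0 < ε ∧ ∃ N0 : ℕ, ∀ c : Cfg, N0 ≤ c.L.card →
      2 * (1 - ε) * (c.L.card : ℝ) ^ 3 ≤ 9 * (c.J.card : ℝ) ^ 2 → ∃ G : P3, Big c G B η := by
  obtain ⟨k0, hk0⟩ := exists_nat_ge (12 / η)
  set k : ℕ := max 3 k0 with hk
  have hk3 : 3 ≤ k := le_max_left _ _
  have hkη : 12 / η ≤ k := hk0.trans (by exact_mod_cast le_max_right _ _)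
  have hk3' : (3 : ℝ) ≤ k := by exact_mod_cast hk3
  set B : ℕ := k ^ 2 with hB
  set r : ℕ := 2 * k + 1 with hr
  have hB1 : 1 ≤ B := Nat.one_le_pow _ _ (by omega)
  have hrB : r ≤ B := by rw [hr, hB]; nlinarith
  have hB1' : (1 : ℝ) ≤ B := by exact_mod_cast hB1
  set ε1 : ℝ := min (η / 8) (1 / (2 * B)) with hε1
  have hε10 : 0 < ε1 := lt_min (by positivity) (by positivity)
  have hε1B : ε1 * B ≤ 1 / 2 := by
    calc ε1 * B ≤ 1 / (2 * B) * B := mul_le_mul_of_nonneg_right (min_le_right _ _) (by positivity)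
      _ = 1 / 2 := by field_simp
  obtain ⟨ε', hε'0, N1, hN1⟩ := hEG B r ε1 hB1 hε10 hε1B hrB (by rw [hr, hB]; nlinarith)
  set s : ℝ := min (min ε' η / 4) (1 / 2) with hs
  have hs0 : 0 < s := lt_min (by positivity) (by norm_num)
  set ε : ℝ := min (η / 8) (s ^ 2) with hε
  have hε0 : 0 < ε := lt_min (by positivity) (by positivity)
  have hs12 : s ≤ 1 / 2 := min_le_right _ _
  have hε12 : ε ≤ 1 / 2 := (min_le_right _ _).trans (by nlinarith)
  obtain ⟨N2, hN2⟩ := exists_nat_ge (8 / η ^ 2)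
  refine ⟨B, hB1', ε, hε0, max N1 N2, fun c hc hnear => ?_⟩
  have hm0 := m_nonneg c
  have hreg := hReg c ε hε0.le hε12 hnear
  have hsq : √ε ≤ s := by
    rw [show s = √(s ^ 2) from (Real.sqrt_sq hs0.le).symm]
    exact Real.sqrt_le_sqrt (min_le_right _ _)
  have hreg2 : ∑ l ∈ c.L, |((c.on l).card : ℝ) - c.m| ≤ 4 * s * c.m ^ 3 := by
    calc _ ≤ 8 * √ε * c.L.card * c.m := hreg
      _ = 4 * √ε * c.m ^ 3 := by
        have h2 : (c.L.card : ℝ) = c.m ^ 2 / 2 := by rw [m_sq]; ring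
        rw [h2]; ring
      _ ≤ 4 * s * c.m ^ 3 := by
        apply mul_le_mul_of_nonneg_right _ (by positivity); linarith
  have h4s : 4 * s ≤ min ε' η := by
    have : s ≤ min ε' η / 4 := min_le_left _ _
    linarith
  have hreg3 : ∑ l ∈ c.L, |((c.on l).card : ℝ) - c.m| ≤ ε' * c.m ^ 3 :=
    hreg2.trans (mul_le_mul_of_nonneg_right (h4s.trans (min_le_left _ _)) (by positivity))
  have hreg4 : ∑ l ∈ c.L, |((c.on l).card : ℝ) - c.m| ≤ η * c.m ^ 3 :=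
    hreg2.trans (mul_le_mul_of_nonneg_right (h4s.trans (min_le_right _ _)) (by positivity))
  obtain ⟨G, hG, hD, hGl⟩ := hN1 c ((le_max_left _ _).trans hc) hreg3
  have hmη : 1 ≤ c.m * (η / 4) := by
    have h1 : (8 : ℝ) / η ^ 2 ≤ c.L.card := hN2.trans (by exact_mod_cast (le_max_right _ _).trans hc)
    have h2 : (1 : ℝ) ^ 2 ≤ (c.m * (η / 4)) ^ 2 := by
      rw [mul_pow, m_sq]
      rw [div_le_iff₀ (by positivity)] at h1
      nlinarith
    exact (pow_le_pow_iff_left₀ (by norm_num) (by positivity) two_ne_zero).mp h2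
  refine ⟨G, big_of hG hB1 (by omega) (by omega) hε0.le (by linarith) hD hGl
    (joints_lower hε0.le (by linarith) hnear) (joints_upper hJL c) ?_ hmη hreg4⟩
  have h1 : ε1 ≤ η / 8 := min_le_left _ _
  have h2 : ε ≤ η / 8 := min_le_left _ _
  have h3 : (r : ℝ) / B ≤ η / 4 := by
    have hk0' : (0 : ℝ) < k := by linarith
    have h4 : (r : ℝ) / B ≤ 3 / k := by
      rw [hr, hB]; push_cast
      rw [div_le_div_iff₀ (by positivity) hk0']
      nlinarith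
    refine h4.trans ?_
    rw [div_le_div_iff₀ hk0' (by norm_num)]
    rw [div_le_iff₀ hη] at hkη
    linarith
  linarith

end Pool.Agent.Lib.MP_a8d5c3_co.Stab
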