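import Mathlib
import Pool.Agent.Lib.MP_a8d5c3_co.Stab.Big

/-!
The lines of a near-extremal configuration are double lines of a reduced surface of degree about
`m`, and most joints are triple points (T4).
-/

set_option autoImplicit false

namespace Pool.Agent.Lib.MP_a8d5c3_co.Stab

open MvPolynomial Matrix

open Classical in
/-- joints with bad numerical data -/
noncomputable def unt (c : Cfg) (G : P3) (B δ : ℝ) : Finset Pt := c.J.filter fun q =>
  ¬ (2 * (ordP q G : ℝ) - ∑ i, (ordL (c.tri q i) G : ℝ) ≤ δ * B ∧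
    ∀ i, |(ordL (c.tri q i) G : ℝ) - 2 * B| ≤ δ * B)

theorem mem_unt {c : Cfg} {G : P3} {B δ : ℝ} {q : Pt} : q ∈ unt c G B δ ↔ q ∈ c.J ∧
    ¬ (2 * (ordP q G : ℝ) - ∑ i, (ordL (c.tri q i) G : ℝ) ≤ δ * B ∧
    ∀ i, |(ordL (c.tri q i) G : ℝ) - 2 * B| ≤ δ * B) := by
  classical
  unfold unt; simp only [Finset.mem_filter]

theorem sum_on_line (c : Cfg) (g : Ln → ℝ) :
    ∑ q ∈ c.J, ∑ i, g (c.tri q i) = ∑ l ∈ c.L, ((c.on l).card : ℝ) * g l := by
  rw [← sum_on c (fun _ l => g l)]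
  refine Finset.sum_congr rfl fun l _ => ?_
  rw [Finset.sum_const, nsmul_eq_mul]

theorem card_unt {c : Cfg} {G : P3} {B η δ : ℝ} (h : Big c G B η) (hB : 0 < B) :
    ((unt c G B δ).card : ℝ) * δ ≤ 2 * η * c.m ^ 3 := by
  have h1 : ∀ q ∈ c.J, 0 ≤ (2 * (ordP q G : ℝ) - ∑ i, (ordL (c.tri q i) G : ℝ)) +
      ∑ i, |(ordL (c.tri q i) G : ℝ) - 2 * B| := fun q hq =>
    add_nonneg (joint_ineq' c h.ne hq) (Finset.sum_nonneg fun i _ => abs_nonneg _)
  have h2 : ∀ q ∈ unt c G B δ, δ * B ≤ (2 * (ordP q G : ℝ) - ∑ i, (ordL (c.tri q i) G : ℝ)) +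
      ∑ i, |(ordL (c.tri q i) G : ℝ) - 2 * B| := by
    intro q hq
    obtain ⟨hqJ, hq2⟩ := mem_unt.mp hq
    have a1 := joint_ineq' c h.ne hqJ
    have a2 : 0 ≤ ∑ i, |(ordL (c.tri q i) G : ℝ) - 2 * B| := Finset.sum_nonneg fun i _ => abs_nonneg _
    by_cases h3 : 2 * (ordP q G : ℝ) - ∑ i, (ordL (c.tri q i) G : ℝ) ≤ δ * B
    · have h4 : ¬ ∀ i, |(ordL (c.tri q i) G : ℝ) - 2 * B| ≤ δ * B := fun h5 => hq2 ⟨h3, h5⟩
      push Not at h4
      obtain ⟨i, hi⟩ := h4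
      have h5 : |(ordL (c.tri q i) G : ℝ) - 2 * B| ≤ ∑ i, |(ordL (c.tri q i) G : ℝ) - 2 * B| :=
        Finset.single_le_sum (f := fun i => |(ordL (c.tri q i) G : ℝ) - 2 * B|)
          (fun i _ => abs_nonneg _) (Finset.mem_univ i)
      linarith
    · push Not at h3
      linarith
  have h3 : ((unt c G B δ).card : ℝ) * (δ * B) ≤ ∑ q ∈ c.J,
      ((2 * (ordP q G : ℝ) - ∑ i, (ordL (c.tri q i) G : ℝ)) +
      ∑ i, |(ordL (c.tri q i) G : ℝ) - 2 * B|) := by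
    calc ((unt c G B δ).card : ℝ) * (δ * B) = ∑ q ∈ unt c G B δ, δ * B := by
          rw [Finset.sum_const, nsmul_eq_mul]
      _ ≤ _ := Finset.sum_le_sum h2
      _ ≤ _ := Finset.sum_le_sum_of_subset_of_nonneg
          (fun q hq => (mem_unt.mp hq).1) fun q hq _ => h1 q hq
  rw [Finset.sum_add_distrib, sum_on_line c (fun l => |(ordL l G : ℝ) - 2 * B|)] at h3
  have h4 : ((unt c G B δ).card : ℝ) * δ * B ≤ 2 * η * c.m ^ 3 * B := by
    have := h.joints
    have := h.lines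
    linarith
  exact le_of_mul_le_mul_right h4 hB

open Classical in
/-- lines with a good joint -/
noncomputable def T1 (c : Cfg) (G : P3) (B δ : ℝ) : Finset Ln :=
  c.L.filter fun l => ∃ q ∈ c.on l, q ∉ unt c G B δ

theorem mem_T1 {c : Cfg} {G : P3} {B δ : ℝ} {l : Ln} :
    l ∈ T1 c G B δ ↔ l ∈ c.L ∧ ∃ q ∈ c.on l, q ∉ unt c G B δ := by
  classical
  unfold T1; simp only [Finset.mem_filter]

open Classical in
theorem card_sdiff_T1 {c : Cfg} {G : P3} {B η δ : ℝ} (h : Big c G B η) (hB : 0 < B) (hδ : 0 < δ)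
    (hm : 0 < c.m) : ((c.L \ T1 c G B δ).card : ℝ) * δ ≤ (6 * η + η * δ) * c.m ^ 2 := by
  have h1 : ∑ l ∈ c.L \ T1 c G B δ, ((c.on l).card : ℝ) ≤ 3 * (unt c G B δ).card := by
    have h2 : ∀ l ∈ c.L \ T1 c G B δ, ((c.on l).card : ℝ) =
        ∑ q ∈ c.on l, if q ∈ unt c G B δ then (1 : ℝ) else 0 := by
      intro l hl
      rw [Finset.mem_sdiff, mem_T1] at hl
      have h3 : ∀ q ∈ c.on l, q ∈ unt c G B δ := by
        intro q hq; by_contra hh; exact hl.2 ⟨hl.1, q, hq, hh⟩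
      rw [Finset.sum_congr rfl fun q hq => if_pos (h3 q hq)]
      simp
    rw [Finset.sum_congr rfl h2]
    refine (Finset.sum_le_sum_of_subset_of_nonneg Finset.sdiff_subset fun l _ _ =>
      Finset.sum_nonneg fun q _ => by split_ifs <;> norm_num).trans ?_
    rw [sum_on c (fun q _ => if q ∈ unt c G B δ then (1 : ℝ) else 0)]
    have h4 : ∀ q ∈ c.J, ∑ _i : Fin 3, (if q ∈ unt c G B δ then (1 : ℝ) else 0) =
        if q ∈ unt c G B δ then 3 else 0 := by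
      intro q _; split_ifs <;> simp
    rw [Finset.sum_congr rfl h4, ← Finset.sum_filter]
    rw [Finset.sum_const, nsmul_eq_mul, mul_comm]
    refine mul_le_mul_of_nonneg_left ?_ (by norm_num)
    exact_mod_cast Finset.card_le_card fun q hq => (Finset.mem_filter.mp hq).2
  have h5 : ((c.L \ T1 c G B δ).card : ℝ) * c.m ≤ 3 * (unt c G B δ).card + η * c.m ^ 3 := by
    calc ((c.L \ T1 c G B δ).card : ℝ) * c.m = ∑ l ∈ c.L \ T1 c G B δ, c.m := by
          rw [Finset.sum_const, nsmul_eq_mul]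
      _ ≤ ∑ l ∈ c.L \ T1 c G B δ, (((c.on l).card : ℝ) + |((c.on l).card : ℝ) - c.m|) := by
          refine Finset.sum_le_sum fun l _ => ?_
          have := neg_abs_le (((c.on l).card : ℝ) - c.m)
          linarith
      _ = ∑ l ∈ c.L \ T1 c G B δ, ((c.on l).card : ℝ) +
          ∑ l ∈ c.L \ T1 c G B δ, |((c.on l).card : ℝ) - c.m| := Finset.sum_add_distrib
      _ ≤ _ := add_le_add h1 ((Finset.sum_le_sum_of_subset_of_nonneg Finset.sdiff_subset
          fun l _ _ => abs_nonneg _).trans h.reg)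
  have h6 := card_unt (δ := δ) h hB
  have h7 : ((c.L \ T1 c G B δ).card : ℝ) * δ * c.m ≤ (6 * η + η * δ) * c.m ^ 2 * c.m := by
    calc ((c.L \ T1 c G B δ).card : ℝ) * δ * c.m = ((c.L \ T1 c G B δ).card : ℝ) * c.m * δ := by ring
      _ ≤ (3 * (unt c G B δ).card + η * c.m ^ 3) * δ := mul_le_mul_of_nonneg_right h5 hδ.le
      _ = 3 * ((unt c G B δ).card * δ) + η * δ * c.m ^ 3 := by ring
      _ ≤ 3 * (2 * η * c.m ^ 3) + η * δ * c.m ^ 3 := by linarith
      _ = _ := by ring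
  exact le_of_mul_le_mul_right h7 hm

section weights

variable {c : Cfg} {G : P3} {B η δ : ℝ} {S : Finset P3} {e : P3 → ℕ}

/-- at a good joint the weights of the components are at most about one -/
theorem weight_le (hirr : ∀ p ∈ S, Irreducible p)
    (hass : Associated (∏ p ∈ S, p ^ e p) G) {q : Pt} (hq : q ∈ c.J) (hqU : q ∉ unt c G B δ)
    (hB : 0 < B) {p : P3} (hp : p ∈ S) {i : Fin 3}
    (hi : 1 ≤ ordL (c.tri q i) p) : (e p : ℝ) ≤ (1 + 2 * δ) * B := by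
  rw [mem_unt] at hqU
  push Not at hqU
  have hq2 : 2 * (ordP q G : ℝ) - ∑ i, (ordL (c.tri q i) G : ℝ) ≤ δ * B ∧
    ∀ i, |(ordL (c.tri q i) G : ℝ) - 2 * B| ≤ δ * B := by
    by_contra hcon
    have := hqU hq
    apply hcon
    by_cases h1 : 2 * (ordP q G : ℝ) - ∑ i, (ordL (c.tri q i) G : ℝ) ≤ δ * B
    · refine ⟨h1, fun j => ?_⟩
      by_contra h2
      push Not at h2
      exact absurd (this) (by simp_all)
    · exact absurd this (by simp_all)
  obtain ⟨h1, h2⟩ := hq2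
  by_cases hsmall : (e p : ℝ) ≤ δ * B
  · have := Nat.cast_nonneg (α := ℝ) (e p)
    nlinarith
  push Not at hsmall
  have hP := fac_ordP hirr hass q
  have hL := fun l => fac_ordL hirr hass l
  -- exactness of p
  have hnn : ∀ p' ∈ S, 0 ≤ 2 * (ordP q p' : ℝ) - ∑ i, (ordL (c.tri q i) p' : ℝ) := fun p' hp' =>
    joint_ineq' c (hirr p' hp').ne_zero hq
  have hsum : 2 * (ordP q G : ℝ) - ∑ i, (ordL (c.tri q i) G : ℝ) =
      ∑ p' ∈ S, (e p' : ℝ) * (2 * (ordP q p' : ℝ) - ∑ i, (ordL (c.tri q i) p' : ℝ)) := by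
    rw [hP]
    simp only [hL]
    push_cast
    rw [Finset.sum_comm, Finset.mul_sum, ← Finset.sum_sub_distrib]
    refine Finset.sum_congr rfl fun p' _ => ?_
    rw [← Finset.mul_sum]; ring
  have hexact : ∑ i, ordL (c.tri q i) p = 2 * ordP q p := by
    have h3 : (e p : ℝ) * (2 * (ordP q p : ℝ) - ∑ i, (ordL (c.tri q i) p : ℝ)) ≤ δ * B := by
      refine le_trans ?_ (hsum ▸ h1)
      exact Finset.single_le_sum (f := fun p' => (e p' : ℝ) *
        (2 * (ordP q p' : ℝ) - ∑ i, (ordL (c.tri q i) p' : ℝ)))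
        (fun p' hp' => mul_nonneg (Nat.cast_nonneg _) (hnn p' hp')) hp
    have h4 := joint_ineq (c.has q hq) (c.indep q hq) (hirr p hp).ne_zero
    by_contra hne
    have h5 : ∑ i, ordL (c.tri q i) p + 1 ≤ 2 * ordP q p := by omega
    have h6 : (1 : ℝ) ≤ 2 * (ordP q p : ℝ) - ∑ i, (ordL (c.tri q i) p : ℝ) := by
      have : ((∑ i, ordL (c.tri q i) p + 1 : ℕ) : ℝ) ≤ ((2 * ordP q p : ℕ) : ℝ) := by
        exact_mod_cast h5
      push_cast at this
      linarith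
    have h7 : (e p : ℝ) * 1 ≤ (e p : ℝ) * (2 * (ordP q p : ℝ) - ∑ i, (ordL (c.tri q i) p : ℝ)) :=
      mul_le_mul_of_nonneg_left h6 (Nat.cast_nonneg _)
    linarith
  -- there is a line with smaller order
  have hle : ∀ j, ordL (c.tri q j) p ≤ ordP q p := fun j =>
    ordL_le_ordP (c.has q hq j) (hirr p hp).ne_zero
  obtain ⟨j, hj⟩ : ∃ j, ordL (c.tri q j) p + 1 ≤ ordP q p := by
    by_contra hcon
    push Not at hcon
    have h8 := hcon 0
    have h9 := hcon 1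
    have h10 := hcon 2
    have := hle i
    rw [Fin.sum_univ_three] at hexact
    omega
  have h11 : (e p : ℝ) ≤ (ordP q G : ℝ) - ordL (c.tri q j) G := by
    rw [hP, hL]
    push_cast
    rw [← Finset.sum_sub_distrib]
    have h12 : ∀ p' ∈ S, 0 ≤ (e p' : ℝ) * ordP q p' - e p' * ordL (c.tri q j) p' := by
      intro p' hp'
      rw [← mul_sub]
      apply mul_nonneg (Nat.cast_nonneg _)
      rw [sub_nonneg]
      exact_mod_cast ordL_le_ordP (c.has q hq j) (hirr p' hp').ne_zero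
    refine le_trans ?_ (Finset.single_le_sum h12 hp)
    rw [← mul_sub]
    have h13 : (1 : ℝ) ≤ (ordP q p : ℝ) - ordL (c.tri q j) p := by
      have : ((ordL (c.tri q j) p + 1 : ℕ) : ℝ) ≤ (ordP q p : ℕ) := by exact_mod_cast hj
      push_cast at this
      linarith
    nlinarith [Nat.cast_nonneg (α := ℝ) (e p)]
  rw [Fin.sum_univ_three] at h1
  have k0 := abs_le.mp (h2 0)
  have k1 := abs_le.mp (h2 1)
  have k2 := abs_le.mp (h2 2)
  fin_cases j
  · simp only [Fin.zero_eta] at h11; linarith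
  · simp only [Fin.mk_one] at h11; linarith
  · simp only [Fin.reduceFinMk] at h11; linarith

theorem good_joint {q : Pt} (hq : q ∈ c.J) (hqU : q ∉ unt c G B δ) :
    2 * (ordP q G : ℝ) - ∑ i, (ordL (c.tri q i) G : ℝ) ≤ δ * B ∧
    ∀ i, |(ordL (c.tri q i) G : ℝ) - 2 * B| ≤ δ * B := by
  by_contra h
  exact hqU (mem_unt.mpr ⟨hq, h⟩)

/-- the defect of a line -/
noncomputable def absl (S : Finset P3) (e : P3 → ℕ) (B : ℝ) (l : Ln) : ℝ :=
  ∑ p ∈ S, (e p : ℝ) * |B - e p| * ordL l p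

theorem absl_le (hirr : ∀ p ∈ S, Irreducible p) (hass : Associated (∏ p ∈ S, p ^ e p) G)
    (hB : 0 < B) (hδ : 0 ≤ δ) (hδ1 : δ ≤ 1) {l : Ln} (hl : l ∈ T1 c G B δ) :
    absl S e B l ≤ B * ordL l G - ∑ p ∈ S, (e p : ℝ) ^ 2 * ordL l p + 12 * δ * B ^ 2 ∧
    |(ordL l G : ℝ) - 2 * B| ≤ δ * B := by
  obtain ⟨hlL, q, hq, hqU⟩ := mem_T1.mp hl
  obtain ⟨hqJ, i, hi⟩ := mem_on.mp hq
  have hgood := good_joint hqJ hqU
  have hk := hgood.2 i
  rw [hi] at hk
  refine ⟨?_, hk⟩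
  have hL := fac_ordL hirr hass l
  have h1 : absl S e B l ≤ ∑ p ∈ S, (B * (e p * ordL l p) - (e p : ℝ) ^ 2 * ordL l p +
      4 * δ * B * (e p * ordL l p)) := by
    unfold absl
    refine Finset.sum_le_sum fun p hp => ?_
    by_cases h0 : ordL l p = 0
    · simp [h0]
    · have hw := weight_le hirr hass hqJ hqU hB hp (i := i) (by rw [hi]; omega)
      have h2 : |B - e p| ≤ (B - e p) + 4 * δ * B := by
        rw [abs_le]
        constructor
        · have := mul_nonneg hδ hB.le; linarith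
        · have := mul_nonneg hδ hB.le; linarith
      have h3 : (e p : ℝ) * |B - e p| * ordL l p ≤ e p * ((B - e p) + 4 * δ * B) * ordL l p := by
        apply mul_le_mul_of_nonneg_right _ (Nat.cast_nonneg _)
        exact mul_le_mul_of_nonneg_left h2 (Nat.cast_nonneg _)
      refine h3.trans (le_of_eq ?_)
      ring
  rw [Finset.sum_add_distrib, Finset.sum_sub_distrib, ← Finset.mul_sum, ← Finset.mul_sum] at h1
  have h4 : ∑ p ∈ S, ((e p : ℝ) * ordL l p) = ordL l G := by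
    rw [hL]; push_cast; rfl
  rw [h4] at h1
  have h5 : (ordL l G : ℝ) ≤ 3 * B := by
    have := (abs_le.mp hk).2
    nlinarith
  have h6 : 4 * δ * B * ordL l G ≤ 4 * δ * B * (3 * B) :=
    mul_le_mul_of_nonneg_left h5 (by positivity)
  linarith

open Classical in
theorem sum_absl_le (hBz : Bezout) (hirr : ∀ p ∈ S, Irreducible p)
    (hne : ∀ p ∈ S, ∀ p' ∈ S, Associated p p' → p = p')
    (hass : Associated (∏ p ∈ S, p ^ e p) G) (h : Big c G B η)
    (hB : 0 < B) (hδ : 0 < δ) (hδ1 : δ ≤ 1 / 10) (hη0 : 0 ≤ η) (hη : η ≤ δ ^ 2 / 50) (hm : 0 < c.m) :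
    ∑ l ∈ T1 c G B δ, absl S e B l ≤ 8 * δ * c.m ^ 2 * B ^ 2 := by
  set T := T1 c G B δ with hT
  have h1 : ∑ l ∈ T, absl S e B l ≤ ∑ l ∈ T, (-((2 - 3 * δ) * B ^ 2) + 12 * δ * B ^ 2) +
      (∑ l ∈ T, (ordL l G : ℝ) ^ 2 - ∑ l ∈ T, ∑ p ∈ S, (e p : ℝ) ^ 2 * ordL l p) := by
    rw [← Finset.sum_sub_distrib, ← Finset.sum_add_distrib]
    refine Finset.sum_le_sum fun l hl => ?_
    obtain ⟨a1, a2⟩ := absl_le hirr hass hB hδ.le (by linarith) hl
    have a3 := (abs_le.mp a2).1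
    have a4 : (2 - 3 * δ) * B ^ 2 ≤ (ordL l G : ℝ) ^ 2 - B * ordL l G := by
      have a5 : (2 - δ) * B ≤ ordL l G := by linarith
      have a6 : (1 - δ) * B ≤ ordL l G - B := by linarith
      have a7 : (2 - δ) * B * ((1 - δ) * B) ≤ ordL l G * (ordL l G - B) := by
        apply mul_le_mul a5 a6
        · apply mul_nonneg _ hB.le; linarith
        · exact Nat.cast_nonneg _
      nlinarith [mul_nonneg (sq_nonneg δ) (sq_nonneg B)]
    linarith
  have h2 : ∑ l ∈ T, (ordL l G : ℝ) ^ 2 - ∑ l ∈ T, ∑ p ∈ S, (e p : ℝ) ^ 2 * ordL l p ≤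
      (G.totalDegree : ℝ) ^ 2 := by
    have := second_moment hBz hirr hne hass T
    have h3 : ((∑ l ∈ T, ordL l G ^ 2 : ℕ) : ℝ) ≤
        ((G.totalDegree ^ 2 + ∑ l ∈ T, ∑ p ∈ S, e p ^ 2 * ordL l p : ℕ) : ℝ) := by
      exact_mod_cast this
    push_cast at h3
    linarith
  have hη1 : η ≤ 1 / 100 := by nlinarith
  have h4 : (G.totalDegree : ℝ) ^ 2 ≤ (1 + 3 * η) * c.m ^ 2 * B ^ 2 := by
    have h5 : (G.totalDegree : ℝ) ^ 2 ≤ ((1 + η) * c.m * B) ^ 2 :=
      pow_le_pow_left₀ (Nat.cast_nonneg _) h.deg 2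
    have h6 : (1 + η) ^ 2 ≤ 1 + 3 * η := by nlinarith
    calc (G.totalDegree : ℝ) ^ 2 ≤ ((1 + η) * c.m * B) ^ 2 := h5
      _ = (1 + η) ^ 2 * (c.m ^ 2 * B ^ 2) := by ring
      _ ≤ (1 + 3 * η) * (c.m ^ 2 * B ^ 2) := mul_le_mul_of_nonneg_right h6 (by positivity)
      _ = _ := by ring
  have h7 := card_sdiff_T1 h hB hδ hm
  rw [← hT] at h7
  have h8 : ((c.L \ T).card : ℝ) = c.m ^ 2 / 2 - T.card := by
    have h9 : (c.L \ T).card + T.card = c.L.card :=
      Finset.card_sdiff_add_card_eq_card (Finset.filter_subset _ _)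
    have h10 : ((c.L \ T).card : ℝ) + T.card = c.L.card := by exact_mod_cast h9
    have h11 := m_sq c
    linarith
  have h12 : ((c.L \ T).card : ℝ) ≤ δ / 7 * c.m ^ 2 := by
    have h13 : ((c.L \ T).card : ℝ) * δ ≤ δ / 7 * c.m ^ 2 * δ := by
      refine h7.trans ?_
      have h14 : 6 * η + η * δ ≤ δ ^ 2 / 7 := by nlinarith
      calc (6 * η + η * δ) * c.m ^ 2 ≤ δ ^ 2 / 7 * c.m ^ 2 :=
            mul_le_mul_of_nonneg_right h14 (by positivity)
        _ = _ := by ring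
    exact le_of_mul_le_mul_right h13 hδ
  have h15 : (T.card : ℝ) ≤ c.m ^ 2 / 2 := by
    have := Nat.cast_nonneg (α := ℝ) (c.L \ T).card
    linarith
  have h16 : (1 / 2 - δ / 7) * c.m ^ 2 ≤ T.card := by linarith
  rw [Finset.sum_const, nsmul_eq_mul] at h1
  have h17 : (T.card : ℝ) * (-((2 - 3 * δ) * B ^ 2) + 12 * δ * B ^ 2) ≤
      -((2 - 3 * δ) * ((1 / 2 - δ / 7) * c.m ^ 2) * B ^ 2) + 6 * δ * c.m ^ 2 * B ^ 2 := by
    have a1 : (2 - 3 * δ) * B ^ 2 * ((1 / 2 - δ / 7) * c.m ^ 2) ≤ (2 - 3 * δ) * B ^ 2 * T.card := by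
      apply mul_le_mul_of_nonneg_left h16
      apply mul_nonneg (by linarith) (by positivity)
    have a2 : 12 * δ * B ^ 2 * T.card ≤ 12 * δ * B ^ 2 * (c.m ^ 2 / 2) :=
      mul_le_mul_of_nonneg_left h15 (by positivity)
    linarith
  have h18 : ∑ l ∈ T, absl S e B l ≤ (-((2 - 3 * δ) * (1 / 2 - δ / 7)) + 6 * δ + (1 + 3 * η)) *
      (c.m ^ 2 * B ^ 2) := by linarith
  refine h18.trans ?_
  calc _ ≤ 8 * δ * (c.m ^ 2 * B ^ 2) := by
        apply mul_le_mul_of_nonneg_right _ (by positivity)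
        nlinarith
    _ = _ := by ring

open Classical in
/-- lines with small defect -/
noncomputable def T2 (c : Cfg) (G : P3) (B δ : ℝ) (S : Finset P3) (e : P3 → ℕ) (θ2 : ℝ) : Finset Ln :=
  (T1 c G B δ).filter fun l => absl S e B l ≤ θ2 * B ^ 2

theorem mem_T2 {θ2 : ℝ} {l : Ln} : l ∈ T2 c G B δ S e θ2 ↔ l ∈ T1 c G B δ ∧
    absl S e B l ≤ θ2 * B ^ 2 := by
  classical
  unfold T2; simp only [Finset.mem_filter]

theorem absl_nonneg (l : Ln) : 0 ≤ absl S e B l :=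
  Finset.sum_nonneg fun p _ => mul_nonneg (mul_nonneg (Nat.cast_nonneg _) (abs_nonneg _))
    (Nat.cast_nonneg _)

open Classical in
theorem card_sdiff_T2 (hBz : Bezout) (hirr : ∀ p ∈ S, Irreducible p)
    (hne : ∀ p ∈ S, ∀ p' ∈ S, Associated p p' → p = p')
    (hass : Associated (∏ p ∈ S, p ^ e p) G) (h : Big c G B η)
    (hB : 0 < B) (hδ : 0 < δ) (hδ1 : δ ≤ 1 / 10) (hη0 : 0 ≤ η) (hη : η ≤ δ ^ 2 / 50) (hm : 0 < c.m)
    {θ2 : ℝ} (hθ : 0 < θ2) (hθ1 : θ2 ≤ 1) :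
    ((c.L \ T2 c G B δ S e θ2).card : ℝ) * θ2 ≤ 9 * δ * c.m ^ 2 := by
  have h1 := sum_absl_le hBz hirr hne hass h hB hδ hδ1 hη0 hη hm
  have h7 := card_sdiff_T1 h hB hδ hm
  set T := T1 c G B δ with hT
  set T' := T2 c G B δ S e θ2 with hT'
  have h12 : ((c.L \ T).card : ℝ) ≤ δ / 7 * c.m ^ 2 := by
    have h13 : ((c.L \ T).card : ℝ) * δ ≤ δ / 7 * c.m ^ 2 * δ := by
      refine h7.trans ?_
      have h14 : 6 * η + η * δ ≤ δ ^ 2 / 7 := by nlinarith
      calc (6 * η + η * δ) * c.m ^ 2 ≤ δ ^ 2 / 7 * c.m ^ 2 :=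
            mul_le_mul_of_nonneg_right h14 (by positivity)
        _ = _ := by ring
    exact le_of_mul_le_mul_right h13 hδ
  have h2 : ((T \ T').card : ℝ) * (θ2 * B ^ 2) ≤ 8 * δ * c.m ^ 2 * B ^ 2 := by
    refine le_trans ?_ h1
    calc ((T \ T').card : ℝ) * (θ2 * B ^ 2) = ∑ l ∈ T \ T', θ2 * B ^ 2 := by
          rw [Finset.sum_const, nsmul_eq_mul]
      _ ≤ ∑ l ∈ T \ T', absl S e B l := by
          refine Finset.sum_le_sum fun l hl => ?_
          rw [Finset.mem_sdiff, hT', mem_T2] at hl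
          by_contra hcon
          push Not at hcon
          exact hl.2 ⟨hl.1, hcon.le⟩
      _ ≤ _ := Finset.sum_le_sum_of_subset_of_nonneg Finset.sdiff_subset
          fun l _ _ => absl_nonneg l
  have h3 : ((T \ T').card : ℝ) * θ2 ≤ 8 * δ * c.m ^ 2 := by
    have h4 : ((T \ T').card : ℝ) * θ2 * B ^ 2 ≤ 8 * δ * c.m ^ 2 * B ^ 2 := by linarith
    exact le_of_mul_le_mul_right h4 (by positivity)
  have h5 : ((c.L \ T').card : ℝ) ≤ (c.L \ T).card + (T \ T').card := by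
    have : (c.L \ T').card ≤ (c.L \ T ∪ T \ T').card := by
      apply Finset.card_le_card
      intro l hl
      rw [Finset.mem_sdiff] at hl
      rw [Finset.mem_union, Finset.mem_sdiff, Finset.mem_sdiff]
      by_cases hlT : l ∈ T
      · exact Or.inr ⟨hlT, hl.2⟩
      · exact Or.inl ⟨hl.1, hlT⟩
    exact_mod_cast this.trans (Finset.card_union_le _ _)
  calc ((c.L \ T').card : ℝ) * θ2 ≤ ((c.L \ T).card + (T \ T').card) * θ2 :=
        mul_le_mul_of_nonneg_right h5 hθ.le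
    _ = (c.L \ T).card * θ2 + (T \ T').card * θ2 := by ring
    _ ≤ (δ / 7 * c.m ^ 2) * 1 + 8 * δ * c.m ^ 2 := by
        apply add_le_add _ h3
        exact mul_le_mul h12 hθ1 hθ.le (by positivity)
    _ ≤ _ := by
        have : 0 ≤ δ * c.m ^ 2 := by positivity
        linarith

end weights

end Pool.Agent.Lib.MP_a8d5c3_co.Stab
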