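import Mathlib
import Pool.Agent.Lib.MP_a8d5c3_co.Stab.Surf

/-!
The lines of a near-extremal configuration are double lines of a reduced surface of degree about
`m`, and most joints are triple points (T4), second part.
-/

set_option autoImplicit false

namespace Pool.Agent.Lib.MP_a8d5c3_co.Stab

open MvPolynomial Matrix

section

variable {c : Cfg} {G : P3} {B η δ : ℝ} {S : Finset P3} {e : P3 → ℕ}

open Classical in
/-- the components of weight about one -/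
noncomputable def Sbig (S : Finset P3) (e : P3 → ℕ) (B θ : ℝ) : Finset P3 :=
  S.filter fun p => (1 - θ) * B ≤ e p

theorem mem_Sbig {θ : ℝ} {p : P3} : p ∈ Sbig S e B θ ↔ p ∈ S ∧ (1 - θ) * B ≤ e p := by
  classical
  unfold Sbig; simp only [Finset.mem_filter]

theorem ordL_Sbig (hirr : ∀ p ∈ S, Irreducible p) {θ : ℝ} (l : Ln) :
    ordL l (∏ p ∈ Sbig S e B θ, p) = ∑ p ∈ Sbig S e B θ, ordL l p :=
  ordL_prod l _ (fun p => p) fun p hp => (hirr p (mem_Sbig.mp hp).1).ne_zero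

theorem ordP_Sbig (hirr : ∀ p ∈ S, Irreducible p) {θ : ℝ} (q : Pt) :
    ordP q (∏ p ∈ Sbig S e B θ, p) = ∑ p ∈ Sbig S e B θ, ordP q p :=
  ordP_prod q _ (fun p => p) fun p hp => (hirr p (mem_Sbig.mp hp).1).ne_zero

theorem ordL_eq_two (hirr : ∀ p ∈ S, Irreducible p) (hass : Associated (∏ p ∈ S, p ^ e p) G)
    (hB : 0 < B) (hδ : 0 < δ) (hδ1 : δ ≤ 1 / 10) {θ : ℝ} (hθ0 : 0 < θ) (hθ : θ ≤ 1 / 10) {l : Ln}
    (hl : l ∈ T2 c G B δ S e (θ / 10)) : ordL l (∏ p ∈ Sbig S e B θ, p) = 2 := by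
  classical
  obtain ⟨hl1, hl2⟩ := mem_T2.mp hl
  obtain ⟨hlL, q, hq, hqU⟩ := mem_T1.mp hl1
  obtain ⟨hqJ, i, hi⟩ := mem_on.mp hq
  obtain ⟨-, hk⟩ := absl_le hirr hass hB hδ.le (by linarith) hl1
  obtain ⟨k1, k2⟩ := abs_le.mp hk
  set n := ordL l (∏ p ∈ Sbig S e B θ, p) with hn
  have hn' : (n : ℝ) = ∑ p ∈ Sbig S e B θ, (ordL l p : ℝ) := by
    rw [hn, ordL_Sbig hirr]; push_cast; rfl
  have hL : (ordL l G : ℝ) = ∑ p ∈ S, (e p : ℝ) * ordL l p := by
    rw [fac_ordL hirr hass l]; push_cast; rfl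
  have hsplit : ∑ p ∈ S, (e p : ℝ) * ordL l p = ∑ p ∈ Sbig S e B θ, (e p : ℝ) * ordL l p +
      ∑ p ∈ S.filter (fun p => ¬ (1 - θ) * B ≤ e p), (e p : ℝ) * ordL l p := by
    have : Sbig S e B θ = S.filter (fun p => (1 - θ) * B ≤ e p) := by
      ext p; rw [mem_Sbig, Finset.mem_filter]
    rw [this, Finset.sum_filter_add_sum_filter_not]
  set R := ∑ p ∈ S.filter (fun p => ¬ (1 - θ) * B ≤ e p), (e p : ℝ) * ordL l p with hR
  have hR0 : 0 ≤ R := Finset.sum_nonneg fun p _ => mul_nonneg (Nat.cast_nonneg _) (Nat.cast_nonneg _)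
  have hR1 : R * (θ * B) ≤ θ / 10 * B ^ 2 := by
    refine le_trans ?_ hl2
    rw [hR, Finset.sum_mul]
    unfold absl
    refine le_trans ?_ (Finset.sum_le_sum_of_subset_of_nonneg (Finset.filter_subset
      (fun p => ¬ (1 - θ) * B ≤ e p) S) fun p _ _ =>
      mul_nonneg (mul_nonneg (Nat.cast_nonneg _) (abs_nonneg _)) (Nat.cast_nonneg _))
    refine Finset.sum_le_sum fun p hp => ?_
    have h1 := (Finset.mem_filter.mp hp).2
    push Not at h1
    have h2 : θ * B ≤ |B - e p| := by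
      refine le_trans ?_ (le_abs_self _); linarith
    calc (e p : ℝ) * ordL l p * (θ * B) ≤ (e p : ℝ) * ordL l p * |B - e p| :=
          mul_le_mul_of_nonneg_left h2 (by positivity)
      _ = _ := by ring
  have hR2 : R ≤ B / 10 := by
    have h3 : R * (θ * B) ≤ B / 10 * (θ * B) := by
      refine hR1.trans (le_of_eq ?_); ring
    exact le_of_mul_le_mul_right h3 (by positivity)
  have hlow : (1 - θ) * B * n ≤ ∑ p ∈ Sbig S e B θ, (e p : ℝ) * ordL l p := by
    rw [hn', Finset.mul_sum]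
    refine Finset.sum_le_sum fun p hp => ?_
    exact mul_le_mul_of_nonneg_right (mem_Sbig.mp hp).2 (Nat.cast_nonneg _)
  have hupp : ∑ p ∈ Sbig S e B θ, (e p : ℝ) * ordL l p ≤ (1 + 2 * δ) * B * n := by
    rw [hn', Finset.mul_sum]
    refine Finset.sum_le_sum fun p hp => ?_
    by_cases h0 : ordL l p = 0
    · simp [h0]
    · exact mul_le_mul_of_nonneg_right (weight_le hirr hass hqJ hqU hB (mem_Sbig.mp hp).1 (i := i)
        (by rw [hi]; omega)) (Nat.cast_nonneg _)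
  have h4 : (n : ℝ) < 3 := by
    by_contra hcon
    push Not at hcon
    have h5 : (1 - θ) * B * 3 ≤ (1 - θ) * B * n := mul_le_mul_of_nonneg_left hcon
      (mul_nonneg (by linarith) hB.le)
    nlinarith
  have h5 : (1 : ℝ) < n := by
    by_contra hcon
    push Not at hcon
    have h6 : (1 + 2 * δ) * B * n ≤ (1 + 2 * δ) * B * 1 := mul_le_mul_of_nonneg_left hcon
      (by positivity)
    nlinarith
  have h6 : n < 3 := by exact_mod_cast h4
  have h7 : 1 < n := by exact_mod_cast h5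
  omega

theorem ordP_eq_three (hirr : ∀ p ∈ S, Irreducible p) (hass : Associated (∏ p ∈ S, p ^ e p) G)
    (hB : 0 < B) (hδ1 : δ ≤ 1 / 10) {θ : ℝ} (hθ : θ ≤ 1 / 10) {q : Pt} (hq : q ∈ c.J)
    (hqU : q ∉ unt c G B δ) (hl : ∀ i, ordL (c.tri q i) (∏ p ∈ Sbig S e B θ, p) = 2) :
    ordP q (∏ p ∈ Sbig S e B θ, p) = 3 := by
  have hne : ∏ p ∈ Sbig S e B θ, p ≠ 0 :=
    Finset.prod_ne_zero_iff.mpr fun p hp => (hirr p (mem_Sbig.mp hp).1).ne_zero
  have h1 := joint_ineq (c.has q hq) (c.indep q hq) hne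
  simp only [hl, Fin.sum_univ_three] at h1
  set n := ordP q (∏ p ∈ Sbig S e B θ, p) with hn
  have hn' : (n : ℝ) = ∑ p ∈ Sbig S e B θ, (ordP q p : ℝ) := by
    rw [hn, ordP_Sbig hirr]; push_cast; rfl
  have hP : (ordP q G : ℝ) = ∑ p ∈ S, (e p : ℝ) * ordP q p := by
    rw [fac_ordP hirr hass q]; push_cast; rfl
  have hlow : (1 - θ) * B * n ≤ ordP q G := by
    rw [hn', hP, Finset.mul_sum]
    refine le_trans (Finset.sum_le_sum fun p hp => ?_) (Finset.sum_le_sum_of_subset_of_nonneg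
      (fun p hp => (mem_Sbig.mp hp).1) fun p _ _ => mul_nonneg (Nat.cast_nonneg _)
      (Nat.cast_nonneg _))
    exact mul_le_mul_of_nonneg_right (mem_Sbig.mp hp).2 (Nat.cast_nonneg _)
  obtain ⟨g1, g2⟩ := good_joint hq hqU
  rw [Fin.sum_univ_three] at g1
  have k0 := (abs_le.mp (g2 0)).2
  have k1 := (abs_le.mp (g2 1)).2
  have k2 := (abs_le.mp (g2 2)).2
  have h4 : (n : ℝ) < 4 := by
    by_contra hcon
    push Not at hcon
    have h5 : (1 - θ) * B * 4 ≤ (1 - θ) * B * n := mul_le_mul_of_nonneg_left hcon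
      (mul_nonneg (by linarith) hB.le)
    nlinarith
  have h6 : n < 4 := by exact_mod_cast h4
  omega

end

/-- T4 -/
theorem surfStmt (hJL : JointsLe) (hReg : Regularity) (hEG : ExistsG) (hBz : Bezout) :
    SurfStmt := by
  intro θ0 hθ0
  set θ : ℝ := min θ0 (2 / 5) with hθ
  have hθp : 0 < θ := lt_min hθ0 (by norm_num)
  have hθ1 : θ ≤ θ0 := min_le_left _ _
  have hθ2 : θ ≤ 2 / 5 := min_le_right _ _
  set δ : ℝ := θ ^ 2 / 1000 with hδ
  have hδp : 0 < δ := by positivity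
  have hδ1 : δ ≤ 1 / 10 := by rw [hδ]; nlinarith
  have hδθ : δ ≤ θ / 1000 := by rw [hδ]; nlinarith
  set η : ℝ := δ ^ 2 / 50 with hη
  have hηp : 0 < η := by positivity
  have hηδ : η ≤ δ / 500 := by rw [hη]; nlinarith
  obtain ⟨B, hB1, ε, hε, N0, hN0⟩ := exists_big hJL hReg hEG hηp
  have hB : 0 < B := by linarith
  refine ⟨ε, hε, max N0 1, fun c hc hnear => ?_⟩
  obtain ⟨G, hG⟩ := hN0 c ((le_max_left _ _).trans hc) hnear
  have hL1 : 1 ≤ c.L.card := (le_max_right _ _).trans hc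
  have hm : 0 < c.m := by
    unfold Cfg.m
    apply Real.sqrt_pos.mpr
    have : (1 : ℝ) ≤ c.L.card := by exact_mod_cast hL1
    linarith
  obtain ⟨S, e, hirr, hne, -, hass⟩ := exists_factor hG.ne
  set θ1 := θ / 4 with hθ1'
  have hθ10 : 0 < θ1 := by positivity
  have hθ11 : θ1 ≤ 1 / 10 := by linarith
  have hcardT := card_sdiff_T2 hBz hirr hne hass hG hB hδp hδ1 hηp.le le_rfl hm
    (θ2 := θ1 / 10) (by positivity) (by linarith)
  have hm2 : 0 < c.m ^ 2 := by positivity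
  have hm3 : 0 < c.m ^ 3 := by positivity
  classical
  have hcT : ((c.L \ T2 c G B δ S e (θ1 / 10)).card : ℝ) ≤ 9 / 25 * θ * c.m ^ 2 := by
    have h1 : ((c.L \ T2 c G B δ S e (θ1 / 10)).card : ℝ) * (θ1 / 10) ≤
        9 / 25 * θ * c.m ^ 2 * (θ1 / 10) := by
      refine hcardT.trans (le_of_eq ?_)
      rw [hθ1', hδ]; ring
    exact le_of_mul_le_mul_right h1 (by positivity)
  have hcU := card_unt (δ := δ) hG hB
  have hcU2 : ((unt c G B δ).card : ℝ) ≤ δ * c.m ^ 3 := by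
    have h1 : ((unt c G B δ).card : ℝ) * δ ≤ δ * c.m ^ 3 * δ := by
      refine hcU.trans ?_
      rw [hη]
      have : 2 * (δ ^ 2 / 50) * c.m ^ 3 ≤ δ ^ 2 * c.m ^ 3 := by
        apply mul_le_mul_of_nonneg_right _ hm3.le; nlinarith
      linarith
    exact le_of_mul_le_mul_right h1 hδp
  refine ⟨Sbig S e B θ1, fun p hp => hirr p (mem_Sbig.mp hp).1,
    fun p hp p' hp' h => hne p (mem_Sbig.mp hp).1 p' (mem_Sbig.mp hp').1 h, ?_, ?_, ?_, ?_⟩
  · -- degree
    have h1 : (1 - θ1) * B * ∑ p ∈ Sbig S e B θ1, (p.totalDegree : ℝ) ≤ G.totalDegree := by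
      rw [fac_totalDegree hirr hass, Finset.mul_sum]
      push_cast
      refine le_trans (Finset.sum_le_sum fun p hp => ?_) (Finset.sum_le_sum_of_subset_of_nonneg
        (fun p hp => (mem_Sbig.mp hp).1) fun p _ _ => mul_nonneg (Nat.cast_nonneg _)
        (Nat.cast_nonneg _))
      exact mul_le_mul_of_nonneg_right (mem_Sbig.mp hp).2 (Nat.cast_nonneg _)
    have h2 := h1.trans hG.deg
    have h3 : (1 - θ1) * ∑ p ∈ Sbig S e B θ1, (p.totalDegree : ℝ) ≤ (1 + η) * c.m := by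
      have h4 : (1 - θ1) * (∑ p ∈ Sbig S e B θ1, (p.totalDegree : ℝ)) * B ≤ (1 + η) * c.m * B := by
        linarith
      exact le_of_mul_le_mul_right h4 hB
    have h5 : (1 + η) ≤ (1 - θ1) * (1 + θ) := by
      rw [hθ1']; nlinarith
    have h6 : (1 - θ1) * ∑ p ∈ Sbig S e B θ1, (p.totalDegree : ℝ) ≤
        (1 - θ1) * ((1 + θ) * c.m) := by
      refine h3.trans ?_
      calc (1 + η) * c.m ≤ (1 - θ1) * (1 + θ) * c.m := mul_le_mul_of_nonneg_right h5 hm.le
        _ = _ := by ring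
    have h7 := le_of_mul_le_mul_left h6 (by linarith)
    refine h7.trans ?_
    exact mul_le_mul_of_nonneg_right (by linarith) hm.le
  · -- lines
    have h1 : {l ∈ (c.L : Set Ln) | ordL l (∏ p ∈ Sbig S e B θ1, p) ≠ 2} ⊆
        ((c.L \ T2 c G B δ S e (θ1 / 10) : Finset Ln) : Set Ln) := by
      rintro l ⟨hl1, hl2⟩
      rw [Finset.coe_sdiff]
      exact ⟨hl1, fun h => hl2 (ordL_eq_two hirr hass hB hδp hδ1 hθ10 hθ11 h)⟩
    have h2 := Set.ncard_le_ncard h1 (Finset.finite_toSet _)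
    rw [Set.ncard_coe_finset] at h2
    have h3 : (({l ∈ (c.L : Set Ln) | ordL l (∏ p ∈ Sbig S e B θ1, p) ≠ 2}).ncard : ℝ) ≤
        9 / 25 * θ * c.m ^ 2 := le_trans (by exact_mod_cast h2) hcT
    refine h3.trans ?_
    rw [m_sq]
    have : (0 : ℝ) ≤ c.L.card := Nat.cast_nonneg _
    nlinarith
  · -- joints
    have h1 : {q ∈ (c.J : Set Pt) | ¬ (ordP q (∏ p ∈ Sbig S e B θ1, p) = 3 ∧
        ∀ i, ordL (c.tri q i) (∏ p ∈ Sbig S e B θ1, p) = 2)} ⊆
        ((unt c G B δ ∪ (c.L \ T2 c G B δ S e (θ1 / 10)).biUnion c.on : Finset Pt) : Set Pt) := by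
      rintro q ⟨hq1, hq2⟩
      rw [Finset.mem_coe, Finset.mem_union]
      by_contra hcon
      push Not at hcon
      obtain ⟨hqU, hqT⟩ := hcon
      apply hq2
      have hlT : ∀ i, c.tri q i ∈ T2 c G B δ S e (θ1 / 10) := by
        intro i
        by_contra hni
        apply hqT
        rw [Finset.mem_biUnion]
        exact ⟨c.tri q i, Finset.mem_sdiff.mpr ⟨c.tri_mem q hq1 i, hni⟩, mem_on.mpr ⟨hq1, i, rfl⟩⟩
      have hl2 : ∀ i, ordL (c.tri q i) (∏ p ∈ Sbig S e B θ1, p) = 2 := fun i =>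
        ordL_eq_two hirr hass hB hδp hδ1 hθ10 hθ11 (hlT i)
      exact ⟨ordP_eq_three hirr hass hB hδ1 hθ11 hq1 hqU hl2, hl2⟩
    have h2 := Set.ncard_le_ncard h1 (Finset.finite_toSet _)
    rw [Set.ncard_coe_finset] at h2
    have h3 : ((unt c G B δ ∪ (c.L \ T2 c G B δ S e (θ1 / 10)).biUnion c.on).card : ℝ) ≤
        (unt c G B δ).card + ∑ l ∈ c.L \ T2 c G B δ S e (θ1 / 10), ((c.on l).card : ℝ) := by
      have a1 := Finset.card_union_le (unt c G B δ) ((c.L \ T2 c G B δ S e (θ1 / 10)).biUnion c.on)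
      have a2 := Finset.card_biUnion_le (s := c.L \ T2 c G B δ S e (θ1 / 10)) (t := c.on)
      exact_mod_cast a1.trans (Nat.add_le_add_left a2 _)
    have h4 : ∑ l ∈ c.L \ T2 c G B δ S e (θ1 / 10), ((c.on l).card : ℝ) ≤
        (c.L \ T2 c G B δ S e (θ1 / 10)).card * c.m + η * c.m ^ 3 := by
      calc ∑ l ∈ c.L \ T2 c G B δ S e (θ1 / 10), ((c.on l).card : ℝ) ≤
          ∑ l ∈ c.L \ T2 c G B δ S e (θ1 / 10), (c.m + |((c.on l).card : ℝ) - c.m|) := by
            refine Finset.sum_le_sum fun l _ => ?_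
            have := le_abs_self (((c.on l).card : ℝ) - c.m)
            linarith
        _ = (c.L \ T2 c G B δ S e (θ1 / 10)).card * c.m +
            ∑ l ∈ c.L \ T2 c G B δ S e (θ1 / 10), |((c.on l).card : ℝ) - c.m| := by
            rw [Finset.sum_add_distrib, Finset.sum_const, nsmul_eq_mul]
        _ ≤ _ := by
            have := (Finset.sum_le_sum_of_subset_of_nonneg
              (Finset.sdiff_subset (s := c.L) (t := T2 c G B δ S e (θ1 / 10)))
              fun l _ _ => abs_nonneg (((c.on l).card : ℝ) - c.m)).trans hG.reg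
            linarith
    have h5 : ((c.L \ T2 c G B δ S e (θ1 / 10)).card : ℝ) * c.m ≤ 9 / 25 * θ * c.m ^ 3 := by
      calc _ ≤ 9 / 25 * θ * c.m ^ 2 * c.m := mul_le_mul_of_nonneg_right hcT hm.le
        _ = _ := by ring
    have h6 : (({q ∈ (c.J : Set Pt) | ¬ (ordP q (∏ p ∈ Sbig S e B θ1, p) = 3 ∧
        ∀ i, ordL (c.tri q i) (∏ p ∈ Sbig S e B θ1, p) = 2)}).ncard : ℝ) ≤
        (unt c G B δ ∪ (c.L \ T2 c G B δ S e (θ1 / 10)).biUnion c.on).card := by
      exact_mod_cast h2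
    have h7 : δ * c.m ^ 3 ≤ θ / 1000 * c.m ^ 3 := mul_le_mul_of_nonneg_right hδθ hm3.le
    have h8 : η * c.m ^ 3 ≤ θ / 1000 * c.m ^ 3 := mul_le_mul_of_nonneg_right (by linarith) hm3.le
    have h9 : θ * c.m ^ 3 ≤ θ0 * c.m ^ 3 := mul_le_mul_of_nonneg_right hθ1 hm3.le
    have h10 : 0 < θ * c.m ^ 3 := by positivity
    linarith
  · refine hG.reg.trans ?_
    exact mul_le_mul_of_nonneg_right (by linarith) hm3.le

end Pool.Agent.Lib.MP_a8d5c3_co.Stab
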