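import Mathlib
import Pool.Agent.Lib.MP_a8d5c3_co.Stab.Surf2
import Pool.Agent.Lib.MP_a8d5c3_co.Stab.Glob
import Pool.Agent.Lib.MP_a8d5c3_co.Stab.Clq

/-!
Most lines of a near-extremal configuration are typical for the surface of T4.
-/

set_option autoImplicit false

namespace Pool.Agent.Lib.MP_a8d5c3_co.Stab

open MvPolynomial Matrix

/-- a reduced surface and a set of typical lines -/
structure Nice (c : Cfg) (S : Finset P3) (T : Finset Ln) (σ : ℝ) : Prop where
  irr : ∀ p ∈ S, Irreducible p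
  ass : ∀ p ∈ S, ∀ p' ∈ S, Associated p p' → p = p'
  sub : T ⊆ c.L
  deg : ((∏ p ∈ S, p).totalDegree : ℝ) ≤ (1 + σ) * c.m
  card : (c.L.card : ℝ) ≤ T.card + σ * c.m ^ 2
  two : ∀ l ∈ T, ordL l (∏ p ∈ S, p) = 2
  pi : ∀ l ∈ T, ∀ (i j : Fin 3) (a : Fin 4), ∃ ρ : Polynomial ℂ, ρ ≠ 0 ∧
    Polynomial.aeval (X 2 : P3) ρ * PiC (∏ p ∈ S, p) (e i) (e j) a ∈
      Ideal.span {∏ p ∈ S, p} ⊔ l.I ^ 11
  dev : ∀ l ∈ T, ∀ p ∈ S, Dev p → 2 ≤ p.totalDegree → p ∉ l.I
  reg : ∑ l ∈ c.L, |((c.on l).card : ℝ) - c.m| ≤ σ * c.m ^ 3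

open Classical in
/-- most lines contain many joints from a large set of joints -/
theorem many_good (c : Cfg) {θ θ1 α : ℝ} (hm : 0 < c.m)
    (hreg : ∑ l ∈ c.L, |((c.on l).card : ℝ) - c.m| ≤ θ * c.m ^ 3) (X : Finset Pt)
    (hX : ((c.J \ X).card : ℝ) ≤ α * c.m ^ 3) :
    ((c.L.filter fun l => ¬ ((1 - θ1) * c.m ≤ ((c.on l ∩ X).card : ℝ))).card : ℝ) * θ1 ≤
      (θ + 3 * α) * c.m ^ 2 := by
  set A := c.L.filter fun l => ¬ ((1 - θ1) * c.m ≤ ((c.on l ∩ X).card : ℝ)) with hA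
  have h1 : ∀ l ∈ c.L, ((c.on l).card : ℝ) = (c.on l ∩ X).card +
      ∑ q ∈ c.on l, if q ∈ X then (0 : ℝ) else 1 := by
    intro l _
    have : (c.on l).card = (c.on l ∩ X).card + ((c.on l).filter fun q => q ∉ X).card := by
      rw [← Finset.filter_mem_eq_inter]
      exact (Finset.card_filter_add_card_filter_not _).symm
    rw [this]
    push_cast
    congr 1
    rw [Finset.card_filter]
    push_cast
    refine Finset.sum_congr rfl fun q _ => ?_
    by_cases hq : q ∈ X <;> simp [hq]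
  have h2 : ∑ l ∈ c.L, ∑ q ∈ c.on l, (if q ∈ X then (0 : ℝ) else 1) = 3 * (c.J \ X).card := by
    rw [sum_on c (fun q _ => if q ∈ X then (0 : ℝ) else 1)]
    have : ((c.J \ X).card : ℝ) = ∑ q ∈ c.J, if q ∈ X then (0 : ℝ) else 1 := by
      rw [Finset.sdiff_eq_filter, Finset.card_filter]
      push_cast
      refine Finset.sum_congr rfl fun q _ => ?_
      by_cases hq : q ∈ X <;> simp [hq]
    rw [this, Finset.mul_sum]
    refine Finset.sum_congr rfl fun q _ => ?_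
    simp
  have h3 : (A.card : ℝ) * (θ1 * c.m) ≤ θ * c.m ^ 3 + 3 * (α * c.m ^ 3) := by
    calc (A.card : ℝ) * (θ1 * c.m) = ∑ l ∈ A, θ1 * c.m := by rw [Finset.sum_const, nsmul_eq_mul]
      _ ≤ ∑ l ∈ A, (|((c.on l).card : ℝ) - c.m| + ∑ q ∈ c.on l, if q ∈ X then (0 : ℝ) else 1) := by
          refine Finset.sum_le_sum fun l hl => ?_
          obtain ⟨hlL, hl2⟩ := Finset.mem_filter.mp hl
          have := h1 l hlL
          have h4 := neg_abs_le (((c.on l).card : ℝ) - c.m)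
          push Not at hl2
          linarith
      _ ≤ ∑ l ∈ c.L, (|((c.on l).card : ℝ) - c.m| + ∑ q ∈ c.on l, if q ∈ X then (0 : ℝ) else 1) := by
          refine Finset.sum_le_sum_of_subset_of_nonneg (Finset.filter_subset _ _) fun l _ _ => ?_
          apply add_nonneg (abs_nonneg _)
          exact Finset.sum_nonneg fun q _ => by split_ifs <;> norm_num
      _ = ∑ l ∈ c.L, |((c.on l).card : ℝ) - c.m| + 3 * (c.J \ X).card := by
          rw [Finset.sum_add_distrib, h2]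
      _ ≤ _ := by linarith
  have h5 : (A.card : ℝ) * θ1 * c.m ≤ (θ + 3 * α) * c.m ^ 2 * c.m := by linarith
  exact le_of_mul_le_mul_right h5 hm

open Classical in
/-- few joints lie on few lines -/
theorem few_joints (c : Cfg) {θ : ℝ}
    (hreg : ∑ l ∈ c.L, |((c.on l).card : ℝ) - c.m| ≤ θ * c.m ^ 3) (A : Finset Ln) (hA : A ⊆ c.L) :
    ((A.biUnion c.on).card : ℝ) ≤ A.card * c.m + θ * c.m ^ 3 := by
  have a2 := Finset.card_biUnion_le (s := A) (t := c.on)
  have h3 : ((A.biUnion c.on).card : ℝ) ≤ ∑ l ∈ A, ((c.on l).card : ℝ) := by exact_mod_cast a2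
  refine h3.trans ?_
  calc ∑ l ∈ A, ((c.on l).card : ℝ) ≤ ∑ l ∈ A, (c.m + |((c.on l).card : ℝ) - c.m|) := by
        refine Finset.sum_le_sum fun l _ => ?_
        have := le_abs_self (((c.on l).card : ℝ) - c.m)
        linarith
    _ = A.card * c.m + ∑ l ∈ A, |((c.on l).card : ℝ) - c.m| := by
        rw [Finset.sum_add_distrib, Finset.sum_const, nsmul_eq_mul]
    _ ≤ _ := by
        have := (Finset.sum_le_sum_of_subset_of_nonneg hA
          fun l _ _ => abs_nonneg (((c.on l).card : ℝ) - c.m)).trans hreg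
        linarith

open Classical in
theorem exists_nice (hSurf : SurfStmt) (hM : MinorStmt) {σ : ℝ} (hσ : 0 < σ) :
    ∃ ε : ℝ, 0 < ε ∧ ∃ N0 : ℕ, ∀ c : Cfg, N0 ≤ c.L.card →
      2 * (1 - ε) * (c.L.card : ℝ) ^ 3 ≤ 9 * (c.J.card : ℝ) ^ 2 →
      ∃ S T, Nice c S T σ := by
  set θ : ℝ := min (σ / 500000) (1 / 1000) with hθ
  have hθ0 : 0 < θ := lt_min (by positivity) (by norm_num)
  have hθσ : θ ≤ σ / 500000 := min_le_left _ _
  have hθ1 : θ ≤ 1 / 1000 := min_le_right _ _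
  obtain ⟨ε, hε, N0, hN0⟩ := hSurf θ hθ0
  refine ⟨ε, hε, max N0 2000000, fun c hc hnear => ?_⟩
  obtain ⟨S, hirr, hass, hdeg, hlines, hjoints, hreg⟩ := hN0 c ((le_max_left _ _).trans hc) hnear
  have hm2000 : 2000 ≤ c.m := by
    have h1 : (2000000 : ℝ) ≤ c.L.card := by exact_mod_cast (le_max_right _ _).trans hc
    have h2 : (2000 : ℝ) ^ 2 ≤ c.m ^ 2 := by rw [m_sq]; linarith
    exact (pow_le_pow_iff_left₀ (by norm_num) (m_nonneg c) two_ne_zero).mp h2
  have hm : 0 < c.m := by linarith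
  have hm2 : 0 < c.m ^ 2 := by positivity
  have hm3 : 0 < c.m ^ 3 := by positivity
  set F := ∏ p ∈ S, p with hF
  have hF0 : F ≠ 0 := Finset.prod_ne_zero_iff.mpr fun p hp => (hirr p hp).ne_zero
  have hdegF : (F.totalDegree : ℝ) ≤ (1 + θ) * c.m := by
    rw [hF, totalDegree_prod' S (fun p => p) fun p hp => (hirr p hp).ne_zero]
    push_cast; exact hdeg
  -- typical joints and lines
  set Jt := c.J.filter fun q => ordP q F = 3 ∧ ∀ i, ordL (c.tri q i) F = 2 with hJt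
  set T0 := c.L.filter fun l => ordL l F = 2 with hT0
  have hJtc : ((c.J \ Jt).card : ℝ) ≤ θ * c.m ^ 3 := by
    have : ((c.J \ Jt : Finset Pt) : Set Pt) = {q ∈ (c.J : Set Pt) | ¬ (ordP q F = 3 ∧
      ∀ i, ordL (c.tri q i) F = 2)} := by
      ext q
      simp only [Finset.coe_sdiff, Set.mem_sdiff, Finset.mem_coe, hJt, Finset.mem_filter,
        Set.mem_ofPred_eq]
      tauto
    rw [← Set.ncard_coe_finset, this]
    exact hjoints
  have hT0c : ((c.L \ T0).card : ℝ) ≤ θ * c.L.card := by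
    have : ((c.L \ T0 : Finset Ln) : Set Ln) = {l ∈ (c.L : Set Ln) | ordL l F ≠ 2} := by
      ext q
      simp only [Finset.coe_sdiff, Set.mem_sdiff, Finset.mem_coe, hT0, Finset.mem_filter,
        Set.mem_ofPred_eq]
      tauto
    rw [← Set.ncard_coe_finset, this]
    exact hlines
  set A1 := c.L.filter fun l => ¬ ((1 - 1 / 200) * c.m ≤ ((c.on l ∩ Jt).card : ℝ)) with hA1
  have hA1c := many_good c (θ1 := 1 / 200) hm hreg Jt hJtc
  rw [← hA1] at hA1c
  set T' := T0 \ A1 with hT'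
  have hT'L : T' ⊆ c.L := Finset.sdiff_subset.trans (Finset.filter_subset _ _)
  have hT'c : ((c.L \ T').card : ℝ) ≤ 801 * θ * c.m ^ 2 := by
    have h1 : (c.L \ T').card ≤ (c.L \ T0).card + A1.card := by
      refine le_trans (Finset.card_le_card ?_) (Finset.card_union_le _ _)
      intro l hl
      rw [Finset.mem_union, Finset.mem_sdiff]
      rw [Finset.mem_sdiff, hT', Finset.mem_sdiff] at hl
      tauto
    have h2 : ((c.L \ T').card : ℝ) ≤ (c.L \ T0).card + A1.card := by exact_mod_cast h1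
    have h3 := m_sq c
    nlinarith
  set X2 := Jt.filter fun q => ∀ i, c.tri q i ∈ T' with hX2
  have hX2c : ((c.J \ X2).card : ℝ) ≤ 803 * θ * c.m ^ 3 := by
    have h1 : (c.J \ X2).card ≤ (c.J \ Jt).card + ((c.L \ T').biUnion c.on).card := by
      refine le_trans (Finset.card_le_card ?_) (Finset.card_union_le _ _)
      intro q hq
      rw [Finset.mem_sdiff, hX2, Finset.mem_filter] at hq
      rw [Finset.mem_union, Finset.mem_sdiff, Finset.mem_biUnion]
      by_cases hqJ : q ∈ Jt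
      · right
        have : ¬ ∀ i, c.tri q i ∈ T' := fun h => hq.2 ⟨hqJ, h⟩
        push Not at this
        obtain ⟨i, hi⟩ := this
        exact ⟨c.tri q i, Finset.mem_sdiff.mpr ⟨c.tri_mem q hq.1 i, hi⟩, mem_on.mpr ⟨hq.1, i, rfl⟩⟩
      · exact Or.inl ⟨hq.1, hqJ⟩
    have h2 : ((c.J \ X2).card : ℝ) ≤ (c.J \ Jt).card + ((c.L \ T').biUnion c.on).card := by
      exact_mod_cast h1
    have h3 := few_joints c hreg (c.L \ T') Finset.sdiff_subset
    have h4 : ((c.L \ T').card : ℝ) * c.m ≤ 801 * θ * c.m ^ 2 * c.m :=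
      mul_le_mul_of_nonneg_right hT'c hm.le
    have h5 : 801 * θ * c.m ^ 2 * c.m = 801 * θ * c.m ^ 3 := by ring
    linarith
  set A2 := c.L.filter fun l => ¬ ((1 - 1 / 200) * c.m ≤ ((c.on l ∩ X2).card : ℝ)) with hA2
  have hA2c := many_good c (θ1 := 1 / 200) hm hreg X2 hX2c
  rw [← hA2] at hA2c
  set T := T' \ A2 with hT
  have hTc : ((c.L \ T).card : ℝ) ≤ σ * c.m ^ 2 := by
    have h1 : (c.L \ T).card ≤ (c.L \ T').card + A2.card := by
      refine le_trans (Finset.card_le_card ?_) (Finset.card_union_le _ _)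
      intro l hl
      rw [Finset.mem_union, Finset.mem_sdiff]
      rw [Finset.mem_sdiff, hT, Finset.mem_sdiff] at hl
      tauto
    have h2 : ((c.L \ T).card : ℝ) ≤ (c.L \ T').card + A2.card := by exact_mod_cast h1
    have h3 : 500000 * θ * c.m ^ 2 ≤ σ * c.m ^ 2 :=
      mul_le_mul_of_nonneg_right (by linarith) hm2.le
    linarith
  -- properties of lines of T'
  have hTyp : ∀ q ∈ Jt, Typ F q (c.tri q) := by
    intro q hq
    obtain ⟨hqJ, h1, h2⟩ := Finset.mem_filter.mp hq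
    refine ⟨c.has q hqJ, c.indep q hqJ, fun i => ?_, fun h => ?_⟩
    · rw [mem_I_pow_iff _ hF0, h2 i]
    · rw [mem_mI_pow_iff _ hF0, h1] at h; omega
  have hT'2 : ∀ l ∈ T', ordL l F = 2 := fun l hl =>
    (Finset.mem_filter.mp (Finset.mem_sdiff.mp hl).1).2
  have hT'sq : ∀ l ∈ T', F ∈ l.I ^ 2 ∧ F ∉ l.I ^ 3 := by
    intro l hl
    rw [mem_I_pow_iff _ hF0, mem_I_pow_iff _ hF0, hT'2 l hl]
    omega
  have hT'card : ∀ l ∈ T', (1 - 1 / 200) * c.m ≤ ((c.on l ∩ Jt).card : ℝ) := by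
    intro l hl
    by_contra hcon
    exact (Finset.mem_sdiff.mp hl).2 (Finset.mem_filter.mpr ⟨hT'L hl, hcon⟩)
  have hTcard : ∀ l ∈ T, (1 - 1 / 200) * c.m ≤ ((c.on l ∩ X2).card : ℝ) := by
    intro l hl
    by_contra hcon
    exact (Finset.mem_sdiff.mp hl).2 (Finset.mem_filter.mpr
      ⟨hT'L (Finset.mem_sdiff.mp hl).1, hcon⟩)
  have hθm : θ * c.m ≤ 1 / 1000 * c.m := mul_le_mul_of_nonneg_right hθ1 hm.le
  refine ⟨S, T, hirr, hass, Finset.sdiff_subset.trans hT'L, ?_, ?_, fun l hl =>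
    hT'2 l (Finset.mem_sdiff.mp hl).1, ?_, ?_, ?_⟩
  · refine hdegF.trans (mul_le_mul_of_nonneg_right (by linarith) hm.le)
  · have h1 : (c.L \ T).card + T.card = c.L.card :=
      Finset.card_sdiff_add_card_eq_card (Finset.sdiff_subset.trans hT'L)
    have h2 : ((c.L \ T).card : ℝ) + T.card = c.L.card := by exact_mod_cast h1
    linarith
  · intro l hl i j a
    have hl' := (Finset.mem_sdiff.mp hl).1
    obtain ⟨h2, h3⟩ := hT'sq l hl'
    refine along_line hM (D := F.totalDegree) le_rfl h2 h3 (c.on l ∩ Jt) ?_ ?_ _ _ _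
    · intro q hq
      rw [Finset.mem_inter] at hq
      have ht := hTyp q hq.2
      exact ⟨c.tri q, ht.has, ht.ind, ht.dbl, ht.ord, (mem_on.mp hq.1).2⟩
    · have h4 := hT'card l hl'
      have h5 : (55 * F.totalDegree + 1000 : ℝ) < 56 * (c.on l ∩ Jt).card := by linarith
      exact_mod_cast h5
  · intro l hl p hp hdev h2
    have hsplit : F = p * ∏ p' ∈ S.erase p, p' := (Finset.mul_prod_erase S (fun p => p) hp).symm
    refine dev_excl hsplit hF0 (hirr p hp) h2 hdev (c.on l ∩ X2) ?_ ?_ ?_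
    · intro q hq
      rw [Finset.mem_inter] at hq
      obtain ⟨hqJ, hqT⟩ := Finset.mem_filter.mp hq.2
      refine ⟨c.tri q, hTyp q hqJ, (mem_on.mp hq.1).2, fun i => ⟨(hT'sq _ (hqT i)).2, fun hpi => ?_⟩⟩
      refine dev_double hsplit hF0 (hirr p hp) h2 hdev (hT'sq _ (hqT i)).1 (hT'sq _ (hqT i)).2
        (c.on (c.tri q i) ∩ Jt) ?_ ?_ hpi
      · intro q' hq'
        rw [Finset.mem_inter] at hq'
        exact ⟨c.tri q', hTyp q' hq'.2, (mem_on.mp hq'.1).2⟩
      · have h4 := hT'card _ (hqT i)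
        have h5 : (F.totalDegree : ℝ) < 2 * (c.on (c.tri q i) ∩ Jt).card := by linarith
        exact_mod_cast h5
    · have h4 := hTcard _ hl
      have h5 : (F.totalDegree : ℝ) < 2 * (c.on l ∩ X2).card := by linarith
      exact_mod_cast h5
    · have h4 := hTcard _ hl
      have h5 : (2 * F.totalDegree : ℝ) < 3 * (c.on l ∩ X2).card := by linarith
      exact_mod_cast h5
  · exact hreg.trans (mul_le_mul_of_nonneg_right (by linarith) hm3.le)

end Pool.Agent.Lib.MP_a8d5c3_co.Stab
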