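import Mathlib
import Pool.Agent.Lib.MP_a8d5c3_co.Stab.Nice

/-!
The components of the surface that are not planes have small total degree.
-/

set_option autoImplicit false

namespace Pool.Agent.Lib.MP_a8d5c3_co.Stab

open MvPolynomial Matrix Classical

section

variable {c : Cfg} {S : Finset P3} {T : Finset Ln} {σ : ℝ}

/-- total degree of the components in `S'` -/
noncomputable def dg (S' : Finset P3) : ℕ := ∑ p ∈ S', p.totalDegree

theorem Nice.ne (h : Nice c S T σ) : ∏ p ∈ S, p ≠ 0 :=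
  Finset.prod_ne_zero_iff.mpr fun p hp => (h.irr p hp).ne_zero

theorem Nice.totalDegree (h : Nice c S T σ) : (∏ p ∈ S, p).totalDegree = dg S :=
  totalDegree_prod' S (fun p => p) fun p hp => (h.irr p hp).ne_zero

theorem Nice.deg' (h : Nice c S T σ) : (dg S : ℝ) ≤ (1 + σ) * c.m := by
  rw [← h.totalDegree]; exact h.deg

theorem Nice.not_dvd_erase (h : Nice c S T σ) {p : P3} (hp : p ∈ S) :
    ¬ p ∣ ∏ p' ∈ S.erase p, p' := by
  intro hd
  obtain ⟨p', hp', hdp⟩ := (h.irr p hp).prime.exists_mem_finset_dvd hd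
  obtain ⟨hne, hp'S⟩ := Finset.mem_erase.mp hp'
  exact hne (h.ass p hp p' hp'S ((h.irr p hp).associated_of_dvd (h.irr p' hp'S) hdp)).symm

theorem Nice.split (_h : Nice c S T σ) {p : P3} (hp : p ∈ S) :
    ∏ p ∈ S, p = p * ∏ p' ∈ S.erase p, p' := (Finset.mul_prod_erase S (fun p => p) hp).symm

theorem Nice.not_dvd (h : Nice c S T σ) {p p' : P3} (hp : p ∈ S) (hp' : p' ∈ S) (hne : p ≠ p') :
    ¬ p ∣ p' := fun hd =>
  hne (h.ass p hp p' hp' ((h.irr p hp).associated_of_dvd (h.irr p' hp') hd))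

/-- at typical lines the orders add up to two -/
theorem Nice.sum_two (h : Nice c S T σ) {l : Ln} (hl : l ∈ T) : ∑ p ∈ S, ordL l p = 2 := by
  rw [← h.two l hl, ordL_prod l S (fun p => p) fun p hp => (h.irr p hp).ne_zero]

/-- upper bound for the number of typical lines on a component -/
theorem Nice.upper (h : Nice c S T σ) (hB : Bezout) {p : P3} (hp : p ∈ S) :
    ∑ l ∈ T, ordL l p ≤ p.totalDegree * dg S := by
  obtain ⟨k, hk⟩ := exists_pderiv_not_dvd (h.irr p hp)
  have hnd : ¬ p ∣ pderiv k (∏ p ∈ S, p) := by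
    rw [h.split hp, Derivation.leibniz, smul_eq_mul, smul_eq_mul]
    intro hd
    have h1 : p ∣ (∏ p' ∈ S.erase p, p') * pderiv k p :=
      (dvd_add_right (Dvd.intro _ rfl)).mp hd
    rcases (h.irr p hp).prime.dvd_or_dvd h1 with h2 | h2
    · exact h.not_dvd_erase hp h2
    · exact hk h2
  have h1 := hB p _ (h.irr p hp) hnd T (fun l => ordL l p) (fun _ => 1)
    (fun l _ => (mem_I_pow_iff l (h.irr p hp).ne_zero _).mpr le_rfl) (by
      intro l hl
      refine ⟨1, one_ne_zero, ?_⟩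
      rw [map_one, one_mul]
      apply Ideal.mem_sup_right
      apply pderiv_mem_pow
      exact (mem_I_pow_iff l h.ne _).mpr (h.two l hl).ge)
  simp only [mul_one] at h1
  refine h1.trans (Nat.mul_le_mul_left _ ?_)
  rw [← h.totalDegree]
  exact totalDegree_pderiv_le' k _

theorem Nice.upper' (h : Nice c S T σ) (hB : Bezout) {S' : Finset P3} (hS' : S' ⊆ S) :
    ∑ l ∈ T, ∑ p ∈ S', ordL l p ≤ dg S' * dg S := by
  rw [Finset.sum_comm, dg, Finset.sum_mul]
  exact Finset.sum_le_sum fun p hp => h.upper hB (hS' hp)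

/-- lower bound for the number of typical lines on a set of components -/
theorem Nice.lower (h : Nice c S T σ) (hB : Bezout) (hσ0 : 0 ≤ σ) (hσ : σ ≤ 1 / 10)
    {S' : Finset P3} (hS' : S' ⊆ S) :
    (dg S' : ℝ) * dg S - 5 * σ * c.m ^ 2 ≤ ((∑ l ∈ T, ∑ p ∈ S', ordL l p : ℕ) : ℝ) := by
  have h1 : ∑ l ∈ T, ∑ p ∈ S', ordL l p + ∑ l ∈ T, ∑ p ∈ S \ S', ordL l p = 2 * T.card := by
    rw [← Finset.sum_add_distrib]
    have : ∀ l ∈ T, ∑ p ∈ S', ordL l p + ∑ p ∈ S \ S', ordL l p = 2 := by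
      intro l hl
      rw [← h.sum_two hl, add_comm, Finset.sum_sdiff hS']
    rw [Finset.sum_congr rfl this, Finset.sum_const, smul_eq_mul, mul_comm]
  have h2 := h.upper' hB (Finset.sdiff_subset (s := S) (t := S'))
  have h3 : dg (S \ S') + dg S' = dg S := Finset.sum_sdiff hS'
  have h1' : ((∑ l ∈ T, ∑ p ∈ S', ordL l p : ℕ) : ℝ) +
      ((∑ l ∈ T, ∑ p ∈ S \ S', ordL l p : ℕ) : ℝ) = 2 * T.card := by exact_mod_cast h1
  have h2' : ((∑ l ∈ T, ∑ p ∈ S \ S', ordL l p : ℕ) : ℝ) ≤ (dg (S \ S') : ℝ) * dg S := by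
    exact_mod_cast h2
  have h3' : (dg (S \ S') : ℝ) + dg S' = dg S := by exact_mod_cast h3
  have h4 := h.card
  have h5 := m_sq c
  have h6 : (dg S : ℝ) ^ 2 ≤ (1 + 3 * σ) * c.m ^ 2 := by
    have h7 : (dg S : ℝ) ^ 2 ≤ ((1 + σ) * c.m) ^ 2 := pow_le_pow_left₀ (Nat.cast_nonneg _) h.deg' 2
    calc (dg S : ℝ) ^ 2 ≤ ((1 + σ) * c.m) ^ 2 := h7
      _ = (1 + σ) ^ 2 * c.m ^ 2 := by ring
      _ ≤ _ := mul_le_mul_of_nonneg_right (by nlinarith) (by positivity)
  have h8 : (dg (S \ S') : ℝ) * dg S = (dg S : ℝ) ^ 2 - dg S' * dg S := by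
    rw [← h3']; ring
  rw [h8] at h2'
  linarith

theorem Nice.half (h : Nice c S T σ) (hB : Bezout) (hσ : σ ≤ 1 / 10) :
    c.m / 2 ≤ dg S := by
  have h1 : ∑ l ∈ T, ∑ p ∈ S, ordL l p = 2 * T.card := by
    rw [Finset.sum_congr rfl fun l hl => h.sum_two hl, Finset.sum_const, smul_eq_mul, mul_comm]
  have h2 := h.upper' hB (Finset.Subset.refl S)
  rw [h1] at h2
  have h2' : 2 * (T.card : ℝ) ≤ (dg S : ℝ) * dg S := by exact_mod_cast h2
  have h4 := h.card
  have h5 := m_sq c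
  have h6 : (c.m / 2) ^ 2 ≤ (dg S : ℝ) ^ 2 := by
    have : 0 ≤ c.m ^ 2 := by positivity
    nlinarith
  have hm0 := m_nonneg c
  exact (pow_le_pow_iff_left₀ (by positivity) (Nat.cast_nonneg _) two_ne_zero).mp h6

/-- a set of components with few lines has small degree -/
theorem Nice.small (h : Nice c S T σ) (hB : Bezout) (hσ0 : 0 ≤ σ) (hσ : σ ≤ 1 / 10) (hm : 0 < c.m)
    {S' : Finset P3} (hS' : S' ⊆ S) {α : ℝ} (hα : α < 1)
    (hle : ((∑ l ∈ T, ∑ p ∈ S', ordL l p : ℕ) : ℝ) ≤ α * dg S' * dg S) :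
    (1 - α) * dg S' ≤ 10 * σ * c.m := by
  have h1 := h.lower hB hσ0 hσ hS'
  have h2 := h.half hB hσ
  have h3 : (1 - α) * dg S' * (c.m / 2) ≤ (1 - α) * dg S' * dg S :=
    mul_le_mul_of_nonneg_left h2 (mul_nonneg (by linarith) (Nat.cast_nonneg _))
  have h4 : (1 - α) * dg S' * (c.m / 2) ≤ 10 * σ * c.m * (c.m / 2) := by nlinarith
  exact le_of_mul_le_mul_right h4 (by positivity)

/-- components that do not divide a coefficient of the Pick form -/
noncomputable def Sharp (S : Finset P3) (x : Fin 3 × Fin 3 × Fin 4) : Finset P3 :=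
  S.filter fun p => ¬ p ∣ PiC (∏ p ∈ S, p) (e x.1) (e x.2.1) x.2.2

theorem Nice.sharp (h : Nice c S T σ) (hB : Bezout) (hσ0 : 0 ≤ σ) (hσ : σ ≤ 1 / 10)
    (hm : 0 < c.m) (x : Fin 3 × Fin 3 × Fin 4) : (dg (Sharp S x) : ℝ) ≤ 110 * σ * c.m := by
  have hS' : Sharp S x ⊆ S := Finset.filter_subset _ _
  have h1 : 11 * ∑ l ∈ T, ∑ p ∈ Sharp S x, ordL l p ≤ 10 * (dg (Sharp S x) * dg S) := by
    rw [Finset.sum_comm, dg, Finset.sum_mul, Finset.mul_sum, Finset.mul_sum]
    refine Finset.sum_le_sum fun p hp => ?_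
    obtain ⟨hpS, hnd⟩ := Finset.mem_filter.mp hp
    have h2 := hB p _ (h.irr p hpS) hnd T (fun l => ordL l p) (fun _ => 11)
      (fun l _ => (mem_I_pow_iff l (h.irr p hpS).ne_zero _).mpr le_rfl) (by
        intro l hl
        obtain ⟨ρ, hρ, hmem⟩ := h.pi l hl x.1 x.2.1 x.2.2
        refine ⟨ρ, hρ, ?_⟩
        have hle : Ideal.span {∏ p ∈ S, p} ⊔ l.I ^ 11 ≤ Ideal.span {p} ⊔ l.I ^ 11 := by
          apply sup_le_sup_right
          rw [Ideal.span_singleton_le_span_singleton]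
          exact ⟨_, h.split hpS⟩
        exact hle hmem)
    rw [← Finset.sum_mul] at h2
    have h3 := totalDegree_PiC_le (∏ p ∈ S, p) (e x.1) (e x.2.1) x.2.2
    rw [h.totalDegree] at h3
    calc 11 * ∑ l ∈ T, ordL l p = (∑ l ∈ T, ordL l p) * 11 := by ring
      _ ≤ p.totalDegree * (10 * dg S) := h2.trans (Nat.mul_le_mul_left _ h3)
      _ = 10 * (p.totalDegree * dg S) := by ring
  have h1' : 11 * ((∑ l ∈ T, ∑ p ∈ Sharp S x, ordL l p : ℕ) : ℝ) ≤
      10 * ((dg (Sharp S x) : ℝ) * dg S) := by exact_mod_cast h1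
  have := h.small hB hσ0 hσ hm hS' (α := 10 / 11) (by norm_num) (by linarith)
  linarith

theorem Nice.devs (h : Nice c S T σ) (hB : Bezout) (hσ0 : 0 ≤ σ) (hσ : σ ≤ 1 / 10)
    (hm : 0 < c.m) : (dg (S.filter fun p => Dev p ∧ 2 ≤ p.totalDegree) : ℝ) ≤ 10 * σ * c.m := by
  have h1 : ∑ l ∈ T, ∑ p ∈ S.filter (fun p => Dev p ∧ 2 ≤ p.totalDegree), ordL l p = 0 := by
    apply Finset.sum_eq_zero
    intro l hl
    apply Finset.sum_eq_zero
    intro p hp
    obtain ⟨hpS, hd, h2⟩ := Finset.mem_filter.mp hp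
    by_contra hne
    apply h.dev l hl p hpS hd h2
    have := (mem_I_pow_iff l (h.irr p hpS).ne_zero 1).mpr (by omega)
    rwa [pow_one] at this
  have := h.small hB hσ0 hσ hm (Finset.filter_subset (fun p => Dev p ∧ 2 ≤ p.totalDegree) S)
    (α := 0) (by norm_num) (by rw [h1]; simp)
  linarith

/-- a component dividing the Pick form of the surface has vanishing Pick form -/
theorem Nice.pick (h : Nice c S T σ) {p : P3} (hp : p ∈ S) {w w' : Pt} {a : Fin 4}
    (hd : p ∣ PiC (∏ p ∈ S, p) w w' a) : p ∣ PiC p w w' a := by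
  have h1 := PiC_mul (∏ p' ∈ S.erase p, p') p w w' a
  rw [mul_comm, ← h.split hp] at h1
  have h2 : p ∣ (∏ p' ∈ S.erase p, p') ^ 10 * PiC p w w' a := (dvd_sub_right hd).mp h1
  rcases (h.irr p hp).prime.dvd_or_dvd h2 with h3 | h3
  · exact absurd ((h.irr p hp).prime.dvd_of_dvd_pow h3) (h.not_dvd_erase hp)
  · exact h3

/-- the nondegenerate quadrics -/
noncomputable def Quad (S : Finset P3) : Finset P3 := S.filter fun p => p.totalDegree = 2 ∧ ¬ Dev p

/-- classification of the components -/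
theorem Nice.cases (h : Nice c S T σ) (hQ : QuadricStmt) {p : P3} (hp : p ∈ S)
    (h2 : 2 ≤ p.totalDegree) :
    (∃ x, p ∈ Sharp S x) ∨ p ∈ S.filter (fun p => Dev p ∧ 2 ≤ p.totalDegree) ∨ p ∈ Quad S := by
  by_cases h1 : ∃ x, p ∈ Sharp S x
  · exact Or.inl h1
  · right
    by_cases hd : Dev p
    · left; exact Finset.mem_filter.mpr ⟨hp, hd, h2⟩
    · right
      refine Finset.mem_filter.mpr ⟨hp, ?_, hd⟩
      have hall : ∀ x : Fin 3 × Fin 3 × Fin 4, p ∣ PiC (∏ p ∈ S, p) (e x.1) (e x.2.1) x.2.2 := by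
        intro x
        by_contra hnd
        exact h1 ⟨x, Finset.mem_filter.mpr ⟨hp, hnd⟩⟩
      unfold Dev at hd
      push Not at hd
      obtain ⟨i, j, hij⟩ := hd
      have := hQ p (h.irr p hp) i j hij fun a => h.pick hp (hall (i, j, a))
      omega

/-- number of common typical lines -/
noncomputable def nn (T : Finset Ln) (p p' : P3) : ℕ := ∑ l ∈ T, ordL l p * ordL l p'

theorem nn_symm (T : Finset Ln) (p p' : P3) : nn T p p' = nn T p' p :=
  Finset.sum_congr rfl fun _ _ => mul_comm _ _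

/-- `p` and `p'` share four typical lines -/
def adj4 (T : Finset Ln) (p p' : P3) : Prop := p ≠ p' ∧ nn T p p' = 4

theorem Nice.degPos (h : Nice c S T σ) {p : P3} (hp : p ∈ S) : 1 ≤ p.totalDegree := by
  by_contra h0
  have h1 : p.totalDegree = 0 := by omega
  rw [totalDegree_eq_zero_iff_eq_C] at h1
  have hirr := h.irr p hp
  apply hirr.not_isUnit
  have hne : p.coeff 0 ≠ 0 := by
    intro h2; apply hirr.ne_zero; rw [h1, h2]; simp
  rw [h1]
  exact (isUnit_iff_ne_zero.mpr hne).map C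

/-- few pairs of quadrics do not share four typical lines -/
theorem Nice.pairs (h : Nice c S T σ) (hB : Bezout) (hσ0 : 0 ≤ σ) (hσ : σ ≤ 1 / 10) :
    ((((Quad S ×ˢ Quad S).filter fun x => ¬ adj4 T x.1 x.2).card : ℕ) : ℝ) ≤ 5 * σ * c.m ^ 2 := by
  set Q := Quad S with hQ
  have hQS : Q ⊆ S := Finset.filter_subset _ _
  have hdeg : ∀ p ∈ Q, p.totalDegree = 2 := fun p hp => (Finset.mem_filter.mp hp).2.1
  have hdgQ : dg Q = 2 * Q.card := by
    rw [dg, Finset.sum_congr rfl hdeg, Finset.sum_const, smul_eq_mul, mul_comm]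
  have hdgQS : dg (S \ Q) + 2 * Q.card = dg S := by
    rw [← hdgQ]; exact Finset.sum_sdiff hQS
  -- identity on a line
  have hline : ∀ p ∈ S, ∀ l ∈ T, ordL l p =
      ∑ p' ∈ S.erase p, ordL l p * ordL l p' + ordL l p * (ordL l p - 1) := by
    intro p hp l hl
    have h2 := h.sum_two hl
    rw [← Finset.add_sum_erase S (fun p => ordL l p) hp] at h2
    rw [← Finset.mul_sum]
    have h3 : ∑ p' ∈ S.erase p, ordL l p' = 2 - ordL l p := by omega
    rw [h3]
    have h4 : ordL l p ≤ 2 := by omega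
    interval_cases ordL l p <;> rfl
  -- upper bound on the lines on a quadric
  have hup : ∀ p ∈ Q, ∑ l ∈ T, ordL l p ≤ ∑ p' ∈ Q.erase p, nn T p p' + 2 * dg (S \ Q) + 2 := by
    intro p hp
    have hpS := hQS hp
    rw [Finset.sum_congr rfl (hline p hpS), Finset.sum_add_distrib, Finset.sum_comm]
    have h5 := bez_two hB (h.irr p hpS) T
    rw [hdeg p hp] at h5
    have h6 : S.erase p = Q.erase p ∪ (S \ Q) := by
      ext x
      simp only [Finset.mem_erase, Finset.mem_union, Finset.mem_sdiff]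
      constructor
      · rintro ⟨h1, h2⟩
        by_cases hx : x ∈ Q
        · exact Or.inl ⟨h1, hx⟩
        · exact Or.inr ⟨h2, hx⟩
      · rintro (⟨h1, h2⟩ | ⟨h1, h2⟩)
        · exact ⟨h1, hQS h2⟩
        · exact ⟨fun hxp => h2 (hxp ▸ hp), h1⟩
    have h7 : Disjoint (Q.erase p) (S \ Q) := by
      rw [Finset.disjoint_left]
      intro x hx hx2
      exact (Finset.mem_sdiff.mp hx2).2 (Finset.mem_erase.mp hx).2
    rw [h6, Finset.sum_union h7]
    have h8 : ∑ p' ∈ S \ Q, ∑ l ∈ T, ordL l p * ordL l p' ≤ 2 * dg (S \ Q) := by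
      rw [dg, Finset.mul_sum]
      refine Finset.sum_le_sum fun p' hp' => ?_
      obtain ⟨h9, h10⟩ := Finset.mem_sdiff.mp hp'
      have := bez_one hB (h.irr p hpS) (h.not_dvd hpS h9 fun hh => h10 (hh ▸ hp)) T
      rwa [hdeg p hp] at this
    have h11 : ∑ p' ∈ Q.erase p, ∑ l ∈ T, ordL l p * ordL l p' = ∑ p' ∈ Q.erase p, nn T p p' := rfl
    rw [h11]
    omega
  -- pairs
  have hn4 : ∀ p ∈ Q, ∀ p' ∈ Q, p ≠ p' → nn T p p' ≤ 4 := by
    intro p hp p' hp' hne
    have := bez_one hB (h.irr p (hQS hp)) (h.not_dvd (hQS hp) (hQS hp') hne) T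
    rw [hdeg p hp, hdeg p' hp'] at this
    exact this
  have hpair : ∑ p ∈ Q, ∑ p' ∈ Q.erase p, nn T p p' +
      ((Q ×ˢ Q).filter fun x => ¬ adj4 T x.1 x.2).card + 3 * Q.card ≤ 4 * (Q.card * Q.card) := by
    rw [Finset.card_filter, Finset.sum_product, ← Finset.sum_add_distrib]
    have : ∀ p ∈ Q, ∑ p' ∈ Q.erase p, nn T p p' + ∑ p' ∈ Q, (if ¬ adj4 T p p' then 1 else 0) + 3 ≤
        4 * Q.card := by
      intro p hp
      rw [← Finset.add_sum_erase Q (fun p' => if ¬ adj4 T p p' then 1 else 0) hp]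
      have h1 : (if ¬ adj4 T p p then 1 else 0) = 1 := if_pos fun hh => hh.1 rfl
      have h2 : ∑ p' ∈ Q.erase p, nn T p p' + ∑ p' ∈ Q.erase p, (if ¬ adj4 T p p' then 1 else 0) ≤
          4 * (Q.card - 1) := by
        rw [← Finset.sum_add_distrib]
        calc _ ≤ ∑ p' ∈ Q.erase p, 4 := by
              refine Finset.sum_le_sum fun p' hp' => ?_
              obtain ⟨hpp, hp'Q⟩ := Finset.mem_erase.mp hp'
              have := hn4 p hp p' hp'Q hpp.symm
              by_cases h4 : nn T p p' = 4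
              · have : adj4 T p p' := ⟨hpp.symm, h4⟩
                rw [if_neg (not_not.mpr this), h4]
              · split_ifs <;> omega
          _ = 4 * (Q.card - 1) := by
              rw [Finset.sum_const, smul_eq_mul, Finset.card_erase_of_mem hp, mul_comm]
      have h3 : 1 ≤ Q.card := Finset.card_pos.mpr ⟨p, hp⟩
      simp only [h1]
      omega
    have h4 := Finset.sum_le_sum this
    rw [Finset.sum_add_distrib, Finset.sum_const, Finset.sum_const, smul_eq_mul, smul_eq_mul] at h4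
    linarith
  have hlow := h.lower hB hσ0 hσ hQS
  have htot : ∑ l ∈ T, ∑ p ∈ Q, ordL l p ≤ ∑ p ∈ Q, ∑ p' ∈ Q.erase p, nn T p p' +
      2 * Q.card * dg (S \ Q) + 2 * Q.card := by
    rw [Finset.sum_comm]
    refine (Finset.sum_le_sum hup).trans (le_of_eq ?_)
    rw [Finset.sum_add_distrib, Finset.sum_add_distrib, Finset.sum_const, Finset.sum_const,
      smul_eq_mul, smul_eq_mul]
    ring
  have htot' : ((∑ l ∈ T, ∑ p ∈ Q, ordL l p : ℕ) : ℝ) ≤
      ((∑ p ∈ Q, ∑ p' ∈ Q.erase p, nn T p p' : ℕ) : ℝ) + 2 * Q.card * dg (S \ Q) + 2 * Q.card := by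
    exact_mod_cast htot
  have hpair' : ((∑ p ∈ Q, ∑ p' ∈ Q.erase p, nn T p p' : ℕ) : ℝ) +
      ((((Q ×ˢ Q).filter fun x => ¬ adj4 T x.1 x.2).card : ℕ) : ℝ) + 3 * Q.card ≤
      4 * (Q.card * Q.card) := by
    exact_mod_cast hpair
  have hdgQS' : (dg (S \ Q) : ℝ) + 2 * Q.card = dg S := by exact_mod_cast hdgQS
  rw [hdgQ, Nat.cast_mul, Nat.cast_ofNat, ← hdgQS'] at hlow
  have hQ0 : (0 : ℝ) ≤ Q.card := Nat.cast_nonneg _
  linarith

/-- the number of quadrics is small -/
theorem Nice.quads (h : Nice c S T σ) (hB : Bezout) (hCl : CliqueStmt) (hσ0 : 0 ≤ σ)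
    (hσ : σ ≤ 1 / 10) : ((Quad S).card : ℝ) ^ 2 ≤ 4 ^ 16 * (5 * σ * c.m ^ 2) := by
  by_contra hcon
  push Not at hcon
  have hQS : Quad S ⊆ S := Finset.filter_subset _ _
  have h1 := h.pairs hB hσ0 hσ
  have h2 : 4 ^ 16 * (((Quad S ×ˢ Quad S).filter fun x => ¬ adj4 T x.1 x.2).card) <
      (Quad S).card ^ 2 := by
    have h3 : (4 : ℝ) ^ 16 * ((((Quad S ×ˢ Quad S).filter fun x => ¬ adj4 T x.1 x.2).card : ℕ) : ℝ) <
        ((Quad S).card : ℝ) ^ 2 := by
      refine lt_of_le_of_lt ?_ hcon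
      exact mul_le_mul_of_nonneg_left h1 (by positivity)
    exact_mod_cast h3
  obtain ⟨f, hf, hadj⟩ := exists_clique (adj4 T)
    (fun x y hxy => ⟨hxy.1.symm, by rw [nn_symm]; exact hxy.2⟩) 16 (Quad S) h2
  refine hCl f (fun k => h.irr _ (hQS (hf k))) (fun k => (Finset.mem_filter.mp (hf k)).2.1)
    (fun k => (Finset.mem_filter.mp (hf k)).2.2) fun k k' hkk => ?_
  obtain ⟨hne, hn⟩ := hadj k k' hkk
  set A := T.filter fun l => 1 ≤ ordL l (f k) ∧ 1 ≤ ordL l (f k') with hA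
  have hS : ∀ k, f k ∈ S := fun k => hQS (hf k)
  have hsum : ∀ l ∈ T, ordL l (f k) + ordL l (f k') +
      ∑ p ∈ (S.erase (f k)).erase (f k'), ordL l p = 2 := by
    intro l hl
    have h3 := h.sum_two hl
    rw [← Finset.add_sum_erase S (fun p => ordL l p) (hS k)] at h3
    rw [← Finset.add_sum_erase (S.erase (f k)) (fun p => ordL l p)
      (Finset.mem_erase.mpr ⟨hne.symm, hS k'⟩)] at h3
    omega
  have hcard : A.card = 4 := by
    rw [← hn, nn, hA, Finset.card_filter]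
    refine Finset.sum_congr rfl fun l hl => ?_
    have h3 := hsum l hl
    split_ifs with h4
    · have h5 : ordL l (f k) = 1 := by omega
      have h6 : ordL l (f k') = 1 := by omega
      rw [h5, h6]
    · have h5 : ordL l (f k) = 0 ∨ ordL l (f k') = 0 := by omega
      rcases h5 with h5 | h5 <;> simp [h5]
  refine ⟨A, hcard, fun l hl => ?_⟩
  obtain ⟨hlT, h4, h5⟩ := Finset.mem_filter.mp hl
  refine ⟨?_, ?_, fun k'' h6 h7 hmem => ?_⟩
  · have := (mem_I_pow_iff l (h.irr _ (hS k)).ne_zero 1).mpr h4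
    rwa [pow_one] at this
  · have := (mem_I_pow_iff l (h.irr _ (hS k')).ne_zero 1).mpr h5
    rwa [pow_one] at this
  · have h8 : 1 ≤ ordL l (f k'') :=
      (mem_I_pow_iff l (h.irr _ (hS k'')).ne_zero 1).mp (by rwa [pow_one])
    have h9 : f k'' ∈ (S.erase (f k)).erase (f k') :=
      Finset.mem_erase.mpr ⟨(hadj k'' k' h7).1, Finset.mem_erase.mpr ⟨(hadj k'' k h6).1, hS k''⟩⟩
    have h10 : ordL l (f k'') ≤ ∑ p ∈ (S.erase (f k)).erase (f k'), ordL l p :=
      Finset.single_le_sum (f := fun p => ordL l p) (fun _ _ => Nat.zero_le _) h9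
    have h11 := hsum l hlT
    omega

/-- the total degree of the components that are not planes is small -/
theorem Nice.nonplanar (h : Nice c S T σ) (hB : Bezout) (hQ : QuadricStmt) (hCl : CliqueStmt)
    (hσ0 : 0 ≤ σ) (hσ : σ ≤ 1 / 10) (hm : 0 < c.m) {κ : ℝ} (hκ0 : 0 ≤ κ)
    (hκ : 4 ^ 16 * (5 * σ) ≤ κ ^ 2) :
    (dg (S.filter fun p => 2 ≤ p.totalDegree) : ℝ) ≤ (3970 * σ + 2 * κ) * c.m := by
  have hk : ((Quad S).card : ℝ) ≤ κ * c.m := by
    have h1 := h.quads hB hCl hσ0 hσ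
    have h2 : ((Quad S).card : ℝ) ^ 2 ≤ (κ * c.m) ^ 2 := by
      refine h1.trans ?_
      calc (4 : ℝ) ^ 16 * (5 * σ * c.m ^ 2) = 4 ^ 16 * (5 * σ) * c.m ^ 2 := by ring
        _ ≤ κ ^ 2 * c.m ^ 2 := mul_le_mul_of_nonneg_right hκ (by positivity)
        _ = _ := by ring
    exact (pow_le_pow_iff_left₀ (Nat.cast_nonneg _) (by positivity) two_ne_zero).mp h2
  have hdgQ : dg (Quad S) = 2 * (Quad S).card := by
    rw [dg, Finset.sum_congr rfl fun p hp => (Finset.mem_filter.mp hp).2.1, Finset.sum_const,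
      smul_eq_mul, mul_comm]
  have hcover : (S.filter fun p => 2 ≤ p.totalDegree) ⊆
      (Finset.univ : Finset (Fin 3 × Fin 3 × Fin 4)).biUnion (Sharp S) ∪
      ((S.filter fun p => Dev p ∧ 2 ≤ p.totalDegree) ∪ Quad S) := by
    intro p hp
    obtain ⟨hpS, h2⟩ := Finset.mem_filter.mp hp
    rcases h.cases hQ hpS h2 with ⟨x, hx⟩ | h3 | h3
    · exact Finset.mem_union_left _ (Finset.mem_biUnion.mpr ⟨x, Finset.mem_univ _, hx⟩)
    · exact Finset.mem_union_right _ (Finset.mem_union_left _ h3)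
    · exact Finset.mem_union_right _ (Finset.mem_union_right _ h3)
  have hun : ∀ A B : Finset P3, dg (A ∪ B) ≤ dg A + dg B := by
    intro A B
    unfold dg
    rw [← Finset.sum_union_inter]
    exact Nat.le_add_right _ _
  have h1 : dg (S.filter fun p => 2 ≤ p.totalDegree) ≤
      ∑ x : Fin 3 × Fin 3 × Fin 4, dg (Sharp S x) +
      (dg (S.filter fun p => Dev p ∧ 2 ≤ p.totalDegree) + dg (Quad S)) := by
    have h2 : dg (S.filter fun p => 2 ≤ p.totalDegree) ≤ dg _ :=
      Finset.sum_le_sum_of_subset hcover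
    refine h2.trans ((hun _ _).trans (Nat.add_le_add ?_ (hun _ _)))
    have hbi : ∀ X : Finset (Fin 3 × Fin 3 × Fin 4), dg (X.biUnion (Sharp S)) ≤
        ∑ x ∈ X, dg (Sharp S x) := by
      intro X
      induction X using Finset.induction_on with
      | empty => simp [dg]
      | insert a X ha ih =>
        rw [Finset.biUnion_insert, Finset.sum_insert ha]
        exact (hun _ _).trans (Nat.add_le_add_left ih _)
    exact hbi _
  have h2 : (dg (S.filter fun p => 2 ≤ p.totalDegree) : ℝ) ≤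
      ∑ x : Fin 3 × Fin 3 × Fin 4, (dg (Sharp S x) : ℝ) +
      (dg (S.filter fun p => Dev p ∧ 2 ≤ p.totalDegree) + dg (Quad S)) := by
    exact_mod_cast h1
  have h3 : ∑ x : Fin 3 × Fin 3 × Fin 4, (dg (Sharp S x) : ℝ) ≤ 36 * (110 * σ * c.m) := by
    refine (Finset.sum_le_sum fun x _ => h.sharp hB hσ0 hσ hm x).trans (le_of_eq ?_)
    rw [Finset.sum_const, Finset.card_univ]
    simp only [Fintype.card_prod, Fintype.card_fin, nsmul_eq_mul]
    norm_num
  have h4 := h.devs hB hσ0 hσ hm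
  have h5 : (dg (Quad S) : ℝ) = 2 * (Quad S).card := by rw [hdgQ]; push_cast; ring
  linarith

end

/-- T9: the final result over `ℂ` -/
theorem complexStmt (hSurf : SurfStmt) (hM : MinorStmt) (hB : Bezout) (hQ : QuadricStmt)
    (hCl : CliqueStmt) : ComplexStmt := by
  intro δ0 hδ0
  set δ : ℝ := min δ0 1 with hδ
  have hδp : 0 < δ := lt_min hδ0 one_pos
  have hδ1 : δ ≤ 1 := min_le_right _ _
  have hδδ : δ ≤ δ0 := min_le_left _ _
  set κ : ℝ := δ / 20 with hκ
  set σ : ℝ := min (δ / 50000) (κ ^ 2 / (4 ^ 16 * 5)) with hσ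
  have hσp : 0 < σ := lt_min (by positivity) (by positivity)
  have hσ1 : σ ≤ δ / 50000 := min_le_left _ _
  have hσκ : 4 ^ 16 * (5 * σ) ≤ κ ^ 2 := by
    have : σ ≤ κ ^ 2 / (4 ^ 16 * 5) := min_le_right _ _
    rw [le_div_iff₀ (by positivity)] at this
    linarith
  obtain ⟨ε, hε, N0, hN0⟩ := exists_nice hSurf hM hσp
  refine ⟨ε, hε, max N0 1, fun c hc hnear => ?_⟩
  obtain ⟨S, T, h⟩ := hN0 c ((le_max_left _ _).trans hc) hnear
  have hL1 : 1 ≤ c.L.card := (le_max_right _ _).trans hc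
  have hm : 0 < c.m := by
    unfold Cfg.m
    apply Real.sqrt_pos.mpr
    have : (1 : ℝ) ≤ c.L.card := by exact_mod_cast hL1
    linarith
  have hm2 : 0 < c.m ^ 2 := by positivity
  have hm3 : 0 < c.m ^ 3 := by positivity
  have hσ10 : σ ≤ 1 / 10 := by linarith
  have hnp := h.nonplanar hB hQ hCl hσp.le hσ10 hm (κ := κ) (by positivity) hσκ
  set P := S.filter fun p => p.totalDegree = 1 with hP
  set NP := S.filter fun p => 2 ≤ p.totalDegree with hNP
  refine ⟨P, fun p hp => (Finset.mem_filter.mp hp).2, fun p hp p' hp' hpp =>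
    h.ass p (Finset.mem_filter.mp hp).1 p' (Finset.mem_filter.mp hp').1 hpp, ?_, ?_, ?_⟩
  · have h1 : P.card ≤ dg S := by
      calc P.card = ∑ p ∈ P, 1 := by simp
        _ ≤ ∑ p ∈ P, p.totalDegree := Finset.sum_le_sum fun p hp => (Finset.mem_filter.mp hp).2.ge
        _ ≤ dg S := Finset.sum_le_sum_of_subset (Finset.filter_subset _ _)
    have h2 : (P.card : ℝ) ≤ dg S := by exact_mod_cast h1
    refine h2.trans (h.deg'.trans ?_)
    exact mul_le_mul_of_nonneg_right (by linarith) hm.le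
  · set Bd := T.filter fun l => ∃ p ∈ NP, 1 ≤ ordL l p with hBd
    have h1 : {l ∈ (c.L : Set Ln) | ¬ ∃ p ∈ P, ∃ p' ∈ P, p ≠ p' ∧ p ∈ l.I ∧ p' ∈ l.I} ⊆
        ((c.L \ T ∪ Bd : Finset Ln) : Set Ln) := by
      rintro l ⟨hlL, hl2⟩
      rw [Finset.mem_coe, Finset.mem_union, Finset.mem_sdiff]
      by_contra hcon
      push Not at hcon
      obtain ⟨h3, h4⟩ := hcon
      have hlT : l ∈ T := h3 hlL
      have h5 : ∀ p ∈ NP, ordL l p = 0 := by
        intro p hp
        by_contra hne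
        exact h4 (Finset.mem_filter.mpr ⟨hlT, p, hp, by omega⟩)
      apply hl2
      have h6 := h.sum_two hlT
      have h7 : S = P ∪ NP := by
        ext p
        rw [Finset.mem_union, hP, hNP, Finset.mem_filter, Finset.mem_filter]
        constructor
        · intro hp
          have := h.degPos hp
          by_cases h8 : p.totalDegree = 1
          · exact Or.inl ⟨hp, h8⟩
          · exact Or.inr ⟨hp, by omega⟩
        · rintro (h8 | h8)
          · exact h8.1
          · exact h8.1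
      have h8 : Disjoint P NP := by
        rw [Finset.disjoint_left]
        intro p hp hp2
        have h9 := (Finset.mem_filter.mp hp).2
        have h10 := (Finset.mem_filter.mp hp2).2
        omega
      rw [h7, Finset.sum_union h8, Finset.sum_eq_zero h5, add_zero] at h6
      have hP1 : ∀ p ∈ P, ordL l p ≤ 1 := by
        intro p hp
        obtain ⟨hpS, hp1⟩ := Finset.mem_filter.mp hp
        rw [← hp1]
        exact ordL_le_totalDegree l (h.irr p hpS).ne_zero
      obtain ⟨p, hp, hp1⟩ : ∃ p ∈ P, 1 ≤ ordL l p := by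
        by_contra hcon
        push Not at hcon
        rw [Finset.sum_eq_zero fun p hp => by have := hcon p hp; omega] at h6
        omega
      obtain ⟨p', hp', hp1'⟩ : ∃ p' ∈ P.erase p, 1 ≤ ordL l p' := by
        by_contra hcon
        push Not at hcon
        rw [← Finset.add_sum_erase P (fun p => ordL l p) hp,
          Finset.sum_eq_zero fun p hp => by have := hcon p hp; omega] at h6
        have := hP1 p hp
        omega
      obtain ⟨hne, hp'P⟩ := Finset.mem_erase.mp hp'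
      have hmem : ∀ p ∈ P, 1 ≤ ordL l p → p ∈ l.I := by
        intro p hp hp1
        have := (mem_I_pow_iff l (h.irr p (Finset.mem_filter.mp hp).1).ne_zero 1).mpr hp1
        rwa [pow_one] at this
      exact ⟨p, hp, p', hp'P, hne.symm, hmem p hp hp1, hmem p' hp'P hp1'⟩
    have h2 := Set.ncard_le_ncard h1 (Finset.finite_toSet _)
    rw [Set.ncard_coe_finset] at h2
    have h3 : (c.L \ T ∪ Bd).card ≤ (c.L \ T).card + Bd.card := Finset.card_union_le _ _
    have h4 : Bd.card ≤ dg NP * dg S := by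
      refine le_trans ?_ (h.upper' hB (Finset.filter_subset (fun p => 2 ≤ p.totalDegree) S))
      calc Bd.card = ∑ l ∈ Bd, 1 := by simp
        _ ≤ ∑ l ∈ Bd, ∑ p ∈ NP, ordL l p := by
            refine Finset.sum_le_sum fun l hl => ?_
            obtain ⟨hlT, p, hp, hp1⟩ := Finset.mem_filter.mp hl
            exact hp1.trans (Finset.single_le_sum (f := fun p => ordL l p)
              (fun _ _ => Nat.zero_le _) hp)
        _ ≤ _ := Finset.sum_le_sum_of_subset (Finset.filter_subset _ _)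
    have h5 : (c.L \ T).card + T.card = c.L.card := Finset.card_sdiff_add_card_eq_card h.sub
    have h5' : ((c.L \ T).card : ℝ) + T.card = c.L.card := by exact_mod_cast h5
    have h6 := h.card
    have h4' : (Bd.card : ℝ) ≤ (dg NP : ℝ) * dg S := by exact_mod_cast h4
    have h7 : (dg NP : ℝ) * dg S ≤ ((3970 * σ + 2 * κ) * c.m) * ((1 + σ) * c.m) :=
      mul_le_mul hnp h.deg' (Nat.cast_nonneg _) (by positivity)
    have h8 : ((3970 * σ + 2 * κ) * c.m) * ((1 + σ) * c.m) ≤ 1 / 4 * δ * c.m ^ 2 := by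
      have h9 : (3970 * σ + 2 * κ) * (1 + σ) ≤ 1 / 4 * δ := by
        rw [hκ]
        have : (3970 * σ + 2 * (δ / 20)) * (1 + σ) ≤ (18 / 100 * δ) * (11 / 10) := by
          apply mul_le_mul _ (by linarith) (by linarith) (by positivity)
          linarith
        linarith
      calc _ = (3970 * σ + 2 * κ) * (1 + σ) * c.m ^ 2 := by ring
        _ ≤ _ := mul_le_mul_of_nonneg_right h9 hm2.le
    have h9 : (({l ∈ (c.L : Set Ln) | ¬ ∃ p ∈ P, ∃ p' ∈ P, p ≠ p' ∧ p ∈ l.I ∧ p' ∈ l.I}).ncard : ℝ) ≤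
        (c.L \ T).card + Bd.card := by exact_mod_cast h2.trans h3
    have h10 : δ * c.L.card ≤ δ0 * c.L.card := mul_le_mul_of_nonneg_right hδδ (Nat.cast_nonneg _)
    have h11 := m_sq c
    have h12 : σ * c.m ^ 2 ≤ δ / 50000 * c.m ^ 2 := mul_le_mul_of_nonneg_right hσ1 hm2.le
    have h13 : δ * c.L.card = 1 / 2 * δ * c.m ^ 2 := by rw [h11]; ring
    have h14 : 0 < δ * c.m ^ 2 := by positivity
    linarith
  · exact h.reg.trans (mul_le_mul_of_nonneg_right (by linarith) hm3.le)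

end Pool.Agent.Lib.MP_a8d5c3_co.Stab
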