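import Pool.Agent.Lib.MP_a8d5c3_co.Stab.Stmts

/-!
T8: there are no 17 nondegenerate quadrics pairwise sharing four private lines.
-/

set_option autoImplicit false

namespace Pool.Agent.Lib.MP_a8d5c3_co.Stab

namespace Clq

open Matrix

abbrev M2 := Matrix (Fin 2) (Fin 2) ℂ
abbrev I4 := Fin 2 ⊕ Fin 2

/-- a quadratic form on `ℂ^4` in block form -/
structure Qd where
  a : M2
  b : M2
  d : M2
  ha : aᵀ = a
  hd : dᵀ = d

namespace Qd

/-- values of the bilinear form on the planes `{(P y, y)}` and `{(S z, z)}` -/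
def bil (q : Qd) (P S : M2) : M2 := Pᵀ * q.a * S + Pᵀ * q.b + q.bᵀ * S + q.d

/-- the plane `{(P y, y)}` is isotropic -/
def Iso (q : Qd) (P : M2) : Prop := q.bil P P = 0

def K (q : Qd) (P : M2) : M2 := q.a * P + q.b

def mat (q : Qd) : Matrix I4 I4 ℂ := fromBlocks q.a q.b q.bᵀ q.d

theorem bil_transpose (q : Qd) (P S : M2) : (q.bil P S)ᵀ = q.bil S P := by
  unfold bil
  simp only [transpose_add, transpose_mul, transpose_transpose, q.ha, q.hd]
  simp only [Matrix.mul_assoc]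
  abel

theorem mat_transpose (q : Qd) : q.matᵀ = q.mat := by
  unfold mat
  rw [fromBlocks_transpose, q.ha, q.hd, transpose_transpose]

theorem K_transpose (q : Qd) (P : M2) : (q.K P)ᵀ = Pᵀ * q.a + q.bᵀ := by
  unfold K
  simp only [transpose_add, transpose_mul, q.ha]

theorem bil_add (q : Qd) (P D : M2) :
    q.bil (P + D) (P + D) = q.bil P P + (Dᵀ * q.a * D + Dᵀ * q.K P + (q.K P)ᵀ * D) := by
  rw [K_transpose]
  unfold bil K
  simp only [transpose_add, Matrix.mul_add, Matrix.add_mul, Matrix.mul_assoc]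
  abel

theorem K_add (q : Qd) (P D : M2) : q.K (P + D) = q.K P + q.a * D := by
  unfold K
  rw [Matrix.mul_add]; abel

theorem bil_K (q : Qd) (P S : M2) : q.bil P S = Pᵀ * q.K S + (q.bᵀ * S + q.d) := by
  unfold bil K
  rw [Matrix.mul_add, Matrix.mul_assoc]; abel

theorem det_K_sq (q : Qd) {P : M2} (h : q.Iso P) :
    (q.K P).det ^ 2 = q.mat.det * (fromBlocks P 1 1 0 : Matrix I4 I4 ℂ).det := by
  have h1 : q.bᵀ * P + q.d = -(Pᵀ * q.K P) := by
    have := h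
    unfold Iso at this
    rw [bil_K] at this
    exact (neg_eq_of_add_eq_zero_right this).symm
  have h2 : (fromBlocks 1 0 Pᵀ 1 : Matrix I4 I4 ℂ) * q.mat * fromBlocks P 1 1 0 =
      fromBlocks (q.K P) q.a 0 (q.K P)ᵀ := by
    unfold mat
    rw [fromBlocks_multiply, fromBlocks_multiply, K_transpose]
    congr 1
    · simp [K]
    · simp
    · simp only [Matrix.mul_one, Matrix.one_mul]
      rw [Matrix.add_mul, add_assoc, ]
      have : Pᵀ * q.a * P + (q.bᵀ * P + (Pᵀ * q.b + q.d)) = Pᵀ * q.K P + (q.bᵀ * P + q.d) := by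
        unfold K
        rw [Matrix.mul_add, Matrix.mul_assoc]; abel
      rw [this, h1]; abel
    · simp
  have h3 := congrArg Matrix.det h2
  rw [det_mul, det_mul, det_fromBlocks_zero₂₁, det_fromBlocks_zero₁₂, det_transpose] at h3
  simp only [det_one, one_mul] at h3
  rw [h3]; ring

theorem det_K_ne (q : Qd) (hq : q.mat.det ≠ 0) {P : M2} (h : q.Iso P) : (q.K P).det ≠ 0 := by
  intro h0
  have h1 := q.det_K_sq h
  rw [h0] at h1
  have h2 : (fromBlocks P 1 1 0 : Matrix I4 I4 ℂ) * fromBlocks 0 1 1 (-P) = 1 := by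
    rw [fromBlocks_multiply]
    simp
  have h3 := congrArg Matrix.det h2
  rw [det_mul, det_one] at h3
  have h4 : (fromBlocks P 1 1 0 : Matrix I4 I4 ℂ).det ≠ 0 := left_ne_zero_of_mul_eq_one h3
  exact mul_ne_zero hq h4 (by rw [← h1]; simp)

theorem diff_eq (q : Qd) {P P' : M2} (h : q.Iso P) (h' : q.Iso P') :
    (P' - P)ᵀ * q.a * (P' - P) + (P' - P)ᵀ * q.K P + (q.K P)ᵀ * (P' - P) = 0 := by
  have h1 := q.bil_add P (P' - P)
  rw [add_sub_cancel] at h1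
  unfold Iso at h h'
  rw [h, h', zero_add] at h1
  exact h1.symm

theorem det_K_eq (q : Qd) {P P' : M2} (h : q.Iso P) (h' : q.Iso P') (hd : (P' - P).det ≠ 0) :
    (q.K P').det = (q.K P).det := by
  have h1 := q.diff_eq h h'
  have h2 : q.K P' = q.K P + q.a * (P' - P) := by
    rw [← K_add, add_sub_cancel]
  have h3 : (P' - P)ᵀ * q.K P = -((q.K P')ᵀ * (P' - P)) := by
    rw [h2, transpose_add, transpose_mul, q.ha, Matrix.add_mul]
    rw [add_assoc] at h1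
    have h4 := eq_neg_of_add_eq_zero_right h1
    rw [add_comm] at h1
    rw [add_comm, eq_comm, neg_eq_iff_add_eq_zero]
    rw [← h1]; abel
  have h4 := congrArg Matrix.det h3
  rw [det_neg, det_mul, det_mul, det_transpose, det_transpose] at h4
  simp only [Fintype.card_fin, even_two, Even.neg_pow, one_pow, one_mul] at h4
  apply mul_right_cancel₀ hd
  rw [← h4]; ring

theorem aux {x y z p q r s : ℂ} (h0 : p * s = q * r) (hne : p ≠ 0 ∨ q ≠ 0 ∨ r ≠ 0 ∨ s ≠ 0)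
    (e00 : p * (x * p + y * r) + r * (y * p + z * r) + p + p = 0)
    (e01 : p * (x * q + y * s) + r * (y * q + z * s) + q + r = 0)
    (e11 : q * (x * q + y * s) + s * (y * q + z * s) + s + s = 0) :
    (1 + (x * p + y * r)) * (1 + (y * q + z * s)) - (x * q + y * s) * (y * p + z * r) = -1 := by
  have hqr : q = r := by
    have h1 : (q - r) ^ 2 = 0 := by
      have k1 : (p * (x * p + y * r) + r * (y * p + z * r)) * (q * (x * q + y * s) + s * (y * q + z * s)) -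
        (p * (x * q + y * s) + r * (y * q + z * s)) ^ 2 = 0 := by
        have : (p * (x * p + y * r) + r * (y * p + z * r)) * (q * (x * q + y * s) + s * (y * q + z * s)) -
          (p * (x * q + y * s) + r * (y * q + z * s)) ^ 2 =
          (p * s - q * r) ^ 2 * (x * z - y ^ 2) := by ring
        rw [this, h0]; ring
      have k2 : p * (x * p + y * r) + r * (y * p + z * r) = -2 * p := by linear_combination e00
      have k3 : p * (x * q + y * s) + r * (y * q + z * s) = -(q + r) := by linear_combination e01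
      have k4 : q * (x * q + y * s) + s * (y * q + z * s) = -2 * s := by linear_combination e11
      rw [k2, k3, k4] at k1
      linear_combination -k1 + 4 * h0
    have := pow_eq_zero_iff (two_ne_zero) |>.1 h1
    exact sub_eq_zero.1 this
  subst hqr
  have t1 : p * (x * p + 2 * y * q + z * s + 2) = 0 := by linear_combination e00 + z * h0
  have t2 : q * (x * p + 2 * y * q + z * s + 2) = 0 := by linear_combination e01 - y * h0
  have t3 : s * (x * p + 2 * y * q + z * s + 2) = 0 := by linear_combination e11 + x * h0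
  have t : x * p + 2 * y * q + z * s + 2 = 0 := by
    rcases hne with h | h | h | h
    · exact (mul_eq_zero.1 t1).resolve_left h
    · exact (mul_eq_zero.1 t2).resolve_left h
    · exact (mul_eq_zero.1 t2).resolve_left h
    · exact (mul_eq_zero.1 t3).resolve_left h
  linear_combination t + (x * z - y ^ 2) * h0

theorem det_K_neg (q : Qd) (hq : q.mat.det ≠ 0) {P P' : M2} (h : q.Iso P) (h' : q.Iso P')
    (hne : P' ≠ P) (hd : (P' - P).det = 0) : (q.K P').det = -(q.K P).det := by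
  have h1 := q.diff_eq h h'
  have h2 : q.K P' = q.K P + q.a * (P' - P) := by
    rw [← K_add, add_sub_cancel]
  have hK := q.det_K_ne hq h
  have hKu : IsUnit (q.K P).det := isUnit_iff_ne_zero.2 hK
  set k := q.K P with hk
  set D := P' - P with hD
  have hKt : IsUnit kᵀ.det := by rw [det_transpose]; exact hKu
  set Y : M2 := kᵀ * D with hY
  set A : M2 := k⁻¹ * q.a * (kᵀ)⁻¹ with hA
  have hDY : D = (kᵀ)⁻¹ * Y := by
    rw [hY, ← Matrix.mul_assoc, Matrix.nonsing_inv_mul _ hKt, Matrix.one_mul]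
  have hAs : Aᵀ = A := by
    rw [hA, transpose_mul, transpose_mul, q.ha, ← transpose_nonsing_inv, transpose_transpose,
      Matrix.mul_assoc]
  have hYt : Yᵀ = Dᵀ * k := by rw [hY, transpose_mul, transpose_transpose]
  have e1 : Yᵀ * A * Y + Yᵀ + Y = 0 := by
    rw [← h1, hYt]
    have : Dᵀ * k * A * Y = Dᵀ * q.a * D := by
      rw [hA]
      rw [show Dᵀ * k * (k⁻¹ * q.a * (kᵀ)⁻¹) * Y = Dᵀ * (k * k⁻¹) * q.a * ((kᵀ)⁻¹ * Y) by
        simp only [Matrix.mul_assoc]]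
      rw [Matrix.mul_nonsing_inv _ hKu, ← hDY, Matrix.mul_one]
    rw [this]
  have e2 : q.K P' = k * (1 + A * Y) := by
    rw [h2, Matrix.mul_add, Matrix.mul_one, hA]
    congr 1
    rw [show k * (k⁻¹ * q.a * (kᵀ)⁻¹ * Y) = (k * k⁻¹) * q.a * ((kᵀ)⁻¹ * Y) by
        simp only [Matrix.mul_assoc]]
    rw [Matrix.mul_nonsing_inv _ hKu, ← hDY, Matrix.one_mul]
  have e3 : Y.det = 0 := by rw [hY, det_mul, hd, mul_zero]
  have e4 : Y ≠ 0 := by
    intro h0
    rw [h0, Matrix.mul_zero] at hDY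
    exact hne (sub_eq_zero.1 (hD.symm.trans hDY))
  rw [e2, det_mul]
  have key : (1 + A * Y).det = -1 := by
    have hA01 : A 1 0 = A 0 1 := congrFun (congrFun hAs 0) 1
    rw [det_fin_two] at e3
    have f00 := congrFun (congrFun e1 0) 0
    have f01 := congrFun (congrFun e1 0) 1
    have f11 := congrFun (congrFun e1 1) 1
    simp only [Matrix.add_apply, Matrix.mul_apply, Fin.sum_univ_two, transpose_apply,
      Matrix.zero_apply, hA01] at f00 f01 f11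
    have hne' : Y 0 0 ≠ 0 ∨ Y 0 1 ≠ 0 ∨ Y 1 0 ≠ 0 ∨ Y 1 1 ≠ 0 := by
      by_contra hcon
      push Not at hcon
      apply e4
      ext i j
      fin_cases i <;> fin_cases j
      · exact hcon.1
      · exact hcon.2.1
      · exact hcon.2.2.1
      · exact hcon.2.2.2
    have := aux (x := A 0 0) (y := A 0 1) (z := A 1 1) (p := Y 0 0) (q := Y 0 1) (r := Y 1 0)
      (s := Y 1 1) (sub_eq_zero.1 e3) hne' (by linear_combination f00) (by linear_combination f01)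
      (by linear_combination f11)
    rw [det_fin_two]
    simp only [Matrix.add_apply, Matrix.mul_apply, Fin.sum_univ_two, Matrix.one_apply_eq, hA01]
    rw [Matrix.one_apply_ne (show (0 : Fin 2) ≠ 1 by decide),
      Matrix.one_apply_ne (show (1 : Fin 2) ≠ 0 by decide)]
    linear_combination this
  rw [key]; ring

end Qd


namespace Qd

/-- proportional quadrics -/
def Prop2 (q q' : Qd) : Prop := ∃ c : ℂ, q'.a = c • q.a ∧ q'.b = c • q.b ∧ q'.d = c • q.d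

theorem Prop2.bil {q q' : Qd} {c : ℂ} (h : q'.a = c • q.a ∧ q'.b = c • q.b ∧ q'.d = c • q.d)
    (P S : M2) : q'.bil P S = c • q.bil P S := by
  obtain ⟨h1, h2, h3⟩ := h
  unfold Qd.bil
  rw [h1, h2, h3, transpose_smul]
  simp only [Matrix.mul_smul, Matrix.smul_mul, smul_add]

theorem Prop2.iso {q q' : Qd} (h : Prop2 q q') {P : M2} (hP : q.Iso P) : q'.Iso P := by
  obtain ⟨c, hc⟩ := h
  unfold Iso at *
  rw [Prop2.bil hc, hP, smul_zero]

theorem skew_form {Z : M2} (h : Z + Zᵀ = 0) : Z = Z 0 1 • !![0, 1; -1, 0] := by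
  have h00 := congrFun (congrFun h 0) 0
  have h01 := congrFun (congrFun h 0) 1
  have h11 := congrFun (congrFun h 1) 1
  simp only [Matrix.add_apply, transpose_apply, Matrix.zero_apply] at h00 h01 h11
  ext i j
  fin_cases i <;> fin_cases j
  · simp; linear_combination h00 / 2
  · simp
  · simp; linear_combination h01
  · simp; linear_combination h11 / 2

theorem eq_K {q : Qd} {P : M2} (h : q.Iso P) (D : M2) (hD : IsUnit D.det)
    (h' : q.Iso (P + D)) : q.a = -(q.K P * D⁻¹ + (q.K P * D⁻¹)ᵀ) := by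
  have h1 := q.diff_eq h h'
  rw [add_sub_cancel_left] at h1
  have hDt : IsUnit Dᵀ.det := by rw [det_transpose]; exact hD
  have h2 : (Dᵀ)⁻¹ * (Dᵀ * q.a * D + Dᵀ * q.K P + (q.K P)ᵀ * D) * D⁻¹ = 0 := by
    rw [h1]; simp
  have h3 : (Dᵀ)⁻¹ * (Dᵀ * q.a * D + Dᵀ * q.K P + (q.K P)ᵀ * D) * D⁻¹ =
      ((Dᵀ)⁻¹ * Dᵀ) * q.a * (D * D⁻¹) + ((Dᵀ)⁻¹ * Dᵀ) * q.K P * D⁻¹ +
        (Dᵀ)⁻¹ * (q.K P)ᵀ * (D * D⁻¹) := by
    simp only [Matrix.mul_add, Matrix.add_mul, Matrix.mul_assoc]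
  rw [h3, Matrix.nonsing_inv_mul _ hDt, Matrix.mul_nonsing_inv _ hD] at h2
  simp only [Matrix.one_mul, Matrix.mul_one] at h2
  have h4 : (q.K P * D⁻¹)ᵀ = (Dᵀ)⁻¹ * (q.K P)ᵀ := by
    rw [transpose_mul, transpose_nonsing_inv]
  rw [h4, eq_neg_iff_add_eq_zero, ← h2]
  abel

/-- quadrics through three pairwise skew lines are proportional -/
theorem three {q q' : Qd} {P1 P2 P3 : M2} (h21 : (P2 - P1).det ≠ 0) (h31 : (P3 - P1).det ≠ 0)
    (h32 : (P3 - P2).det ≠ 0) (i1 : q.Iso P1) (i2 : q.Iso P2) (i3 : q.Iso P3) (j1 : q'.Iso P1)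
    (j2 : q'.Iso P2) (j3 : q'.Iso P3) (hq : q.mat.det ≠ 0) : Prop2 q q' := by
  set D2 := P2 - P1 with hD2
  set D3 := P3 - P1 with hD3
  have e2 : P2 = P1 + D2 := by rw [hD2]; abel
  have e3 : P3 = P1 + D3 := by rw [hD3]; abel
  clear_value D2 D3
  have u2 : IsUnit D2.det := isUnit_iff_ne_zero.2 h21
  have u3 : IsUnit D3.det := isUnit_iff_ne_zero.2 h31
  rw [e2] at i2 j2
  rw [e3] at i3 j3
  have a2 := eq_K i1 D2 u2 i2
  have a3 := eq_K i1 D3 u3 i3
  have b2 := eq_K j1 D2 u2 j2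
  have b3 := eq_K j1 D3 u3 j3
  set E := D2⁻¹ - D3⁻¹ with hE
  have hEdet : IsUnit E.det := by
    have h1 : D2 * E * D3 = D3 - D2 := by
      rw [hE, Matrix.mul_sub, Matrix.mul_nonsing_inv _ u2, Matrix.sub_mul, Matrix.one_mul,
        Matrix.mul_assoc, Matrix.nonsing_inv_mul _ u3, Matrix.mul_one]
    have h2 : D3 - D2 = P3 - P2 := by rw [hD3, hD2]; abel
    rw [h2] at h1
    have h3 := congrArg Matrix.det h1
    rw [det_mul, det_mul] at h3
    rw [isUnit_iff_ne_zero]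
    intro h0
    rw [h0] at h3
    apply h32
    rw [← h3]; ring
  have sk : ∀ r : Qd, r.a = -(r.K P1 * D2⁻¹ + (r.K P1 * D2⁻¹)ᵀ) →
      r.a = -(r.K P1 * D3⁻¹ + (r.K P1 * D3⁻¹)ᵀ) → r.K P1 * E + (r.K P1 * E)ᵀ = 0 := by
    intro r h1 h2
    rw [h1] at h2
    have h3 := neg_injective h2
    rw [hE, Matrix.mul_sub, transpose_sub]
    have : r.K P1 * D2⁻¹ - r.K P1 * D3⁻¹ + ((r.K P1 * D2⁻¹)ᵀ - (r.K P1 * D3⁻¹)ᵀ) =
      (r.K P1 * D2⁻¹ + (r.K P1 * D2⁻¹)ᵀ) - (r.K P1 * D3⁻¹ + (r.K P1 * D3⁻¹)ᵀ) := by abel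
    rw [this, h3, sub_self]
  have s1 := skew_form (sk q a2 a3)
  have s2 := skew_form (sk q' b2 b3)
  set z := (q.K P1 * E) 0 1 with hz
  set z' := (q'.K P1 * E) 0 1 with hz'
  have hz0 : z ≠ 0 := by
    intro h0
    rw [h0, zero_smul] at s1
    have h1 := congrArg Matrix.det s1
    rw [det_mul, det_zero] at h1
    exact mul_ne_zero (q.det_K_ne hq i1) hEdet.ne_zero h1
  refine ⟨z' / z, ?_⟩
  have hK : q'.K P1 = (z' / z) • q.K P1 := by
    have h1 : q'.K P1 * E = (z' / z) • (q.K P1 * E) := by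
      rw [s1, s2, smul_smul, div_mul_cancel₀ _ hz0]
    have h2 : q'.K P1 * E * E⁻¹ = (z' / z) • (q.K P1 * E) * E⁻¹ := by rw [h1]
    rw [Matrix.smul_mul, Matrix.mul_assoc, Matrix.mul_assoc, Matrix.mul_nonsing_inv _ hEdet,
      Matrix.mul_one, Matrix.mul_one] at h2
    exact h2
  have ha : q'.a = (z' / z) • q.a := by
    rw [b2, a2, hK, Matrix.smul_mul, transpose_smul, ← smul_add, smul_neg]
  have hb : q'.b = (z' / z) • q.b := by
    have h1 : q'.b = q'.K P1 - q'.a * P1 := by unfold K; abel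
    rw [h1, hK, ha, Matrix.smul_mul, ← smul_sub]
    congr 1
    unfold K; abel
  refine ⟨ha, hb, ?_⟩
  have h1 : ∀ r : Qd, r.Iso P1 → r.d = -(P1ᵀ * r.K P1 + r.bᵀ * P1) := by
    intro r hr
    unfold Iso at hr
    rw [bil_K] at hr
    rw [eq_neg_iff_add_eq_zero, ← hr]; abel
  rw [h1 q' j1, h1 q i1, hK, hb, transpose_smul, Matrix.mul_smul, Matrix.smul_mul, ← smul_add,
    smul_neg]

theorem sign {q : Qd} (hq : q.mat.det ≠ 0) {P P' : M2} (h : q.Iso P) (h' : q.Iso P') :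
    (q.K P').det = (q.K P).det ∨ (q.K P').det = -(q.K P).det := by
  by_cases hne : P' = P
  · left; rw [hne]
  · by_cases hd : (P' - P).det = 0
    · exact Or.inr (q.det_K_neg hq h h' hne hd)
    · exact Or.inl (q.det_K_eq h h' hd)

theorem det_ne_of_eq {q : Qd} (hq : q.mat.det ≠ 0) {P P' : M2} (h : q.Iso P) (h' : q.Iso P')
    (hne : P' ≠ P) (he : (q.K P').det = (q.K P).det) : (P' - P).det ≠ 0 := by
  intro hd
  have h1 := q.det_K_neg hq h h' hne hd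
  rw [he] at h1
  have h2 := q.det_K_ne hq h
  apply h2
  linear_combination h1 / 2

theorem det_eq_of_neg {q : Qd} (hq : q.mat.det ≠ 0) {P P' : M2} (h : q.Iso P) (h' : q.Iso P')
    (he : (q.K P').det = -(q.K P).det) : (P' - P).det = 0 := by
  by_contra hd
  have h1 := q.det_K_eq h h' hd
  rw [he] at h1
  have h2 := q.det_K_ne hq h
  apply h2
  linear_combination -h1 / 2

theorem det_sub_comm (P P' : M2) : (P' - P).det = (P - P').det := by
  rw [← neg_sub, det_neg]; simp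

/-- at most two common planes of each sign -/
theorem card_sign {q q' : Qd} (hq : q.mat.det ≠ 0) (hp : ¬ Prop2 q q') (S : Finset M2)
    (hS : ∀ P ∈ S, q.Iso P ∧ q'.Iso P) (e : ℂ) :
    (S.filter fun P => (q.K P).det = e).card ≤ 2 := by
  by_contra hcon
  obtain ⟨T, hT, hc⟩ := Finset.exists_subset_card_eq
    (show 3 ≤ (S.filter fun P => (q.K P).det = e).card by omega)
  obtain ⟨P1, P2, P3, n12, n13, n23, rfl⟩ := Finset.card_eq_three.1 hc
  have m1 := Finset.mem_filter.1 (hT (show P1 ∈ ({P1, P2, P3} : Finset M2) by simp))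
  have m2 := Finset.mem_filter.1 (hT (show P2 ∈ ({P1, P2, P3} : Finset M2) by simp))
  have m3 := Finset.mem_filter.1 (hT (show P3 ∈ ({P1, P2, P3} : Finset M2) by simp))
  obtain ⟨i1, j1⟩ := hS _ m1.1
  obtain ⟨i2, j2⟩ := hS _ m2.1
  obtain ⟨i3, j3⟩ := hS _ m3.1
  exact hp (three (det_ne_of_eq hq i1 i2 n12.symm (m2.2.trans m1.2.symm))
    (det_ne_of_eq hq i1 i3 n13.symm (m3.2.trans m1.2.symm))
    (det_ne_of_eq hq i2 i3 n23.symm (m3.2.trans m2.2.symm)) i1 i2 i3 j1 j2 j3 hq)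

theorem two_of {q q' : Qd} (hq : q.mat.det ≠ 0) (hp : ¬ Prop2 q q') {S : Finset M2}
    (hc : S.card = 4) (hS : ∀ P ∈ S, q.Iso P ∧ q'.Iso P) {W : M2} (hW : q.Iso W) :
    ∃ S1 ∈ S, ∃ S2 ∈ S, S1 ≠ S2 ∧ (q.K S1).det = (q.K W).det ∧ (q.K S2).det = (q.K W).det := by
  classical
  have h1 := card_sign hq hp S hS (q.K W).det
  have h2 := card_sign hq hp S hS (-(q.K W).det)
  have h3 : S = (S.filter fun P => (q.K P).det = (q.K W).det) ∪
      (S.filter fun P => (q.K P).det = -(q.K W).det) := by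
    rw [← Finset.filter_or]
    symm
    apply Finset.filter_true_of_mem
    intro P hP
    exact sign hq hW (hS P hP).1
  have h4 := Finset.card_union_le (S.filter fun P => (q.K P).det = (q.K W).det)
      (S.filter fun P => (q.K P).det = -(q.K W).det)
  rw [← h3, hc] at h4
  have h5 : (S.filter fun P => (q.K P).det = (q.K W).det).card = 2 := by omega
  obtain ⟨S1, S2, hne, he⟩ := Finset.card_eq_two.1 h5
  have m1 : S1 ∈ S.filter fun P => (q.K P).det = (q.K W).det := by rw [he]; simp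
  have m2 : S2 ∈ S.filter fun P => (q.K P).det = (q.K W).det := by rw [he]; simp
  exact ⟨S1, (Finset.mem_filter.1 m1).1, S2, (Finset.mem_filter.1 m2).1, hne,
    (Finset.mem_filter.1 m1).2, (Finset.mem_filter.1 m2).2⟩

theorem two_of_neg {q q' : Qd} (hq : q.mat.det ≠ 0) (hp : ¬ Prop2 q q') {S : Finset M2}
    (hc : S.card = 4) (hS : ∀ P ∈ S, q.Iso P ∧ q'.Iso P) {W : M2} (hW : q.Iso W) :
    ∃ S1 ∈ S, ∃ S2 ∈ S, S1 ≠ S2 ∧ (q.K S1).det = -(q.K W).det ∧
      (q.K S2).det = -(q.K W).det := by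
  classical
  have h1 := card_sign hq hp S hS (q.K W).det
  have h2 := card_sign hq hp S hS (-(q.K W).det)
  have h3 : S = (S.filter fun P => (q.K P).det = (q.K W).det) ∪
      (S.filter fun P => (q.K P).det = -(q.K W).det) := by
    rw [← Finset.filter_or]
    symm
    apply Finset.filter_true_of_mem
    intro P hP
    exact sign hq hW (hS P hP).1
  have h4 := Finset.card_union_le (S.filter fun P => (q.K P).det = (q.K W).det)
      (S.filter fun P => (q.K P).det = -(q.K W).det)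
  rw [← h3, hc] at h4
  have h5 : (S.filter fun P => (q.K P).det = -(q.K W).det).card = 2 := by omega
  obtain ⟨S1, S2, hne, he⟩ := Finset.card_eq_two.1 h5
  have m1 : S1 ∈ S.filter fun P => (q.K P).det = -(q.K W).det := by rw [he]; simp
  have m2 : S2 ∈ S.filter fun P => (q.K P).det = -(q.K W).det := by rw [he]; simp
  exact ⟨S1, (Finset.mem_filter.1 m1).1, S2, (Finset.mem_filter.1 m2).1, hne,
    (Finset.mem_filter.1 m1).2, (Finset.mem_filter.1 m2).2⟩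

end Qd


/-- determinant of two vectors -/
def det2 (y z : Fin 2 → ℂ) : ℂ := y 0 * z 1 - y 1 * z 0

theorem ne_zero_of_det2 {y z : Fin 2 → ℂ} (h : det2 y z ≠ 0) : y ≠ 0 ∧ z ≠ 0 := by
  constructor
  · rintro rfl; exact h (by simp [det2])
  · rintro rfl; exact h (by simp [det2])

theorem det2_smul_add (y z : Fin 2 → ℂ) (s : ℂ) : det2 y (y + s • z) = s * det2 y z := by
  simp only [det2, Pi.add_apply, Pi.smul_apply, smul_eq_mul]; ring

theorem expand (y z w : Fin 2 → ℂ) : det2 y z • w = det2 w z • y + det2 y w • z := by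
  ext i
  fin_cases i
  · simp [det2]; ring
  · simp [det2]; ring

/-- columns -/
def cols (y z : Fin 2 → ℂ) : M2 := !![y 0, z 0; y 1, z 1]

theorem det_cols (y z : Fin 2 → ℂ) : (cols y z).det = det2 y z := by
  simp [cols, det2, det_fin_two]; ring

theorem par {X Y Z : M2} {y z : Fin 2 → ℂ} (hy : y ≠ 0) (hz : z ≠ 0) (h1 : X *ᵥ y = Y *ᵥ y)
    (h2 : X *ᵥ z = Z *ᵥ z) (hd : (Y - Z).det ≠ 0) : det2 y z ≠ 0 := by
  intro h0
  apply hy
  have h3 : X *ᵥ y = Z *ᵥ y := by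
    have key : ∃ t : ℂ, y = t • z := by
      have hz' : z 0 ≠ 0 ∨ z 1 ≠ 0 := by
        by_contra hcon
        push Not at hcon
        apply hz
        ext i
        fin_cases i
        · exact hcon.1
        · exact hcon.2
      unfold det2 at h0
      rcases hz' with h | h
      · refine ⟨y 0 / z 0, ?_⟩
        ext i
        fin_cases i
        · simp [h]
        · simp only [Fin.mk_one, Pi.smul_apply, smul_eq_mul]
          rw [div_mul_eq_mul_div, eq_div_iff h]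
          linear_combination -h0
      · refine ⟨y 1 / z 1, ?_⟩
        ext i
        fin_cases i
        · simp only [Fin.zero_eta, Pi.smul_apply, smul_eq_mul]
          rw [div_mul_eq_mul_div, eq_div_iff h]
          linear_combination h0
        · simp [h]
    obtain ⟨t, rfl⟩ := key
    rw [mulVec_smul, mulVec_smul, h2]
  apply Matrix.eq_zero_of_mulVec_eq_zero hd
  rw [sub_mulVec, ← h1, ← h3, sub_self]

/-- the vectors of the plane of `P` -/
def emb (P : M2) (y : Fin 2 → ℂ) : I4 → ℂ := Sum.elim (P *ᵥ y) y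

theorem emb_congr {P S : M2} {y : Fin 2 → ℂ} (h : P *ᵥ y = S *ᵥ y) : emb P y = emb S y := by
  unfold emb; rw [h]

theorem emb_add (P : M2) (y z : Fin 2 → ℂ) : emb P (y + z) = emb P y + emb P z := by
  unfold emb
  rw [mulVec_add]
  funext i
  rcases i with i | i <;> rfl

theorem emb_smul (P : M2) (s : ℂ) (y : Fin 2 → ℂ) : emb P (s • y) = s • emb P y := by
  unfold emb
  rw [mulVec_smul]
  funext i
  rcases i with i | i <;> rfl

namespace Qd

/-- the bilinear form on vectors -/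
def g (q : Qd) (v w : I4 → ℂ) : ℂ := v ⬝ᵥ (q.mat *ᵥ w)

theorem g_comm (q : Qd) (v w : I4 → ℂ) : q.g v w = q.g w v := by
  unfold g
  rw [dotProduct_mulVec, ← mulVec_transpose, mat_transpose, dotProduct_comm]

theorem g_add_right (q : Qd) (v w w' : I4 → ℂ) : q.g v (w + w') = q.g v w + q.g v w' := by
  unfold g
  rw [mulVec_add, dotProduct_add]

theorem g_smul_right (q : Qd) (v w : I4 → ℂ) (s : ℂ) : q.g v (s • w) = s * q.g v w := by
  unfold g
  rw [mulVec_smul, dotProduct_smul, smul_eq_mul]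

theorem g_add_left (q : Qd) (v v' w : I4 → ℂ) : q.g (v + v') w = q.g v w + q.g v' w := by
  unfold g
  rw [add_dotProduct]

theorem g_smul_left (q : Qd) (v w : I4 → ℂ) (s : ℂ) : q.g (s • v) w = s * q.g v w := by
  unfold g
  rw [smul_dotProduct, smul_eq_mul]

theorem g_emb (q : Qd) (P S : M2) (y z : Fin 2 → ℂ) :
    q.g (emb P y) (emb S z) = y ⬝ᵥ (q.bil P S *ᵥ z) := by
  unfold g emb mat bil
  simp only [dotProduct, mulVec, Fintype.sum_sum_type, Fin.sum_univ_two, Sum.elim_inl,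
    Sum.elim_inr, fromBlocks_apply₁₁, fromBlocks_apply₁₂, fromBlocks_apply₂₁, fromBlocks_apply₂₂,
    Matrix.add_apply, Matrix.mul_apply, transpose_apply]
  ring

theorem g_iso {q : Qd} {P : M2} (h : q.Iso P) (y z : Fin 2 → ℂ) :
    q.g (emb P y) (emb P z) = 0 := by
  rw [g_emb]
  unfold Iso at h
  rw [h]; simp

theorem iso_of_basis {q : Qd} {U : M2} {y z : Fin 2 → ℂ} (hd : det2 y z ≠ 0)
    (h1 : q.g (emb U y) (emb U y) = 0) (h2 : q.g (emb U y) (emb U z) = 0)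
    (h3 : q.g (emb U z) (emb U z) = 0) : q.Iso U := by
  rw [g_emb] at h1 h2 h3
  have hs : (q.bil U U) 1 0 = (q.bil U U) 0 1 := by
    have := q.bil_transpose U U
    exact congrFun (congrFun this 0) 1
  unfold Iso
  have hY : IsUnit (cols y z).det := by rw [det_cols]; exact isUnit_iff_ne_zero.2 hd
  have hYt : IsUnit (cols y z)ᵀ.det := by rw [det_transpose]; exact hY
  have h4 : (cols y z)ᵀ * q.bil U U * cols y z = 0 := by
    simp only [dotProduct, mulVec, Fin.sum_univ_two, hs] at h1 h2 h3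
    ext i j
    fin_cases i <;> fin_cases j
    · simp [cols, Matrix.mul_apply, Fin.sum_univ_two, hs]; linear_combination h1
    · simp [cols, Matrix.mul_apply, Fin.sum_univ_two, hs]; linear_combination h2
    · simp [cols, Matrix.mul_apply, Fin.sum_univ_two, hs]; linear_combination h2
    · simp [cols, Matrix.mul_apply, Fin.sum_univ_two, hs]; linear_combination h3
  calc q.bil U U = ((cols y z)ᵀ⁻¹ * (cols y z)ᵀ) * q.bil U U * (cols y z * (cols y z)⁻¹) := by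
        rw [Matrix.nonsing_inv_mul _ hYt, Matrix.mul_nonsing_inv _ hY, Matrix.one_mul,
          Matrix.mul_one]
    _ = (cols y z)ᵀ⁻¹ * ((cols y z)ᵀ * q.bil U U * cols y z) * (cols y z)⁻¹ := by
        simp only [Matrix.mul_assoc]
    _ = 0 := by rw [h4]; simp

end Qd

theorem line_in {S U W W' : M2} {y z : Fin 2 → ℂ} (hd : det2 y z ≠ 0) (h1 : W *ᵥ y = U *ᵥ y)
    (h2 : W' *ᵥ z = U *ᵥ z) (hSU : (S - U).det = 0) (hSW : (S - W).det ≠ 0)
    (hSW' : (S - W').det ≠ 0) : ∃ s : ℂ, s ≠ 0 ∧ S *ᵥ (y + s • z) = U *ᵥ (y + s • z) := by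
  obtain ⟨w, hw, hw0⟩ := Matrix.exists_mulVec_eq_zero_iff.2 hSU
  obtain ⟨hy, hz⟩ := ne_zero_of_det2 hd
  rw [sub_mulVec, sub_eq_zero] at hw0
  have hex := expand y z w
  have hy2 : det2 y w ≠ 0 := by
    intro h0
    rw [h0, zero_smul, add_zero] at hex
    have hx : det2 w z ≠ 0 := by
      intro h3
      rw [h3, zero_smul] at hex
      exact hw ((smul_eq_zero.1 hex).resolve_left hd)
    have h4 : S *ᵥ (det2 y z • w) = U *ᵥ (det2 y z • w) := by
      rw [mulVec_smul, mulVec_smul, hw0]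
    rw [hex, mulVec_smul, mulVec_smul] at h4
    have h5 : S *ᵥ y = U *ᵥ y := smul_right_injective _ hx h4
    apply hy
    apply Matrix.eq_zero_of_mulVec_eq_zero hSW
    rw [sub_mulVec, h5, h1, sub_self]
  have hx2 : det2 w z ≠ 0 := by
    intro h0
    rw [h0, zero_smul, zero_add] at hex
    have h4 : S *ᵥ (det2 y z • w) = U *ᵥ (det2 y z • w) := by
      rw [mulVec_smul, mulVec_smul, hw0]
    rw [hex, mulVec_smul, mulVec_smul] at h4
    have h5 : S *ᵥ z = U *ᵥ z := smul_right_injective _ hy2 h4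
    apply hz
    apply Matrix.eq_zero_of_mulVec_eq_zero hSW'
    rw [sub_mulVec, h5, h2, sub_self]
  refine ⟨det2 y w / det2 w z, div_ne_zero hy2 hx2, ?_⟩
  have h6 : y + (det2 y w / det2 w z) • z = (det2 y z / det2 w z) • w := by
    have h7 : (det2 w z)⁻¹ • (det2 y z • w) = (det2 w z)⁻¹ • (det2 w z • y + det2 y w • z) := by
      rw [hex]
    rw [smul_add, inv_smul_smul₀ hx2, smul_smul, smul_smul, ← div_eq_inv_mul,
      ← div_eq_inv_mul] at h7
    exact h7.symm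
  rw [h6, mulVec_smul, mulVec_smul, hw0]

theorem third {A C : Qd} {W W' U U' S : M2} (iW : A.Iso W) (iW' : A.Iso W')
    (iS : A.Iso S) (cS : C.Iso S) {y1 y2 y3 y4 : Fin 2 → ℂ} (e1 : W *ᵥ y1 = U *ᵥ y1)
    (e2 : W *ᵥ y2 = U' *ᵥ y2) (e3 : W' *ᵥ y3 = U' *ᵥ y3) (e4 : W' *ᵥ y4 = U *ᵥ y4)
    (d14 : det2 y1 y4 ≠ 0) (d23 : det2 y2 y3 ≠ 0) (hSU : (S - U).det = 0)
    (hSU' : (S - U').det = 0) (hSW : (S - W).det ≠ 0) (hSW' : (S - W').det ≠ 0) :
    ∃ s s' : ℂ, s ≠ 0 ∧ S *ᵥ (y1 + s • y4) = U *ᵥ (y1 + s • y4) ∧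
      s' * A.g (emb W y1) (emb W' y3) + s * A.g (emb W y2) (emb W' y4) = 0 ∧
      C.g (emb W y1) (emb W y1) + 2 * s * C.g (emb W y1) (emb W' y4) +
        s ^ 2 * C.g (emb W' y4) (emb W' y4) = 0 ∧
      C.g (emb W y2) (emb W y2) + 2 * s' * C.g (emb W y2) (emb W' y3) +
        s' ^ 2 * C.g (emb W' y3) (emb W' y3) = 0 := by
  obtain ⟨s, hs, hs1⟩ := line_in d14 e1 e4 hSU hSW hSW'
  obtain ⟨s', hs', hs1'⟩ := line_in d23 e2 e3 hSU' hSW hSW'
  have p : emb S (y1 + s • y4) = emb W y1 + s • emb W' y4 := by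
    rw [emb_congr hs1, emb_add, emb_smul, ← emb_congr e1, ← emb_congr e4]
  have p' : emb S (y2 + s' • y3) = emb W y2 + s' • emb W' y3 := by
    rw [emb_congr hs1', emb_add, emb_smul, ← emb_congr e2, ← emb_congr e3]
  refine ⟨s, s', hs, hs1, ?_, ?_, ?_⟩
  · have h := Qd.g_iso iS (y1 + s • y4) (y2 + s' • y3)
    rw [p, p'] at h
    simp only [Qd.g_add_left, Qd.g_add_right, Qd.g_smul_left, Qd.g_smul_right] at h
    rw [Qd.g_iso iW, Qd.g_iso iW', A.g_comm (emb W' y4) (emb W y2)] at h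
    linear_combination h
  · have h := Qd.g_iso cS (y1 + s • y4) (y1 + s • y4)
    rw [p] at h
    simp only [Qd.g_add_left, Qd.g_add_right, Qd.g_smul_left, Qd.g_smul_right] at h
    rw [C.g_comm (emb W' y4) (emb W y1)] at h
    linear_combination h
  · have h := Qd.g_iso cS (y2 + s' • y3) (y2 + s' • y3)
    rw [p'] at h
    simp only [Qd.g_add_left, Qd.g_add_right, Qd.g_smul_left, Qd.g_smul_right] at h
    rw [C.g_comm (emb W' y3) (emb W y2)] at h
    linear_combination h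

theorem vieta {c0 c1 c2 s1 s2 : ℂ} (h : s1 ≠ s2) (q1 : c0 + 2 * s1 * c1 + s1 ^ 2 * c2 = 0)
    (q2 : c0 + 2 * s2 * c1 + s2 ^ 2 * c2 = 0) (hc : ¬ (c0 = 0 ∧ c1 = 0 ∧ c2 = 0)) :
    c2 ≠ 0 ∧ c0 = s1 * s2 * c2 := by
  have h1 : 2 * c1 + (s1 + s2) * c2 = 0 := by
    have : (s1 - s2) * (2 * c1 + (s1 + s2) * c2) = 0 := by linear_combination q1 - q2
    exact (mul_eq_zero.1 this).resolve_left (sub_ne_zero.2 h)
  have h2 : c0 = s1 * s2 * c2 := by linear_combination q1 - s1 * h1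
  refine ⟨?_, h2⟩
  rintro rfl
  apply hc
  refine ⟨by rw [h2]; ring, ?_, rfl⟩
  linear_combination h1 / 2

theorem ratio {c0 c1 c2 e0 e1 e2 κ κ' s1 s2 t1 t2 : ℂ} (hs : s1 ≠ s2) (ht : t1 ≠ t2)
    (hs1 : s1 ≠ 0) (hs2 : s2 ≠ 0) (hκ : κ ≠ 0) (hκ' : κ' ≠ 0)
    (q1 : c0 + 2 * s1 * c1 + s1 ^ 2 * c2 = 0) (q2 : c0 + 2 * s2 * c1 + s2 ^ 2 * c2 = 0)
    (q3 : c0 + 2 * t1 * c1 + t1 ^ 2 * c2 = 0) (q4 : c0 + 2 * t2 * c1 + t2 ^ 2 * c2 = 0)
    (f1 : e0 + 2 * (κ * s1) * e1 + (κ * s1) ^ 2 * e2 = 0)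
    (f2 : e0 + 2 * (κ * s2) * e1 + (κ * s2) ^ 2 * e2 = 0)
    (f3 : e0 + 2 * (κ' * t1) * e1 + (κ' * t1) ^ 2 * e2 = 0)
    (f4 : e0 + 2 * (κ' * t2) * e1 + (κ' * t2) ^ 2 * e2 = 0)
    (hc : ¬ (c0 = 0 ∧ c1 = 0 ∧ c2 = 0)) (he : ¬ (e0 = 0 ∧ e1 = 0 ∧ e2 = 0)) : κ ^ 2 = κ' ^ 2 := by
  obtain ⟨a1, a2⟩ := vieta hs q1 q2 hc
  obtain ⟨_, a3⟩ := vieta ht q3 q4 hc
  obtain ⟨b1, b2⟩ := vieta (fun e => hs (mul_left_cancel₀ hκ e)) f1 f2 he
  obtain ⟨_, b3⟩ := vieta (fun e => ht (mul_left_cancel₀ hκ' e)) f3 f4 he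
  have h1 : s1 * s2 = t1 * t2 := mul_right_cancel₀ a1 (a2.symm.trans a3)
  have h2 : κ * s1 * (κ * s2) = κ' * t1 * (κ' * t2) := mul_right_cancel₀ b1 (b2.symm.trans b3)
  apply mul_right_cancel₀ (mul_ne_zero hs1 hs2)
  calc κ ^ 2 * (s1 * s2) = κ * s1 * (κ * s2) := by ring
    _ = κ' ^ 2 * (t1 * t2) := by rw [h2]; ring
    _ = κ' ^ 2 * (s1 * s2) := by rw [h1]

/-- the frame of a quadrilateral -/
def frame (W W' : M2) (y1 y2 y3 y4 : Fin 2 → ℂ) : Matrix I4 I4 ℂ :=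
  fromBlocks (W * cols y1 y2) (W' * cols y3 y4) (cols y1 y2) (cols y3 y4)

theorem frame_det {W W' : M2} {y1 y2 y3 y4 : Fin 2 → ℂ} (h : (W - W').det ≠ 0)
    (d12 : det2 y1 y2 ≠ 0) (d34 : det2 y3 y4 ≠ 0) : (frame W W' y1 y2 y3 y4).det ≠ 0 := by
  have h1 : frame W W' y1 y2 y3 y4 =
      fromBlocks W W' 1 1 * fromBlocks (cols y1 y2) 0 0 (cols y3 y4) := by
    unfold frame
    rw [fromBlocks_multiply]
    simp
  rw [h1, det_mul, det_fromBlocks_one₂₂, det_fromBlocks_zero₂₁, det_cols, det_cols, Matrix.mul_one]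
  exact mul_ne_zero h (mul_ne_zero d12 d34)

theorem frame_gram (q : Qd) (W W' : M2) (y1 y2 y3 y4 : Fin 2 → ℂ) :
    (frame W W' y1 y2 y3 y4)ᵀ * q.mat * frame W W' y1 y2 y3 y4 =
      fromBlocks ((cols y1 y2)ᵀ * q.bil W W * cols y1 y2)
        ((cols y1 y2)ᵀ * q.bil W W' * cols y3 y4)
        ((cols y3 y4)ᵀ * q.bil W' W * cols y1 y2)
        ((cols y3 y4)ᵀ * q.bil W' W' * cols y3 y4) := by
  unfold frame Qd.mat Qd.bil
  rw [fromBlocks_transpose, fromBlocks_multiply, fromBlocks_multiply]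
  congr 1 <;>
  · simp only [transpose_mul, Matrix.mul_add, Matrix.add_mul, Matrix.mul_assoc]
    abel

theorem gram_diag {q : Qd} {W W' U U' : M2} (iU : q.Iso U) (iU' : q.Iso U')
    {y1 y2 y3 y4 : Fin 2 → ℂ} (e1 : W *ᵥ y1 = U *ᵥ y1)
    (e2 : W *ᵥ y2 = U' *ᵥ y2) (e3 : W' *ᵥ y3 = U' *ᵥ y3) (e4 : W' *ᵥ y4 = U *ᵥ y4) :
    (cols y1 y2)ᵀ * q.bil W W' * cols y3 y4 =
      diagonal ![q.g (emb W y1) (emb W' y3), q.g (emb W y2) (emb W' y4)] := by
  have h14 : q.g (emb W y1) (emb W' y4) = 0 := by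
    rw [emb_congr e1, emb_congr e4]; exact Qd.g_iso iU _ _
  have h23 : q.g (emb W y2) (emb W' y3) = 0 := by
    rw [emb_congr e2, emb_congr e3]; exact Qd.g_iso iU' _ _
  rw [Qd.g_emb] at *
  rw [Qd.g_emb]
  simp only [dotProduct, mulVec, Fin.sum_univ_two] at *
  ext i j
  fin_cases i <;> fin_cases j
  · simp [cols, Matrix.mul_apply, Fin.sum_univ_two]; ring
  · simp [cols, Matrix.mul_apply, Fin.sum_univ_two]; linear_combination h14
  · simp [cols, Matrix.mul_apply, Fin.sum_univ_two]; linear_combination h23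
  · simp [cols, Matrix.mul_apply, Fin.sum_univ_two]; ring

theorem gram_full {q : Qd} {W W' U U' : M2} (iW : q.Iso W) (iW' : q.Iso W') (iU : q.Iso U)
    (iU' : q.Iso U') {y1 y2 y3 y4 : Fin 2 → ℂ} (e1 : W *ᵥ y1 = U *ᵥ y1)
    (e2 : W *ᵥ y2 = U' *ᵥ y2) (e3 : W' *ᵥ y3 = U' *ᵥ y3) (e4 : W' *ᵥ y4 = U *ᵥ y4) :
    (frame W W' y1 y2 y3 y4)ᵀ * q.mat * frame W W' y1 y2 y3 y4 =
      fromBlocks 0 (diagonal ![q.g (emb W y1) (emb W' y3), q.g (emb W y2) (emb W' y4)])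
        (diagonal ![q.g (emb W y1) (emb W' y3), q.g (emb W y2) (emb W' y4)]) 0 := by
  have h1 := gram_diag iU iU' e1 e2 e3 e4
  have h2 : (cols y3 y4)ᵀ * q.bil W' W * cols y1 y2 =
      ((cols y1 y2)ᵀ * q.bil W W' * cols y3 y4)ᵀ := by
    rw [transpose_mul, transpose_mul, transpose_transpose, q.bil_transpose, Matrix.mul_assoc]
  rw [frame_gram, h2, h1, diagonal_transpose]
  unfold Qd.Iso at iW iW'
  rw [iW, iW']
  simp

theorem diag_ne {q : Qd} (hq : q.mat.det ≠ 0) {F : Matrix I4 I4 ℂ} (hF : F.det ≠ 0) {α β : ℂ}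
    (h : Fᵀ * q.mat * F = fromBlocks 0 (diagonal ![α, β]) (diagonal ![α, β]) 0) :
    α ≠ 0 ∧ β ≠ 0 := by
  have h1 : Fᵀ * q.mat * F * fromBlocks 0 1 1 0 =
      fromBlocks (diagonal ![α, β]) 0 0 (diagonal ![α, β]) := by
    rw [h, fromBlocks_multiply]; simp
  have h2 := congrArg Matrix.det h1
  rw [det_mul, det_mul, det_mul, det_transpose, det_fromBlocks_zero₂₁] at h2
  have h3 : (fromBlocks 0 1 1 0 : Matrix I4 I4 ℂ).det ≠ 0 := by
    have h5 : (fromBlocks 0 1 1 0 : Matrix I4 I4 ℂ) * fromBlocks 0 1 1 0 = 1 := by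
      rw [fromBlocks_multiply]; simp
    have h6 := congrArg Matrix.det h5
    rw [det_mul, det_one] at h6
    exact left_ne_zero_of_mul_eq_one h6
  have h4 : (diagonal ![α, β] : M2).det = α * β := by simp [det_diagonal, Fin.prod_univ_two]
  rw [h4] at h2
  have h5 : α * β * (α * β) ≠ 0 := by
    rw [← h2]
    exact mul_ne_zero (mul_ne_zero (mul_ne_zero hF hq) hF) h3
  have h6 := left_ne_zero_of_mul h5
  exact ⟨left_ne_zero_of_mul h6, right_ne_zero_of_mul h6⟩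

/-- value of the binary quadratic form of `C` on the line through `v` and `w` -/
def quad (C : Qd) (v w : I4 → ℂ) (s : ℂ) : ℂ := C.g v v + 2 * s * C.g v w + s ^ 2 * C.g w w

theorem two_points {A C : Qd} (hA : A.mat.det ≠ 0) (hp : ¬ Qd.Prop2 A C) {S : Finset M2}
    (hc : S.card = 4) (hS : ∀ P ∈ S, A.Iso P ∧ C.Iso P) {W W' U U' : M2} (iW : A.Iso W)
    (iW' : A.Iso W') (iU : A.Iso U) (iU' : A.Iso U') (hWS : W ∉ S) (hWS' : W' ∉ S)
    (dW' : (A.K W').det = (A.K W).det) (dU : (A.K U).det = -(A.K W).det)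
    (dU' : (A.K U').det = -(A.K W).det) {y1 y2 y3 y4 : Fin 2 → ℂ} (e1 : W *ᵥ y1 = U *ᵥ y1)
    (e2 : W *ᵥ y2 = U' *ᵥ y2) (e3 : W' *ᵥ y3 = U' *ᵥ y3) (e4 : W' *ᵥ y4 = U *ᵥ y4)
    (d14 : det2 y1 y4 ≠ 0) (d23 : det2 y2 y3 ≠ 0)
    (hα : A.g (emb W y1) (emb W' y3) ≠ 0) :
    ∃ s1 s2 : ℂ, s1 ≠ s2 ∧ s1 ≠ 0 ∧ s2 ≠ 0 ∧
      quad C (emb W y1) (emb W' y4) s1 = 0 ∧ quad C (emb W y1) (emb W' y4) s2 = 0 ∧
      quad C (emb W y2) (emb W' y3)
        (-(A.g (emb W y2) (emb W' y4)) / A.g (emb W y1) (emb W' y3) * s1) = 0 ∧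
      quad C (emb W y2) (emb W' y3)
        (-(A.g (emb W y2) (emb W' y4)) / A.g (emb W y1) (emb W' y3) * s2) = 0 := by
  obtain ⟨S1, m1, S2, m2, hne, k1, k2⟩ := Qd.two_of hA hp hc hS iW
  have key : ∀ S' ∈ S, (A.K S').det = (A.K W).det → ∃ s : ℂ, s ≠ 0 ∧
      S' *ᵥ (y1 + s • y4) = U *ᵥ (y1 + s • y4) ∧
      quad C (emb W y1) (emb W' y4) s = 0 ∧
      quad C (emb W y2) (emb W' y3)
        (-(A.g (emb W y2) (emb W' y4)) / A.g (emb W y1) (emb W' y3) * s) = 0 := by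
    intro S' mS kS
    have iS := (hS _ mS).1
    have cS := (hS _ mS).2
    have hSW : (S' - W).det ≠ 0 :=
      Qd.det_ne_of_eq hA iW iS (fun h => hWS (h ▸ mS)) kS
    have hSW' : (S' - W').det ≠ 0 :=
      Qd.det_ne_of_eq hA iW' iS (fun h => hWS' (h ▸ mS)) (kS.trans dW'.symm)
    have hSU : (S' - U).det = 0 :=
      Qd.det_eq_of_neg hA iU iS (by rw [kS, dU, neg_neg])
    have hSU' : (S' - U').det = 0 :=
      Qd.det_eq_of_neg hA iU' iS (by rw [kS, dU', neg_neg])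
    obtain ⟨s, s', hs0, hs1, hs2, hs3, hs4⟩ :=
      third iW iW' iS cS e1 e2 e3 e4 d14 d23 hSU hSU' hSW hSW'
    refine ⟨s, hs0, hs1, hs3, ?_⟩
    have h5 : -(A.g (emb W y2) (emb W' y4)) / A.g (emb W y1) (emb W' y3) * s = s' := by
      rw [div_mul_eq_mul_div, div_eq_iff hα]
      linear_combination -hs2
    rw [h5]
    exact hs4
  obtain ⟨s1, a1, a2, a3, a4⟩ := key S1 m1 k1
  obtain ⟨s2, b1, b2, b3, b4⟩ := key S2 m2 k2
  refine ⟨s1, s2, ?_, a1, b1, a3, b3, a4, b4⟩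
  rintro rfl
  have h1 : (S1 - S2).det ≠ 0 :=
    Qd.det_ne_of_eq hA (hS _ m2).1 (hS _ m1).1 hne (k1.trans k2.symm)
  have h2 : y1 + s1 • y4 = 0 := by
    apply Matrix.eq_zero_of_mulVec_eq_zero h1
    rw [sub_mulVec, a2, b2, sub_self]
  have h3 : det2 y1 y4 = 0 := by
    have h4 : y1 = -(s1 • y4) := eq_neg_of_add_eq_zero_left h2
    rw [h4]
    simp only [det2, Pi.neg_apply, Pi.smul_apply, smul_eq_mul]; ring
  exact d14 h3

/-- the quadratic form of `C` is not zero on a plane that is not isotropic -/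
theorem not_zero {C : Qd} {U W W' : M2} (hU : ¬ C.Iso U) {y z : Fin 2 → ℂ} (hd : det2 y z ≠ 0)
    (e1 : W *ᵥ y = U *ᵥ y) (e2 : W' *ᵥ z = U *ᵥ z) :
    ¬ (C.g (emb W y) (emb W y) = 0 ∧ C.g (emb W y) (emb W' z) = 0 ∧
      C.g (emb W' z) (emb W' z) = 0) := by
  rintro ⟨h1, h2, h3⟩
  rw [emb_congr e1] at h1 h2
  rw [emb_congr e2] at h2 h3
  exact hU (Qd.iso_of_basis hd h1 h2 h3)

theorem pair {A B C : Qd} (hA : A.mat.det ≠ 0) (hB : B.mat.det ≠ 0)
    {S1 S2 S3 : Finset M2} (c1 : S1.card = 4) (c2 : S2.card = 4) (c3 : S3.card = 4)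
    (hS1 : ∀ P ∈ S1, A.Iso P ∧ B.Iso P ∧ ¬ C.Iso P)
    (hS2 : ∀ P ∈ S2, A.Iso P ∧ C.Iso P ∧ ¬ B.Iso P)
    (hS3 : ∀ P ∈ S3, B.Iso P ∧ C.Iso P ∧ ¬ A.Iso P) :
    ∃ c : ℂ, c ≠ 0 ∧ (A.mat⁻¹ * B.mat).trace = 0 ∧
      (A.mat⁻¹ * B.mat) * (A.mat⁻¹ * B.mat) = c • (1 : Matrix I4 I4 ℂ) := by
  have n1 : S1.Nonempty := Finset.card_pos.1 (by omega)
  have n2 : S2.Nonempty := Finset.card_pos.1 (by omega)
  have n3 : S3.Nonempty := Finset.card_pos.1 (by omega)
  obtain ⟨P1, hP1⟩ := n1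
  obtain ⟨P2, hP2⟩ := n2
  obtain ⟨P3, hP3⟩ := n3
  have pAB : ¬ Qd.Prop2 A B := fun h => (hS2 _ hP2).2.2 (h.iso (hS2 _ hP2).1)
  have pAC : ¬ Qd.Prop2 A C := fun h => (hS1 _ hP1).2.2 (h.iso (hS1 _ hP1).1)
  have pBC : ¬ Qd.Prop2 B C := fun h => (hS1 _ hP1).2.2 (h.iso (hS1 _ hP1).2.1)
  obtain ⟨W, mW, W', mW', hWW, kW, kW'⟩ :=
    Qd.two_of hA pAB c1 (fun P hP => ⟨(hS1 P hP).1, (hS1 P hP).2.1⟩) (hS1 _ hP1).1
  obtain ⟨U, mU, U', mU', hUU, kU, kU'⟩ :=
    Qd.two_of_neg hA pAB c1 (fun P hP => ⟨(hS1 P hP).1, (hS1 P hP).2.1⟩) (hS1 _ hP1).1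
  obtain ⟨aW, bW, cW⟩ := hS1 _ mW
  obtain ⟨aW', bW', cW'⟩ := hS1 _ mW'
  obtain ⟨aU, bU, cU⟩ := hS1 _ mU
  obtain ⟨aU', bU', cU'⟩ := hS1 _ mU'
  have dW' : (A.K W').det = (A.K W).det := kW'.trans kW.symm
  have dU : (A.K U).det = -(A.K W).det := by rw [kU, kW]
  have dU' : (A.K U').det = -(A.K W).det := by rw [kU', kW]
  have dU2 : (A.K U).det = -(A.K W').det := by rw [kU, kW']
  have dU2' : (A.K U').det = -(A.K W').det := by rw [kU', kW']
  have hK := A.det_K_ne hA aW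
  -- differences
  have fWW : (W - W').det ≠ 0 := Qd.det_ne_of_eq hA aW' aW hWW dW'.symm
  have fUU : (U - U').det ≠ 0 := Qd.det_ne_of_eq hA aU' aU hUU (kU.trans kU'.symm)
  have fUU' : (U' - U).det ≠ 0 := Qd.det_ne_of_eq hA aU aU' hUU.symm (kU'.trans kU.symm)
  have fWU : (W - U).det = 0 := Qd.det_eq_of_neg hA aU aW (by rw [dU, neg_neg])
  have fWU' : (W - U').det = 0 := Qd.det_eq_of_neg hA aU' aW (by rw [dU', neg_neg])
  have fW'U : (W' - U).det = 0 := Qd.det_eq_of_neg hA aU aW' (by rw [dU2, neg_neg])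
  have fW'U' : (W' - U').det = 0 := Qd.det_eq_of_neg hA aU' aW' (by rw [dU2', neg_neg])
  have neWU : U ≠ W := by
    rintro rfl
    apply hK
    linear_combination dU / 2
  have neWU' : U' ≠ W := by
    rintro rfl
    apply hK
    linear_combination dU' / 2
  obtain ⟨y1, hy1, z1⟩ := Matrix.exists_mulVec_eq_zero_iff.2 fWU
  obtain ⟨y2, hy2, z2⟩ := Matrix.exists_mulVec_eq_zero_iff.2 fWU'
  obtain ⟨y3, hy3, z3⟩ := Matrix.exists_mulVec_eq_zero_iff.2 fW'U'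
  obtain ⟨y4, hy4, z4⟩ := Matrix.exists_mulVec_eq_zero_iff.2 fW'U
  rw [sub_mulVec, sub_eq_zero] at z1 z2 z3 z4
  have d12 : det2 y1 y2 ≠ 0 := par hy1 hy2 z1 z2 fUU
  have d14 : det2 y1 y4 ≠ 0 := par hy1 hy4 z1.symm z4.symm fWW
  have d23 : det2 y2 y3 ≠ 0 := par hy2 hy3 z2.symm z3.symm fWW
  have d34 : det2 y3 y4 ≠ 0 := par hy3 hy4 z3 z4 fUU'
  -- the second form
  have bdW' : (B.K W').det = (B.K W).det := B.det_K_eq bW bW' (by
    rw [Qd.det_sub_comm]; exact fWW)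
  have bdU : (B.K U).det = -(B.K W).det := B.det_K_neg hB bW bU neWU (by
    rw [Qd.det_sub_comm]; exact fWU)
  have bdU' : (B.K U').det = -(B.K W).det := B.det_K_neg hB bW bU' neWU' (by
    rw [Qd.det_sub_comm]; exact fWU')
  -- Gram matrices
  have hF := frame_det (y1 := y1) (y2 := y2) (y3 := y3) (y4 := y4) fWW d12 d34
  have gA := gram_full aW aW' aU aU' z1 z2 z3 z4
  have gB := gram_full bW bW' bU bU' z1 z2 z3 z4
  obtain ⟨hα, hβ⟩ := diag_ne hA hF gA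
  obtain ⟨hα', hβ'⟩ := diag_ne hB hF gB
  obtain ⟨s1, s2, t1, t2, t3, t4, t5, t6, t7⟩ := two_points hA pAC c2
    (fun P hP => ⟨(hS2 P hP).1, (hS2 P hP).2.1⟩) aW aW' aU aU'
    (fun h => (hS2 _ h).2.2 bW) (fun h => (hS2 _ h).2.2 bW') dW' dU dU' z1 z2 z3 z4 d14 d23 hα
  obtain ⟨r1, r2, v1, v2, v3, v4, v5, v6, v7⟩ := two_points hB pBC c3
    (fun P hP => ⟨(hS3 P hP).1, (hS3 P hP).2.1⟩) bW bW' bU bU'
    (fun h => (hS3 _ h).2.2 aW) (fun h => (hS3 _ h).2.2 aW') bdW' bdU bdU' z1 z2 z3 z4 d14 d23 hα'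
  set α := A.g (emb W y1) (emb W' y3) with hαd
  set β := A.g (emb W y2) (emb W' y4) with hβd
  set α' := B.g (emb W y1) (emb W' y3) with hαd'
  set β' := B.g (emb W y2) (emb W' y4) with hβd'
  have hrat : (-β / α) ^ 2 = (-β' / α') ^ 2 :=
    ratio t1 v1 t2 t3 (div_ne_zero (neg_ne_zero.2 hβ) hα) (div_ne_zero (neg_ne_zero.2 hβ') hα')
      t4 t5 v4 v5 t6 t7 v6 v7 (not_zero cU d14 z1 z4) (not_zero cU' d23 z2 z3)
  set F := frame W W' y1 y2 y3 y4 with hFd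
  have uF : IsUnit F.det := isUnit_iff_ne_zero.2 hF
  have uFt : IsUnit Fᵀ.det := by rw [det_transpose]; exact uF
  have uA : IsUnit A.mat.det := isUnit_iff_ne_zero.2 hA
  have hsq : (β * α') ^ 2 = (β' * α) ^ 2 := by
    rw [div_pow, div_pow, div_eq_div_iff (pow_ne_zero _ hα) (pow_ne_zero _ hα')] at hrat
    linear_combination hrat
  rcases sq_eq_sq_iff_eq_or_eq_neg.1 hsq with h | h
  · exfalso
    apply pAB
    have h1 : Fᵀ * B.mat * F = Fᵀ * ((α' / α) • A.mat) * F := by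
      rw [Matrix.mul_smul, Matrix.smul_mul, gA, gB, fromBlocks_smul, smul_zero]
      have h2 : (diagonal ![α', β'] : M2) = (α' / α) • diagonal ![α, β] := by
        rw [← diagonal_smul]
        congr 1
        ext i
        fin_cases i
        · simp [hα]
        · simp only [Fin.mk_one, Pi.smul_apply, smul_eq_mul]
          change β' = α' / α * β
          rw [div_mul_eq_mul_div, eq_div_iff hα]
          linear_combination -h
      rw [h2]
    have h3 : B.mat = (α' / α) • A.mat := by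
      have h4 : (Fᵀ)⁻¹ * (Fᵀ * B.mat * F) * F⁻¹ =
          (Fᵀ)⁻¹ * (Fᵀ * ((α' / α) • A.mat) * F) * F⁻¹ := by rw [h1]
      have h5 : ∀ M : Matrix I4 I4 ℂ, (Fᵀ)⁻¹ * (Fᵀ * M * F) * F⁻¹ = M := by
        intro M
        rw [show (Fᵀ)⁻¹ * (Fᵀ * M * F) * F⁻¹ = ((Fᵀ)⁻¹ * Fᵀ) * M * (F * F⁻¹) by
          simp only [Matrix.mul_assoc]]
        rw [Matrix.nonsing_inv_mul _ uFt, Matrix.mul_nonsing_inv _ uF, Matrix.one_mul,
          Matrix.mul_one]
      rw [h5, h5] at h4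
      exact h4
    unfold Qd.mat at h3
    rw [fromBlocks_smul, fromBlocks_inj] at h3
    exact ⟨α' / α, h3.1, h3.2.1, h3.2.2.2⟩
  · refine ⟨(α' / α) ^ 2, pow_ne_zero _ (div_ne_zero hα' hα), ?_⟩
    set R : M2 := diagonal ![α' / α, -(α' / α)] with hR
    have h1 : Fᵀ * B.mat * F = Fᵀ * A.mat * F * fromBlocks R 0 0 R := by
      rw [gA, gB, fromBlocks_multiply]
      have h2 : (diagonal ![α', β'] : M2) = diagonal ![α, β] * R := by
        rw [hR, diagonal_mul_diagonal]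
        congr 1
        ext i
        fin_cases i
        · change α' = α * (α' / α)
          rw [mul_div_cancel₀ _ hα]
        · change β' = β * -(α' / α)
          rw [mul_neg, mul_div_assoc', ← neg_div, eq_div_iff hα]
          linear_combination h
      rw [h2]
      simp
    have h3 : A.mat⁻¹ * B.mat = F * fromBlocks R 0 0 R * F⁻¹ := by
      have h4 : A.mat⁻¹ * (Fᵀ)⁻¹ * (Fᵀ * B.mat * F) * F⁻¹ =
          A.mat⁻¹ * (Fᵀ)⁻¹ * (Fᵀ * A.mat * F * fromBlocks R 0 0 R) * F⁻¹ := by rw [h1]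
      rw [show A.mat⁻¹ * (Fᵀ)⁻¹ * (Fᵀ * B.mat * F) * F⁻¹ =
        A.mat⁻¹ * ((Fᵀ)⁻¹ * Fᵀ) * B.mat * (F * F⁻¹) by simp only [Matrix.mul_assoc]] at h4
      rw [show A.mat⁻¹ * (Fᵀ)⁻¹ * (Fᵀ * A.mat * F * fromBlocks R 0 0 R) * F⁻¹ =
        A.mat⁻¹ * (((Fᵀ)⁻¹ * Fᵀ) * A.mat) * F * fromBlocks R 0 0 R * F⁻¹ by
          simp only [Matrix.mul_assoc]] at h4
      rw [Matrix.nonsing_inv_mul _ uFt, Matrix.mul_nonsing_inv _ uF, Matrix.one_mul,
          Matrix.mul_one, Matrix.mul_one, Matrix.nonsing_inv_mul _ uA, Matrix.one_mul] at h4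
      exact h4
    constructor
    · rw [h3, trace_mul_comm, ← Matrix.mul_assoc, Matrix.nonsing_inv_mul _ uF, Matrix.one_mul,
        hR]
      simp [Matrix.trace, Fintype.sum_sum_type, Fin.sum_univ_two]
    · rw [h3]
      rw [show F * fromBlocks R 0 0 R * F⁻¹ * (F * fromBlocks R 0 0 R * F⁻¹) =
        F * (fromBlocks R 0 0 R * (F⁻¹ * F) * fromBlocks R 0 0 R) * F⁻¹ by
          simp only [Matrix.mul_assoc]]
      rw [Matrix.nonsing_inv_mul _ uF, Matrix.mul_one, fromBlocks_multiply]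
      have h5 : R * R = (α' / α) ^ 2 • (1 : M2) := by
        rw [hR, diagonal_mul_diagonal, ← diagonal_one, ← diagonal_smul]
        congr 1
        ext i
        fin_cases i
        · change α' / α * (α' / α) = (α' / α) ^ 2 * 1
          ring
        · change -(α' / α) * -(α' / α) = (α' / α) ^ 2 * 1
          ring
      have h6 : (fromBlocks (R * R + 0 * 0) (R * 0 + 0 * R) (0 * R + R * 0) (0 * 0 + R * R) :
          Matrix I4 I4 ℂ) = (α' / α) ^ 2 • 1 := by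
        rw [h5, ← fromBlocks_one, fromBlocks_smul]
        simp
      rw [h6, Matrix.mul_smul, Matrix.smul_mul, Matrix.mul_one, Matrix.mul_nonsing_inv _ uF]

/-- seventeen matrices with pairwise quotients of trace zero and scalar square -/
theorem no17 (A : Fin 17 → Matrix I4 I4 ℂ) (hA : ∀ i, (A i).det ≠ 0)
    (h : ∀ i j, i ≠ j → ∃ c : ℂ, c ≠ 0 ∧ ((A i)⁻¹ * A j).trace = 0 ∧
      ((A i)⁻¹ * A j) * ((A i)⁻¹ * A j) = c • (1 : Matrix I4 I4 ℂ)) : False := by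
  have uA : ∀ i, IsUnit (A i).det := fun i => isUnit_iff_ne_zero.2 (hA i)
  set T : Fin 17 → Matrix I4 I4 ℂ := fun j => (A 0)⁻¹ * A j with hT
  have T0 : T 0 = 1 := Matrix.nonsing_inv_mul _ (uA 0)
  have sq : ∀ j, ∃ c : ℂ, c ≠ 0 ∧ T j * T j = c • (1 : Matrix I4 I4 ℂ) := by
    intro j
    by_cases hj : j = 0
    · subst hj
      exact ⟨1, one_ne_zero, by rw [T0]; simp⟩
    · obtain ⟨c, h1, _, h3⟩ := h 0 j (Ne.symm hj)
      exact ⟨c, h1, h3⟩
  have diag : ∀ j, (T j * T j).trace ≠ 0 := by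
    intro j
    obtain ⟨c, h1, h2⟩ := sq j
    rw [h2, trace_smul, trace_one]
    simp [h1]
  have off : ∀ j k, j ≠ k → (T j * T k).trace = 0 := by
    intro j k hjk
    obtain ⟨c, h1, h2⟩ := sq j
    obtain ⟨_, _, h5, _⟩ := h j k hjk
    have h6 : (A j)⁻¹ * A k = c⁻¹ • (T j * T k) := by
      have h7 : A k = A 0 * T k := by
        rw [hT]
        change A k = A 0 * ((A 0)⁻¹ * A k)
        rw [← Matrix.mul_assoc, Matrix.mul_nonsing_inv _ (uA 0), Matrix.one_mul]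
      have h8 : (A j)⁻¹ * A 0 = c⁻¹ • T j := by
        have h9 : A j * T j = c • A 0 := by
          have h10 : A j = A 0 * T j := by
            rw [hT]
            change A j = A 0 * ((A 0)⁻¹ * A j)
            rw [← Matrix.mul_assoc, Matrix.mul_nonsing_inv _ (uA 0), Matrix.one_mul]
          calc A j * T j = A 0 * (T j * T j) :=
                (congrArg (fun M => M * T j) h10).trans (Matrix.mul_assoc _ _ _)
            _ = c • A 0 := by rw [h2, Matrix.mul_smul, Matrix.mul_one]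
        have h11 : (A j)⁻¹ * (A j * T j) = (A j)⁻¹ * (c • A 0) := by rw [h9]
        rw [← Matrix.mul_assoc, Matrix.nonsing_inv_mul _ (uA j), Matrix.one_mul,
          Matrix.mul_smul] at h11
        rw [h11, smul_smul, inv_mul_cancel₀ h1, one_smul]
      rw [h7, ← Matrix.mul_assoc, h8, Matrix.smul_mul]
    rw [h6, trace_smul, smul_eq_mul] at h5
    exact (mul_eq_zero.1 h5).resolve_left (inv_ne_zero h1)
  have li : LinearIndependent ℂ T := by
    rw [Fintype.linearIndependent_iff]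
    intro g hg j
    have h1 : ((∑ i, g i • T i) * T j).trace = 0 := by rw [hg, Matrix.zero_mul, trace_zero]
    rw [Finset.sum_mul, trace_sum, Finset.sum_eq_single j] at h1
    · rw [Matrix.smul_mul, trace_smul, smul_eq_mul] at h1
      exact (mul_eq_zero.1 h1).resolve_right (diag j)
    · intro b _ hb
      rw [Matrix.smul_mul, trace_smul, off b j hb, smul_zero]
    · intro hj
      exact absurd (Finset.mem_univ j) hj
  have hle := li.fintype_card_le_finrank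
  rw [Module.finrank_matrix] at hle
  simp at hle


open MvPolynomial

/-- the quadratic polynomial of a quadratic form -/
noncomputable def Qd.poly (q : Qd) : P3 :=
  C (q.a 0 0) * X 0 ^ 2 + 2 * C (q.a 0 1) * X 0 * X 1 + C (q.a 1 1) * X 1 ^ 2 +
  2 * C (q.b 0 0) * X 0 * X 2 + 2 * C (q.b 0 1) * X 0 + 2 * C (q.b 1 0) * X 1 * X 2 +
  2 * C (q.b 1 1) * X 1 + C (q.d 0 0) * X 2 ^ 2 + 2 * C (q.d 0 1) * X 2 + C (q.d 1 1)

/-- ten coefficients -/
def TenC (G : P3) : Prop := ∃ c0 c1 c2 c3 c4 c5 c6 c7 c8 c9 : ℂ,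
  G = C c0 * X 0 ^ 2 + C c1 * X 0 * X 1 + C c2 * X 1 ^ 2 + C c3 * X 0 * X 2 + C c4 * X 0 +
    C c5 * X 1 * X 2 + C c6 * X 1 + C c7 * X 2 ^ 2 + C c8 * X 2 + C c9

theorem TenC.add {G H : P3} (hG : TenC G) (hH : TenC H) : TenC (G + H) := by
  obtain ⟨c0, c1, c2, c3, c4, c5, c6, c7, c8, c9, rfl⟩ := hG
  obtain ⟨d0, d1, d2, d3, d4, d5, d6, d7, d8, d9, rfl⟩ := hH
  refine ⟨c0 + d0, c1 + d1, c2 + d2, c3 + d3, c4 + d4, c5 + d5, c6 + d6, c7 + d7, c8 + d8,
    c9 + d9, ?_⟩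
  simp only [map_add]
  ring

theorem TenC.mono {m : Fin 3 →₀ ℕ} (h : m 0 + m 1 + m 2 ≤ 2) (c : ℂ) :
    TenC (monomial m c) := by
  have h1 : (monomial m c : P3) = C c * X 0 ^ m 0 * X 1 ^ m 1 * X 2 ^ m 2 := by
    rw [monomial_eq, Finsupp.prod_fintype _ _ (by intro i; simp), Fin.prod_univ_three]
    ring
  rw [h1]
  generalize m 0 = i at h
  generalize m 1 = j at h
  generalize m 2 = k at h
  have hi : i ≤ 2 := by omega
  have hj : j ≤ 2 := by omega
  have hk : k ≤ 2 := by omega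
  unfold TenC
  interval_cases i <;> interval_cases j <;> interval_cases k <;> try omega
  · exact ⟨0, 0, 0, 0, 0, 0, 0, 0, 0, c, by simp⟩
  · exact ⟨0, 0, 0, 0, 0, 0, 0, 0, c, 0, by simp⟩
  · exact ⟨0, 0, 0, 0, 0, 0, 0, c, 0, 0, by simp⟩
  · exact ⟨0, 0, 0, 0, 0, 0, c, 0, 0, 0, by simp⟩
  · exact ⟨0, 0, 0, 0, 0, c, 0, 0, 0, 0, by simp⟩
  · exact ⟨0, 0, c, 0, 0, 0, 0, 0, 0, 0, by simp⟩
  · exact ⟨0, 0, 0, 0, c, 0, 0, 0, 0, 0, by simp⟩
  · exact ⟨0, 0, 0, c, 0, 0, 0, 0, 0, 0, by simp⟩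
  · exact ⟨0, c, 0, 0, 0, 0, 0, 0, 0, 0, by simp⟩
  · exact ⟨c, 0, 0, 0, 0, 0, 0, 0, 0, 0, by simp⟩

theorem tenC {G : P3} (h : G.totalDegree ≤ 2) : TenC G := by
  rw [← support_sum_monomial_coeff G]
  apply Finset.sum_induction _ TenC (fun _ _ => TenC.add)
  · exact ⟨0, 0, 0, 0, 0, 0, 0, 0, 0, 0, by simp⟩
  · intro m hm
    apply TenC.mono
    have h1 := le_totalDegree hm
    rw [Finsupp.sum_fintype _ _ (by intro i; rfl), Fin.sum_univ_three] at h1
    omega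

theorem exists_poly {G : P3} (h : G.totalDegree ≤ 2) : ∃ q : Qd, G = q.poly := by
  obtain ⟨c0, c1, c2, c3, c4, c5, c6, c7, c8, c9, rfl⟩ := tenC h
  refine ⟨⟨!![c0, c1 / 2; c1 / 2, c2], !![c3 / 2, c4 / 2; c5 / 2, c6 / 2],
    !![c7, c8 / 2; c8 / 2, c9], ?_, ?_⟩, ?_⟩
  · ext i j; fin_cases i <;> fin_cases j <;> rfl
  · ext i j; fin_cases i <;> fin_cases j <;> rfl
  · have h2 : ∀ c : ℂ, (2 : P3) * C (c / 2) = C c := by
      intro c
      rw [show (2 : P3) = C 2 from (map_ofNat C 2).symm, ← C_mul]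
      congr 1
      ring
    unfold Qd.poly
    simp [h2]

/-- the plane of a line -/
def pl (l : Ln) : M2 := !![l.u 0, l.p 0; l.u 1, l.p 1]

theorem pl_inj : Function.Injective pl := by
  intro l l' h
  have h00 := congrFun (congrFun h 0) 0
  have h01 := congrFun (congrFun h 0) 1
  have h10 := congrFun (congrFun h 1) 0
  have h11 := congrFun (congrFun h 1) 1
  simp only [pl, Matrix.of_apply, Matrix.cons_val', Matrix.cons_val_zero, Matrix.cons_val_one,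
    Matrix.empty_val', Matrix.cons_val_fin_one] at h00 h01 h10 h11
  apply Ln.ext
  · ext i; fin_cases i
    · exact h01
    · exact h11
  · ext i; fin_cases i
    · exact h00
    · exact h10

theorem bil_pl (q : Qd) (l : Ln) :
    (q.bil (pl l) (pl l)) 0 0 = q.a 0 0 * l.u 0 ^ 2 + 2 * q.a 0 1 * l.u 0 * l.u 1 +
      q.a 1 1 * l.u 1 ^ 2 + 2 * q.b 0 0 * l.u 0 + 2 * q.b 1 0 * l.u 1 + q.d 0 0 ∧
    (q.bil (pl l) (pl l)) 0 1 = q.a 0 0 * l.u 0 * l.p 0 + q.a 0 1 * l.u 0 * l.p 1 +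
      q.a 0 1 * l.u 1 * l.p 0 + q.a 1 1 * l.u 1 * l.p 1 + q.b 0 0 * l.p 0 + q.b 0 1 * l.u 0 +
      q.b 1 0 * l.p 1 + q.b 1 1 * l.u 1 + q.d 0 1 ∧
    (q.bil (pl l) (pl l)) 1 1 = q.a 0 0 * l.p 0 ^ 2 + 2 * q.a 0 1 * l.p 0 * l.p 1 +
      q.a 1 1 * l.p 1 ^ 2 + 2 * q.b 0 1 * l.p 0 + 2 * q.b 1 1 * l.p 1 + q.d 1 1 := by
  have h10 : q.a 1 0 = q.a 0 1 := congrFun (congrFun q.ha 0) 1
  unfold Qd.bil pl
  simp only [Matrix.add_apply, Matrix.mul_apply, Fin.sum_univ_two, transpose_apply, Matrix.of_apply,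
    Matrix.cons_val', Matrix.cons_val_zero, Matrix.cons_val_one,
    Matrix.empty_val', Matrix.cons_val_fin_one, h10]
  refine ⟨by ring, by ring, by ring⟩

theorem iso_iff (q : Qd) (l : Ln) : q.Iso (pl l) ↔ (q.bil (pl l) (pl l)) 0 0 = 0 ∧
    (q.bil (pl l) (pl l)) 0 1 = 0 ∧ (q.bil (pl l) (pl l)) 1 1 = 0 := by
  unfold Qd.Iso
  constructor
  · intro h; rw [h]; simp
  · rintro ⟨h1, h2, h3⟩
    have h4 : (q.bil (pl l) (pl l)) 1 0 = (q.bil (pl l) (pl l)) 0 1 :=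
      congrFun (congrFun (q.bil_transpose (pl l) (pl l)) 0) 1
    ext i j
    fin_cases i <;> fin_cases j
    · exact h1
    · exact h2
    · exact h4.trans h2
    · exact h3

theorem eval_pt_of_mem {l : Ln} {G : P3} (h : G ∈ l.I) (t : ℂ) : eval (l.pt t) G = 0 := by
  have : l.I ≤ RingHom.ker (eval (l.pt t)) := by
    unfold Ln.I
    rw [Ideal.span_le]
    rintro f (rfl | rfl)
    · simp [RingHom.mem_ker, Ln.pt]; ring
    · simp [RingHom.mem_ker, Ln.pt]; ring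
  exact this h

theorem mem_I_iff (q : Qd) (l : Ln) : q.poly ∈ l.I ↔ q.Iso (pl l) := by
  obtain ⟨b1, b2, b3⟩ := bil_pl q l
  rw [iso_iff, b1, b2, b3]
  constructor
  · intro h
    have key : ∀ t : ℂ, t ^ 2 * (q.a 0 0 * l.u 0 ^ 2 + 2 * q.a 0 1 * l.u 0 * l.u 1 +
      q.a 1 1 * l.u 1 ^ 2 + 2 * q.b 0 0 * l.u 0 + 2 * q.b 1 0 * l.u 1 + q.d 0 0) +
      2 * t * (q.a 0 0 * l.u 0 * l.p 0 + q.a 0 1 * l.u 0 * l.p 1 +
      q.a 0 1 * l.u 1 * l.p 0 + q.a 1 1 * l.u 1 * l.p 1 + q.b 0 0 * l.p 0 + q.b 0 1 * l.u 0 +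
      q.b 1 0 * l.p 1 + q.b 1 1 * l.u 1 + q.d 0 1) +
      (q.a 0 0 * l.p 0 ^ 2 + 2 * q.a 0 1 * l.p 0 * l.p 1 +
      q.a 1 1 * l.p 1 ^ 2 + 2 * q.b 0 1 * l.p 0 + 2 * q.b 1 1 * l.p 1 + q.d 1 1) = 0 := by
      intro t
      have h1 := eval_pt_of_mem h t
      simp only [Qd.poly, Ln.pt, map_add, map_mul, map_pow, eval_C, eval_X, map_ofNat,
        Matrix.cons_val_zero, Matrix.cons_val_one, Matrix.cons_val] at h1
      linear_combination h1
    have k0 := key 0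
    have k1 := key 1
    have k2 := key (-1)
    refine ⟨?_, ?_, ?_⟩
    · linear_combination (k1 + k2) / 2 - k0
    · linear_combination (k1 - k2) / 4
    · linear_combination k0
  · rintro ⟨h1, h2, h3⟩
    have m0 : (X 0 - C (l.p 0) - C (l.u 0) * X 2 : P3) ∈ l.I :=
      Ideal.subset_span (by simp)
    have m1 : (X 1 - C (l.p 1) - C (l.u 1) * X 2 : P3) ∈ l.I :=
      Ideal.subset_span (by simp)
    rw [← Ideal.Quotient.eq_zero_iff_mem] at m0 m1 ⊢
    have e1 := congrArg (fun z => Ideal.Quotient.mk l.I (C z)) h1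
    have e2 := congrArg (fun z => Ideal.Quotient.mk l.I (C z)) h2
    have e3 := congrArg (fun z => Ideal.Quotient.mk l.I (C z)) h3
    unfold Qd.poly
    simp only [map_add, map_mul, map_sub, map_pow, map_ofNat, map_zero] at m0 m1 e1 e2 e3 ⊢
    generalize Ideal.Quotient.mk l.I (X 0) = x0 at *
    generalize Ideal.Quotient.mk l.I (X 1) = x1 at *
    generalize Ideal.Quotient.mk l.I (X 2) = x2 at *
    have hx0 : x0 = Ideal.Quotient.mk l.I (C (l.p 0)) + Ideal.Quotient.mk l.I (C (l.u 0)) * x2 := by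
      linear_combination m0
    have hx1 : x1 = Ideal.Quotient.mk l.I (C (l.p 1)) + Ideal.Quotient.mk l.I (C (l.u 1)) * x2 := by
      linear_combination m1
    rw [hx0, hx1]
    linear_combination x2 ^ 2 * e1 + 2 * x2 * e2 + e3

theorem det_mat (q : Qd) : q.mat.det =
    (!![q.a 0 0, q.a 0 1, q.b 0 0, q.b 0 1; q.a 0 1, q.a 1 1, q.b 1 0, q.b 1 1;
      q.b 0 0, q.b 1 0, q.d 0 0, q.d 0 1; q.b 0 1, q.b 1 1, q.d 0 1, q.d 1 1] :
      Matrix (Fin 4) (Fin 4) ℂ).det := by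
  have h10 : q.a 1 0 = q.a 0 1 := congrFun (congrFun q.ha 0) 1
  have g10 : q.d 1 0 = q.d 0 1 := congrFun (congrFun q.hd 0) 1
  rw [← Matrix.det_reindex_self (finSumFinEquiv (m := 2) (n := 2)) q.mat]
  congr 1
  ext i j
  fin_cases i <;> fin_cases j
  · rfl
  · rfl
  · rfl
  · rfl
  · exact h10
  · rfl
  · rfl
  · rfl
  · rfl
  · rfl
  · rfl
  · rfl
  · rfl
  · rfl
  · exact g10
  · rfl

theorem det4 (x00 x01 x11 y00 y01 y10 y11 z00 z01 z11 : ℂ) :
    (!![x00, x01, y00, y01; x01, x11, y10, y11; y00, y10, z00, z01; y01, y11, z01, z11] :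
      Matrix (Fin 4) (Fin 4) ℂ).det = x00 * x11 * z00 * z11 - x00 * x11 * z01 * z01 - x00 * y10 * y10 * z11 + x00 * y10 * z01
      * y11 + x00 * y11 * y10 * z01 - x00 * y11 * z00 * y11 - x01 * x01 * z00 * z11 + x01 *
      x01 * z01 * z01 + x01 * y10 * y00 * z11 - x01 * y10 * z01 * y01 - x01 * y11 * y00 * z01
      + x01 * y11 * z00 * y01 + y00 * x01 * y10 * z11 - y00 * x01 * z01 * y11 - y00 * x11 *
      y00 * z11 + y00 * x11 * z01 * y01 + y00 * y11 * y00 * y11 - y00 * y11 * y10 * y01 - y01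
      * x01 * y10 * z01 + y01 * x01 * z00 * y11 + y01 * x11 * y00 * z01 - y01 * x11 * z00 *
      y01 - y01 * y10 * y00 * y11 + y01 * y10 * y10 * y01 := by
  simp [Matrix.det_succ_row_zero, Fin.sum_univ_succ, Fin.succAbove]
  ring

theorem pderiv_two (i : Fin 3) : pderiv i (2 : P3) = 0 := by
  rw [← map_ofNat C 2]; exact pderiv_C

theorem pderiv0 (q : Qd) : pderiv 0 q.poly = 2 * C (q.a 0 0) * X 0 + 2 * C (q.a 0 1) * X 1 +
    2 * C (q.b 0 0) * X 2 + 2 * C (q.b 0 1) := by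
  unfold Qd.poly
  simp [pderiv_X, Derivation.leibniz_pow, pderiv_two]
  ring

theorem pderiv1 (q : Qd) : pderiv 1 q.poly = 2 * C (q.a 0 1) * X 0 + 2 * C (q.a 1 1) * X 1 +
    2 * C (q.b 1 0) * X 2 + 2 * C (q.b 1 1) := by
  unfold Qd.poly
  simp [pderiv_X, Derivation.leibniz_pow, pderiv_two]
  ring

theorem pderiv2 (q : Qd) : pderiv 2 q.poly = 2 * C (q.b 0 0) * X 0 + 2 * C (q.b 1 0) * X 1 +
    2 * C (q.d 0 0) * X 2 + 2 * C (q.d 0 1) := by
  unfold Qd.poly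
  simp [pderiv_X, Derivation.leibniz_pow, pderiv_two]
  ring

theorem lin0 (a b c d : ℂ) : pderiv 0 (2 * C a * X 0 + 2 * C b * X 1 + 2 * C c * X 2 +
    2 * C d : P3) = 2 * C a := by
  simp [pderiv_X, pderiv_two]

theorem lin1 (a b c d : ℂ) : pderiv 1 (2 * C a * X 0 + 2 * C b * X 1 + 2 * C c * X 2 +
    2 * C d : P3) = 2 * C b := by
  simp [pderiv_X, pderiv_two]

theorem lin2 (a b c d : ℂ) : pderiv 2 (2 * C a * X 0 + 2 * C b * X 1 + 2 * C c * X 2 +
    2 * C d : P3) = 2 * C c := by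
  simp [pderiv_X, pderiv_two]

theorem e0 : e 0 = ![1, 0, 0] := by
  unfold e
  ext i; fin_cases i <;> simp

theorem e1 : e 1 = ![0, 1, 0] := by
  unfold e
  ext i; fin_cases i <;> simp

theorem e2 : e 2 = ![0, 0, 1] := by
  unfold e
  ext i; fin_cases i <;> simp

theorem dev_of_det {q : Qd} (h : q.mat.det = 0) : Dev q.poly := by
  rw [det_mat, det4] at h
  have hC := congrArg (fun z => (C z : P3)) h
  simp only [map_add, map_sub, map_mul, map_zero] at hC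
  intro i j
  unfold DeltaC disc2 D2 Xv
  simp only [Fin.sum_univ_three, Matrix.cons_val_zero, Matrix.cons_val_one, Matrix.cons_val,
    pderiv0, pderiv1, pderiv2, lin0, lin1, lin2]
  fin_cases i <;> fin_cases j <;>
    simp only [Fin.zero_eta, Fin.mk_one, Fin.reduceFinMk, e0, e1, e2, Matrix.cons_val_zero,
      Matrix.cons_val_one, Matrix.cons_val, map_zero, map_one, mul_zero, mul_one, sub_zero,
      zero_sub] <;> unfold Qd.poly <;>
    generalize (C (q.a 0 0) : P3) = x00 at hC ⊢ <;>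
    generalize (C (q.a 0 1) : P3) = x01 at hC ⊢ <;>
    generalize (C (q.a 1 1) : P3) = x11 at hC ⊢ <;>
    generalize (C (q.b 0 0) : P3) = y00 at hC ⊢ <;>
    generalize (C (q.b 0 1) : P3) = y01 at hC ⊢ <;>
    generalize (C (q.b 1 0) : P3) = y10 at hC ⊢ <;>
    generalize (C (q.b 1 1) : P3) = y11 at hC ⊢ <;>
    generalize (C (q.d 0 0) : P3) = z00 at hC ⊢ <;>
    generalize (C (q.d 0 1) : P3) = z01 at hC ⊢ <;>
    generalize (C (q.d 1 1) : P3) = z11 at hC ⊢ <;>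
    generalize (X 0 : P3) = x at ⊢ <;>
    generalize (X 1 : P3) = y at ⊢ <;>
    generalize (X 2 : P3) = z at ⊢
  · exact ⟨0, by ring⟩
  · refine ⟨16 * (x00 * (x11 * z00 - y10 ^ 2) - x01 * (x01 * z00 - y10 * y00) +
      y00 * (x01 * y10 - x11 * y00)) * (2 * y00 * x + 2 * y10 * y + 2 * z00 * z + 2 * z01) ^ 2, ?_⟩
    linear_combination (-16 * (2 * y00 * x + 2 * y10 * y + 2 * z00 * z + 2 * z01) ^ 2) * hC
  · refine ⟨16 * (x00 * (x11 * z00 - y10 ^ 2) - x01 * (x01 * z00 - y10 * y00) +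
      y00 * (x01 * y10 - x11 * y00)) * (2 * x01 * x + 2 * x11 * y + 2 * y10 * z + 2 * y11) ^ 2, ?_⟩
    linear_combination (-16 * (2 * x01 * x + 2 * x11 * y + 2 * y10 * z + 2 * y11) ^ 2) * hC
  · refine ⟨16 * (x00 * (x11 * z00 - y10 ^ 2) - x01 * (x01 * z00 - y10 * y00) +
      y00 * (x01 * y10 - x11 * y00)) * (2 * y00 * x + 2 * y10 * y + 2 * z00 * z + 2 * z01) ^ 2, ?_⟩
    linear_combination (-16 * (2 * y00 * x + 2 * y10 * y + 2 * z00 * z + 2 * z01) ^ 2) * hC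
  · exact ⟨0, by ring⟩
  · refine ⟨16 * (x00 * (x11 * z00 - y10 ^ 2) - x01 * (x01 * z00 - y10 * y00) +
      y00 * (x01 * y10 - x11 * y00)) * (2 * x00 * x + 2 * x01 * y + 2 * y00 * z + 2 * y01) ^ 2, ?_⟩
    linear_combination (-16 * (2 * x00 * x + 2 * x01 * y + 2 * y00 * z + 2 * y01) ^ 2) * hC
  · refine ⟨16 * (x00 * (x11 * z00 - y10 ^ 2) - x01 * (x01 * z00 - y10 * y00) +
      y00 * (x01 * y10 - x11 * y00)) * (2 * x01 * x + 2 * x11 * y + 2 * y10 * z + 2 * y11) ^ 2, ?_⟩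
    linear_combination (-16 * (2 * x01 * x + 2 * x11 * y + 2 * y10 * z + 2 * y11) ^ 2) * hC
  · refine ⟨16 * (x00 * (x11 * z00 - y10 ^ 2) - x01 * (x01 * z00 - y10 * y00) +
      y00 * (x01 * y10 - x11 * y00)) * (2 * x00 * x + 2 * x01 * y + 2 * y00 * z + 2 * y01) ^ 2, ?_⟩
    linear_combination (-16 * (2 * x00 * x + 2 * x01 * y + 2 * y00 * z + 2 * y01) ^ 2) * hC
  · exact ⟨0, by ring⟩

end Clq

/-- T8 -/
theorem clique : CliqueStmt := by
  classical
  intro Q _ hdeg hdev hQ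
  choose q hq using fun k => Clq.exists_poly (hdeg k).le
  have hdet : ∀ k, (q k).mat.det ≠ 0 := by
    intro k h
    exact hdev k (hq k ▸ Clq.dev_of_det h)
  have hS : ∀ k k', k ≠ k' → ∃ S : Finset Clq.M2, S.card = 4 ∧ ∀ P ∈ S, (q k).Iso P ∧
      (q k').Iso P ∧ ∀ k'', k'' ≠ k → k'' ≠ k' → ¬ (q k'').Iso P := by
    intro k k' hk
    obtain ⟨S, hc, h⟩ := hQ k k' hk
    refine ⟨S.image Clq.pl, ?_, ?_⟩
    · rw [Finset.card_image_of_injective _ Clq.pl_inj, hc]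
    · intro P hP
      obtain ⟨l, hl, rfl⟩ := Finset.mem_image.1 hP
      obtain ⟨h1, h2, h3⟩ := h l hl
      rw [hq, Clq.mem_I_iff] at h1 h2
      refine ⟨h1, h2, ?_⟩
      intro k'' n1 n2 h4
      have h5 := h3 k'' n1 n2
      rw [hq, Clq.mem_I_iff] at h5
      exact h5 h4
  apply Clq.no17 (fun k => (q k).mat) hdet
  intro i j hij
  obtain ⟨k, hki, hkj⟩ : ∃ k : Fin 17, k ≠ i ∧ k ≠ j := by
    revert i j
    decide
  obtain ⟨S1, c1, h1⟩ := hS i j hij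
  obtain ⟨S2, c2, h2⟩ := hS i k hki.symm
  obtain ⟨S3, c3, h3⟩ := hS j k hkj.symm
  exact Clq.pair (C := q k) (hdet i) (hdet j) c1 c2 c3
    (fun P hP => ⟨(h1 P hP).1, (h1 P hP).2.1, (h1 P hP).2.2 k hki hkj⟩)
    (fun P hP => ⟨(h2 P hP).1, (h2 P hP).2.1, (h2 P hP).2.2 j hij.symm hkj.symm⟩)
    (fun P hP => ⟨(h3 P hP).1, (h3 P hP).2.1, (h3 P hP).2.2 i hij hki.symm⟩)

end Pool.Agent.Lib.MP_a8d5c3_co.Stab
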