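import Mathlib
import Pool.Agent.Lib.MP_a8d5c3_co.Stab.Stmts

/-!
T6c: linear algebra over `ℂ(t)` along the vertical axis.
-/

set_option autoImplicit false

namespace Pool.Agent.Lib.MP_a8d5c3_co.Stab

open MvPolynomial Matrix

namespace Minor

/-- a matrix over a domain with independent columns has a nonzero maximal minor -/
theorem exists_minor {R : Type} [CommRing R] [IsDomain R] {ι κ : Type} [Fintype ι] [DecidableEq ι]
    [Finite κ] (A : Matrix κ ι R) (h : ∀ c : ι → R, A *ᵥ c = 0 → c = 0) :
    ∃ r : ι → κ, (A.submatrix r id).det ≠ 0 := by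
  classical
  have := Fintype.ofFinite κ
  set K := FractionRing R
  have hinj : Function.Injective (algebraMap R K) := IsFractionRing.injective R K
  set B : Matrix κ ι K := A.map (algebraMap R K) with hB
  have h1 : LinearIndependent R (B.col) := by
    rw [Fintype.linearIndependent_iff]
    intro c hc i
    have : c = 0 := by
      apply h
      ext x
      apply hinj
      have := congrFun hc x
      simp only [Finset.sum_apply, hB, Pi.zero_apply, Algebra.smul_def] at this
      simp only [Matrix.mulVec, dotProduct, map_sum, map_mul, Pi.zero_apply, map_zero]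
      rw [← this]
      exact Finset.sum_congr rfl fun i _ => mul_comm _ _
    rw [this]; rfl
  have h2 : LinearIndependent K (B.col) := (LinearIndependent.iff_fractionRing R K).mp h1
  have h3 : B.rank = Fintype.card ι := by
    rw [← Matrix.rank_transpose]
    exact LinearIndependent.rank_matrix (M := Bᵀ) h2
  have h4 : Submodule.span K (Set.range B.row) = ⊤ := by
    apply Submodule.eq_top_of_finrank_eq
    rw [← Matrix.rank_eq_finrank_span_row, h3]
    simp
  obtain ⟨b, hb, hspan, hli⟩ := exists_linearIndependent K (Set.range B.row)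
  rw [h4] at hspan
  have hbasis : Module.Basis b K (ι → K) := Module.Basis.mk hli (by
    rw [Subtype.range_coe, hspan])
  have : Finite b := Module.Finite.finite_basis hbasis
  have := Fintype.ofFinite b
  have hcard : Fintype.card ι = Fintype.card b := by
    have := Module.finrank_eq_card_basis hbasis
    simpa using this
  let e : ι ≃ b := Fintype.equivOfCardEq hcard
  have hr : ∀ i : ι, ∃ x : κ, B.row x = (e i : ι → K) := fun i => hb (e i).2
  choose r hr using hr
  refine ⟨r, fun h0 => ?_⟩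
  have h5 : LinearIndependent K (B.submatrix r id).row := by
    have : (B.submatrix r id).row = (fun x : b => (x : ι → K)) ∘ e := by
      funext i
      rw [Function.comp_apply, ← hr i]
      rfl
    rw [this]
    exact hli.comp _ e.injective
  rw [Matrix.linearIndependent_rows_iff_isUnit, Matrix.isUnit_iff_isUnit_det] at h5
  apply h5.ne_zero
  have : B.submatrix r id = (A.submatrix r id).map (algebraMap R K) := rfl
  rw [this, ← RingHom.mapMatrix_apply, ← RingHom.map_det, h0, map_zero]

/-- degree bound for determinants -/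
theorem natDegree_det_le {ι : Type} [Fintype ι] [DecidableEq ι] (A : Matrix ι ι (Polynomial ℂ))
    (d : ι → ℕ) (h : ∀ i j, (A i j).natDegree ≤ d j) : A.det.natDegree ≤ ∑ j, d j := by
  rw [Matrix.det_apply]
  apply Polynomial.natDegree_sum_le_of_forall_le
  intro σ _
  refine le_trans (Polynomial.natDegree_smul_le _ _) ?_
  refine le_trans (Polynomial.natDegree_prod_le _ _) ?_
  exact Finset.sum_le_sum fun j _ => h _ _

/-- congruent matrices have congruent determinants -/
theorem det_congr_dvd {R : Type} [CommRing R] {ι : Type} [Fintype ι] [DecidableEq ι]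
    (A B : Matrix ι ι R) (q : R) (h : ∀ i j, q ∣ A i j - B i j) : q ∣ A.det - B.det := by
  rw [← Ideal.mem_span_singleton, ← Ideal.Quotient.eq, RingHom.map_det, RingHom.map_det]
  congr 1
  ext i j
  simp only [RingHom.mapMatrix_apply, Matrix.map_apply]
  rw [Ideal.Quotient.eq, Ideal.mem_span_singleton]
  exact h i j

theorem dvd_det_of_entries {R : Type} [CommRing R] {ι : Type} [Fintype ι] [DecidableEq ι]
    (A : Matrix ι ι R) (q : R) (h : ∀ i j, q ∣ A i j) : q ^ Fintype.card ι ∣ A.det := by
  choose B hB using h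
  have : A = q • Matrix.of B := by
    ext i j
    simp [hB i j]
  rw [this, Matrix.det_smul]
  exact dvd_mul_right _ _

/-- graded triangular matrix with diagonal entries divisible by `q` -/
theorem dvd_det_graded {R : Type} [CommRing R] [IsDomain R] {ι : Type} [Fintype ι] [DecidableEq ι]
    (A : Matrix ι ι R) (q : R) (hq : q ≠ 0) (w : ι → ℕ) (h0 : ∀ i, q ∣ A i i)
    (h1 : ∀ i j, i ≠ j → w i ≤ w j → A i j = 0) : q ^ Fintype.card ι ∣ A.det := by
  let B : Matrix ι ι R := Matrix.of fun i j =>
    if i = j then A i j else if w i ≤ w j then 0 else A i j * q ^ (w i - w j)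
  have hB : B * Matrix.diagonal (fun i => q ^ w i) = Matrix.diagonal (fun i => q ^ w i) * A := by
    ext i j
    rw [Matrix.mul_diagonal, Matrix.diagonal_mul]
    simp only [B, Matrix.of_apply]
    split_ifs with h2 h3
    · subst h2; ring
    · rw [h1 i j h2 h3]; ring
    · have : q ^ w i = q ^ (w i - w j) * q ^ w j := by
        rw [← pow_add]; congr 1; omega
      rw [this]; ring
  have hdet : B.det = A.det := by
    have := congrArg Matrix.det hB
    rw [Matrix.det_mul, Matrix.det_mul, mul_comm] at this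
    refine mul_left_cancel₀ ?_ this
    rw [Matrix.det_diagonal]
    exact Finset.prod_ne_zero_iff.mpr fun i _ => pow_ne_zero _ hq
  rw [← hdet]
  apply dvd_det_of_entries
  intro i j
  simp only [B, Matrix.of_apply]
  split_ifs with h2 h3
  · subst h2; exact h0 i
  · exact dvd_zero _
  · exact Dvd.dvd.mul_left (dvd_pow_self q (by omega)) _


/-- exponent of the monomial `x^(e.1) y^(e.2)` -/
noncomputable def ex (e : ℕ × ℕ) : Fin 3 →₀ ℕ := Finsupp.single 0 e.1 + Finsupp.single 1 e.2

@[simp] theorem ex_zero (e : ℕ × ℕ) : ex e 0 = e.1 := by simp [ex]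
@[simp] theorem ex_one (e : ℕ × ℕ) : ex e 1 = e.2 := by simp [ex]
@[simp] theorem ex_two (e : ℕ × ℕ) : ex e 2 = 0 := by simp [ex]

/-- the coefficient of `x^(e.1) y^(e.2)`, a polynomial in `z` -/
noncomputable def vec (f : P3) (e : ℕ × ℕ) : Polynomial ℂ := sl 2 (ex e) f

theorem erase_ex (e : ℕ × ℕ) : (ex e).erase 2 = ex e := by
  ext j
  by_cases hj : j = 2
  · subst hj; simp
  · rw [Finsupp.erase_ne hj]

theorem vec_coeff (f : P3) (e : ℕ × ℕ) (c : ℕ) :
    (vec f e).coeff c = f.coeff (ex e + Finsupp.single 2 c) := by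
  rw [vec, sl_coeff, erase_ex]

theorem vec_zero (e : ℕ × ℕ) : vec 0 e = 0 := sl_zero _ _

theorem vec_add (f g : P3) (e : ℕ × ℕ) : vec (f + g) e = vec f e + vec g e := sl_add _ _ _ _

theorem vec_sub (f g : P3) (e : ℕ × ℕ) : vec (f - g) e = vec f e - vec g e := sl_sub _ _ _ _

theorem vec_sum {ι : Type*} (s : Finset ι) (f : ι → P3) (e : ℕ × ℕ) :
    vec (∑ i ∈ s, f i) e = ∑ i ∈ s, vec (f i) e := by
  classical
  induction s using Finset.induction_on with
  | empty => simp [vec_zero]
  | insert a s ha ih => rw [Finset.sum_insert ha, Finset.sum_insert ha, vec_add, ih]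

/-- a polynomial in `z` as an element of `P3` -/
noncomputable def em (ρ : Polynomial ℂ) : P3 := Polynomial.aeval (X 2 : P3) ρ

theorem em_add (ρ σ : Polynomial ℂ) : em (ρ + σ) = em ρ + em σ := by simp [em]
theorem em_zero : em 0 = 0 := by simp [em]
theorem em_neg (ρ : Polynomial ℂ) : em (-ρ) = - em ρ := by simp [em]

theorem vec_em (ρ : Polynomial ℂ) (f : P3) (e : ℕ × ℕ) : vec (em ρ * f) e = ρ * vec f e := by
  induction ρ using Polynomial.induction_on' with
  | add p q hp hq => rw [em_add, add_mul, vec_add, hp, hq, add_mul]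
  | monomial n a =>
    have : em (Polynomial.monomial n a) = C a * X 2 ^ n := by
      unfold em
      rw [Polynomial.aeval_monomial]
      rfl
    rw [this, mul_assoc, vec, sl_smul]
    have h : ∀ n : ℕ, sl 2 (ex e) (X 2 ^ n * f) = Polynomial.X ^ n * sl 2 (ex e) f := by
      intro n
      induction n with
      | zero => simp
      | succ n ih => rw [pow_succ', mul_assoc, sl_X_mul_self, ih, pow_succ', mul_assoc]
    rw [h, ← Polynomial.C_mul_X_pow_eq_monomial, mul_assoc]
    rfl

/-- the monomial `x^(e.1) y^(e.2)` -/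
noncomputable def mon (e : ℕ × ℕ) : P3 := X 0 ^ e.1 * X 1 ^ e.2

theorem mon_eq (e : ℕ × ℕ) : mon e = monomial (ex e) 1 := by
  unfold mon ex
  rw [X_pow_eq_monomial, X_pow_eq_monomial, monomial_mul, one_mul]

theorem vec_mon (e' : ℕ × ℕ) (f : P3) (e : ℕ × ℕ) :
    vec (mon e' * f) e = if e'.1 ≤ e.1 ∧ e'.2 ≤ e.2 then vec f (e.1 - e'.1, e.2 - e'.2) else 0 := by
  ext c
  rw [vec_coeff, mon_eq, coeff_monomial_mul']
  have h1 : ex e' ≤ ex e + Finsupp.single 2 c ↔ e'.1 ≤ e.1 ∧ e'.2 ≤ e.2 := by
    constructor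
    · intro h
      constructor
      · have := h 0
        simpa using this
      · have := h 1
        simpa using this
    · rintro ⟨ha, hb⟩ j
      fin_cases j
      · simpa using ha
      · simpa using hb
      · simp
  by_cases h : e'.1 ≤ e.1 ∧ e'.2 ≤ e.2
  · rw [if_pos (h1.mpr h), if_pos h, vec_coeff, one_mul]
    congr 1
    ext j
    fin_cases j
    · simp
    · simp
    · simp
  · rw [if_neg (fun hh => h (h1.mp hh)), if_neg h, Polynomial.coeff_zero]

theorem wt01 (s : Fin 3 →₀ ℕ) : wt {0, 1} s = s 0 + s 1 := by simp [wt]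

theorem eq_ex (s : Fin 3 →₀ ℕ) : s = ex (s 0, s 1) + Finsupp.single 2 (s 2) := by
  ext j
  fin_cases j <;> simp

theorem mem_pow_iff (f : P3) (j : ℕ) :
    f ∈ (vI ℂ {0, 1}) ^ j ↔ ∀ e : ℕ × ℕ, e.1 + e.2 < j → vec f e = 0 := by
  rw [mem_vI_pow']
  constructor
  · intro h e he
    ext c
    rw [vec_coeff, h _ (by rw [wt01]; simpa using he), Polynomial.coeff_zero]
  · intro h s hs
    rw [wt01] at hs
    have := congrArg (fun p => Polynomial.coeff p (s 2)) (h (s 0, s 1) hs)
    simp only [vec_coeff, Polynomial.coeff_zero] at this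
    rwa [← eq_ex] at this

/-- exponents of weight less than `n` -/
def Ex (n : ℕ) : Finset (ℕ × ℕ) :=
  (Finset.range n ×ˢ Finset.range n).filter fun e => e.1 + e.2 < n

theorem mem_Ex {n : ℕ} {e : ℕ × ℕ} : e ∈ Ex n ↔ e.1 + e.2 < n := by
  simp only [Ex, Finset.mem_filter, Finset.mem_product, Finset.mem_range]
  omega

theorem card_Ex (n : ℕ) : (Ex n).card = n * (n + 1) / 2 := by
  induction n with
  | zero => simp [Ex]
  | succ n ih =>
    have h1 : Ex (n + 1) = Ex n ∪ Finset.HasAntidiagonal.antidiagonal n := by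
      ext e
      rw [Finset.mem_union, mem_Ex, mem_Ex, Finset.HasAntidiagonal.mem_antidiagonal]
      omega
    have h2 : Disjoint (Ex n) (Finset.HasAntidiagonal.antidiagonal n) := by
      rw [Finset.disjoint_left]
      intro e he he'
      rw [mem_Ex] at he
      rw [Finset.HasAntidiagonal.mem_antidiagonal] at he'
      omega
    rw [h1, Finset.card_union_of_disjoint h2, ih, Finset.Nat.card_antidiagonal]
    have h3 : (n + 1) * (n + 1 + 1) = n * (n + 1) + 2 * (n + 1) := by ring
    rw [h3]
    omega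

/-- modulo `I^n` a polynomial is the sum of its components of low weight -/
theorem decomp (f : P3) (n : ℕ) :
    f - ∑ e ∈ Ex n, em (vec f e) * mon e ∈ (vI ℂ {0, 1}) ^ n := by
  rw [mem_pow_iff]
  intro e he
  rw [vec_sub, vec_sum]
  rw [Finset.sum_eq_single_of_mem e (mem_Ex.mpr he)]
  · rw [vec_em]
    have : vec (mon e) e = 1 := by
      have := vec_mon e 1 e
      rw [mul_one, if_pos ⟨le_rfl, le_rfl⟩] at this
      rw [this]
      ext c
      rw [vec_coeff, Polynomial.coeff_one]
      simp only [Nat.sub_self]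
      rw [coeff_one]
      by_cases hc : c = 0
      · subst hc; simp [ex]
      · rw [if_neg, if_neg hc]
        intro hh
        have := DFunLike.congr_fun hh 2
        simp at this
        exact hc this.symm
    rw [this, mul_one, sub_self]
  · intro e' he' hne
    rw [vec_em]
    have : vec (mon e') e = 0 := by
      have := vec_mon e' 1 e
      rw [mul_one] at this
      rw [this]
      split_ifs with hh
      · ext c
        rw [vec_coeff, Polynomial.coeff_zero, coeff_one, if_neg]
        intro h0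
        have h1 := DFunLike.congr_fun h0 0
        have h2 := DFunLike.congr_fun h0 1
        simp at h1 h2
        apply hne
        ext <;> omega
      · rfl
    rw [this, mul_zero]

theorem vec_dvd {t : ℂ} {n : ℕ} {f : P3} (h : f ∈ mI ![0, 0, t] ^ n) (e : ℕ × ℕ) :
    (Polynomial.X - Polynomial.C t) ^ (n - (e.1 + e.2)) ∣ vec f e := by
  have := sl_dvd_of_mem (i := 2) (x := ![0, 0, t]) (by
      intro j hj; fin_cases j <;> simp_all) h (ex e)
  have h2 : wt (Finset.univ.erase 2) (ex e) = e.1 + e.2 := by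
    have e' : (Finset.univ.erase 2 : Finset (Fin 3)) = {0, 1} := by decide
    rw [e', wt01]; simp
  rw [h2] at this
  exact this

theorem vec_natDegree (f : P3) (e : ℕ × ℕ) : (vec f e).natDegree ≤ f.totalDegree := by
  by_cases h : vec f e = 0
  · rw [h]; simp
  · have := natDegree_sl_le 2 (ex e) (f := f) h
    change (vec f e).natDegree + _ ≤ _ at this
    omega

theorem vec_mon_one (e' e : ℕ × ℕ) : vec (mon e') e = if e = e' then 1 else 0 := by
  have h := vec_mon e' 1 e
  rw [mul_one] at h
  rw [h]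
  ext c
  split_ifs with h1 h2 h2
  · subst h2
    rw [vec_coeff, Polynomial.coeff_one, coeff_one]
    simp only [Nat.sub_self]
    by_cases hc : c = 0
    · subst hc; simp [ex]
    · rw [if_neg, if_neg hc]
      intro hh
      have := DFunLike.congr_fun hh 2
      simp at this
      exact hc this.symm
  · rw [vec_coeff, Polynomial.coeff_zero, coeff_one, if_neg]
    intro h0
    have h3 := DFunLike.congr_fun h0 0
    have h4 := DFunLike.congr_fun h0 1
    simp at h3 h4
    apply h2
    ext <;> omega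
  · subst h2
    exact absurd ⟨le_rfl, le_rfl⟩ h1
  · rfl

theorem vec_comb (n : ℕ) (c : ℕ × ℕ → Polynomial ℂ) {e : ℕ × ℕ} (he : e ∈ Ex n) :
    vec (∑ e' ∈ Ex n, em (c e') * mon e') e = c e := by
  rw [vec_sum, Finset.sum_eq_single_of_mem e he]
  · rw [vec_em, vec_mon_one, if_pos rfl, mul_one]
  · intro e' _ hne
    rw [vec_em, vec_mon_one, if_neg (Ne.symm hne), mul_zero]

/-- multiplication by an element of `I^2` -/
theorem vec_mul_of_mem {k : ℕ} (hk : 2 ≤ k) {f : P3} (hf : f ∈ (vI ℂ {0, 1}) ^ 2) (q : P3)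
    {r : ℕ × ℕ} (hr : r ∈ Ex (k + 1)) :
    vec (q * f) r = ∑ e ∈ Ex (k - 1), vec q e * vec (mon e * f) r := by
  have h1 := decomp q (k - 1)
  have h2 : (q - ∑ e ∈ Ex (k - 1), em (vec q e) * mon e) * f ∈ (vI ℂ {0, 1}) ^ (k + 1) := by
    have := Ideal.mul_mem_mul h1 hf
    rw [← pow_add] at this
    have e1 : k - 1 + 2 = k + 1 := by omega
    rwa [e1] at this
  have h3 := (mem_pow_iff _ _).mp h2 r (mem_Ex.mp hr)
  rw [sub_mul, vec_sub, sub_eq_zero] at h3
  rw [h3, Finset.sum_mul, vec_sum]
  refine Finset.sum_congr rfl fun e _ => ?_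
  rw [mul_assoc, vec_em]

theorem totalDegree_mon (e : ℕ × ℕ) : (mon e).totalDegree ≤ e.1 + e.2 := by
  unfold mon
  refine (totalDegree_mul _ _).trans ?_
  exact Nat.add_le_add (totalDegree_X_pow _ _).le (totalDegree_X_pow _ _).le

/-- the matrix -/
noncomputable def mat (k : ℕ) (F H : P3) :
    Matrix (Ex (k + 1)) ((Ex (k - 1)) ⊕ Unit) (Polynomial ℂ) :=
  Matrix.of fun r c => Sum.elim (fun e => vec (mon e.1 * F) r.1) (fun _ => vec H r.1) c

theorem local_dvd {k : ℕ} (hk : 2 ≤ k) {F H : P3} {t : ℂ} {F12 F3 a g : P3}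
    (h12 : F12 ∈ (vI ℂ {0, 1}) ^ 2) (h3 : F3 ∈ mI ![0, 0, t])
    (hg : g ∈ (mI ![0, 0, t]) ^ (k + 1) * (vI ℂ {0, 1}) ^ k)
    (hF : F - F12 * F3 ∈ (mI ![0, 0, t]) ^ (k * k + 2 * k + 1))
    (hH : H - a * F12 - g ∈ (mI ![0, 0, t]) ^ (k * k + 2 * k + 1))
    (r : (Ex (k - 1)) ⊕ Unit → Ex (k + 1)) :
    (Polynomial.X - Polynomial.C t) ^ ((Ex (k - 1)).card + (k + 1)) ∣
      ((mat k F H).submatrix r id).det := by
  classical
  set τ : Polynomial ℂ := Polynomial.X - Polynomial.C t with hτ
  have hτ0 : τ ≠ 0 := Polynomial.X_sub_C_ne_zero t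
  have hI : (vI ℂ {0, 1} : Ideal P3) ≤ mI ![0, 0, t] := by
    unfold vI
    rw [Ideal.span_le]
    rintro f ⟨j, hj, rfl⟩
    simp only [Finset.coe_insert, Finset.coe_singleton, Set.mem_insert_iff,
      Set.mem_singleton_iff] at hj
    unfold mI
    rcases hj with rfl | rfl
    · exact Ideal.subset_span (by simp)
    · exact Ideal.subset_span (by simp)
  -- divisibility of `g`
  have hgd : ∀ e : Ex (k + 1), ∃ γ : Polynomial ℂ, vec g e.1 = γ * τ ^ (k + 1) := by
    rintro ⟨e, he⟩
    rw [mem_Ex] at he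
    by_cases h : e.1 + e.2 < k
    · refine ⟨0, ?_⟩
      rw [zero_mul]
      exact (mem_pow_iff g k).mp (Ideal.mul_le_right hg) e h
    · have h1 : g ∈ (mI ![0, 0, t]) ^ (k + 1 + k) := by
        rw [pow_add]
        exact Ideal.mul_mono_right (Ideal.pow_right_mono hI k) hg
      have h2 := vec_dvd h1 e
      have h4 : k + 1 + k - (e.1 + e.2) = k + 1 := by omega
      rw [h4] at h2
      obtain ⟨γ, hγ⟩ := h2
      exact ⟨γ, by rw [hγ, mul_comm]⟩
  choose γ hγ using hgd
  let A' : Matrix (Ex (k + 1)) ((Ex (k - 1)) ⊕ Unit) (Polynomial ℂ) :=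
    mat k (F12 * F3) (a * F12 + g)
  let U : Matrix (Ex (k + 1)) ((Ex (k - 1)) ⊕ Unit) (Polynomial ℂ) :=
    Matrix.of fun r c => Sum.elim (fun e => vec (mon e.1 * F12) r.1) (fun _ => γ r) c
  let M : Matrix (Ex (k - 1)) (Ex (k - 1)) (Polynomial ℂ) :=
    Matrix.of fun e' e => vec (mon e.1 * F3) e'.1
  let T : Matrix ((Ex (k - 1)) ⊕ Unit) ((Ex (k - 1)) ⊕ Unit) (Polynomial ℂ) :=
    Matrix.fromBlocks M (Matrix.of fun e' _ => vec a e'.1) 0 (Matrix.of fun _ _ => τ ^ (k + 1))
  have hA' : A' = U * T := by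
    ext1 r c
    rw [Matrix.mul_apply, Fintype.sum_sum_type]
    rcases c with e | u
    · have h1 : A' r (Sum.inl e) = vec (mon e.1 * (F12 * F3)) r.1 := rfl
      have h2 : mon e.1 * (F12 * F3) = (mon e.1 * F3) * F12 := by ring
      rw [h1, h2, vec_mul_of_mem hk h12 _ r.2, ← Finset.sum_coe_sort]
      simp [U, T, M, mul_comm]
    · have h1 : A' r (Sum.inr u) = vec (a * F12 + g) r.1 := rfl
      rw [h1, vec_add, vec_mul_of_mem hk h12 _ r.2, hγ, ← Finset.sum_coe_sort]
      simp [U, T, mul_comm]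
  have hM : τ ^ (Ex (k - 1)).card ∣ M.det := by
    have := dvd_det_graded M τ hτ0 (fun e => e.1.1 + e.1.2) ?_ ?_
    · rwa [Fintype.card_coe] at this
    · rintro ⟨e, he⟩
      simp only [M, Matrix.of_apply]
      rw [vec_mon, if_pos ⟨le_rfl, le_rfl⟩]
      have h4 := vec_dvd (n := 1) (by rw [pow_one]; exact h3) (0, 0)
      simpa using h4
    · rintro ⟨i, hi⟩ ⟨j, hj⟩ hne hw
      simp only [M, Matrix.of_apply]
      rw [vec_mon, if_neg]
      rintro ⟨h4, h5⟩
      apply hne
      simp only at hw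
      apply Subtype.ext
      ext
      · show i.1 = j.1
        omega
      · show i.2 = j.2
        omega
  have hT : τ ^ ((Ex (k - 1)).card + (k + 1)) ∣ T.det := by
    have : T.det = M.det * τ ^ (k + 1) := by
      simp only [T]
      rw [Matrix.det_fromBlocks_zero₂₁]
      simp
    rw [this, pow_add]
    exact mul_dvd_mul_right hM _
  have h1 : τ ^ ((Ex (k - 1)).card + (k + 1)) ∣ (A'.submatrix r id).det := by
    have : A'.submatrix r id = U.submatrix r id * T := by
      rw [hA', Matrix.submatrix_mul _ _ r id id Function.bijective_id, Matrix.submatrix_id_id]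
    rw [this, Matrix.det_mul]
    exact Dvd.dvd.mul_left hT _
  have h2 : τ ^ (k * k + k + 1) ∣ ((mat k F H).submatrix r id).det - (A'.submatrix r id).det := by
    apply det_congr_dvd
    intro i j
    rw [Matrix.submatrix_apply, Matrix.submatrix_apply]
    have hle := mem_Ex.mp (r i).2
    have key : ∀ f : P3, f ∈ (mI ![0, 0, t]) ^ (k * k + 2 * k + 1) →
        τ ^ (k * k + k + 1) ∣ vec f (r i).1 := by
      intro f hf
      refine dvd_trans (pow_dvd_pow _ ?_) (vec_dvd hf _)
      omega
    rcases j with e | u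
    · have : mat k F H (r i) (id (Sum.inl e)) - A' (r i) (id (Sum.inl e)) =
          vec (mon e.1 * (F - F12 * F3)) (r i).1 := by
        rw [mul_sub, vec_sub]; rfl
      rw [this]
      exact key _ (Ideal.mul_mem_left _ _ hF)
    · have : mat k F H (r i) (id (Sum.inr u)) - A' (r i) (id (Sum.inr u)) =
          vec (H - a * F12 - g) (r i).1 := by
        rw [sub_sub, vec_sub]; rfl
      rw [this]
      exact key _ hH
  have h5 : (Ex (k - 1)).card + (k + 1) ≤ k * k + k + 1 := by
    rw [card_Ex]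
    obtain ⟨j, rfl⟩ : ∃ j, k = j + 1 := ⟨k - 1, by omega⟩
    have h6 : j * (j + 1) / 2 ≤ j * (j + 1) := Nat.div_le_self _ _
    simp only [Nat.add_sub_cancel]
    nlinarith
  have h6 := dvd_add (dvd_trans (pow_dvd_pow τ h5) h2) h1
  rwa [sub_add_cancel] at h6

theorem indep {k : ℕ} (hk : 2 ≤ k) {F H : P3} (hF3 : F ∉ (vI ℂ {0, 1}) ^ 3)
    (hno : ¬ ∃ ρ : Polynomial ℂ, ρ ≠ 0 ∧
      Polynomial.aeval (X 2 : P3) ρ * H ∈ Ideal.span {F} ⊔ (vI ℂ {0, 1}) ^ (k + 1))
    (c : (Ex (k - 1)) ⊕ Unit → Polynomial ℂ) (hc : (mat k F H) *ᵥ c = 0) : c = 0 := by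
  classical
  let c' : ℕ × ℕ → Polynomial ℂ := fun e => if h : e ∈ Ex (k - 1) then c (Sum.inl ⟨e, h⟩) else 0
  set p : P3 := ∑ e ∈ Ex (k - 1), em (c' e) * mon e with hp
  set h : Polynomial ℂ := c (Sum.inr ()) with hh
  have h1 : p * F + em h * H ∈ (vI ℂ {0, 1}) ^ (k + 1) := by
    rw [mem_pow_iff]
    intro e he
    have h2 := congrFun hc ⟨e, mem_Ex.mpr he⟩
    rw [Matrix.mulVec, dotProduct, Fintype.sum_sum_type] at h2
    rw [vec_add, vec_em, hp, Finset.sum_mul, vec_sum]
    rw [Pi.zero_apply] at h2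
    rw [← h2]
    congr 1
    · rw [← Finset.sum_coe_sort]
      refine Finset.sum_congr rfl fun e' _ => ?_
      rw [mul_assoc, vec_em]
      have : c' e'.1 = c (Sum.inl e') := by
        simp only [c']
        rw [dif_pos e'.2]
      rw [this, mul_comm]
      rfl
    · simp [mat, hh, mul_comm]
  have hh0 : h = 0 := by
    by_contra hne
    apply hno
    refine ⟨h, hne, ?_⟩
    have : Polynomial.aeval (X 2 : P3) h * H = (-p) * F + (p * F + em h * H) := by
      unfold em; ring
    rw [this]
    exact Ideal.add_mem _ (Ideal.mem_sup_left (Ideal.mul_mem_left _ _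
      (Ideal.mem_span_singleton_self F))) (Ideal.mem_sup_right h1)
  have h2 : p ∈ (vI ℂ {0, 1}) ^ (k - 1) := by
    by_contra hne
    rw [hh0, em_zero, zero_mul, add_zero] at h1
    have e1 : k - 1 = (k - 2) + 1 := by omega
    rw [e1] at hne
    have := not_mem_vI_pow_mul hne hF3
    apply this
    have e2 : k - 2 + 2 + 1 = k + 1 := by omega
    rwa [e2]
  funext i
  rcases i with ⟨e, he⟩ | u
  · have h3 := (mem_pow_iff p (k - 1)).mp h2 e (mem_Ex.mp he)
    rw [hp, vec_comb _ _ he] at h3
    simp only [c'] at h3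
    rw [dif_pos he] at h3
    exact h3
  · exact hh0

end Minor

/-- T6c -/
theorem minor : MinorStmt := by
  classical
  intro k D F H S hk hF2 hF3 hFd hHd hloc hcard
  by_contra hno
  obtain ⟨r, hr⟩ := Minor.exists_minor (Minor.mat k F H) (fun c hc => Minor.indep hk hF3 hno c hc)
  set P := ((Minor.mat k F H).submatrix r id).det with hP
  have hdiv : (∏ t ∈ S, (Polynomial.X - Polynomial.C t) ^ ((Minor.Ex (k - 1)).card + (k + 1))) ∣ P := by
    refine Finset.prod_dvd_of_coprime ?_ ?_
    · intro a _ b _ hab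
      refine IsCoprime.pow ?_
      apply Polynomial.isCoprime_X_sub_C_of_isUnit_sub
      rw [isUnit_iff_ne_zero, sub_ne_zero]
      exact hab
    · intro t ht
      obtain ⟨F12, F3, a, g, h1, h2, h3, h4, h5⟩ := hloc t ht
      exact Minor.local_dvd hk h1 h2 h3 h4 h5 r
  have h1 := Polynomial.natDegree_le_of_dvd hdiv hr
  rw [Polynomial.natDegree_prod_of_monic _ _ fun q _ => (Polynomial.monic_X_sub_C _).pow _] at h1
  simp only [(Polynomial.monic_X_sub_C _).natDegree_pow, Polynomial.natDegree_X_sub_C,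
    mul_one, Finset.sum_const, smul_eq_mul] at h1
  have h2 : P.natDegree ≤ ∑ j : (Minor.Ex (k - 1)) ⊕ Unit,
      Sum.elim (fun _ => D + (k - 2)) (fun _ => k * D) j := by
    rw [hP]
    apply Minor.natDegree_det_le
    intro i j
    rw [Matrix.submatrix_apply]
    rcases j with e | u
    · refine le_trans (Minor.vec_natDegree _ _) ?_
      refine le_trans (totalDegree_mul _ _) ?_
      have h3 := Minor.totalDegree_mon e.1
      have h4 := Minor.mem_Ex.mp e.2
      simp only [Sum.elim_inl]
      omega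
    · exact le_trans (Minor.vec_natDegree _ _) hHd
  rw [Fintype.sum_sum_type] at h2
  simp only [Sum.elim_inl, Sum.elim_inr, Finset.sum_const, Finset.card_univ, Fintype.card_coe,
    smul_eq_mul, Fintype.card_unit, one_mul] at h2
  have h3 : (Minor.Ex (k - 1)).card = k * (k - 1) / 2 := by
    rw [Minor.card_Ex]
    have : k - 1 + 1 = k := by omega
    rw [this, mul_comm]
  rw [h3] at h1 h2
  have h4 : k * (k - 1) / 2 ≤ k * k := le_trans (Nat.div_le_self _ _)
    (Nat.mul_le_mul_left _ (Nat.sub_le _ _))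
  have h5 : k * (k - 1) / 2 * (k - 2) ≤ k ^ 3 := by
    calc k * (k - 1) / 2 * (k - 2) ≤ k * k * k := Nat.mul_le_mul h4 (Nat.sub_le _ _)
      _ = k ^ 3 := by ring
  have h6 := le_trans h1 h2
  nlinarith [h6, h5, hcard]

end Pool.Agent.Lib.MP_a8d5c3_co.Stab
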