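import Mathlib

/-!
Part A of T7: the differential equations of a surface with vanishing Pick form.
-/

set_option autoImplicit false

namespace Pool.Agent.Lib.MP_a8d5c3_co.Stab

section pde

variable {K : Type*} [Field K] [Algebra ℂ K] (D₁ D₂ : Derivation ℂ K K)

/-- the equations `z_ijk = l_i z_jk + l_j z_ik + l_k z_ij` force a quadratic relation -/
theorem exists_quadric_relation
    (hc : ∀ a, D₂ (D₁ a) = D₁ (D₂ a))
    (hconst : ∀ a : K, D₁ a = 0 → D₂ a = 0 → ∃ c : ℂ, a = algebraMap ℂ K c)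
    {x y z : K} (h1x : D₁ x = 1) (h1y : D₁ y = 0) (h2x : D₂ x = 0) (h2y : D₂ y = 1)
    {p q a b d l1 l2 : K} (hp : D₁ z = p) (hq : D₂ z = q) (ha : D₁ p = a) (hb : D₁ q = b)
    (hb' : D₂ p = b) (hd : D₂ q = d)
    (h111 : D₁ a = 3 * l1 * a) (h112 : D₁ b = 2 * l1 * b + l2 * a)
    (h122 : D₁ d = l1 * d + 2 * l2 * b) (h222 : D₂ d = 3 * l2 * d)
    (hdisc : a * d - b ^ 2 ≠ 0) :
    ∃ r : Fin 10 → ℂ, (∃ i, r i ≠ 0) ∧
      algebraMap ℂ K (r 0) + algebraMap ℂ K (r 1) * x + algebraMap ℂ K (r 2) * y +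
      algebraMap ℂ K (r 3) * z + algebraMap ℂ K (r 4) * x ^ 2 + algebraMap ℂ K (r 5) * (x * y) +
      algebraMap ℂ K (r 6) * y ^ 2 + algebraMap ℂ K (r 7) * (x * z) +
      algebraMap ℂ K (r 8) * (y * z) + algebraMap ℂ K (r 9) * z ^ 2 = 0 := by
  have h2a : D₂ a = 2 * l1 * b + l2 * a := by rw [← ha, hc, hb', h112, ha]
  have h2b : D₂ b = l1 * d + 2 * l2 * b := by rw [← hb, hc, hd, h122, hb]
  have two1 : D₁ (2 : K) = 0 := by
    have := D₁.map_natCast 2
    simpa using this
  have two2 : D₂ (2 : K) = 0 := by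
    have := D₂.map_natCast 2
    simpa using this
  have three1 : D₁ (3 : K) = 0 := by
    have := D₁.map_natCast 3
    simpa using this
  have three2 : D₂ (3 : K) = 0 := by
    have := D₂.map_natCast 3
    simpa using this
  have one1 : D₁ (1 : K) = 0 := D₁.map_one_eq_zero
  have one2 : D₂ (1 : K) = 0 := D₂.map_one_eq_zero
  have : CharZero K := charZero_of_injective_algebraMap (algebraMap ℂ K).injective
  -- compatibility
  have c1 : D₂ (D₁ a) = D₁ (D₂ a) := hc a
  have c2 : D₂ (D₁ b) = D₁ (D₂ b) := hc b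
  have c3 : D₂ (D₁ d) = D₁ (D₂ d) := hc d
  rw [h111, h2a] at c1
  rw [h112, h2b] at c2
  rw [h122, h222] at c3
  simp only [map_add, Derivation.leibniz, smul_eq_mul, two1, two2, three1, three2, h111, h112,
    h122, h222, h2a, h2b, mul_zero, add_zero] at c1 c2 c3
  obtain ⟨m11, hm11⟩ : ∃ m, D₁ l1 = m + l1 ^ 2 := ⟨D₁ l1 - l1 ^ 2, by ring⟩
  obtain ⟨m12, hm12⟩ : ∃ m, D₁ l2 = m + l1 * l2 := ⟨D₁ l2 - l1 * l2, by ring⟩
  obtain ⟨m21, hm21⟩ : ∃ m, D₂ l1 = m + l1 * l2 := ⟨D₂ l1 - l1 * l2, by ring⟩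
  obtain ⟨m22, hm22⟩ : ∃ m, D₂ l2 = m + l2 ^ 2 := ⟨D₂ l2 - l2 ^ 2, by ring⟩
  rw [hm11, hm12, hm21] at c1
  rw [hm11, hm12, hm21, hm22] at c2
  rw [hm12, hm21, hm22] at c3
  have hsym : m21 = m12 := by
    have h0 : 4 * (a * d - b ^ 2) * (m21 - m12) = 0 := by
      linear_combination d * c1 - 2 * b * c2 + a * c3
    have h1 : (4 : K) * (a * d - b ^ 2) ≠ 0 := mul_ne_zero (by norm_num) hdisc
    have h2 := (mul_eq_zero.mp h0).resolve_left h1
    linear_combination h2
  subst hsym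
  have k1 : m21 * a = m11 * b := by
    have h0 : (2 : K) * (m21 * a - m11 * b) = 0 := by linear_combination c1
    have h2 := (mul_eq_zero.mp h0).resolve_left (by norm_num)
    linear_combination h2
  have k2 : m22 * a = m11 * d := by linear_combination c2
  have k3 : m22 * b = m21 * d := by
    have h0 : (2 : K) * (m22 * b - m21 * d) = 0 := by linear_combination c3
    have h2 := (mul_eq_zero.mp h0).resolve_left (by norm_num)
    linear_combination h2
  obtain ⟨c, hcdef⟩ : ∃ c : K, c * (2 * (a * d - b ^ 2)) = m11 * d - 2 * m21 * b + m22 * a :=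
    ⟨(m11 * d - 2 * m21 * b + m22 * a) / (2 * (a * d - b ^ 2)),
      div_mul_cancel₀ _ (mul_ne_zero (by norm_num) hdisc)⟩
  have h2disc : (2 : K) * (a * d - b ^ 2) ≠ 0 := mul_ne_zero (by norm_num) hdisc
  have e11 : m11 = c * a := by
    apply mul_right_cancel₀ h2disc
    linear_combination (-a) * hcdef + 2 * b * k1 - a * k2
  have e21 : m21 = c * b := by
    apply mul_right_cancel₀ h2disc
    linear_combination (-b) * hcdef + 2 * d * k1 - b * k2 
  have e22 : m22 = c * d := by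
    apply mul_right_cancel₀ h2disc
    linear_combination (-d) * hcdef + d * k2 - 2 * b * k3 
  rw [e11] at hm11
  rw [e21] at hm12 hm21
  rw [e22] at hm22
  -- derivatives of `c`
  have d1 : D₂ (D₁ l1) = D₁ (D₂ l1) := hc l1
  have d2 : D₂ (D₁ l2) = D₁ (D₂ l2) := hc l2
  rw [hm11, hm21] at d1
  rw [hm12, hm22] at d2
  simp only [map_add, Derivation.leibniz, Derivation.leibniz_pow, smul_eq_mul, h111, h112,
    h122, h222, h2a, h2b, hm11, hm12, hm21, hm22, mul_zero, add_zero, nsmul_eq_mul] at d1 d2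
  have f1 : (D₁ c - c * l1) * b = (D₂ c - c * l2) * a := by
    push_cast at d1
    linear_combination (-1) * d1
  have f2 : (D₁ c - c * l1) * d = (D₂ c - c * l2) * b := by
    push_cast at d2
    linear_combination (-1) * d2
  have h1c : D₁ c = c * l1 := by
    have h0 : (D₁ c - c * l1) * (a * d - b ^ 2) = 0 := by
      linear_combination a * f2 - b * f1
    have h2 := (mul_eq_zero.mp h0).resolve_right hdisc
    linear_combination h2
  have h2c : D₂ c = c * l2 := by
    have h0 : (D₂ c - c * l2) * (a * d - b ^ 2) = 0 := by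
      linear_combination b * f2 - d * f1
    have h2 := (mul_eq_zero.mp h0).resolve_right hdisc
    linear_combination h2
  -- coefficients
  obtain ⟨w, hw⟩ : ∃ w, w = p * x + q * y - z := ⟨_, rfl⟩
  obtain ⟨n, hn⟩ : ∃ n, n = 1 + l1 * x + l2 * y := ⟨_, rfl⟩
  have h1w : D₁ w = a * x + b * y := by
    rw [hw]
    simp only [map_add, map_sub, Derivation.leibniz, smul_eq_mul, h1x, h1y, hp, ha, hb]
    ring
  have h2w : D₂ w = b * x + d * y := by
    rw [hw]
    simp only [map_add, map_sub, Derivation.leibniz, smul_eq_mul, h2x, h2y, hq, hb', hd]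
    ring
  have h1n : D₁ n = c * (a * x + b * y) + l1 * n := by
    rw [hn]
    simp only [map_add, map_sub, Derivation.leibniz, smul_eq_mul, h1x, h1y, hm11, hm12, one1]
    ring
  have h2n : D₂ n = c * (b * x + d * y) + l2 * n := by
    rw [hn]
    simp only [map_add, map_sub, Derivation.leibniz, smul_eq_mul, h2x, h2y, hm21, hm22, one2]
    ring
  let Q : Fin 10 → K := ![2 * w * n - (a * x ^ 2 + 2 * b * x * y + d * y ^ 2) - c * w ^ 2,
    -2 * p * n - 2 * w * l1 + 2 * a * x + 2 * b * y + 2 * c * p * w,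
    -2 * q * n - 2 * w * l2 + 2 * b * x + 2 * d * y + 2 * c * q * w,
    2 * n - 2 * c * w,
    2 * p * l1 - a - c * p ^ 2,
    2 * p * l2 + 2 * q * l1 - 2 * b - 2 * c * p * q,
    2 * q * l2 - d - c * q ^ 2,
    -2 * l1 + 2 * c * p,
    -2 * l2 + 2 * c * q,
    -c]
  have hQ1 : ∀ i, D₁ (Q i) = l1 * Q i := by
    intro i
    fin_cases i <;>
    · simp [Q, Derivation.leibniz, Derivation.leibniz_pow, h1x, h1y, hp, ha, hb, h111, h112, h122,
        hm11, hm12, h1c, h1w, h1n, two1]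
      try rw [hn]
      ring
  have hQ2 : ∀ i, D₂ (Q i) = l2 * Q i := by
    intro i
    fin_cases i <;>
    · simp [Q, Derivation.leibniz, Derivation.leibniz_pow, h2x, h2y, hq, hb', hd, h2a, h2b, h222,
        hm21, hm22, h2c, h2w, h2n, two2]
      try rw [hn]
      ring
  have hrel : Q 0 + Q 1 * x + Q 2 * y + Q 3 * z + Q 4 * x ^ 2 + Q 5 * (x * y) +
      Q 6 * y ^ 2 + Q 7 * (x * z) + Q 8 * (y * z) + Q 9 * z ^ 2 = 0 := by
    simp [Q]
    rw [hw, hn]
    ring
  have hne : ∃ i, Q i ≠ 0 := by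
    by_contra hcon
    push Not at hcon
    have q9 : -c = 0 := hcon 9
    have c0 : c = 0 := by simpa using q9
    have q7 : -2 * l1 + 2 * c * p = 0 := hcon 7
    have q8 : -2 * l2 + 2 * c * q = 0 := hcon 8
    have l10 : l1 = 0 := by
      rw [c0] at q7; simpa using q7
    have l20 : l2 = 0 := by
      rw [c0] at q8; simpa using q8
    have q4 : 2 * p * l1 - a - c * p ^ 2 = 0 := hcon 4
    have q5 : 2 * p * l2 + 2 * q * l1 - 2 * b - 2 * c * p * q = 0 := hcon 5
    have a0 : a = 0 := by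
      rw [c0, l10] at q4; simpa using q4
    have b0 : b = 0 := by
      rw [c0, l10, l20] at q5; simpa using q5
    apply hdisc
    rw [a0, b0]; ring
  obtain ⟨i0, hi0⟩ := hne
  have hr : ∀ i, ∃ r : ℂ, Q i = algebraMap ℂ K r * Q i0 := by
    intro i
    obtain ⟨r, hr⟩ := hconst (Q i / Q i0)
      (by
        rw [Derivation.leibniz_div, hQ1, hQ1]
        simp only [smul_eq_mul]
        ring)
      (by
        rw [Derivation.leibniz_div, hQ2, hQ2]
        simp only [smul_eq_mul]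
        ring)
    exact ⟨r, by rw [← hr]; field_simp⟩
  choose r hr using hr
  refine ⟨r, ⟨i0, ?_⟩, ?_⟩
  · intro h0
    have := hr i0
    rw [h0, map_zero, zero_mul] at this
    exact hi0 this
  · apply mul_right_cancel₀ hi0
    rw [hr 0, hr 1, hr 2, hr 3, hr 4, hr 5, hr 6, hr 7, hr 8, hr 9] at hrel
    linear_combination hrel

end pde

end Pool.Agent.Lib.MP_a8d5c3_co.Stab
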