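import Mathlib
import Pool.Agent.Lib.MP_a8d5c3_co.Stab.Stmts

/-!
Part B of T7: derivations on the function field of an irreducible surface.
-/

set_option autoImplicit false

namespace Pool.Agent.Lib.MP_a8d5c3_co.Stab

open MvPolynomial

section ext

variable {K : Type*} [Field K] [Algebra ℂ K] (φ : P3 →ₐ[ℂ] K)

/-- extension of a derivation to the field of fractions -/
theorem exists_derivation (hfrac : ∀ a : K, ∃ f g, φ g ≠ 0 ∧ a * φ g = φ f) (δ : P3 →ₗ[ℂ] K)
    (hδ : ∀ f g, δ (f * g) = φ f * δ g + φ g * δ f) (h0 : ∀ f, φ f = 0 → δ f = 0) :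
    ∃ D : Derivation ℂ K K, ∀ f, D (φ f) = δ f := by
  choose N M hM hN using hfrac
  have key : ∀ a f g, φ g ≠ 0 → a * φ g = φ f →
      (δ (N a) - a * δ (M a)) / φ (M a) * φ g = δ f - a * δ g := by
    intro a f g hg hf
    have h1 : φ (f * M a - N a * g) = 0 := by
      rw [map_sub, map_mul, map_mul, ← hf, ← hN a]; ring
    have h2 := h0 _ h1
    rw [map_sub, hδ, hδ, ← hf, ← hN a] at h2
    have h3 := hM a
    rw [div_mul_eq_mul_div, div_eq_iff h3]
    linear_combination (-1) * h2
  have hone : δ 1 = 0 := by
    have := hδ 1 1
    simp only [mul_one, map_one, one_mul] at this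
    linear_combination (-1) * this
  let Dl : K →ₗ[ℂ] K :=
    { toFun := fun a => (δ (N a) - a * δ (M a)) / φ (M a)
      map_add' := by
        intro a b
        have hg : φ (M a * M b) ≠ 0 := by
          rw [map_mul]; exact mul_ne_zero (hM a) (hM b)
        have h1 := key (a + b) (N a * M b + N b * M a) (M a * M b) hg (by
          simp only [map_add, map_mul]
          rw [← hN a, ← hN b]; ring)
        apply mul_right_cancel₀ hg
        rw [h1]
        have h2 := key a (N a * M b) (M a * M b) hg (by
          simp only [map_mul]
          rw [← hN a]; ring)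
        have h3 := key b (N b * M a) (M a * M b) hg (by
          simp only [map_mul]
          rw [← hN b]; ring)
        rw [map_add]
        linear_combination (-1) * h2 - h3
      map_smul' := by
        intro c a
        have h1 := key (c • a) (c • N a) (M a) (hM a) (by
          rw [map_smul, ← hN a, smul_mul_assoc])
        apply mul_right_cancel₀ (hM a)
        rw [h1]
        simp only [RingHom.id_apply]
        have h2 := key a (N a) (M a) (hM a) (hN a)
        rw [smul_mul_assoc, smul_mul_assoc, h2, map_smul, smul_sub] }
  refine ⟨Derivation.mk' Dl ?_, ?_⟩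
  · intro a b
    change (δ (N (a * b)) - (a * b) * δ (M (a * b))) / φ (M (a * b)) =
      a * ((δ (N b) - b * δ (M b)) / φ (M b)) + b * ((δ (N a) - a * δ (M a)) / φ (M a))
    have hg : φ (M a * M b) ≠ 0 := by
      rw [map_mul]; exact mul_ne_zero (hM a) (hM b)
    have h1 := key (a * b) (N a * N b) (M a * M b) hg (by
          simp only [map_mul]
          rw [← hN a, ← hN b]; ring)
    apply mul_right_cancel₀ hg
    rw [h1, hδ, hδ, map_mul, ← hN a, ← hN b]
    have h2 := hM a
    have h3 := hM b
    field_simp
    ring
  · intro f
    change (δ (N (φ f)) - φ f * δ (M (φ f))) / φ (M (φ f)) = δ f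
    have h1 := key (φ f) f 1 (by rw [map_one]; exact one_ne_zero) (by rw [map_one, mul_one])
    rw [map_one, mul_one, hone, mul_zero, sub_zero] at h1
    exact h1

/-- chain rule -/
theorem derivation_aeval (D : Derivation ℂ K K) (v : Fin 3 → K) (Q : P3) :
    D (aeval v Q) = ∑ m, aeval v (pderiv m Q) * D (v m) := by
  induction Q using MvPolynomial.induction_on with
  | C a =>
    simp only [algHom_C, pderiv_C, map_zero, zero_mul, Finset.sum_const_zero]
    exact D.map_algebraMap a
  | add p q hp hq =>
    simp only [map_add, hp, hq, add_mul, Finset.sum_add_distrib]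
  | mul_X p n hp =>
    rw [map_mul, aeval_X, Derivation.leibniz, hp]
    simp only [pderiv_mul, map_add, map_mul, aeval_X, smul_eq_mul]
    have : ∀ m, (aeval v) ((pderiv m) (X n : P3)) * D (v m) = if m = n then D (v n) else 0 := by
      intro m
      split_ifs with h
      · subst h; rw [pderiv_X_self, map_one, one_mul]
      · rw [pderiv_X_of_ne (Ne.symm h), map_zero, zero_mul]
    simp only [add_mul, Finset.sum_add_distrib, mul_assoc, this, mul_ite, mul_zero,
      Finset.sum_ite_eq', Finset.mem_univ, if_true]
    rw [Finset.mul_sum, add_comm]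
    congr 1
    apply Finset.sum_congr rfl
    intro m _
    ring

theorem derivation_hom (D : Derivation ℂ K K) (Q : P3) :
    D (φ Q) = ∑ m, φ (pderiv m Q) * D (φ (X m)) := by
  have h : φ = aeval fun m => φ (X m) := by
    apply MvPolynomial.algHom_ext
    intro m
    rw [aeval_X]
  have := derivation_aeval D (fun m => φ (X m)) Q
  rw [← h] at this
  exact this

/-- a derivation killing the variables is zero -/
theorem derivation_eq_zero (hfrac : ∀ a : K, ∃ f g, φ g ≠ 0 ∧ a * φ g = φ f)
    (D : Derivation ℂ K K) (h : ∀ m, D (φ (X m)) = 0) (a : K) : D a = 0 := by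
  obtain ⟨f, g, hg, hfg⟩ := hfrac a
  have h1 : ∀ f, D (φ f) = 0 := by
    intro f
    rw [derivation_hom φ D f]
    simp [h]
  have h2 := congrArg D hfg
  rw [Derivation.leibniz, h1, h1, smul_zero, zero_add, smul_eq_mul] at h2
  exact (mul_eq_zero.mp h2).resolve_left hg

end ext

section const

theorem totalDegree_pderiv_lt {i : Fin 3} {Q : P3} (h : pderiv i Q ≠ 0) :
    (pderiv i Q).totalDegree < Q.totalDegree := by
  obtain ⟨s, hs, hs'⟩ := Finset.exists_mem_eq_sup (pderiv i Q).support
    (support_nonempty.mpr h) (fun s => s.sum fun _ e => e)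
  have h1 : (pderiv i Q).totalDegree = s.sum fun _ e => e := hs'
  rw [h1]
  rw [mem_support_iff, coeff_pderiv] at hs
  have h2 : Q.coeff (s + Finsupp.single i 1) ≠ 0 := by
    intro h0; rw [h0] at hs; simp at hs
  have h3 := le_totalDegree (mem_support_iff.mpr h2)
  have h4 : (s + Finsupp.single i 1).sum (fun _ e => e) = (s.sum fun _ e => e) + 1 := by
    rw [Finsupp.sum_add_index' (by simp) (by simp)]
    simp
  omega

variable {K : Type*} [Field K] [Algebra ℂ K] (D₁ D₂ : Derivation ℂ K K)

theorem const_of_isAlgebraic {r : K} (h : IsAlgebraic ℂ r) : ∃ c : ℂ, r = algebraMap ℂ K c := by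
  have h1 : IsIntegral ℂ r := h.isIntegral
  have h2 := IsAlgClosed.degree_eq_one_of_irreducible ℂ (minpoly.irreducible h1)
  obtain ⟨c, hc⟩ := minpoly.mem_range_of_degree_eq_one ℂ r h2
  exact ⟨c, hc.symm⟩

theorem const_of_dependent {x y r : K} (h1x : D₁ x = 1) (h1y : D₁ y = 0) (h2x : D₂ x = 0)
    (h2y : D₂ y = 1) (h1r : D₁ r = 0) (h2r : D₂ r = 0) (n : ℕ) :
    ∀ Q : P3, Q.totalDegree ≤ n → Q ≠ 0 → aeval ![r, x, y] Q = 0 →
    ∃ c : ℂ, r = algebraMap ℂ K c := by
  induction n with
  | zero =>
    intro Q hQn hQ hQ0
    exfalso
    have h1 := totalDegree_eq_zero_iff_eq_C.mp (Nat.le_zero.mp hQn)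
    rw [h1] at hQ0 hQ
    rw [algHom_C] at hQ0
    have h2 : coeff 0 Q = 0 := by simpa using hQ0
    rw [h2] at hQ
    simp at hQ
  | succ n ih =>
    intro Q hQn hQ hQ0
    have d1 := derivation_aeval D₁ ![r, x, y] Q
    have d2 := derivation_aeval D₂ ![r, x, y] Q
    rw [hQ0, map_zero, Fin.sum_univ_three] at d1 d2
    simp only [Matrix.cons_val_zero, Matrix.cons_val_one, Matrix.cons_val_two, Matrix.head_cons,
      Matrix.tail_cons, Matrix.cons_val, h1r, h1x, h1y, h2r, h2x, h2y, mul_zero, mul_one, zero_add,
      add_zero] at d1 d2
    by_cases hp1 : pderiv 1 Q = 0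
    · by_cases hp2 : pderiv 2 Q = 0
      · -- Q is a polynomial in one variable
        have key : ∀ s ∈ Q.support, s 1 = 0 ∧ s 2 = 0 := by
          intro s hs
          rw [mem_support_iff] at hs
          constructor
          · by_contra hne
            have h1 := congrArg (coeff (s - Finsupp.single 1 1)) hp1
            rw [coeff_pderiv, coeff_zero] at h1
            have h2 : s - Finsupp.single 1 1 + Finsupp.single 1 1 = s := by
              apply tsub_add_cancel_of_le
              rw [Finsupp.single_le_iff]
              omega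
            rw [h2] at h1
            rcases mul_eq_zero.mp h1 with h3 | h3
            · exact hs h3
            · have : (((s - Finsupp.single 1 1 : Fin 3 →₀ ℕ) 1 : ℕ) : ℂ) + 1 ≠ 0 := Nat.cast_add_one_ne_zero _
              exact this h3
          · by_contra hne
            have h1 := congrArg (coeff (s - Finsupp.single 2 1)) hp2
            rw [coeff_pderiv, coeff_zero] at h1
            have h2 : s - Finsupp.single 2 1 + Finsupp.single 2 1 = s := by
              apply tsub_add_cancel_of_le
              rw [Finsupp.single_le_iff]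
              omega
            rw [h2] at h1
            rcases mul_eq_zero.mp h1 with h3 | h3
            · exact hs h3
            · have : (((s - Finsupp.single 2 1 : Fin 3 →₀ ℕ) 2 : ℕ) : ℂ) + 1 ≠ 0 := Nat.cast_add_one_ne_zero _
              exact this h3
        apply const_of_isAlgebraic
        refine ⟨∑ s ∈ Q.support, Polynomial.monomial (s 0) (Q.coeff s), ?_, ?_⟩
        · obtain ⟨s, hs⟩ := support_nonempty.mpr hQ
          intro h0
          have h1 := congrArg (fun p => Polynomial.coeff p (s 0)) h0
          simp only [Polynomial.finsetSum_coeff, Polynomial.coeff_monomial,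
            Polynomial.coeff_zero] at h1
          rw [Finset.sum_eq_single_of_mem s hs] at h1
          · rw [if_pos rfl] at h1
            exact mem_support_iff.mp hs h1
          · intro t ht hts
            rw [if_neg]
            intro h2
            apply hts
            ext m
            have h3 := key t ht
            have h4 := key s hs
            fin_cases m
            · exact h2
            · change t 1 = s 1
              rw [h3.1, h4.1]
            · change t 2 = s 2
              rw [h3.2, h4.2]
        · rw [← hQ0]
          conv_rhs => rw [Q.as_sum]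
          rw [map_sum, map_sum]
          apply Finset.sum_congr rfl
          intro s hs
          have h3 := key s hs
          rw [Polynomial.aeval_monomial, aeval_monomial]
          congr 1
          rw [Finsupp.prod_fintype _ _ (by simp), Fin.prod_univ_three, h3.1, h3.2]
          simp
      · exact ih _ (by have := totalDegree_pderiv_lt hp2; omega) hp2 d2.symm
    · exact ih _ (by have := totalDegree_pderiv_lt hp1; omega) hp1 d1.symm

end const

end Pool.Agent.Lib.MP_a8d5c3_co.Stab
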