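import Mathlib
import Pool.Agent.Lib.MP_a8d5c3_co.Stab.QuadA
import Pool.Agent.Lib.MP_a8d5c3_co.Stab.QuadB

/-!
Part C of T7: algebraic dependence in the function field, and the final assembly.
-/

set_option autoImplicit false

namespace Pool.Agent.Lib.MP_a8d5c3_co.Stab

open MvPolynomial

section dep

variable {K : Type*} [Field K] [Algebra ℂ K] (φ : P3 →ₐ[ℂ] K)

/-- the polynomial ring over `ℂ[x, y]` -/
noncomputable def theta (i j : Fin 3) : P3 →ₐ[ℂ] Polynomial (MvPolynomial (Fin 2) ℂ) :=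
  aeval fun m => if m = i then Polynomial.C (X 0) else if m = j then Polynomial.C (X 1)
    else Polynomial.X

theorem derivative_theta {i j k : Fin 3} (hk : ∀ m, m = i ∨ m = j ∨ m = k) (hki : k ≠ i)
    (hkj : k ≠ j) (f : P3) :
    Polynomial.derivative (theta i j f) = theta i j (pderiv k f) := by
  induction f using MvPolynomial.induction_on with
  | C a =>
    rw [pderiv_C, map_zero]
    have : theta i j (C a) = Polynomial.C (C a) := by
      simp [theta, algHom_C]
    rw [this, Polynomial.derivative_C]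
  | add p q hp hq => simp only [map_add, hp, hq]
  | mul_X p n hp =>
    have hXd : Polynomial.derivative (theta i j (X n)) = theta i j (pderiv k (X n)) := by
      have hX : theta i j (X n) = if n = i then Polynomial.C (X 0) else if n = j then
        Polynomial.C (X 1) else Polynomial.X := by simp [theta]
      rw [hX]
      rcases hk n with rfl | rfl | rfl
      · rw [if_pos rfl, Polynomial.derivative_C, pderiv_X_of_ne hki.symm, map_zero]
      · rw [pderiv_X_of_ne hkj.symm, map_zero]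
        split_ifs <;> simp_all
      · rw [if_neg hki, if_neg hkj, Polynomial.derivative_X, pderiv_X_self, map_one]
    rw [map_mul, Polynomial.derivative_mul, hp, hXd, pderiv_mul, map_add, map_mul, map_mul]

theorem exists_dependence (hfrac : ∀ a : K, ∃ f g, φ g ≠ 0 ∧ a * φ g = φ f) {G : P3}
    (hG : φ G = 0) {i j k : Fin 3} (hk : ∀ m, m = i ∨ m = j ∨ m = k) (hki : k ≠ i)
    (hkj : k ≠ j) (hij : i ≠ j) (hGk : φ (pderiv k G) ≠ 0) (r : K) :
    ∃ Q : P3, Q ≠ 0 ∧ aeval ![r, φ (X i), φ (X j)] Q = 0 := by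
  let ψ : MvPolynomial (Fin 2) ℂ →ₐ[ℂ] K := aeval ![φ (X i), φ (X j)]
  let _ : Algebra (MvPolynomial (Fin 2) ℂ) K := ψ.toRingHom.toAlgebra
  have hψ : ∀ a, algebraMap (MvPolynomial (Fin 2) ℂ) K a = ψ a := fun _ => rfl
  have hev : ∀ f, Polynomial.aeval (φ (X k)) (theta i j f) = φ f := by
    intro f
    induction f using MvPolynomial.induction_on with
    | C a =>
      have : theta i j (C a) = Polynomial.C (C a) := by
        simp [theta, algHom_C]
      rw [this, Polynomial.aeval_C, hψ, algHom_C, algHom_C]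
    | add p q hp hq => simp only [map_add, hp, hq]
    | mul_X p n hp =>
      rw [map_mul, map_mul, hp, map_mul]
      congr 1
      have hX : theta i j (X n) = if n = i then Polynomial.C (X 0) else if n = j then
        Polynomial.C (X 1) else Polynomial.X := by simp [theta]
      rw [hX]
      rcases hk n with rfl | rfl | rfl
      · rw [if_pos rfl, Polynomial.aeval_C, hψ]
        simp [ψ]
      · rw [if_neg hij.symm, if_pos rfl, Polynomial.aeval_C, hψ]
        simp [ψ]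
      · rw [if_neg hki, if_neg hkj, Polynomial.aeval_X]
  have hz : IsAlgebraic (MvPolynomial (Fin 2) ℂ) (φ (X k)) := by
    refine ⟨theta i j G, ?_, ?_⟩
    · intro h0
      apply hGk
      rw [← hev, ← derivative_theta hk hki hkj, h0, Polynomial.derivative_zero, map_zero]
    · rw [hev, hG]
  have hall : ∀ f, IsAlgebraic (MvPolynomial (Fin 2) ℂ) (φ f) := by
    intro f
    induction f using MvPolynomial.induction_on with
    | C a =>
      have : φ (C a) = algebraMap (MvPolynomial (Fin 2) ℂ) K (C a) := by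
        rw [hψ, algHom_C, algHom_C]
      rw [this]
      exact isAlgebraic_algebraMap _
    | add p q hp hq => rw [map_add]; exact hp.add hq
    | mul_X p n hp =>
      rw [map_mul]
      refine hp.mul ?_
      rcases hk n with rfl | rfl | rfl
      · have : φ (X n) = algebraMap (MvPolynomial (Fin 2) ℂ) K (X 0) := by
          rw [hψ]; simp [ψ]
        rw [this]
        exact isAlgebraic_algebraMap _
      · have : φ (X n) = algebraMap (MvPolynomial (Fin 2) ℂ) K (X 1) := by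
          rw [hψ]; simp [ψ]
        rw [this]
        exact isAlgebraic_algebraMap _
      · exact hz
  obtain ⟨f, g, hg, hfg⟩ := hfrac r
  have hr : IsAlgebraic (MvPolynomial (Fin 2) ℂ) r := by
    have : r = φ f * (φ g)⁻¹ := by rw [← hfg]; field_simp
    rw [this]
    exact (hall f).mul (hall g).inv
  obtain ⟨p, hp, hp0⟩ := hr
  refine ⟨(finSuccEquiv ℂ 2).symm p, ?_, ?_⟩
  · intro h0
    apply hp
    have := congrArg (finSuccEquiv ℂ 2) h0
    simpa using this
  · have key : ∀ Q, aeval ![r, φ (X i), φ (X j)] Q = Polynomial.aeval r (finSuccEquiv ℂ 2 Q) := by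
      intro Q
      induction Q using MvPolynomial.induction_on with
      | C a => 
        rw [algHom_C, finSuccEquiv_apply]
        simp [hψ, algHom_C]
      | add p q hp hq => simp only [map_add, hp, hq]
      | mul_X p n hp =>
        rw [map_mul, map_mul, hp, map_mul]
        congr 1
        refine Fin.cases ?_ (fun m => ?_) n
        · rw [finSuccEquiv_X_zero, Polynomial.aeval_X]
          simp
        · rw [finSuccEquiv_X_succ, Polynomial.aeval_C, hψ]
          fin_cases m <;> simp [ψ]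
    rw [key, AlgEquiv.apply_symm_apply]
    exact hp0

end dep

theorem pderiv_comm' (i j : Fin 3) (f : P3) :
    pderiv i (pderiv j f) = pderiv j (pderiv i f) := by
  by_cases hij : i = j
  · rw [hij]
  · ext s
    rw [coeff_pderiv, coeff_pderiv, coeff_pderiv, coeff_pderiv, add_right_comm]
    have h1 : (s + Finsupp.single i 1 : Fin 3 →₀ ℕ) j = s j := by
      rw [Finsupp.add_apply, Finsupp.single_eq_of_ne (Ne.symm hij), add_zero]
    have h2 : (s + Finsupp.single j 1 : Fin 3 →₀ ℕ) i = s i := by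
      rw [Finsupp.add_apply, Finsupp.single_eq_of_ne hij, add_zero]
    rw [h1, h2]
    ring

/-- the algebra relating the Pick form of the equation to the third derivatives of `z` -/
theorem pick_algebra {K : Type*} [Field K] [CharZero K]
    {p q a b d z111 z112 z122 z222 g1 g2 g3 g11 g12 g13 g22 g23 g33 g111 g112 g113 g122 g123 g133
      g222 g223 g233 g333 : K} (h3 : g3 ≠ 0) (h1 : g1 + p * g3 = 0) (h2 : g2 + q * g3 = 0)
    (e11 : g11 + 2 * p * g13 + p ^ 2 * g33 + a * g3 = 0)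
    (e12 : g12 + q * g13 + p * g23 + p * q * g33 + b * g3 = 0)
    (e22 : g22 + 2 * q * g23 + q ^ 2 * g33 + d * g3 = 0)
    (e111 : g111 + 3 * p * g113 + 3 * p ^ 2 * g133 + p ^ 3 * g333 + 3 * a * (g13 + p * g33) +
      z111 * g3 = 0)
    (e112 : g112 + 2 * p * g123 + q * g113 + 2 * p * q * g133 + p ^ 2 * g233 +
      p ^ 2 * q * g333 + 2 * b * (g13 + p * g33) + a * (g23 + q * g33) + z112 * g3 = 0)
    (e122 : g122 + 2 * q * g123 + p * g223 + 2 * p * q * g233 + q ^ 2 * g133 +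
      p * q ^ 2 * g333 + 2 * b * (g23 + q * g33) + d * (g13 + p * g33) + z122 * g3 = 0)
    (e222 : g222 + 3 * q * g223 + 3 * q ^ 2 * g233 + q ^ 3 * g333 + 3 * d * (g23 + q * g33) +
      z222 * g3 = 0)
    {A B C E0 E1 E2 E3 : K}
    (hA : A = g3 ^ 2 * g22 - 2 * g2 * g3 * g23 + g2 ^ 2 * g33)
    (hB : B = -g3 ^ 2 * g12 + g1 * g3 * g23 + g2 * g3 * g13 - g1 * g2 * g33)
    (hC : C = g3 ^ 2 * g11 - 2 * g1 * g3 * g13 + g1 ^ 2 * g33)
    (hE0 : E0 = g3 ^ 3 * g222 - 3 * g3 ^ 2 * g2 * g223 + 3 * g3 * g2 ^ 2 * g233 - g2 ^ 3 * g333)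
    (hE1 : E1 = -g3 * (g3 ^ 2 * g122 - 2 * g2 * g3 * g123 + g2 ^ 2 * g133) +
      g1 * (g3 ^ 2 * g223 - 2 * g2 * g3 * g233 + g2 ^ 2 * g333))
    (hE2 : E2 = g3 * (g3 ^ 2 * g112 - 2 * g1 * g3 * g123 + g1 ^ 2 * g233) -
      g2 * (g3 ^ 2 * g113 - 2 * g1 * g3 * g133 + g1 ^ 2 * g333))
    (hE3 : E3 = -g3 ^ 3 * g111 + 3 * g3 ^ 2 * g1 * g113 - 3 * g3 * g1 ^ 2 * g133 + g1 ^ 3 * g333)
    (hdisc : disc2 A B C ≠ 0) (hpi : ∀ m, pi4 A B C E0 E1 E2 E3 m = 0) :
    a * d - b ^ 2 ≠ 0 ∧ ∃ l1 l2 : K, z111 = 3 * l1 * a ∧ z112 = 2 * l1 * b + l2 * a ∧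
      z122 = l1 * d + 2 * l2 * b ∧ z222 = 3 * l2 * d := by
  obtain rfl : g1 = -(p * g3) := by linear_combination h1
  obtain rfl : g2 = -(q * g3) := by linear_combination h2
  have hA' : A = -g3 ^ 3 * d := by rw [hA]; linear_combination g3 ^ 2 * e22
  have hB' : B = g3 ^ 3 * b := by rw [hB]; linear_combination (-g3 ^ 2) * e12
  have hC' : C = -g3 ^ 3 * a := by rw [hC]; linear_combination g3 ^ 2 * e11
  obtain ⟨F0, hF0⟩ : ∃ F, F = -(z222 * g3 + 3 * d * (g23 + q * g33)) := ⟨_, rfl⟩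
  obtain ⟨F1, hF1⟩ : ∃ F, F = z122 * g3 + d * (g13 + p * g33) + 2 * b * (g23 + q * g33) :=
    ⟨_, rfl⟩
  obtain ⟨F2, hF2⟩ : ∃ F, F = -(z112 * g3 + a * (g23 + q * g33) + 2 * b * (g13 + p * g33)) :=
    ⟨_, rfl⟩
  obtain ⟨F3, hF3⟩ : ∃ F, F = z111 * g3 + 3 * a * (g13 + p * g33) := ⟨_, rfl⟩
  have hE0' : E0 = g3 ^ 3 * F0 := by rw [hE0, hF0]; linear_combination g3 ^ 3 * e222
  have hE1' : E1 = g3 ^ 3 * F1 := by rw [hE1, hF1]; linear_combination (-g3 ^ 3) * e122
  have hE2' : E2 = g3 ^ 3 * F2 := by rw [hE2, hF2]; linear_combination g3 ^ 3 * e112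
  have hE3' : E3 = g3 ^ 3 * F3 := by rw [hE3, hF3]; linear_combination (-g3 ^ 3) * e111
  have hD : disc2 A B C = g3 ^ 6 * (a * d - b ^ 2) := by
    rw [hA', hB', hC']; unfold disc2; ring
  have hdisc' : a * d - b ^ 2 ≠ 0 := by
    intro h0; rw [hD, h0, mul_zero] at hdisc; exact hdisc rfl
  have p0 := hpi 0
  have p1 := hpi 1
  have p2 := hpi 2
  have p3 := hpi 3
  simp only [pi4, Matrix.cons_val_zero, Matrix.cons_val_one, Matrix.cons_val_two,
    Matrix.cons_val_three, Matrix.head_cons, Matrix.tail_cons, Matrix.cons_val] at p0 p1 p2 p3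
  rw [hD, hA', hB', hC', hE0', hE1', hE2'] at p0
  rw [hD, hA', hB', hC', hE0', hE1', hE2', hE3'] at p1 p2
  rw [hD, hA', hB', hC', hE1', hE2', hE3'] at p3
  have h9 : g3 ^ 9 ≠ 0 := pow_ne_zero _ h3
  obtain ⟨M0, hM0⟩ : ∃ F, F = -a * F0 - 2 * b * F1 - d * F2 := ⟨_, rfl⟩
  obtain ⟨M1, hM1⟩ : ∃ F, F = -a * F1 - 2 * b * F2 - d * F3 := ⟨_, rfl⟩
  have r0 : 4 * (a * d - b ^ 2) * F0 = -3 * M0 * d := by
    apply mul_left_cancel₀ h9; rw [hM0]; linear_combination p0
  have r1 : 4 * (a * d - b ^ 2) * F1 = 2 * M0 * b - M1 * d := by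
    have h3' : (3 : K) * g3 ^ 9 ≠ 0 := mul_ne_zero (by norm_num) h9
    apply mul_left_cancel₀ h3'; rw [hM0, hM1]; linear_combination p1
  have r2 : 4 * (a * d - b ^ 2) * F2 = -M0 * a + 2 * M1 * b := by
    have h3' : (3 : K) * g3 ^ 9 ≠ 0 := mul_ne_zero (by norm_num) h9
    apply mul_left_cancel₀ h3'; rw [hM0, hM1]; linear_combination p2
  have r3 : 4 * (a * d - b ^ 2) * F3 = -3 * M1 * a := by
    apply mul_left_cancel₀ h9; rw [hM1]; linear_combination p3
  have h4 : (4 : K) * (a * d - b ^ 2) ≠ 0 := mul_ne_zero (by norm_num) hdisc'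
  obtain ⟨u0, hu0⟩ : ∃ u, u * (4 * (a * d - b ^ 2)) = M0 := ⟨_, div_mul_cancel₀ M0 h4⟩
  obtain ⟨u1, hu1⟩ : ∃ u, u * (4 * (a * d - b ^ 2)) = M1 := ⟨_, div_mul_cancel₀ M1 h4⟩
  have s0 : F0 = -3 * u0 * d := by
    apply mul_left_cancel₀ h4; rw [r0, ← hu0]; ring
  have s1 : F1 = 2 * u0 * b - u1 * d := by
    apply mul_left_cancel₀ h4; rw [r1, ← hu0, ← hu1]; ring
  have s2 : F2 = -u0 * a + 2 * u1 * b := by
    apply mul_left_cancel₀ h4; rw [r2, ← hu0, ← hu1]; ring
  have s3 : F3 = -3 * u1 * a := by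
    apply mul_left_cancel₀ h4; rw [r3, ← hu1]; ring
  obtain ⟨l1, hl1⟩ : ∃ l, l * g3 = -u1 - (g13 + p * g33) := ⟨_, div_mul_cancel₀ _ h3⟩
  obtain ⟨l2, hl2⟩ : ∃ l, l * g3 = u0 - (g23 + q * g33) := ⟨_, div_mul_cancel₀ _ h3⟩
  refine ⟨hdisc', l1, l2, ?_, ?_, ?_, ?_⟩
  · apply mul_right_cancel₀ h3
    linear_combination (-1) * hF3 + s3 - 3 * a * hl1
  · apply mul_right_cancel₀ h3
    linear_combination hF2 - s2 - 2 * b * hl1 - a * hl2
  · apply mul_right_cancel₀ h3
    linear_combination (-1) * hF1 + s1 - d * hl1 - 2 * b * hl2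
  · apply mul_right_cancel₀ h3
    linear_combination hF0 - s0 - 3 * d * hl2

end Pool.Agent.Lib.MP_a8d5c3_co.Stab
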