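import Mathlib
import Pool.Agent.Lib.MP_a8d5c3_co.Stab.QuadC

/-!
T7: a surface with vanishing Pick form is a quadric (Maschke, Pick, Berwald).
-/

set_option autoImplicit false
set_option linter.unusedSimpArgs false

namespace Pool.Agent.Lib.MP_a8d5c3_co.Stab

open MvPolynomial

section core

variable {K : Type*} [Field K] [Algebra ℂ K] (φ : P3 →ₐ[ℂ] K)

/-- the tangential derivation along the surface -/
theorem exists_tangent (hfrac : ∀ a : K, ∃ f g, φ g ≠ 0 ∧ a * φ g = φ f) {G : P3}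
    (hker : ∀ f, φ f = 0 ↔ G ∣ f) (i k : Fin 3) (t : K)
    (ht : φ (pderiv i G) + t * φ (pderiv k G) = 0) :
    ∃ D : Derivation ℂ K K, ∀ f, D (φ f) = φ (pderiv i f) + t * φ (pderiv k f) := by
  let δ : P3 →ₗ[ℂ] K := φ.toLinearMap ∘ₗ (pderiv i : Derivation ℂ P3 P3).toLinearMap +
    t • (φ.toLinearMap ∘ₗ (pderiv k : Derivation ℂ P3 P3).toLinearMap)
  have hδ : ∀ f, δ f = φ (pderiv i f) + t * φ (pderiv k f) := fun f => rfl
  have hG : φ G = 0 := (hker G).mpr dvd_rfl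
  obtain ⟨D, hD⟩ := exists_derivation φ hfrac δ
    (by
      intro f g
      rw [hδ, hδ, hδ]
      simp only [pderiv_mul, map_add, map_mul]
      ring)
    (by
      intro f hf
      obtain ⟨h, rfl⟩ := (hker f).mp hf
      rw [hδ]
      simp only [pderiv_mul, map_add, map_mul, hG]
      linear_combination φ h * ht)
  exact ⟨D, fun f => by rw [hD, hδ]⟩

theorem quadric_core (hfrac : ∀ a : K, ∃ f g, φ g ≠ 0 ∧ a * φ g = φ f) {G : P3}
    (hker : ∀ f, φ f = 0 ↔ G ∣ f) {i j k : Fin 3} (hk : ∀ m, m = i ∨ m = j ∨ m = k)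
    (hki : k ≠ i) (hkj : k ≠ j) (hij : i ≠ j) (ε : ℂ) (hε : ε ^ 2 = 1)
    (V W : Fin 3 → P3) (hVi : V i = 0) (hVj : V j = C ε * pderiv k G)
    (hVk : V k = -C ε * pderiv j G) (hWi : W i = -C ε * pderiv k G) (hWj : W j = 0)
    (hWk : W k = C ε * pderiv i G)
    (hdisc : φ (disc2 (D2 G V V) (D2 G V W) (D2 G W W)) ≠ 0)
    (hpi : ∀ m, φ (pi4 (D2 G V V) (D2 G V W) (D2 G W W) (D3 G V V V) (D3 G V V W) (D3 G V W W)
      (D3 G W W W) m) = 0) :
    ∃ r : Fin 10 → ℂ, (∃ i, r i ≠ 0) ∧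
      algebraMap ℂ K (r 0) + algebraMap ℂ K (r 1) * φ (X i) + algebraMap ℂ K (r 2) * φ (X j) +
      algebraMap ℂ K (r 3) * φ (X k) + algebraMap ℂ K (r 4) * φ (X i) ^ 2 +
      algebraMap ℂ K (r 5) * (φ (X i) * φ (X j)) +
      algebraMap ℂ K (r 6) * φ (X j) ^ 2 + algebraMap ℂ K (r 7) * (φ (X i) * φ (X k)) +
      algebraMap ℂ K (r 8) * (φ (X j) * φ (X k)) + algebraMap ℂ K (r 9) * φ (X k) ^ 2 = 0 := by
  have hchar : CharZero K := charZero_of_injective_algebraMap (algebraMap ℂ K).injective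
  have hG : φ G = 0 := (hker G).mpr dvd_rfl
  have sum3 : ∀ {M : Type} [AddCommMonoid M] (f : Fin 3 → M), ∑ m, f m = f i + f j + f k := by
    intro M _ f
    have : (Finset.univ : Finset (Fin 3)) = {i, j, k} := by
      ext m; simp [hk m]
    rw [this, Finset.sum_insert (by simp [hij, hki.symm]), Finset.sum_insert (by simp [hkj.symm]),
      Finset.sum_singleton, add_assoc]
  -- values
  obtain ⟨g1, hg1⟩ : ∃ g, g = φ (pderiv i G) := ⟨_, rfl⟩
  obtain ⟨g2, hg2⟩ : ∃ g, g = φ (pderiv j G) := ⟨_, rfl⟩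
  obtain ⟨g3, hg3⟩ : ∃ g, g = φ (pderiv k G) := ⟨_, rfl⟩
  obtain ⟨g11, hg11⟩ : ∃ g, g = φ (pderiv i (pderiv i G)) := ⟨_, rfl⟩
  obtain ⟨g12, hg12⟩ : ∃ g, g = φ (pderiv i (pderiv j G)) := ⟨_, rfl⟩
  obtain ⟨g13, hg13⟩ : ∃ g, g = φ (pderiv i (pderiv k G)) := ⟨_, rfl⟩
  obtain ⟨g22, hg22⟩ : ∃ g, g = φ (pderiv j (pderiv j G)) := ⟨_, rfl⟩
  obtain ⟨g23, hg23⟩ : ∃ g, g = φ (pderiv j (pderiv k G)) := ⟨_, rfl⟩
  obtain ⟨g33, hg33⟩ : ∃ g, g = φ (pderiv k (pderiv k G)) := ⟨_, rfl⟩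
  obtain ⟨g111, hg111⟩ : ∃ g, g = φ (pderiv i (pderiv i (pderiv i G))) := ⟨_, rfl⟩
  obtain ⟨g112, hg112⟩ : ∃ g, g = φ (pderiv i (pderiv i (pderiv j G))) := ⟨_, rfl⟩
  obtain ⟨g113, hg113⟩ : ∃ g, g = φ (pderiv i (pderiv i (pderiv k G))) := ⟨_, rfl⟩
  obtain ⟨g122, hg122⟩ : ∃ g, g = φ (pderiv i (pderiv j (pderiv j G))) := ⟨_, rfl⟩
  obtain ⟨g123, hg123⟩ : ∃ g, g = φ (pderiv i (pderiv j (pderiv k G))) := ⟨_, rfl⟩
  obtain ⟨g133, hg133⟩ : ∃ g, g = φ (pderiv i (pderiv k (pderiv k G))) := ⟨_, rfl⟩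
  obtain ⟨g222, hg222⟩ : ∃ g, g = φ (pderiv j (pderiv j (pderiv j G))) := ⟨_, rfl⟩
  obtain ⟨g223, hg223⟩ : ∃ g, g = φ (pderiv j (pderiv j (pderiv k G))) := ⟨_, rfl⟩
  obtain ⟨g233, hg233⟩ : ∃ g, g = φ (pderiv j (pderiv k (pderiv k G))) := ⟨_, rfl⟩
  obtain ⟨g333, hg333⟩ : ∃ g, g = φ (pderiv k (pderiv k (pderiv k G))) := ⟨_, rfl⟩
  -- commutation rules
  have cji : ∀ f, pderiv j (pderiv i f) = pderiv i (pderiv j f) := fun f => pderiv_comm' j i f
  have cki : ∀ f, pderiv k (pderiv i f) = pderiv i (pderiv k f) := fun f => pderiv_comm' k i f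
  have ckj : ∀ f, pderiv k (pderiv j f) = pderiv j (pderiv k f) := fun f => pderiv_comm' k j f
  -- second and third derivatives in tangent directions
  have hεK : algebraMap ℂ K ε ^ 2 = 1 := by rw [← map_pow, hε, map_one]
  have hφε : φ (C ε) = algebraMap ℂ K ε := algHom_C φ ε
  obtain ⟨eK, heK⟩ : ∃ g, g = algebraMap ℂ K ε := ⟨_, rfl⟩
  rw [← heK] at hεK hφε
  have hA : φ (D2 G V V) = g3 ^ 2 * g22 - 2 * g2 * g3 * g23 + g2 ^ 2 * g33 := by
    unfold D2
    simp only [sum3, hVi, hVj, hVk, map_add, map_mul, map_neg, map_zero, hφε, cji, cki, ckj,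
      mul_zero, zero_mul, zero_add, add_zero, ← hg1, ← hg2, ← hg3, ← hg22, ← hg23, ← hg33]
    linear_combination (g3 ^ 2 * g22 - 2 * g2 * g3 * g23 + g2 ^ 2 * g33) * hεK
  have hB : φ (D2 G V W) = -g3 ^ 2 * g12 + g1 * g3 * g23 + g2 * g3 * g13 - g1 * g2 * g33 := by
    unfold D2
    simp only [sum3, hVi, hVj, hVk, hWi, hWj, hWk, map_add, map_mul, map_neg, map_zero, hφε, cji,
      cki, ckj, mul_zero, zero_mul, zero_add, add_zero, ← hg1, ← hg2, ← hg3, ← hg22, ← hg23,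
      ← hg33, ← hg12, ← hg13, ← hg11]
    linear_combination (-g3 ^ 2 * g12 + g1 * g3 * g23 + g2 * g3 * g13 - g1 * g2 * g33) * hεK
  have hC : φ (D2 G W W) = g3 ^ 2 * g11 - 2 * g1 * g3 * g13 + g1 ^ 2 * g33 := by
    unfold D2
    simp only [sum3, hWi, hWj, hWk, map_add, map_mul, map_neg, map_zero, hφε, cji,
      cki, ckj, mul_zero, zero_mul, zero_add, add_zero, ← hg1, ← hg2, ← hg3, ← hg22, ← hg23,
      ← hg33, ← hg12, ← hg13, ← hg11]
    linear_combination (g3 ^ 2 * g11 - 2 * g1 * g3 * g13 + g1 ^ 2 * g33) * hεK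
  have hE0 : φ (D3 G V V V) = eK * (g3 ^ 3 * g222 - 3 * g3 ^ 2 * g2 * g223 +
      3 * g3 * g2 ^ 2 * g233 - g2 ^ 3 * g333) := by
    unfold D3
    simp only [sum3, hVi, hVj, hVk, map_add, map_mul, map_neg, map_zero, hφε, cji, cki, ckj,
      mul_zero, zero_mul, zero_add, add_zero, ← hg1, ← hg2, ← hg3, ← hg222, ← hg223, ← hg233,
      ← hg333]
    linear_combination eK * (g3 ^ 3 * g222 - 3 * g3 ^ 2 * g2 * g223 +
      3 * g3 * g2 ^ 2 * g233 - g2 ^ 3 * g333) * hεK
  have hE1 : φ (D3 G V V W) = eK * (-g3 * (g3 ^ 2 * g122 - 2 * g2 * g3 * g123 + g2 ^ 2 * g133) +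
      g1 * (g3 ^ 2 * g223 - 2 * g2 * g3 * g233 + g2 ^ 2 * g333)) := by
    unfold D3
    simp only [sum3, hVi, hVj, hVk, hWi, hWj, hWk, map_add, map_mul, map_neg, map_zero, hφε, cji,
      cki, ckj, mul_zero, zero_mul, zero_add, add_zero, ← hg1, ← hg2, ← hg3, ← hg222, ← hg223,
      ← hg233, ← hg333, ← hg122, ← hg123, ← hg133, ← hg112, ← hg113, ← hg111]
    linear_combination eK * (-g3 * (g3 ^ 2 * g122 - 2 * g2 * g3 * g123 + g2 ^ 2 * g133) +
      g1 * (g3 ^ 2 * g223 - 2 * g2 * g3 * g233 + g2 ^ 2 * g333)) * hεK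
  have hE2 : φ (D3 G V W W) = eK * (g3 * (g3 ^ 2 * g112 - 2 * g1 * g3 * g123 + g1 ^ 2 * g233) -
      g2 * (g3 ^ 2 * g113 - 2 * g1 * g3 * g133 + g1 ^ 2 * g333)) := by
    unfold D3
    simp only [sum3, hVi, hVj, hVk, hWi, hWj, hWk, map_add, map_mul, map_neg, map_zero, hφε, cji,
      cki, ckj, mul_zero, zero_mul, zero_add, add_zero, ← hg1, ← hg2, ← hg3, ← hg222, ← hg223,
      ← hg233, ← hg333, ← hg122, ← hg123, ← hg133, ← hg112, ← hg113, ← hg111]
    linear_combination eK * (g3 * (g3 ^ 2 * g112 - 2 * g1 * g3 * g123 + g1 ^ 2 * g233) -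
      g2 * (g3 ^ 2 * g113 - 2 * g1 * g3 * g133 + g1 ^ 2 * g333)) * hεK
  have hE3 : φ (D3 G W W W) = eK * (-g3 ^ 3 * g111 + 3 * g3 ^ 2 * g1 * g113 -
      3 * g3 * g1 ^ 2 * g133 + g1 ^ 3 * g333) := by
    unfold D3
    simp only [sum3, hWi, hWj, hWk, map_add, map_mul, map_neg, map_zero, hφε, cji,
      cki, ckj, mul_zero, zero_mul, zero_add, add_zero, ← hg1, ← hg2, ← hg3, ← hg222, ← hg223,
      ← hg233, ← hg333, ← hg122, ← hg123, ← hg133, ← hg112, ← hg113, ← hg111]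
    linear_combination eK * (-g3 ^ 3 * g111 + 3 * g3 ^ 2 * g1 * g113 -
      3 * g3 * g1 ^ 2 * g133 + g1 ^ 3 * g333) * hεK
  have hdisc' : disc2 (φ (D2 G V V)) (φ (D2 G V W)) (φ (D2 G W W)) ≠ 0 := by
    intro h0; apply hdisc
    unfold disc2 at h0 ⊢
    rw [map_sub, map_mul, map_pow]; exact h0
  have heK0 : eK ≠ 0 := by
    intro h0; rw [h0] at hεK; simp at hεK
  have h3 : g3 ≠ 0 := by
    intro h0
    apply hdisc'
    rw [hA, hB, hC, h0]
    unfold disc2
    ring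
  -- derivations
  obtain ⟨p, hp⟩ : ∃ p, g1 + p * g3 = 0 := ⟨-g1 / g3, by field_simp; ring⟩
  obtain ⟨q, hq⟩ : ∃ p, g2 + p * g3 = 0 := ⟨-g2 / g3, by field_simp; ring⟩
  obtain ⟨D₁, hD₁⟩ := exists_tangent φ hfrac hker i k p (by rw [← hg1, ← hg3]; exact hp)
  obtain ⟨D₂, hD₂⟩ := exists_tangent φ hfrac hker j k q (by rw [← hg2, ← hg3]; exact hq)
  have h1x : D₁ (φ (X i)) = 1 := by
    rw [hD₁, pderiv_X_self, pderiv_X_of_ne hki.symm, map_one, map_zero, mul_zero, add_zero]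
  have h1y : D₁ (φ (X j)) = 0 := by
    rw [hD₁, pderiv_X_of_ne hij.symm, pderiv_X_of_ne hkj.symm, map_zero, mul_zero, add_zero]
  have h1z : D₁ (φ (X k)) = p := by
    rw [hD₁, pderiv_X_of_ne hki, pderiv_X_self, map_zero, map_one, mul_one, zero_add]
  have h2x : D₂ (φ (X i)) = 0 := by
    rw [hD₂, pderiv_X_of_ne hij, pderiv_X_of_ne hki.symm, map_zero, mul_zero, add_zero]
  have h2y : D₂ (φ (X j)) = 1 := by
    rw [hD₂, pderiv_X_self, pderiv_X_of_ne hkj.symm, map_one, map_zero, mul_zero, add_zero]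
  have h2z : D₂ (φ (X k)) = q := by
    rw [hD₂, pderiv_X_of_ne hkj, pderiv_X_self, map_zero, map_one, mul_one, zero_add]
  -- rules
  have a1 : D₁ g1 = g11 + p * g13 := by rw [hg1, hD₁, cki, ← hg11, ← hg13]
  have a2 : D₁ g2 = g12 + p * g23 := by rw [hg2, hD₁, ckj, ← hg12, ← hg23]
  have a3 : D₁ g3 = g13 + p * g33 := by rw [hg3, hD₁, ← hg13, ← hg33]
  have b1 : D₂ g1 = g12 + q * g13 := by rw [hg1, hD₂, cki, cji, ← hg12, ← hg13]
  have b2 : D₂ g2 = g22 + q * g23 := by rw [hg2, hD₂, ckj, ← hg22, ← hg23]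
  have b3 : D₂ g3 = g23 + q * g33 := by rw [hg3, hD₂, ← hg23, ← hg33]
  have a11 : D₁ g11 = g111 + p * g113 := by rw [hg11, hD₁, cki, cki, ← hg111, ← hg113]
  have a12 : D₁ g12 = g112 + p * g123 := by rw [hg12, hD₁, cki, ckj, ← hg112, ← hg123]
  have a13 : D₁ g13 = g113 + p * g133 := by rw [hg13, hD₁, cki, ← hg113, ← hg133]
  have a22 : D₁ g22 = g122 + p * g223 := by rw [hg22, hD₁, ckj, ckj, ← hg122, ← hg223]
  have a23 : D₁ g23 = g123 + p * g233 := by rw [hg23, hD₁, ckj, ← hg123, ← hg233]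
  have a33 : D₁ g33 = g133 + p * g333 := by rw [hg33, hD₁, ← hg133, ← hg333]
  have b22 : D₂ g22 = g222 + q * g223 := by rw [hg22, hD₂, ckj, ckj, ← hg222, ← hg223]
  have b23 : D₂ g23 = g223 + q * g233 := by rw [hg23, hD₂, ckj, ← hg223, ← hg233]
  have b33 : D₂ g33 = g233 + q * g333 := by rw [hg33, hD₂, ← hg233, ← hg333]
  have two1 : D₁ (2 : K) = 0 := by
    have := D₁.map_natCast 2
    simpa using this
  have two2 : D₂ (2 : K) = 0 := by
    have := D₂.map_natCast 2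
    simpa using this
  obtain ⟨a, ha⟩ : ∃ a, a = D₁ p := ⟨_, rfl⟩
  obtain ⟨b, hb⟩ : ∃ a, a = D₁ q := ⟨_, rfl⟩
  obtain ⟨b', hb'⟩ : ∃ a, a = D₂ p := ⟨_, rfl⟩
  obtain ⟨d, hd⟩ : ∃ a, a = D₂ q := ⟨_, rfl⟩
  have e11 : g11 + 2 * p * g13 + p ^ 2 * g33 + a * g3 = 0 := by
    have h := congrArg D₁ hp
    rw [map_zero, map_add, Derivation.leibniz, a1, a3, ← ha] at h
    simp only [smul_eq_mul] at h
    linear_combination h
  have e12' : g12 + q * g13 + p * g23 + p * q * g33 + b' * g3 = 0 := by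
    have h := congrArg D₂ hp
    rw [map_zero, map_add, Derivation.leibniz, b1, b3, ← hb'] at h
    simp only [smul_eq_mul] at h
    linear_combination h
  have e12 : g12 + q * g13 + p * g23 + p * q * g33 + b * g3 = 0 := by
    have h := congrArg D₁ hq
    rw [map_zero, map_add, Derivation.leibniz, a2, a3, ← hb] at h
    simp only [smul_eq_mul] at h
    linear_combination h
  have e22 : g22 + 2 * q * g23 + q ^ 2 * g33 + d * g3 = 0 := by
    have h := congrArg D₂ hq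
    rw [map_zero, map_add, Derivation.leibniz, b2, b3, ← hd] at h
    simp only [smul_eq_mul] at h
    linear_combination h
  have hbb : b' = b := by
    apply mul_right_cancel₀ h3
    linear_combination e12' - e12
  rw [hbb] at hb'
  -- third derivatives
  have e111 : g111 + 3 * p * g113 + 3 * p ^ 2 * g133 + p ^ 3 * g333 + 3 * a * (g13 + p * g33) +
      D₁ a * g3 = 0 := by
    have h := congrArg D₁ e11
    simp only [map_zero, map_add, Derivation.leibniz, Derivation.leibniz_pow, a1, a2, a3, a11, a12,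
      a13, a22, a23, a33, ← ha, ← hb, two1, smul_eq_mul, nsmul_eq_mul] at h
    push_cast at h
    linear_combination h
  have e112 : g112 + 2 * p * g123 + q * g113 + 2 * p * q * g133 + p ^ 2 * g233 +
      p ^ 2 * q * g333 + 2 * b * (g13 + p * g33) + a * (g23 + q * g33) + D₁ b * g3 = 0 := by
    have h := congrArg D₁ e12
    simp only [map_zero, map_add, Derivation.leibniz, Derivation.leibniz_pow, a1, a2, a3, a11, a12,
      a13, a22, a23, a33, ← ha, ← hb, two1, smul_eq_mul, nsmul_eq_mul] at h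
    linear_combination h
  have e122 : g122 + 2 * q * g123 + p * g223 + 2 * p * q * g233 + q ^ 2 * g133 +
      p * q ^ 2 * g333 + 2 * b * (g23 + q * g33) + d * (g13 + p * g33) + D₁ d * g3 = 0 := by
    have h := congrArg D₁ e22
    simp only [map_zero, map_add, Derivation.leibniz, Derivation.leibniz_pow, a1, a2, a3, a11, a12,
      a13, a22, a23, a33, ← ha, ← hb, two1, smul_eq_mul, nsmul_eq_mul] at h
    push_cast at h
    linear_combination h
  have e222 : g222 + 3 * q * g223 + 3 * q ^ 2 * g233 + q ^ 3 * g333 + 3 * d * (g23 + q * g33) +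
      D₂ d * g3 = 0 := by
    have h := congrArg D₂ e22
    simp only [map_zero, map_add, Derivation.leibniz, Derivation.leibniz_pow, b1, b2, b3,
      b22, b23, b33, ← hd, two2, smul_eq_mul, nsmul_eq_mul] at h
    push_cast at h
    linear_combination h
  obtain ⟨hd2, l1, l2, h111, h112, h122, h222⟩ := pick_algebra h3 hp hq e11 e12 e22 e111 e112 e122
    e222 hA hB hC rfl rfl rfl rfl hdisc' (by
      intro m
      have h := hpi m
      apply mul_left_cancel₀ heK0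
      rw [mul_zero, ← h]
      fin_cases m <;>
      · simp only [pi4, Fin.zero_eta, Fin.mk_one, Fin.reduceFinMk, Matrix.cons_val_zero,
          Matrix.cons_val_one, Matrix.cons_val, Matrix.head_cons, Matrix.tail_cons, disc2, map_sub,
          map_mul, map_add, map_pow, hE0, hE1, hE2, hE3, map_ofNat]
        ring)
  -- commutation
  have hcomm : ∀ a, D₂ (D₁ a) = D₁ (D₂ a) := by
    intro x
    have h := derivation_eq_zero φ hfrac ⁅D₁, D₂⁆ (by
      intro m
      rw [Derivation.commutator_apply]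
      rcases hk m with rfl | rfl | rfl
      · rw [h2x, h1x, map_zero, D₂.map_one_eq_zero, sub_zero]
      · rw [h2y, h1y, map_zero, D₁.map_one_eq_zero, sub_zero]
      · rw [h2z, h1z, ← hb, ← hb', sub_self]) x
    rw [Derivation.commutator_apply] at h
    linear_combination (-1) * h
  refine exists_quadric_relation D₁ D₂ hcomm ?_ h1x h1y h2x h2y h1z h2z ha.symm hb.symm hb'.symm
    hd.symm h111 h112 h122 h222 hd2
  intro r h1r h2r
  obtain ⟨Q, hQ, hQ0⟩ := exists_dependence φ hfrac hG hk hki hkj hij (by rw [← hg3]; exact h3) r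
  exact const_of_dependent D₁ D₂ h1x h1y h2x h2y h1r h2r _ Q le_rfl hQ hQ0

end core

/-- the polynomial of a quadratic relation -/
theorem quadric_poly {i j k : Fin 3} (hk : ∀ m, m = i ∨ m = j ∨ m = k) (hki : k ≠ i)
    (hkj : k ≠ j) (hij : i ≠ j) (r : Fin 10 → ℂ) (hr : ∃ m, r m ≠ 0) :
    (C (r 0) + C (r 1) * X i + C (r 2) * X j + C (r 3) * X k + C (r 4) * X i ^ 2 +
      C (r 5) * (X i * X j) + C (r 6) * X j ^ 2 + C (r 7) * (X i * X k) + C (r 8) * (X j * X k) +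
      C (r 9) * X k ^ 2 : P3) ≠ 0 ∧
    (C (r 0) + C (r 1) * X i + C (r 2) * X j + C (r 3) * X k + C (r 4) * X i ^ 2 +
      C (r 5) * (X i * X j) + C (r 6) * X j ^ 2 + C (r 7) * (X i * X k) + C (r 8) * (X j * X k) +
      C (r 9) * X k ^ 2 : P3).totalDegree ≤ 2 := by
  constructor
  · intro h0
    have key : ∀ s t u : ℂ, r 0 + r 1 * s + r 2 * t + r 3 * u + r 4 * s ^ 2 + r 5 * (s * t) +
        r 6 * t ^ 2 + r 7 * (s * u) + r 8 * (t * u) + r 9 * u ^ 2 = 0 := by
      intro s t u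
      have h := congrArg (eval fun m => if m = i then s else if m = j then t else u) h0
      simpa [hki, hkj, hij, hij.symm] using h
    have k0 := key 0 0 0
    have k1 := key 1 0 0
    have k1' := key (-1) 0 0
    have k2 := key 0 1 0
    have k2' := key 0 (-1) 0
    have k3 := key 0 0 1
    have k3' := key 0 0 (-1)
    have k12 := key 1 1 0
    have k13 := key 1 0 1
    have k23 := key 0 1 1
    have r0 : r 0 = 0 := by linear_combination k0
    have r1 : r 1 = 0 := by linear_combination (k1 - k1') / 2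
    have r2 : r 2 = 0 := by linear_combination (k2 - k2') / 2
    have r3 : r 3 = 0 := by linear_combination (k3 - k3') / 2
    have r4 : r 4 = 0 := by linear_combination (k1 + k1') / 2 - k0
    have r6 : r 6 = 0 := by linear_combination (k2 + k2') / 2 - k0
    have r9 : r 9 = 0 := by linear_combination (k3 + k3') / 2 - k0
    have r5 : r 5 = 0 := by linear_combination k12 - r0 - r1 - r2 - r4 - r6
    have r7 : r 7 = 0 := by linear_combination k13 - r0 - r1 - r3 - r4 - r9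
    have r8 : r 8 = 0 := by linear_combination k23 - r0 - r2 - r3 - r6 - r9
    obtain ⟨m, hm⟩ := hr
    apply hm
    fin_cases m
    exacts [r0, r1, r2, r3, r4, r5, r6, r7, r8, r9]
  · have hc : ∀ c : ℂ, (C c : P3).totalDegree ≤ 0 := fun c => by rw [totalDegree_C]
    have hX : ∀ m : Fin 3, (X m : P3).totalDegree ≤ 1 := fun m => by rw [totalDegree_X]
    have h1 : ∀ (c : ℂ) (m : Fin 3), (C c * X m : P3).totalDegree ≤ 2 := by
      intro c m
      refine (totalDegree_mul _ _).trans ?_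
      have := hc c
      have := hX m
      omega
    have h2 : ∀ (c : ℂ) (m : Fin 3), (C c * X m ^ 2 : P3).totalDegree ≤ 2 := by
      intro c m
      refine (totalDegree_mul _ _).trans ?_
      have h3 := hc c
      have h4 := totalDegree_pow (X m : P3) 2
      have h5 := hX m
      omega
    have h3 : ∀ (c : ℂ) (m n : Fin 3), (C c * (X m * X n) : P3).totalDegree ≤ 2 := by
      intro c m n
      refine (totalDegree_mul _ _).trans ?_
      have h3 := hc c
      have h4 := totalDegree_mul (X m : P3) (X n)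
      have h5 := hX m
      have h6 := hX n
      omega
    have hadd : ∀ P Q : P3, P.totalDegree ≤ 2 → Q.totalDegree ≤ 2 → (P + Q).totalDegree ≤ 2 :=
      fun P Q hP hQ => (totalDegree_add _ _).trans (max_le hP hQ)
    refine hadd _ _ (hadd _ _ (hadd _ _ (hadd _ _ (hadd _ _ (hadd _ _ (hadd _ _ (hadd _ _
      (hadd _ _ ((hc _).trans (by norm_num)) (h1 _ _)) (h1 _ _)) (h1 _ _)) (h2 _ _)) (h3 _ _ _))
      (h2 _ _)) (h3 _ _ _)) (h3 _ _ _)) (h2 _ _)

/-- third index and sign -/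
theorem exists_third (G : P3) {i j : Fin 3} (hij : i ≠ j) :
    ∃ k : Fin 3, (∀ m, m = i ∨ m = j ∨ m = k) ∧ k ≠ i ∧ k ≠ j ∧ ∃ ε : ℂ, ε ^ 2 = 1 ∧
      Xv G (e i) i = 0 ∧ Xv G (e i) j = C ε * pderiv k G ∧ Xv G (e i) k = -C ε * pderiv j G ∧
      Xv G (e j) i = -C ε * pderiv k G ∧ Xv G (e j) j = 0 ∧ Xv G (e j) k = C ε * pderiv i G := by
  fin_cases i <;> fin_cases j
  · exact absurd rfl hij
  · refine ⟨2, by decide, by decide, by decide, 1, by norm_num, ?_⟩
    simp [Xv, e]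
  · refine ⟨1, by decide, by decide, by decide, -1, by norm_num, ?_⟩
    simp [Xv, e]
  · refine ⟨2, by decide, by decide, by decide, -1, by norm_num, ?_⟩
    simp [Xv, e]
  · exact absurd rfl hij
  · refine ⟨0, by decide, by decide, by decide, 1, by norm_num, ?_⟩
    simp [Xv, e]
  · refine ⟨1, by decide, by decide, by decide, 1, by norm_num, ?_⟩
    simp [Xv, e]
  · refine ⟨0, by decide, by decide, by decide, -1, by norm_num, ?_⟩
    simp [Xv, e]
  · exact absurd rfl hij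

/-- T7: a surface with vanishing Pick form is a quadric -/
theorem quadricStmt : QuadricStmt := by
  intro G hG i j hdisc hpi
  have hij : i ≠ j := by
    rintro rfl
    apply hdisc
    have : DeltaC G (e i) (e i) = 0 := by
      unfold DeltaC disc2; ring
    rw [this]; exact dvd_zero _
  obtain ⟨k, hk, hki, hkj, ε, hε, h1, h2, h3, h4, h5, h6⟩ := exists_third G hij
  have hprime : (Ideal.span {G} : Ideal P3).IsPrime := by
    rw [Ideal.span_singleton_prime hG.ne_zero]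
    exact hG.prime
  let A := P3 ⧸ (Ideal.span {G} : Ideal P3)
  let K := FractionRing A
  let φ : P3 →ₐ[ℂ] K := (Algebra.algHom ℂ A K).comp (Ideal.Quotient.mkₐ ℂ (Ideal.span {G}))
  have hφ : ∀ f, φ f = algebraMap A K (Ideal.Quotient.mk _ f) := fun f => rfl
  have hker : ∀ f, φ f = 0 ↔ G ∣ f := by
    intro f
    rw [hφ, map_eq_zero_iff _ (IsFractionRing.injective A K), Ideal.Quotient.eq_zero_iff_mem,
      Ideal.mem_span_singleton]
  have hfrac : ∀ a : K, ∃ f g, φ g ≠ 0 ∧ a * φ g = φ f := by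
    intro a
    obtain ⟨x, y, hy, rfl⟩ := IsFractionRing.div_surjective (A := A) a
    obtain ⟨f, rfl⟩ := Ideal.Quotient.mk_surjective x
    obtain ⟨g, rfl⟩ := Ideal.Quotient.mk_surjective y
    have hg : φ g ≠ 0 := by
      rw [hφ]
      intro h0
      rw [map_eq_zero_iff _ (IsFractionRing.injective A K)] at h0
      rw [h0] at hy
      exact zero_notMem_nonZeroDivisors hy
    refine ⟨f, g, hg, ?_⟩
    rw [← hφ, ← hφ]
    exact div_mul_cancel₀ _ hg
  obtain ⟨r, hr, hrel⟩ := quadric_core φ hfrac hker hk hki hkj hij ε hε _ _ h1 h2 h3 h4 h5 h6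
    (by rw [Ne, hker]; exact hdisc) (by
      intro m
      rw [hker]
      exact hpi m)
  obtain ⟨hne, hdeg⟩ := quadric_poly hk hki hkj hij r hr
  have hdvd : G ∣ (C (r 0) + C (r 1) * X i + C (r 2) * X j + C (r 3) * X k + C (r 4) * X i ^ 2 +
      C (r 5) * (X i * X j) + C (r 6) * X j ^ 2 + C (r 7) * (X i * X k) + C (r 8) * (X j * X k) +
      C (r 9) * X k ^ 2 : P3) := by
    rw [← hker]
    simp only [map_add, map_mul, map_pow, algHom_C]
    exact hrel
  obtain ⟨H, hH⟩ := hdvd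
  rw [hH] at hne hdeg
  have hH0 : H ≠ 0 := right_ne_zero_of_mul hne
  rw [totalDegree_mul_of_isDomain hG.ne_zero hH0] at hdeg
  omega

end Pool.Agent.Lib.MP_a8d5c3_co.Stab
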