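import Mathlib
import Pool.Agent.Lib.MP_a8d5c3_co.Stab.Stmts
import Pool.Agent.Lib.MP_a8d5c3_co.Defs

/-!
Transfer of the complex stability theorem to sets of lines of `ℝ^3`.
-/

set_option autoImplicit false

namespace Pool.Agent.Lib.MP_a8d5c3_co.Stab

open MvPolynomial Matrix Pool.Agent.Lib.MP_a8d5c3_co

namespace RealT

/-- the height functional -/
def hgt (s : ℝ) (x : E3) : ℝ := x 0 + s * x 1 + s ^ 2 * x 2

/-- new coordinates -/
def toPt (s : ℝ) (x : E3) : Pt := ![(x 1 : ℂ), (x 2 : ℂ), (hgt s x : ℂ)]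

/-- old coordinates -/
def fromPt (s : ℝ) (q : Pt) : E3 :=
  ![(q 2).re - s * (q 0).re - s ^ 2 * (q 1).re, (q 0).re, (q 1).re]

theorem fromPt_toPt (s : ℝ) (x : E3) : fromPt s (toPt s x) = x := by
  ext i
  fin_cases i
  · simp only [fromPt, toPt, Matrix.cons_val_zero, Matrix.cons_val_one, Matrix.cons_val,
      Complex.ofReal_re, hgt, Fin.zero_eta]
    ring
  · simp [fromPt, toPt]
  · simp [fromPt, toPt]

theorem toPt_injective (s : ℝ) : Function.Injective (toPt s) :=
  Function.LeftInverse.injective (fromPt_toPt s)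

theorem hgt_add (s : ℝ) (x y : E3) : hgt s (x + y) = hgt s x + hgt s y := by
  simp [hgt]; ring

theorem hgt_sub (s : ℝ) (x y : E3) : hgt s (x - y) = hgt s x - hgt s y := by
  simp [hgt]; ring

theorem hgt_smul (s r : ℝ) (x : E3) : hgt s (r • x) = r * hgt s x := by
  simp [hgt]; ring

/-- foot point and direction of a non-horizontal line -/
def IsData (s : ℝ) (l : AffineSubspace ℝ E3) (a v : E3) : Prop :=
  hgt s a = 0 ∧ hgt s v = 1 ∧ v ∈ l.direction ∧ (∀ w ∈ l.direction, w = hgt s w • v) ∧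
    ∀ x, x ∈ l ↔ x = a + hgt s x • v

theorem exists_data {s : ℝ} {l : AffineSubspace ℝ E3} (hl : IsLine l)
    (h : ∀ v ∈ l.direction, v ≠ 0 → hgt s v ≠ 0) : ∃ a v, IsData s l a v := by
  obtain ⟨⟨b, hb⟩, h1⟩ := hl
  obtain ⟨⟨v0, hv0⟩, hne, hspan⟩ := finrank_eq_one_iff'.mp h1
  have hne' : v0 ≠ 0 := fun h0 => hne (Subtype.ext h0)
  have hh := h v0 hv0 hne'
  set v := (hgt s v0)⁻¹ • v0 with hv
  have hv1 : hgt s v = 1 := by rw [hv, hgt_smul, inv_mul_cancel₀ hh]
  have hvd : v ∈ l.direction := Submodule.smul_mem _ _ hv0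
  have hall : ∀ w ∈ l.direction, w = hgt s w • v := by
    intro w hw
    obtain ⟨c, hc⟩ := hspan ⟨w, hw⟩
    have hc' : c • v0 = w := congrArg Subtype.val hc
    rw [← hc', hgt_smul, hv, smul_smul, mul_assoc, mul_inv_cancel₀ hh, mul_one]
  have ha : b - hgt s b • v ∈ l := by
    have := AffineSubspace.vadd_mem_of_mem_direction (Submodule.smul_mem _ (-hgt s b) hvd) hb
    rw [vadd_eq_add, neg_smul] at this
    rwa [sub_eq_add_neg, add_comm]
  refine ⟨b - hgt s b • v, v, ?_, hv1, hvd, hall, fun x => ⟨fun hx => ?_, fun hx => ?_⟩⟩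
  · rw [hgt_sub, hgt_smul, hv1]; ring
  · have h2 := AffineSubspace.vsub_mem_direction hx hb
    rw [vsub_eq_sub] at h2
    have h3 := hall _ h2
    rw [hgt_sub, sub_smul] at h3
    have : x = b + (x - b) := by abel
    rw [this, h3]
    have e : hgt s (b + (hgt s x • v - hgt s b • v)) = hgt s x := by
      rw [hgt_add, hgt_sub, hgt_smul s (hgt s x) v, hgt_smul s (hgt s b) v, hv1]; ring
    rw [e]
    abel
  · rw [hx]
    have := AffineSubspace.vadd_mem_of_mem_direction (Submodule.smul_mem _ (hgt s x) hvd) ha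
    rwa [vadd_eq_add, add_comm] at this

/-- the line with given foot point and direction -/
def mkLn (a v : E3) : Ln := ⟨![(a 1 : ℂ), (a 2 : ℂ)], ![(v 1 : ℂ), (v 2 : ℂ)]⟩

theorem ext_hgt {s : ℝ} {x y : E3} (h0 : hgt s x = hgt s y) (h1 : x 1 = y 1) (h2 : x 2 = y 2) :
    x = y := by
  unfold hgt at h0
  ext i
  fin_cases i
  · simp only [Fin.zero_eta]
    rw [h1, h2] at h0
    linarith
  · exact h1
  · exact h2

theorem mem_iff_has {s : ℝ} {l : AffineSubspace ℝ E3} {a v : E3} (h : IsData s l a v) (x : E3) :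
    x ∈ l ↔ (mkLn a v).Has (toPt s x) := by
  obtain ⟨ha, hv, _, _, hx⟩ := h
  rw [hx x, Ln.has_iff]
  simp only [toPt, mkLn, Matrix.cons_val_zero, Matrix.cons_val_one, Matrix.cons_val]
  constructor
  · intro e
    have e1 := congrFun e 1
    have e2 := congrFun e 2
    simp only [Pi.add_apply, Pi.smul_apply, smul_eq_mul] at e1 e2
    constructor
    · exact_mod_cast e1
    · exact_mod_cast e2
  · rintro ⟨e1, e2⟩
    apply ext_hgt (s := s)
    · rw [hgt_add, hgt_smul, ha, hv]; ring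
    · simp only [Pi.add_apply, Pi.smul_apply, smul_eq_mul]
      exact_mod_cast e1
    · simp only [Pi.add_apply, Pi.smul_apply, smul_eq_mul]
      exact_mod_cast e2

theorem mkLn_inj {s : ℝ} {l l' : AffineSubspace ℝ E3} {a v a' v' : E3} (h : IsData s l a v)
    (h' : IsData s l' a' v') (e : mkLn a v = mkLn a' v') : l = l' := by
  apply SetLike.ext
  intro x
  rw [mem_iff_has h, mem_iff_has h', e]

theorem dir_mkLn {s : ℝ} {a v : E3} (hv : hgt s v = 1) : (mkLn a v).dir = toPt s v := by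
  ext i
  fin_cases i
  · simp [Ln.dir, mkLn, toPt]
  · simp [Ln.dir, mkLn, toPt]
  · simp [Ln.dir, mkLn, toPt, hv]

theorem indep_cast (s : ℝ) {v : Fin 3 → E3} (h : LinearIndependent ℝ v) :
    LinearIndependent ℂ fun i => toPt s (v i) := by
  have h1 : LinearIndependent ℝ (Matrix.of v).row := h
  rw [Matrix.linearIndependent_rows_iff_isUnit, Matrix.isUnit_iff_isUnit_det,
    isUnit_iff_ne_zero, Matrix.det_fin_three] at h1
  have h2 : LinearIndependent ℂ (Matrix.of fun i => toPt s (v i)).row := by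
    rw [Matrix.linearIndependent_rows_iff_isUnit, Matrix.isUnit_iff_isUnit_det,
      isUnit_iff_ne_zero, Matrix.det_fin_three]
    intro h0
    apply h1
    simp only [Matrix.of_apply, toPt, hgt, Matrix.cons_val_zero, Matrix.cons_val_one,
      Matrix.cons_val] at h0 ⊢
    have h3 : ((v 0 0 * v 1 1 * v 2 2 - v 0 0 * v 1 2 * v 2 1 - v 0 1 * v 1 0 * v 2 2 +
      v 0 1 * v 1 2 * v 2 0 + v 0 2 * v 1 0 * v 2 1 - v 0 2 * v 1 1 * v 2 0 : ℝ) : ℂ) = 0 := by
      push_cast at h0 ⊢
      linear_combination h0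
    exact_mod_cast h3
  exact h2

/-- there is a height functional that vanishes on no given vector -/
theorem exists_hgt {ι : Type*} {A : Set ι} (hA : A.Finite) (v : ι → E3) (hv : ∀ i ∈ A, v i ≠ 0) :
    ∃ s : ℝ, ∀ i ∈ A, hgt s (v i) ≠ 0 := by
  have h1 : ∀ i ∈ A, {s : ℝ | hgt s (v i) = 0}.Finite := by
    intro i hi
    set p : Polynomial ℝ := Polynomial.C (v i 0) + Polynomial.C (v i 1) * Polynomial.X +
      Polynomial.C (v i 2) * Polynomial.X ^ 2 with hp
    have hp0 : p ≠ 0 := by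
      intro h0
      apply hv i hi
      ext j
      have h2 : ∀ n, p.coeff n = 0 := fun n => by rw [h0]; simp
      have e0 := h2 0
      have e1 := h2 1
      have e2 := h2 2
      simp only [hp, Polynomial.coeff_add, Polynomial.coeff_C, Polynomial.coeff_C_mul,
        Polynomial.coeff_X, Polynomial.coeff_X_pow] at e0 e1 e2
      norm_num at e0 e1 e2
      fin_cases j
      · exact e0
      · exact e1
      · exact e2
    refine (Polynomial.finite_setOfPred_isRoot hp0).subset fun s hs => ?_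
    simp only [Set.mem_ofPred_eq, Polynomial.IsRoot.def, hp, Polynomial.eval_add,
      Polynomial.eval_C, Polynomial.eval_mul, Polynomial.eval_X, Polynomial.eval_pow]
    have : hgt s (v i) = 0 := hs
    unfold hgt at this
    linarith
  obtain ⟨s, hs⟩ := (hA.biUnion h1).exists_notMem
  refine ⟨s, fun i hi h => hs ?_⟩
  rw [Set.mem_iUnion₂]
  exact ⟨i, hi, h⟩

/-! ### real zero sets of linear polynomials -/

/-- the real zero set of `linF a d` -/
noncomputable def Zs (s : ℝ) (a : Pt) (d : ℂ) : AffineSubspace ℝ E3 where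
  carrier := {x | a ⬝ᵥ toPt s x + d = 0}
  smul_vsub_vadd_mem' := by
    intro c p₁ p₂ p₃ h1 h2 h3
    simp only [Set.mem_ofPred_eq, dotProduct, Fin.sum_univ_three, toPt, hgt,
      Matrix.cons_val_zero, Matrix.cons_val_one, Matrix.cons_val, vsub_eq_sub, vadd_eq_add,
      Pi.add_apply, Pi.smul_apply, Pi.sub_apply, smul_eq_mul] at h1 h2 h3 ⊢
    push_cast at h1 h2 h3 ⊢
    linear_combination (c : ℂ) * h1 - (c : ℂ) * h2 + h3

theorem mem_Zs {s : ℝ} {a : Pt} {d : ℂ} {x : E3} : x ∈ Zs s a d ↔ a ⬝ᵥ toPt s x + d = 0 :=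
  Iff.rfl

/-- the linear part -/
noncomputable def lin (s : ℝ) (a : Pt) : E3 →ₗ[ℝ] ℂ where
  toFun x := a ⬝ᵥ toPt s x
  map_add' x y := by
    simp only [dotProduct, Fin.sum_univ_three, toPt, hgt, Matrix.cons_val_zero,
      Matrix.cons_val_one, Matrix.cons_val, Pi.add_apply]
    push_cast; ring
  map_smul' r x := by
    simp only [dotProduct, Fin.sum_univ_three, toPt, hgt, Matrix.cons_val_zero,
      Matrix.cons_val_one, Matrix.cons_val, Pi.smul_apply, smul_eq_mul, RingHom.id_apply,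
      Complex.real_smul]
    push_cast; ring

theorem lin_apply (s : ℝ) (a : Pt) (x : E3) : lin s a x = a ⬝ᵥ toPt s x := rfl

theorem toPt_fromPt_single (s : ℝ) (i : Fin 3) : toPt s (fromPt s (Pi.single i 1)) = Pi.single i 1 := by
  ext j
  fin_cases i <;> fin_cases j <;> simp [toPt, fromPt, hgt]

theorem lin_single (s : ℝ) (a : Pt) (i : Fin 3) : lin s a (fromPt s (Pi.single i 1)) = a i := by
  rw [lin_apply, toPt_fromPt_single, dotProduct_single_one]

theorem direction_Zs {s : ℝ} {a : Pt} {d : ℂ} {x : E3} (hx : x ∈ Zs s a d) :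
    (Zs s a d).direction = LinearMap.ker (lin s a) := by
  ext v
  rw [← AffineSubspace.vadd_mem_iff_mem_direction v hx, LinearMap.mem_ker, mem_Zs]
  rw [mem_Zs] at hx
  have : a ⬝ᵥ toPt s (v +ᵥ x) = lin s a v + a ⬝ᵥ toPt s x := by
    rw [vadd_eq_add, ← lin_apply s a (v + x), map_add, lin_apply s a x]
  rw [this]
  constructor
  · intro h; linear_combination h - hx
  · intro h; linear_combination h + hx

theorem ker_ne_top {s : ℝ} {a : Pt} (ha : a ≠ 0) : LinearMap.ker (lin s a) ≠ ⊤ := by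
  intro h
  apply ha
  ext i
  have : fromPt s (Pi.single i 1) ∈ LinearMap.ker (lin s a) := by rw [h]; trivial
  rw [LinearMap.mem_ker, lin_single] at this
  exact this

theorem isPlane_of_two_lines {s : ℝ} {a : Pt} {d : ℂ} (ha : a ≠ 0) {l l' : AffineSubspace ℝ E3}
    (hl : IsLine l) (hl' : IsLine l') (hne : l ≠ l') (h : l ≤ Zs s a d) (h' : l' ≤ Zs s a d) :
    IsPlane (Zs s a d) := by
  obtain ⟨⟨x, hx⟩, h1⟩ := hl
  obtain ⟨⟨x', hx'⟩, h1'⟩ := hl'
  have hdir := direction_Zs (h hx)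
  have hlt : Module.finrank ℝ (Zs s a d).direction < 3 := by
    have := Submodule.finrank_lt (ker_ne_top (s := s) ha)
    rw [← hdir] at this
    simpa using this
  have hge : 1 ≤ Module.finrank ℝ (Zs s a d).direction := by
    rw [← h1]; exact Submodule.finrank_mono (AffineSubspace.direction_le h)
  have hne1 : Module.finrank ℝ (Zs s a d).direction ≠ 1 := by
    intro h2
    apply hne
    have e1 : l = Zs s a d := AffineSubspace.eq_of_direction_eq_of_nonempty_of_le
      (Submodule.eq_of_le_of_finrank_eq (AffineSubspace.direction_le h) (by rw [h1, h2]))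
      ⟨x, hx⟩ h
    have e2 : l' = Zs s a d := AffineSubspace.eq_of_direction_eq_of_nonempty_of_le
      (Submodule.eq_of_le_of_finrank_eq (AffineSubspace.direction_le h') (by rw [h1', h2]))
      ⟨x', hx'⟩ h'
    rw [e1, e2]
  exact ⟨⟨x, h hx⟩, by omega⟩

/-- a real plane determines its linear polynomial -/
theorem prop_of_Zs_eq {s : ℝ} {a a' : Pt} {d d' : ℂ} (ha : a ≠ 0) (ha' : a' ≠ 0)
    (hp : IsPlane (Zs s a d)) (h : Zs s a d = Zs s a' d') :
    ∃ c : ℂ, c ≠ 0 ∧ a' = c • a ∧ d' = c * d := by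
  obtain ⟨⟨x, hx⟩, h2⟩ := hp
  have hx' : x ∈ Zs s a' d' := by rw [← h]; exact hx
  have hk : LinearMap.ker (lin s a) = LinearMap.ker (lin s a') := by
    rw [← direction_Zs hx, ← direction_Zs hx', h]
  rw [direction_Zs hx] at h2
  obtain ⟨u, hu⟩ : ∃ u, u ∉ LinearMap.ker (lin s a) := by
    by_contra hcon
    push Not at hcon
    exact ker_ne_top ha (eq_top_iff.mpr fun v _ => hcon v)
  have htop : LinearMap.ker (lin s a) ⊔ Submodule.span ℝ {u} = ⊤ := by
    apply Submodule.eq_top_of_finrank_eq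
    have h3 : LinearMap.ker (lin s a) < LinearMap.ker (lin s a) ⊔ Submodule.span ℝ {u} := by
      refine lt_of_le_of_ne le_sup_left fun h4 => hu ?_
      rw [h4]
      exact Submodule.mem_sup_right (Submodule.mem_span_singleton_self u)
    have h5 := Submodule.finrank_lt_finrank_of_lt h3
    have h6 := Submodule.finrank_le (LinearMap.ker (lin s a) ⊔ Submodule.span ℝ {u})
    have h7 : Module.finrank ℝ E3 = 3 := by simp
    rw [h7] at h6 ⊢
    rw [h2] at h5
    omega
  have hlu : lin s a u ≠ 0 := hu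
  set c := lin s a' u / lin s a u with hc
  have key : ∀ y, lin s a' y = c * lin s a y := by
    intro y
    have hy : y ∈ LinearMap.ker (lin s a) ⊔ Submodule.span ℝ {u} := by rw [htop]; trivial
    obtain ⟨k, hk1, w, hw, rfl⟩ := Submodule.mem_sup.mp hy
    obtain ⟨r, rfl⟩ := Submodule.mem_span_singleton.mp hw
    have hk2 : k ∈ LinearMap.ker (lin s a') := by rw [← hk]; exact hk1
    rw [LinearMap.mem_ker] at hk1 hk2
    rw [map_add, map_add, hk1, hk2, map_smul, map_smul, Complex.real_smul, Complex.real_smul, hc]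
    field_simp
    ring
  have haa : a' = c • a := by
    ext i
    have := key (fromPt s (Pi.single i 1))
    rw [lin_single, lin_single] at this
    simpa using this
  have hc0 : c ≠ 0 := by
    intro h0
    apply ha'
    rw [haa, h0, zero_smul]
  refine ⟨c, hc0, haa, ?_⟩
  have e1 := key x
  rw [lin_apply, lin_apply] at e1
  have e2 : a ⬝ᵥ toPt s x + d = 0 := hx
  have e3 : a' ⬝ᵥ toPt s x + d' = 0 := hx'
  linear_combination e3 - c * e2 - e1

theorem line_eq_inf {l P Q : AffineSubspace ℝ E3} (hl : IsLine l) (hP : IsPlane P) (hQ : IsPlane Q)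
    (hne : P ≠ Q) (h1 : l ≤ P) (h2 : l ≤ Q) : l = P ⊓ Q := by
  obtain ⟨⟨x, hx⟩, hl1⟩ := hl
  have hle : l ≤ P ⊓ Q := le_inf h1 h2
  have hd : (P ⊓ Q).direction = P.direction ⊓ Q.direction :=
    AffineSubspace.direction_inf_of_mem (h1 hx) (h2 hx)
  have hlt : Module.finrank ℝ (P ⊓ Q).direction < 2 := by
    by_contra hcon
    push Not at hcon
    rw [hd] at hcon
    have e1 : P.direction ⊓ Q.direction = P.direction :=
      Submodule.eq_of_le_of_finrank_le inf_le_left (by rw [hP.2]; exact hcon)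
    have e2 : P.direction ⊓ Q.direction = Q.direction :=
      Submodule.eq_of_le_of_finrank_le inf_le_right (by rw [hQ.2]; exact hcon)
    exact hne (AffineSubspace.ext_of_direction_eq (by rw [← e1]; exact e2) ⟨x, h1 hx, h2 hx⟩)
  have hge := Submodule.finrank_mono (AffineSubspace.direction_le hle)
  exact AffineSubspace.eq_of_direction_eq_of_nonempty_of_le
    (Submodule.eq_of_le_of_finrank_eq (AffineSubspace.direction_le hle) (by omega)) ⟨x, hx⟩ hle

/-! ### linear polynomials -/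

theorem exists_linF {p : P3} (h : p.totalDegree = 1) : ∃ (a : Pt) (d : ℂ), a ≠ 0 ∧ p = linF a d := by
  set a : Pt := fun i => p.coeff (Finsupp.single i 1) with ha
  set d : ℂ := p.coeff 0 with hd
  have hp : p = linF a d := by
    ext m
    unfold linF
    simp only [coeff_add, coeff_C_mul, coeff_X, coeff_C]
    by_cases h0 : m = 0
    · subst h0
      have : ∀ i : Fin 3, ¬ (Finsupp.single i 1 : Fin 3 →₀ ℕ) = 0 := fun i => by simp
      simp [this, hd]
    · by_cases h1 : ∃ i, Finsupp.single i 1 = m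
      · obtain ⟨i, rfl⟩ := h1
        have h00 : ∀ i : Fin 3, ¬ (0 : Fin 3 →₀ ℕ) = Finsupp.single i 1 := fun i h => by
          have := congrArg (fun f => f i) h
          simp at this
        have hi : i = 0 ∨ i = 1 ∨ i = 2 := by
          fin_cases i <;> simp
        rcases hi with rfl | rfl | rfl <;> simp [Finsupp.single_left_inj, ha, h00]
      · push Not at h1
        rw [if_neg (h1 0), if_neg (h1 1), if_neg (h1 2), if_neg (fun h => h0 h.symm)]
        simp only [mul_zero, add_zero]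
        by_contra hne
        have h2 := le_totalDegree (mem_support_iff.mpr hne)
        rw [h, Finsupp.sum_fintype _ _ (by simp), Fin.sum_univ_three] at h2
        rcases Nat.eq_zero_or_pos (m 0) with e0 | e0
        · rcases Nat.eq_zero_or_pos (m 1) with e1 | e1
          · rcases Nat.eq_zero_or_pos (m 2) with e2 | e2
            · apply h0; ext i; fin_cases i <;> simp [e0, e1, e2]
            · apply h1 2; ext i; fin_cases i
              · simp [e0]
              · simp [e1]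
              · simp; omega
          · apply h1 1; ext i; fin_cases i
            · simp [e0]
            · simp; omega
            · simp; omega
        · apply h1 0; ext i; fin_cases i
          · simp; omega
          · simp; omega
          · simp; omega
  refine ⟨a, d, ?_, hp⟩
  intro h0
  rw [hp, h0] at h
  simp [linF] at h

theorem eval_of_mem_mI {q : Pt} {f : P3} (h : f ∈ mI q) : eval q f = 0 := by
  have : mI q ≤ RingHom.ker (eval q : P3 →+* ℂ) := by
    unfold mI
    rw [Ideal.span_le]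
    rintro g (rfl | rfl | rfl) <;> simp [RingHom.mem_ker]
  exact this h

theorem eval_linF (a : Pt) (d : ℂ) (q : Pt) : eval q (linF a d) = a ⬝ᵥ q + d := by
  simp [linF, dotProduct, Fin.sum_univ_three]

theorem le_Zs_of_mem_I {s : ℝ} {l : AffineSubspace ℝ E3} {b v : E3} (h : IsData s l b v) {a : Pt}
    {d : ℂ} (hp : linF a d ∈ (mkLn b v).I) : l ≤ Zs s a d := by
  intro x hx
  rw [mem_Zs, ← eval_linF]
  exact eval_of_mem_mI (I_le_mI ((mem_iff_has h x).mp hx) hp)

theorem assoc_linF {a : Pt} {d c : ℂ} (hc : c ≠ 0) : Associated (linF a d) (linF (c • a) (c * d)) := by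
  have h : linF (c • a) (c * d) = linF a d * C c := by
    unfold linF
    simp only [Pi.smul_apply, smul_eq_mul, map_mul]
    ring
  rw [h]
  have hu : IsUnit (C c : P3) := (isUnit_iff_ne_zero.mpr hc).map C
  exact ⟨hu.unit, by simp⟩

/-- the number of intersection lines -/
theorem ncard_planeLines {H : Set (AffineSubspace ℝ E3)} (hH : H.Finite) :
    (planeLines H).Finite ∧ ((planeLines H).ncard : ℝ) ≤ (H.ncard : ℝ) ^ 2 / 2 := by
  classical
  set T := hH.toFinset with hT
  set S : Finset (AffineSubspace ℝ E3) := (T.offDiag.image (Function.uncurry Sym2.mk)).image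
    (Sym2.lift ⟨fun P Q => P ⊓ Q, fun P Q => inf_comm P Q⟩) with hS
  have hsub : planeLines H ⊆ (S : Set (AffineSubspace ℝ E3)) := by
    rintro l ⟨P, hP, Q, hQ, hne, rfl⟩
    simp only [hS, Finset.coe_image, Set.mem_image]
    refine ⟨s(P, Q), ⟨(P, Q), ?_, rfl⟩, by simp⟩
    simp [hT, hP, hQ, hne]
  refine ⟨(Finset.finite_toSet S).subset hsub, ?_⟩
  have h1 : (planeLines H).ncard ≤ T.card.choose 2 := by
    calc (planeLines H).ncard ≤ (S : Set (AffineSubspace ℝ E3)).ncard :=
          Set.ncard_le_ncard hsub (Finset.finite_toSet S)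
      _ = S.card := Set.ncard_coe_finset S
      _ ≤ (T.offDiag.image (Function.uncurry Sym2.mk)).card := Finset.card_image_le
      _ = T.card.choose 2 := Sym2.card_image_offDiag T
  have h2 : T.card = H.ncard := by rw [hT, Set.ncard_eq_toFinset_card H hH]
  rw [h2] at h1
  have h3 : ((planeLines H).ncard : ℝ) ≤ ((H.ncard.choose 2 : ℕ) : ℝ) := by exact_mod_cast h1
  rw [Nat.cast_choose_two] at h3
  have h4 : (0 : ℝ) ≤ H.ncard := by positivity
  nlinarith

/-- the complex configuration of a set of real lines -/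
theorem exists_cfg {L : Set (AffineSubspace ℝ E3)} (hL : L.Finite) (hline : ∀ l ∈ L, IsLine l) :
    ∃ (s : ℝ) (A V : AffineSubspace ℝ E3 → E3) (c : Cfg) (tr : E3 → Fin 3 → AffineSubspace ℝ E3),
      (∀ l ∈ L, IsData s l (A l) (V l)) ∧
      (c.L : Set Ln) = (fun l => mkLn (A l) (V l)) '' L ∧
      (c.J : Set Pt) = toPt s '' {x | IsJoint L x} ∧
      {x | IsJoint L x}.Finite ∧
      (∀ x, IsJoint L x → (∀ i, tr x i ∈ L) ∧ (∀ i, x ∈ tr x i) ∧
        LinearIndependent ℝ (fun i => V (tr x i)) ∧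
        ∀ i, c.tri (toPt s x) i = mkLn (A (tr x i)) (V (tr x i))) := by
  classical
  -- a direction vector for each line
  have hdir : ∀ l ∈ L, ∃ v : E3, v ≠ 0 ∧ ∀ w ∈ l.direction, ∃ c : ℝ, c • v = w := by
    intro l hl
    obtain ⟨⟨v0, hv0⟩, hne, hspan⟩ := finrank_eq_one_iff'.mp (hline l hl).2
    refine ⟨v0, fun h0 => hne (Subtype.ext h0), fun w hw => ?_⟩
    obtain ⟨c, hc⟩ := hspan ⟨w, hw⟩
    exact ⟨c, congrArg Subtype.val hc⟩
  choose! v hv0 hv using hdir
  obtain ⟨s, hs⟩ := exists_hgt hL v hv0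
  have hdata : ∀ l ∈ L, ∃ a w, IsData s l a w := by
    intro l hl
    apply exists_data (hline l hl)
    intro w hw hw0
    obtain ⟨c, rfl⟩ := hv l hl w hw
    rw [hgt_smul]
    refine mul_ne_zero ?_ (hs l hl)
    rintro rfl
    exact hw0 (zero_smul _ _)
  choose! A V hAV using hdata
  -- the chosen triples
  have htr : ∀ x, IsJoint L x → ∃ t : Fin 3 → AffineSubspace ℝ E3, (∀ i, t i ∈ L) ∧
      (∀ i, x ∈ t i) ∧ LinearIndependent ℝ (fun i => V (t i)) := by
    rintro x ⟨l1, h1, l2, h2, l3, h3, m1, m2, m3, v1, hv1, v2, hv2, v3, hv3, hind⟩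
    have hL' : ∀ i, (![l1, l2, l3] : Fin 3 → AffineSubspace ℝ E3) i ∈ L := by
      intro i; fin_cases i <;> assumption
    have hm' : ∀ i, x ∈ (![l1, l2, l3] : Fin 3 → AffineSubspace ℝ E3) i := by
      intro i; fin_cases i <;> assumption
    have hd' : ∀ i, (![v1, v2, v3] : Fin 3 → E3) i ∈
        ((![l1, l2, l3] : Fin 3 → AffineSubspace ℝ E3) i).direction := by
      intro i; fin_cases i <;> assumption
    refine ⟨![l1, l2, l3], hL', hm', ?_⟩
    generalize (![l1, l2, l3] : Fin 3 → AffineSubspace ℝ E3) = ll at *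
    generalize (![v1, v2, v3] : Fin 3 → E3) = vv at *
    have e : ∀ i, vv i = hgt s (vv i) • V (ll i) := fun i =>
      (hAV (ll i) (hL' i)).2.2.2.1 (vv i) (hd' i)
    have hn : ∀ i, hgt s (vv i) ≠ 0 := by
      intro i h0
      apply hind.ne_zero i
      rw [e i, h0, zero_smul]
    have h4 := hind.units_smul (fun i => (Units.mk0 _ (hn i))⁻¹)
    convert h4 using 1
    ext i : 1
    rw [Pi.smul_apply', Units.smul_def, Units.val_inv_eq_inv_val, Units.val_mk0, eq_comm,
      inv_smul_eq_iff₀ (hn i)]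
    exact e i
  choose! tr htrL htrx htri using htr
  -- joints are determined by their triples
  have hinj : Set.InjOn tr {x | IsJoint L x} := by
    intro x hx y hy hxy
    have hx' : IsJoint L x := hx
    have hy' : IsJoint L y := hy
    have h1 : ∀ i, x - y = (hgt s x - hgt s y) • V (tr x i) := by
      intro i
      have e1 := (((hAV _ (htrL x hx' i)).2.2.2.2) x).mp (htrx x hx' i)
      have e2 : y ∈ tr x i := by rw [hxy]; exact htrx y hy' i
      have e3 := (((hAV _ (htrL x hx' i)).2.2.2.2) y).mp e2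
      rw [sub_smul]
      nth_rewrite 1 [e1]
      nth_rewrite 1 [e3]
      abel
    have h2 : (hgt s x - hgt s y) • (V (tr x 0) - V (tr x 1)) = 0 := by
      rw [smul_sub, ← h1 0, ← h1 1, sub_self]
    have h3 : V (tr x 0) - V (tr x 1) ≠ 0 := by
      intro h0
      have := (htri x hx').injective (sub_eq_zero.mp h0)
      exact absurd this (by decide)
    have h4 : hgt s x - hgt s y = 0 := by
      rcases smul_eq_zero.mp h2 with h | h
      · exact h
      · exact absurd h h3
    have h5 := h1 0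
    rw [h4, zero_smul] at h5
    exact sub_eq_zero.mp h5
  have hJfin : {x | IsJoint L x}.Finite := by
    refine Set.Finite.of_finite_image ?_ hinj
    refine (Set.Finite.pi' (fun _ : Fin 3 => hL)).subset ?_
    rintro t ⟨x, hx, rfl⟩ i
    exact htrL x hx i
  set F : AffineSubspace ℝ E3 → Ln := fun l => mkLn (A l) (V l) with hF
  have hfrom : ∀ q ∈ hJfin.toFinset.image (toPt s), IsJoint L (fromPt s q) ∧
      toPt s (fromPt s q) = q := by
    intro q hq
    rw [Finset.mem_image] at hq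
    obtain ⟨x, hx, rfl⟩ := hq
    rw [fromPt_toPt]
    exact ⟨by simpa using hx, rfl⟩
  let c : Cfg :=
    { L := hL.toFinset.image F
      J := hJfin.toFinset.image (toPt s)
      tri := fun q i => F (tr (fromPt s q) i)
      tri_mem := by
        intro q hq i
        rw [Finset.mem_image]
        exact ⟨_, by simpa using htrL _ (hfrom q hq).1 i, rfl⟩
      has := by
        intro q hq i
        have h1 := (hfrom q hq).1
        have h2 := (mem_iff_has (hAV _ (htrL _ h1 i)) (fromPt s q)).mp (htrx _ h1 i)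
        rwa [(hfrom q hq).2] at h2
      indep := by
        intro q hq
        have h1 := (hfrom q hq).1
        have h2 := indep_cast s (htri _ h1)
        convert h2 using 2 with i
        exact dir_mkLn (hAV _ (htrL _ h1 i)).2.1 }
  refine ⟨s, A, V, c, tr, hAV, ?_, ?_, hJfin, ?_⟩
  · simp [c, hF]
  · simp [c]
  · intro x hx
    refine ⟨htrL x hx, htrx x hx, htri x hx, fun i => ?_⟩
    simp only [c, fromPt_toPt, hF]

end RealT

open RealT in
/-- T9c: transfer to real lines -/
theorem real_of_complex (h : ComplexStmt) : ∀ δ : ℝ, 0 < δ → ∃ ε : ℝ, 0 < ε ∧ ∃ n0 : ℕ,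
    ∀ L : Set (AffineSubspace ℝ E3), L.Finite → (∀ l ∈ L, IsLine l) → n0 ≤ L.ncard →
    (√2 / 3 - ε) * (L.ncard : ℝ) ^ (3 / 2 : ℝ) ≤ numJoints L →
    ∃ H : Set (AffineSubspace ℝ E3), H.Finite ∧ (∀ P ∈ H, IsPlane P) ∧
      (H.ncard : ℝ) ≤ (1 + δ) * √(2 * L.ncard) ∧
      ((symmDiff L (planeLines H)).ncard : ℝ) ≤ δ * L.ncard ∧
      (√2 / 3 - δ) * (L.ncard : ℝ) ^ (3 / 2 : ℝ) ≤ numJoints (L ∩ planeLines H) := by
  classical
  intro δ hδ
  set δ' := min δ 1 / 14 with hδ'
  have hδ'0 : 0 < δ' := by positivity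
  have hδ'1 : 14 * δ' ≤ δ := by
    have := min_le_left δ 1
    rw [hδ']; linarith
  have hδ'2 : 14 * δ' ≤ 1 := by
    have := min_le_right δ 1
    rw [hδ']; linarith
  obtain ⟨εc, hεc, N0, hN0⟩ := h δ' hδ'0
  set ε := min (εc / 5) (min (δ / 2) (1 / 3)) with hε
  have hε0 : 0 < ε := by positivity
  have hε1 : 5 * ε ≤ εc := by
    have := min_le_left (εc / 5) (min (δ / 2) (1 / 3))
    linarith
  have hε2 : ε ≤ δ / 2 := (min_le_right _ _).trans (min_le_left _ _)
  have hε3 : ε ≤ 1 / 3 := (min_le_right _ _).trans (min_le_right _ _)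
  refine ⟨ε, hε0, max N0 (⌈8 / δ' ^ 2⌉₊ + 1), fun L hL hline hn hJ => ?_⟩
  obtain ⟨s, A, V, c, tr, hAV, hcL, hcJ, hJfin, htr⟩ := exists_cfg hL hline
  set F : AffineSubspace ℝ E3 → Ln := fun l => mkLn (A l) (V l) with hF
  have hFinj : Set.InjOn F L := fun l hl l' hl' e => mkLn_inj (hAV l hl) (hAV l' hl') e
  have hcard : c.L.card = L.ncard := by
    rw [← Set.ncard_coe_finset, hcL, hFinj.ncard_image]
  have hcardJ : c.J.card = numJoints L := by
    rw [← Set.ncard_coe_finset, hcJ, Set.ncard_image_of_injective _ (toPt_injective s)]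
    rfl
  set N : ℝ := (L.ncard : ℝ) with hN
  have hn1 : N0 ≤ L.ncard := (le_max_left _ _).trans hn
  have hn2 : ⌈8 / δ' ^ 2⌉₊ + 1 ≤ L.ncard := (le_max_right _ _).trans hn
  have hN8 : 8 / δ' ^ 2 ≤ N := by
    have h1 := Nat.le_ceil (8 / δ' ^ 2)
    have h2 : ((⌈8 / δ' ^ 2⌉₊ : ℕ) : ℝ) ≤ N := by
      rw [hN]; exact_mod_cast (by omega : ⌈8 / δ' ^ 2⌉₊ ≤ L.ncard)
    linarith
  have hNpos : 0 < N := lt_of_lt_of_le (by positivity) hN8
  set m : ℝ := √(2 * N) with hm
  have hmc : c.m = m := by rw [Cfg.m, hcard]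
  have hm0 : 0 ≤ m := Real.sqrt_nonneg _
  have hm2 : m ^ 2 = 2 * N := Real.sq_sqrt (by positivity)
  -- powers
  set R : ℝ := N ^ (3 / 2 : ℝ) with hR
  have hR0 : 0 ≤ R := Real.rpow_nonneg hNpos.le _
  have hR2 : R ^ 2 = N ^ 3 := by
    rw [hR, ← Real.rpow_natCast, ← Real.rpow_mul hNpos.le, ← Real.rpow_natCast]
    norm_num
  have hs2 : √2 ^ 2 = 2 := Real.sq_sqrt (by norm_num)
  have hs2a : 1.4 ≤ √2 := Real.le_sqrt_of_sq_le (by norm_num)
  have hs2b : √2 ≤ 1.5 := by
    rw [Real.sqrt_le_left (by norm_num)]; norm_num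
  have hm3 : m ^ 3 ≤ 3 * R := by
    have h1 : (m ^ 3) ^ 2 ≤ (3 * R) ^ 2 := by
      have e1 : (m ^ 3) ^ 2 = (m ^ 2) ^ 3 := by ring
      rw [e1, hm2, mul_pow 3 R 2, hR2]
      nlinarith [pow_pos hNpos 3]
    exact le_of_sq_le_sq h1 (by positivity)
  -- the hypothesis of the complex statement
  have hhyp : 2 * (1 - εc) * (c.L.card : ℝ) ^ 3 ≤ 9 * (c.J.card : ℝ) ^ 2 := by
    rw [hcard, hcardJ, ← hN, ← hR2]
    have h1 : 0 ≤ √2 / 3 - ε := by linarith
    have h2 : ((√2 / 3 - ε) * R) ^ 2 ≤ (numJoints L : ℝ) ^ 2 :=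
      pow_le_pow_left₀ (mul_nonneg h1 hR0) hJ 2
    have h3 : 2 * (1 - εc) ≤ 9 * (√2 / 3 - ε) ^ 2 := by nlinarith
    have h4 : 2 * (1 - εc) * R ^ 2 ≤ 9 * (√2 / 3 - ε) ^ 2 * R ^ 2 := by gcongr
    calc 2 * (1 - εc) * R ^ 2 ≤ 9 * (√2 / 3 - ε) ^ 2 * R ^ 2 := h4
      _ = 9 * ((√2 / 3 - ε) * R) ^ 2 := by ring
      _ ≤ 9 * (numJoints L : ℝ) ^ 2 := by gcongr
  obtain ⟨P, hP1, hPa, hPc, hPb, hPs⟩ := hN0 c (by rw [hcard]; exact hn1) hhyp
  rw [hmc] at hPc hPs
  rw [hcard] at hPb
  -- linear forms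
  have hlin : ∀ p ∈ P, ∃ (a : Pt) (d : ℂ), a ≠ 0 ∧ p = linF a d := fun p hp => exists_linF (hP1 p hp)
  choose! a d ha hp using hlin
  set Z : P3 → AffineSubspace ℝ E3 := fun p => Zs s (a p) (d p) with hZ
  have hZle : ∀ l ∈ L, ∀ p ∈ P, p ∈ (F l).I → l ≤ Z p := by
    intro l hl p hpP hpI
    apply le_Zs_of_mem_I (hAV l hl)
    rw [← hp p hpP]
    exact hpI
  set H : Set (AffineSubspace ℝ E3) := {Q | ∃ p ∈ P, Q = Z p ∧ IsPlane Q} with hH
  have hHsub : H ⊆ Z '' (P : Set P3) := by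
    rintro Q ⟨p, hpP, rfl, _⟩
    exact ⟨p, hpP, rfl⟩
  have hHfin : H.Finite := (P.finite_toSet.image Z).subset hHsub
  have hHcard : H.ncard ≤ P.card := by
    calc H.ncard ≤ (Z '' (P : Set P3)).ncard := Set.ncard_le_ncard hHsub (P.finite_toSet.image Z)
      _ ≤ (P : Set P3).ncard := Set.ncard_image_le P.finite_toSet
      _ = P.card := Set.ncard_coe_finset P
  have hHle : (H.ncard : ℝ) ≤ (1 + δ') * m := by
    refine le_trans ?_ hPc
    exact_mod_cast hHcard
  obtain ⟨hplfin, hplcard⟩ := ncard_planeLines hHfin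
  set pl := planeLines H with hpl
  -- bad lines
  set Bd : Set (AffineSubspace ℝ E3) := {l ∈ L | ¬ ∃ p ∈ P, ∃ p' ∈ P, p ≠ p' ∧ p ∈ (F l).I ∧
    p' ∈ (F l).I} with hBd
  have hBdcard : (Bd.ncard : ℝ) ≤ δ' * N := by
    refine le_trans ?_ hPb
    have h1 : F '' Bd = {l ∈ (c.L : Set Ln) | ¬ ∃ p ∈ P, ∃ p' ∈ P, p ≠ p' ∧ p ∈ l.I ∧ p' ∈ l.I} := by
      rw [hcL]
      ext l
      constructor
      · rintro ⟨l', ⟨hl', hb⟩, rfl⟩
        exact ⟨⟨l', hl', rfl⟩, hb⟩
      · rintro ⟨⟨l', hl', rfl⟩, hb⟩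
        exact ⟨l', ⟨hl', hb⟩, rfl⟩
    rw [← h1, (hFinj.mono (fun l hl => hl.1)).ncard_image]
  set NR : Set (AffineSubspace ℝ E3) := {l ∈ L | l ∉ Bd ∧ l ∉ pl} with hNR
  have hNR1 : ∀ l ∈ NR, ∃ p ∈ P, ¬ IsPlane (Z p) ∧ l ≤ Z p := by
    rintro l ⟨hl, hb, hnp⟩
    have hb' : ∃ p ∈ P, ∃ p' ∈ P, p ≠ p' ∧ p ∈ (F l).I ∧ p' ∈ (F l).I := by
      by_contra hcon
      exact hb ⟨hl, hcon⟩
    obtain ⟨p, hpP, p', hpP', hne, hpI, hpI'⟩ := hb'
    have hle := hZle l hl p hpP hpI
    have hle' := hZle l hl p' hpP' hpI'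
    by_cases h1 : IsPlane (Z p)
    · by_cases h2 : IsPlane (Z p')
      · exfalso
        apply hnp
        have hneZ : Z p ≠ Z p' := by
          intro hZe
          apply hne
          apply hPa p hpP p' hpP'
          obtain ⟨c', hc', e1, e2⟩ := prop_of_Zs_eq (ha p hpP) (ha p' hpP') h1 hZe
          rw [hp p hpP, hp p' hpP', e1, e2]
          exact assoc_linF hc'
        exact ⟨Z p, ⟨p, hpP, rfl, h1⟩, Z p', ⟨p', hpP', rfl, h2⟩, hneZ,
          line_eq_inf (hline l hl) h1 h2 hneZ hle hle'⟩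
      · exact ⟨p', hpP', h2, hle'⟩
    · exact ⟨p, hpP, h1, hle⟩
  have hNRcard : NR.ncard ≤ P.card := by
    choose! g hg1 hg2 hg3 using hNR1
    rw [← Set.ncard_coe_finset P]
    apply Set.ncard_le_ncard_of_injOn g hg1 _ P.finite_toSet
    intro l hl l' hl' e
    by_contra hne
    apply hg2 l hl
    apply isPlane_of_two_lines (ha _ (hg1 l hl)) (hline l hl.1) (hline l' hl'.1) hne (hg3 l hl)
    have := hg3 l' hl'
    rw [← e] at this
    exact this
  have hdiff : L \ pl ⊆ Bd ∪ NR := by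
    rintro l ⟨hl, hnp⟩
    by_cases hb : l ∈ Bd
    · exact Or.inl hb
    · exact Or.inr ⟨hl, hb, hnp⟩
  have hBdfin : Bd.Finite := hL.subset fun l hl => hl.1
  have hNRfin : NR.Finite := hL.subset fun l hl => hl.1
  have hmN : (1 + δ') * m ≤ δ' * N := by
    have h1 : (1 + δ') * m ≤ 2 * m := by
      have : 1 + δ' ≤ 2 := by linarith
      gcongr
    have h2 : 8 ≤ δ' ^ 2 * N := by
      rw [div_le_iff₀ (by positivity)] at hN8
      linarith
    have h3 : (2 * m) ^ 2 ≤ (δ' * N) ^ 2 := by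
      have e1 : (2 * m) ^ 2 = 8 * N := by rw [mul_pow, hm2]; ring
      have e2 : (δ' * N) ^ 2 = (δ' ^ 2 * N) * N := by ring
      rw [e1, e2]
      gcongr
    exact h1.trans (le_of_sq_le_sq h3 (by positivity))
  have hdiffcard : ((L \ pl).ncard : ℝ) ≤ 2 * δ' * N := by
    have h1 : (L \ pl).ncard ≤ Bd.ncard + NR.ncard :=
      (Set.ncard_le_ncard hdiff (hBdfin.union hNRfin)).trans (Set.ncard_union_le _ _)
    have h2 : ((L \ pl).ncard : ℝ) ≤ Bd.ncard + NR.ncard := by exact_mod_cast h1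
    have h3 : (NR.ncard : ℝ) ≤ P.card := by exact_mod_cast hNRcard
    linarith
  have hsplitL := Set.ncard_inter_add_ncard_sdiff_eq_ncard L pl hL
  have hsplitP := Set.ncard_inter_add_ncard_sdiff_eq_ncard pl L hplfin
  rw [Set.inter_comm pl L] at hsplitP
  have hsL : ((L ∩ pl).ncard : ℝ) + (L \ pl).ncard = N := by
    rw [hN]; exact_mod_cast hsplitL
  have hsP : ((L ∩ pl).ncard : ℝ) + (pl \ L).ncard = pl.ncard := by exact_mod_cast hsplitP
  refine ⟨H, hHfin, ?_, ?_, ?_, ?_⟩
  · rintro Q ⟨p, _, _, hQ⟩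
    exact hQ
  · refine hHle.trans ?_
    have : δ' ≤ δ := by linarith
    gcongr
  · have h1 : symmDiff L pl = (L \ pl) ∪ (pl \ L) := rfl
    have h2 : (symmDiff L pl).ncard ≤ (L \ pl).ncard + (pl \ L).ncard := by
      rw [h1]; exact Set.ncard_union_le _ _
    have h3 : ((symmDiff L pl).ncard : ℝ) ≤ (L \ pl).ncard + (pl \ L).ncard := by exact_mod_cast h2
    have h4 : (pl.ncard : ℝ) ≤ (1 + δ') ^ 2 * N := by
      calc (pl.ncard : ℝ) ≤ (H.ncard : ℝ) ^ 2 / 2 := hplcard
        _ ≤ ((1 + δ') * m) ^ 2 / 2 := by gcongr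
        _ = (1 + δ') ^ 2 * N := by rw [mul_pow, hm2]; ring
    have h5 : (1 + δ') ^ 2 ≤ 1 + 3 * δ' := by nlinarith
    have h6 : (1 + δ') ^ 2 * N ≤ (1 + 3 * δ') * N := by gcongr
    have h7 : 7 * δ' * N ≤ δ * N := by
      gcongr; linarith
    nlinarith
  · -- joints
    set Js : Set E3 := {x | IsJoint L x} with hJs
    set Js' : Set E3 := {x | IsJoint (L ∩ pl) x} with hJs'
    set Lost : Set E3 := {x | IsJoint L x ∧ ∃ i, tr x i ∉ pl} with hLost
    have hsub : Js ⊆ Js' ∪ Lost := by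
      intro x hx
      obtain ⟨t1, t2, t3, _⟩ := htr x hx
      by_cases hall : ∃ i, tr x i ∉ pl
      · exact Or.inr ⟨hx, hall⟩
      · push Not at hall
        left
        refine ⟨tr x 0, ⟨t1 0, hall 0⟩, tr x 1, ⟨t1 1, hall 1⟩, tr x 2, ⟨t1 2, hall 2⟩,
          t2 0, t2 1, t2 2, V (tr x 0), (hAV _ (t1 0)).2.2.1, V (tr x 1), (hAV _ (t1 1)).2.2.1,
          V (tr x 2), (hAV _ (t1 2)).2.2.1, ?_⟩
        convert t3 using 1
        ext i : 1
        fin_cases i <;> rfl
    have hsub' : Js' ⊆ Js := by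
      rintro x ⟨l1, h1, l2, h2, l3, h3, hrest⟩
      exact ⟨l1, h1.1, l2, h2.1, l3, h3.1, hrest⟩
    have hJs'fin : Js'.Finite := hJfin.subset hsub'
    have hLostfin : Lost.Finite := hJfin.subset fun x hx => hx.1
    have h1 : (numJoints L : ℝ) ≤ numJoints (L ∩ pl) + Lost.ncard := by
      have : Js.ncard ≤ Js'.ncard + Lost.ncard :=
        (Set.ncard_le_ncard hsub (hJs'fin.union hLostfin)).trans (Set.ncard_union_le _ _)
      exact_mod_cast this
    set B : Finset (AffineSubspace ℝ E3) := hL.toFinset.filter (fun l => l ∉ pl) with hB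
    have hBmem : ∀ l, l ∈ B ↔ l ∈ L ∧ l ∉ pl := by
      intro l; simp [hB]
    have hBcard : (B.card : ℝ) ≤ 2 * δ' * N := by
      have : B.card = (L \ pl).ncard := by
        rw [← Set.ncard_coe_finset]
        congr 1
        ext l
        simp [hBmem]
      rw [this]; exact hdiffcard
    have hFB : Set.InjOn F (B : Set (AffineSubspace ℝ E3)) :=
      hFinj.mono fun l hl => ((hBmem l).mp hl).1
    have h2 : (Lost.ncard : ℝ) ≤ ∑ l ∈ B.image F, ((c.on l).card : ℝ) := by
      have h3 : toPt s '' Lost ⊆ (((B.image F).biUnion fun l => c.on l : Finset Pt) : Set Pt) := by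
        rintro q ⟨x, ⟨hx, i, hi⟩, rfl⟩
        obtain ⟨t1, t2, t3, t4⟩ := htr x hx
        simp only [Finset.coe_biUnion, Set.mem_iUnion, Finset.mem_coe]
        refine ⟨F (tr x i), Finset.mem_image_of_mem _ ((hBmem _).mpr ⟨t1 i, hi⟩), ?_⟩
        unfold Cfg.on
        rw [Finset.mem_filter]
        refine ⟨?_, i, t4 i⟩
        have : toPt s x ∈ (c.J : Set Pt) := by rw [hcJ]; exact ⟨x, hx, rfl⟩
        exact this
      have h4 : Lost.ncard ≤ ∑ l ∈ B.image F, (c.on l).card := by
        rw [← Set.ncard_image_of_injective Lost (toPt_injective s)]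
        refine (Set.ncard_le_ncard h3 (Finset.finite_toSet _)).trans ?_
        rw [Set.ncard_coe_finset]
        exact Finset.card_biUnion_le
      exact_mod_cast h4
    have h5 : ∑ l ∈ B.image F, ((c.on l).card : ℝ) ≤ B.card * m + δ' * m ^ 3 := by
      calc ∑ l ∈ B.image F, ((c.on l).card : ℝ)
          ≤ ∑ l ∈ B.image F, (m + |((c.on l).card : ℝ) - m|) := by
            refine Finset.sum_le_sum fun l _ => ?_
            have := le_abs_self (((c.on l).card : ℝ) - m)
            linarith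
        _ = (B.image F).card * m + ∑ l ∈ B.image F, |((c.on l).card : ℝ) - m| := by
            rw [Finset.sum_add_distrib, Finset.sum_const, nsmul_eq_mul]
        _ ≤ B.card * m + δ' * m ^ 3 := by
            have e1 : (B.image F).card ≤ B.card := Finset.card_image_le
            have e2 : ((B.image F).card : ℝ) ≤ B.card := by exact_mod_cast e1
            have e3 : ∑ l ∈ B.image F, |((c.on l).card : ℝ) - m| ≤
                ∑ l ∈ c.L, |((c.on l).card : ℝ) - m| := by
              apply Finset.sum_le_sum_of_subset_of_nonneg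
              · intro l hl
                rw [Finset.mem_image] at hl
                obtain ⟨l', hl', rfl⟩ := hl
                have : F l' ∈ (c.L : Set Ln) := by
                  rw [hcL]; exact ⟨l', ((hBmem _).mp hl').1, rfl⟩
                exact this
              · intro _ _ _; exact abs_nonneg _
            have e4 : ((B.image F).card : ℝ) * m ≤ B.card * m := by gcongr
            linarith
    have h6 : (B.card : ℝ) * m ≤ δ' * m ^ 3 := by
      calc (B.card : ℝ) * m ≤ (2 * δ' * N) * m := by gcongr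
        _ = δ' * m ^ 3 := by
            have : m ^ 3 = m ^ 2 * m := by ring
            rw [this, hm2]; ring
    have h7 : (Lost.ncard : ℝ) ≤ 6 * δ' * R := by nlinarith
    have h8 : 6 * δ' * R ≤ δ / 2 * R := by
      gcongr; linarith
    have h9 : ε * R ≤ δ / 2 * R := by gcongr
    have e : (√2 / 3 - δ) * R = (√2 / 3 - ε) * R + ε * R - δ * R := by ring
    rw [e]
    linarith

end Pool.Agent.Lib.MP_a8d5c3_co.Stab
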