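import Mathlib
import Pool.Agent.Lib.MP_a8d5c3_co.Stab.Asm
import Pool.Agent.Lib.MP_a8d5c3_co.Stab.Real
import Pool.Agent.Lib.MP_a8d5c3_co.Stab.Clique
import Pool.Agent.Lib.MP_a8d5c3_co.Stab.Quadric
import Pool.Agent.Lib.MP_a8d5c3_co.Stab.Minor

/-!
Stability of near-extremal joints configurations: all modules put together.
-/

set_option autoImplicit false

namespace Pool.Agent.Lib.MP_a8d5c3_co.Stab

open Pool.Agent.Lib.MP_a8d5c3_co

theorem complex_stability : ComplexStmt :=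
  complexStmt (surfStmt jointsLe regularity (existsG jointsLe) bezout) minor bezout quadricStmt clique

theorem real_stability (δ : ℝ) (hδ : 0 < δ) : ∃ ε : ℝ, 0 < ε ∧ ∃ n0 : ℕ,
    ∀ L : Set (AffineSubspace ℝ E3), L.Finite → (∀ l ∈ L, IsLine l) → n0 ≤ L.ncard →
    (√2 / 3 - ε) * (L.ncard : ℝ) ^ (3 / 2 : ℝ) ≤ numJoints L →
    ∃ H : Set (AffineSubspace ℝ E3), H.Finite ∧ (∀ P ∈ H, IsPlane P) ∧
      (H.ncard : ℝ) ≤ (1 + δ) * √(2 * L.ncard) ∧
      ((symmDiff L (planeLines H)).ncard : ℝ) ≤ δ * L.ncard ∧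
      (√2 / 3 - δ) * (L.ncard : ℝ) ^ (3 / 2 : ℝ) ≤ numJoints (L ∩ planeLines H) :=
  real_of_complex complex_stability δ hδ

end Pool.Agent.Lib.MP_a8d5c3_co.Stab
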