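import Mathlib
import Pool.Agent.Lib.MP_a8d5c3_co.Stab.Final
import Pool.Agent.Lib.MP_a8d5c3_co.BadTriples

/-!
Asymptotic genericity of the planes of a near-extremal configuration.
-/

set_option autoImplicit false

namespace Pool.Agent.Lib.MP_a8d5c3_co

namespace Stab

/-- `p` is the only common point of the members of `τ` -/
def Meet (τ : Finset (AffineSubspace ℝ E3)) (p : E3) : Prop := ∀ x : E3, (∀ P ∈ τ, x ∈ P) ↔ x = p

theorem meet_iff {τ : Finset (AffineSubspace ℝ E3)} {p : E3} :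
    Meet τ p ↔ (∀ P ∈ τ, p ∈ P) ∧ ∀ v : E3, (∀ P ∈ τ, v ∈ P.direction) → v = 0 := by
  constructor
  · intro h
    have hp : ∀ P ∈ τ, p ∈ P := (h p).mpr rfl
    refine ⟨hp, fun v hv => ?_⟩
    have h1 : ∀ P ∈ τ, v +ᵥ p ∈ P := fun P hP =>
      AffineSubspace.vadd_mem_of_mem_direction (hv P hP) (hp P hP)
    have h2 := (h _).mp h1
    rw [vadd_eq_add] at h2
    simpa using h2
  · rintro ⟨hp, hv⟩ x
    constructor
    · intro hx
      have h1 := hv (x -ᵥ p) fun P hP => AffineSubspace.vsub_mem_direction (hx P hP) (hp P hP)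
      rw [vsub_eq_sub] at h1
      exact sub_eq_zero.mp h1
    · rintro rfl; exact hp

theorem finrank_inf_ge {A B : Submodule ℝ E3} (hA : Module.finrank ℝ A = 2)
    (hB : Module.finrank ℝ B = 2) : 1 ≤ Module.finrank ℝ (A ⊓ B : Submodule ℝ E3) := by
  have h1 := Submodule.finrank_sup_add_finrank_inf_eq A B
  have h2 := Submodule.finrank_le (A ⊔ B)
  have h3 : Module.finrank ℝ E3 = 3 := by simp
  omega

theorem finrank_le_one {A B : Submodule ℝ E3} (hA : Module.finrank ℝ A = 2)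
    (h : A ⊓ B = ⊥) : Module.finrank ℝ B ≤ 1 := by
  have h1 := Submodule.finrank_sup_add_finrank_inf_eq A B
  rw [h, finrank_bot] at h1
  have h2 := Submodule.finrank_le (A ⊔ B)
  have h3 : Module.finrank ℝ E3 = 3 := by simp
  omega

theorem le_of_inf_ne {A B : Submodule ℝ E3} (hB : Module.finrank ℝ B = 1)
    (h : A ⊓ B ≠ ⊥) : B ≤ A := by
  have h1 : 1 ≤ Module.finrank ℝ (A ⊓ B : Submodule ℝ E3) := by
    rw [Nat.one_le_iff_ne_zero]
    intro h0
    exact h (Submodule.finrank_eq_zero.mp h0)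
  have h2 : A ⊓ B = B := Submodule.eq_of_le_of_finrank_le inf_le_right (by rw [hB]; exact h1)
  rw [← h2]; exact inf_le_left

theorem exchange_sub {A B C D : Submodule ℝ E3} (hA : Module.finrank ℝ A = 2)
    (hB : Module.finrank ℝ B = 2) (hC : Module.finrank ℝ C = 2) (hD : Module.finrank ℝ D = 2)
    (h : A ⊓ (B ⊓ C) = ⊥) (hne : D ≠ C) : D ⊓ (B ⊓ C) = ⊥ ∨ D ⊓ (A ⊓ C) = ⊥ := by
  by_contra hcon
  push Not at hcon
  have h' : B ⊓ (A ⊓ C) = ⊥ := by rw [← h, inf_left_comm]
  have a1 : Module.finrank ℝ (B ⊓ C : Submodule ℝ E3) = 1 :=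
    le_antisymm (finrank_le_one hA h) (finrank_inf_ge hB hC)
  have a2 : Module.finrank ℝ (A ⊓ C : Submodule ℝ E3) = 1 :=
    le_antisymm (finrank_le_one hB h') (finrank_inf_ge hA hC)
  have b1 := le_of_inf_ne a1 hcon.1
  have b2 := le_of_inf_ne a2 hcon.2
  have c1 := Submodule.finrank_sup_add_finrank_inf_eq (B ⊓ C) (A ⊓ C)
  have c2 : (B ⊓ C) ⊓ (A ⊓ C) = ⊥ := by
    rw [eq_bot_iff, ← h]
    intro x hx
    obtain ⟨⟨x1, x2⟩, x3, x4⟩ := hx
    exact ⟨x3, x1, x2⟩
  rw [c2, finrank_bot, a1, a2] at c1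
  have c3 : (B ⊓ C) ⊔ (A ⊓ C) = C :=
    Submodule.eq_of_le_of_finrank_eq (sup_le inf_le_right inf_le_right) (by rw [hC]; omega)
  have c4 : C ≤ D := by rw [← c3]; exact sup_le b1 b2
  exact hne (Submodule.eq_of_le_of_finrank_eq c4 (by rw [hC, hD])).symm

open Classical in
theorem meet_three {P Q R : AffineSubspace ℝ E3} {p : E3} :
    Meet {P, Q, R} p ↔ p ∈ P ∧ p ∈ Q ∧ p ∈ R ∧ P.direction ⊓ (Q.direction ⊓ R.direction) = ⊥ := by
  rw [meet_iff]
  simp only [Finset.mem_insert, Finset.mem_singleton, forall_eq_or_imp, forall_eq]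
  constructor
  · rintro ⟨⟨h1, h2, h3⟩, h4⟩
    refine ⟨h1, h2, h3, ?_⟩
    rw [eq_bot_iff]
    rintro v ⟨v1, v2, v3⟩
    exact (Submodule.mem_bot ℝ).mpr (h4 v ⟨v1, v2, v3⟩)
  · rintro ⟨h1, h2, h3, h4⟩
    refine ⟨⟨h1, h2, h3⟩, fun v hv => ?_⟩
    have : v ∈ P.direction ⊓ (Q.direction ⊓ R.direction) := ⟨hv.1, hv.2.1, hv.2.2⟩
    rw [h4] at this
    exact (Submodule.mem_bot ℝ).mp this

/-- exchange -/
theorem exchange {H : Set (AffineSubspace ℝ E3)} (hH : ∀ P ∈ H, IsPlane P)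
    {τ : Finset (AffineSubspace ℝ E3)} (hτ : (τ : Set (AffineSubspace ℝ E3)) ⊆ H)
    (h3 : τ.card = 3) {p : E3} (hm : Meet τ p) {S : AffineSubspace ℝ E3} (hS : S ∈ H) (hpS : p ∈ S)
    (hSτ : S ∉ τ) : ∃ τ' : Finset (AffineSubspace ℝ E3), (τ' : Set (AffineSubspace ℝ E3)) ⊆ H ∧
      τ'.card = 3 ∧ Meet τ' p ∧ τ' ≠ τ := by
  classical
  obtain ⟨P, Q, R, hPQ, hPR, hQR, rfl⟩ := Finset.card_eq_three.mp h3
  have hP : P ∈ H := hτ (by simp)
  have hQ : Q ∈ H := hτ (by simp)
  have hR : R ∈ H := hτ (by simp)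
  simp only [Finset.mem_insert, Finset.mem_singleton, not_or] at hSτ
  obtain ⟨hSP, hSQ, hSR⟩ := hSτ
  obtain ⟨pP, pQ, pR, hbot⟩ := meet_three.mp hm
  have hne : S.direction ≠ R.direction := fun h =>
    hSR (AffineSubspace.ext_of_direction_eq h ⟨p, hpS, pR⟩)
  rcases exchange_sub (hH P hP).2 (hH Q hQ).2 (hH R hR).2 (hH S hS).2 hbot hne with h | h
  · refine ⟨{S, Q, R}, ?_, Finset.card_eq_three.mpr ⟨S, Q, R, hSQ, hSR, hQR, rfl⟩,
      meet_three.mpr ⟨hpS, pQ, pR, h⟩, ?_⟩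
    · intro X hX
      simp only [Finset.coe_insert, Finset.coe_singleton, Set.mem_insert_iff,
        Set.mem_singleton_iff] at hX
      rcases hX with rfl | rfl | rfl <;> assumption
    · intro h1
      have : S ∈ ({P, Q, R} : Finset (AffineSubspace ℝ E3)) := by rw [← h1]; simp
      simp only [Finset.mem_insert, Finset.mem_singleton] at this
      tauto
  · refine ⟨{S, P, R}, ?_, Finset.card_eq_three.mpr ⟨S, P, R, hSP, hSR, hPR, rfl⟩,
      meet_three.mpr ⟨hpS, pP, pR, h⟩, ?_⟩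
    · intro X hX
      simp only [Finset.coe_insert, Finset.coe_singleton, Set.mem_insert_iff,
        Set.mem_singleton_iff] at hX
      rcases hX with rfl | rfl | rfl <;> assumption
    · intro h1
      have : S ∈ ({P, Q, R} : Finset (AffineSubspace ℝ E3)) := by rw [← h1]; simp
      simp only [Finset.mem_insert, Finset.mem_singleton] at this
      tauto

/-- a joint of intersection lines lies on three planes meeting only there -/
theorem exists_meet {H L : Set (AffineSubspace ℝ E3)}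
    (hL : L ⊆ planeLines H) (hline : ∀ l ∈ L, IsLine l) {p : E3} (hp : IsJoint L p) :
    ∃ τ : Finset (AffineSubspace ℝ E3), (τ : Set (AffineSubspace ℝ E3)) ⊆ H ∧
      τ.card = 3 ∧ Meet τ p := by
  classical
  obtain ⟨l1, h1, l2, h2, l3, h3, p1, p2, p3, v1, hv1, v2, hv2, v3, hv3, hind⟩ := hp
  obtain ⟨P, hP, Q, hQ, hPQ, e1⟩ := hL h1
  obtain ⟨P2, hP2, Q2, hQ2, hPQ2, e2⟩ := hL h2
  have pP : p ∈ P := by rw [e1] at p1; exact p1.1
  have pQ : p ∈ Q := by rw [e1] at p1; exact p1.2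
  have pP2 : p ∈ P2 := by rw [e2] at p2; exact p2.1
  have pQ2 : p ∈ Q2 := by rw [e2] at p2; exact p2.2
  have d1 : l1.direction = P.direction ⊓ Q.direction := by
    rw [e1]; exact AffineSubspace.direction_inf_of_mem pP pQ
  have d2 : l2.direction = P2.direction ⊓ Q2.direction := by
    rw [e2]; exact AffineSubspace.direction_inf_of_mem pP2 pQ2
  have f1 := (hline l1 h1).2
  have f2 := (hline l2 h2).2
  have hnle : ¬ l1.direction ≤ l2.direction := by
    intro hle
    have heq : l1.direction = l2.direction := Submodule.eq_of_le_of_finrank_eq hle (by rw [f1, f2])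
    have hv1' : v1 ∈ l2.direction := hle hv1
    have hne2 : (⟨v2, hv2⟩ : l2.direction) ≠ 0 := by
      intro h0
      exact hind.ne_zero 1 (congrArg Subtype.val h0)
    obtain ⟨c, hc⟩ := exists_smul_eq_of_finrank_eq_one f2 hne2 ⟨v1, hv1'⟩
    have hc' : c • v2 = v1 := congrArg Subtype.val hc
    have h5 := Fintype.linearIndependent_iff.mp hind ![1, -c, 0] (by
      rw [Fin.sum_univ_three]
      simp [← hc'])
    have h6 := h5 0
    simp at h6
  have hex : ∃ R ∈ H, p ∈ R ∧ ¬ l1.direction ≤ R.direction := by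
    by_contra hcon
    push Not at hcon
    apply hnle
    rw [d2]
    exact le_inf (hcon P2 hP2 pP2) (hcon Q2 hQ2 pQ2)
  obtain ⟨R, hR, pR, hnR⟩ := hex
  have hPR : P ≠ R := by
    rintro rfl; apply hnR; rw [d1]; exact inf_le_left
  have hQR : Q ≠ R := by
    rintro rfl; apply hnR; rw [d1]; exact inf_le_right
  refine ⟨{P, Q, R}, ?_, Finset.card_eq_three.mpr ⟨P, Q, R, hPQ, hPR, hQR, rfl⟩,
    meet_three.mpr ⟨pP, pQ, pR, ?_⟩⟩
  · intro X hX
    simp only [Finset.coe_insert, Finset.coe_singleton, Set.mem_insert_iff,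
      Set.mem_singleton_iff] at hX
    rcases hX with rfl | rfl | rfl <;> assumption
  · rw [← inf_assoc, ← d1, inf_comm]
    by_contra hne
    exact hnR (le_of_inf_ne f1 hne)

theorem meet_unique {τ : Finset (AffineSubspace ℝ E3)} {p q : E3} (hp : Meet τ p) (hq : Meet τ q) :
    p = q := (hq p).mp ((hp p).mpr rfl)

theorem joints_finite {L : Set (AffineSubspace ℝ E3)} (hL : L.Finite) (hline : ∀ l ∈ L, IsLine l) :
    {x | IsJoint L x}.Finite := by
  obtain ⟨_, _, _, _, _, _, _, _, h, _⟩ := RealT.exists_cfg hL hline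
  exact h

/-- many joints on intersection lines force most triples to be in general position -/
theorem bad_le {H L : Set (AffineSubspace ℝ E3)} (hHf : H.Finite) (hH : ∀ P ∈ H, IsPlane P)
    (hL : L ⊆ planeLines H) (hLf : L.Finite) (hline : ∀ l ∈ L, IsLine l) :
    (badTriples H).ncard + 2 * numJoints L ≤ 2 * H.ncard.choose 3 := by
  classical
  set T := hHf.toFinset.powersetCard 3 with hT
  have hTmem : ∀ τ, τ ∈ T ↔ (τ : Set (AffineSubspace ℝ E3)) ⊆ H ∧ τ.card = 3 := by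
    intro τ
    rw [hT, Finset.mem_powersetCard]
    refine and_congr_left fun _ => ?_
    rw [← Finset.coe_subset, Set.Finite.coe_toFinset]
  have hTc : T.card = H.ncard.choose 3 := by
    rw [hT, Finset.card_powersetCard, Set.ncard_eq_toFinset_card H hHf]
  have hJf := joints_finite hLf hline
  set J := hJf.toFinset with hJ
  have hJmem : ∀ p, p ∈ J ↔ IsJoint L p := fun p => by simp [hJ]
  have hJc : J.card = numJoints L := by
    rw [numJoints, hJ, Set.ncard_eq_toFinset_card _ hJf]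
  have hex : ∀ p ∈ J, ∃ τ ∈ T, Meet τ p := by
    intro p hp
    obtain ⟨τ, h1, h2, h3⟩ := exists_meet hL hline ((hJmem p).mp hp)
    exact ⟨τ, (hTmem τ).mpr ⟨h1, h2⟩, h3⟩
  choose! f hfT hfm using hex
  set Bd := J.filter fun p => f p ∈ badTriples H with hBd
  have hex2 : ∀ p ∈ Bd, ∃ τ ∈ T, Meet τ p ∧ τ ≠ f p := by
    intro p hp
    obtain ⟨hpJ, hbad⟩ := Finset.mem_filter.mp hp
    obtain ⟨h1, h2, h3⟩ := hbad
    have h4 : ∃ S ∈ H, p ∈ S ∧ S ∉ f p := by
      by_contra hcon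
      push Not at hcon
      exact h3 ⟨p, hfm p hpJ, hcon⟩
    obtain ⟨S, hS, hpS, hSf⟩ := h4
    obtain ⟨τ', a1, a2, a3, a4⟩ := exchange hH h1 h2 (hfm p hpJ) hS hpS hSf
    exact ⟨τ', (hTmem τ').mpr ⟨a1, a2⟩, a3, a4⟩
  choose! g hgT hgm hgne using hex2
  have hBJ : Bd ⊆ J := Finset.filter_subset _ _
  have hfinj : Set.InjOn f (J : Set E3) := by
    intro p hp q hq h
    exact meet_unique (hfm p hp) (h ▸ hfm q hq)
  have hginj : Set.InjOn g (Bd : Set E3) := by
    intro p hp q hq h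
    exact meet_unique (hgm p hp) (h ▸ hgm q hq)
  have h1 : J.card + Bd.card ≤ T.card := by
    have hdisj : Disjoint (J.image f) (Bd.image g) := by
      rw [Finset.disjoint_left]
      intro τ h2 h3
      obtain ⟨p, hp, rfl⟩ := Finset.mem_image.mp h2
      obtain ⟨q, hq, h4⟩ := Finset.mem_image.mp h3
      have : p = q := meet_unique (hfm p hp) (h4 ▸ hgm q hq)
      subst this
      exact hgne p hq h4
    rw [← Finset.card_image_of_injOn hfinj, ← Finset.card_image_of_injOn hginj,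
      ← Finset.card_union_of_disjoint hdisj]
    apply Finset.card_le_card
    intro τ hτ
    rcases Finset.mem_union.mp hτ with h2 | h2
    · obtain ⟨p, hp, rfl⟩ := Finset.mem_image.mp h2
      exact hfT p hp
    · obtain ⟨p, hp, rfl⟩ := Finset.mem_image.mp h2
      exact hgT p hp
  have h2 : (T.filter fun τ => τ ∈ badTriples H).card + (J \ Bd).card ≤ T.card := by
    have hinj2 : Set.InjOn f ((J \ Bd : Finset E3) : Set E3) := fun p hp q hq h =>
      hfinj (Finset.sdiff_subset hp) (Finset.sdiff_subset hq) h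
    have hdisj : Disjoint (T.filter fun τ => τ ∈ badTriples H) ((J \ Bd).image f) := by
      rw [Finset.disjoint_left]
      intro τ h3 h4
      obtain ⟨p, hp, rfl⟩ := Finset.mem_image.mp h4
      obtain ⟨hpJ, hpB⟩ := Finset.mem_sdiff.mp hp
      exact hpB (Finset.mem_filter.mpr ⟨hpJ, (Finset.mem_filter.mp h3).2⟩)
    rw [← Finset.card_image_of_injOn hinj2, ← Finset.card_union_of_disjoint hdisj]
    apply Finset.card_le_card
    intro τ hτ
    rcases Finset.mem_union.mp hτ with h3 | h3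
    · exact (Finset.mem_filter.mp h3).1
    · obtain ⟨p, hp, rfl⟩ := Finset.mem_image.mp h3
      exact hfT p (Finset.mem_sdiff.mp hp).1
  have h3 : (J \ Bd).card + Bd.card = J.card := Finset.card_sdiff_add_card_eq_card hBJ
  have h4 : (badTriples H).ncard = (T.filter fun τ => τ ∈ badTriples H).card := by
    rw [← Set.ncard_coe_finset]
    congr 1
    ext τ
    rw [Finset.mem_coe, Finset.mem_filter]
    refine ⟨fun h => ⟨(hTmem τ).mpr ⟨h.1, h.2.1⟩, h⟩, fun h => h.2⟩
  omega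

open Classical in
/-- three planes meeting in one point give a joint -/
theorem joint_of_meet {L : Set (AffineSubspace ℝ E3)} {P Q R : AffineSubspace ℝ E3}
    (hP : IsPlane P) (hQ : IsPlane Q) (hR : IsPlane R) {p : E3} (hm : Meet {P, Q, R} p)
    (h1 : Q ⊓ R ∈ L) (h2 : P ⊓ R ∈ L) (h3 : P ⊓ Q ∈ L) : IsJoint L p := by
  obtain ⟨pP, pQ, pR, hbot⟩ := meet_three.mp hm
  have hex : ∀ A B : Submodule ℝ E3, Module.finrank ℝ A = 2 → Module.finrank ℝ B = 2 →
      ∃ v, v ∈ A ∧ v ∈ B ∧ v ≠ 0 := by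
    intro A B hA hB
    have h4 := finrank_inf_ge hA hB
    have h5 : (A ⊓ B) ≠ ⊥ := by
      intro h; rw [h, finrank_bot] at h4; omega
    obtain ⟨v, hv, hv0⟩ := (Submodule.ne_bot_iff _).mp h5
    exact ⟨v, hv.1, hv.2, hv0⟩
  obtain ⟨a, aQ, aR, a0⟩ := hex _ _ hQ.2 hR.2
  obtain ⟨b, bP, bR, b0⟩ := hex _ _ hP.2 hR.2
  obtain ⟨c, cP, cQ, c0⟩ := hex _ _ hP.2 hQ.2
  have hz : ∀ v, v ∈ P.direction → v ∈ Q.direction → v ∈ R.direction → v = 0 := by
    intro v v1 v2 v3
    have : v ∈ P.direction ⊓ (Q.direction ⊓ R.direction) := ⟨v1, v2, v3⟩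
    rw [hbot] at this
    exact (Submodule.mem_bot ℝ).mp this
  refine ⟨Q ⊓ R, h1, P ⊓ R, h2, P ⊓ Q, h3, ⟨pQ, pR⟩, ⟨pP, pR⟩, ⟨pP, pQ⟩, a, ?_, b, ?_, c, ?_, ?_⟩
  · rw [AffineSubspace.direction_inf_of_mem pQ pR]; exact ⟨aQ, aR⟩
  · rw [AffineSubspace.direction_inf_of_mem pP pR]; exact ⟨bP, bR⟩
  · rw [AffineSubspace.direction_inf_of_mem pP pQ]; exact ⟨cP, cQ⟩
  · rw [Fintype.linearIndependent_iff]
    intro g hg
    rw [Fin.sum_univ_three] at hg
    simp only [Matrix.cons_val_zero, Matrix.cons_val_one, Matrix.cons_val] at hg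
    have hsm : ∀ (A : Submodule ℝ E3) (r : ℝ) (x y z : E3), r • x + y + z = 0 → y ∈ A → z ∈ A →
        r ≠ 0 → x ∈ A := by
      intro A r x y z h hy hz hr
      have : x = r⁻¹ • (-(y + z)) := by
        rw [eq_inv_smul_iff₀ hr]
        rw [add_assoc] at h
        exact eq_neg_of_add_eq_zero_left h
      rw [this]
      exact A.smul_mem _ (A.neg_mem (A.add_mem hy hz))
    intro i
    fin_cases i
    · by_contra hne
      exact a0 (hz a (hsm _ _ a _ _ hg (P.direction.smul_mem _ bP) (P.direction.smul_mem _ cP) hne)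
        aQ aR)
    · by_contra hne
      refine b0 (hz b bP (hsm _ (g 1) b (g 0 • a) (g 2 • c) ?_ (Q.direction.smul_mem _ aQ)
        (Q.direction.smul_mem _ cQ) hne) bR)
      rw [← hg]; abel
    · by_contra hne
      refine c0 (hz c cP cQ (hsm _ (g 2) c (g 0 • a) (g 1 • b) ?_ (R.direction.smul_mem _ aR)
        (R.direction.smul_mem _ bR) hne))
      rw [← hg]; abel

open Classical in
/-- a triple in general position is determined by one of its lines and the third plane -/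
theorem triple_eq {H : Set (AffineSubspace ℝ E3)} (hH : ∀ P ∈ H, IsPlane P)
    {P Q R : AffineSubspace ℝ E3} (hP : P ∈ H) (hQ : Q ∈ H) {p : E3}
    (hm : Meet {P, Q, R} p) (hpriv : ∀ S ∈ H, p ∈ S → S ∈ ({P, Q, R} : Finset (AffineSubspace ℝ E3))) :
    ((({P, Q, R} : Finset (AffineSubspace ℝ E3))) : Set (AffineSubspace ℝ E3)) =
      {S | S ∈ H ∧ P ⊓ Q ≤ S} ∪ {R} := by
  obtain ⟨pP, pQ, pR, hbot⟩ := meet_three.mp hm
  have hnR : ¬ P ⊓ Q ≤ R := by
    intro hle
    have h1 := AffineSubspace.direction_le hle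
    rw [AffineSubspace.direction_inf_of_mem pP pQ] at h1
    have h2 := finrank_inf_ge (hH P hP).2 (hH Q hQ).2
    have h3 : P.direction ⊓ Q.direction = ⊥ := by
      rw [eq_bot_iff, ← hbot]
      intro v hv
      exact ⟨hv.1, hv.2, h1 hv⟩
    rw [h3, finrank_bot] at h2
    omega
  ext S
  simp only [Finset.coe_insert, Finset.coe_singleton, Set.mem_insert_iff, Set.mem_singleton_iff,
    Set.mem_union, Set.mem_ofPred_eq]
  constructor
  · rintro (rfl | rfl | rfl)
    · exact Or.inl ⟨hP, inf_le_left⟩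
    · exact Or.inl ⟨hQ, inf_le_right⟩
    · exact Or.inr rfl
  · rintro (⟨hS, hle⟩ | rfl)
    · have h4 := hpriv S hS (hle ⟨pP, pQ⟩)
      simpa using h4
    · exact Or.inr (Or.inr rfl)

/-- lower bound for the number of joints -/
theorem joints_ge {H L : Set (AffineSubspace ℝ E3)} (hHf : H.Finite) (hH : ∀ P ∈ H, IsPlane P)
    (hLf : L.Finite) (hline : ∀ l ∈ L, IsLine l) :
    H.ncard.choose 3 ≤ numJoints L + (badTriples H).ncard + (planeLines H \ L).ncard * H.ncard := by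
  classical
  set T := hHf.toFinset.powersetCard 3 with hT
  have hTmem : ∀ τ, τ ∈ T ↔ (τ : Set (AffineSubspace ℝ E3)) ⊆ H ∧ τ.card = 3 := by
    intro τ
    rw [hT, Finset.mem_powersetCard]
    refine and_congr_left fun _ => ?_
    rw [← Finset.coe_subset, Set.Finite.coe_toFinset]
  have hTc : T.card = H.ncard.choose 3 := by
    rw [hT, Finset.card_powersetCard, Set.ncard_eq_toFinset_card H hHf]
  have hJf := joints_finite hLf hline
  have hPL : (planeLines H \ L).Finite := (RealT.ncard_planeLines hHf).1.subset Set.sdiff_subset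
  have h4 : (badTriples H).ncard = (T.filter fun τ => τ ∈ badTriples H).card := by
    rw [← Set.ncard_coe_finset]
    congr 1
    ext τ
    rw [Finset.mem_coe, Finset.mem_filter]
    refine ⟨fun h => ⟨(hTmem τ).mpr ⟨h.1, h.2.1⟩, h⟩, fun h => h.2⟩
  set Gd := T.filter fun τ => τ ∉ badTriples H with hGd
  have h5 : (T.filter fun τ => τ ∈ badTriples H).card + Gd.card = T.card :=
    Finset.card_filter_add_card_filter_not _
  have hex : ∀ τ ∈ Gd, ∃ p : E3, Meet τ p ∧ ∀ P ∈ H, p ∈ P → P ∈ τ := by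
    intro τ hτ
    obtain ⟨h1, h2⟩ := Finset.mem_filter.mp hτ
    by_contra hcon
    obtain ⟨h3, h4⟩ := (hTmem τ).mp h1
    exact h2 ⟨h3, h4, hcon⟩
  choose! pt hpt hpriv using hex
  set A := Gd.filter fun τ => IsJoint L (pt τ) with hA
  set B := Gd.filter fun τ => ¬ IsJoint L (pt τ) with hB
  have h6 : A.card + B.card = Gd.card := Finset.card_filter_add_card_filter_not _
  have h7 : A.card ≤ numJoints L := by
    rw [numJoints, Set.ncard_eq_toFinset_card _ hJf]
    refine Finset.card_le_card_of_injOn pt ?_ ?_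
    · intro τ hτ
      have := (Finset.mem_filter.mp hτ).2
      simpa using this
    · intro τ hτ τ' hτ' heq
      have g1 := (Finset.mem_filter.mp hτ).1
      have g2 := (Finset.mem_filter.mp hτ').1
      have t1 := ((hTmem τ).mp (Finset.mem_filter.mp g1).1).1
      have t2 := ((hTmem τ').mp (Finset.mem_filter.mp g2).1).1
      ext S
      constructor
      · intro hS
        exact hpriv τ' g2 S (t1 hS) (heq ▸ ((hpt τ g1 (pt τ)).mpr rfl) S hS)
      · intro hS
        exact hpriv τ g1 S (t2 hS) (heq ▸ ((hpt τ' g2 (pt τ')).mpr rfl) S hS)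
  have hex3 : ∀ τ ∈ B, ∃ x ∈ hPL.toFinset ×ˢ hHf.toFinset,
      (τ : Set (AffineSubspace ℝ E3)) = {S | S ∈ H ∧ x.1 ≤ S} ∪ {x.2} := by
    intro τ hτ
    obtain ⟨g1, hnj⟩ := Finset.mem_filter.mp hτ
    obtain ⟨t1, t2⟩ := (hTmem τ).mp (Finset.mem_filter.mp g1).1
    have hm := hpt τ g1
    have hpr := hpriv τ g1
    generalize pt τ = p at hm hpr hnj
    obtain ⟨P, Q, R, hPQ, hPR, hQR, rfl⟩ := Finset.card_eq_three.mp t2
    have hP : P ∈ H := t1 (by simp)
    have hQ : Q ∈ H := t1 (by simp)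
    have hR : R ∈ H := t1 (by simp)
    have key : ∀ P' Q' R' : AffineSubspace ℝ E3, P' ∈ H → Q' ∈ H → R' ∈ H → P' ≠ Q' →
        ({P, Q, R} : Finset (AffineSubspace ℝ E3)) = {P', Q', R'} → P' ⊓ Q' ∉ L →
        ∃ x ∈ hPL.toFinset ×ˢ hHf.toFinset,
          (({P, Q, R} : Finset (AffineSubspace ℝ E3)) : Set (AffineSubspace ℝ E3)) =
            {S | S ∈ H ∧ x.1 ≤ S} ∪ {x.2} := by
      intro P' Q' R' hP' hQ' hR' hne heq hnL
      refine ⟨(P' ⊓ Q', R'), ?_, ?_⟩
      · rw [Finset.mem_product]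
        refine ⟨?_, by simpa using hR'⟩
        rw [Set.Finite.mem_toFinset]
        exact ⟨⟨P', hP', Q', hQ', hne, rfl⟩, hnL⟩
      · rw [heq] at hm hpr ⊢
        exact triple_eq hH hP' hQ' hm hpr
    by_cases l1 : P ⊓ Q ∈ L
    · by_cases l2 : P ⊓ R ∈ L
      · by_cases l3 : Q ⊓ R ∈ L
        · exact absurd (joint_of_meet (hH P hP) (hH Q hQ) (hH R hR) hm l3 l2 l1) hnj
        · refine key Q R P hQ hR hP hQR ?_ l3
          ext S; simp only [Finset.mem_insert, Finset.mem_singleton]; tauto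
      · refine key P R Q hP hR hQ hPR ?_ l2
        ext S; simp only [Finset.mem_insert, Finset.mem_singleton]; tauto
    · exact key P Q R hP hQ hR hPQ rfl l1
  choose! φ hφ1 hφ2 using hex3
  have h8 : B.card ≤ (planeLines H \ L).ncard * H.ncard := by
    rw [Set.ncard_eq_toFinset_card _ hPL, Set.ncard_eq_toFinset_card H hHf, ← Finset.card_product]
    refine Finset.card_le_card_of_injOn φ (fun τ hτ => hφ1 τ hτ) ?_
    intro τ hτ τ' hτ' heq
    apply Finset.coe_injective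
    rw [hφ2 τ hτ, hφ2 τ' hτ', heq]
  rw [h4, ← hTc, ← h5]
  omega

end Stab

end Pool.Agent.Lib.MP_a8d5c3_co
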