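import Mathlib
import Pool.Agent.Lib.MP_a8d5c3_co.Stab.Gen

/-!
Near-extremal sequences are exactly the sequences close to asymptotically generic plane
configurations.
-/

set_option autoImplicit false

namespace Pool.Agent.Lib.MP_a8d5c3_co.Stab

open Filter Topology Pool.Agent.Lib.MP_a8d5c3_co

theorem rpow_sq {n : ℝ} (hn : 0 ≤ n) : (n ^ (3 / 2 : ℝ)) ^ 2 = n ^ 3 := by
  rw [← Real.rpow_natCast, ← Real.rpow_mul hn, ← Real.rpow_natCast]
  norm_num

/-- the sharp upper bound for real lines -/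
theorem numJoints_le {L : Set (AffineSubspace ℝ E3)} (hL : L.Finite) (hline : ∀ l ∈ L, IsLine l) :
    (numJoints L : ℝ) ≤ √2 / 3 * (L.ncard : ℝ) ^ (3 / 2 : ℝ) := by
  obtain ⟨s, A, V, c, tr, hdata, hcL, hcJ, hJf, -⟩ := RealT.exists_cfg hL hline
  have h1 : (c.L.card : ℝ) = L.ncard := by
    have : c.L.card = L.ncard := by
      rw [← Set.ncard_coe_finset, hcL]
      exact Set.InjOn.ncard_image fun l hl l' hl' h =>
        RealT.mkLn_inj (hdata l hl) (hdata l' hl') h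
    exact_mod_cast this
  have h2 : (c.J.card : ℝ) = numJoints L := by
    have : c.J.card = numJoints L := by
      rw [← Set.ncard_coe_finset, hcJ, numJoints]
      exact Set.ncard_image_of_injective _ (RealT.toPt_injective s)
    exact_mod_cast this
  have h3 := jointsLe c
  rw [h1, h2] at h3
  have hn : (0 : ℝ) ≤ L.ncard := Nat.cast_nonneg _
  have h4 : (numJoints L : ℝ) ^ 2 ≤ (√2 / 3 * (L.ncard : ℝ) ^ (3 / 2 : ℝ)) ^ 2 := by
    rw [mul_pow, rpow_sq hn, div_pow, Real.sq_sqrt (by norm_num)]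
    linarith
  exact (pow_le_pow_iff_left₀ (Nat.cast_nonneg _) (by positivity) two_ne_zero).mp h4

theorem sqrt_two_bounds : 1.4 < √2 ∧ √2 < 1.5 := by
  constructor
  · apply Real.lt_sqrt_of_sq_lt; norm_num
  · rw [Real.sqrt_lt' (by norm_num)]; norm_num

theorem choose_three_le (h : ℕ) : 6 * (h.choose 3 : ℝ) ≤ (h : ℝ) ^ 3 := by
  have h1 : h.choose 3 * 6 = h.descFactorial 3 := by
    rw [Nat.descFactorial_eq_factorial_mul_choose, show Nat.factorial 3 = 6 from rfl, mul_comm]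
  have h2 : h.descFactorial 3 ≤ h ^ 3 := Nat.descFactorial_le_pow h 3
  have h3 : ((h.choose 3 * 6 : ℕ) : ℝ) ≤ ((h ^ 3 : ℕ) : ℝ) := by exact_mod_cast h1.le.trans h2
  push_cast at h3
  linarith

theorem le_choose_three (h : ℕ) : (h : ℝ) ^ 3 - 3 * (h : ℝ) ^ 2 ≤ 6 * (h.choose 3 : ℝ) := by
  have h1 : h.choose 3 * 6 = h.descFactorial 3 := by
    rw [Nat.descFactorial_eq_factorial_mul_choose, show Nat.factorial 3 = 6 from rfl, mul_comm]
  have h2 : ((h.choose 3 * 6 : ℕ) : ℝ) = ((h.descFactorial 3 : ℕ) : ℝ) := by exact_mod_cast h1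
  have h3 : (h : ℝ) ^ 3 - 3 * (h : ℝ) ^ 2 ≤ ((h.descFactorial 3 : ℕ) : ℝ) := by
    rcases Nat.lt_or_ge h 2 with h4 | h4
    · interval_cases h <;> simp [Nat.descFactorial]
    · obtain ⟨k, rfl⟩ := Nat.exists_eq_add_of_le h4
      have e : (2 + k).descFactorial 3 = (2 + k) * (1 + k) * k := by
        simp only [Nat.descFactorial]
        have h1 : 2 + k - 2 = k := by omega
        have h3 : 2 + k - 1 = 1 + k := by omega
        rw [h1, h3, Nat.sub_zero]; ring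
      rw [e]; push_cast; nlinarith [Nat.cast_nonneg (α := ℝ) k]
  push_cast at h2
  linarith

/-- near-extremal sets of lines: the planes are almost in general position -/
theorem forward {δ : ℝ} (hδ : 0 < δ) : ∃ ε : ℝ, 0 < ε ∧ ∃ n0 : ℕ,
    ∀ L : Set (AffineSubspace ℝ E3), L.Finite → (∀ l ∈ L, IsLine l) → n0 ≤ L.ncard →
    (√2 / 3 - ε) * (L.ncard : ℝ) ^ (3 / 2 : ℝ) ≤ numJoints L →
    ∃ H : Set (AffineSubspace ℝ E3), H.Finite ∧ (∀ P ∈ H, IsPlane P) ∧
      ((badTriples H).ncard : ℝ) ≤ δ * (H.ncard : ℝ) ^ 3 ∧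
      ((symmDiff L (planeLines H)).ncard : ℝ) ≤ δ * L.ncard := by
  set δ' : ℝ := min (δ / 5) (1 / 10) with hδ'
  have hδ'0 : 0 < δ' := lt_min (by positivity) (by norm_num)
  have hδ'1 : δ' ≤ δ / 5 := min_le_left _ _
  have hδ'2 : δ' ≤ 1 / 10 := min_le_right _ _
  obtain ⟨ε, hε, n0, h⟩ := real_stability δ' hδ'0
  refine ⟨ε, hε, n0, fun L hL hline hn hJ => ?_⟩
  obtain ⟨H, hHf, hH, hcard, hsymm, hjoint⟩ := h L hL hline hn hJ
  refine ⟨H, hHf, hH, ?_, hsymm.trans (mul_le_mul_of_nonneg_right (by linarith) (Nat.cast_nonneg _))⟩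
  have hbad := bad_le hHf hH (L := L ∩ planeLines H) Set.inter_subset_right
    (hL.subset Set.inter_subset_left) (fun l hl => hline l hl.1)
  have hbad' : ((badTriples H).ncard : ℝ) + 2 * numJoints (L ∩ planeLines H) ≤
      2 * (H.ncard.choose 3 : ℝ) := by exact_mod_cast hbad
  have hc := choose_three_le H.ncard
  have hn0 : (0 : ℝ) ≤ L.ncard := Nat.cast_nonneg _
  set N : ℝ := (L.ncard : ℝ) ^ (3 / 2 : ℝ) with hN
  have hN0 : 0 ≤ N := by positivity
  obtain ⟨s1, s2⟩ := sqrt_two_bounds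
  have hh3 : (H.ncard : ℝ) ^ 3 ≤ (1 + 7 * δ') * (2 * √2 * N) := by
    have h1 : (H.ncard : ℝ) ^ 3 ≤ ((1 + δ') * √(2 * L.ncard)) ^ 3 :=
      pow_le_pow_left₀ (Nat.cast_nonneg _) hcard 3
    have h2 : √(2 * (L.ncard : ℝ)) ^ 3 = 2 * √2 * N := by
      have h3 : √(2 * (L.ncard : ℝ)) ^ 3 = 2 * L.ncard * √(2 * L.ncard) := by
        rw [pow_succ, Real.sq_sqrt (by positivity)]
      rw [h3, Real.sqrt_mul (by norm_num), hN]
      have h4 : (L.ncard : ℝ) ^ (3 / 2 : ℝ) = L.ncard * √L.ncard := by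
        rw [Real.sqrt_eq_rpow]
        rcases eq_or_lt_of_le hn0 with h5 | h5
        · rw [← h5]; simp
        · rw [← Real.rpow_one_add' hn0 (by norm_num)]; norm_num
      rw [h4]; ring
    rw [mul_pow, h2] at h1
    have h5 : (1 + δ') ^ 3 ≤ 1 + 7 * δ' := by nlinarith [sq_nonneg δ']
    exact h1.trans (mul_le_mul_of_nonneg_right h5 (by positivity))
  have hlow : (√2 / 3 - δ') * N ≤ H.ncard.choose 3 := by
    have h1 : (0 : ℝ) ≤ (badTriples H).ncard := Nat.cast_nonneg _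
    linarith
  have hN3 : 2 * N ≤ (H.ncard : ℝ) ^ 3 := by
    have h1 : 2 * N ≤ 6 * ((√2 / 3 - δ') * N) := by nlinarith
    linarith
  have h1 : ((badTriples H).ncard : ℝ) ≤ 9 * δ' * N := by
    have h2 : 2 * √2 * N * δ' ≤ 3 * N * δ' := by
      have : 0 ≤ N * δ' := by positivity
      nlinarith
    nlinarith
  calc ((badTriples H).ncard : ℝ) ≤ 9 * δ' * N := h1
    _ = 9 / 2 * δ' * (2 * N) := by ring
    _ ≤ 9 / 2 * δ' * (H.ncard : ℝ) ^ 3 := mul_le_mul_of_nonneg_left hN3 (by positivity)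
    _ ≤ δ * (H.ncard : ℝ) ^ 3 := mul_le_mul_of_nonneg_right (by linarith) (by positivity)

theorem back1 {ε h n : ℝ} (hε0 : 0 < ε) (hε2 : ε ≤ 1 / 100) (hN0 : 0 ≤ n) (hh0 : 0 ≤ h)
    (h2 : 2 * (1 - ε) * n ≤ h ^ 2) : 2 * √2 * (1 - 2 * ε) * n ^ (3 / 2 : ℝ) ≤ h ^ 3 := by
  have a1 : (2 * √2 * (1 - 2 * ε) * n ^ (3 / 2 : ℝ)) ^ 2 ≤ (h ^ 3) ^ 2 := by
    have a2 : (2 * (1 - ε) * n) ^ 3 ≤ (h ^ 2) ^ 3 :=
      pow_le_pow_left₀ (mul_nonneg (by linarith) hN0) h2 3
    have a3 : (2 * √2 * (1 - 2 * ε) * n ^ (3 / 2 : ℝ)) ^ 2 = 8 * (1 - 2 * ε) ^ 2 * n ^ 3 := by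
      rw [mul_pow, rpow_sq hN0, mul_pow, mul_pow, Real.sq_sqrt (by norm_num)]; ring
    have a4 : (1 - 2 * ε) ^ 2 ≤ (1 - ε) ^ 3 := by
      have : (1 - ε) ^ 3 - (1 - 2 * ε) ^ 2 = ε * (1 - ε - ε ^ 2) := by ring
      have h3 : 0 ≤ ε * (1 - ε - ε ^ 2) := by
        apply mul_nonneg hε0.le
        nlinarith
      linarith
    rw [a3]
    calc 8 * (1 - 2 * ε) ^ 2 * n ^ 3 ≤ 8 * (1 - ε) ^ 3 * n ^ 3 := by
          apply mul_le_mul_of_nonneg_right _ (by positivity); linarith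
      _ = (2 * (1 - ε) * n) ^ 3 := by ring
      _ ≤ (h ^ 2) ^ 3 := a2
      _ = _ := by ring
  have a5 : 0 ≤ 2 * √2 * (1 - 2 * ε) * n ^ (3 / 2 : ℝ) := by
    apply mul_nonneg (mul_nonneg (by positivity) (by linarith)) (by positivity)
  exact (pow_le_pow_iff_left₀ a5 (by positivity) two_ne_zero).mp a1

theorem back2 {δ ε : ℝ} (hε0 : 0 < ε) (hε2 : ε ≤ 1 / 100) (hε1 : ε ≤ δ / 10) :
    √2 / 3 - δ ≤ (1 / 6 - 3 * ε) * (2 * √2 * (1 - 2 * ε)) := by
  obtain ⟨s1, s2⟩ := sqrt_two_bounds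
  have a1 : (1 / 6 - 3 * ε) * (2 * √2 * (1 - 2 * ε)) = √2 / 3 - √2 * (20 / 3 * ε - 12 * ε ^ 2) := by
    ring
  have a3 : 20 / 3 * ε - 12 * ε ^ 2 ≤ 20 / 3 * ε := by nlinarith
  have a4 : 0 ≤ 20 / 3 * ε - 12 * ε ^ 2 := by nlinarith
  have a2 : √2 * (20 / 3 * ε - 12 * ε ^ 2) ≤ 1.5 * (20 / 3 * ε) := by
    calc √2 * (20 / 3 * ε - 12 * ε ^ 2) ≤ 1.5 * (20 / 3 * ε - 12 * ε ^ 2) :=
          mul_le_mul_of_nonneg_right s2.le a4
      _ ≤ _ := by linarith
  rw [a1]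
  linarith

/-- sets of lines close to the lines of planes almost in general position are near-extremal -/
theorem backward {δ : ℝ} (hδ : 0 < δ) : ∃ ε : ℝ, 0 < ε ∧ ∃ n0 : ℕ,
    ∀ L : Set (AffineSubspace ℝ E3), L.Finite → (∀ l ∈ L, IsLine l) → n0 ≤ L.ncard →
    ∀ H : Set (AffineSubspace ℝ E3), H.Finite → (∀ P ∈ H, IsPlane P) →
      ((badTriples H).ncard : ℝ) ≤ ε * (H.ncard : ℝ) ^ 3 →
      ((symmDiff L (planeLines H)).ncard : ℝ) ≤ ε * L.ncard →
    (√2 / 3 - δ) * (L.ncard : ℝ) ^ (3 / 2 : ℝ) ≤ numJoints L := by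
  set ε : ℝ := min (δ / 10) (1 / 100) with hε
  have hε0 : 0 < ε := lt_min (by positivity) (by norm_num)
  have hε1 : ε ≤ δ / 10 := min_le_left _ _
  have hε2 : ε ≤ 1 / 100 := min_le_right _ _
  obtain ⟨n0, hn0⟩ := exists_nat_ge ((1 / (2 * ε)) ^ 2)
  refine ⟨ε, hε0, n0, fun L hL hline hn H hHf hH hbad hsymm => ?_⟩
  obtain ⟨hPf, hPc⟩ := RealT.ncard_planeLines hHf
  have hsf : (symmDiff L (planeLines H)).Finite :=
    (hL.union hPf).subset (by
      intro x hx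
      rcases hx with h | h
      · exact Or.inl h.1
      · exact Or.inr h.1)
  have hN0 : (0 : ℝ) ≤ L.ncard := Nat.cast_nonneg _
  set h : ℝ := (H.ncard : ℝ) with hh
  have hh0 : 0 ≤ h := Nat.cast_nonneg _
  set n : ℝ := (L.ncard : ℝ) with hnn
  -- the number of planes is large
  have h1 : n ≤ h ^ 2 / 2 + ε * n := by
    have a1 : L.ncard ≤ (planeLines H).ncard + (symmDiff L (planeLines H)).ncard := by
      have a2 : L ⊆ planeLines H ∪ symmDiff L (planeLines H) := by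
        intro l hl
        by_cases h2 : l ∈ planeLines H
        · exact Or.inl h2
        · exact Or.inr (Or.inl ⟨hl, h2⟩)
      exact (Set.ncard_le_ncard a2 (hPf.union hsf)).trans (Set.ncard_union_le _ _)
    have a3 : n ≤ (planeLines H).ncard + (symmDiff L (planeLines H)).ncard := by
      rw [hnn]; exact_mod_cast a1
    linarith
  have h2 : 2 * (1 - ε) * n ≤ h ^ 2 := by linarith
  -- joints
  have h3 := joints_ge hHf hH hL hline
  have h4 : ((planeLines H \ L).ncard : ℝ) ≤ ε * n := by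
    have a1 : (planeLines H \ L).ncard ≤ (symmDiff L (planeLines H)).ncard :=
      Set.ncard_le_ncard (fun l hl => Or.inr hl) hsf
    exact le_trans (by exact_mod_cast a1) hsymm
  have h3' : (H.ncard.choose 3 : ℝ) ≤ numJoints L + (badTriples H).ncard +
      (planeLines H \ L).ncard * h := by rw [hh]; exact_mod_cast h3
  have h5 := le_choose_three H.ncard
  rw [← hh] at h5
  have h6 : ((planeLines H \ L).ncard : ℝ) * h ≤ ε * h ^ 3 := by
    calc _ ≤ ε * n * h := mul_le_mul_of_nonneg_right h4 hh0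
      _ ≤ ε * h ^ 2 * h := by
          apply mul_le_mul_of_nonneg_right _ hh0
          apply mul_le_mul_of_nonneg_left _ hε0.le
          nlinarith
      _ = _ := by ring
  have h7 : h ^ 3 / 6 - h ^ 2 / 2 - 2 * ε * h ^ 3 ≤ numJoints L := by linarith
  -- h is large
  have h8 : 1 / (2 * ε) ≤ h := by
    have a1 : (1 / (2 * ε)) ^ 2 ≤ n := hn0.trans (by rw [hnn]; exact_mod_cast hn)
    have a2 : (1 / (2 * ε)) ^ 2 ≤ h ^ 2 := by nlinarith
    exact (pow_le_pow_iff_left₀ (by positivity) hh0 two_ne_zero).mp a2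
  have h9 : h ^ 2 / 2 ≤ ε * h ^ 3 := by
    have a1 : 1 ≤ h * (2 * ε) := by
      rw [div_le_iff₀ (by positivity)] at h8; exact h8
    have a2 : h ^ 2 * 1 ≤ h ^ 2 * (h * (2 * ε)) := mul_le_mul_of_nonneg_left a1 (by positivity)
    linarith
  have h10 : (1 / 6 - 3 * ε) * h ^ 3 ≤ numJoints L := by linarith
  -- compare with n
  have h11 : 2 * √2 * (1 - 2 * ε) * n ^ (3 / 2 : ℝ) ≤ h ^ 3 := back1 hε0 hε2 hN0 hh0 h2
  have h12 : (1 / 6 - 3 * ε) * (2 * √2 * (1 - 2 * ε) * n ^ (3 / 2 : ℝ)) ≤ numJoints L :=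
    (mul_le_mul_of_nonneg_left h11 (by linarith)).trans h10
  refine le_trans ?_ h12
  have h13 : √2 / 3 - δ ≤ (1 / 6 - 3 * ε) * (2 * √2 * (1 - 2 * ε)) := back2 hε0 hε2 hε1
  calc (√2 / 3 - δ) * n ^ (3 / 2 : ℝ) ≤
      (1 / 6 - 3 * ε) * (2 * √2 * (1 - 2 * ε)) * n ^ (3 / 2 : ℝ) :=
        mul_le_mul_of_nonneg_right h13 (by positivity)
    _ = _ := by ring

/-- characterisation of the near-extremal sequences -/
theorem characterization (L : ℕ → Set (AffineSubspace ℝ E3))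
    (hL : ∀ k, (L k).Finite ∧ ∀ l ∈ L k, IsLine l)
    (hn : Tendsto (fun k => (L k).ncard) atTop atTop) :
    Tendsto (fun k => (numJoints (L k) : ℝ) / ((L k).ncard : ℝ) ^ (3 / 2 : ℝ)) atTop
      (𝓝 (√2 / 3)) ↔
    ∃ H : ℕ → Set (AffineSubspace ℝ E3), (∀ k, (H k).Finite ∧ ∀ P ∈ H k, IsPlane P) ∧
      Tendsto (fun k => ((badTriples (H k)).ncard : ℝ) / ((H k).ncard : ℝ) ^ 3) atTop (𝓝 0) ∧
      Tendsto (fun k => ((symmDiff (L k) (planeLines (H k))).ncard : ℝ) / ((L k).ncard : ℝ))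
        atTop (𝓝 0) := by
  constructor
  · intro hlim
    set P : Set (Set (AffineSubspace ℝ E3)) := {H | H.Finite ∧ ∀ P ∈ H, IsPlane P} with hP
    set cost : ℕ → Set (AffineSubspace ℝ E3) → ℝ := fun k H =>
      ((badTriples H).ncard : ℝ) / (H.ncard : ℝ) ^ 3 +
        ((symmDiff (L k) (planeLines H)).ncard : ℝ) / ((L k).ncard : ℝ) with hcost
    have hcost0 : ∀ k H, 0 ≤ cost k H := fun k H => by
      simp only [hcost]; positivity
    have hne : ∀ k, (cost k '' P).Nonempty := fun k => ⟨_, ∅, ⟨Set.finite_empty, by simp⟩, rfl⟩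
    have hbdd : ∀ k, BddBelow (cost k '' P) := fun k => ⟨0, by rintro _ ⟨H, -, rfl⟩; exact hcost0 k H⟩
    have hchoose : ∀ k : ℕ, ∃ H ∈ P, cost k H < sInf (cost k '' P) + 1 / ((k : ℝ) + 1) := by
      intro k
      obtain ⟨_, ⟨H, hH, rfl⟩, hlt⟩ := exists_lt_of_csInf_lt (hne k)
        (show sInf (cost k '' P) < sInf (cost k '' P) + 1 / ((k : ℝ) + 1) by
          have : (0 : ℝ) < 1 / ((k : ℝ) + 1) := by positivity
          linarith)
      exact ⟨H, hH, hlt⟩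
    choose H hHP hHc using hchoose
    have hsmall : ∀ δ : ℝ, 0 < δ → ∀ᶠ k in atTop, sInf (cost k '' P) ≤ 2 * δ := by
      intro δ hδ
      obtain ⟨ε, hε, n0, h⟩ := forward hδ
      have e1 : ∀ᶠ k in atTop, √2 / 3 - ε < (numJoints (L k) : ℝ) / ((L k).ncard : ℝ) ^ (3 / 2 : ℝ) :=
        hlim.eventually (lt_mem_nhds (by linarith))
      filter_upwards [e1, hn.eventually_ge_atTop n0, hn.eventually_ge_atTop 1] with k h1 h2 h3
      have hpos : (0 : ℝ) < ((L k).ncard : ℝ) := by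
        have : (1 : ℝ) ≤ (L k).ncard := by exact_mod_cast h3
        linarith
      have hN : (0 : ℝ) < ((L k).ncard : ℝ) ^ (3 / 2 : ℝ) := Real.rpow_pos_of_pos hpos _
      obtain ⟨H', a1, a2, a3, a4⟩ := h (L k) (hL k).1 (hL k).2 h2 (by
        rw [lt_div_iff₀ hN] at h1; exact h1.le)
      refine (csInf_le (hbdd k) ⟨H', ⟨a1, a2⟩, rfl⟩).trans ?_
      simp only [hcost]
      have b1 : ((badTriples H').ncard : ℝ) / (H'.ncard : ℝ) ^ 3 ≤ δ :=
        div_le_of_le_mul₀ (by positivity) hδ.le a3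
      have b2 : ((symmDiff (L k) (planeLines H')).ncard : ℝ) / ((L k).ncard : ℝ) ≤ δ :=
        div_le_of_le_mul₀ (by positivity) hδ.le a4
      linarith
    have hlim2 : Tendsto (fun k => cost k (H k)) atTop (𝓝 0) := by
      rw [Metric.tendsto_nhds]
      intro δ hδ
      have e1 := hsmall (δ / 4) (by positivity)
      have e2 : ∀ᶠ k : ℕ in atTop, 1 / ((k : ℝ) + 1) < δ / 2 :=
        (tendsto_one_div_add_atTop_nhds_zero_nat (𝕜 := ℝ)).eventually (gt_mem_nhds (by positivity))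
      filter_upwards [e1, e2] with k h1 h2
      rw [Real.dist_eq, sub_zero, abs_of_nonneg (hcost0 _ _)]
      have := hHc k
      linarith
    refine ⟨H, fun k => hHP k, ?_, ?_⟩
    · refine squeeze_zero (fun k => by positivity) (fun k => ?_) hlim2
      simp only [hcost]
      have : (0 : ℝ) ≤ ((symmDiff (L k) (planeLines (H k))).ncard : ℝ) / ((L k).ncard : ℝ) := by
        positivity
      linarith
    · refine squeeze_zero (fun k => by positivity) (fun k => ?_) hlim2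
      simp only [hcost]
      have : (0 : ℝ) ≤ ((badTriples (H k)).ncard : ℝ) / ((H k).ncard : ℝ) ^ 3 := by
        positivity
      linarith
  · rintro ⟨H, hH, hb, hs⟩
    rw [Metric.tendsto_nhds]
    intro δ hδ
    obtain ⟨ε, hε, n0, h⟩ := backward (show (0 : ℝ) < δ / 2 by positivity)
    have e1 : ∀ᶠ k in atTop, ((badTriples (H k)).ncard : ℝ) / ((H k).ncard : ℝ) ^ 3 < ε :=
      hb.eventually (gt_mem_nhds hε)
    have e2 : ∀ᶠ k in atTop,
        ((symmDiff (L k) (planeLines (H k))).ncard : ℝ) / ((L k).ncard : ℝ) < ε :=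
      hs.eventually (gt_mem_nhds hε)
    filter_upwards [e1, e2, hn.eventually_ge_atTop n0, hn.eventually_ge_atTop 1] with k h1 h2 h3 h4
    have hpos : (0 : ℝ) < ((L k).ncard : ℝ) := by
      have : (1 : ℝ) ≤ (L k).ncard := by exact_mod_cast h4
      linarith
    have hN : (0 : ℝ) < ((L k).ncard : ℝ) ^ (3 / 2 : ℝ) := Real.rpow_pos_of_pos hpos _
    have hb' : ((badTriples (H k)).ncard : ℝ) ≤ ε * ((H k).ncard : ℝ) ^ 3 := by
      rcases Nat.eq_zero_or_pos (H k).ncard with h0 | h0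
      · have : badTriples (H k) = ∅ := by
          ext τ
          simp only [Set.mem_empty_iff_false, iff_false]
          rintro ⟨t1, t2, -⟩
          have hHe : H k = ∅ := (Set.ncard_eq_zero (hH k).1).mp h0
          rw [hHe, Set.subset_empty_iff, Finset.coe_eq_empty] at t1
          rw [t1] at t2; simp at t2
        rw [this]; simp [h0]
      · have : (0 : ℝ) < ((H k).ncard : ℝ) ^ 3 := by positivity
        rw [div_lt_iff₀ this] at h1; exact h1.le
    have hs' : ((symmDiff (L k) (planeLines (H k))).ncard : ℝ) ≤ ε * ((L k).ncard : ℝ) := by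
      rw [div_lt_iff₀ hpos] at h2; exact h2.le
    have hlow := h (L k) (hL k).1 (hL k).2 h3 (H k) (hH k).1 (hH k).2 hb' hs'
    have hup := numJoints_le (hL k).1 (hL k).2
    rw [Real.dist_eq, abs_lt]
    have g1 : √2 / 3 - δ / 2 ≤ (numJoints (L k) : ℝ) / ((L k).ncard : ℝ) ^ (3 / 2 : ℝ) := by
      rw [le_div_iff₀ hN]; exact hlow
    have g2 : (numJoints (L k) : ℝ) / ((L k).ncard : ℝ) ^ (3 / 2 : ℝ) ≤ √2 / 3 := by
      rw [div_le_iff₀ hN]; exact hup
    constructor <;> linarith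

end Pool.Agent.Lib.MP_a8d5c3_co.Stab
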