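import Pool.Agent.Lib.MP_a8d5c3_co.Stab.SharpPoly

/-!
T1, part 2: minimisation over the feasible families.
-/

set_option autoImplicit false
set_option maxHeartbeats 1000000

namespace Pool.Agent.Lib.MP_a8d5c3_co.Stab

open MvPolynomial Matrix Classical

/-- the total mass at a joint -/
noncomputable def Ssum (c : Cfg) (b : c.X → ℝ) (q : c.J) : ℝ := ∑ i, b (q, i)

/-- the penalised functional -/
noncomputable def Phi (c : Cfg) (δ : ℝ) (b : c.X → ℝ) : ℝ :=
  ∑ q, Ssum c b q ^ 2 + δ * ∑ x, b x ^ 2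

theorem Feas.le_one {c : Cfg} {b : c.X → ℝ} (h : Feas c b) (x : c.X) : b x ≤ 1 := by
  rw [← h.one x]
  refine le_trans ?_ (Finset.single_le_sum (f := fun y => if c.lm y = c.lm x then b y else 0)
    (fun y _ => ?_) (Finset.mem_univ x))
  · simp
  · split_ifs
    · exact h.nn y
    · exact le_rfl

theorem isCompact_feas (c : Cfg) : IsCompact {b : c.X → ℝ | Feas c b} := by
  have hcl : IsClosed {b : c.X → ℝ | Feas c b} := by
    have h1 : {b : c.X → ℝ | Feas c b} = (⋂ x, {b : c.X → ℝ | 0 ≤ b x}) ∩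
        ⋂ x, {b : c.X → ℝ | ∑ y, (if c.lm y = c.lm x then b y else 0) = 1} := by
      ext b
      simp only [Set.mem_inter_iff, Set.mem_iInter, Set.mem_ofPred_eq]
      exact ⟨fun h => ⟨h.nn, h.one⟩, fun h => ⟨h.1, h.2⟩⟩
    rw [h1]
    refine IsClosed.inter (isClosed_iInter fun x => isClosed_le continuous_const
      (continuous_apply x)) (isClosed_iInter fun x => isClosed_eq ?_ continuous_const)
    refine continuous_finsetSum _ fun y _ => ?_
    split_ifs
    · exact continuous_apply y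
    · exact continuous_const
  refine IsCompact.of_isClosed_subset (isCompact_Icc (a := (0 : c.X → ℝ)) (b := 1)) hcl ?_
  intro b hb
  exact ⟨fun x => hb.nn x, fun x => hb.le_one x⟩

theorem feas_nonempty (c : Cfg) : ∃ b : c.X → ℝ, Feas c b := by
  refine ⟨fun x => 1 / ((Finset.univ.filter fun z : c.X => c.lm z = c.lm x).card : ℝ), ?_, ?_⟩
  · intro x; positivity
  · intro x
    rw [← Finset.sum_filter]
    have h1 : ∀ y ∈ Finset.univ.filter (fun y : c.X => c.lm y = c.lm x),
        1 / ((Finset.univ.filter fun z : c.X => c.lm z = c.lm y).card : ℝ) =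
        1 / ((Finset.univ.filter fun z : c.X => c.lm z = c.lm x).card : ℝ) := by
      intro y hy
      rw [(Finset.mem_filter.1 hy).2]
    rw [Finset.sum_congr rfl h1, Finset.sum_const, nsmul_eq_mul]
    have h2 : ((Finset.univ.filter fun z : c.X => c.lm z = c.lm x).card : ℝ) ≠ 0 := by
      rw [Nat.cast_ne_zero, Finset.card_ne_zero]
      exact ⟨x, by simp⟩
    field_simp

/-- shift mass `t` from `y` to `x` -/
noncomputable def shift {I : Type*} (x y : I) (t : ℝ) (b : I → ℝ) : I → ℝ :=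
  fun z => b z + (if z = x then t else 0) - (if z = y then t else 0)

theorem sum_sq_shift {I : Type*} [Fintype I] {x y : I} (hxy : x ≠ y) (t : ℝ) (g : I → ℝ) :
    ∑ z, shift x y t g z ^ 2 = ∑ z, g z ^ 2 + 2 * t * (g x - g y) + 2 * t ^ 2 := by
  have h1 : ∀ z, shift x y t g z ^ 2 = g z ^ 2 + (if z = x then 2 * t * g z + t ^ 2 else 0) +
      (if z = y then - 2 * t * g z + t ^ 2 else 0) := by
    intro z
    unfold shift
    by_cases hzx : z = x
    · have hzy : z ≠ y := fun h => hxy (hzx.symm.trans h)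
      rw [if_pos hzx, if_pos hzx, if_neg hzy, if_neg hzy]
      ring
    · by_cases hzy : z = y
      · rw [if_neg hzx, if_neg hzx, if_pos hzy, if_pos hzy]
        ring
      · rw [if_neg hzx, if_neg hzx, if_neg hzy, if_neg hzy]
        ring
  rw [Finset.sum_congr rfl fun z _ => h1 z, Finset.sum_add_distrib, Finset.sum_add_distrib,
    Finset.sum_ite_eq', Finset.sum_ite_eq']
  simp only [Finset.mem_univ, if_true]
  ring

theorem feas_shift {c : Cfg} {b : c.X → ℝ} (h : Feas c b) {x y : c.X} (hl : c.lm x = c.lm y)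
    {t : ℝ} (ht : 0 ≤ t) (hty : t ≤ b y) : Feas c (shift x y t b) := by
  constructor
  · intro z
    unfold shift
    have := h.nn z
    by_cases hzy : z = y
    · rw [if_pos hzy, hzy]
      split_ifs <;> linarith
    · rw [if_neg hzy]
      split_ifs <;> linarith
  · intro z
    rw [← h.one z]
    have h1 : ∀ w : c.X, (if c.lm w = c.lm z then shift x y t b w else 0) =
        (if c.lm w = c.lm z then b w else 0) +
        (if w = x then (if c.lm x = c.lm z then t else 0) else 0) -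
        (if w = y then (if c.lm y = c.lm z then t else 0) else 0) := by
      intro w
      unfold shift
      by_cases hw : c.lm w = c.lm z
      · rw [if_pos hw, if_pos hw]
        congr 1
        · congr 1
          split_ifs with h1 h2 h2
          · rfl
          · exact absurd (h1 ▸ hw) h2
          · rfl
        · split_ifs with h1 h2 h2
          · rfl
          · exact absurd (h1 ▸ hw) h2
          · rfl
      · rw [if_neg hw, if_neg hw]
        have h2 : (if w = x then (if c.lm x = c.lm z then t else 0) else 0) = 0 := by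
          split_ifs with h1 h2
          · exact absurd (h1 ▸ h2) hw
          · rfl
          · rfl
        have h3 : (if w = y then (if c.lm y = c.lm z then t else 0) else 0) = 0 := by
          split_ifs with h1 h2
          · exact absurd (h1 ▸ h2) hw
          · rfl
          · rfl
        rw [h2, h3]; ring
    rw [Finset.sum_congr rfl fun w _ => h1 w, Finset.sum_sub_distrib, Finset.sum_add_distrib,
      Finset.sum_ite_eq', Finset.sum_ite_eq']
    simp only [Finset.mem_univ, if_true]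
    rw [hl]
    ring

theorem Ssum_shift {c : Cfg} (b : c.X → ℝ) (x y : c.X) (t : ℝ) :
    Ssum c (shift x y t b) = shift x.1 y.1 t (Ssum c b) := by
  funext q
  unfold Ssum shift
  rw [Finset.sum_sub_distrib, Finset.sum_add_distrib]
  have h1 : ∀ z : c.X, ∑ i, (@ite ℝ ((q, i) = z) (Classical.propDecidable _) t 0) =
      @ite ℝ (q = z.1) (Classical.propDecidable _) t 0 := by
    intro z
    split_ifs with h
    · rw [Finset.sum_eq_single z.2]
      · rw [if_pos]
        exact Prod.ext h rfl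
      · intro i _ hi
        rw [if_neg]
        intro h2
        exact hi (by rw [← h2])
      · intro h2; exact absurd (Finset.mem_univ _) h2
    · apply Finset.sum_eq_zero
      intro i _
      rw [if_neg]
      intro h2
      exact h (by rw [← h2])
  rw [h1, h1]

theorem Phi_shift {c : Cfg} (δ : ℝ) (b : c.X → ℝ) {x y : c.X} (h1 : x.1 ≠ y.1) (t : ℝ) :
    Phi c δ (shift x y t b) = Phi c δ b +
      2 * t * ((Ssum c b x.1 - Ssum c b y.1) + δ * (b x - b y)) + 2 * t ^ 2 * (1 + δ) := by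
  have hxy : x ≠ y := fun h => h1 (by rw [h])
  unfold Phi
  rw [Ssum_shift, sum_sq_shift h1, sum_sq_shift hxy]
  ring

/-- first order condition -/
theorem first_order {c : Cfg} {δ : ℝ} (hδ : 0 ≤ δ) {b : c.X → ℝ} (hb : Feas c b)
    (hmin : ∀ b', Feas c b' → Phi c δ b ≤ Phi c δ b') {x y : c.X} (hl : c.lm x = c.lm y)
    (hy : 0 < b y) : Ssum c b y.1 + δ * b y ≤ Ssum c b x.1 + δ * b x := by
  by_cases h1 : x.1 = y.1
  · rw [lm_inj c hl h1]
  by_contra hcon
  push Not at hcon
  set A := (Ssum c b x.1 - Ssum c b y.1) + δ * (b x - b y) with hA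
  have hA0 : A < 0 := by rw [hA]; linarith
  set t := min (b y) (-A / (2 * (1 + δ))) with ht
  have ht0 : 0 < t := by
    rw [ht]
    refine lt_min hy ?_
    apply div_pos <;> linarith
  have ht1 : t ≤ b y := min_le_left _ _
  have ht2 : t * (2 * (1 + δ)) ≤ -A := by
    have : t ≤ -A / (2 * (1 + δ)) := min_le_right _ _
    rwa [le_div_iff₀ (by linarith)] at this
  have h2 := hmin _ (feas_shift hb hl ht0.le ht1)
  rw [Phi_shift δ b h1] at h2
  nlinarith

theorem continuous_Ssum (c : Cfg) (q : c.J) : Continuous fun b : c.X → ℝ => Ssum c b q := by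
  unfold Ssum
  exact continuous_finsetSum _ fun i _ => continuous_apply _

theorem continuous_Phi (c : Cfg) (δ : ℝ) : Continuous (Phi c δ) := by
  unfold Phi
  refine (continuous_finsetSum _ fun q _ => (continuous_Ssum c q).pow 2).add
    (continuous_const.mul (continuous_finsetSum _ fun x _ => (continuous_apply x).pow 2))

theorem cube_le_choose (n : ℕ) : (n : ℝ) ^ 3 / 6 ≤ ((n + 2).choose 3 : ℕ) := by
  have h := Nat.descFactorial_eq_factorial_mul_choose (n + 2) 3
  have h1 : (n + 2).descFactorial 3 = (n + 2) * (n + 1) * n := by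
    simp [Nat.descFactorial]
    ring
  rw [h1] at h
  have h2 : (Nat.factorial 3) = 6 := rfl
  rw [h2] at h
  have h3 : (((n : ℝ) + 2) * (n + 1) * n) = 6 * ((n + 2).choose 3 : ℕ) := by exact_mod_cast h
  have h4 : (0 : ℝ) ≤ n := Nat.cast_nonneg n
  nlinarith

theorem exists_min_delta (c : Cfg) (hJ : c.J.Nonempty) {δ : ℝ} (hδ : 0 < δ) :
    ∃ b : c.X → ℝ, Feas c b ∧ (∀ b', Feas c b' → Phi c δ b ≤ Phi c δ b') ∧
      1 / 6 ≤ ∑ q : c.J, ∏ i, b (q, i) := by
  obtain ⟨b, hb, hmin⟩ := (isCompact_feas c).exists_isMinOn (feas_nonempty c)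
    (continuous_Phi c δ).continuousOn
  have hmin' : ∀ b', Feas c b' → Phi c δ b ≤ Phi c δ b' := fun b' hb' => hmin hb'
  have hb' : Feas c b := hb
  refine ⟨b, hb', hmin', ?_⟩
  have hpl := poly_lemma c hJ b hb' (fun q => -Ssum c b q / δ) (by
    intro x y hl hy
    have := first_order hδ.le hb' hmin' hl hy
    have h2 : (Ssum c b y.1 + δ * b y) / δ ≤ (Ssum c b x.1 + δ * b x) / δ := by gcongr
    have h3 : ∀ z : c.X, (Ssum c b z.1 + δ * b z) / δ = b z - -Ssum c b z.1 / δ := by
      intro z; field_simp; ring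
    rwa [h3, h3] at h2)
  have hn : ∀ n : ℕ, 1 ≤ n → (1 : ℝ) / 6 ≤ ∑ q : c.J, ∏ i, (b (q, i) + 1 / (n : ℝ)) := by
    intro n hn
    have hn0 : (0 : ℝ) < n := by exact_mod_cast hn
    have h1 := hpl n hn
    have h2 : (((n + 2).choose 3 : ℕ) : ℝ) ≤ ∑ q : c.J, ∏ i, ((⌈n * b (q, i)⌉₊ : ℕ) : ℝ) := by
      exact_mod_cast h1
    have h3 : ∑ q : c.J, ∏ i, ((⌈n * b (q, i)⌉₊ : ℕ) : ℝ) ≤
        ∑ q : c.J, ∏ i, (n * b (q, i) + 1) := by
      refine Finset.sum_le_sum fun q _ => Finset.prod_le_prod (fun i _ => Nat.cast_nonneg _)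
        fun i _ => ?_
      exact (Nat.ceil_lt_add_one (mul_nonneg hn0.le (hb'.nn _))).le
    have h4 : ∑ q : c.J, ∏ i, (n * b (q, i) + 1) =
        n ^ 3 * ∑ q : c.J, ∏ i, (b (q, i) + 1 / (n : ℝ)) := by
      rw [Finset.mul_sum]
      refine Finset.sum_congr rfl fun q _ => ?_
      rw [Fin.prod_univ_three, Fin.prod_univ_three]
      field_simp
    have h5 := (cube_le_choose n).trans (h2.trans (h3.trans_eq h4))
    have h6 : (0 : ℝ) < n ^ 3 := by positivity
    have h7 : (n : ℝ) ^ 3 * (1 / 6) ≤ n ^ 3 * ∑ q : c.J, ∏ i, (b (q, i) + 1 / (n : ℝ)) := by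
      linarith
    exact le_of_mul_le_mul_left h7 h6
  have hlim : Filter.Tendsto (fun n : ℕ => ∑ q : c.J, ∏ i, (b (q, i) + 1 / (n : ℝ)))
      Filter.atTop (nhds (∑ q : c.J, ∏ i, (b (q, i) + 0))) := by
    refine tendsto_finsetSum _ fun q _ => tendsto_finsetProd _ fun i _ => ?_
    exact tendsto_const_nhds.add tendsto_one_div_atTop_nhds_zero_nat
  simp only [add_zero] at hlim
  refine ge_of_tendsto hlim ?_
  filter_upwards [Filter.eventually_ge_atTop 1] with n hn1
  exact hn n hn1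

/-- Lemma A -/
theorem lemmaA (c : Cfg) (hJ : c.J.Nonempty) :
    ∃ b : c.X → ℝ, Feas c b ∧ 1 / 6 ≤ ∑ q : c.J, ∏ i, b (q, i) ∧
      ∀ b', Feas c b' → ∑ q, Ssum c b q ^ 2 ≤ ∑ q, Ssum c b' q ^ 2 := by
  have hcomp : IsCompact {b : c.X → ℝ | Feas c b ∧ 1 / 6 ≤ ∑ q : c.J, ∏ i, b (q, i)} := by
    have h0 : IsClosed {b : c.X → ℝ | 1 / 6 ≤ ∑ q : c.J, ∏ i, b (q, i)} :=
      isClosed_le continuous_const (continuous_finsetSum _ fun q _ =>
        continuous_finsetProd _ fun i _ => continuous_apply _)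
    have h1 : {b : c.X → ℝ | Feas c b ∧ 1 / 6 ≤ ∑ q : c.J, ∏ i, b (q, i)} =
        {b : c.X → ℝ | Feas c b} ∩ {b : c.X → ℝ | 1 / 6 ≤ ∑ q : c.J, ∏ i, b (q, i)} := by
      ext b
      simp only [Set.mem_inter_iff, Set.mem_ofPred_eq]
    rw [h1]
    exact (isCompact_feas c).inter_right h0
  have hne : ({b : c.X → ℝ | Feas c b ∧ 1 / 6 ≤ ∑ q : c.J, ∏ i, b (q, i)}).Nonempty := by
    obtain ⟨b, h1, -, h3⟩ := exists_min_delta c hJ one_pos
    exact ⟨b, h1, h3⟩
  have hcont : Continuous fun b : c.X → ℝ => ∑ q, Ssum c b q ^ 2 :=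
    continuous_finsetSum _ fun q _ => (continuous_Ssum c q).pow 2
  obtain ⟨b, hb, hmin⟩ := hcomp.exists_isMinOn hne hcont.continuousOn
  refine ⟨b, hb.1, hb.2, ?_⟩
  intro b' hb'
  -- for every `δ`
  have hδ : ∀ δ : ℝ, 0 < δ → ∑ q, Ssum c b q ^ 2 ≤ ∑ q, Ssum c b' q ^ 2 + δ * ∑ x, b' x ^ 2 := by
    intro δ hδ
    obtain ⟨bd, h1, h2, h3⟩ := exists_min_delta c hJ hδ
    have h4 : ∑ q, Ssum c b q ^ 2 ≤ ∑ q, Ssum c bd q ^ 2 := hmin ⟨h1, h3⟩
    have h5 := h2 b' hb'
    unfold Phi at h5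
    have h6 : 0 ≤ δ * ∑ x, bd x ^ 2 := mul_nonneg hδ.le (Finset.sum_nonneg fun _ _ => sq_nonneg _)
    linarith
  by_contra hcon
  push Not at hcon
  set D := ∑ x, b' x ^ 2 with hD
  have hD0 : 0 ≤ D := Finset.sum_nonneg fun _ _ => sq_nonneg _
  have h1 := hδ ((∑ q, Ssum c b q ^ 2 - ∑ q, Ssum c b' q ^ 2) / (2 * (D + 1)))
    (div_pos (by linarith) (by linarith))
  have h2 : (∑ q, Ssum c b q ^ 2 - ∑ q, Ssum c b' q ^ 2) / (2 * (D + 1)) * D ≤
      (∑ q, Ssum c b q ^ 2 - ∑ q, Ssum c b' q ^ 2) / 2 := by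
    rw [div_mul_eq_mul_div, div_le_div_iff₀ (by linarith) (by norm_num)]
    nlinarith
  linarith

end Pool.Agent.Lib.MP_a8d5c3_co.Stab
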