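import Pool.Agent.Lib.MP_a8d5c3_co.Stab.Stmts

/-!
T1, part 1: the polynomial lemma.
-/

set_option autoImplicit false
set_option maxHeartbeats 1000000

namespace Pool.Agent.Lib.MP_a8d5c3_co.Stab

open MvPolynomial Matrix

/-! ### dimension count -/

/-- exponents of degree less than `n` -/
def expo (n : ℕ) : Finset (Fin 3 →₀ ℕ) :=
  (Finset.range n).biUnion fun k => Finset.finsuppAntidiag Finset.univ k

theorem mem_expo {n : ℕ} {s : Fin 3 →₀ ℕ} : s ∈ expo n ↔ (∑ i, s i) < n := by
  unfold expo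
  simp [Finset.mem_biUnion, Finset.mem_finsuppAntidiag]

theorem card_expo (n : ℕ) : (expo n).card = (n + 2).choose 3 := by
  unfold expo
  rw [Finset.card_biUnion]
  · simp only [Finset.card_finsuppAntidiag_nat_eq_choose, Finset.card_univ, Fintype.card_fin]
    induction n with
    | zero => simp
    | succ n ih =>
      rw [Finset.sum_range_succ, ih]
      have h1 : (3 + n - 1).choose n = (n + 2).choose 2 := by
        rw [show 3 + n - 1 = n + 2 by omega]
        exact (Nat.choose_symm_add (a := n) (b := 2)).trans rfl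
      rw [h1, show n + 1 + 2 = (n + 2) + 1 by ring, Nat.choose_succ_succ' (n + 2) 2, add_comm]
  · intro a _ b _ hab
    rw [Function.onFun, Finset.disjoint_left]
    intro s hs hs'
    rw [Finset.mem_finsuppAntidiag] at hs hs'
    exact hab (hs.1.symm.trans hs'.1)

/-- finitely many linear conditions on polynomials of degree less than `n` -/
theorem exists_poly (n : ℕ) {ι : Type} [Fintype ι] (φ : ι → P3 →ₗ[ℂ] ℂ)
    (h : Fintype.card ι < (n + 2).choose 3) :
    ∃ f : P3, f ≠ 0 ∧ f.totalDegree < n ∧ ∀ i, φ i f = 0 := by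
  classical
  let pol : (expo n → ℂ) →ₗ[ℂ] P3 :=
    ∑ s : expo n, (MvPolynomial.monomial (R := ℂ) (s : Fin 3 →₀ ℕ)).comp (LinearMap.proj s)
  have hpol : ∀ a, pol a = ∑ s : expo n, MvPolynomial.monomial (s : Fin 3 →₀ ℕ) (a s) := by
    intro a
    simp [pol]
  let Ψ : (expo n → ℂ) →ₗ[ℂ] (ι → ℂ) := LinearMap.pi fun i => (φ i).comp pol
  have hker : LinearMap.ker Ψ ≠ ⊥ := by
    apply LinearMap.ker_ne_bot_of_finrank_lt
    rw [Module.finrank_fintype_fun_eq_card, Module.finrank_fintype_fun_eq_card,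
      Fintype.card_coe, card_expo]
    exact h
  obtain ⟨a, ha, ha0⟩ := (Submodule.ne_bot_iff _).1 hker
  have hcoeff : ∀ s : Fin 3 →₀ ℕ, (pol a).coeff s = if hs : s ∈ expo n then a ⟨s, hs⟩ else 0 := by
    intro s
    rw [hpol, MvPolynomial.coeff_sum]
    simp only [coeff_monomial]
    split_ifs with hs
    · rw [Finset.sum_eq_single (⟨s, hs⟩ : expo n)]
      · simp
      · intro b _ hb
        rw [if_neg]
        intro h; exact hb (Subtype.ext h)
      · intro h; exact absurd (Finset.mem_univ _) h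
    · apply Finset.sum_eq_zero
      intro b _
      rw [if_neg]
      rintro rfl; exact hs b.2
  have hn : 0 < n := by
    rcases Nat.eq_zero_or_pos n with rfl | h0
    · simp at h
    · exact h0
  refine ⟨pol a, ?_, ?_, ?_⟩
  · intro h0
    apply ha0
    funext s
    have := congrArg (coeff (s : Fin 3 →₀ ℕ)) h0
    rw [hcoeff, dif_pos s.2] at this
    simpa using this
  · rw [MvPolynomial.totalDegree, Finset.sup_lt_iff hn]
    intro s hs
    by_contra hcon
    have : s ∉ expo n := by
      rw [mem_expo]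
      intro h1
      apply hcon
      rwa [Finsupp.sum_fintype _ _ (by simp)]
    rw [mem_support_iff, hcoeff, dif_neg this] at hs
    exact hs rfl
  · intro i
    have := congrFun (LinearMap.mem_ker.1 ha) i
    simpa [Ψ] using this

/-! ### feasible families -/

/-- index set: a joint and one of its three lines -/
abbrev Cfg.X (c : Cfg) := c.J × Fin 3

/-- the line of an index -/
def Cfg.lm (c : Cfg) (x : c.X) : Ln := c.tri x.1 x.2

theorem tri_inj (c : Cfg) {q : Pt} (hq : q ∈ c.J) : Function.Injective (c.tri q) := by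
  intro i j hij
  have h := (c.indep q hq).injective
  apply h
  simp only [hij]

theorem lm_inj (c : Cfg) {x y : c.X} (h : c.lm x = c.lm y) (h1 : x.1 = y.1) : x = y := by
  obtain ⟨q, i⟩ := x
  obtain ⟨q', j⟩ := y
  simp only at h1
  subst h1
  have h3 : i = j := tri_inj c q.2 h
  rw [h3]

open Classical in
/-- feasible families -/
structure Feas (c : Cfg) (b : c.X → ℝ) : Prop where
  nn : ∀ x, 0 ≤ b x
  one : ∀ x, ∑ y, (if c.lm y = c.lm x then b y else 0) = 1

theorem has_frame {l : Ln} {q q' : Pt} {E : Matrix (Fin 3) (Fin 3) ℂ} {i : Fin 3}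
    (hq : l.Has q) (hq' : l.Has q') (hi : ∀ j, E j i = l.dir j) :
    q' = q + E *ᵥ (Pi.single i (q' 2 - q 2)) := by
  have h0 : E 0 i = l.u 0 := by simpa [Ln.dir] using hi 0
  have h1 : E 1 i = l.u 1 := by simpa [Ln.dir] using hi 1
  have h2 : E 2 i = 1 := by simpa [Ln.dir] using hi 2
  ext j
  rw [Matrix.mulVec_single]
  simp only [Pi.add_apply, Pi.smul_apply, MulOpposite.smul_eq_mul_unop, MulOpposite.unop_op,
    Matrix.col_apply]
  fin_cases j
  · simp only [Fin.zero_eta, h0, hq.zero, hq'.zero]; ring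
  · simp only [Fin.mk_one, h1, hq.one, hq'.one]; ring
  · simp only [Fin.reduceFinMk, h2]; ring

open Classical in
/-- The polynomial lemma. -/
theorem poly_lemma (c : Cfg) (hJ : c.J.Nonempty) (b : c.X → ℝ) (hb : Feas c b) (α : c.J → ℝ)
    (h : ∀ x y, c.lm x = c.lm y → 0 < b y → b y - α y.1 ≤ b x - α x.1) (n : ℕ) (hn : 1 ≤ n) :
    (n + 2).choose 3 ≤ ∑ q : c.J, ∏ i, ⌈n * b (q, i)⌉₊ := by
  by_contra hlt
  push Not at hlt
  let ι := Σ q : c.J, ∀ i : Fin 3, Fin ⌈n * b (q, i)⌉₊
  have hcard : Fintype.card ι = ∑ q : c.J, ∏ i, ⌈n * b (q, i)⌉₊ := by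
    simp [ι, Fintype.card_sigma, Fintype.card_pi]
  let φ : ι → P3 →ₗ[ℂ] ℂ := fun p =>
    { toFun := fun f => (aff p.1 (triE (c.tri p.1)) f).coeff
        (Finsupp.equivFunOnFinite.symm fun i => (p.2 i : ℕ))
      map_add' := by intro x y; rw [map_add, coeff_add]
      map_smul' := by intro r x; rw [map_smul, coeff_smul]; rfl }
  obtain ⟨f, hf, hdeg, hφ⟩ := exists_poly n φ (by rw [hcard]; exact hlt)
  have : Nonempty c.J := hJ.to_subtype
  obtain ⟨q, hq⟩ := Finite.exists_min (fun q : c.J => (ordP q f : ℝ) - n * α q)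
  obtain ⟨s, hs, hsum, -, -, -⟩ := exists_min_monomial (c.has q q.2) (c.indep q q.2) hf
  -- some coordinate is large
  obtain ⟨i, hi⟩ : ∃ i, ⌈n * b (q, i)⌉₊ ≤ s i := by
    by_contra hcon
    push Not at hcon
    have := hφ ⟨q, fun i => ⟨s i, hcon i⟩⟩
    apply hs
    have h2 : (Finsupp.equivFunOnFinite.symm fun i => s i) = s := by
      ext i; rfl
    simpa [φ, h2] using this
  set E := triE (c.tri q) with hE
  have hEdet : IsUnit E.det := triE_det (c.indep q q.2)
  set g := sl i s (aff q E f) with hg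
  have hg0 : g ≠ 0 := by
    intro h0
    have := congrArg (fun p => Polynomial.coeff p (s i)) h0
    simp only [hg, sl_coeff] at this
    rw [Finsupp.erase_add_single] at this
    exact hs (by simpa using this)
  set w := wt (Finset.univ.erase i) s with hw
  have hws : w + s i = ordP q f := by
    rw [← hsum, hw]
    unfold wt
    rw [add_comm, Finset.add_sum_erase _ _ (Finset.mem_univ i), Fin.sum_univ_three]
  have hdg : g.natDegree + w < n :=
    lt_of_le_of_lt ((natDegree_sl_le i s hg0).trans (totalDegree_aff_le _ _ _)) hdeg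
  set Y := Finset.univ.filter (fun y : c.X => c.lm y = c.lm (q, i)) with hY
  have hdiv : ∀ y ∈ Y, (Polynomial.X - Polynomial.C ((y.1 : Pt) 2 - (q : Pt) 2)) ^
      (ordP y.1 f - w) ∣ g := by
    intro y hy
    have hy' : c.lm y = c.lm (q, i) := (Finset.mem_filter.1 hy).2
    have hl : (c.tri q i).Has y.1 := by
      have := c.has y.1 y.1.2 y.2
      have e : c.tri y.1 y.2 = c.tri q i := hy'
      rwa [e] at this
    have hfr := has_frame (E := E) (i := i) (c.has q q.2 i) hl (fun j => triE_col _ _ _)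
    have h2 : f ∈ mI (q + E *ᵥ (Pi.single i ((y.1 : Pt) 2 - (q : Pt) 2))) ^ ordP y.1 f := by
      rw [← hfr, mem_mI_pow_iff _ hf]
    rw [mem_mI_pow_iff_frame hEdet] at h2
    have h3 := sl_dvd_of_mem (i := i) (x := Pi.single i ((y.1 : Pt) 2 - (q : Pt) 2)) (by
      intro j hj; rw [Pi.single_eq_of_ne hj]) h2 s
    rw [Pi.single_eq_same] at h3
    exact h3
  have hprod : (∏ y ∈ Y, (Polynomial.X - Polynomial.C ((y.1 : Pt) 2 - (q : Pt) 2)) ^
      (ordP y.1 f - w)) ∣ g := by
    refine Finset.prod_dvd_of_coprime ?_ hdiv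
    intro x hx y hy hxy
    refine IsCoprime.pow ?_
    apply Polynomial.isCoprime_X_sub_C_of_isUnit_sub
    rw [isUnit_iff_ne_zero, sub_ne_zero]
    intro hne
    have hx' : c.lm x = c.lm (q, i) := (Finset.mem_filter.1 hx).2
    have hy' : c.lm y = c.lm (q, i) := (Finset.mem_filter.1 hy).2
    apply hxy
    apply lm_inj c (hx'.trans hy'.symm)
    apply Subtype.ext
    have hlx : (c.lm (q, i)).Has x.1 := by
      rw [← hx']; exact c.has x.1 x.1.2 x.2
    have hly : (c.lm (q, i)).Has y.1 := by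
      rw [← hy']; exact c.has y.1 y.1.2 y.2
    rw [hlx, hly]
    congr 1
    linear_combination hne
  have hle := Polynomial.natDegree_le_of_dvd hprod hg0
  rw [Polynomial.natDegree_prod_of_monic _ _ fun q _ => (Polynomial.monic_X_sub_C _).pow _] at hle
  simp only [(Polynomial.monic_X_sub_C _).natDegree_pow, Polynomial.natDegree_X_sub_C,
    mul_one] at hle
  -- lower bound
  have hlow : ∀ y ∈ Y, (n : ℝ) * b y ≤ ((ordP y.1 f - w : ℕ) : ℝ) := by
    intro y hy
    have hy' : c.lm y = c.lm (q, i) := (Finset.mem_filter.1 hy).2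
    rcases (hb.nn y).eq_or_lt with h0 | h0
    · rw [← h0, mul_zero]; exact Nat.cast_nonneg _
    · have h1 := h (q, i) y hy'.symm h0
      have h2 := hq y.1
      have h3 : (n : ℝ) * b (q, i) ≤ s i := (Nat.le_ceil _).trans (by exact_mod_cast hi)
      have h4 : (ordP (q : Pt) f : ℝ) = w + s i := by exact_mod_cast hws.symm
      have h5 : ((ordP y.1 f : ℕ) : ℝ) - w ≤ ((ordP y.1 f - w : ℕ) : ℝ) := by
        rcases le_total w (ordP y.1 f) with h6 | h6
        · rw [Nat.cast_sub h6]
        · rw [Nat.sub_eq_zero_of_le h6]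
          have : ((ordP y.1 f : ℕ) : ℝ) ≤ w := by exact_mod_cast h6
          simp only [Nat.cast_zero]
          linarith
      have hn0 : (0 : ℝ) ≤ n := Nat.cast_nonneg _
      have h7 : (n : ℝ) * (b y - α y.1) ≤ n * (b (q, i) - α q) := mul_le_mul_of_nonneg_left h1 hn0
      nlinarith
  have hsumY : (n : ℝ) ≤ ((∑ y ∈ Y, (ordP y.1 f - w) : ℕ) : ℝ) := by
    have h1 : ∑ y ∈ Y, b y = 1 := by
      rw [hY, Finset.sum_filter]
      exact hb.one (q, i)
    calc (n : ℝ) = n * ∑ y ∈ Y, b y := by rw [h1, mul_one]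
      _ = ∑ y ∈ Y, (n : ℝ) * b y := by rw [Finset.mul_sum]
      _ ≤ ∑ y ∈ Y, ((ordP y.1 f - w : ℕ) : ℝ) := Finset.sum_le_sum hlow
      _ = _ := by push_cast; rfl
  have : n ≤ ∑ y ∈ Y, (ordP y.1 f - w) := by exact_mod_cast hsumY
  omega

end Pool.Agent.Lib.MP_a8d5c3_co.Stab
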